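import Mathlib

/-!
# Bhargava factorials of sets of integers

Definitions of `p`-orderings and of the Bhargava factorial, independence of the chosen
`p`-ordering, and existence of the factorial `n!_X` as soon as `X` has more than `n` elements.
-/

set_option autoImplicit false

namespace Pool.Agent.V11296.Bhargava

open Finset Polynomial

/-- `a 0, a 1, …, a n` are the first `n + 1` terms of a `p`-ordering of the set `X`: for each
`k ≤ n` the element `a k` of `X` is different from `a 0, …, a (k-1)` (so that the product below is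
not zero) and minimises the exponent of `p` in `∏_{i < k} (a k - a i)` among all elements `x` of `X`
for which this product is not zero. -/
def IsPOrdering (X : Set ℤ) (p n : ℕ) (a : ℕ → ℤ) : Prop :=
  ∀ k ≤ n, a k ∈ X ∧ (∀ i < k, a k ≠ a i) ∧
    ∀ x ∈ X, (∀ i < k, x ≠ a i) →
      padicValInt p (∏ i ∈ range k, (a k - a i)) ≤ padicValInt p (∏ i ∈ range k, (x - a i))

/-- `F` is the Bhargava factorial `n!_X`: it is a positive integer, for every prime `p` there are
`p`-orderings of `X` of length `n + 1`, and for each of them the exponent of `p` in `F` is the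
exponent of `p` in `∏_{i < n} (a n - a i)`. -/
def IsBhargavaFactorial (X : Set ℤ) (n F : ℕ) : Prop :=
  F ≠ 0 ∧ ∀ p : ℕ, p.Prime → (∃ a, IsPOrdering X p n a) ∧
    ∀ a, IsPOrdering X p n a → padicValNat p F = padicValInt p (∏ i ∈ range n, (a n - a i))

lemma prod_ne {k : ℕ} {a : ℕ → ℤ} {x : ℤ} (h : ∀ i < k, x ≠ a i) :
    ∏ i ∈ range k, (x - a i) ≠ 0 := by
  rw [prod_ne_zero_iff]
  intro i hi
  exact sub_ne_zero.mpr (h i (mem_range.mp hi))

lemma IsPOrdering.mono {X : Set ℤ} {p n m : ℕ} {a : ℕ → ℤ} (h : IsPOrdering X p n a)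
    (hm : m ≤ n) : IsPOrdering X p m a := fun k hk => h k (hk.trans hm)

/-- existence of a `p`-ordering of length `n + 1` in a set with more than `n` elements -/
lemma exists_pOrdering (X : Set ℤ) (p n : ℕ) (s : Finset ℤ) (hs : (s : Set ℤ) ⊆ X)
    (hcard : n < s.card) : ∃ a, IsPOrdering X p n a := by
  induction n with
  | zero =>
    obtain ⟨x, hx⟩ := Finset.card_pos.mp hcard
    refine ⟨fun _ => x, ?_⟩
    intro k hk
    obtain rfl : k = 0 := by omega
    refine ⟨hs hx, by intro i hi; omega, ?_⟩
    intro y _ _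
    simp
  | succ n ih =>
    obtain ⟨a, ha⟩ := ih (by omega)
    classical
    -- candidates
    let T : Set ℤ := {x | x ∈ X ∧ ∀ i < n + 1, x ≠ a i}
    have hT : T.Nonempty := by
      by_contra hT
      rw [Set.not_nonempty_iff_eq_empty] at hT
      have hsub : s ⊆ (range (n + 1)).image a := by
        intro x hx
        by_contra hx2
        have : x ∈ T := by
          refine ⟨hs hx, fun i hi hxi => hx2 ?_⟩
          rw [mem_image]
          exact ⟨i, mem_range.mpr hi, hxi.symm⟩
        rw [hT] at this
        exact this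
      have h1 := card_le_card hsub
      have h2 : ((range (n + 1)).image a).card ≤ n + 1 := by
        simpa using (card_image_le (s := range (n + 1)) (f := a))
      omega
    let v : ℤ → ℕ := fun x => padicValInt p (∏ i ∈ range (n + 1), (x - a i))
    obtain ⟨y, hyT, hy⟩ : ∃ y ∈ T, ∀ x ∈ T, v y ≤ v x := by
      obtain ⟨y, hyT, hy⟩ := WellFounded.has_min (InvImage.wf v Nat.lt_wfRel.wf) T hT
      exact ⟨y, hyT, fun x hx => not_lt.mp (hy x hx)⟩
    refine ⟨fun k => if k = n + 1 then y else a k, ?_⟩
    intro k hk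
    rcases Nat.lt_or_ge k (n + 1) with hlt | hge
    · have hk' : k ≤ n := by omega
      obtain ⟨h1, h2, h3⟩ := ha k hk'
      have e0 : (if k = n + 1 then y else a k) = a k := if_neg (by omega)
      have e1 : ∀ i < k, (if i = n + 1 then y else a i) = a i := fun i hi => if_neg (by omega)
      have e2 : ∀ x : ℤ, ∏ i ∈ range k, (x - (if i = n + 1 then y else a i)) =
          ∏ i ∈ range k, (x - a i) := by
        intro x
        refine prod_congr rfl fun i hi => ?_
        rw [e1 i (mem_range.mp hi)]
      refine ⟨?_, ?_, ?_⟩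
      · simp only [e0]; exact h1
      · intro i hi
        simp only [e0, e1 i hi]
        exact h2 i hi
      · intro x hx hxi
        simp only [e0, e2]
        refine h3 x hx fun i hi => ?_
        have := hxi i hi
        simpa only [e1 i hi] using this
    · obtain rfl : k = n + 1 := by omega
      have e1 : ∀ i < n + 1, (if i = n + 1 then y else a i) = a i := fun i hi => if_neg (by omega)
      have e2 : ∀ x : ℤ, ∏ i ∈ range (n + 1), (x - (if i = n + 1 then y else a i)) =
          ∏ i ∈ range (n + 1), (x - a i) := by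
        intro x
        refine prod_congr rfl fun i hi => ?_
        rw [e1 i (mem_range.mp hi)]
      refine ⟨?_, ?_, ?_⟩
      · simp only [if_true]; exact hyT.1
      · intro i hi
        simp only [if_true, e1 i hi]
        exact hyT.2 i hi
      · intro x hx hxi
        simp only [if_true, e2]
        refine hy x ⟨hx, fun i hi => ?_⟩
        have := hxi i hi
        simpa only [e1 i hi] using this

/-- the Newton polynomial -/
noncomputable def newt (a : ℕ → ℤ) (k : ℕ) : ℤ[X] := ∏ i ∈ range k, (X - C (a i))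

lemma newt_eval (a : ℕ → ℤ) (k : ℕ) (x : ℤ) :
    (newt a k).eval x = ∏ i ∈ range k, (x - a i) := by
  unfold newt
  rw [eval_prod]
  simp

lemma newt_monic (a : ℕ → ℤ) (k : ℕ) : (newt a k).Monic :=
  monic_prod_of_monic _ _ fun i _ => monic_X_sub_C (a i)

lemma newt_natDegree (a : ℕ → ℤ) (k : ℕ) : (newt a k).natDegree = k := by
  unfold newt
  rw [natDegree_prod_of_monic _ _ fun i _ => monic_X_sub_C (a i),
    Finset.sum_congr rfl (fun i _ => natDegree_X_sub_C (a i))]
  simp

lemma interp {X : Set ℤ} {p n e : ℕ} (hp : p.Prime) {a : ℕ → ℤ} (ha : IsPOrdering X p n a) :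
    ∀ k ≤ n, ∀ g : ℤ[X], g.natDegree ≤ k → (∀ i ≤ k, (p : ℤ) ^ e ∣ g.eval (a i)) →
      (∀ x ∈ X, (p : ℤ) ^ e ∣ g.eval x) ∧
      (p : ℤ) ^ e ∣ g.coeff k * ∏ i ∈ range k, (a k - a i) := by
  have : Fact p.Prime := ⟨hp⟩
  intro k
  induction k with
  | zero =>
    intro _ g hg h
    have hg0 : g = C (g.coeff 0) := eq_C_of_natDegree_le_zero hg
    have h0 := h 0 le_rfl
    rw [hg0, eval_C] at h0
    refine ⟨fun x _ => ?_, ?_⟩
    · rw [hg0, eval_C]; exact h0
    · simpa using h0
  | succ k ih =>
    intro hk g hg h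
    set c := g.coeff (k + 1) with hc
    set f : ℤ[X] := g - C c * newt a (k + 1) with hf
    have hfdeg : f.natDegree ≤ k := by
      rw [natDegree_le_iff_coeff_eq_zero]
      intro N hN
      rw [hf, coeff_sub, coeff_C_mul]
      rcases Nat.lt_or_ge N (k + 2) with h1 | h1
      · obtain rfl : N = k + 1 := by omega
        have h2 : (newt a (k + 1)).coeff (k + 1) = 1 := by
          have := newt_monic a (k + 1)
          rw [Monic, leadingCoeff, newt_natDegree] at this
          exact this
        rw [h2]
        simp [hc]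
      · rw [coeff_eq_zero_of_natDegree_lt (by omega),
          coeff_eq_zero_of_natDegree_lt (by rw [newt_natDegree]; omega)]
        simp
    have hfeval : ∀ x, f.eval x = g.eval x - c * ∏ i ∈ range (k + 1), (x - a i) := by
      intro x
      rw [hf, eval_sub, eval_mul, eval_C, newt_eval]
    obtain ⟨h1, -⟩ := ih (by omega) f hfdeg (by
      intro i hi
      rw [hfeval]
      have : ∏ j ∈ range (k + 1), (a i - a j) = 0 :=
        prod_eq_zero (mem_range.mpr (by omega : i < k + 1)) (sub_self _)
      rw [this, mul_zero, sub_zero]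
      exact h i (by omega))
    obtain ⟨hX, hne, hmin⟩ := ha (k + 1) hk
    have h2 : (p : ℤ) ^ e ∣ c * ∏ i ∈ range (k + 1), (a (k + 1) - a i) := by
      have h3 := h1 _ hX
      have h4 := h (k + 1) le_rfl
      have h5 := dvd_sub h4 h3
      rw [hfeval] at h5
      simpa using h5
    refine ⟨fun x hx => ?_, h2⟩
    have h6 : (p : ℤ) ^ e ∣ c * ∏ i ∈ range (k + 1), (x - a i) := by
      by_cases hxa : ∀ i < k + 1, x ≠ a i
      · rcases eq_or_ne c 0 with h0 | h0
        · rw [h0]; simp
        · have hA := prod_ne hne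
          have hB := prod_ne hxa
          rw [padicValInt_dvd_iff] at h2 ⊢
          right
          rcases h2 with h2 | h2
          · exact absurd h2 (mul_ne_zero h0 hA)
          · rw [padicValInt.mul h0 hA] at h2
            rw [padicValInt.mul h0 hB]
            have := hmin x hx hxa
            omega
      · push Not at hxa
        obtain ⟨i, hi, hxi⟩ := hxa
        have : ∏ j ∈ range (k + 1), (x - a j) = 0 :=
          prod_eq_zero (mem_range.mpr hi) (by rw [hxi]; ring)
        rw [this]; simp
    have h7 := h1 x hx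
    rw [hfeval] at h7
    have h8 := dvd_add h7 h6
    simpa using h8

lemma val_le {X : Set ℤ} {p n : ℕ} (hp : p.Prime) {a b : ℕ → ℤ} (ha : IsPOrdering X p n a)
    (hb : IsPOrdering X p n b) :
    padicValInt p (∏ i ∈ range n, (b n - b i)) ≤ padicValInt p (∏ i ∈ range n, (a n - a i)) := by
  have : Fact p.Prime := ⟨hp⟩
  obtain ⟨hbX, hbne, hbmin⟩ := hb n le_rfl
  obtain ⟨haX, hane, hamin⟩ := ha n le_rfl
  have h := (interp (e := padicValInt p (∏ i ∈ range n, (b n - b i))) hp ha n le_rfl (newt b n)
    (newt_natDegree b n).le (by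
      intro i hi
      rw [newt_eval, padicValInt_dvd_iff]
      by_cases hxa : ∀ j < n, a i ≠ b j
      · right
        exact hbmin (a i) (ha i hi).1 hxa
      · push Not at hxa
        obtain ⟨j, hj, hxj⟩ := hxa
        left
        exact prod_eq_zero (mem_range.mpr hj) (by rw [hxj]; ring))).2
  have h2 : (newt b n).coeff n = 1 := by
    have := newt_monic b n
    rw [Monic, leadingCoeff, newt_natDegree] at this
    exact this
  rw [h2, one_mul, padicValInt_dvd_iff] at h
  rcases h with h | h
  · exact absurd h (prod_ne hane)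
  · exact h

/-- the exponent does not depend on the `p`-ordering -/
lemma val_eq {X : Set ℤ} {p n : ℕ} (hp : p.Prime) {a b : ℕ → ℤ} (ha : IsPOrdering X p n a)
    (hb : IsPOrdering X p n b) :
    padicValInt p (∏ i ∈ range n, (b n - b i)) = padicValInt p (∏ i ∈ range n, (a n - a i)) :=
  le_antisymm (val_le hp ha hb) (val_le hp hb ha)

lemma val_eq_zero_iff {p : ℕ} (hp : p.Prime) {k : ℕ} {a : ℕ → ℤ} {x : ℤ} (h : ∀ i < k, x ≠ a i) :
    padicValInt p (∏ i ∈ range k, (x - a i)) = 0 ↔ ∀ i < k, ¬ (p : ℤ) ∣ x - a i := by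
  have : Fact p.Prime := ⟨hp⟩
  have hp' : Prime (p : ℤ) := Nat.prime_iff_prime_int.mp hp
  have h1 : ∏ i ∈ range k, (x - a i) ≠ 0 := prod_ne h
  have h2 : (p : ℤ) ^ 1 ∣ ∏ i ∈ range k, (x - a i) ↔
      1 ≤ padicValInt p (∏ i ∈ range k, (x - a i)) := by
    rw [padicValInt_dvd_iff]
    tauto
  rw [pow_one, hp'.dvd_finsetProd_iff] at h2
  constructor
  · intro h0 i hi hdvd
    have := h2.mp ⟨i, mem_range.mpr hi, hdvd⟩
    omega
  · intro h0
    by_contra h3
    obtain ⟨i, hi, hdvd⟩ := h2.mpr (by omega)
    exact h0 i (mem_range.mp hi) hdvd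

/-- If `X` contains `n + 1` elements that are distinct modulo `p`, the exponent is zero. -/
lemma val_zero {X : Set ℤ} {p n : ℕ} (hp : p.Prime) {a : ℕ → ℤ} (ha : IsPOrdering X p n a)
    (s : Finset ℤ) (hs : (s : Set ℤ) ⊆ X) (hcard : n < s.card)
    (hinj : ∀ x ∈ s, ∀ y ∈ s, (p : ℤ) ∣ x - y → x = y) :
    padicValInt p (∏ i ∈ range n, (a n - a i)) = 0 := by
  classical
  obtain ⟨haX, hane, hamin⟩ := ha n le_rfl
  -- find x in s distinct mod p from all a i, i < n
  obtain ⟨x, hx, hx2⟩ : ∃ x ∈ s, ∀ i < n, ¬ (p : ℤ) ∣ x - a i := by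
    by_contra hcon
    push Not at hcon
    choose! f hf1 hf2 using hcon
    have h1 : s.card ≤ (range n).card := by
      refine card_le_card_of_injOn f (fun x hx => ?_) ?_
      · simpa using hf1 x hx
      · intro x hx y hy hxy
        refine hinj x hx y hy ?_
        have h3 := hf2 x hx
        have h4 := hf2 y hy
        rw [hxy] at h3
        have := dvd_sub h3 h4
        simpa using this
    rw [card_range] at h1
    omega
  have hxne : ∀ i < n, x ≠ a i := by
    intro i hi hxi
    exact hx2 i hi (by rw [hxi]; simp)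
  have h1 := hamin x (hs hx) hxne
  have h2 := (val_eq_zero_iff hp hxne).mpr hx2
  omega

/-- If no element of `X` is divisible by `p`, then `p` divides `(p-1)!_X`. -/
lemma val_pos {X : Set ℤ} {p n : ℕ} (hp : p.Prime) (hn : n + 1 = p) {a : ℕ → ℤ}
    (ha : IsPOrdering X p n a) (hX : ∀ x ∈ X, ¬ (p : ℤ) ∣ x) :
    padicValInt p (∏ i ∈ range n, (a n - a i)) ≠ 0 := by
  classical
  intro h0
  -- all a i are distinct modulo p
  have hmono : ∀ k ≤ n, padicValInt p (∏ i ∈ range k, (a k - a i)) = 0 := by
    intro k hk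
    rcases Nat.lt_or_ge k n with hlt | hge
    · obtain ⟨h1, h2, h3⟩ := ha k hk
      obtain ⟨g1, g2, g3⟩ := ha n le_rfl
      have h4 := h3 (a n) g1 (fun i hi => g2 i (by omega))
      have h5 := (val_eq_zero_iff hp g2).mp h0
      have h6 := (val_eq_zero_iff (k := k) hp (fun i hi => g2 i (by omega))).mpr
        (fun i hi => h5 i (by omega))
      omega
    · obtain rfl : k = n := by omega
      exact h0
  have hdist : ∀ k ≤ n, ∀ i < k, ¬ (p : ℤ) ∣ a k - a i := by
    intro k hk
    exact (val_eq_zero_iff hp (ha k hk).2.1).mp (hmono k hk)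
  -- residues: map from range (n+1) to ZMod p injective, missing 0
  have : Fact p.Prime := ⟨hp⟩
  have hinj : Set.InjOn (fun k => ((a k : ℤ) : ZMod p)) (range (n + 1) : Set ℕ) := by
    intro k hk l hl hkl
    simp only [coe_range, Set.mem_Iio] at hk hl
    simp only at hkl
    rcases lt_trichotomy k l with h | h | h
    · exfalso
      refine hdist l (by omega) k h ?_
      rw [← ZMod.intCast_zmod_eq_zero_iff_dvd]
      push_cast
      rw [hkl]; ring
    · exact h
    · exfalso
      refine hdist k (by omega) l h ?_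
      rw [← ZMod.intCast_zmod_eq_zero_iff_dvd]
      push_cast
      rw [hkl]; ring
  have hcard : ((range (n + 1)).image (fun k => ((a k : ℤ) : ZMod p))).card = n + 1 := by
    rw [card_image_of_injOn hinj, card_range]
  have huniv : (range (n + 1)).image (fun k => ((a k : ℤ) : ZMod p)) = univ := by
    apply eq_univ_of_card
    rw [hcard, ZMod.card, hn]
  have h0mem : (0 : ZMod p) ∈ (range (n + 1)).image (fun k => ((a k : ℤ) : ZMod p)) := by
    rw [huniv]; exact mem_univ _
  rw [mem_image] at h0mem
  obtain ⟨k, hk, hk0⟩ := h0mem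
  rw [ZMod.intCast_zmod_eq_zero_iff_dvd] at hk0
  exact hX (a k) (ha k (by have := mem_range.mp hk; omega)).1 hk0

/-- The Bhargava factorial `n!_X` exists if `X` has more than `n` elements. -/
theorem exists_factorial (X : Set ℤ) (n : ℕ) (s : Finset ℤ) (hs : (s : Set ℤ) ⊆ X)
    (hcard : n < s.card) : ∃ F, IsBhargavaFactorial X n F := by
  classical
  choose a ha using fun p : ℕ => exists_pOrdering X p n s hs hcard
  let v : ℕ → ℕ := fun p => padicValInt p (∏ i ∈ range n, (a p n - a p i))
  -- the product of all nonzero differences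
  let D : ℤ := ∏ x ∈ s, ∏ y ∈ s.erase x, (x - y)
  have hD : D ≠ 0 := by
    rw [prod_ne_zero_iff]
    intro x _
    rw [prod_ne_zero_iff]
    intro y hy
    exact sub_ne_zero.mpr (ne_of_mem_erase hy).symm
  have hv0 : ∀ p : ℕ, p.Prime → ¬ (p : ℤ) ∣ D → v p = 0 := by
    intro p hp hpD
    refine val_zero hp (ha p) s hs hcard ?_
    intro x hx y hy hxy
    by_contra hne
    apply hpD
    refine dvd_trans hxy ?_
    refine dvd_trans ?_ (dvd_prod_of_mem _ hx)
    exact dvd_prod_of_mem (fun y => x - y) (mem_erase.mpr ⟨Ne.symm hne, hy⟩)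
  let S : Finset ℕ := D.natAbs.primeFactors
  refine ⟨∏ p ∈ S, p ^ v p, ?_, ?_⟩
  · rw [prod_ne_zero_iff]
    intro p hp
    exact pow_ne_zero _ (Nat.prime_of_mem_primeFactors hp).ne_zero
  · intro p hp
    refine ⟨⟨a p, ha p⟩, fun b hb => ?_⟩
    have h1 : padicValInt p (∏ i ∈ range n, (b n - b i)) = v p := val_eq hp (ha p) hb
    rw [h1]
    have : Fact p.Prime := ⟨hp⟩
    have h2 : padicValNat p (∏ q ∈ S, q ^ v q) = ∑ q ∈ S, padicValNat p (q ^ v q) := by
      rw [← Nat.factorization_def _ hp, Nat.factorization_prod]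
      · rw [Finsupp.finsetSum_apply]
        refine sum_congr rfl fun q _ => ?_
        rw [Nat.factorization_def _ hp]
      · intro q hq
        exact pow_ne_zero _ (Nat.prime_of_mem_primeFactors hq).ne_zero
    rw [h2]
    have h3 : ∀ q ∈ S, q ≠ p → padicValNat p (q ^ v q) = 0 := by
      intro q hq hqp
      have hqprime := Nat.prime_of_mem_primeFactors hq
      apply padicValNat.eq_zero_of_not_dvd
      intro hdvd
      have := hp.dvd_of_dvd_pow hdvd
      rw [Nat.prime_dvd_prime_iff_eq hp hqprime] at this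
      exact hqp this.symm
    by_cases hpS : p ∈ S
    · rw [sum_eq_single p h3 (fun h => absurd hpS h)]
      rw [padicValNat.prime_pow]
    · rw [sum_eq_zero (fun q hq => h3 q hq (fun h => hpS (h ▸ hq)))]
      symm
      apply hv0 p hp
      intro hdvd
      apply hpS
      rw [Nat.mem_primeFactors]
      refine ⟨hp, Int.natCast_dvd.mp hdvd, by simpa using hD⟩

/-- The Bhargava factorial is unique. -/
theorem IsBhargavaFactorial.unique {X : Set ℤ} {n F G : ℕ} (hF : IsBhargavaFactorial X n F)
    (hG : IsBhargavaFactorial X n G) : F = G := by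
  apply Nat.eq_of_factorization_eq hF.1 hG.1
  intro p
  by_cases hp : p.Prime
  · obtain ⟨⟨a, ha⟩, h⟩ := hF.2 p hp
    rw [Nat.factorization_def _ hp, Nat.factorization_def _ hp, h a ha, (hG.2 p hp).2 a ha]
  · rw [Nat.factorization_eq_zero_of_not_prime _ hp, Nat.factorization_eq_zero_of_not_prime _ hp]

end Pool.Agent.V11296.Bhargava
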