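import Pool.Agent.V11296.CX5

/-!
The polynomials `n^2 + n + c` of class number one (helper296): squarefree values, logarithmic weights.
-/

set_option autoImplicit false

namespace Pool.Agent.V11296.CX

open Finset Filter
open Pool.Agent.W78.GA (Qd nm)
open Pool.Agent.W78.EG
open Pool.Agent.W251.EG
open Pool.Agent.W251.EX (Sqp tt sum_null)
open Pool.Agent.W293.EG (PP mem_PP mem_SV compare scale_sum abel ev_log wt_nonneg harm_ge)
open Pool.Agent.TH890.DV (LogNull LogNull.of_ev)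
open Pool.Agent.V11296.CV
open Pool.Agent.V11296.CW
open Pool.Agent.V11296.CQ

variable {G : Type} [AddCommGroup G]

open scoped Classical in
/-- the deviation from equidistribution of one pair with squarefree product -/
noncomputable def phiS (H₁ H₂ : ℕ → G) (g : G) (D : AddSubgroup G) (p : ℕ × ℕ) : ℝ :=
  if Squarefree (p.1 * p.2) then phi H₁ H₂ g D p else 0

theorem abs_phiS [Finite G] (H₁ H₂ : ℕ → G) (g : G) (D : AddSubgroup G) (p : ℕ × ℕ) :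
    |phiS H₁ H₂ g D p| ≤ 1 := by
  unfold phiS
  split_ifs
  · exact abs_phi H₁ H₂ g D p
  · rw [abs_zero]
    exact zero_le_one

section

variable {c : ℕ} {f : ℕ} {χ : DirichletCharacter ℂ f} {m : ℕ} {E : ℤ → ℤ → G} {τ : G}
  {H₁ H₂ : ℕ → G}

theorem dsc (c : ℕ) : (1 : ℤ) ^ 2 - 4 * 1 * (c : ℤ) = ((1 : ℕ) : ℤ) ^ 2 - 4 * (c : ℤ) := by
  push_cast
  ring

/-- from the set of the pairs to the library's set -/
theorem mem_SW_PP {q u r X : ℕ} {p : ℕ × ℕ} :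
    p ∈ SW ((1 : ℕ) : ℤ) (c : ℤ) q u r 0 1 0 1 X ↔
      p ∈ PP (1 : ℤ) (1 : ℤ) (c : ℤ) q u X ∧ p.1 ≡ r [MOD q] := by
  rw [mem_SWn, mem_PP]
  unfold Pool.Agent.W293.EG.g
  constructor
  · rintro ⟨⟨⟨h1, h2⟩, h3, h4⟩, ⟨n, _, h6, h7, h8⟩, _⟩
    refine ⟨⟨h1, h2, h3, h4, n, ?_, h7⟩, h8⟩
    have h9 : ((p.1 * p.2 : ℕ) : ℤ) = ((n ^ 2 + 1 * n + c : ℕ) : ℤ) := by rw [h6]
    push_cast at h9
    linarith
  · rintro ⟨⟨h1, h2, h3, h4, n, h6, h7⟩, h8⟩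
    refine ⟨⟨⟨h1, h2⟩, h3, h4⟩, ⟨n, by omega, ?_, h7, h8⟩, ?_, ?_, ?_, ?_⟩
    · have h9 : ((p.1 * p.2 : ℕ) : ℤ) = ((n ^ 2 + 1 * n + c : ℕ) : ℤ) := by
        push_cast
        linarith
      exact_mod_cast h9
    · rw [zero_mul]
      exact_mod_cast h1
    · rw [one_mul]
      exact_mod_cast h2
    · rw [zero_mul]
      exact_mod_cast h3
    · rw [one_mul]
      exact_mod_cast h4

open scoped Classical in
/-- the deviation for the squarefree values, in windows -/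
theorem nullSW [Finite G] {t : ℕ} (hF : Fd (t : ℤ) (c : ℤ) f χ) (h : Gp t c m E τ H₁ H₂) (g : G)
    (q u r : ℕ) (hq : 1 ≤ q) (hal : Alp t c m q u r E τ H₁ H₂ g) (s₁ s₂ s₃ s₄ : ℝ) (h1 : 0 ≤ s₁)
    (h2 : s₁ < s₂) (h3 : s₂ ≤ 1) (h4 : 0 ≤ s₃) (h5 : s₃ < s₄) (h6 : s₄ ≤ 1) (ε : ℝ) (hε : 0 < ε) :
    LogNull (fun X : ℕ => ε * X <
      |∑ p ∈ SW (t : ℤ) (c : ℤ) q u r s₁ s₂ s₃ s₄ X, phiS H₁ H₂ g (Dt t c m E τ) p|) := by
  have h7 := tt (fun X => ∑ p ∈ (SW (t : ℤ) (c : ℤ) q u r s₁ s₂ s₃ s₄ X).filter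
        (fun p => Squarefree (p.1 * p.2)),
        ((if H₁ p.1 + H₂ p.2 = g then (1 : ℂ) else 0) - 1 / (Nat.card (Dt t c m E τ) : ℂ)))
    (fun ε' hε' => avg_ts2 hF h g q u r hq hal s₁ s₂ s₃ s₄ h1 h2 h3 h4 h5 h6 ε' hε') ε hε
  unfold LogNull
  refine h7.congr fun N => ?_
  congr 1
  refine sum_congr ?_ fun _ _ => rfl
  ext X
  rw [mem_filter, mem_filter]
  refine and_congr_right fun _ => ?_
  have h9 : ∑ p ∈ (SW (t : ℤ) (c : ℤ) q u r s₁ s₂ s₃ s₄ X).filter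
        (fun p => Squarefree (p.1 * p.2)),
        ((if H₁ p.1 + H₂ p.2 = g then (1 : ℂ) else 0) - 1 / (Nat.card (Dt t c m E τ) : ℂ)) =
      ((∑ p ∈ SW (t : ℤ) (c : ℤ) q u r s₁ s₂ s₃ s₄ X, phiS H₁ H₂ g (Dt t c m E τ) p : ℝ) : ℂ) := by
    rw [sum_filter, Complex.ofReal_sum]
    refine sum_congr rfl fun p _ => ?_
    unfold phiS phi
    split_ifs
    · push_cast
      ring
    · push_cast
      ring
    · simp
  rw [h9, Complex.norm_real, Real.norm_eq_abs]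

/-- all the values are in the coset of `g` -/
theorem alp_of_alf {q u r : ℕ} {g : G} (hal : Alf (1 : ℤ) (1 : ℤ) (c : ℤ) 1 c m q u E τ H₁ H₂ g)
    (hc : 1 ≤ c) : Alp 1 c m q u r E τ H₁ H₂ g := by
  intro n d e hn _ hde
  have hd : d ≠ 0 := fun h => by rw [h, Nat.zero_mul] at hde; omega
  have he : e ≠ 0 := fun h => by rw [h, Nat.mul_zero] at hde; omega
  refine hal n d e (by omega) (by omega) hn ?_
  have h9 : ((d * e : ℕ) : ℤ) = ((n ^ 2 + 1 * n + c : ℕ) : ℤ) := by rw [hde]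
  push_cast at h9
  linarith

open scoped Classical in
theorem smallS [Finite G] (hF : Fd ((1 : ℕ) : ℤ) (c : ℤ) f χ) (h : Gp 1 c m E τ H₁ H₂) (g : G)
    (q : ℕ) (hq : 1 ≤ q) (u : ℕ) (hal : Alf (1 : ℤ) (1 : ℤ) (c : ℤ) 1 c m q u E τ H₁ H₂ g)
    {C5 : ℝ} (hC5 : 0 ≤ C5)
    (hcard : ∀ N : ℕ, 1 ≤ N → ((PP (1 : ℤ) (1 : ℤ) (c : ℤ) q u N).card : ℝ) ≤ C5 * N) (ε : ℝ)
    (hε : 0 < ε) :
    ∀ᶠ N : ℕ in atTop, |∑ p ∈ PP (1 : ℤ) (1 : ℤ) (c : ℤ) q u N,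
      phiS H₁ H₂ g (Dt 1 c m E τ) p * Pool.Agent.W293.EG.wt p| ≤ ε * Real.log N := by
  have h := scale_sum (fun X => ∑ p ∈ PP (1 : ℤ) (1 : ℤ) (c : ℤ) q u X,
      phiS H₁ H₂ g (Dt 1 c m E τ) p)
    (range q ×ˢ range 1)
    (fun y X => |∑ p ∈ SW ((1 : ℕ) : ℤ) (c : ℤ) q u y.1 0 1 0 1 X,
      phiS H₁ H₂ g (Dt 1 c m E τ) p|) hC5 ?_ ?_ ?_ ε hε
  · filter_upwards [h] with N hN
    rw [abel]
    exact hN
  · intro X hX
    refine ((abs_sum_le_sum_abs _ _).trans ?_).trans (hcard X hX)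
    refine (sum_le_card_nsmul _ _ 1 fun p _ => abs_phiS H₁ H₂ g _ p).trans ?_
    rw [nsmul_eq_mul, mul_one]
  · intro X
    rw [sum_product]
    simp only [range_one, sum_singleton]
    rw [← sum_fiberwise_of_maps_to (s := PP (1 : ℤ) (1 : ℤ) (c : ℤ) q u X) (t := range q)
      (g := fun p : ℕ × ℕ => p.1 % q) (fun p _ => mem_range.2 (Nat.mod_lt _ (by omega)))]
    refine (abs_sum_le_sum_abs _ _).trans (sum_le_sum fun r hr => le_of_eq ?_)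
    congr 1
    refine sum_congr ?_ fun _ _ => rfl
    have hr' : r % q = r := Nat.mod_eq_of_lt (mem_range.1 hr)
    ext p
    rw [mem_filter, mem_SW_PP]
    refine and_congr_right fun _ => ?_
    constructor
    · intro h1
      show p.1 % q = r % q
      rw [h1, hr']
    · intro h1
      have h2 : p.1 % q = r % q := h1
      rw [h2, hr']
  · intro ε' hε' y _
    exact nullSW hF h g q u y.1 hq (alp_of_alf hal (c_pos hF)) 0 1 0 1 le_rfl one_pos le_rfl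
      le_rfl one_pos le_rfl ε' hε'

open scoped Classical in
/-- the indicator function of the pairs with squarefree product -/
noncomputable def sqi (p : ℕ × ℕ) : ℝ := if Squarefree (p.1 * p.2) then 1 else 0

theorem abs_sqi (p : ℕ × ℕ) : |sqi p| ≤ 1 := by
  unfold sqi
  split_ifs <;> simp

theorem sqi_nonneg (p : ℕ × ℕ) : 0 ≤ sqi p := by
  unfold sqi
  split_ifs <;> simp

/-- lower bound for the weights of the squarefree values -/
theorem lowS (hF : Fd ((1 : ℕ) : ℤ) (c : ℤ) f χ) (hS : S_SPSc ((1 : ℕ) : ℤ) (c : ℤ)) {q : ℕ}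
    (hq : 1 ≤ q) (u : ℕ) (hqu : ∀ l : ℕ, l.Prime → l ^ 2 ∣ q → ¬ l ^ 2 ∣ u ^ 2 + u + c) :
    ∃ c₂ : ℝ, 0 < c₂ ∧ ∀ B : ℝ, ∀ᶠ N : ℕ in atTop,
      c₂ * Real.log N + B ≤ ∑ p ∈ PP (1 : ℤ) (1 : ℤ) (c : ℤ) q u N,
        sqi p * Pool.Agent.W293.EG.wt p := by
  classical
  obtain ⟨c₁, hc₁, X₀, hX₀⟩ := hS q u hq (fun l hl hlq hd => hqu l hl hlq (by
    have h1 : ((l ^ 2 : ℕ) : ℤ) ∣ ((u ^ 2 + u + c : ℕ) : ℤ) := by
      push_cast
      push_cast at hd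
      rwa [one_mul] at hd
    exact_mod_cast h1))
  have hcnt : ∀ X : ℕ, X₀ ≤ X → c₁ * X ≤ ∑ p ∈ PP (1 : ℤ) (1 : ℤ) (c : ℤ) q u X, sqi p := by
    intro X hX
    refine (hX₀ X hX).trans ?_
    have h1 : ∑ p ∈ PP (1 : ℤ) (1 : ℤ) (c : ℤ) q u X, sqi p =
        (((PP (1 : ℤ) (1 : ℤ) (c : ℤ) q u X).filter
          (fun p => Squarefree (p.1 * p.2))).card : ℝ) := by
      unfold sqi
      rw [sum_boole]
    rw [h1]
    refine Nat.cast_le.2 (card_le_card fun p hp => ?_)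
    rw [mem_filter] at hp
    obtain ⟨hp1, hp2, n, hp3, hp4, hp5⟩ := hp
    unfold SP at hp1
    rw [mem_filter, mem_product, mem_Icc, mem_Icc] at hp1
    rw [mem_filter, mem_PP]
    refine ⟨⟨hp1.1.1.1, hp1.1.1.2, hp1.1.2.1, hp1.1.2.2, n, ?_, hp5⟩, hp2⟩
    unfold Pool.Agent.W293.EG.g
    rw [hp4]
    push_cast
    ring
  refine ⟨c₁ / 4, by positivity, fun B => ?_⟩
  filter_upwards [ev_log (c₁ / 4) (B + c₁ * X₀) (by positivity), eventually_ge_atTop 1] with N h1 hN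
  rw [abel]
  have h2 : ∀ X ∈ Icc 1 N, c₁ / 2 * (1 / (X : ℝ)) - (if X < X₀ then c₁ else 0) ≤
      1 / ((X : ℝ) * (X + 1)) * ∑ p ∈ PP (1 : ℤ) (1 : ℤ) (c : ℤ) q u X, sqi p := by
    intro X hX
    rw [mem_Icc] at hX
    have hX1 : (1 : ℝ) ≤ X := by exact_mod_cast hX.1
    split_ifs with h3
    · have h4 : c₁ / 2 * (1 / (X : ℝ)) ≤ c₁ := by
        have : 1 / (X : ℝ) ≤ 1 := by
          rw [div_le_one (by positivity)]
          exact hX1
        nlinarith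
      have h5 : 0 ≤ 1 / ((X : ℝ) * (X + 1)) *
          ∑ p ∈ PP (1 : ℤ) (1 : ℤ) (c : ℤ) q u X, sqi p :=
        mul_nonneg (by positivity) (sum_nonneg fun p _ => sqi_nonneg p)
      linarith
    · have h5 := hcnt X (by omega)
      have h6 : 1 / ((X : ℝ) * (X + 1)) * (c₁ * X) ≤
          1 / ((X : ℝ) * (X + 1)) * ∑ p ∈ PP (1 : ℤ) (1 : ℤ) (c : ℤ) q u X, sqi p :=
        mul_le_mul_of_nonneg_left h5 (by positivity)
      refine le_trans ?_ h6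
      have h7 : 1 / ((X : ℝ) * (X + 1)) * (c₁ * X) = c₁ / (X + 1) := by
        field_simp
      rw [h7, sub_zero]
      rw [div_mul_div_comm, mul_one, div_le_div_iff₀ (by positivity) (by positivity)]
      nlinarith
  have h3 : ∑ X ∈ Icc 1 N, (if X < X₀ then c₁ else 0) ≤ c₁ * X₀ := by
    rw [← sum_filter, sum_const, nsmul_eq_mul, mul_comm]
    apply mul_le_mul_of_nonneg_left _ hc₁.le
    have h4 : (Icc 1 N).filter (fun X => X < X₀) ⊆ range X₀ := by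
      intro X hX
      rw [mem_filter] at hX
      rw [mem_range]
      exact hX.2
    have := card_le_card h4
    rw [card_range] at this
    exact_mod_cast this
  have h4 := sum_le_sum h2
  rw [sum_sub_distrib, ← mul_sum] at h4
  have h5 := mul_le_mul_of_nonneg_left (harm_ge hN) (by positivity : 0 ≤ c₁ / 2)
  have h6 : 0 ≤ (∑ p ∈ PP (1 : ℤ) (1 : ℤ) (c : ℤ) q u N, sqi p) / ((N : ℝ) + 1) :=
    div_nonneg (sum_nonneg fun p _ => sqi_nonneg p) (by positivity)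
  linarith

open scoped Classical in
/-- lower bound for the weights of the squarefree values -/
theorem lowN (hF : Fd ((1 : ℕ) : ℤ) (c : ℤ) f χ) (hS : S_SPSc ((1 : ℕ) : ℤ) (c : ℤ))
    (q : ℕ) (hq : 1 ≤ q) (u : ℕ)
    (hqu : ∀ l : ℕ, l.Prime → l ^ 2 ∣ q → ¬ l ^ 2 ∣ u ^ 2 + u + c) :
    ∃ c₁ : ℝ, 0 < c₁ ∧ ∃ N₀ : ℕ, ∀ N : ℕ, N₀ ≤ N → c₁ * Real.log N ≤
      ∑ n ∈ (Icc 1 N).filter (fun n => n ≡ u [MOD q] ∧ Squarefree (qv 1 1 c n)),
        wq 1 1 c n := by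
  have hd : 0 < 4 * (1 : ℤ) * (c : ℤ) - 1 ^ 2 := by
    have h1 := c_pos hF
    have h2 : (1 : ℤ) ≤ c := by exact_mod_cast h1
    linarith
  obtain ⟨C5, hC5, hcard, hcmp⟩ := compare hF.tt (scntG hF) (a := 1) (b := 1) (e := (c : ℤ))
    one_pos (dsc c) hd q u
  obtain ⟨c₂, hc₂, hl⟩ := lowS hF hS hq u hqu
  obtain ⟨N₀, hN₀⟩ := eventually_atTop.1 ((hl C5).and (eventually_ge_atTop 1))
  have hsq : ∀ n d : ℕ, d ∈ (qv 1 1 c n).divisors → d * (qv 1 1 c n / d) = qv 1 1 c n :=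
    fun n d hd1 => Nat.mul_div_cancel' (Nat.mem_divisors.1 hd1).1
  refine ⟨c₂, hc₂, N₀, fun N hN => ?_⟩
  obtain ⟨g1, g2⟩ := hN₀ N hN
  have h5 := hcmp sqi abs_sqi N g2
  have h6 : ∑ n ∈ (Icc 1 N).filter (fun n => n ≡ u [MOD q]), ∑ d ∈ Nat.divisors (qv 1 1 c n),
      sqi (d, qv 1 1 c n / d) * Pool.Agent.W293.EG.wt (d, qv 1 1 c n / d) =
      ∑ n ∈ (Icc 1 N).filter (fun n => n ≡ u [MOD q] ∧ Squarefree (qv 1 1 c n)),
        wq 1 1 c n := by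
    conv_rhs => rw [← filter_filter, sum_filter]
    refine sum_congr rfl fun n _ => ?_
    unfold wq sqi Pool.Agent.W293.EG.wt
    by_cases hs : Squarefree (qv 1 1 c n)
    · rw [if_pos hs]
      refine sum_congr rfl fun d hd1 => ?_
      rw [if_pos (by rw [hsq n d hd1]; exact hs), one_mul]
    · rw [if_neg hs]
      refine sum_eq_zero fun d hd1 => ?_
      rw [if_neg (by rw [hsq n d hd1]; exact hs), zero_mul]
  rw [h6] at h5
  have h7 := (abs_le.1 h5).1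
  linarith

open scoped Classical in
/-- the mean over the squarefree values with logarithmic weights -/
theorem tendS [Finite G] (hF : Fd ((1 : ℕ) : ℤ) (c : ℤ) f χ) (hS : S_SPSc ((1 : ℕ) : ℤ) (c : ℤ))
    (h : Gp 1 c m E τ H₁ H₂) (g : G) (q : ℕ) (hq : 1 ≤ q) (u : ℕ)
    (hqu : ∀ l : ℕ, l.Prime → l ^ 2 ∣ q → ¬ l ^ 2 ∣ u ^ 2 + u + c)
    (hal : Alf (1 : ℤ) (1 : ℤ) (c : ℤ) 1 c m q u E τ H₁ H₂ g) :
    Tendsto (fun N : ℕ => (∑ n ∈ (Icc 1 N).filter (fun n => n ≡ u [MOD q] ∧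
        Squarefree (qv 1 1 c n)),
      ∑ d ∈ (qv 1 1 c n).divisors.filter (fun d => H₁ d + H₂ (qv 1 1 c n / d) = g),
        1 / ((max d (qv 1 1 c n / d) : ℕ) : ℝ)) /
      ∑ n ∈ (Icc 1 N).filter (fun n => n ≡ u [MOD q] ∧ Squarefree (qv 1 1 c n)), wq 1 1 c n) atTop
      (nhds (1 / (Nat.card (Dt 1 c m E τ) : ℝ))) := by
  have hd : 0 < 4 * (1 : ℤ) * (c : ℤ) - 1 ^ 2 := by
    have h1 := c_pos hF
    have h2 : (1 : ℤ) ≤ c := by exact_mod_cast h1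
    linarith
  obtain ⟨C5, hC5, hcard, hcmp⟩ := compare hF.tt (scntG hF) (a := 1) (b := 1) (e := (c : ℤ))
    one_pos (dsc c) hd q u
  obtain ⟨c₂, hc₂, N₀, hlow⟩ := lowN hF hS q hq u hqu
  have hsq : ∀ n d : ℕ, d ∈ (qv 1 1 c n).divisors → d * (qv 1 1 c n / d) = qv 1 1 c n :=
    fun n d hd1 => Nat.mul_div_cancel' (Nat.mem_divisors.1 hd1).1
  obtain ⟨D, hDd⟩ : ∃ D, D = Dt 1 c m E τ := ⟨_, rfl⟩
  rw [← hDd]
  rw [Metric.tendsto_atTop]
  intro δ hδ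
  have h1 := smallS hF h g q hq u hal hC5 hcard (c₂ * δ / 4) (by positivity)
  obtain ⟨N₁, hN₁⟩ := eventually_atTop.1 (h1.and (ev_log (c₂ * δ / 4) C5 (by positivity)))
  refine ⟨max (max N₀ N₁) 2, fun N hN => ?_⟩
  have hN0 : N₀ ≤ N := ((le_max_left _ _).trans (le_max_left _ _)).trans hN
  have hN1 : N₁ ≤ N := ((le_max_right _ _).trans (le_max_left _ _)).trans hN
  have hN2 : 2 ≤ N := (le_max_right _ _).trans hN
  obtain ⟨h2, h3⟩ := hN₁ N hN1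
  have hlog : 0 < Real.log N := Real.log_pos (by exact_mod_cast hN2)
  have h4 := hlow N hN0
  obtain ⟨S, hSd⟩ : ∃ S : ℝ, S = ∑ n ∈ (Icc 1 N).filter (fun n => n ≡ u [MOD q] ∧
        Squarefree (qv 1 1 c n)),
      ∑ d ∈ (qv 1 1 c n).divisors.filter (fun d => H₁ d + H₂ (qv 1 1 c n / d) = g),
        1 / ((max d (qv 1 1 c n / d) : ℕ) : ℝ) := ⟨_, rfl⟩
  obtain ⟨T, hT⟩ : ∃ T : ℝ, T = ∑ n ∈ (Icc 1 N).filter (fun n => n ≡ u [MOD q] ∧
    Squarefree (qv 1 1 c n)), wq 1 1 c n := ⟨_, rfl⟩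
  rw [← hSd, ← hT]
  rw [← hT] at h4
  have hT0 : 0 < T := lt_of_lt_of_le (by positivity) h4
  have h5 := hcmp (phiS H₁ H₂ g D) (abs_phiS H₁ H₂ g D) N (by omega)
  have h6 : ∑ n ∈ (Icc 1 N).filter (fun n => n ≡ u [MOD q]), ∑ d ∈ Nat.divisors (qv 1 1 c n),
      phiS H₁ H₂ g D (d, qv 1 1 c n / d) * Pool.Agent.W293.EG.wt (d, qv 1 1 c n / d) =
      S - 1 / (Nat.card D : ℝ) * T := by
    rw [hSd, hT, mul_sum, ← sum_sub_distrib]
    conv_rhs => rw [← filter_filter, sum_filter]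
    refine sum_congr rfl fun n _ => ?_
    by_cases hs : Squarefree (qv 1 1 c n)
    · rw [if_pos hs]
      unfold wq
      rw [mul_sum, sum_filter, ← sum_sub_distrib]
      refine sum_congr rfl fun d hd1 => ?_
      unfold phiS
      rw [if_pos (by rw [hsq n d hd1]; exact hs)]
      unfold phi Pool.Agent.W293.EG.wt
      split_ifs
      · ring
      · ring
    · rw [if_neg hs]
      refine sum_eq_zero fun d hd1 => ?_
      unfold phiS
      rw [if_neg (by rw [hsq n d hd1]; exact hs), zero_mul]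
  rw [h6] at h5
  rw [← hDd] at h2
  have h7 : |S - 1 / (Nat.card D : ℝ) * T| ≤ c₂ * δ / 2 * Real.log N := by
    have h8 := abs_le.1 h5
    have h9 := abs_le.1 h2
    rw [abs_le]
    constructor <;> linarith [h8.1, h8.2, h9.1, h9.2]
  rw [Real.dist_eq]
  have h8 : S / T - 1 / (Nat.card D : ℝ) = (S - 1 / (Nat.card D : ℝ) * T) / T := by
    field_simp
  rw [h8, abs_div, abs_of_pos hT0, div_lt_iff₀ hT0]
  have h9 : c₂ * δ / 2 * Real.log N < δ * T := by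
    have h10 : δ * (c₂ * Real.log N) ≤ δ * T := mul_le_mul_of_nonneg_left h4 hδ.le
    have h11 : 0 < c₂ * δ * Real.log N := by positivity
    linarith
  linarith

end

end Pool.Agent.V11296.CX
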