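import Mathlib

/-!
# Legendre symbol determinants with power weights

For a prime `p ≡ 1 (mod 4)` and `n = (p - 1) / 2 > m` the determinant of
`(j² - k²)^m ((j² - k²)/p)`, `1 ≤ j, k ≤ n`, is divisible by `p` if and only if `p` divides one of
the positive integers `R m a`, `a ≤ m`.
-/

set_option autoImplicit false

namespace Pool.Agent.V11296.LegDet

open Finset Matrix

/-- The determinant of the matrix `(j² - k²)^m ((j² - k²) / p)`, where `1 ≤ j, k ≤ (p - 1) / 2` and
`(· / p)` is the Jacobi symbol (the Legendre symbol if `p` is an odd prime). -/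
def D (p m : ℕ) : ℤ :=
  Matrix.det (Matrix.of fun j k : Fin ((p - 1) / 2) =>
    ((((j : ℕ) : ℤ) + 1) ^ 2 - (((k : ℕ) : ℤ) + 1) ^ 2) ^ m *
      jacobiSym ((((j : ℕ) : ℤ) + 1) ^ 2 - (((k : ℕ) : ℤ) + 1) ^ 2) p)

/-- The set `E(m)` of all primes `p ≡ 1 (mod 4)` that divide `D p m`. -/
def E (m : ℕ) : Set ℕ := {p | p.Prime ∧ p % 4 = 1 ∧ (p : ℤ) ∣ D p m}

/-- the matrix modulo `p` -/
def Mat (p n m : ℕ) : Matrix (Fin n) (Fin n) (ZMod p) :=
  Matrix.of fun j k => ((((j : ℕ) : ZMod p) + 1) ^ 2 - (((k : ℕ) : ZMod p) + 1) ^ 2) ^ (n + m)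

lemma cast_D {p : ℕ} (hp : p.Prime) (h4 : p % 4 = 1) (m : ℕ) :
    ((D p m : ℤ) : ZMod p) = (Mat p ((p - 1) / 2) m).det := by
  have : Fact p.Prime := ⟨hp⟩
  have h1 : ((D p m : ℤ) : ZMod p) = (Int.castRingHom (ZMod p)) (D p m) := rfl
  rw [h1, D, RingHom.map_det]
  congr 1
  ext j k
  simp only [RingHom.mapMatrix_apply, Matrix.map_apply, Matrix.of_apply, Mat, map_mul, map_pow,
    map_sub, map_add, eq_intCast, Int.cast_natCast, Int.cast_one]
  rw [← jacobiSym.legendreSym.to_jacobiSym, legendreSym.eq_pow]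
  have h2 : p / 2 = (p - 1) / 2 := by omega
  rw [h2, pow_add, mul_comm]
  push_cast
  ring

/-- the involution `a ↦ m - a` modulo `n` -/
def ee (n m a : ℕ) : ℕ := if a ≤ m then m - a else n + m - a

lemma ee_lt {n m a : ℕ} (hm : m < n) (ha : a < n) : ee n m a < n := by
  unfold ee; split_ifs <;> omega

lemma ee_ee {n m a : ℕ} (hm : m < n) (ha : a < n) : ee n m (ee n m a) = a := by
  unfold ee; split_ifs <;> omega

/-- the involution as a permutation -/
def eperm (n m : ℕ) (hm : m < n) : Equiv.Perm (Fin n) where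
  toFun a := ⟨ee n m a, ee_lt hm a.2⟩
  invFun a := ⟨ee n m a, ee_lt hm a.2⟩
  left_inv a := by ext; exact ee_ee hm a.2
  right_inv a := by ext; exact ee_ee hm a.2

/-- the coefficient -/
def cc (n m a : ℕ) : ℕ := (n + m).choose a + if a ≤ m then (n + m).choose (n + a) else 0

lemma expand {R : Type*} [CommRing R] {n m : ℕ} (hn : Even n) (hm : m < n) {x y : R}
    (hx : x ^ n = 1) (hy : y ^ n = 1) :
    (x - y) ^ (n + m) = ∑ a ∈ range n, x ^ a * ((-1) ^ (n + m - a) * (cc n m a : R)) *
      y ^ ee n m a := by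
  rw [sub_eq_add_neg, add_pow]
  have h0 : n + m + 1 = n + (m + 1) := by ring
  rw [h0, Finset.sum_range_add]
  have h1 : ∀ a ∈ range n, x ^ a * ((-1) ^ (n + m - a) * (cc n m a : R)) * y ^ ee n m a =
      x ^ a * (-y) ^ (n + m - a) * ((n + m).choose a : R) +
      (if a ≤ m then x ^ a * (-y) ^ (m - a) * ((n + m).choose (n + a) : R) else 0) := by
    intro a ha
    rw [mem_range] at ha
    unfold cc ee
    split_ifs with h
    · have e1 : n + m - a = n + (m - a) := by omega
      have e2 : (-y) ^ (n + m - a) = (-y) ^ (m - a) := by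
        rw [e1, pow_add, hn.neg_pow, hy, one_mul]
      have e3 : ((-1 : R)) ^ (n + m - a) = (-1) ^ (m - a) := by
        rw [e1, pow_add, hn.neg_pow, one_pow, one_mul]
      rw [e2, e3, neg_pow y]
      push_cast
      ring
    · rw [neg_pow y]
      push_cast
      ring
  rw [Finset.sum_congr rfl h1, Finset.sum_add_distrib]
  congr 1
  rw [← Finset.sum_filter]
  have h2 : (range n).filter (fun a => a ≤ m) = range (m + 1) := by
    ext a; simp only [mem_filter, mem_range]; omega
  rw [h2]
  refine Finset.sum_congr rfl fun a ha => ?_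
  rw [mem_range] at ha
  have e1 : n + m - (n + a) = m - a := by omega
  rw [e1, pow_add, hx, one_mul]

lemma det_ne_zero_iff {p : ℕ} (hp : p.Prime) (h4 : p % 4 = 1) {m : ℕ} (hm : m < (p - 1) / 2) :
    (Mat p ((p - 1) / 2) m).det ≠ 0 ↔
      ∀ a < (p - 1) / 2, ((cc ((p - 1) / 2) m a : ℕ) : ZMod p) ≠ 0 := by
  have : Fact p.Prime := ⟨hp⟩
  set n := (p - 1) / 2 with hn
  have hpn : p = 2 * n + 1 := by omega
  have hneven : Even n := by rw [Nat.even_iff]; omega
  let x : Fin n → ZMod p := fun j => (((j : ℕ) : ZMod p) + 1) ^ 2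
  have hx0 : ∀ j : Fin n, (((j : ℕ) : ZMod p) + 1) ≠ 0 := by
    intro j h
    have h1 : (((j : ℕ) + 1 : ℕ) : ZMod p) = 0 := by push_cast; exact h
    rw [ZMod.natCast_eq_zero_iff] at h1
    have := Nat.le_of_dvd (by omega) h1
    have := j.2
    omega
  have hxn : ∀ j, x j ^ n = 1 := by
    intro j
    simp only [x]
    rw [← pow_mul]
    have h1 : 2 * n = p - 1 := by omega
    rw [h1]
    exact ZMod.pow_card_sub_one_eq_one (hx0 j)
  have hxinj : Function.Injective x := by
    intro j k hjk
    simp only [x] at hjk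
    rw [sq_eq_sq_iff_eq_or_eq_neg] at hjk
    rcases hjk with h | h
    · have h1 : (((j : ℕ) : ℕ) : ZMod p) = ((k : ℕ) : ZMod p) := by
        have := add_right_cancel h
        exact this
      rw [ZMod.natCast_eq_natCast_iff] at h1
      have h2 := Nat.ModEq.eq_of_lt_of_lt h1 (by have := j.2; omega) (by have := k.2; omega)
      exact Fin.ext h2
    · exfalso
      have h1 : (((j : ℕ) + k + 2 : ℕ) : ZMod p) = 0 := by
        push_cast
        linear_combination h
      rw [ZMod.natCast_eq_zero_iff] at h1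
      have := Nat.le_of_dvd (by omega) h1
      have := j.2
      have := k.2
      omega
  have hM : Mat p n m = Matrix.vandermonde x *
      (Matrix.diagonal (fun a : Fin n => ((-1) ^ (n + m - (a : ℕ)) * (cc n m a : ZMod p)))) *
      ((Matrix.vandermonde x)ᵀ.submatrix (eperm n m hm) id) := by
    ext j k
    rw [Matrix.mul_apply]
    have h1 : Mat p n m j k = (x j - x k) ^ (n + m) := rfl
    rw [h1, expand hneven hm (hxn j) (hxn k), ← Fin.sum_univ_eq_sum_range
      (fun a => x j ^ a * ((-1) ^ (n + m - a) * (cc n m a : ZMod p)) * x k ^ ee n m a) n]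
    refine Finset.sum_congr rfl fun a _ => ?_
    rw [Matrix.mul_diagonal]
    simp only [Matrix.vandermonde_apply, Matrix.submatrix_apply, Matrix.transpose_apply, id]
    rfl
  have hV : (Matrix.vandermonde x).det ≠ 0 := Matrix.det_vandermonde_ne_zero_iff.mpr hxinj
  rw [hM, Matrix.det_mul, Matrix.det_mul, Matrix.det_diagonal, Matrix.det_permute,
    Matrix.det_transpose]
  constructor
  · intro h a ha
    have h2 := left_ne_zero_of_mul h
    have h3 := right_ne_zero_of_mul h2
    rw [prod_ne_zero_iff] at h3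
    exact right_ne_zero_of_mul (h3 ⟨a, ha⟩ (mem_univ _))
  · intro h
    refine mul_ne_zero (mul_ne_zero hV ?_) (mul_ne_zero ?_ hV)
    · rw [prod_ne_zero_iff]
      intro a _
      exact mul_ne_zero (pow_ne_zero _ (neg_ne_zero.mpr one_ne_zero)) (h a a.2)
    · rcases Int.units_eq_one_or (Equiv.Perm.sign (eperm n m hm)) with h1 | h1 <;> rw [h1] <;> simp

/-- The product `(2m-1)(2m-3)⋯(2m-2k+1)`. -/
def T (m k : ℕ) : ℕ := ∏ i ∈ range k, (2 * m - 1 - 2 * i)

/-- The integers `R m a`. -/
def R (m a : ℕ) : ℕ :=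
  2 ^ (m - a) * m.descFactorial (m - a) * T m a + 2 ^ a * m.descFactorial a * T m (m - a)

lemma T_pos {m k : ℕ} (h : k ≤ m) : 0 < T m k := by
  unfold T
  apply Finset.prod_pos
  intro i hi
  rw [mem_range] at hi
  omega

lemma R_pos {m a : ℕ} (h : a ≤ m) : 0 < R m a := by
  unfold R
  have h1 := T_pos (m := m) (k := m - a) (by omega)
  have h2 : 0 < m.descFactorial a := Nat.descFactorial_pos.mpr (by omega)
  positivity

lemma descFact {p n m : ℕ} (hpn : p = 2 * n + 1) : ∀ k ≤ m,
    (2 : ZMod p) ^ k * ((n + m).descFactorial k : ZMod p) = (T m k : ZMod p) := by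
  intro k
  induction k with
  | zero => intro _; simp [T]
  | succ k ih =>
    intro hk
    have h1 := ih (by omega)
    have h2 : T m (k + 1) = T m k * (2 * m - 1 - 2 * k) := by
      unfold T; rw [prod_range_succ]
    rw [Nat.descFactorial_succ, h2]
    push_cast
    rw [← h1]
    have h3 : ((n + m - k : ℕ) : ZMod p) = (n : ZMod p) + m - k := by
      rw [Nat.cast_sub (by omega)]; push_cast; ring
    have h4 : ((2 * m - 1 - 2 * k : ℕ) : ZMod p) = 2 * m - 1 - 2 * k := by
      rw [Nat.cast_sub (by omega), Nat.cast_sub (by omega)]; push_cast; ring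
    have h5 : (2 : ZMod p) * n = -1 := by
      have h6 : ((2 * n + 1 : ℕ) : ZMod p) = 0 := by rw [← hpn]; exact ZMod.natCast_self p
      push_cast at h6
      linear_combination h6
    rw [h3, h4]
    linear_combination (2 : ZMod p) ^ k * ((n + m).descFactorial k : ZMod p) * h5

lemma choose_eq {p n m : ℕ} (hpn : p = 2 * n + 1) {k : ℕ} (hk : k ≤ m) :
    (2 : ZMod p) ^ k * (k.factorial : ZMod p) * ((n + m).choose k : ZMod p) = (T m k : ZMod p) := by
  rw [← descFact hpn k hk, Nat.descFactorial_eq_factorial_mul_choose]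
  push_cast
  ring

lemma R_eq {p n m a : ℕ} (hpn : p = 2 * n + 1) (ha : a ≤ m) :
    (2 : ZMod p) ^ m * (m.factorial : ZMod p) * ((cc n m a : ℕ) : ZMod p) = (R m a : ZMod p) := by
  have h1 := choose_eq (n := n) hpn ha
  have h2 := choose_eq (n := n) hpn (show m - a ≤ m by omega)
  have h3 : (n + m).choose (n + a) = (n + m).choose (m - a) := by
    apply Nat.choose_symm_of_eq_add; omega
  have h4 : m.factorial = a.factorial * m.descFactorial (m - a) := by
    have := Nat.factorial_mul_descFactorial (n := m) (k := m - a) (by omega)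
    rw [← this]
    congr 2
    omega
  have h5 : m.factorial = (m - a).factorial * m.descFactorial a := by
    rw [Nat.factorial_mul_descFactorial ha]
  have h6 : (2 : ZMod p) ^ m = 2 ^ a * 2 ^ (m - a) := by
    rw [← pow_add]; congr 1; omega
  unfold cc R
  rw [if_pos ha, h3]
  push_cast
  rw [← h1, ← h2]
  have h4' : (m.factorial : ZMod p) = (a.factorial : ZMod p) * (m.descFactorial (m - a) : ZMod p) := by
    rw [h4]; push_cast; ring
  have h5' : (m.factorial : ZMod p) = ((m - a).factorial : ZMod p) * (m.descFactorial a : ZMod p) := by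
    rw [← Nat.cast_mul, ← h5]
  calc (2 : ZMod p) ^ m * (m.factorial : ZMod p) *
        (((n + m).choose a : ZMod p) + ((n + m).choose (m - a) : ZMod p))
      = 2 ^ m * (m.factorial : ZMod p) * ((n + m).choose a : ZMod p) +
        2 ^ m * (m.factorial : ZMod p) * ((n + m).choose (m - a) : ZMod p) := by ring
    _ = 2 ^ m * ((a.factorial : ZMod p) * (m.descFactorial (m - a) : ZMod p)) *
          ((n + m).choose a : ZMod p) +
        2 ^ m * (((m - a).factorial : ZMod p) * (m.descFactorial a : ZMod p)) *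
          ((n + m).choose (m - a) : ZMod p) := by
        rw [← h5', ← h4']
    _ = _ := by rw [h6]; ring

/-- The criterion: for a prime `p ≡ 1 (mod 4)` with `p > 2 m + 1` the determinant `D p m` is
divisible by `p` if and only if `p` divides `R m a` for some `a ≤ m`. -/
theorem criterion {p m : ℕ} (hp : p.Prime) (h4 : p % 4 = 1) (hm : 2 * m + 1 < p) :
    (p : ℤ) ∣ D p m ↔ ∃ a ≤ m, p ∣ R m a := by
  have : Fact p.Prime := ⟨hp⟩
  have hmn : m < (p - 1) / 2 := by omega
  have hpn : p = 2 * ((p - 1) / 2) + 1 := by omega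
  have h1 := det_ne_zero_iff hp h4 hmn
  rw [← ZMod.intCast_zmod_eq_zero_iff_dvd, cast_D hp h4]
  set n := (p - 1) / 2 with hn
  have hu : (2 : ZMod p) ^ m * (m.factorial : ZMod p) ≠ 0 := by
    refine mul_ne_zero (pow_ne_zero _ ?_) ?_
    · intro h
      have h2 : ((2 : ℕ) : ZMod p) = 0 := by exact_mod_cast h
      rw [ZMod.natCast_eq_zero_iff] at h2
      have := Nat.le_of_dvd (by norm_num) h2
      omega
    · intro h
      rw [ZMod.natCast_eq_zero_iff, hp.dvd_factorial] at h
      omega
  constructor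
  · intro h
    by_contra hcon
    push Not at hcon
    refine h1.mpr ?_ h
    intro a ha
    rcases Nat.lt_or_ge m a with h2 | h2
    · unfold cc
      rw [if_neg (by omega), add_zero]
      intro h3
      rw [ZMod.natCast_eq_zero_iff] at h3
      have h5 : p ∣ (n + m).factorial := by
        refine dvd_trans h3 ?_
        rw [← Nat.choose_mul_factorial_mul_factorial (show a ≤ n + m by omega), mul_assoc]
        exact dvd_mul_right _ _
      rw [hp.dvd_factorial] at h5
      omega
    · intro h3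
      refine hcon a h2 ?_
      rw [← ZMod.natCast_eq_zero_iff, ← R_eq hpn h2, h3, mul_zero]
  · rintro ⟨a, ha, hdvd⟩
    by_contra hcon
    refine h1.mp hcon a (by omega) ?_
    rw [← ZMod.natCast_eq_zero_iff, ← R_eq hpn ha] at hdvd
    exact (mul_eq_zero.mp hdvd).resolve_left hu

end Pool.Agent.V11296.LegDet
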