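import Mathlib

/-!
# The sets `K_c` of Harborth and twice the Fermat primes
-/

set_option autoImplicit false

namespace Pool.Agent.V11296.KC

/-- The set `K_c` of all positive integers `k` such that `n` divides the binomial coefficient
`n` over `k - c n` for every integer `n` with `k / (c + 1) ≤ n ≤ k / c`. -/
def K (c : ℕ) : Set ℕ :=
  {k | 0 < k ∧ ∀ n : ℕ, k ≤ (c + 1) * n → c * n ≤ k → n ∣ n.choose (k - c * n)}

/-- The set of all `2 q`, where `q > 3` is a Fermat prime. -/
def S : Set ℕ := {k | ∃ q : ℕ, q.Prime ∧ (∃ m : ℕ, q = 2 ^ 2 ^ m + 1) ∧ 3 < q ∧ k = 2 * q}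

lemma dvd_gcd_mul_choose (n j : ℕ) : n ∣ Nat.gcd n j * n.choose j := by
  rw [← Nat.gcd_mul_right]
  refine Nat.dvd_gcd (Dvd.intro _ rfl) ?_
  rcases n with _ | n
  · rcases j with _ | j
    · simp
    · simp
  · rcases j with _ | j
    · simp
    · have := Nat.add_one_mul_choose_eq n j
      rw [mul_comm (j + 1)]
      exact Dvd.intro _ this

lemma testBit_of_mod_le {v n : ℕ} (h : ∀ i, v % 2 ^ i ≤ n % 2 ^ i) {k : ℕ}
    (hk : v.testBit k = true) : n.testBit k = true := by
  rw [Nat.testBit_eq_decide_div_mod_eq, decide_eq_true_eq] at hk ⊢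
  by_contra hn
  have h1 := h (k + 1)
  rw [Nat.mod_pow_succ, Nat.mod_pow_succ, hk] at h1
  have h2 : n / 2 ^ k % 2 = 0 := by omega
  rw [h2] at h1
  have := Nat.mod_lt n (Nat.two_pow_pos k)
  omega

/-- the core: for odd `n`, `u + v = n` and `(2^r - 1) n + u = 2^L + 1` there is a carry -/
lemma carry {r L n u v : ℕ} (hr : 3 ≤ r) (hL : 2 ≤ L) (hn : n % 2 = 1) (huv : u + v = n)
    (h : v + 2 ^ L + 1 = 2 ^ r * n) (hsmall : 7 * n ≤ 2 ^ L + 1) :
    ∃ i, 2 ^ i ≤ u % 2 ^ i + v % 2 ^ i := by
  by_contra hcon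
  push Not at hcon
  have hmod : ∀ i, v % 2 ^ i ≤ n % 2 ^ i := by
    intro i
    rw [← huv, Nat.add_mod, Nat.mod_eq_of_lt (hcon i)]
    omega
  have hbits : ∀ k, v.testBit k = true → n.testBit k = true := fun k => testBit_of_mod_le hmod
  obtain ⟨m, hm⟩ : ∃ m, n = 2 * m + 1 := ⟨n / 2, by omega⟩
  have hpow : 1 ≤ 2 ^ r := Nat.one_le_two_pow
  have heq : 2 ^ L + v = 2 ^ r * (2 * m) + (2 ^ r - 1) := by
    have : 2 ^ r * n = 2 ^ r * (2 * m) + 2 ^ r := by rw [hm]; ring
    omega
  have key : ∀ i, i < L → i % r ≠ 0 → v.testBit i = true := by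
    intro i
    induction i using Nat.strong_induction_on with
    | _ i ih =>
      intro hi hir
      have h1 : (2 ^ L + v).testBit i = v.testBit i := Nat.testBit_two_pow_add_gt hi v
      rw [← h1, heq, Nat.testBit_two_pow_mul_add _ (by omega)]
      split_ifs with h2
      · rw [Nat.testBit_two_pow_sub_one]
        simpa using h2
      · have h3 : (i - r) % r ≠ 0 := by
          rw [← Nat.mod_eq_sub_mod (by omega)]; exact hir
        have h4 : i - r ≠ 0 := by
          intro h5; rw [h5] at h3; simp at h3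
        have h5 := hbits _ (ih (i - r) (by omega) (by omega) h3)
        obtain ⟨t, ht⟩ : ∃ t, i - r = t + 1 := ⟨i - r - 1, by omega⟩
        rw [ht] at h5 ⊢
        rw [Nat.testBit_succ] at h5 ⊢
        have h6 : n / 2 = m := by omega
        have h7 : 2 * m / 2 = m := by omega
        rw [h6] at h5
        rw [h7]
        exact h5
  have hX : 2 ^ (L - 2) ≤ v := by
    by_cases h1 : (L - 1) % r = 0
    · have h2 : (L - 2) % r ≠ 0 := by
        intro h2
        have h3 : r ∣ (L - 1) - (L - 2) :=
          Nat.dvd_sub (Nat.dvd_of_mod_eq_zero h1) (Nat.dvd_of_mod_eq_zero h2)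
        have h4 : (L - 1) - (L - 2) = 1 := by omega
        rw [h4] at h3
        have := Nat.le_of_dvd one_pos h3
        omega
      exact Nat.ge_two_pow_of_testBit (key (L - 2) (by omega) h2)
    · have h2 := Nat.ge_two_pow_of_testBit (key (L - 1) (by omega) h1)
      refine le_trans ?_ h2
      exact Nat.pow_le_pow_right (by norm_num) (by omega)
  have h2L : 2 ^ L = 4 * 2 ^ (L - 2) := by
    have : L = 2 + (L - 2) := by omega
    conv_lhs => rw [this, pow_add]
    norm_num
  have : 1 ≤ 2 ^ (L - 2) := Nat.one_le_two_pow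
  omega

/-- `2 (2^L + 1)` lies in `K_{2^r - 1}` if `r ≥ 3`, `L ≥ 2` and `2^L + 1` is prime. -/
theorem mem_K {r L : ℕ} (hr : 3 ≤ r) (hL : 2 ≤ L) (hq : (2 ^ L + 1).Prime) :
    2 * (2 ^ L + 1) ∈ K (2 ^ r - 1) := by
  refine ⟨by positivity, ?_⟩
  intro n h1 h2
  have hr8 : 8 ≤ 2 ^ r := by
    calc 8 = 2 ^ 3 := by norm_num
      _ ≤ 2 ^ r := Nat.pow_le_pow_right (by norm_num) hr
  rw [Nat.sub_add_cancel (by omega)] at h1
  set q := 2 ^ L + 1 with hqdef
  have hL4 : 4 ≤ 2 ^ L := by
    calc 4 = 2 ^ 2 := by norm_num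
      _ ≤ 2 ^ L := Nat.pow_le_pow_right (by norm_num) hL
  have hqodd : q % 2 = 1 := by
    have : 2 ^ L % 2 = 0 := by
      obtain ⟨l, rfl⟩ : ∃ l, L = l + 1 := ⟨L - 1, by omega⟩
      rw [pow_succ]; omega
    omega
  set j := 2 * q - (2 ^ r - 1) * n with hj
  have hmul : (2 ^ r - 1) * n + n = 2 ^ r * n := by
    rw [Nat.sub_mul, one_mul]
    exact Nat.sub_add_cancel (Nat.le_mul_of_pos_left n (by omega))
  have h7 : 7 * n ≤ (2 ^ r - 1) * n := Nat.mul_le_mul_right n (by omega)
  have hjn : j ≤ n := by omega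
  have hnpos : 0 < n := by
    rcases Nat.eq_zero_or_pos n with h | h
    · subst h; omega
    · exact h
  have hnq : n < q := by omega
  have hjeq : (2 ^ r - 1) * n + j = 2 * q := by omega
  have hgq : Nat.gcd n j ∣ 2 * q := by
    rw [← hjeq]
    exact dvd_add (Dvd.dvd.mul_left (Nat.gcd_dvd_left n j) _) (Nat.gcd_dvd_right n j)
  have hmain := dvd_gcd_mul_choose n j
  rcases Nat.even_or_odd' n with ⟨n', hn' | hn'⟩
  · -- even case
    obtain ⟨c', hc'⟩ : ∃ c', (2 ^ r - 1) * n = 2 * c' := ⟨(2 ^ r - 1) * n', by rw [hn']; ring⟩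
    obtain ⟨u, hu⟩ : ∃ u, j = 2 * u := ⟨q - c', by omega⟩
    have hc'' : (2 ^ r - 1) * n' = c' := by
      have : 2 * ((2 ^ r - 1) * n') = 2 * c' := by rw [← hc', hn']; ring
      omega
    have hg : Nat.gcd n j = 2 := by
      rw [hn', hu, Nat.gcd_mul_left]
      have h3 : Nat.gcd n' u ∣ q := by
        have h4 : (2 ^ r - 1) * n' + u = q := by omega
        rw [← h4]
        exact dvd_add (Dvd.dvd.mul_left (Nat.gcd_dvd_left n' u) _) (Nat.gcd_dvd_right n' u)
      rcases (Nat.dvd_prime hq).mp h3 with h4 | h4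
      · rw [h4]
      · exfalso
        have h5 : Nat.gcd n' u ≤ n' := Nat.gcd_le_left u (by omega)
        omega
    rw [hg] at hmain
    -- write n' = 2^t w
    obtain ⟨t, w, hw, hn'w⟩ := Nat.exists_eq_two_pow_mul_odd (show n' ≠ 0 by omega)
    have hC : n.choose j ≠ 0 := (Nat.choose_pos hjn).ne'
    have hw1 : w ∣ n.choose j := by
      have h3 : w ∣ 2 * n.choose j := by
        refine dvd_trans ?_ hmain
        rw [hn', hn'w]
        exact ⟨2 * 2 ^ t, by ring⟩
      exact (Nat.coprime_two_right.mpr hw).dvd_of_dvd_mul_left h3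
    have hcop : Nat.Coprime (2 ^ (t + 1)) w :=
      Nat.Coprime.pow_left _ (Nat.coprime_two_left.mpr hw)
    -- the power of two
    have hv : ∃ v, u + v = n' ∧ v + 2 ^ L + 1 = 2 ^ r * n' := by
      refine ⟨n' - u, by omega, ?_⟩
      have h5 : (2 ^ r - 1) * n' + n' = 2 ^ r * n' := by
        rw [Nat.sub_mul, one_mul]
        exact Nat.sub_add_cancel (Nat.le_mul_of_pos_left n' (by omega))
      omega
    obtain ⟨v, huv, hvL⟩ := hv
    have h7' : 7 * n' ≤ 2 ^ L + 1 := by omega
    have hcarry : t + 1 ≤ padicValNat 2 (n.choose j) := by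
      rw [padicValNat_choose (b := n + t + 5) hjn
        (lt_of_le_of_lt (Nat.log_le_self 2 n) (by omega))]
      have hshift : ∀ i, 2 ^ i ≤ u % 2 ^ i + v % 2 ^ i →
          2 ^ (i + 1) ≤ j % 2 ^ (i + 1) + (n - j) % 2 ^ (i + 1) := by
        intro i hi
        have e1 : n - j = 2 * v := by omega
        rw [e1, hu, pow_succ', Nat.mul_mod_mul_left, Nat.mul_mod_mul_left]
        omega
      rcases Nat.eq_zero_or_pos t with ht | ht
      · subst ht
        have hodd : n' % 2 = 1 := by
          rw [hn'w, pow_zero, one_mul]; exact Nat.odd_iff.mp hw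
        obtain ⟨i, hi⟩ := carry hr hL hodd huv hvL h7'
        have hi0 : i ≠ 0 := by
          rintro rfl
          simp [Nat.mod_one] at hi
        have hib : i ≤ n := by
          by_contra hcon
          have h8 : n' < 2 ^ i := by
            calc n' ≤ n := by omega
              _ < 2 ^ n := Nat.lt_two_pow_self
              _ ≤ 2 ^ i := Nat.pow_le_pow_right (by norm_num) (by omega)
          have h9 := Nat.mod_le u (2 ^ i)
          have h10 := Nat.mod_le v (2 ^ i)
          omega
        rw [zero_add, Nat.succ_le_iff, Finset.card_pos]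
        refine ⟨i + 1, ?_⟩
        rw [Finset.mem_filter, Finset.mem_Ico]
        exact ⟨⟨by omega, by omega⟩, hshift i hi⟩
      · -- t positive
        have htL : t + 1 ≤ L := by
          by_contra hcon
          have h8 : 2 ^ L ≤ 2 ^ t := Nat.pow_le_pow_right (by norm_num) (by omega)
          have h9 : 2 ^ t ≤ n' := by
            rw [hn'w]
            exact Nat.le_mul_of_pos_right _ hw.pos
          omega
        have huodd : u % 2 = 1 := by
          have h8 : n' % 2 = 0 := by
            obtain ⟨s, rfl⟩ : ∃ s, t = s + 1 := ⟨t - 1, by omega⟩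
            rw [hn'w, pow_succ, mul_assoc, mul_comm, mul_assoc]
            omega
          have h9 : c' % 2 = 0 := by
            rw [← hc'', Nat.mul_mod, h8, mul_zero, Nat.zero_mod]
          omega
        have hsub : Finset.Ico 2 (t + 3) ⊆ (Finset.Ico 1 (n + t + 5)).filter
            (fun i => 2 ^ i ≤ j % 2 ^ i + (n - j) % 2 ^ i) := by
          intro i hi
          rw [Finset.mem_Ico] at hi
          rw [Finset.mem_filter, Finset.mem_Ico]
          refine ⟨⟨by omega, by omega⟩, ?_⟩
          obtain ⟨i', rfl⟩ : ∃ i', i = i' + 1 := ⟨i - 1, by omega⟩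
          apply hshift
          have h8 : 2 ^ i' ∣ v + 1 := by
            have h9 : 2 ^ i' ∣ 2 ^ r * n' := by
              rw [hn'w, ← mul_assoc, ← pow_add]
              exact Dvd.dvd.mul_right (pow_dvd_pow 2 (by omega)) _
            rw [← hvL] at h9
            have h10 : 2 ^ i' ∣ 2 ^ L := pow_dvd_pow 2 (by omega)
            have h11 : v + 2 ^ L + 1 = 2 ^ L + (v + 1) := by ring
            rw [h11] at h9
            exact (Nat.dvd_add_right h10).mp h9
          have h12 : v % 2 ^ i' = 2 ^ i' - 1 := by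
            obtain ⟨e, he⟩ := h8
            have hepos : 0 < e := by
              rcases Nat.eq_zero_or_pos e with h | h
              · subst h; omega
              · exact h
            obtain ⟨e', rfl⟩ : ∃ e', e = e' + 1 := ⟨e - 1, by omega⟩
            have h13 : v = 2 ^ i' * e' + (2 ^ i' - 1) := by
              have : 2 ^ i' * (e' + 1) = 2 ^ i' * e' + 2 ^ i' := by ring
              have := Nat.two_pow_pos i'
              omega
            rw [h13, Nat.mul_add_mod]
            exact Nat.mod_eq_of_lt (by have := Nat.two_pow_pos i'; omega)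
          have h14 : 1 ≤ u % 2 ^ i' := by
            rw [Nat.one_le_iff_ne_zero]
            intro h15
            have h16 : 2 ∣ u := dvd_trans (dvd_pow_self 2 (by omega)) (Nat.dvd_of_mod_eq_zero h15)
            omega
          omega
        calc t + 1 = (Finset.Ico 2 (t + 3)).card := by rw [Nat.card_Ico]; omega
          _ ≤ _ := Finset.card_le_card hsub
    have h2t : 2 ^ (t + 1) ∣ n.choose j := by
      rw [padicValNat_dvd_iff_le hC]
      exact hcarry
    have h3 : n = 2 ^ (t + 1) * w := by rw [hn', hn'w]; ring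
    have h4 := Nat.Coprime.mul_dvd_of_dvd_of_dvd hcop h2t hw1
    rw [← h3] at h4
    exact h4
  · -- odd case
    have hg : Nat.gcd n j = 1 := by
      have h3 : Nat.Coprime (Nat.gcd n j) 2 := by
        rw [Nat.coprime_two_right]
        exact Odd.of_dvd_nat ⟨n', hn'⟩ (Nat.gcd_dvd_left n j)
      have h4 := h3.dvd_of_dvd_mul_left hgq
      rcases (Nat.dvd_prime hq).mp h4 with h5 | h5
      · exact h5
      · exfalso
        have h6 : Nat.gcd n j ≤ n := Nat.gcd_le_left j hnpos
        omega
    rw [hg, one_mul] at hmain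
    exact hmain

end Pool.Agent.V11296.KC
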