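import Mathlib

/-!
Long extremal square-free permutations.

The core is the sequence `g k` on `0 < n < 2 ^ (k + 1)`: odd `n` are alternately far above and far
below all the values at even places, and the values at even places repeat the construction.
-/

set_option autoImplicit false

namespace Pool.Agent.V11296.SqFree

/-- the core sequence -/
def g : ℕ → ℕ → ℤ
  | 0, _ => 0
  | (k + 1), n => if n % 2 = 0 then g k (n / 2) else
      if n % 4 = 1 then 2 ^ (k + 2) + (n : ℤ) else (n : ℤ) - 2 ^ (k + 3)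

theorem g_succ (k n : ℕ) : g (k + 1) n = if n % 2 = 0 then g k (n / 2) else
      if n % 4 = 1 then 2 ^ (k + 2) + (n : ℤ) else (n : ℤ) - 2 ^ (k + 3) := rfl

theorem g_even (k n : ℕ) : g (k + 1) (2 * n) = g k n := by
  rw [g_succ, if_pos (by omega)]
  congr 1
  omega

theorem g_odd1 (k n : ℕ) (h : n % 4 = 1) : g (k + 1) n = 2 ^ (k + 2) + (n : ℤ) := by
  rw [g_succ, if_neg (by omega), if_pos h]

theorem g_odd3 (k n : ℕ) (h : n % 4 = 3) : g (k + 1) n = (n : ℤ) - 2 ^ (k + 3) := by
  rw [g_succ, if_neg (by omega), if_neg (by omega)]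

theorem g_bound (k : ℕ) : ∀ n : ℕ, 0 < n → n < 2 ^ (k + 1) →
    -(2 ^ (k + 2) : ℤ) < g k n ∧ g k n < 2 ^ (k + 2) := by
  induction k with
  | zero =>
    intro n _ _
    simp [g]
  | succ k ih =>
    intro n h0 h1
    have e1 : (2 : ℤ) ^ (k + 1 + 2) = 2 * 2 ^ (k + 2) := by ring
    have e2 : (2 : ℤ) ^ (k + 3) = 2 * 2 ^ (k + 2) := by ring
    have e3 : (2 : ℕ) ^ (k + 1 + 1) = 2 * 2 ^ (k + 1) := by ring
    have hp : (0 : ℤ) < 2 ^ (k + 2) := by positivity
    have h1' : (n : ℤ) < 2 ^ (k + 2) := by exact_mod_cast h1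
    rw [e1]
    rcases Nat.even_or_odd' n with ⟨m, rfl | rfl⟩
    · rw [g_even]
      have := ih m (by omega) (by omega)
      constructor <;> linarith [this.1, this.2]
    · have h4 : (2 * m + 1) % 4 = 1 ∨ (2 * m + 1) % 4 = 3 := by omega
      rcases h4 with h4 | h4
      · rw [g_odd1 _ _ h4]
        push_cast at h1' ⊢
        constructor <;> linarith
      · rw [g_odd3 _ _ h4, e2]
        push_cast at h1' ⊢
        constructor <;> linarith

theorem g_anti (k : ℕ) : ∀ n : ℕ, 0 < n → n < 2 ^ (k + 1) →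
    g k (2 ^ (k + 1) - n) = - g k n := by
  induction k with
  | zero =>
    intro n _ _
    simp [g]
  | succ k ih =>
    intro n h0 h1
    have e3 : (2 : ℕ) ^ (k + 1 + 1) = 4 * 2 ^ k := by ring
    have e4 : (2 : ℕ) ^ (k + 1) = 2 * 2 ^ k := by ring
    have e5 : ((2 ^ (k + 1 + 1) - n : ℕ) : ℤ) = 2 ^ (k + 2) - (n : ℤ) := by
      rw [Nat.cast_sub h1.le]
      push_cast
      ring
    have e2 : (2 : ℤ) ^ (k + 3) = 2 * 2 ^ (k + 2) := by ring
    rcases Nat.even_or_odd' n with ⟨m, rfl | rfl⟩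
    · have : 2 ^ (k + 1 + 1) - 2 * m = 2 * (2 ^ (k + 1) - m) := by omega
      rw [this, g_even, g_even]
      exact ih m (by omega) (by omega)
    · have h4 : (2 * m + 1) % 4 = 1 ∨ (2 * m + 1) % 4 = 3 := by omega
      rcases h4 with h4 | h4
      · rw [g_odd1 _ _ h4, g_odd3 _ _ (by omega), e5, e2]
        ring
      · rw [g_odd3 _ _ h4, g_odd1 _ _ (by omega), e5, e2]
        ring

theorem g_inj (k : ℕ) : ∀ n m : ℕ, 0 < n → n < 2 ^ (k + 1) → 0 < m → m < 2 ^ (k + 1) →
    g k n = g k m → n = m := by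
  induction k with
  | zero =>
    intro n m h1 h2 h3 h4 _
    simp at h2 h4
    omega
  | succ k ih =>
    intro n m hn hn' hm hm' h
    have e3 : (2 : ℕ) ^ (k + 1 + 1) = 2 * 2 ^ (k + 1) := by ring
    have e2 : (2 : ℤ) ^ (k + 3) = 2 * 2 ^ (k + 2) := by ring
    have hp : (0 : ℤ) < 2 ^ (k + 2) := by positivity
    have hn2 : (n : ℤ) < 2 ^ (k + 2) := by exact_mod_cast hn'
    have hm2 : (m : ℤ) < 2 ^ (k + 2) := by exact_mod_cast hm'
    rcases Nat.even_or_odd' n with ⟨a, rfl | rfl⟩ <;> rcases Nat.even_or_odd' m with ⟨b, rfl | rfl⟩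
    · rw [g_even, g_even] at h
      have := ih a b (by omega) (by omega) (by omega) (by omega) h
      omega
    · exfalso
      rw [g_even] at h
      have hb := g_bound k a (by omega) (by omega)
      have h4 : (2 * b + 1) % 4 = 1 ∨ (2 * b + 1) % 4 = 3 := by omega
      rcases h4 with h4 | h4
      · rw [g_odd1 _ _ h4] at h
        push_cast at h hm2
        linarith [hb.1, hb.2]
      · rw [g_odd3 _ _ h4, e2] at h
        push_cast at h hm2
        linarith [hb.1, hb.2]
    · exfalso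
      rw [g_even] at h
      have hb := g_bound k b (by omega) (by omega)
      have h4 : (2 * a + 1) % 4 = 1 ∨ (2 * a + 1) % 4 = 3 := by omega
      rcases h4 with h4 | h4
      · rw [g_odd1 _ _ h4] at h
        push_cast at h hn2
        linarith [hb.1, hb.2]
      · rw [g_odd3 _ _ h4, e2] at h
        push_cast at h hn2
        linarith [hb.1, hb.2]
    · have h4 : (2 * a + 1) % 4 = 1 ∨ (2 * a + 1) % 4 = 3 := by omega
      have h5 : (2 * b + 1) % 4 = 1 ∨ (2 * b + 1) % 4 = 3 := by omega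
      rcases h4 with h4 | h4 <;> rcases h5 with h5 | h5
      · rw [g_odd1 _ _ h4, g_odd1 _ _ h5] at h
        push_cast at h
        omega
      · exfalso
        rw [g_odd1 _ _ h4, g_odd3 _ _ h5, e2] at h
        push_cast at h hn2 hm2
        linarith
      · exfalso
        rw [g_odd3 _ _ h4, g_odd1 _ _ h5, e2] at h
        push_cast at h hn2 hm2
        linarith
      · rw [g_odd3 _ _ h4, g_odd3 _ _ h5] at h
        push_cast at h
        omega

/-- comparison of neighbours -/
theorem g_step (k n : ℕ) (h0 : 0 < n) (h1 : n + 1 < 2 ^ (k + 2)) :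
    g (k + 1) n < g (k + 1) (n + 1) ↔ (n % 4 = 0 ∨ n % 4 = 3) := by
  have e3 : (2 : ℕ) ^ (k + 2) = 2 * 2 ^ (k + 1) := by ring
  have e2 : (2 : ℤ) ^ (k + 3) = 2 * 2 ^ (k + 2) := by ring
  have hp : (0 : ℤ) < 2 ^ (k + 2) := by positivity
  have hn2 : (n : ℤ) + 1 < 2 ^ (k + 2) := by exact_mod_cast h1
  rcases Nat.even_or_odd' n with ⟨a, rfl | rfl⟩
  · rw [g_even]
    have hb := g_bound k a (by omega) (by omega)
    have h4 : (2 * a + 1) % 4 = 1 ∨ (2 * a + 1) % 4 = 3 := by omega
    rcases h4 with h4 | h4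
    · rw [g_odd1 _ _ h4]
      push_cast at hn2 ⊢
      exact ⟨fun _ => by omega, fun _ => by linarith [hb.2]⟩
    · rw [g_odd3 _ _ h4, e2]
      push_cast at hn2 ⊢
      exact ⟨fun h => by exfalso; linarith [hb.1], fun h => by omega⟩
  · have e : 2 * a + 1 + 1 = 2 * (a + 1) := by ring
    rw [e, g_even]
    have hb := g_bound k (a + 1) (by omega) (by omega)
    have h4 : (2 * a + 1) % 4 = 1 ∨ (2 * a + 1) % 4 = 3 := by omega
    rcases h4 with h4 | h4
    · rw [g_odd1 _ _ h4]
      push_cast at hn2 ⊢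
      exact ⟨fun h => by exfalso; linarith [hb.2], fun _ => by omega⟩
    · rw [g_odd3 _ _ h4, e2]
      push_cast at hn2 ⊢
      exact ⟨fun h => by omega, fun h => by linarith [hb.1]⟩

/-- a square of half length `l` starts at `i` -/
def Sq {α : Type} [LT α] (u : ℕ → α) (i l : ℕ) : Prop :=
  ∀ a < l, ∀ b < l, (u (i + a) < u (i + b) ↔ u (i + l + a) < u (i + l + b))

/-- the period of the pattern of ups and downs forces the half length to be divisible by four -/
theorem four_dvd {α : Type} [LT α] (u : ℕ → α) (i l : ℕ) (hl : 2 ≤ l)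
    (hs : ∀ j, i ≤ j → j + 3 < i + 2 * l → (u j < u (j + 1) ↔ ¬ u (j + 2) < u (j + 3)))
    (hq : Sq u i l) : l % 4 = 0 := by
  have key : ∀ c, ∀ j, i ≤ j → j + 2 * c + 1 < i + 2 * l →
      (u (j + 2 * c) < u (j + 2 * c + 1) ↔ (if c % 2 = 0 then u j < u (j + 1) else
        ¬ u j < u (j + 1))) := by
    intro c
    induction c with
    | zero => intro j _ _; simp
    | succ c ih =>
      intro j h1 h2
      have h3 := ih j h1 (by omega)
      have h4 := hs (j + 2 * c) (by omega) (by omega)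
      have e1 : j + 2 * (c + 1) = j + 2 * c + 2 := by ring
      rw [e1]
      rcases Nat.mod_two_eq_zero_or_one c with h5 | h5
      · have h6 : (c + 1) % 2 = 1 := by omega
        rw [h5] at h3
        rw [h6]
        simp only [if_true, one_ne_zero, if_false] at h3 ⊢
        tauto
      · have h6 : (c + 1) % 2 = 0 := by omega
        rw [h5] at h3
        rw [h6]
        simp only [if_true, one_ne_zero, if_false] at h3 ⊢
        tauto
  have q1 := hq 0 (by omega) 1 (by omega)
  simp only [Nat.add_zero] at q1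
  by_contra hne
  have hcase : l % 4 = 1 ∨ l % 4 = 2 ∨ l % 4 = 3 := by omega
  rcases hcase with h | h | h
  · -- l = 4 c + 1
    have q2 := hq 1 (by omega) 2 (by omega)
    obtain ⟨c, rfl⟩ : ∃ c, l = 4 * c + 1 := ⟨l / 4, by omega⟩
    have k1 := key (2 * c) (i + 1) (by omega) (by omega)
    have k2 := key (2 * c + 1) i (by omega) (by omega)
    rw [if_pos (by omega)] at k1
    rw [if_neg (by omega)] at k2
    have e1 : i + 1 + 2 * (2 * c) = i + (4 * c + 1) := by ring
    have e2 : i + 2 * (2 * c + 1) = i + (4 * c + 1) + 1 := by ring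
    rw [e1] at k1
    rw [e2] at k2
    have e3 : i + (4 * c + 1) + 1 + 1 = i + (4 * c + 1) + 2 := by ring
    have e4 : i + 1 + 1 = i + 2 := by ring
    rw [e3] at k2
    rw [e4] at k1
    tauto
  · obtain ⟨c, rfl⟩ : ∃ c, l = 4 * c + 2 := ⟨l / 4, by omega⟩
    have k2 := key (2 * c + 1) i (by omega) (by omega)
    rw [if_neg (by omega)] at k2
    have e2 : i + 2 * (2 * c + 1) = i + (4 * c + 2) := by ring
    rw [e2] at k2
    tauto
  · have q2 := hq 1 (by omega) 2 (by omega)
    obtain ⟨c, rfl⟩ : ∃ c, l = 4 * c + 3 := ⟨l / 4, by omega⟩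
    have k1 := key (2 * c + 1) (i + 1) (by omega) (by omega)
    have k2 := key (2 * c + 2) i (by omega) (by omega)
    rw [if_neg (by omega)] at k1
    rw [if_pos (by omega)] at k2
    have e1 : i + 1 + 2 * (2 * c + 1) = i + (4 * c + 3) := by ring
    have e2 : i + 2 * (2 * c + 2) = i + (4 * c + 3) + 1 := by ring
    rw [e1] at k1
    rw [e2] at k2
    have e3 : i + (4 * c + 3) + 1 + 1 = i + (4 * c + 3) + 2 := by ring
    have e4 : i + 1 + 1 = i + 2 := by ring
    rw [e3] at k2
    rw [e4] at k1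
    tauto

/-- the core is square-free -/
theorem g_sqfree (k : ℕ) : ∀ s l : ℕ, 0 < s → 2 ≤ l → s + 2 * l ≤ 2 ^ (k + 1) →
    ¬ Sq (g k) s l := by
  induction k with
  | zero =>
    intro s l h1 h2 h3 _
    simp at h3
    omega
  | succ k ih =>
    intro s l h1 h2 h3 hq
    have h4 := four_dvd (g (k + 1)) s l h2 (by
      intro j hj hj2
      rw [g_step k j (by omega) (by rw [show k + 2 = k + 1 + 1 from rfl]; omega),
        g_step k (j + 2) (by omega) (by rw [show k + 2 = k + 1 + 1 from rfl]; omega)]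
      omega) hq
    obtain ⟨m, rfl⟩ : ∃ m, l = 4 * m := ⟨l / 4, by omega⟩
    have e3 : (2 : ℕ) ^ (k + 1 + 1) = 2 * 2 ^ (k + 1) := by ring
    rcases Nat.even_or_odd' s with ⟨a, rfl | rfl⟩
    · refine ih a (2 * m) (by omega) (by omega) (by omega) ?_
      intro x hx y hy
      have := hq (2 * x) (by omega) (2 * y) (by omega)
      have e1 : ∀ z, 2 * a + 2 * z = 2 * (a + z) := fun z => by ring
      have e2 : ∀ z, 2 * a + 4 * m + 2 * z = 2 * (a + 2 * m + z) := fun z => by ring
      rw [e1, e1, e2, e2, g_even, g_even, g_even, g_even] at this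
      exact this
    · refine ih (a + 1) (2 * m) (by omega) (by omega) (by omega) ?_
      intro x hx y hy
      have := hq (2 * x + 1) (by omega) (2 * y + 1) (by omega)
      have e1 : ∀ z, 2 * a + 1 + (2 * z + 1) = 2 * (a + 1 + z) := fun z => by ring
      have e2 : ∀ z, 2 * a + 1 + 4 * m + (2 * z + 1) = 2 * (a + 1 + 2 * m + z) := fun z => by ring
      rw [e1, e1, e2, e2, g_even, g_even, g_even, g_even] at this
      exact this

end Pool.Agent.V11296.SqFree
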