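import Mathlib
import Pool.Agent.V11296.SqFree

/-!
Long extremal square-free permutations: the ends.
-/

set_option autoImplicit false

namespace Pool.Agent.V11296.SqFree

/-- the values at the left end -/
def sp (S : ℤ) : ℕ → ℤ
  | 0 => S + 28
  | 1 => S + 21
  | 2 => S + 22
  | 3 => S + 27
  | 4 => S + 25
  | 5 => S + 23
  | 6 => S + 24
  | 7 => S + 26
  | 8 => - S - 2
  | 9 => - S - 3
  | 10 => - S - 1
  | _ => 0

/-- the whole permutation -/
def W (k i : ℕ) : ℤ :=
  if i < 11 then sp (2 ^ (k + 2)) i else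
    if i < 2 ^ (k + 1) + 10 then g k (i - 10) else - sp (2 ^ (k + 2)) (2 ^ (k + 1) + 20 - i)

theorem W_left {k i : ℕ} (h : i < 11) : W k i = sp (2 ^ (k + 2)) i := by
  unfold W
  rw [if_pos h]

theorem W_core {k i : ℕ} (h : 11 ≤ i) (h' : i < 2 ^ (k + 1) + 10) : W k i = g k (i - 10) := by
  unfold W
  rw [if_neg (by omega), if_pos h']

theorem W_right {k i : ℕ} (h' : 2 ^ (k + 1) + 10 ≤ i) :
    W k i = - sp (2 ^ (k + 2)) (2 ^ (k + 1) + 20 - i) := by
  have : 0 < 2 ^ (k + 1) := by positivity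
  have h2 : 2 ≤ 2 ^ (k + 1) := by rw [pow_succ]; have : 0 < 2 ^ k := by positivity
                                  omega
  unfold W
  rw [if_neg (by omega), if_neg (by omega)]

theorem W_anti {k i : ℕ} (h : i ≤ 2 ^ (k + 1) + 20) : W k (2 ^ (k + 1) + 20 - i) = - W k i := by
  have h2 : 2 ≤ 2 ^ (k + 1) := by rw [pow_succ]; have : 0 < 2 ^ k := by positivity
                                  omega
  rcases lt_or_ge i 11 with h1 | h1
  · rw [W_right (by omega), W_left h1]
    congr 2
    omega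
  rcases lt_or_ge i (2 ^ (k + 1) + 10) with h3 | h3
  · rw [W_core h1 h3, W_core (by omega) (by omega)]
    have := g_anti k (i - 10) (by omega) (by omega)
    rw [← this]
    congr 1
    omega
  · rw [W_right h3, W_left (by omega)]
    ring

/-- ranks of the first 25 values -/
def rho (i : ℕ) : ℕ :=
  [24, 17, 18, 23, 21, 19, 20, 22, 1, 0, 2, 13, 11, 3, 10, 14, 6, 4, 9, 15, 12, 5, 8, 16, 7].getD i 0

/-- the first 25 values in increasing order -/
def V (t : ℤ) : ℕ → ℤ
  | 0 => - (64 * t) - 3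
  | 1 => - (64 * t) - 2
  | 2 => - (64 * t) - 1
  | 3 => 3 - 64 * t
  | 4 => 7 - 64 * t
  | 5 => 11 - 64 * t
  | 6 => 3 - 32 * t
  | 7 => 7 - 32 * t
  | 8 => 3 - 16 * t
  | 9 => 4 * t + 1
  | 10 => 8 * t + 1
  | 11 => 16 * t + 1
  | 12 => 16 * t + 5
  | 13 => 32 * t + 1
  | 14 => 32 * t + 5
  | 15 => 32 * t + 9
  | 16 => 32 * t + 13
  | 17 => 64 * t + 21
  | 18 => 64 * t + 22
  | 19 => 64 * t + 23
  | 20 => 64 * t + 24
  | 21 => 64 * t + 25
  | 22 => 64 * t + 26
  | 23 => 64 * t + 27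
  | _ => 64 * t + 28

theorem V_step {t : ℤ} (ht : 1 ≤ t) (r : ℕ) (hr : r < 24) : V t r < V t (r + 1) := by
  interval_cases r <;> simp only [V] <;> omega

theorem V_mono {t : ℤ} (ht : 1 ≤ t) {r s : ℕ} (h : r < s) (hs : s < 25) : V t r < V t s := by
  induction s, h using Nat.le_induction with
  | base => exact V_step ht r (by omega)
  | succ n hn ih => exact (ih (by omega)).trans (V_step ht n (by omega))

theorem V_lt_iff {t : ℤ} (ht : 1 ≤ t) {r s : ℕ} (hr : r < 25) (hs : s < 25) :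
    V t r < V t s ↔ r < s := by
  constructor
  · intro h
    by_contra hcon
    rcases Nat.lt_or_ge s r with h1 | h1
    · exact absurd h (V_mono ht h1 hr).le.not_gt
    · have : r = s := by omega
      subst this
      exact lt_irrefl _ h
  · intro h
    exact V_mono ht h hs

theorem W_eq_V (j i : ℕ) (hi : i < 25) : W (j + 4) i = V (2 ^ j) (rho i) := by
  have e6 : (2 : ℤ) ^ (j + 4 + 2) = 64 * 2 ^ j := by ring
  have hp : 0 < 2 ^ j := by positivity
  have e5 : (2 : ℕ) ^ (j + 4 + 1) = 32 * 2 ^ j := by ring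
  rcases Nat.lt_or_ge i 11 with h | h
  · rw [W_left h, e6]
    interval_cases i <;> simp only [sp] <;> norm_num [rho, V]
  · rw [W_core h (by omega)]
    have o1 : ∀ a n : ℕ, n % 4 = 1 → g (a + 1) n = 2 ^ (a + 2) + (n : ℤ) := fun a n h => g_odd1 a n h
    have o3 : ∀ a n : ℕ, n % 4 = 3 → g (a + 1) n = (n : ℤ) - 2 ^ (a + 3) := fun a n h => g_odd3 a n h
    have ev : ∀ a n : ℕ, n % 2 = 0 → g (a + 1) n = g a (n / 2) := by
      intro a n h
      rw [g_succ, if_pos h]
    interval_cases i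
    · norm_num [rho, V]
      rw [o1 _ _ (by norm_num)]; push_cast; ring
    · norm_num [rho, V]
      rw [ev _ _ (by norm_num), o1 _ _ (by norm_num)]; push_cast; ring
    · norm_num [rho, V]
      rw [o3 _ _ (by norm_num)]; push_cast; ring
    · norm_num [rho, V]
      rw [ev _ _ (by norm_num), ev _ _ (by norm_num), o1 _ _ (by norm_num)]; push_cast; ring
    · norm_num [rho, V]
      rw [o1 _ _ (by norm_num)]; push_cast; ring
    · norm_num [rho, V]
      rw [ev _ _ (by norm_num), o3 _ _ (by norm_num)]; push_cast; ring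
    · norm_num [rho, V]
      rw [o3 _ _ (by norm_num)]; push_cast; ring
    · norm_num [rho, V]
      rw [ev _ _ (by norm_num), ev _ _ (by norm_num), ev _ _ (by norm_num), o1 _ _ (by norm_num)]
      push_cast; ring
    · norm_num [rho, V]
      rw [o1 _ _ (by norm_num)]; push_cast; ring
    · norm_num [rho, V]
      rw [ev _ _ (by norm_num), o1 _ _ (by norm_num)]; push_cast; ring
    · norm_num [rho, V]
      rw [o3 _ _ (by norm_num)]; push_cast; ring
    · norm_num [rho, V]
      rw [ev _ _ (by norm_num), ev _ _ (by norm_num), o3 _ _ (by norm_num)]; push_cast; ring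
    · norm_num [rho, V]
      rw [o1 _ _ (by norm_num)]; push_cast; ring
    · norm_num [rho, V]
      rw [ev _ _ (by norm_num), o3 _ _ (by norm_num)]; push_cast; ring

theorem rho_lt {i : ℕ} (hi : i < 25) : rho i < 25 := by
  have : ∀ i < 25, rho i < 25 := by decide
  exact this i hi

theorem rho_inj {i j : ℕ} (hi : i < 25) (hj : j < 25) (h : rho i = rho j) : i = j := by
  have : ∀ i < 25, ∀ j < 25, rho i = rho j → i = j := by decide
  exact this i hi j hj h

theorem W_lt_iff (j : ℕ) {a b : ℕ} (ha : a < 25) (hb : b < 25) :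
    W (j + 4) a < W (j + 4) b ↔ rho a < rho b := by
  have ht : (1 : ℤ) ≤ 2 ^ j := one_le_pow₀ (by norm_num)
  rw [W_eq_V j a ha, W_eq_V j b hb, V_lt_iff ht (rho_lt ha) (rho_lt hb)]

/-! ### finite checks -/

theorem fin_shape : ∀ i < 22, (rho i < rho (i + 1) ↔ ¬ rho (i + 2) < rho (i + 3)) := by decide

theorem fin_sq : ∀ s < 11, ∀ l < 13, ¬ (l % 4 = 0 ∧ 2 ≤ l ∧ s + l ≤ 13 ∧
    ∀ a < l, ∀ b < l, (rho (s + a) < rho (s + b) ↔ rho (s + l + a) < rho (s + l + b))) := by
  decide

/-- ranks after an insertion -/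
def insN (p r j : ℕ) : ℕ :=
  if j < p then 2 * rho j + 1 else if j = p then 2 * r else 2 * rho (j - 1) + 1

theorem fin_ins : ∀ p < 3, ∀ r < 26, ∃ i < 3, ∃ l < 9, 2 ≤ l ∧
    ∀ a < l, ∀ b < l, (insN p r (i + a) < insN p r (i + b) ↔
      insN p r (i + l + a) < insN p r (i + l + b)) := by
  decide

end Pool.Agent.V11296.SqFree
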