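import Mathlib
import Pool.Agent.V11296.SqFreeW

/-!
Long extremal square-free permutations: the proof.
-/

set_option autoImplicit false

namespace Pool.Agent.V11296.SqFree

theorem pow_facts (j : ℕ) : 32 ≤ 2 ^ (j + 4 + 1) := by
  have hp : 0 < 2 ^ j := by positivity
  have e5 : (2 : ℕ) ^ (j + 4 + 1) = 32 * 2 ^ j := by ring
  omega

/-- the pattern of ups and downs -/
theorem W_shape (j i : ℕ) (hi : i + 3 ≤ 2 ^ (j + 4 + 1) + 20) :
    (W (j + 4) i < W (j + 4) (i + 1) ↔ ¬ W (j + 4) (i + 2) < W (j + 4) (i + 3)) := by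
  have hM := pow_facts j
  have hleft : ∀ i < 22, (W (j + 4) i < W (j + 4) (i + 1) ↔
      ¬ W (j + 4) (i + 2) < W (j + 4) (i + 3)) := by
    intro i hi
    rw [W_lt_iff j (by omega) (by omega), W_lt_iff j (by omega) (by omega)]
    exact fin_shape i hi
  rcases lt_or_ge i 22 with h | h
  · exact hleft i h
  rcases lt_or_ge (i + 3) (2 ^ (j + 4 + 1) + 10) with h2 | h2
  · have e : ∀ c, i + c - 10 = (i - 10) + c := fun c => by omega
    rw [W_core (by omega) (by omega), W_core (by omega) (by omega), W_core (by omega) (by omega),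
      W_core (by omega) (by omega), e, e, e]
    have e2 : i - 10 + 3 = i - 10 + 2 + 1 := rfl
    rw [e2]
    have e3 : j + 4 = (j + 3) + 1 := rfl
    rw [e3]
    rw [g_step (j + 3) (i - 10) (by omega) (by rw [show j + 3 + 2 = j + 4 + 1 from rfl]; omega),
      g_step (j + 3) (i - 10 + 2) (by omega) (by rw [show j + 3 + 2 = j + 4 + 1 from rfl]; omega)]
    omega
  · obtain ⟨i', hi'⟩ : ∃ i', i' = 2 ^ (j + 4 + 1) + 20 - (i + 3) := ⟨_, rfl⟩
    have h3 := hleft i' (by omega)
    have a0 : W (j + 4) (i' + 3) = - W (j + 4) i := by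
      rw [← W_anti (by omega)]; congr 1; omega
    have a1 : W (j + 4) (i' + 2) = - W (j + 4) (i + 1) := by
      rw [← W_anti (by omega)]; congr 1; omega
    have a2 : W (j + 4) (i' + 1) = - W (j + 4) (i + 2) := by
      rw [← W_anti (by omega)]; congr 1; omega
    have a3 : W (j + 4) i' = - W (j + 4) (i + 3) := by
      rw [← W_anti (by omega)]; congr 1
    rw [a0, a1, a2, a3, neg_lt_neg_iff, neg_lt_neg_iff] at h3
    tauto

theorem sp_far {S : ℤ} (_hS : 0 < S) {i : ℕ} (h : i < 11) : S < sp S i ∨ sp S i < - S := by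
  interval_cases i <;> simp only [sp] <;> omega

theorem sp_ne {S : ℤ} (hS : 0 < S) {i i' : ℕ} (h : i < 11) (h' : i' < 11) :
    sp S i ≠ - sp S i' := by
  interval_cases i <;> interval_cases i' <;> simp only [sp] <;> omega

theorem W_inj (j : ℕ) {a b : ℕ} (ha : a ≤ 2 ^ (j + 4 + 1) + 20) (hb : b ≤ 2 ^ (j + 4 + 1) + 20)
    (h : W (j + 4) a = W (j + 4) b) : a = b := by
  have hM := pow_facts j
  have hS : (0 : ℤ) < 2 ^ (j + 4 + 2) := by positivity
  have far : ∀ i, 11 ≤ i → i < 2 ^ (j + 4 + 1) + 10 →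
      -(2 ^ (j + 4 + 2) : ℤ) < W (j + 4) i ∧ W (j + 4) i < 2 ^ (j + 4 + 2) := by
    intro i h1 h2
    rw [W_core h1 h2]
    exact g_bound _ _ (by omega) (by omega)
  have main : ∀ a b, a < 2 ^ (j + 4 + 1) + 10 → b < 2 ^ (j + 4 + 1) + 10 →
      W (j + 4) a = W (j + 4) b → a = b := by
    intro a b ha hb h
    rcases lt_or_ge a 11 with h1 | h1 <;> rcases lt_or_ge b 11 with h2 | h2
    · by_contra hne
      rcases Nat.lt_or_ge (rho a) (rho b) with h3 | h3
      · exact absurd h ((W_lt_iff j (by omega) (by omega)).2 h3).ne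
      · rcases Nat.lt_or_ge (rho b) (rho a) with h4 | h4
        · exact absurd h ((W_lt_iff j (by omega) (by omega)).2 h4).ne'
        · exact hne (rho_inj (by omega) (by omega) (by omega))
    · exfalso
      have f1 := sp_far hS h1
      have f2 := far b h2 hb
      rw [← h, W_left h1] at f2
      rcases f1 with f1 | f1 <;> linarith [f2.1, f2.2]
    · exfalso
      have f1 := sp_far hS h2
      have f2 := far a h1 ha
      rw [h, W_left h2] at f2
      rcases f1 with f1 | f1 <;> linarith [f2.1, f2.2]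
    · rw [W_core h1 ha, W_core h2 hb] at h
      have := g_inj _ _ _ (by omega) (by omega) (by omega) (by omega) h
      omega
  rcases lt_or_ge a (2 ^ (j + 4 + 1) + 10) with h1 | h1 <;>
    rcases lt_or_ge b (2 ^ (j + 4 + 1) + 10) with h2 | h2
  · exact main a b h1 h2 h
  · rcases lt_or_ge a 11 with h3 | h3
    · exfalso
      rw [W_left h3, W_right h2] at h
      exact sp_ne hS h3 (by omega) h
    · have := main (2 ^ (j + 4 + 1) + 20 - a) (2 ^ (j + 4 + 1) + 20 - b) (by omega) (by omega) (by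
        rw [W_anti ha, W_anti hb, h])
      omega
  · rcases lt_or_ge b 11 with h3 | h3
    · exfalso
      rw [W_left h3, W_right h1] at h
      exact sp_ne hS h3 (by omega) h.symm
    · have := main (2 ^ (j + 4 + 1) + 20 - a) (2 ^ (j + 4 + 1) + 20 - b) (by omega) (by omega) (by
        rw [W_anti ha, W_anti hb, h])
      omega
  · have := main (2 ^ (j + 4 + 1) + 20 - a) (2 ^ (j + 4 + 1) + 20 - b) (by omega) (by omega) (by
        rw [W_anti ha, W_anti hb, h])
    omega

/-- reversal and negation of a square -/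
theorem Sq_rev {u v : ℕ → ℚ} {M i l : ℕ} (huv : ∀ j ≤ M, v (M - j) = - u j)
    (hi : i + 2 * l ≤ M + 1) (h : Sq v i l) : Sq u (M + 1 - i - 2 * l) l := by
  have hu : ∀ j ≤ M, u (M - j) = - v j := by
    intro j hj
    have := huv (M - j) (by omega)
    rw [show M - (M - j) = j by omega] at this
    rw [this]; ring
  intro a ha b hb
  have e1 : M + 1 - i - 2 * l + a = M - (i + l + (l - 1 - a)) := by omega
  have e2 : M + 1 - i - 2 * l + b = M - (i + l + (l - 1 - b)) := by omega
  have e3 : M + 1 - i - 2 * l + l + a = M - (i + (l - 1 - a)) := by omega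
  have e4 : M + 1 - i - 2 * l + l + b = M - (i + (l - 1 - b)) := by omega
  rw [e1, e2, e3, e4, hu _ (by omega), hu _ (by omega), hu _ (by omega), hu _ (by omega),
    neg_lt_neg_iff, neg_lt_neg_iff]
  exact (h (l - 1 - b) (by omega) (l - 1 - a) (by omega)).symm

/-- the values as rationals -/
def U (j i : ℕ) : ℚ := (W (j + 4) i : ℚ)

theorem U_lt (j a b : ℕ) : U j a < U j b ↔ W (j + 4) a < W (j + 4) b := by
  unfold U
  exact Int.cast_lt

theorem U_anti (j i : ℕ) (h : i ≤ 2 ^ (j + 4 + 1) + 20) : U j (2 ^ (j + 4 + 1) + 20 - i) = - U j i := by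
  unfold U
  rw [W_anti h]
  push_cast
  rfl

/-- no square starts near the left end -/
theorem left_sqfree (j s l : ℕ) (hs : s < 11) (hl : 2 ≤ l) (h4 : l % 4 = 0)
    (hsl : s + 2 * l ≤ 2 ^ (j + 4 + 1) + 21) : ¬ Sq (U j) s l := by
  intro hq
  have hM := pow_facts j
  rcases le_or_gt (s + l) 13 with h1 | h1
  · refine fin_sq s hs l (by omega) ⟨h4, hl, h1, ?_⟩
    intro a ha b hb
    have := hq a ha b hb
    rw [U_lt, U_lt, W_lt_iff j (by omega) (by omega), W_lt_iff j (by omega) (by omega)] at this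
    exact this
  · have := (hq (10 - s) (by omega) (13 - s) (by omega)).1 (by
      rw [show s + (10 - s) = 10 by omega, show s + (13 - s) = 13 by omega, U_lt,
        W_lt_iff j (by omega) (by omega)]
      decide)
    rw [show s + l + (10 - s) = l + 10 by omega, show s + l + (13 - s) = l + 13 by omega, U_lt,
      W_core (by omega) (by omega), W_core (by omega) (by omega)] at this
    rw [show l + 10 - 10 = 2 * (l / 2) by omega, show l + 13 - 10 = l + 3 by omega,
      show j + 4 = (j + 3) + 1 from rfl, g_even, g_odd3 (j + 3) (l + 3) (by omega)] at this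
    have hb := g_bound (j + 3) (l / 2) (by omega) (by
      have : (2 : ℕ) ^ (j + 4 + 1) = 2 * 2 ^ (j + 3 + 1) := by ring
      omega)
    have e1 : (2 : ℤ) ^ (j + 3 + 3) = 2 * 2 ^ (j + 3 + 2) := by ring
    have e2 : ((l + 3 : ℕ) : ℤ) < 2 ^ (j + 3 + 2) := by
      have : l + 3 < 2 ^ (j + 3 + 2) := by
        rw [show j + 3 + 2 = j + 4 + 1 from rfl]
        omega
      exact_mod_cast this
    rw [e1] at this
    linarith [hb.1, hb.2]

/-- the permutation is square-free -/
theorem sqfree (j s l : ℕ) (hl : 2 ≤ l) (hsl : s + 2 * l ≤ 2 ^ (j + 4 + 1) + 21) :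
    ¬ Sq (U j) s l := by
  intro hq
  have hM := pow_facts j
  have h4 : l % 4 = 0 := by
    refine four_dvd (U j) s l hl ?_ hq
    intro i hi hi2
    rw [U_lt, U_lt]
    exact W_shape j i (by omega)
  rcases lt_or_ge s 11 with h1 | h1
  · exact left_sqfree j s l h1 hl h4 hsl hq
  rcases le_or_gt (s + 2 * l) (2 ^ (j + 4 + 1) + 10) with h2 | h2
  · refine g_sqfree (j + 4) (s - 10) l (by omega) hl (by omega) ?_
    intro a ha b hb
    have := hq a ha b hb
    rw [U_lt, U_lt, W_core (by omega) (by omega), W_core (by omega) (by omega),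
      W_core (by omega) (by omega), W_core (by omega) (by omega)] at this
    rw [show s - 10 + a = s + a - 10 by omega, show s - 10 + b = s + b - 10 by omega,
      show s - 10 + l + a = s + l + a - 10 by omega, show s - 10 + l + b = s + l + b - 10 by omega]
    exact this
  · have := Sq_rev (u := U j) (v := U j) (M := 2 ^ (j + 4 + 1) + 20) (fun i hi => U_anti j i hi)
      (by omega) hq
    exact left_sqfree j _ l (by omega) hl h4 (by omega) this

/-- the sequence after an insertion -/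
def ins (u : ℕ → ℚ) (p : ℕ) (x : ℚ) (i : ℕ) : ℚ :=
  if i < p then u i else if i = p then x else u (i - 1)

/-- the rank of a rational number among the first 25 values -/
theorem exists_rank (j : ℕ) (x : ℚ) : ∃ r < 26, ∀ s < 25, (((V (2 ^ j) s : ℤ) : ℚ) < x ↔ s < r) := by
  have ht : (1 : ℤ) ≤ 2 ^ j := one_le_pow₀ (by norm_num)
  by_cases h : ∃ s, s < 25 ∧ ¬ ((V (2 ^ j) s : ℤ) : ℚ) < x
  · classical
    refine ⟨Nat.find h, by have := (Nat.find_spec h).1; omega, ?_⟩
    intro s hs
    constructor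
    · intro h1
      by_contra h2
      have h3 := Nat.find_spec h
      apply h3.2
      refine lt_of_le_of_lt ?_ h1
      have : V (2 ^ j) (Nat.find h) ≤ V (2 ^ j) s := by
        rcases (not_lt.1 h2).lt_or_eq with h4 | h4
        · exact (V_mono ht h4 hs).le
        · rw [h4]
      exact_mod_cast this
    · intro h1
      have := Nat.find_min h h1
      by_contra h2
      exact this ⟨hs, h2⟩
  · refine ⟨25, by omega, ?_⟩
    intro s hs
    push Not at h
    exact ⟨fun _ => hs, fun _ => h s hs⟩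

/-- insertions near the left end -/
theorem left_ins (j p : ℕ) (x : ℚ) (hp : p < 3) (hx : ∀ i < 25, x ≠ U j i) :
    ∃ i l, 2 ≤ l ∧ i + 2 * l ≤ 20 ∧ Sq (ins (U j) p x) i l := by
  obtain ⟨r, hr, hr2⟩ := exists_rank j x
  have hUV : ∀ i < 25, (U j i < x ↔ rho i < r) := by
    intro i hi
    rw [← hr2 (rho i) (rho_lt hi)]
    unfold U
    rw [W_eq_V j i hi]
  have hUV2 : ∀ i < 25, (x < U j i ↔ ¬ rho i < r) := by
    intro i hi
    rw [← hUV i hi]
    have := hx i hi
    constructor
    · intro h; exact h.le.not_gt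
    · intro h; exact lt_of_le_of_ne (not_lt.1 h) this
  have hUU : ∀ a < 25, ∀ b < 25, (U j a < U j b ↔ rho a < rho b) := by
    intro a ha b hb
    rw [U_lt, W_lt_iff j ha hb]
  obtain ⟨i, hi, l, hl, hl2, hsq⟩ := fin_ins p hp r hr
  refine ⟨i, l, hl2, by omega, ?_⟩
  have key : ∀ a < 20, ∀ b < 20, (ins (U j) p x a < ins (U j) p x b ↔
      insN p r a < insN p r b) := by
    intro a ha b hb
    unfold ins insN
    split_ifs with h1 h2 h3 h4 h5 h6 h7 h8
    · rw [hUU _ (by omega) _ (by omega)]; omega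
    · rw [hUV _ (by omega)]; omega
    · rw [hUU _ (by omega) _ (by omega)]; omega
    · rw [hUV2 _ (by omega)]; omega
    · simp
    · rw [hUV2 _ (by omega)]; omega
    · rw [hUU _ (by omega) _ (by omega)]; omega
    · rw [hUV _ (by omega)]; omega
    · rw [hUU _ (by omega) _ (by omega)]; omega
  intro a ha b hb
  rw [key _ (by omega) _ (by omega), key _ (by omega) _ (by omega)]
  exact hsq a ha b hb

/-- a square of half length two -/
theorem sq_two (u : ℕ → ℚ) (i : ℕ) (h1 : u i ≠ u (i + 1)) (h2 : u (i + 2) ≠ u (i + 3))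
    (h3 : u i < u (i + 1) ↔ u (i + 2) < u (i + 3)) : Sq u i 2 := by
  have h4 : u (i + 1) < u i ↔ u (i + 3) < u (i + 2) := by
    constructor
    · intro h
      rcases lt_trichotomy (u (i + 2)) (u (i + 3)) with h4 | h4 | h4
      · exact absurd (h3.2 h4) h.le.not_gt
      · exact absurd h4 h2
      · exact h4
    · intro h
      rcases lt_trichotomy (u i) (u (i + 1)) with h4 | h4 | h4
      · exact absurd (h3.1 h4) h.le.not_gt
      · exact absurd h4 h1
      · exact h4
  intro a ha b hb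
  rcases (show a = 0 ∨ a = 1 by omega) with rfl | rfl <;>
    rcases (show b = 0 ∨ b = 1 by omega) with rfl | rfl
  · exact ⟨fun h => absurd h (lt_irrefl _), fun h => absurd h (lt_irrefl _)⟩
  · exact h3
  · exact h4
  · exact ⟨fun h => absurd h (lt_irrefl _), fun h => absurd h (lt_irrefl _)⟩

theorem logic {A B C D E X Y : Prop} (s1 : A ↔ ¬ C) (s2 : B ↔ ¬ D) (s3 : C ↔ ¬ E)
    (c0 : ¬ (A ↔ X)) (c1 : ¬ (B ↔ Y)) (c2 : ¬ (X ↔ D)) (c3 : ¬ (Y ↔ E)) : False := by
  by_cases hA : A <;> by_cases hX : X <;> by_cases hY : Y <;> simp_all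

/-- insertions in the middle -/
theorem mid_ins (j p : ℕ) (x : ℚ) (hp : 3 ≤ p) (hp2 : p + 2 ≤ 2 ^ (j + 4 + 1) + 20)
    (hx : ∀ i ≤ 2 ^ (j + 4 + 1) + 20, x ≠ U j i) :
    ∃ i, i + 4 ≤ 2 ^ (j + 4 + 1) + 22 ∧ Sq (ins (U j) p x) i 2 := by
  have hne : ∀ a b, a ≤ 2 ^ (j + 4 + 1) + 20 → b ≤ 2 ^ (j + 4 + 1) + 20 → a ≠ b →
      U j a ≠ U j b := by
    intro a b ha hb hab h
    unfold U at h
    exact hab (W_inj j ha hb (by exact_mod_cast h))
  obtain ⟨q, rfl⟩ : ∃ q, p = q + 3 := ⟨p - 3, by omega⟩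
  have s1 : U j q < U j (q + 1) ↔ ¬ U j (q + 2) < U j (q + 3) := by
    rw [U_lt, U_lt]; exact W_shape j q (by omega)
  have s2 : U j (q + 1) < U j (q + 2) ↔ ¬ U j (q + 3) < U j (q + 4) := by
    rw [U_lt, U_lt]; exact W_shape j (q + 1) (by omega)
  have s3 : U j (q + 2) < U j (q + 3) ↔ ¬ U j (q + 4) < U j (q + 5) := by
    rw [U_lt, U_lt]; exact W_shape j (q + 2) (by omega)
  have i0 : ins (U j) (q + 3) x q = U j q := by unfold ins; rw [if_pos (by omega)]
  have i1 : ins (U j) (q + 3) x (q + 1) = U j (q + 1) := by unfold ins; rw [if_pos (by omega)]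
  have i2 : ins (U j) (q + 3) x (q + 2) = U j (q + 2) := by unfold ins; rw [if_pos (by omega)]
  have i3 : ins (U j) (q + 3) x (q + 3) = x := by
    unfold ins; rw [if_neg (by omega), if_pos rfl]
  have i4 : ins (U j) (q + 3) x (q + 4) = U j (q + 3) := by
    unfold ins; rw [if_neg (by omega), if_neg (by omega)]; rfl
  have i5 : ins (U j) (q + 3) x (q + 5) = U j (q + 4) := by
    unfold ins; rw [if_neg (by omega), if_neg (by omega)]; rfl
  have i6 : ins (U j) (q + 3) x (q + 6) = U j (q + 5) := by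
    unfold ins; rw [if_neg (by omega), if_neg (by omega)]; rfl
  generalize hv : ins (U j) (q + 3) x = v at *
  by_cases c0 : (U j q < U j (q + 1) ↔ U j (q + 2) < x)
  · refine ⟨q, by omega, sq_two v q ?_ ?_ ?_⟩
    · rw [i0, i1]; exact hne _ _ (by omega) (by omega) (by omega)
    · rw [i2, i3]; exact (hx _ (by omega)).symm
    · rw [i0, i1, i2, i3]; exact c0
  by_cases c1 : (U j (q + 1) < U j (q + 2) ↔ x < U j (q + 3))
  · refine ⟨q + 1, by omega, sq_two v (q + 1) ?_ ?_ ?_⟩
    · rw [show q + 1 + 1 = q + 2 from rfl, i1, i2]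
      exact hne _ _ (by omega) (by omega) (by omega)
    · rw [show q + 1 + 2 = q + 3 from rfl, show q + 1 + 3 = q + 4 from rfl, i3, i4]
      exact hx _ (by omega)
    · rw [show q + 1 + 1 = q + 2 from rfl, show q + 1 + 2 = q + 3 from rfl,
        show q + 1 + 3 = q + 4 from rfl, i1, i2, i3, i4]
      exact c1
  by_cases c2 : (U j (q + 2) < x ↔ U j (q + 3) < U j (q + 4))
  · refine ⟨q + 2, by omega, sq_two v (q + 2) ?_ ?_ ?_⟩
    · rw [show q + 2 + 1 = q + 3 from rfl, i2, i3]
      exact (hx _ (by omega)).symm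
    · rw [show q + 2 + 2 = q + 4 from rfl, show q + 2 + 3 = q + 5 from rfl, i4, i5]
      exact hne _ _ (by omega) (by omega) (by omega)
    · rw [show q + 2 + 1 = q + 3 from rfl, show q + 2 + 2 = q + 4 from rfl,
        show q + 2 + 3 = q + 5 from rfl, i2, i3, i4, i5]
      exact c2
  by_cases c3 : (x < U j (q + 3) ↔ U j (q + 4) < U j (q + 5))
  · refine ⟨q + 3, by omega, sq_two v (q + 3) ?_ ?_ ?_⟩
    · rw [show q + 3 + 1 = q + 4 from rfl, i3, i4]
      exact hx _ (by omega)
    · rw [show q + 3 + 2 = q + 5 from rfl, show q + 3 + 3 = q + 6 from rfl, i5, i6]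
      exact hne _ _ (by omega) (by omega) (by omega)
    · rw [show q + 3 + 1 = q + 4 from rfl, show q + 3 + 2 = q + 5 from rfl,
        show q + 3 + 3 = q + 6 from rfl, i3, i4, i5, i6]
      exact c3
  exact absurd (logic s1 s2 s3 c0 c1 c2 c3) (fun h => h)

/-- every insertion creates a square -/
theorem all_ins (j p : ℕ) (x : ℚ) (hp : p ≤ 2 ^ (j + 4 + 1) + 21)
    (hx : ∀ i ≤ 2 ^ (j + 4 + 1) + 20, x ≠ U j i) :
    ∃ i l, 2 ≤ l ∧ i + 2 * l ≤ 2 ^ (j + 4 + 1) + 22 ∧ Sq (ins (U j) p x) i l := by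
  have hM := pow_facts j
  rcases lt_or_ge p 3 with h1 | h1
  · obtain ⟨i, l, h2, h3, h4⟩ := left_ins j p x h1 (fun i hi => hx i (by omega))
    exact ⟨i, l, h2, by omega, h4⟩
  rcases le_or_gt (p + 2) (2 ^ (j + 4 + 1) + 20) with h2 | h2
  · obtain ⟨i, h3, h4⟩ := mid_ins j p x h1 h2 hx
    exact ⟨i, 2, le_refl _, by omega, h4⟩
  · obtain ⟨i, l, h3, h4, h5⟩ := left_ins j (2 ^ (j + 4 + 1) + 21 - p) (-x) (by omega) (by
      intro i hi h
      apply hx (2 ^ (j + 4 + 1) + 20 - i) (by omega)
      rw [U_anti j i (by omega), ← h]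
      ring)
    refine ⟨2 ^ (j + 4 + 1) + 21 + 1 - i - 2 * l, l, h3, by omega, ?_⟩
    refine Sq_rev (v := ins (U j) (2 ^ (j + 4 + 1) + 21 - p) (-x)) ?_ (by omega) h5
    intro i hi
    unfold ins
    rcases lt_trichotomy i p with h6 | h6 | h6
    · rw [if_neg (by omega), if_neg (by omega), if_pos h6]
      rw [← U_anti j i (by omega)]
      congr 1
      omega
    · subst h6
      rw [if_neg (by omega), if_pos rfl, if_neg (by omega), if_pos rfl]
    · rw [if_pos (by omega), if_neg (by omega), if_neg (by omega)]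
      rw [← U_anti j (i - 1) (by omega)]
      congr 1
      omega

/-- the statement in terms of lists -/
theorem main : ∀ N : ℕ, ∃ w : List ℚ, N ≤ w.length ∧ w.Nodup ∧
      (¬ ∃ i ℓ : ℕ, 2 ≤ ℓ ∧ i + 2 * ℓ ≤ w.length ∧
          ∀ a < ℓ, ∀ b < ℓ,
            (w.getD (i + a) 0 < w.getD (i + b) 0 ↔
              w.getD (i + ℓ + a) 0 < w.getD (i + ℓ + b) 0)) ∧
      ∀ p : ℕ, p ≤ w.length → ∀ x : ℚ, x ∉ w →
        ∃ i ℓ : ℕ, 2 ≤ ℓ ∧ i + 2 * ℓ ≤ w.length + 1 ∧
          ∀ a < ℓ, ∀ b < ℓ,
            ((w.take p ++ x :: w.drop p).getD (i + a) 0 <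
                (w.take p ++ x :: w.drop p).getD (i + b) 0 ↔
              (w.take p ++ x :: w.drop p).getD (i + ℓ + a) 0 <
                (w.take p ++ x :: w.drop p).getD (i + ℓ + b) 0) := by
  intro N
  have hlen : ((List.range (2 ^ (N + 4 + 1) + 21)).map (U N)).length = 2 ^ (N + 4 + 1) + 21 := by
    simp
  have hget : ∀ i < 2 ^ (N + 4 + 1) + 21,
      ((List.range (2 ^ (N + 4 + 1) + 21)).map (U N)).getD i 0 = U N i := by
    intro i hi
    rw [List.getD_eq_getElem _ _ (by rw [hlen]; exact hi)]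
    simp
  refine ⟨(List.range (2 ^ (N + 4 + 1) + 21)).map (U N), ?_, ?_, ?_, ?_⟩
  · rw [hlen]
    have h1 : N < 2 ^ N := Nat.lt_two_pow_self
    have h2 : (2 : ℕ) ^ (N + 4 + 1) = 32 * 2 ^ N := by ring
    omega
  · refine List.Nodup.map_on ?_ List.nodup_range
    intro a ha b hb h
    rw [List.mem_range] at ha hb
    unfold U at h
    exact W_inj N (by omega) (by omega) (by exact_mod_cast h)
  · rintro ⟨i, l, hl, hil, hq⟩
    rw [hlen] at hil
    refine sqfree N i l hl hil ?_
    intro a ha b hb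
    have := hq a ha b hb
    rw [hget _ (by omega), hget _ (by omega), hget _ (by omega), hget _ (by omega)] at this
    exact this
  · intro p hp x hx
    rw [hlen] at hp ⊢
    have hx' : ∀ i ≤ 2 ^ (N + 4 + 1) + 20, x ≠ U N i := by
      intro i hi h
      apply hx
      rw [List.mem_map]
      exact ⟨i, List.mem_range.2 (by omega), h.symm⟩
    obtain ⟨i, l, hl, hil, hq⟩ := all_ins N p x hp hx'
    refine ⟨i, l, hl, hil, ?_⟩
    have hins : ∀ i < 2 ^ (N + 4 + 1) + 22,
        (((List.range (2 ^ (N + 4 + 1) + 21)).map (U N)).take p ++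
          x :: ((List.range (2 ^ (N + 4 + 1) + 21)).map (U N)).drop p).getD i 0 =
        ins (U N) p x i := by
      intro i hi
      have htl : (((List.range (2 ^ (N + 4 + 1) + 21)).map (U N)).take p).length = p := by
        rw [List.length_take, hlen]
        omega
      unfold ins
      split_ifs with h1 h2
      · rw [List.getD_append _ _ _ _ (by rw [htl]; exact h1), ← hget i (by omega)]
        rw [List.getD_eq_getElem _ _ (by rw [htl]; exact h1),
          List.getD_eq_getElem _ _ (by rw [hlen]; omega), List.getElem_take]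
      · subst h2
        rw [List.getD_append_right _ _ _ _ (by rw [htl]), htl, Nat.sub_self]
        rfl
      · rw [List.getD_append_right _ _ _ _ (by rw [htl]; omega), htl,
          show i - p = (i - p - 1) + 1 by omega, List.getD_cons_succ, ← hget (i - 1) (by omega)]
        rw [List.getD_eq_getElem _ _ (by rw [List.length_drop, hlen]; omega),
          List.getD_eq_getElem _ _ (by rw [hlen]; omega), List.getElem_drop]
        congr 1
        omega
    intro a ha b hb
    rw [hins _ (by omega), hins _ (by omega), hins _ (by omega), hins _ (by omega)]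
    exact hq a ha b hb

end Pool.Agent.V11296.SqFree
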