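import Mathlib

/-!
Parity of a double Lambert series.
-/

set_option autoImplicit false

namespace Pool.Agent.V11296.Lambert

open Function

/-- index type -/
abbrev I4 : Type := (ℕ × ℕ) × (ℕ × ℕ)

theorem tsum_inj {X Y : Type} (g : X → Y) (hg : Injective g) (f : Y → ℂ) (A : Y → Prop)
    [DecidablePred A] (hA : ∀ y, A y ↔ y ∈ Set.range g) :
    ∑' x, f (g x) = ∑' y, if A y then f y else 0 := by
  rw [← hg.tsum_eq (f := fun y => if A y then f y else 0)]
  · apply tsum_congr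
    intro x
    rw [if_pos ((hA _).2 ⟨x, rfl⟩)]
  · intro y hy
    rw [← hA]
    by_contra h
    exact hy (by simp [h])

theorem summable_ite {Y : Type} {f : Y → ℂ} (hf : Summable f) (A : Y → Prop) [DecidablePred A] :
    Summable (fun y => if A y then f y else 0) := by
  have := hf.indicator {y | A y}
  refine this.congr ?_
  intro y
  by_cases h : A y
  · simp [h]
  · simp [h]

theorem tsum_split {Y : Type} {f : Y → ℂ} (hf : Summable f) (A : Y → Prop) [DecidablePred A] :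
    ∑' y, f y = (∑' y, if A y then f y else 0) + ∑' y, if A y then 0 else f y := by
  have h2 : Summable (fun y => if A y then 0 else f y) := by
    refine (summable_ite hf (fun y => ¬ A y)).congr ?_
    intro y
    by_cases h : A y <;> simp [h]
  rw [← (summable_ite hf A).tsum_add h2]
  apply tsum_congr
  intro y
  by_cases h : A y <;> simp [h]

/-- the basic bound -/
theorem summable_pow4 {ρ : ℝ} (h0 : 0 ≤ ρ) (h1 : ρ < 1) :
    Summable (fun x : I4 => ρ ^ (x.1.1 + x.1.2 + (x.2.1 + x.2.2))) := by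
  have hg := summable_geometric_of_lt_one h0 h1
  have h2 : Summable (fun x : ℕ × ℕ => ρ ^ x.1 * ρ ^ x.2) :=
    hg.mul_of_nonneg hg (fun _ => by positivity) (fun _ => by positivity)
  have h4 : Summable (fun x : I4 => (ρ ^ x.1.1 * ρ ^ x.1.2) * (ρ ^ x.2.1 * ρ ^ x.2.2)) :=
    h2.mul_of_nonneg h2 (fun _ => by positivity) (fun _ => by positivity)
  refine h4.congr ?_
  intro x
  rw [pow_add, pow_add, pow_add]

theorem summable_of_exp {q : ℂ} (hq : ‖q‖ < 1) (c : I4 → ℂ) (C : ℝ) (hc : ∀ x, ‖c x‖ ≤ C)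
    (e : I4 → ℕ) (he : ∀ x, x.1.1 + x.1.2 + (x.2.1 + x.2.2) ≤ e x) :
    Summable (fun x => c x * q ^ (e x)) := by
  have hC : 0 ≤ C := (norm_nonneg _).trans (hc ((0, 0), (0, 0)))
  refine Summable.of_norm_bounded ((summable_pow4 (norm_nonneg q) hq).mul_left C) ?_
  intro x
  rw [norm_mul, norm_pow]
  exact mul_le_mul (hc x) (pow_le_pow_of_le_one (norm_nonneg _) hq.le (he x)) (by positivity) hC

/-- the exponent in the expansion of the series -/
def ex (m n r s : ℕ) : ℕ := (m + 1) * (2 * n + 3) + (2 * m + 1) * r + (n + 1) * s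

/-- the four-fold expansion -/
noncomputable def G (q : ℂ) (x : I4) : ℂ :=
  (-1) ^ (x.1.1 + 1 + x.2.2) * q ^ ex x.1.1 x.1.2 x.2.1 x.2.2

theorem ex_ge (m n r s : ℕ) : m + n + (r + s) ≤ ex m n r s := by
  unfold ex
  nlinarith [Nat.zero_le (m * n), Nat.zero_le (m * r), Nat.zero_le (n * s)]

theorem summable_G {q : ℂ} (hq : ‖q‖ < 1) : Summable (G q) := by
  refine summable_of_exp hq (fun x => (-1) ^ (x.1.1 + 1 + x.2.2)) 1 ?_ _ (fun x => ex_ge _ _ _ _)
  intro x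
  rw [norm_pow, norm_neg, norm_one, one_pow]

/-- the series -/
noncomputable def Y (q : ℂ) : ℂ :=
  ∑' p : ℕ × ℕ, (-q) ^ (2 * (p.1 + 1) * (p.2 + 1) + (p.1 + 1)) /
          ((1 + q ^ (p.2 + 1)) * (1 - q ^ (2 * p.1 + 1)))

theorem term_eq {q : ℂ} (hq : ‖q‖ < 1) (m n : ℕ) :
    (-q) ^ (2 * (m + 1) * (n + 1) + (m + 1)) / ((1 + q ^ (n + 1)) * (1 - q ^ (2 * m + 1))) =
      ∑' y : ℕ × ℕ, G q ((m, n), y) := by
  have ha : ‖q ^ (2 * m + 1)‖ < 1 := by
    rw [norm_pow]; exact pow_lt_one₀ (norm_nonneg _) hq (by omega)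
  have hb : ‖-(q ^ (n + 1))‖ < 1 := by
    rw [norm_neg, norm_pow]; exact pow_lt_one₀ (norm_nonneg _) hq (by omega)
  have h1 := tsum_geometric_of_norm_lt_one ha
  have h2 := tsum_geometric_of_norm_lt_one hb
  have sa : Summable (fun r : ℕ => ‖(q ^ (2 * m + 1)) ^ r‖) := by
    simp only [norm_pow]
    exact summable_geometric_of_lt_one (by positivity) (by rwa [norm_pow] at ha)
  have sb : Summable (fun r : ℕ => ‖(-(q ^ (n + 1))) ^ r‖) := by
    simp only [norm_pow]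
    exact summable_geometric_of_lt_one (by positivity) hb
  have h3 := tsum_mul_tsum_of_summable_norm sa sb
  have e1 : ∀ y : ℕ × ℕ, G q ((m, n), y) = ((-1) ^ (m + 1) * q ^ ((m + 1) * (2 * n + 3))) *
      ((q ^ (2 * m + 1)) ^ y.1 * (-(q ^ (n + 1))) ^ y.2) := by
    intro y
    unfold G ex
    rw [neg_pow (q ^ (n + 1)), ← pow_mul, ← pow_mul, pow_add, pow_add (q), pow_add (q)]
    ring
  rw [tsum_congr e1, tsum_mul_left, ← h3, h1, h2, sub_neg_eq_add]
  have e2 : (-q) ^ (2 * (m + 1) * (n + 1) + (m + 1)) =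
      (-1) ^ (m + 1) * q ^ ((m + 1) * (2 * n + 3)) := by
    rw [neg_pow, pow_add (-1 : ℂ), mul_assoc 2, pow_mul (-1 : ℂ) 2, neg_one_sq, one_pow, one_mul]
    congr 2
    ring
  rw [e2, div_eq_mul_inv, mul_inv]
  ring

theorem Y_eq {q : ℂ} (hq : ‖q‖ < 1) : Y q = ∑' x : I4, G q x := by
  rw [(summable_G hq).tsum_prod]
  unfold Y
  apply tsum_congr
  rintro ⟨m, n⟩
  exact term_eq hq m n

/-- the exponent of the symmetric family -/
def fx (a b c d : ℕ) : ℕ := 2 * a * b + a + b + 1 + 2 * (c + 1) * (d + 1)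

/-- the symmetric family -/
noncomputable def F (q : ℂ) (x : I4) : ℂ :=
  (if (x.1.1 + x.1.2) % 2 = 1 then (-1) ^ x.1.1 else 0) * q ^ fx x.1.1 x.1.2 x.2.1 x.2.2

theorem fx_ge (m n r s : ℕ) : m + n + (r + s) ≤ fx m n r s := by
  unfold fx
  nlinarith [Nat.zero_le (m * n), Nat.zero_le (r * s)]

theorem summable_F {q : ℂ} (hq : ‖q‖ < 1) : Summable (F q) := by
  refine summable_of_exp hq (fun x => if (x.1.1 + x.1.2) % 2 = 1 then (-1) ^ x.1.1 else 0) 1 ?_ _
    (fun x => fx_ge _ _ _ _)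
  intro x
  split_ifs
  · rw [norm_pow, norm_neg, norm_one, one_pow]
  · simp

/-- the symmetry -/
def sw : I4 ≃ I4 where
  toFun x := ((x.1.2, x.1.1), (x.2.2, x.2.1))
  invFun x := ((x.1.2, x.1.1), (x.2.2, x.2.1))
  left_inv _ := rfl
  right_inv _ := rfl

theorem F_sw (q : ℂ) (x : I4) : F q (sw x) = - F q x := by
  obtain ⟨⟨a, b⟩, ⟨c, d⟩⟩ := x
  simp only [F, sw, Equiv.coe_fn_mk]
  have e : fx b a d c = fx a b c d := by unfold fx; ring
  rw [e, add_comm b a]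
  by_cases h : (a + b) % 2 = 1
  · rw [if_pos h, if_pos h]
    have : (-1 : ℂ) ^ b = - (-1) ^ a := by
      rcases Nat.even_or_odd' a with ⟨k, rfl | rfl⟩ <;> rcases Nat.even_or_odd' b with ⟨l, rfl | rfl⟩
      · omega
      · simp [pow_succ, pow_mul]
      · simp [pow_succ, pow_mul]
      · omega
    rw [this]
    ring
  · rw [if_neg h, if_neg h]
    ring

theorem F_total (q : ℂ) : ∑' x, F q x = 0 := by
  have h1 : ∑' x, F q (sw x) = ∑' x, F q x := sw.tsum_eq (F q)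
  rw [tsum_congr (F_sw q), tsum_neg] at h1
  have h2 : (2 : ℂ) * ∑' x, F q x = 0 := by
    rw [two_mul]
    nth_rewrite 1 [← h1]
    ring
  exact (mul_eq_zero.1 h2).resolve_left two_ne_zero

/-- the two parts of the series cancel -/
theorem parts {q : ℂ} (hq : ‖q‖ < 1) :
    ∑' x : I4, F q ((x.1.1, x.1.2 + 1 + x.2.1), (x.1.2, x.2.2)) =
      ∑' x : I4, F q ((x.1.1, x.2.1), (x.1.2, x.2.2 + x.1.1)) := by
  have e1 : ∑' x : I4, F q ((x.1.1, x.1.2 + 1 + x.2.1), (x.1.2, x.2.2)) =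
      ∑' y : I4, if y.2.1 < y.1.2 then F q y else 0 := by
    refine tsum_inj (fun x : I4 => (((x.1.1, x.1.2 + 1 + x.2.1), (x.1.2, x.2.2)) : I4)) ?_ (F q) _ ?_
    · rintro ⟨⟨a, b⟩, ⟨c, d⟩⟩ ⟨⟨a', b'⟩, ⟨c', d'⟩⟩ h
      simp only [Prod.mk.injEq] at h ⊢
      omega
    · rintro ⟨⟨a, b⟩, ⟨c, d⟩⟩
      constructor
      · intro h
        refine ⟨((a, c), (b - c - 1, d)), ?_⟩
        have h' : c < b := h
        show ((a, c + 1 + (b - c - 1)), (c, d)) = ((a, b), (c, d))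
        rw [show c + 1 + (b - c - 1) = b by omega]
      · rintro ⟨⟨⟨a', b'⟩, ⟨c', d'⟩⟩, h⟩
        simp only [Prod.mk.injEq] at h ⊢
        omega
  have e2 : ∑' x : I4, F q ((x.1.1, x.2.1), (x.1.2, x.2.2 + x.1.1)) =
      ∑' y : I4, if y.1.1 ≤ y.2.2 then F q y else 0 := by
    refine tsum_inj (fun x : I4 => (((x.1.1, x.2.1), (x.1.2, x.2.2 + x.1.1)) : I4)) ?_ (F q) _ ?_
    · rintro ⟨⟨a, b⟩, ⟨c, d⟩⟩ ⟨⟨a', b'⟩, ⟨c', d'⟩⟩ h
      simp only [Prod.mk.injEq] at h ⊢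
      omega
    · rintro ⟨⟨a, b⟩, ⟨c, d⟩⟩
      constructor
      · intro h
        refine ⟨((a, c), (b, d - a)), ?_⟩
        have h' : a ≤ d := h
        show ((a, b), (c, d - a + a)) = ((a, b), (c, d))
        rw [Nat.sub_add_cancel h']
      · rintro ⟨⟨⟨a', b'⟩, ⟨c', d'⟩⟩, h⟩
        simp only [Prod.mk.injEq] at h ⊢
        omega
  have e3 : (∑' y : I4, if y.1.1 ≤ y.2.2 then F q y else 0) =
      - ∑' y : I4, if y.2.1 < y.1.2 then 0 else F q y := by
    rw [← sw.tsum_eq, ← tsum_neg]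
    apply tsum_congr
    intro y
    rw [F_sw]
    have : ((sw y).1.1 ≤ (sw y).2.2) ↔ ¬ y.2.1 < y.1.2 := by
      simp only [sw, Equiv.coe_fn_mk]
      omega
    by_cases h : y.2.1 < y.1.2
    · rw [if_neg (by rw [this]; exact not_not.2 h), if_pos h, neg_zero]
    · rw [if_pos (this.2 h), if_neg h]
  rw [e1, e2, e3]
  have h := tsum_split (summable_F hq) (fun y : I4 => y.2.1 < y.1.2)
  rw [F_total] at h
  linear_combination -h

theorem G_even (q : ℂ) (x : I4) :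
    G q (x.1, (x.2.1, 2 * x.2.2 + 1)) + G (-q) (x.1, (x.2.1, 2 * x.2.2 + 1)) =
      2 * F q ((x.1.1, x.1.2 + 1 + x.2.1), (x.1.2, x.2.2)) := by
  obtain ⟨⟨m, n⟩, ⟨r, d⟩⟩ := x
  simp only [G, F]
  have e : ex m n r (2 * d + 1) = fx m (n + 1 + r) n d := by unfold ex fx; ring
  rw [e, neg_pow q]
  have e2 : (-1 : ℂ) ^ (m + 1 + (2 * d + 1)) = (-1) ^ m := by
    rw [show m + 1 + (2 * d + 1) = m + 2 * (d + 1) by ring, pow_add, pow_mul, neg_one_sq, one_pow,
      mul_one]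
  rw [e2]
  by_cases h : (m + (n + 1 + r)) % 2 = 1
  · rw [if_pos h]
    have : (-1 : ℂ) ^ fx m (n + 1 + r) n d = 1 := by
      have h2 : Even (fx m (n + 1 + r) n d) := by
        obtain ⟨k, hk⟩ : ∃ k, m + (n + 1 + r) = 2 * k + 1 := ⟨(m + (n + 1 + r)) / 2, by omega⟩
        refine ⟨m * (n + 1 + r) + (k + 1) + (n + 1) * (d + 1), ?_⟩
        unfold fx
        have : m + (n + 1 + r) + 1 = 2 * (k + 1) := by omega
        linear_combination this
      exact h2.neg_one_pow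
    rw [this]
    ring
  · rw [if_neg h]
    have : (-1 : ℂ) ^ fx m (n + 1 + r) n d = -1 := by
      have h2 : Odd (fx m (n + 1 + r) n d) := by
        obtain ⟨k, hk⟩ : ∃ k, m + (n + 1 + r) = 2 * k := ⟨(m + (n + 1 + r)) / 2, by omega⟩
        refine ⟨m * (n + 1 + r) + k + (n + 1) * (d + 1), ?_⟩
        unfold fx
        linear_combination hk
      exact h2.neg_one_pow
    rw [this]
    ring

theorem G_odd (q : ℂ) (x : I4) :
    G q (x.1, (x.2.1, 2 * x.2.2)) + G (-q) (x.1, (x.2.1, 2 * x.2.2)) =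
      - (2 * F q ((x.1.1, x.2.1), (x.1.2, x.2.2 + x.1.1))) := by
  obtain ⟨⟨m, n⟩, ⟨r, d⟩⟩ := x
  simp only [G, F]
  have e : ex m n r (2 * d) = fx m r n (d + m) := by unfold ex fx; ring
  rw [e, neg_pow q]
  have e2 : (-1 : ℂ) ^ (m + 1 + 2 * d) = - (-1) ^ m := by
    rw [show m + 1 + 2 * d = m + 2 * d + 1 by ring, pow_succ, pow_add, pow_mul, neg_one_sq, one_pow]
    ring
  rw [e2]
  by_cases h : (m + r) % 2 = 1
  · rw [if_pos h]
    have : (-1 : ℂ) ^ fx m r n (d + m) = 1 := by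
      have h2 : Even (fx m r n (d + m)) := by
        obtain ⟨k, hk⟩ : ∃ k, m + r = 2 * k + 1 := ⟨(m + r) / 2, by omega⟩
        refine ⟨m * r + (k + 1) + (n + 1) * (d + m + 1), ?_⟩
        unfold fx
        linear_combination hk
      exact h2.neg_one_pow
    rw [this]
    ring
  · rw [if_neg h]
    have : (-1 : ℂ) ^ fx m r n (d + m) = -1 := by
      have h2 : Odd (fx m r n (d + m)) := by
        obtain ⟨k, hk⟩ : ∃ k, m + r = 2 * k := ⟨(m + r) / 2, by omega⟩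
        refine ⟨m * r + k + (n + 1) * (d + m + 1), ?_⟩
        unfold fx
        linear_combination hk
      exact h2.neg_one_pow
    rw [this]
    ring

theorem main (q : ℂ) (hq : ‖q‖ < 1) : Y (-q) = - Y q := by
  have hq' : ‖-q‖ < 1 := by rwa [norm_neg]
  have hs : Summable (fun x => G q x + G (-q) x) := (summable_G hq).add (summable_G hq')
  have h1 : Y q + Y (-q) = ∑' x : I4, (G q x + G (-q) x) := by
    rw [Y_eq hq, Y_eq hq', (summable_G hq).tsum_add (summable_G hq')]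
  have h2 := tsum_split hs (fun y : I4 => y.2.2 % 2 = 0)
  have h3 : (∑' y : I4, if y.2.2 % 2 = 0 then G q y + G (-q) y else 0) =
      ∑' x : I4, (G q (x.1, (x.2.1, 2 * x.2.2)) + G (-q) (x.1, (x.2.1, 2 * x.2.2))) := by
    symm
    refine tsum_inj (fun x : I4 => ((x.1, (x.2.1, 2 * x.2.2)) : I4)) ?_
      (fun y => G q y + G (-q) y) _ ?_
    · rintro ⟨⟨a, b⟩, ⟨c, d⟩⟩ ⟨⟨a', b'⟩, ⟨c', d'⟩⟩ h
      simp only [Prod.mk.injEq] at h ⊢
      omega
    · rintro ⟨⟨a, b⟩, ⟨c, d⟩⟩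
      constructor
      · intro h
        refine ⟨((a, b), (c, d / 2)), ?_⟩
        have h' : d % 2 = 0 := h
        show ((a, b), (c, 2 * (d / 2))) = ((a, b), (c, d))
        rw [show 2 * (d / 2) = d by omega]
      · rintro ⟨⟨⟨a', b'⟩, ⟨c', d'⟩⟩, h⟩
        simp only [Prod.mk.injEq] at h ⊢
        omega
  have h4 : (∑' y : I4, if y.2.2 % 2 = 0 then 0 else G q y + G (-q) y) =
      ∑' x : I4, (G q (x.1, (x.2.1, 2 * x.2.2 + 1)) + G (-q) (x.1, (x.2.1, 2 * x.2.2 + 1))) := by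
    have : (∑' y : I4, if y.2.2 % 2 = 0 then 0 else G q y + G (-q) y) =
        ∑' y : I4, if y.2.2 % 2 = 1 then G q y + G (-q) y else 0 := by
      apply tsum_congr
      intro y
      by_cases h : y.2.2 % 2 = 0
      · rw [if_pos h, if_neg (by omega)]
      · rw [if_neg h, if_pos (by omega)]
    rw [this]
    symm
    refine tsum_inj (fun x : I4 => ((x.1, (x.2.1, 2 * x.2.2 + 1)) : I4)) ?_
      (fun y => G q y + G (-q) y) _ ?_
    · rintro ⟨⟨a, b⟩, ⟨c, d⟩⟩ ⟨⟨a', b'⟩, ⟨c', d'⟩⟩ h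
      simp only [Prod.mk.injEq] at h ⊢
      omega
    · rintro ⟨⟨a, b⟩, ⟨c, d⟩⟩
      constructor
      · intro h
        refine ⟨((a, b), (c, d / 2)), ?_⟩
        have h' : d % 2 = 1 := h
        show ((a, b), (c, 2 * (d / 2) + 1)) = ((a, b), (c, d))
        rw [show 2 * (d / 2) + 1 = d by omega]
      · rintro ⟨⟨⟨a', b'⟩, ⟨c', d'⟩⟩, h⟩
        simp only [Prod.mk.injEq] at h ⊢
        omega
  rw [h3, h4, tsum_congr (G_odd q), tsum_congr (G_even q), tsum_neg, tsum_mul_left, tsum_mul_left,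
    parts hq, neg_add_cancel, ← h1] at h2
  linear_combination h2

end Pool.Agent.V11296.Lambert
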