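import Pool.Agent.V11296.CR1

/-!
Recurring values (helper296), part 2: from `n^2 + t n + c` to `A m^2 + B m + C`.
-/

set_option autoImplicit false

namespace Pool.Agent.V11296.CR

open Finset Filter
open Pool.Agent.W78.EG
open Pool.Agent.W251.EG
open Pool.Agent.V11296.CV

open scoped Classical in
/-- the number of `n` -/
noncomputable def cr {G : Type} (A B C q n₀ : ℕ) (H : ℕ → G) (g : G) (X : ℕ) : ℕ :=
  ((range (X + 1)).filter (fun n : ℕ => n ≡ n₀ [MOD q] ∧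
    Squarefree (A * n ^ 2 + B * n + C) ∧ H (A * n ^ 2 + B * n + C) = g)).card

section

variable {t c : ℕ} {f : ℕ} {χ : DirichletCharacter ℂ f} {G : Type} [AddCommGroup G] {m : ℕ}
  {E : ℤ → ℤ → G} {τ : G} {H : ℕ → G}

/-- the identity between the two polynomials -/
theorem quad_id {A B C β : ℕ} (hβ : B = 2 * β + t) (hD : B ^ 2 + 4 * c = t ^ 2 + 4 * A * C)
    (n : ℕ) : (A * n + β) ^ 2 + t * (A * n + β) + c = A * (A * n ^ 2 + B * n + C) := by
  have h1 : 4 * ((A * n + β) ^ 2 + t * (A * n + β) + c) = 4 * (A * (A * n ^ 2 + B * n + C)) := by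
    rw [hβ] at hD ⊢
    zify at hD ⊢
    linear_combination hD
  omega

theorem exists_beta (ht : t ≤ 1) {A B C : ℕ} (hD : B ^ 2 + 4 * c = t ^ 2 + 4 * A * C) :
    ∃ β : ℕ, B = 2 * β + t := by
  have h1 : B ^ 2 % 4 = t ^ 2 % 4 := by
    have h2 : 4 * A * C = 4 * (A * C) := by ring
    omega
  have h3 : B % 2 = t % 2 := by
    rcases Nat.even_or_odd B with ⟨b, hb⟩ | ⟨b, hb⟩
    · have h4 : B ^ 2 = 4 * (b * b) := by rw [hb]; ring
      rw [h4] at h1
      interval_cases t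
      · omega
      · omega
    · have h4 : B ^ 2 = 4 * (b * b + b) + 1 := by rw [hb]; ring
      rw [h4] at h1
      interval_cases t
      · omega
      · omega
  have h5 : t ≤ B := by
    interval_cases t
    · omega
    · by_contra h6
      have : B = 0 := by omega
      rw [this] at h3
      omega
  refine ⟨(B - t) / 2, ?_⟩
  omega

/-- comparison of the numbers -/
theorem cv_le_cr (ht : t ≤ 1) {A B C β : ℕ} (hA : 1 ≤ A) (hβ : B = 2 * β + t)
    (hD : B ^ 2 + 4 * c = t ^ 2 + 4 * A * C) (hC : 1 ≤ c)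
    (hadd : ∀ x y : ℕ, x ≠ 0 → y ≠ 0 → H (x * y) = H x + H y) (q Q n₀ : ℕ)
    (hQ : A * q ∣ Q) (hQn : A * n₀ + β < Q) (X : ℕ) :
    cv t c Q (A * n₀ + β) H (H ((A * n₀ + β) ^ 2 + t * (A * n₀ + β) + c)) X ≤
      cr A B C q n₀ H (H (A * n₀ ^ 2 + B * n₀ + C)) X := by
  classical
  have hpos : ∀ n : ℕ, A * n ^ 2 + B * n + C ≠ 0 := by
    intro n h0
    have h1 := quad_id hβ hD n
    rw [h0, mul_zero] at h1
    omega
  -- every `n` counted on the left is `A k + β` with `k ≡ n₀ mod q`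
  have key : ∀ n : ℕ, n ≡ A * n₀ + β [MOD Q] → ∃ k : ℕ, n = A * k + β ∧ k ≡ n₀ [MOD q] := by
    intro n hn
    have h1 : n % Q = A * n₀ + β := by
      have h2 : n % Q = (A * n₀ + β) % Q := hn
      rw [h2, Nat.mod_eq_of_lt hQn]
    obtain ⟨R, hR⟩ := hQ
    refine ⟨n₀ + q * (R * (n / Q)), ?_, ?_⟩
    · have h2 := Nat.mod_add_div n Q
      rw [h1] at h2
      have h3 : Q * (n / Q) = A * (q * (R * (n / Q))) := by
        nth_rewrite 1 [hR]
        ring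
      calc n = A * n₀ + β + Q * (n / Q) := h2.symm
        _ = A * n₀ + β + A * (q * (R * (n / Q))) := by rw [h3]
        _ = A * (n₀ + q * (R * (n / Q))) + β := by ring
    · show (n₀ + q * (R * (n / Q))) % q = n₀ % q
      rw [Nat.add_mul_mod_self_left]
  unfold cv cr
  refine card_le_card_of_injOn (fun n => (n - β) / A) ?_ ?_
  · intro n hn
    rw [Finset.mem_coe, mem_filter, mem_range] at hn
    obtain ⟨h1, _, h3, h4, h5⟩ := hn
    obtain ⟨k, hk, hkq⟩ := key n h3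
    have hk2 : (n - β) / A = k := by
      rw [hk, Nat.add_sub_cancel, Nat.mul_div_cancel_left _ (by omega)]
    rw [Finset.mem_coe]
    show (n - β) / A ∈ _
    rw [hk2, mem_filter, mem_range]
    have hid := quad_id hβ hD k
    rw [hk, hid] at h4 h5
    have hid0 := quad_id hβ hD n₀
    rw [hid0, hadd A _ (by omega) (hpos k), hadd A _ (by omega) (hpos n₀)] at h5
    refine ⟨?_, hkq, Squarefree.squarefree_of_dvd (Dvd.intro_left _ rfl) h4, ?_⟩
    · have : k ≤ A * k := Nat.le_mul_of_pos_left k (by omega)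
      omega
    · exact add_left_cancel h5
  · intro n hn n' hn' hnn
    rw [Finset.mem_coe, mem_filter] at hn hn'
    obtain ⟨k, hk, _⟩ := key n hn.2.2.1
    obtain ⟨k', hk', _⟩ := key n' hn'.2.2.1
    have hk2 : (n - β) / A = k := by
      rw [hk, Nat.add_sub_cancel, Nat.mul_div_cancel_left _ (by omega)]
    have hk2' : (n' - β) / A = k' := by
      rw [hk', Nat.add_sub_cancel, Nat.mul_div_cancel_left _ (by omega)]
    have h1 : (n - β) / A = (n' - β) / A := hnn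
    rw [hk2, hk2'] at h1
    rw [hk, hk', h1]

/-- the main statement -/
theorem recur [Finite G] (hF : Fd (t : ℤ) (c : ℤ) f χ) (hS : S_SPSc (t : ℤ) (c : ℤ))
    (h : Gv t c m E τ H) (A B C : ℕ) (hA : 1 ≤ A) (hD : B ^ 2 + 4 * c = t ^ 2 + 4 * A * C)
    (q n₀ : ℕ) (hq : 1 ≤ q) (hsf : Squarefree (A * (A * n₀ ^ 2 + B * n₀ + C))) :
    (∀ ε : ℝ, 0 < ε → open scoped Classical in
      Tendsto (fun Z : ℕ => (∑ X ∈ (Icc 1 Z).filter (fun X : ℕ =>
      (cr A B C q n₀ H (H (A * n₀ ^ 2 + B * n₀ + C)) X : ℝ) <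
        (X : ℝ) / Real.log X ^ (Real.log 2 + ε)), 1 / (X : ℝ)) /
      Real.log Z) atTop (nhds 0)) ∧
    ∀ δ : ℝ, 0 < δ → ∃ N₀ : ℕ, ∀ N : ℕ, N₀ ≤ N →
      (N : ℝ) ^ (1 - δ) ≤ cr A B C q n₀ H (H (A * n₀ ^ 2 + B * n₀ + C)) N := by
  have ht := t_le hF
  have hc := c_pos hF
  obtain ⟨β, hβ⟩ := exists_beta ht hD
  obtain ⟨N₀, hN₀⟩ : ∃ N₀ : ℕ, N₀ = (A * n₀ + β) ^ 2 + t * (A * n₀ + β) + c := ⟨_, rfl⟩
  have hid := quad_id hβ hD n₀
  have hsf' : Squarefree ((A * n₀ + β) ^ 2 + t * (A * n₀ + β) + c) := by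
    rw [hid]
    exact hsf
  have hN₀p : 0 < N₀ := by
    rw [hN₀]
    exact fpos hc _
  obtain ⟨Q, hQ⟩ : ∃ Q : ℕ, Q = A * q * (m * N₀) * (A * n₀ + β + 1) := ⟨_, rfl⟩
  have hm := h.pos
  have hQp : 0 < A * q * (m * N₀) := by positivity
  have hQn : A * n₀ + β < Q := by
    rw [hQ]
    have : A * n₀ + β + 1 ≤ A * q * (m * N₀) * (A * n₀ + β + 1) :=
      Nat.le_mul_of_pos_left _ hQp
    omega
  have hQ1 : 1 ≤ Q := by omega
  have hQm : m * ((A * n₀ + β) ^ 2 + t * (A * n₀ + β) + c) ∣ Q := by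
    rw [← hN₀, hQ]
    exact ⟨A * q * (A * n₀ + β + 1), by ring⟩
  have hQA : A * q ∣ Q := by
    rw [hQ]
    exact ⟨m * N₀ * (A * n₀ + β + 1), by ring⟩
  have hal := al_rec hF h (A * n₀ + β) Q hsf' hQm hQn
  have hqa : ∀ l : ℕ, l.Prime → l ^ 2 ∣ Q →
      ¬ l ^ 2 ∣ (A * n₀ + β) ^ 2 + t * (A * n₀ + β) + c := by
    intro l hl _ hd
    rw [pow_two] at hd
    exact hl.not_isUnit (hsf' l hd)
  have hle := cv_le_cr (H := H) ht hA hβ hD hc h.add q Q n₀ hQA hQn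
  refine ⟨fun ε hε => ?_, fun δ hδ => ?_⟩
  · refine null_of 0 (fun X _ hX => ?_) (outCv hF hS h _ Q (A * n₀ + β) hQ1 hal hqa ε hε)
    have h1 : (cv t c Q (A * n₀ + β) H (H ((A * n₀ + β) ^ 2 + t * (A * n₀ + β) + c)) X : ℝ) ≤
        cr A B C q n₀ H (H (A * n₀ ^ 2 + B * n₀ + C)) X := by
      exact_mod_cast hle X
    exact lt_of_le_of_lt h1 hX
  · obtain ⟨N₁, hN₁⟩ := outCvAll hF hS h _ Q (A * n₀ + β) hQ1 hal hqa δ hδ
    refine ⟨N₁, fun N hN => (hN₁ N hN).trans ?_⟩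
    exact_mod_cast hle N

end

end Pool.Agent.V11296.CR
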