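import Pool.Agent.V11296.CV6
import Pool.Agent.V11296.CR2

/-!
Patterns of the values of quadratic polynomials `A n^2 + B n + C` (helper296).
-/

set_option autoImplicit false

namespace Pool.Agent.V11296.CQ

open Finset Filter
open Pool.Agent.W78.GA (Qd nm nm_cast nm_mul nm_pos mul_star_self' prim prim_iff prim_of_dvd
  prim_star prim_ne_zero)
open Pool.Agent.W78.EG
open Pool.Agent.W251.EG
open Pool.Agent.V11296.CV
open Pool.Agent.V11296.CR

section

variable {t c : ℕ} {f : ℕ} {χ : DirichletCharacter ℂ f}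

/-- admissible patterns -/
def Admn (t c m k v J : ℕ) (T : Finset (ZMod m)ˣ) : Prop :=
  (∀ b ∈ T, isN t c m b) ∧ (2 ∣ k → T.card ≡ J [MOD 2]) ∧
  ∃ s : ZMod m, isN t c m s ∧ (v : ZMod m) = s ^ 2 * ∏ b ∈ T, (b : ZMod m)

/-- necessity -/
theorem nec_gen (hF : Fd (t : ℤ) (c : ℤ) f χ) {m k : ℕ} [NeZero m] {N v J : ℕ}
    (hpos : 0 < N) (hcop : N.Coprime m) (hv : N ≡ v [MOD m])
    (hpr : ∀ p : ℕ, p.Prime → p ∣ N → ∃ π : Qd (t : ℤ) (c : ℤ), nm π = p)
    (T : Finset (ZMod m)ˣ) (hJ : N.primeFactorsList.length ≡ J [MOD k])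
    (hT : oddc m N = T) : Admn t c m k v J T := by
  classical
  have hD := hDG hF
  have hcl : ∀ b : (ZMod m)ˣ, cb m N b ≠ 0 → isN t c m b := by
    intro b hb
    unfold cb at hb
    obtain ⟨p, hp1, hp2⟩ := List.countP_pos_iff.1 (Nat.pos_of_ne_zero hb)
    have hp3 : (p : ZMod m) = b := by simpa using hp2
    have hp := Nat.prime_of_mem_primeFactorsList hp1
    have hpN := Nat.dvd_of_mem_primeFactorsList hp1
    obtain ⟨π, h5⟩ := hpr p hp hpN
    have h6 := nm_cast hD π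
    rw [h5] at h6
    refine ⟨π.re, π.im, ?_, ?_⟩
    · rw [← h6]
      exact Nat.isCoprime_iff_coprime.2 (Nat.Coprime.coprime_dvd_left hpN hcop)
    · rw [← h6, ← hp3]
      simp
  have hLc : ∀ p ∈ N.primeFactorsList, p.Coprime m := fun p hp =>
    Nat.Coprime.coprime_dvd_left (Nat.dvd_of_mem_primeFactorsList hp) hcop
  obtain ⟨h1, h2⟩ := list_classes N.primeFactorsList hLc
  have h1' : ∑ b : (ZMod m)ˣ, cb m N b = N.primeFactorsList.length := h1
  have h2' : ∏ b : (ZMod m)ˣ, (b : ZMod m) ^ (cb m N b) = (N : ZMod m) := by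
    rw [Nat.prod_primeFactorsList hpos.ne'] at h2
    exact h2
  have hTm : ∀ b : (ZMod m)ˣ, b ∈ T ↔ Odd (cb m N b) := by
    intro b
    rw [← hT]
    unfold oddc
    rw [mem_filter]
    simp
  refine ⟨fun b hb => hcl b ?_, fun hk => ?_, ∏ b : (ZMod m)ˣ, (b : ZMod m) ^ (cb m N b / 2),
    ?_, ?_⟩
  · intro h0
    have h3 := (hTm b).1 hb
    rw [h0] at h3
    exact absurd h3 (by decide)
  · have h3 : N.primeFactorsList.length ≡ J [MOD 2] := hJ.of_dvd hk
    refine Nat.ModEq.trans ?_ h3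
    rw [← h1']
    have h4 := Finset.odd_sum_iff_odd_card_odd (s := (univ : Finset (ZMod m)ˣ))
      (fun b : (ZMod m)ˣ => cb m N (b : ZMod m))
    have h5 : (univ : Finset (ZMod m)ˣ).filter
        (fun b : (ZMod m)ˣ => Odd (cb m N (b : ZMod m))) = T := by
      ext b
      rw [mem_filter, hTm b]
      simp
    rw [h5] at h4
    unfold Nat.ModEq
    rcases Nat.even_or_odd T.card with h6 | h6
    · have h7 : Even (∑ b : (ZMod m)ˣ, cb m N b) := by
        rw [← Nat.not_odd_iff_even, h4, Nat.not_odd_iff_even]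
        exact h6
      rw [Nat.even_iff.1 h6, Nat.even_iff.1 h7]
    · have h7 := h4.2 h6
      rw [Nat.odd_iff.1 h6, Nat.odd_iff.1 h7]
  · refine isN_prod _ _ fun b _ => ?_
    by_cases hb : cb m N b = 0
    · rw [hb]
      simpa using isN_one
    · exact isN_pow (hcl b hb) _
  · have h3 : (v : ZMod m) = (N : ZMod m) := ((ZMod.natCast_eq_natCast_iff _ _ _).2 hv).symm
    rw [h3, ← h2', ← prod_pow]
    have h4 : ∏ b ∈ T, (b : ZMod m) = ∏ b : (ZMod m)ˣ, if b ∈ T then (b : ZMod m) else 1 := by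
      rw [prod_ite_mem]
      simp
    rw [h4, ← prod_mul_distrib]
    refine prod_congr rfl fun b _ => ?_
    by_cases hb : b ∈ T
    · obtain ⟨w, hw⟩ := (hTm b).1 hb
      rw [if_pos hb, hw, show (2 * w + 1) / 2 = w by omega]
      ring
    · have hb' : ¬ Odd (cb m N b) := fun h => hb ((hTm b).2 h)
      rw [Nat.not_odd_iff_even] at hb'
      obtain ⟨w, hw⟩ := hb'
      rw [if_neg hb, hw, show (w + w) / 2 = w by omega]
      ring

/-- the coset of an admissible pattern -/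
theorem coset_k {m k v J : ℕ} (hNv : isN t c m (v : ZMod m)) (T : Finset (ZMod m)ˣ)
    (h : Admn t c m k v J T) :
    ((1, ev m (v : ZMod m)) : Ak m k) - ((J : ZMod k), ∑ b ∈ T, ev m (b : ZMod m)) ∈
      Df t c m (Ek t c m k) := by
  obtain ⟨hT, hk, s, hs1, hs2⟩ := h
  have h1 := df_set (k := k) T hT
  have h2 := df_sq (k := k) h1.1 hs1
  rw [mul_comm, ← hs2] at h2
  have h3 := df_mul (t := t) (c := c) (m := m) (k := k) ((J : ℤ) - T.card) (by
    intro h4
    exact (Int.natCast_modEq_iff.2 (hk h4)).dvd)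
  have h4 := sub_mem h2 (add_mem h3 h1.2)
  have h5 : ((0, ev m (v : ZMod m) - ev m (∏ b ∈ T, (b : ZMod m))) -
      (((((J : ℤ) - T.card : ℤ) : ZMod k), 0) +
      (((T.card : ZMod k), ∑ b ∈ T, ev m (b : ZMod m)) - (1, ev m (∏ b ∈ T, (b : ZMod m)))))
        : Ak m k) =
      ((1, ev m (v : ZMod m)) : Ak m k) - ((J : ZMod k), ∑ b ∈ T, ev m (b : ZMod m)) := by
    refine Prod.ext ?_ ?_
    · show (0 : ZMod k) - ((((J : ℤ) - T.card : ℤ) : ZMod k) + ((T.card : ZMod k) - 1)) =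
        1 - (J : ZMod k)
      push_cast
      ring
    · show ev m (v : ZMod m) - ev m (∏ b ∈ T, (b : ZMod m)) -
        (0 + (∑ b ∈ T, ev m (b : ZMod m) - ev m (∏ b ∈ T, (b : ZMod m)))) =
        ev m (v : ZMod m) - ∑ b ∈ T, ev m (b : ZMod m)
      abel
  rw [h5] at h4
  exact h4

/-- the value at `(n^2+tn+c) / A` -/
theorem val_quot (hF : Fd (t : ℤ) (c : ℤ) f χ) {G : Type} [AddCommGroup G] {m : ℕ}
    {E : ℤ → ℤ → G} {τ : G} {H : ℕ → G} (h : Gv t c m E τ H) {A n N : ℕ} (hA : 1 ≤ A)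
    (hN : A * N = n ^ 2 + t * n + c) (hcop : N.Coprime m) :
    ∃ x y : ℤ, x ^ 2 + t * x * y + c * y ^ 2 = N ∧ H N - E x y ∈ Df t c m E := by
  have hD := hDG hF
  have hnz := nm_n hD n
  obtain ⟨x, y, hxy, hx⟩ := split_prim hF A (⟨(n : ℤ), 1⟩ : Qd (t : ℤ) (c : ℤ)) (prim_n _)
    (by rw [hnz, ← hN]; exact Dvd.intro _ rfl)
  have hny : nm y = N := by
    have h1 : A * nm y = A * N := by rw [hN, ← hnz, hxy, nm_mul, hx]
    exact Nat.eq_of_mul_eq_mul_left (by omega) h1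
  have hpy : prim y := prim_of_dvd (prim_n (t := t) (c := c) n) ⟨x, by rw [hxy, mul_comm]⟩
  refine ⟨y.re, y.im, ?_, val_prim hF h N y hpy hny hcop⟩
  rw [← nm_cast hD, hny]

/-- admissible patterns are in the right coset -/
theorem al_quot (hF : Fd (t : ℤ) (c : ℤ) f χ) {m k : ℕ} (hm : 1 ≤ m) {A B C β : ℕ} (hA : 1 ≤ A)
    (hβ : B = 2 * β + t) (hD : B ^ 2 + 4 * c = t ^ 2 + 4 * A * C) {q a J : ℕ} (hmq : m ∣ q)
    (ha : (A * a ^ 2 + B * a + C).Coprime m) (T : Finset (ZMod m)ˣ)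
    (h : Admn t c m k (A * a ^ 2 + B * a + C) J T) :
    Al t c m (A * q) (A * a + β) (Ek t c m k) (Hk m k)
      (Hk m k A + (((J : ZMod k), ∑ b ∈ T, ev m (b : ZMod m)) : Ak m k)) := by
  intro n hn
  have hc := c_pos hF
  have hg := gvk t c m k hm
  -- `A ∣ F(n)` and `F(n)/A ≡ f(a) mod m`
  have h1 : n ^ 2 + t * n + c ≡ A * (A * a ^ 2 + B * a + C) [MOD A * m] := by
    rw [← quad_id hβ hD a]
    have h2 : n ≡ A * a + β [MOD A * m] := hn.of_dvd (Nat.mul_dvd_mul_left A hmq)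
    exact ((h2.pow 2).add (h2.mul_left t)).add_right c
  have h2 : A ∣ n ^ 2 + t * n + c := by
    have h3 : n ^ 2 + t * n + c ≡ A * (A * a ^ 2 + B * a + C) [MOD A] :=
      h1.of_dvd (Dvd.intro _ rfl)
    have h4 : A * (A * a ^ 2 + B * a + C) ≡ 0 [MOD A] :=
      (Nat.modEq_zero_iff_dvd).2 (Dvd.intro _ rfl)
    exact (Nat.modEq_zero_iff_dvd).1 (h3.trans h4)
  obtain ⟨N, hN⟩ := h2
  have hNp : 0 < N := by
    rcases Nat.eq_zero_or_pos N with h3 | h3
    · rw [h3, mul_zero] at hN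
      omega
    · exact h3
  have h3 : N ≡ A * a ^ 2 + B * a + C [MOD m] := by
    rw [hN] at h1
    exact Nat.ModEq.mul_left_cancel' (by omega) h1
  have hcop : N.Coprime m := by
    unfold Nat.Coprime at ha ⊢
    rw [h3.gcd_eq]
    exact ha
  obtain ⟨x, y, hxy, h4⟩ := val_quot hF hg hA hN.symm hcop
  have hE : Ek t c m k x y = (1, ev m ((A * a ^ 2 + B * a + C : ℕ) : ZMod m)) := by
    unfold Ek
    rw [hxy]
    have h5 : ((N : ℤ) : ZMod m) = ((A * a ^ 2 + B * a + C : ℕ) : ZMod m) := by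
      rw [Int.cast_natCast]
      exact (ZMod.natCast_eq_natCast_iff _ _ _).2 h3
    rw [h5]
  have hNv : isN t c m ((A * a ^ 2 + B * a + C : ℕ) : ZMod m) := by
    refine ⟨x, y, ?_, ?_⟩
    · rw [hxy]
      exact Nat.isCoprime_iff_coprime.2 hcop
    · rw [hxy, Int.cast_natCast]
      exact (ZMod.natCast_eq_natCast_iff _ _ _).2 h3
  have h5 := coset_k (k := k) hNv T h
  rw [hE] at h4
  have h6 := add_mem h4 h5
  rw [hN, hg.add A N (by omega) hNp.ne']
  have h7 : Hk m k N - (1, ev m ((A * a ^ 2 + B * a + C : ℕ) : ZMod m)) +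
      (((1, ev m ((A * a ^ 2 + B * a + C : ℕ) : ZMod m)) : Ak m k) -
        ((J : ZMod k), ∑ b ∈ T, ev m (b : ZMod m))) =
      Hk m k A + Hk m k N - (Hk m k A + ((J : ZMod k), ∑ b ∈ T, ev m (b : ZMod m))) := by abel
  rwa [h7] at h6

end

end Pool.Agent.V11296.CQ
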