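import Pool.Agent.V11296.CQ1

/-!
Patterns of the values of quadratic polynomials `A n^2 + B n + C` (helper296), part 2: counting.
-/

set_option autoImplicit false

namespace Pool.Agent.V11296.CQ

open Finset Filter
open Pool.Agent.W78.GA (Qd nm nm_cast nm_mul nm_pos mul_star_self' prim prim_iff prim_of_dvd
  prim_star prim_ne_zero)
open Pool.Agent.W78.EG
open Pool.Agent.W251.EG
open Pool.Agent.V11296.CV
open Pool.Agent.V11296.CR

section

variable {t c : ℕ} {f : ℕ} {χ : DirichletCharacter ℂ f}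

/-- comparison of the numbers -/
theorem cv_le_cq {G : Type} [AddCommGroup G] {H : ℕ → G} {A B C β : ℕ} (hA : 1 ≤ A)
    (hβ : B = 2 * β + t)
    (hD : B ^ 2 + 4 * c = t ^ 2 + 4 * A * C) (hC : 1 ≤ c)
    (hadd : ∀ x y : ℕ, x ≠ 0 → y ≠ 0 → H (x * y) = H x + H y) (q Q n₀ : ℕ)
    (hQ : A * q ∣ Q) (hQn : A * n₀ + β < Q) (g : G) (X : ℕ) :
    cv t c Q (A * n₀ + β) H (H A + g) X ≤ cr A B C q n₀ H g X := by
  classical
  have hpos : ∀ n : ℕ, A * n ^ 2 + B * n + C ≠ 0 := by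
    intro n h0
    have h1 := quad_id hβ hD n
    rw [h0, mul_zero] at h1
    omega
  have key : ∀ n : ℕ, n ≡ A * n₀ + β [MOD Q] → ∃ k : ℕ, n = A * k + β ∧ k ≡ n₀ [MOD q] := by
    intro n hn
    have h1 : n % Q = A * n₀ + β := by
      have h2 : n % Q = (A * n₀ + β) % Q := hn
      rw [h2, Nat.mod_eq_of_lt hQn]
    obtain ⟨R, hR⟩ := hQ
    refine ⟨n₀ + q * (R * (n / Q)), ?_, ?_⟩
    · have h2 := Nat.mod_add_div n Q
      rw [h1] at h2
      have h3 : Q * (n / Q) = A * (q * (R * (n / Q))) := by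
        nth_rewrite 1 [hR]
        ring
      calc n = A * n₀ + β + Q * (n / Q) := h2.symm
        _ = A * n₀ + β + A * (q * (R * (n / Q))) := by rw [h3]
        _ = A * (n₀ + q * (R * (n / Q))) + β := by ring
    · show (n₀ + q * (R * (n / Q))) % q = n₀ % q
      rw [Nat.add_mul_mod_self_left]
  unfold cv cr
  refine card_le_card_of_injOn (fun n => (n - β) / A) ?_ ?_
  · intro n hn
    rw [Finset.mem_coe, mem_filter, mem_range] at hn
    obtain ⟨h1, _, h3, h4, h5⟩ := hn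
    obtain ⟨k, hk, hkq⟩ := key n h3
    have hk2 : (n - β) / A = k := by
      rw [hk, Nat.add_sub_cancel, Nat.mul_div_cancel_left _ (by omega)]
    rw [Finset.mem_coe]
    show (n - β) / A ∈ _
    rw [hk2, mem_filter, mem_range]
    have hid := quad_id hβ hD k
    rw [hk, hid] at h4 h5
    rw [hadd A _ (by omega) (hpos k)] at h5
    refine ⟨?_, hkq, Squarefree.squarefree_of_dvd (Dvd.intro_left _ rfl) h4, ?_⟩
    · have : k ≤ A * k := Nat.le_mul_of_pos_left k (by omega)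
      omega
    · exact add_left_cancel h5
  · intro n hn n' hn' hnn
    rw [Finset.mem_coe, mem_filter] at hn hn'
    obtain ⟨k, hk, _⟩ := key n hn.2.2.1
    obtain ⟨k', hk', _⟩ := key n' hn'.2.2.1
    have hk2 : (n - β) / A = k := by
      rw [hk, Nat.add_sub_cancel, Nat.mul_div_cancel_left _ (by omega)]
    have hk2' : (n' - β) / A = k' := by
      rw [hk', Nat.add_sub_cancel, Nat.mul_div_cancel_left _ (by omega)]
    have h1 : (n - β) / A = (n' - β) / A := hnn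
    rw [hk2, hk2'] at h1
    rw [hk, hk', h1]

/-- sufficiency -/
theorem suf_q (hF : Fd (t : ℤ) (c : ℤ) f χ) (hS : S_SPSc (t : ℤ) (c : ℤ)) {m k : ℕ}
    [NeZero m] [NeZero k] (A B C : ℕ) (hA : 1 ≤ A) (hD : B ^ 2 + 4 * c = t ^ 2 + 4 * A * C)
    (q a J : ℕ) (hq : 1 ≤ q) (hmq : m ∣ q) (hAs : Squarefree A)
    (hAc : (A * a ^ 2 + B * a + C).Coprime A)
    (ha : (A * a ^ 2 + B * a + C).Coprime m)
    (hqa : ∀ l : ℕ, l.Prime → l ^ 2 ∣ q → ¬ l ^ 2 ∣ A * a ^ 2 + B * a + C)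
    (T : Finset (ZMod m)ˣ) (h : Admn t c m k (A * a ^ 2 + B * a + C) J T) :
    (∀ ε : ℝ, 0 < ε → open scoped Classical in
      Tendsto (fun Z : ℕ => (∑ X ∈ (Icc 1 Z).filter (fun X : ℕ =>
      (cr A B C q a (Hk m k) (((J : ZMod k), ∑ b ∈ T, ev m (b : ZMod m)) : Ak m k) X : ℝ) <
        (X : ℝ) / Real.log X ^ (Real.log 2 + ε)), 1 / (X : ℝ)) /
      Real.log Z) atTop (nhds 0)) ∧
    ∀ δ : ℝ, 0 < δ → ∃ N₀ : ℕ, ∀ N : ℕ, N₀ ≤ N →
      (N : ℝ) ^ (1 - δ) ≤
        cr A B C q a (Hk m k) (((J : ZMod k), ∑ b ∈ T, ev m (b : ZMod m)) : Ak m k) N := by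
  have ht := t_le hF
  have hc := c_pos hF
  have hm1 : 1 ≤ m := Nat.one_le_iff_ne_zero.2 (NeZero.ne m)
  obtain ⟨β, hβ⟩ := exists_beta ht hD
  have hid := quad_id hβ hD a
  obtain ⟨ℓ, hℓ, hℓp⟩ := Nat.exists_infinite_primes (A * q + (A * a + β) + 1)
  have hQ1 : 1 ≤ A * q * ℓ := by
    have := hℓp.pos
    have h0 : 0 < A * q * ℓ := by positivity
    exact h0
  have hQn : A * a + β < A * q * ℓ := by
    have h1 : ℓ ≤ A * q * ℓ := Nat.le_mul_of_pos_left _ (by positivity)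
    omega
  have hal0 := al_quot (k := k) hF hm1 hA hβ hD hmq ha T h
  have hal : Al t c m (A * q * ℓ) (A * a + β) (Ek t c m k) (Hk m k)
      (Hk m k A + (((J : ZMod k), ∑ b ∈ T, ev m (b : ZMod m)) : Ak m k)) :=
    fun n hn => hal0 n (hn.of_dvd (Dvd.intro _ rfl))
  have hqa' : ∀ l : ℕ, l.Prime → l ^ 2 ∣ A * q * ℓ →
      ¬ l ^ 2 ∣ (A * a + β) ^ 2 + t * (A * a + β) + c := by
    intro l hl hld hd
    rw [hid] at hd
    have h1 : l ^ 2 ∣ A * q := by
      by_cases hll : l = ℓ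
      · exfalso
        rw [hll, pow_two] at hld
        have h2 : ℓ ∣ A * q := Nat.dvd_of_mul_dvd_mul_right hℓp.pos hld
        have h3 := Nat.le_of_dvd (by positivity) h2
        omega
      · have h2 : Nat.Coprime (l ^ 2) ℓ := by
          rw [Nat.coprime_pow_left_iff (by norm_num)]
          exact (Nat.coprime_primes hl hℓp).2 hll
        exact h2.dvd_of_dvd_mul_right hld
    by_cases hlA : l ∣ A
    · have h2 : ¬ l ∣ A * a ^ 2 + B * a + C := by
        intro h3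
        have h4 : l ∣ Nat.gcd (A * a ^ 2 + B * a + C) A := Nat.dvd_gcd h3 hlA
        rw [Nat.Coprime] at hAc
        rw [hAc] at h4
        exact hl.one_lt.ne' (Nat.dvd_one.1 h4)
      have h3 : Nat.Coprime (l ^ 2) (A * a ^ 2 + B * a + C) := by
        rw [Nat.coprime_pow_left_iff (by norm_num)]
        exact (Nat.Prime.coprime_iff_not_dvd hl).2 h2
      have h4 : l ^ 2 ∣ A := h3.dvd_of_dvd_mul_right hd
      rw [pow_two] at h4
      exact hl.not_isUnit (hAs l h4)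
    · have h2 : Nat.Coprime (l ^ 2) A := by
        rw [Nat.coprime_pow_left_iff (by norm_num)]
        exact (Nat.Prime.coprime_iff_not_dvd hl).2 hlA
      exact hqa l hl (h2.dvd_of_dvd_mul_left h1) (h2.dvd_of_dvd_mul_left hd)
  have hg := gvk t c m k hm1
  have hle := cv_le_cq (H := Hk m k) hA hβ hD hc hg.add q (A * q * ℓ) a (Dvd.intro _ rfl) hQn
    (((J : ZMod k), ∑ b ∈ T, ev m (b : ZMod m)) : Ak m k)
  refine ⟨fun ε hε => ?_, fun δ hδ => ?_⟩
  · refine null_of 0 (fun X _ hX => ?_)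
      (outCv hF hS hg _ (A * q * ℓ) (A * a + β) hQ1 hal hqa' ε hε)
    have h1 : (cv t c (A * q * ℓ) (A * a + β) (Hk m k)
        (Hk m k A + (((J : ZMod k), ∑ b ∈ T, ev m (b : ZMod m)) : Ak m k)) X : ℝ) ≤
        cr A B C q a (Hk m k) (((J : ZMod k), ∑ b ∈ T, ev m (b : ZMod m)) : Ak m k) X := by
      exact_mod_cast hle X
    exact lt_of_le_of_lt h1 hX
  · obtain ⟨N₁, hN₁⟩ := outCvAll hF hS hg _ (A * q * ℓ) (A * a + β) hQ1 hal hqa' δ hδ
    refine ⟨N₁, fun N hN => (hN₁ N hN).trans ?_⟩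
    exact_mod_cast hle N

/-- necessity -/
theorem nec_q (hF : Fd (t : ℤ) (c : ℤ) f χ) {m k : ℕ} [NeZero m] (A B C : ℕ)
    (hD : B ^ 2 + 4 * c = t ^ 2 + 4 * A * C) (q a J n : ℕ) (hmq : m ∣ q)
    (ha : (A * a ^ 2 + B * a + C).Coprime m) (T : Finset (ZMod m)ˣ) (hn : n ≡ a [MOD q])
    (hJ : (A * n ^ 2 + B * n + C).primeFactorsList.length ≡ J [MOD k])
    (hT : oddc m (A * n ^ 2 + B * n + C) = T) : Admn t c m k (A * a ^ 2 + B * a + C) J T := by
  have ht := t_le hF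
  have hc := c_pos hF
  have hDG := hDG hF
  obtain ⟨β, hβ⟩ := exists_beta ht hD
  have hid := quad_id hβ hD n
  have hpos : 0 < A * n ^ 2 + B * n + C := by
    rcases Nat.eq_zero_or_pos (A * n ^ 2 + B * n + C) with h1 | h1
    · rw [h1, mul_zero] at hid
      omega
    · exact h1
  have hmod : A * n ^ 2 + B * n + C ≡ A * a ^ 2 + B * a + C [MOD m] := by
    have h1 : n ≡ a [MOD m] := hn.of_dvd hmq
    exact (((h1.pow 2).mul_left A).add (h1.mul_left B)).add_right C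
  have hcop : (A * n ^ 2 + B * n + C).Coprime m := by
    unfold Nat.Coprime at ha ⊢
    rw [hmod.gcd_eq]
    exact ha
  refine nec_gen hF hpos hcop hmod (fun p hp hpd => ?_) T hJ hT
  have h1 : p ∣ nm (⟨((A * n + β : ℕ) : ℤ), 1⟩ : Qd (t : ℤ) (c : ℤ)) := by
    rw [nm_n hDG, hid]
    exact hpd.trans (Dvd.intro_left _ rfl)
  obtain ⟨π, w, _, h2⟩ := prime_above hF (prim_n _) hp h1
  exact ⟨π, h2⟩

end

end Pool.Agent.V11296.CQ
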