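import Pool.Agent.V11296.CV3

/-!
Recurring values (helper296): quadratic polynomials `A m^2 + B m + C` of class number one
discriminants, values of additive functions at squarefree values recur.
-/

set_option autoImplicit false

namespace Pool.Agent.V11296.CR

open Finset Filter
open Pool.Agent.W78.GA (Qd nm nm_cast nm_mul nm_pos mul_star_self' prim prim_iff prim_of_dvd
  prim_star prim_ne_zero)
open Pool.Agent.W78.EG
open Pool.Agent.W251.EG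
open Pool.Agent.V11296.CV

section

variable {t c : ℕ} {f : ℕ} {χ : DirichletCharacter ℂ f}

/-- factorisations of a primitive element -/
theorem split_prim (hF : Fd (t : ℤ) (c : ℤ) f χ) (d : ℕ) :
    ∀ z : Qd (t : ℤ) (c : ℤ), prim z → d ∣ nm z → ∃ x y : Qd (t : ℤ) (c : ℤ), z = x * y ∧
      nm x = d := by
  have hD := hDG hF
  induction d using Nat.strong_induction_on with
  | _ d ih =>
    intro z hz hd
    have hz0 : 0 < nm z := nm_pos hD (prim_ne_zero hz)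
    have hd0 : 0 < d := Nat.pos_of_dvd_of_pos hd hz0
    rcases eq_or_ne d 1 with h1 | h1
    · refine ⟨1, z, (one_mul z).symm, ?_⟩
      rw [h1]
      have h2 := nm_mul (1 : Qd (t : ℤ) (c : ℤ)) 1
      rw [mul_one] at h2
      have h3 : 0 < nm (1 : Qd (t : ℤ) (c : ℤ)) := nm_pos hD one_ne_zero
      exact Nat.eq_of_mul_eq_mul_left h3 (by rw [← h2, mul_one])
    · obtain ⟨p, hp, e, he⟩ := Nat.exists_prime_and_dvd h1
      obtain ⟨π, w, hzw, hπ⟩ := prime_above hF hz hp ((Dvd.intro _ he.symm).trans hd)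
      have hw : prim w := prim_of_dvd hz ⟨π, by rw [hzw, mul_comm]⟩
      have he0 : 0 < e := by
        rcases Nat.eq_zero_or_pos e with h2 | h2
        · rw [h2, mul_zero] at he
          omega
        · exact h2
      have hlt : e < d := by
        rw [he]
        have := hp.two_le
        nlinarith
      have hew : e ∣ nm w := by
        have h2 : p * e ∣ p * nm w := by
          rw [← he, ← hπ, ← nm_mul, ← hzw]
          exact hd
        exact Nat.dvd_of_mul_dvd_mul_left hp.pos h2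
      obtain ⟨x, y, hxy, hx⟩ := ih e hlt w hw hew
      exact ⟨π * x, y, by rw [hzw, hxy, mul_assoc], by rw [nm_mul, hπ, hx, he]⟩

theorem prim_n (n : ℤ) : prim (⟨n, 1⟩ : Qd (t : ℤ) (c : ℤ)) := by
  unfold prim
  simp

theorem nm_n (hD : (t : ℤ) ^ 2 < 4 * (c : ℤ)) (n : ℕ) :
    nm (⟨(n : ℤ), 1⟩ : Qd (t : ℤ) (c : ℤ)) = n ^ 2 + t * n + c := by
  have h2 : ((nm (⟨(n : ℤ), 1⟩ : Qd (t : ℤ) (c : ℤ)) : ℕ) : ℤ) = ((n ^ 2 + t * n + c : ℕ) : ℤ) := by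
    rw [nm_cast hD]
    push_cast
    ring
  exact_mod_cast h2

variable {A : Type} [AddCommGroup A] {m : ℕ} {E : ℤ → ℤ → A} {τ : A} {H : ℕ → A}

/-- values in the residue class of a squarefree value -/
theorem al_rec (hF : Fd (t : ℤ) (c : ℤ) f χ) (h : Gv t c m E τ H) (n₀ Q : ℕ)
    (hsf : Squarefree (n₀ ^ 2 + t * n₀ + c)) (hQ : m * (n₀ ^ 2 + t * n₀ + c) ∣ Q)
    (hQn : n₀ < Q) : Al t c m Q n₀ E H (H (n₀ ^ 2 + t * n₀ + c)) := by
  intro n hn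
  have hD := hDG hF
  have hc := c_pos hF
  obtain ⟨N₀, hN₀⟩ : ∃ N₀ : ℕ, N₀ = n₀ ^ 2 + t * n₀ + c := ⟨_, rfl⟩
  rw [← hN₀] at hsf hQ ⊢
  have hN₀p : 0 < N₀ := by
    rw [hN₀]
    exact fpos hc n₀
  -- `n = n₀ + Q j`
  obtain ⟨j, hj⟩ : ∃ j : ℕ, n = n₀ + Q * j := by
    have h1 : n % Q = n₀ := by
      have h2 : n % Q = n₀ % Q := hn
      rw [h2, Nat.mod_eq_of_lt hQn]
    refine ⟨n / Q, ?_⟩
    have h2 := Nat.mod_add_div n Q
    rw [h1] at h2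
    exact h2.symm
  obtain ⟨g, hg⟩ : ∃ g : ℕ, g = Nat.gcd N₀ m := ⟨_, rfl⟩
  have hgN : g ∣ N₀ := hg ▸ Nat.gcd_dvd_left _ _
  obtain ⟨N₁, hN₁⟩ := hgN
  have hg0 : 0 < g := Nat.pos_of_dvd_of_pos ⟨N₁, hN₁⟩ hN₀p
  have hN₁p : 0 < N₁ := by
    rcases Nat.eq_zero_or_pos N₁ with h1 | h1
    · rw [h1, mul_zero] at hN₁
      omega
    · exact h1
  -- `N₁` is prime to `m`
  have hcop : N₁.Coprime m := by
    rw [Nat.coprime_iff_gcd_eq_one]
    by_contra hne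
    obtain ⟨p, hp, hpd⟩ := Nat.exists_prime_and_dvd hne
    have hp1 : p ∣ N₁ := hpd.trans (Nat.gcd_dvd_left _ _)
    have hp2 : p ∣ m := hpd.trans (Nat.gcd_dvd_right _ _)
    have hp3 : p ∣ g := by
      rw [hg]
      exact Nat.dvd_gcd (hp1.trans ⟨g, by rw [hN₁]; ring⟩) hp2
    have hp4 : p * p ∣ N₀ := by
      rw [hN₁]
      exact Nat.mul_dvd_mul hp3 hp1
    exact hp.not_isUnit (hsf p hp4)
  obtain ⟨z₀, hz₀⟩ : ∃ z₀ : Qd (t : ℤ) (c : ℤ), z₀ = ⟨(n₀ : ℤ), 1⟩ := ⟨_, rfl⟩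
  have hnz₀ : nm z₀ = N₀ := by rw [hz₀, nm_n hD, hN₀]
  have hpz₀ : prim z₀ := by
    rw [hz₀]
    exact prim_n _
  obtain ⟨x, y₀, hxy, hx⟩ := split_prim hF g z₀ hpz₀ (by rw [hnz₀, hN₁]; exact Dvd.intro _ rfl)
  have hny₀ : nm y₀ = N₁ := by
    have h1 : g * nm y₀ = g * N₁ := by rw [← hN₁, ← hnz₀, hxy, nm_mul, hx]
    exact Nat.eq_of_mul_eq_mul_left hg0 h1
  obtain ⟨Q₁, hQ₁⟩ := hQ
  -- the factor of `n + ω`
  obtain ⟨y, hy⟩ : ∃ y : Qd (t : ℤ) (c : ℤ),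
    y = y₀ + star x * ((m * (N₁ * Q₁ * j) : ℕ) : Qd (t : ℤ) (c : ℤ)) := ⟨_, rfl⟩
  have hz : (⟨(n : ℤ), 1⟩ : Qd (t : ℤ) (c : ℤ)) = x * y := by
    have h1 : (⟨(n : ℤ), 1⟩ : Qd (t : ℤ) (c : ℤ)) = z₀ + ((Q * j : ℕ) : Qd (t : ℤ) (c : ℤ)) := by
      rw [hz₀, hj]
      refine QuadraticAlgebra.ext ?_ ?_
      · simp
      · simp
    have h2 : ((Q * j : ℕ) : Qd (t : ℤ) (c : ℤ)) =
        x * (star x * ((m * (N₁ * Q₁ * j) : ℕ) : Qd (t : ℤ) (c : ℤ))) := by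
      rw [← mul_assoc, mul_star_self' hD, hx, hQ₁, hN₁]
      push_cast
      ring
    rw [h1, h2, hxy, hy, mul_add]
  have hpy : prim y := prim_of_dvd (prim_n (t := t) (c := c) n) ⟨x, by rw [hz, mul_comm]⟩
  have hpy₀ : prim y₀ := prim_of_dvd hpz₀ ⟨x, by rw [hxy, mul_comm]⟩
  -- norms
  have hny : g * nm y = n ^ 2 + t * n + c := by
    rw [← nm_n hD n, hz, nm_mul, hx]
  have hyy₀ : nm y ≡ N₁ [MOD m] := by
    have h1 : g * nm y ≡ g * N₁ [MOD g * m] := by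
      rw [hny, ← hN₁, hN₀]
      have h2 : n ≡ n₀ [MOD g * m] := by
        have h3 : g * m ∣ Q := by
          rw [hQ₁, hN₁]
          exact ⟨N₁ * Q₁, by ring⟩
        exact hn.of_dvd h3
      exact ((h2.pow 2).add (h2.mul_left t)).add_right c
    exact Nat.ModEq.mul_left_cancel' hg0.ne' h1
  have hcy : (nm y).Coprime m := by
    unfold Nat.Coprime at hcop ⊢
    rw [hyy₀.gcd_eq]
    exact hcop
  have h1 := val_prim hF h (nm y) y hpy rfl hcy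
  have h2 := val_prim hF h N₁ y₀ hpy₀ hny₀ hcop
  -- `E y = E y₀`
  have hE : Ez E y = Ez E y₀ := by
    unfold Ez
    have h3 : (star x * ((m * (N₁ * Q₁ * j) : ℕ) : Qd (t : ℤ) (c : ℤ))) =
        ((m : ℕ) : Qd (t : ℤ) (c : ℤ)) * (star x * ((N₁ * Q₁ * j : ℕ) : Qd (t : ℤ) (c : ℤ))) := by
      push_cast
      ring
    obtain ⟨w, hw⟩ : ∃ w : Qd (t : ℤ) (c : ℤ),
      w = star x * ((N₁ * Q₁ * j : ℕ) : Qd (t : ℤ) (c : ℤ)) := ⟨_, rfl⟩
    rw [← hw] at h3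
    rw [h3] at hy
    have hre : y.re = y₀.re + m * w.re := by
      rw [hy]
      simp
    have him : y.im = y₀.im + m * w.im := by
      rw [hy]
      simp
    refine h.per _ _ _ _ ?_ ?_
    · rw [hre]
      exact (Int.modEq_iff_dvd.2 ⟨-w.re, by ring⟩)
    · rw [him]
      exact (Int.modEq_iff_dvd.2 ⟨-w.im, by ring⟩)
  have hy0 : nm y ≠ 0 := (nm_pos hD (prim_ne_zero hpy)).ne'
  rw [← hny, h.add g (nm y) hg0.ne' hy0, hN₁, h.add g N₁ hg0.ne' hN₁p.ne']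
  have h3 := sub_mem h1 h2
  rw [hE] at h3
  have h4 : H (nm y) - Ez E y₀ - (H N₁ - Ez E y₀) = H g + H (nm y) - (H g + H N₁) := by abel
  rwa [h4] at h3

end

end Pool.Agent.V11296.CR
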