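import Pool.Agent.TH890.DV.C3

/-!
Class vectors (helper296), part 1: completely additive functions with values in a finite abelian
group `A` whose values at the primes are determined by residue classes.
-/

set_option autoImplicit false

namespace Pool.Agent.V11296.CV

open Finset Filter
open Pool.Agent.W78.GA (Qd nm nm_cast nm_mul nm_pos mul_star_self' prim prim_iff prim_of_dvd
  prim_star prim_ne_zero)
open Pool.Agent.W78.EG
open Pool.Agent.W251.EG
open Pool.Agent.W251.EX (Sqp tt sum_null)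
open Pool.Agent.W738.EG (red red_eq PerM)

variable {A : Type} [AddCommGroup A]

/-- completely additive functions whose values at the primes are determined by residue classes -/
structure Gv (t c m : ℕ) (E : ℤ → ℤ → A) (τ : A) (H : ℕ → A) : Prop where
  pos : 1 ≤ m
  add : ∀ x y : ℕ, x ≠ 0 → y ≠ 0 → H (x * y) = H x + H y
  two : ∀ p : ℕ, p.Prime → H p + H p = τ
  per : ∀ x y u v : ℤ, x ≡ u [ZMOD m] → y ≡ v [ZMOD m] → E x y = E u v
  val : ∀ (x y : ℤ) (p : ℕ), p.Prime → ¬ p ∣ m → x ^ 2 + t * x * y + c * y ^ 2 = p → H p = E x y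

/-- the group generated by the defects of additivity of `E` -/
def Df (t c m : ℕ) (E : ℤ → ℤ → A) : AddSubgroup A :=
  AddSubgroup.closure {g | ∃ x y u v : ℤ,
    IsCoprime (x ^ 2 + t * x * y + c * y ^ 2) (m : ℤ) ∧
    IsCoprime (u ^ 2 + t * u * v + c * v ^ 2) (m : ℤ) ∧
    g = E x y + E u v - E (x * u - c * y * v) (x * v + y * u + t * y * v)}

section

variable {t c : ℕ} {f : ℕ} {χ : DirichletCharacter ℂ f}

theorem Gv.one {m : ℕ} {E : ℤ → ℤ → A} {τ : A} {H : ℕ → A} (h : Gv t c m E τ H) : H 1 = 0 := by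
  have h1 := h.add 1 1 one_ne_zero one_ne_zero
  rw [mul_one] at h1
  simpa using h1

theorem copr (hD : (t : ℤ) ^ 2 < 4 * (c : ℤ)) {m : ℕ} (z : Qd (t : ℤ) (c : ℤ))
    (hz : IsCoprime (z.re ^ 2 + t * z.re * z.im + c * z.im ^ 2) (m : ℤ)) :
    IsCoprime z (m : Qd (t : ℤ) (c : ℤ)) := by
  have h1 := hz.map (Int.castRingHom (Qd (t : ℤ) (c : ℤ)))
  have h2 := nm_cast hD z
  rw [← h2] at h1
  have h3 : IsCoprime ((nm z : ℕ) : Qd (t : ℤ) (c : ℤ)) ((m : ℕ) : Qd (t : ℤ) (c : ℤ)) := by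
    simpa using h1
  rw [← mul_star_self' hD] at h3
  exact h3.of_mul_left_left

/-- prime elements above the primes dividing the norm of a primitive element -/
theorem prime_above (hF : Fd (t : ℤ) (c : ℤ) f χ) {z : Qd (t : ℤ) (c : ℤ)} (hz : prim z) {p : ℕ}
    (hp : p.Prime) (hd : p ∣ nm z) : ∃ π w : Qd (t : ℤ) (c : ℤ), z = π * w ∧ nm π = p := by
  have hD := hDG hF
  haveI : IsPrincipalIdealRing (Qd (t : ℤ) (c : ℤ)) := Pool.Agent.W290.EG.pid hF
  obtain ⟨π, hπ⟩ := (IsPrincipalIdealRing.principal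
    (Ideal.span {((p : ℕ) : Qd (t : ℤ) (c : ℤ)), z})).principal
  have h1 : π ∣ ((p : ℕ) : Qd (t : ℤ) (c : ℤ)) := by
    rw [← Ideal.mem_span_singleton]
    have : ((p : ℕ) : Qd (t : ℤ) (c : ℤ)) ∈
        Ideal.span {((p : ℕ) : Qd (t : ℤ) (c : ℤ)), z} := Ideal.subset_span (by simp)
    rw [hπ] at this
    exact this
  have h2 : π ∣ z := by
    rw [← Ideal.mem_span_singleton]
    have : z ∈ Ideal.span {((p : ℕ) : Qd (t : ℤ) (c : ℤ)), z} := Ideal.subset_span (by simp)
    rw [hπ] at this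
    exact this
  have h3 : π ∈ Ideal.span {((p : ℕ) : Qd (t : ℤ) (c : ℤ)), z} := by
    rw [hπ]
    exact Ideal.mem_span_singleton_self π
  obtain ⟨a, b, hab⟩ := Ideal.mem_span_pair.1 h3
  have hnp : nm ((p : ℕ) : Qd (t : ℤ) (c : ℤ)) = p ^ 2 := by
    have h4 := nm_cast hD ((p : ℕ) : Qd (t : ℤ) (c : ℤ))
    have h5 : (((p : ℕ) : Qd (t : ℤ) (c : ℤ))).re = p := by simp
    have h6 : (((p : ℕ) : Qd (t : ℤ) (c : ℤ))).im = 0 := by simp
    rw [h5, h6] at h4
    have h7 : ((nm ((p : ℕ) : Qd (t : ℤ) (c : ℤ)) : ℕ) : ℤ) = ((p ^ 2 : ℕ) : ℤ) := by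
      rw [h4]
      push_cast
      ring
    exact_mod_cast h7
  obtain ⟨w, hw⟩ := h2
  refine ⟨π, w, hw, ?_⟩
  obtain ⟨u, hu⟩ := h1
  have h4 : nm π ∣ p ^ 2 := by
    rw [← hnp, hu, nm_mul]
    exact Dvd.intro _ rfl
  obtain ⟨k, hk, hk2⟩ := (Nat.dvd_prime_pow hp).1 h4
  have hps : ¬ ((p : ℕ) : Qd (t : ℤ) (c : ℤ)) ∣ z := prim_iff.1 hz p hp
  have hps' : ¬ ((p : ℕ) : Qd (t : ℤ) (c : ℤ)) ∣ star z := prim_iff.1 (prim_star.2 hz) p hp
  interval_cases k
  · -- `π` is a unit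
    exfalso
    rw [pow_zero] at hk2
    have h5 : π * star π = 1 := by
      rw [mul_star_self' hD, hk2]
      simp
    apply hps'
    obtain ⟨s, hs⟩ := hd
    have h6 : star z = (a * star z * star π + b * s * star π) * ((p : ℕ) : Qd (t : ℤ) (c : ℤ)) := by
      have h7 : z * star z = ((p : ℕ) : Qd (t : ℤ) (c : ℤ)) * ((s : ℕ) : Qd (t : ℤ) (c : ℤ)) := by
        rw [mul_star_self' hD, hs]
        push_cast
        rfl
      calc star z = star z * (π * star π) := by rw [h5, mul_one]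
        _ = star z * ((a * ((p : ℕ) : Qd (t : ℤ) (c : ℤ)) + b * z) * star π) := by rw [hab]
        _ = a * star z * star π * ((p : ℕ) : Qd (t : ℤ) (c : ℤ)) + b * star π * (z * star z) := by
          ring
        _ = _ := by rw [h7]; ring
    exact ⟨_, h6.trans (mul_comm _ _)⟩
  · rw [hk2, pow_one]
  · exfalso
    have h5 : nm u = 1 := by
      have h6 := hnp
      rw [hu, nm_mul, hk2] at h6
      have : 0 < p ^ 2 := by have := hp.pos; positivity
      exact Nat.eq_of_mul_eq_mul_left this (by rw [h6, mul_one])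
    have h6 : u * star u = 1 := by
      rw [mul_star_self' hD, h5]
      simp
    apply hps
    refine ⟨star u * w, ?_⟩
    rw [hu, hw]
    calc π * w = π * (u * star u) * w := by rw [h6, mul_one]
      _ = π * u * (star u * w) := by ring

/-- the value of `E` at an element -/
def Ez (E : ℤ → ℤ → A) (z : Qd (t : ℤ) (c : ℤ)) : A := E z.re z.im

theorem Ez_mul (hD : (t : ℤ) ^ 2 < 4 * (c : ℤ)) {m : ℕ} {E : ℤ → ℤ → A}
    (z w : Qd (t : ℤ) (c : ℤ)) (hz : (nm z).Coprime m) (hw : (nm w).Coprime m) :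
    Ez E z + Ez E w - Ez E (z * w) ∈ Df t c m E := by
  refine AddSubgroup.subset_closure ⟨z.re, z.im, w.re, w.im, ?_, ?_, ?_⟩
  · rw [← nm_cast hD z]
    exact Nat.isCoprime_iff_coprime.2 hz
  · rw [← nm_cast hD w]
    exact Nat.isCoprime_iff_coprime.2 hw
  · have h5 : (z * w).re = z.re * w.re - c * z.im * w.im := by
      rw [QuadraticAlgebra.re_mul]
      ring
    have h6 : (z * w).im = z.re * w.im + z.im * w.re + t * z.im * w.im := by
      rw [QuadraticAlgebra.im_mul]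
    unfold Ez
    rw [h5, h6]

variable {m : ℕ} {E : ℤ → ℤ → A} {τ : A} {H : ℕ → A}

/-- units -/
theorem Ez_unit (hF : Fd (t : ℤ) (c : ℤ) f χ) (h : Gv t c m E τ H) (u : Qd (t : ℤ) (c : ℤ))
    (hu : nm u = 1) : Ez E u ∈ Df t c m E := by
  have hD := hDG hF
  have hc := c_pos hF
  -- a prime which is a norm
  obtain ⟨π, hπ, hπm⟩ : ∃ π : Qd (t : ℤ) (c : ℤ), (nm π).Prime ∧ ¬ nm π ∣ m := by
    obtain ⟨z, hz⟩ : ∃ z : Qd (t : ℤ) (c : ℤ), z = ⟨1, m⟩ := ⟨_, rfl⟩
    have h1 : ((nm z : ℕ) : ℤ) = 1 + m * (t + c * m) := by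
      rw [nm_cast hD, hz]
      ring
    have h1' : nm z = 1 + m * (t + c * m) := by exact_mod_cast h1
    have h2 : nm z ≠ 1 := by
      have : 0 < m * (t + c * m) := by
        have hm := h.pos
        have : 0 < c * m := Nat.mul_pos (by omega) (by omega)
        exact Nat.mul_pos (by omega) (by omega)
      omega
    have h3 : prim z := by
      unfold prim
      rw [hz]
      simp
    obtain ⟨p, hp, hpz⟩ := Nat.exists_prime_and_dvd h2
    obtain ⟨π, w, _, h5⟩ := prime_above hF h3 hp hpz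
    refine ⟨π, h5 ▸ hp, ?_⟩
    rw [h5]
    intro h6
    have h7 : p ∣ 1 := by
      have h8 := Dvd.dvd.mul_right h6 (t + c * m)
      rw [h1'] at hpz
      exact (Nat.dvd_add_left h8).1 hpz
    exact hp.one_lt.ne' (Nat.dvd_one.1 h7)
  have hcp : (nm π).Coprime m := (Nat.Prime.coprime_iff_not_dvd hπ).2 hπm
  have h1 := Ez_mul (E := E) (m := m) hD u π (by rw [hu]; exact Nat.coprime_one_left m) hcp
  have h2 : Ez E (u * π) = H (nm π) := by
    have h3 : nm (u * π) = nm π := by rw [nm_mul, hu, one_mul]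
    refine (h.val _ _ _ hπ hπm ?_).symm
    rw [← nm_cast hD, h3]
  have h4 : Ez E π = H (nm π) := by
    refine (h.val _ _ _ hπ hπm ?_).symm
    rw [← nm_cast hD]
  rw [h2, h4] at h1
  simpa using h1

/-- the value at the norm of a primitive element -/
theorem val_prim (hF : Fd (t : ℤ) (c : ℤ) f χ) (h : Gv t c m E τ H) (M : ℕ) :
    ∀ z : Qd (t : ℤ) (c : ℤ), prim z → nm z = M → M.Coprime m →
    H M - Ez E z ∈ Df t c m E := by
  have hD := hDG hF
  induction M using Nat.strong_induction_on with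
  | _ M ih =>
    intro z hz hM hMm
    rcases eq_or_ne M 1 with h1 | h1
    · rw [h1, h.one, zero_sub]
      exact neg_mem (Ez_unit hF h z (hM.trans h1))
    · have hM0 : 0 < M := by
        rw [← hM]
        exact nm_pos hD (prim_ne_zero hz)
      obtain ⟨p, hp, hpM⟩ := Nat.exists_prime_and_dvd h1
      obtain ⟨π, w, hzw, hπ⟩ := prime_above hF hz hp (hM ▸ hpM)
      have hw : prim w := prim_of_dvd hz ⟨π, by rw [hzw, mul_comm]⟩
      have hN : M = p * nm w := by rw [← hM, hzw, nm_mul, hπ]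
      have hw0 : 0 < nm w := nm_pos hD (prim_ne_zero hw)
      have hlt : nm w < M := by
        rw [hN]
        have := hp.two_le
        nlinarith
      have hcw : (nm w).Coprime m := Nat.Coprime.coprime_dvd_left ⟨p, by rw [hN]; ring⟩ hMm
      have hcp : (nm π).Coprime m := by
        rw [hπ]
        exact Nat.Coprime.coprime_dvd_left ⟨nm w, hN⟩ hMm
      have hpm : ¬ p ∣ m := (Nat.Prime.coprime_iff_not_dvd hp).1 (hπ ▸ hcp)
      have h2 := ih (nm w) hlt w hw rfl hcw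
      have h3 := Ez_mul (E := E) (m := m) hD π w hcp hcw
      have h4 : Ez E π = H p := by
        refine (h.val _ _ _ hp hpm ?_).symm
        rw [← nm_cast hD, hπ]
      have h5 : H M = H p + H (nm w) := by
        rw [hN]
        exact h.add _ _ hp.ne_zero hw0.ne'
      rw [← hzw, h4] at h3
      rw [h5]
      have h6 := add_mem h2 h3
      have h7 : H (nm w) - Ez E w + (H p + Ez E w - Ez E z) = H p + H (nm w) - Ez E z := by abel
      rwa [h7] at h6

/-- the value at `n^2+tn+c` -/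
theorem val_F (hF : Fd (t : ℤ) (c : ℤ) f χ) (h : Gv t c m E τ H) (n : ℕ)
    (hn : (n ^ 2 + t * n + c).Coprime m) : H (n ^ 2 + t * n + c) - E n 1 ∈ Df t c m E := by
  have hD := hDG hF
  have h1 : prim (⟨(n : ℤ), 1⟩ : Qd (t : ℤ) (c : ℤ)) := by
    unfold prim
    simp
  refine val_prim hF h _ ⟨(n : ℤ), 1⟩ h1 ?_ hn
  have h2 : ((nm (⟨(n : ℤ), 1⟩ : Qd (t : ℤ) (c : ℤ)) : ℕ) : ℤ) = ((n ^ 2 + t * n + c : ℕ) : ℤ) := by
    rw [nm_cast hD]
    push_cast
    ring
  exact_mod_cast h2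

end

end Pool.Agent.V11296.CV
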