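import Pool.Agent.V11296.CV1
import Mathlib.Analysis.Fourier.FiniteAbelian.PontryaginDuality

/-!
Class vectors (helper296), part 2: characters of `A`.
-/

set_option autoImplicit false

namespace Pool.Agent.V11296.CV

open Finset Filter
open Pool.Agent.W78.GA (Qd nm nm_cast nm_mul nm_pos mul_star_self' prim prim_iff prim_of_dvd
  prim_star prim_ne_zero)
open Pool.Agent.W78.EG
open Pool.Agent.W251.EG
open Pool.Agent.W251.EX (Sqp tt sum_null)
open Pool.Agent.W738.EG (red red_eq PerM)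

variable {A : Type} [AddCommGroup A]

theorem chpow [Finite A] (ψ : AddChar A ℂ) (x : A) : ψ x ^ Nat.card A = 1 := by
  rw [← AddChar.map_nsmul_eq_pow, card_nsmul_eq_zero', AddChar.map_zero_eq_one]

theorem chnrm [Finite A] (ψ : AddChar A ℂ) (x : A) : ‖ψ x‖ = 1 :=
  Complex.norm_eq_one_of_pow_eq_one (chpow ψ x) Nat.card_pos.ne'

section

variable {t c : ℕ} {f : ℕ} {χ : DirichletCharacter ℂ f} {m : ℕ} {E : ℤ → ℤ → A} {τ : A} {H : ℕ → A}

theorem fgv [Finite A] (h : Gv t c m E τ H) (χ : DirichletCharacter ℂ f) (ψ : AddChar A ℂ) :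
    FGc χ (Nat.card A) (ψ τ) (fun n => ψ (H n)) (fun n => ψ (H n)) where
  pos := Nat.card_pos
  m₁ := fun x y hx hy => by rw [h.add x y hx hy, AddChar.map_add_eq_mul]
  m₂ := fun x y hx hy => by rw [h.add x y hx hy, AddChar.map_add_eq_mul]
  p₁ := fun n => chpow ψ _
  p₂ := fun n => chpow ψ _
  tw := fun p hp _ => by rw [← AddChar.map_add_eq_mul, h.two p hp]

/-- a character which is trivial on the generators is trivial on the group -/
theorem exists_defect (ψ : AddChar A ℂ) (hψ : ∃ d ∈ Df t c m E, ψ d ≠ 1) :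
    ∃ x y u v : ℤ, IsCoprime (x ^ 2 + t * x * y + c * y ^ 2) (m : ℤ) ∧
    IsCoprime (u ^ 2 + t * u * v + c * v ^ 2) (m : ℤ) ∧
    ψ (E (x * u - c * y * v) (x * v + y * u + t * y * v)) ≠ ψ (E x y) * ψ (E u v) := by
  by_contra hcon
  push Not at hcon
  obtain ⟨d, hd, hd1⟩ := hψ
  apply hd1
  clear hd1
  unfold Df at hd
  induction hd using AddSubgroup.closure_induction with
  | mem g hg =>
    obtain ⟨x, y, u, v, h1, h2, rfl⟩ := hg
    have h3 := hcon x y u v h1 h2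
    rw [AddChar.map_sub_eq_div, AddChar.map_add_eq_mul, h3]
    refine div_self ?_
    intro h4
    have h5 := AddChar.map_add_eq_mul ψ (E (x * u - c * y * v) (x * v + y * u + t * y * v))
      (-(E (x * u - c * y * v) (x * v + y * u + t * y * v)))
    rw [h3, h4, zero_mul, add_neg_cancel, AddChar.map_zero_eq_one] at h5
    exact one_ne_zero h5
  | zero => exact AddChar.map_zero_eq_one ψ
  | add x y _ _ hx hy => rw [AddChar.map_add_eq_mul, hx, hy, one_mul]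
  | neg x _ hx => rw [AddChar.map_neg_eq_inv, hx, inv_one]

theorem apdv [Finite A] (hF : Fd (t : ℤ) (c : ℤ) f χ) (h : Gv t c m E τ H) (ψ : AddChar A ℂ)
    (hψ : ∃ d ∈ Df t c m E, ψ d ≠ 1) :
    Apd (Nat.card A) (fun z : Qd (t : ℤ) (c : ℤ) => ψ (H (nm z))) := by
  have hD := hDG hF
  have hP := Pool.Agent.W290.EG.pid hF
  refine apdE hF hP (lconG hF) (Pool.Agent.W240.EG.lnv hF hP (lconG hF)) (m := m)
    (E := fun z => ψ (E z.re z.im)) (h := fun n => ψ (H n))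
    ⟨h.pos, ?_, fun x y hx hy => ?_, fun n => chnrm ψ _, ?_⟩ ?_ Nat.card_pos (fun n => chpow ψ _)
  · intro z z' hzz
    rw [red_eq] at hzz
    show ψ (E z.re z.im) = ψ (E z'.re z'.im)
    rw [h.per z.re z.im z'.re z'.im (Int.modEq_iff_dvd.2 (by
      have := hzz.1
      rw [← Int.neg_sub, dvd_neg]
      exact this)) (Int.modEq_iff_dvd.2 (by
      have := hzz.2
      rw [← Int.neg_sub, dvd_neg]
      exact this))]
  · show ψ (H (x * y)) = ψ (H x) * ψ (H y)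
    rw [h.add x y hx hy, AddChar.map_add_eq_mul]
  · intro z hz hzm
    show ψ (H (nm z)) = ψ (E z.re z.im)
    rw [h.val z.re z.im (nm z) hz hzm (nm_cast hD z).symm]
  · obtain ⟨x, y, u, v, h1, h2, h3⟩ := exists_defect ψ hψ
    refine ⟨⟨x, y⟩, ⟨u, v⟩, copr hD _ h1, copr hD _ h2, ?_⟩
    intro h4
    apply h3
    have h5 : ((⟨x, y⟩ : Qd (t : ℤ) (c : ℤ)) * ⟨u, v⟩).re = x * u - c * y * v := by
      rw [QuadraticAlgebra.re_mul]
      ring
    have h6 : ((⟨x, y⟩ : Qd (t : ℤ) (c : ℤ)) * ⟨u, v⟩).im = x * v + y * u + t * y * v := by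
      rw [QuadraticAlgebra.im_mul]
    beta_reduce at h4
    rw [h5, h6] at h4
    exact h4

end

/-! ### Fourier analysis -/

open scoped Classical in
/-- the characters which are not trivial on `D` -/
noncomputable def nt [Finite A] (D : AddSubgroup A) : Finset (AddChar A ℂ) :=
  univ.filter (fun ψ => ∃ d ∈ D, ψ d ≠ 1)

open scoped Classical in
theorem sum_ch [Finite A] (x : A) :
    ∑ ψ : AddChar A ℂ, ψ x = if x = 0 then (Nat.card A : ℂ) else 0 := by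
  have hf : Fintype A := Fintype.ofFinite A
  rw [AddChar.sum_apply_eq_ite, Nat.card_eq_fintype_card]

open scoped Classical in
/-- the number of the characters which are trivial on `D` -/
theorem card_triv [Finite A] (D : AddSubgroup A) :
    (((univ : Finset (AddChar A ℂ)).filter (fun ψ => ¬ ∃ d ∈ D, ψ d ≠ 1)).card : ℂ) *
      (Nat.card D : ℂ) = (Nat.card A : ℂ) := by
  have hfin : Fintype D := Fintype.ofFinite D
  have h1 : ∑ d : D, ∑ ψ : AddChar A ℂ, ψ (d : A) = (Nat.card A : ℂ) := by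
    have h2 : ∀ d : D, ∑ ψ : AddChar A ℂ, ψ (d : A) = if d = 0 then (Nat.card A : ℂ) else 0 := by
      intro d
      rw [sum_ch]
      by_cases hd : d = 0
      · rw [if_pos hd, if_pos (by rw [hd]; rfl)]
      · have hd2 : (d : A) ≠ 0 := fun h => hd (Subtype.ext h)
        rw [if_neg hd, if_neg hd2]
    rw [sum_congr rfl (fun d _ => h2 d), sum_ite_eq' univ (0 : D) (fun _ => (Nat.card A : ℂ)),
      if_pos (mem_univ _)]
  rw [sum_comm] at h1
  rw [← h1, ← sum_filter_add_sum_filter_not (s := (univ : Finset (AddChar A ℂ)))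
    (p := fun ψ => ∃ d ∈ D, ψ d ≠ 1)]
  have h2 : ∑ ψ ∈ (univ : Finset (AddChar A ℂ)).filter (fun ψ => ∃ d ∈ D, ψ d ≠ 1),
      ∑ d : D, ψ (d : A) = 0 := by
    refine sum_eq_zero fun ψ hψ => ?_
    obtain ⟨d, hd, hd1⟩ := (mem_filter.1 hψ).2
    have h3 : ψ d * ∑ x : D, ψ (x : A) = ∑ x : D, ψ (x : A) := by
      rw [mul_sum, ← Equiv.sum_comp (Equiv.addLeft (⟨d, hd⟩ : D)) (fun x : D => ψ (x : A))]
      refine sum_congr rfl fun x _ => ?_
      simp [AddChar.map_add_eq_mul]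
    have h4 : (ψ d - 1) * ∑ x : D, ψ (x : A) = 0 := by
      rw [sub_mul, h3, one_mul, sub_self]
    rcases mul_eq_zero.1 h4 with h5 | h5
    · exact absurd (sub_eq_zero.1 h5) hd1
    · exact h5
  have h3 : ∑ ψ ∈ (univ : Finset (AddChar A ℂ)).filter (fun ψ => ¬ ∃ d ∈ D, ψ d ≠ 1),
      ∑ d : D, ψ (d : A) = (((univ : Finset (AddChar A ℂ)).filter
      (fun ψ => ¬ ∃ d ∈ D, ψ d ≠ 1)).card : ℂ) * (Nat.card D : ℂ) := by
    rw [sum_congr rfl (g := fun _ => (Nat.card D : ℂ)), sum_const, nsmul_eq_mul]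
    intro ψ hψ
    have h4 := (mem_filter.1 hψ).2
    push Not at h4
    rw [sum_congr rfl (g := fun _ => (1 : ℂ)) (fun (d : D) _ => h4 (d : A) d.2), sum_const,
      nsmul_eq_mul, mul_one, card_univ, Nat.card_eq_fintype_card]
  rw [h2, h3, zero_add]

open scoped Classical in
/-- the indicator function of `0` on `D` -/
theorem ind_eq [Finite A] (D : AddSubgroup A) (x : A) (hx : x ∈ D) :
    (if x = 0 then (1 : ℂ) else 0) - 1 / (Nat.card D : ℂ) =
      1 / (Nat.card A : ℂ) * ∑ ψ ∈ nt D, ψ x := by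
  have h1 := sum_ch x
  rw [← sum_filter_add_sum_filter_not (s := (univ : Finset (AddChar A ℂ)))
    (p := fun ψ => ∃ d ∈ D, ψ d ≠ 1)] at h1
  have h3 : ∑ ψ ∈ (univ : Finset (AddChar A ℂ)).filter (fun ψ => ¬ ∃ d ∈ D, ψ d ≠ 1), ψ x =
      (((univ : Finset (AddChar A ℂ)).filter (fun ψ => ¬ ∃ d ∈ D, ψ d ≠ 1)).card : ℂ) := by
    rw [sum_congr rfl (g := fun _ => (1 : ℂ)), sum_const, nsmul_eq_mul, mul_one]
    intro ψ hψ
    have h4 := (mem_filter.1 hψ).2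
    push Not at h4
    exact h4 x hx
  have hA : (Nat.card A : ℂ) ≠ 0 := by exact_mod_cast Nat.card_pos.ne'
  have hDc : (Nat.card D : ℂ) ≠ 0 := by exact_mod_cast (Nat.card_pos (α := D)).ne'
  have h4 := card_triv D
  rw [h3] at h1
  have h5 : ∑ ψ ∈ nt D, ψ x = (if x = 0 then (Nat.card A : ℂ) else 0) -
      (((univ : Finset (AddChar A ℂ)).filter (fun ψ => ¬ ∃ d ∈ D, ψ d ≠ 1)).card : ℂ) := by
    rw [eq_sub_iff_add_eq, ← h1]
    rfl
  have h6 : (((univ : Finset (AddChar A ℂ)).filter (fun ψ => ¬ ∃ d ∈ D, ψ d ≠ 1)).card : ℂ) =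
      (Nat.card A : ℂ) / (Nat.card D : ℂ) := by
    rw [eq_div_iff hDc]
    exact h4
  rw [h5, h6]
  split_ifs
  · field_simp
  · field_simp
    ring

open scoped Classical in
theorem fourier [Finite A] {D : AddSubgroup A} {H : ℕ → A}
    (hadd : ∀ x y : ℕ, x ≠ 0 → y ≠ 0 → H (x * y) = H x + H y) (g : A)
    (S : ℕ → Finset (ℕ × ℕ))
    (hS : ∀ X, ∀ p ∈ S X, p.1 ≠ 0 ∧ p.2 ≠ 0 ∧ H (p.1 * p.2) - g ∈ D)
    (hav : ∀ ψ : AddChar A ℂ, (∃ d ∈ D, ψ d ≠ 1) → ∀ ε : ℝ, 0 < ε → ∃ N₀ : ℕ, ∀ N' : ℕ, N₀ ≤ N' →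
      ∑ X ∈ Icc 1 N', 1 / (X : ℝ) ^ 2 * ‖∑ p ∈ S X, ψ (H p.1) * ψ (H p.2)‖ ≤ ε * Real.log N')
    (ε : ℝ) (hε : 0 < ε) : ∃ N₀ : ℕ, ∀ N' : ℕ, N₀ ≤ N' →
      ∑ X ∈ Icc 1 N', 1 / (X : ℝ) ^ 2 * ‖∑ p ∈ S X, ((if H (p.1 * p.2) = g then (1 : ℂ) else 0) -
        1 / (Nat.card D : ℂ))‖ ≤ ε * Real.log N' := by
  -- the bound for each `X`
  have hX : ∀ X, ‖∑ p ∈ S X, ((if H (p.1 * p.2) = g then (1 : ℂ) else 0) -
      1 / (Nat.card D : ℂ))‖ ≤ ∑ ψ ∈ nt D, ‖∑ p ∈ S X, ψ (H p.1) * ψ (H p.2)‖ := by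
    intro X
    have h1 : ∑ p ∈ S X, ((if H (p.1 * p.2) = g then (1 : ℂ) else 0) - 1 / (Nat.card D : ℂ)) =
        1 / (Nat.card A : ℂ) * ∑ ψ ∈ nt D, ψ (-g) * ∑ p ∈ S X, ψ (H p.1) * ψ (H p.2) := by
      rw [sum_congr rfl (g := fun p => 1 / (Nat.card A : ℂ) * ∑ ψ ∈ nt D,
        ψ (-g) * (ψ (H p.1) * ψ (H p.2))), ← mul_sum, sum_comm]
      · refine congrArg _ (sum_congr rfl fun ψ _ => ?_)
        rw [mul_sum]
      · intro p hp
        obtain ⟨h1, h2, h3⟩ := hS X p hp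
        have h4 := ind_eq D (H (p.1 * p.2) - g) h3
        simp only [sub_eq_zero] at h4
        rw [h4]
        refine congrArg _ (sum_congr rfl fun ψ _ => ?_)
        rw [hadd _ _ h1 h2, ← AddChar.map_add_eq_mul, ← AddChar.map_add_eq_mul]
        congr 1
        abel
    rw [h1, norm_mul]
    have h2 : ‖(1 / (Nat.card A : ℂ) : ℂ)‖ ≤ 1 := by
      rw [norm_div, norm_one, Complex.norm_natCast]
      have : (1 : ℝ) ≤ Nat.card A := by exact_mod_cast (Nat.card_pos (α := A))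
      rw [div_le_one (by linarith)]
      exact this
    calc ‖(1 / (Nat.card A : ℂ) : ℂ)‖ * ‖∑ ψ ∈ nt D, ψ (-g) * ∑ p ∈ S X, ψ (H p.1) * ψ (H p.2)‖
        ≤ 1 * ‖∑ ψ ∈ nt D, ψ (-g) * ∑ p ∈ S X, ψ (H p.1) * ψ (H p.2)‖ :=
          mul_le_mul_of_nonneg_right h2 (norm_nonneg _)
      _ ≤ ∑ ψ ∈ nt D, ‖ψ (-g) * ∑ p ∈ S X, ψ (H p.1) * ψ (H p.2)‖ := by
          rw [one_mul]
          exact norm_sum_le _ _
      _ = _ := by
          refine sum_congr rfl fun ψ _ => ?_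
          rw [norm_mul, chnrm, one_mul]
  obtain ⟨K, hK⟩ : ∃ K : ℕ, K = (nt D).card + 1 := ⟨_, rfl⟩
  have hK0 : (0 : ℝ) < K := by
    rw [hK]
    positivity
  have h2 : ∀ ψ : AddChar A ℂ, ∃ N₀ : ℕ, ψ ∈ nt D → ∀ N' : ℕ, N₀ ≤ N' →
      ∑ X ∈ Icc 1 N', 1 / (X : ℝ) ^ 2 * ‖∑ p ∈ S X, ψ (H p.1) * ψ (H p.2)‖ ≤
        ε / K * Real.log N' := by
    intro ψ
    by_cases hψ : ψ ∈ nt D
    · obtain ⟨N₀, h⟩ := hav ψ (by
        unfold nt at hψ
        simpa using hψ) (ε / K) (by positivity)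
      exact ⟨N₀, fun _ => h⟩
    · exact ⟨0, fun h => absurd h hψ⟩
  choose N₁ hN₁ using h2
  refine ⟨max 1 ((nt D).sup N₁), fun N' hN' => ?_⟩
  have hN1 : 1 ≤ N' := (le_max_left _ _).trans hN'
  have hlog : 0 ≤ Real.log N' := Real.log_nonneg (by exact_mod_cast hN1)
  calc ∑ X ∈ Icc 1 N', 1 / (X : ℝ) ^ 2 * ‖∑ p ∈ S X, ((if H (p.1 * p.2) = g then (1 : ℂ) else 0) -
        1 / (Nat.card D : ℂ))‖
      ≤ ∑ X ∈ Icc 1 N', 1 / (X : ℝ) ^ 2 * ∑ ψ ∈ nt D, ‖∑ p ∈ S X, ψ (H p.1) * ψ (H p.2)‖ :=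
        sum_le_sum fun X _ => mul_le_mul_of_nonneg_left (hX X) (by positivity)
    _ = ∑ ψ ∈ nt D, ∑ X ∈ Icc 1 N', 1 / (X : ℝ) ^ 2 * ‖∑ p ∈ S X, ψ (H p.1) * ψ (H p.2)‖ := by
        rw [sum_comm]
        exact sum_congr rfl fun X _ => mul_sum _ _ _
    _ ≤ ∑ ψ ∈ nt D, ε / K * Real.log N' := sum_le_sum fun ψ hψ =>
        hN₁ ψ hψ N' ((Finset.le_sup hψ).trans ((le_max_right _ _).trans hN'))
    _ = (nt D).card * (ε / K * Real.log N') := by rw [sum_const, nsmul_eq_mul]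
    _ ≤ K * (ε / K * Real.log N') := by
        refine mul_le_mul_of_nonneg_right ?_ (by positivity)
        rw [hK]
        push_cast
        linarith
    _ = ε * Real.log N' := by field_simp

end Pool.Agent.V11296.CV
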