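import Pool.Agent.V11296.CV2

/-!
Class vectors (helper296), part 3: the values at the polynomials.
-/

set_option autoImplicit false

namespace Pool.Agent.V11296.CV

open Finset Filter
open Pool.Agent.W78.GA (Qd nm nm_cast nm_mul nm_pos mul_star_self' prim prim_iff prim_of_dvd
  prim_star prim_ne_zero)
open Pool.Agent.W78.EG
open Pool.Agent.W251.EG
open Pool.Agent.W251.EX (Sqp tt sum_null)

variable {A : Type} [AddCommGroup A]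

/-- the number of the factorisations in a window -/
noncomputable def wt (t c q r : ℕ) (s₁ s₂ s₃ s₄ : ℝ) (X n : ℕ) : ℕ :=
  open scoped Classical in
  ((n ^ 2 + t * n + c).divisors.filter (fun d : ℕ => d ≡ r [MOD q] ∧ s₁ * X < (d : ℝ) ∧
    (d : ℝ) ≤ s₂ * X ∧ s₃ * X < (((n ^ 2 + t * n + c) / d : ℕ) : ℝ) ∧
    (((n ^ 2 + t * n + c) / d : ℕ) : ℝ) ≤ s₄ * X)).card

section

variable {t c : ℕ} {f : ℕ} {χ : DirichletCharacter ℂ f} {m : ℕ} {E : ℤ → ℤ → A} {τ : A} {H : ℕ → A}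

open scoped Classical in
/-- from pairs to `n` -/
theorem conv_n (ht : t ≤ 1) (hc : 1 ≤ c) (P : ℕ → Prop) (g : A) (D : AddSubgroup A)
    (q a r : ℕ) (s₁ s₂ s₃ s₄ : ℝ) (h2 : s₂ ≤ 1) (h4 : s₄ ≤ 1) (X : ℕ) :
    ∑ p ∈ (SW (t : ℤ) (c : ℤ) q a r s₁ s₂ s₃ s₄ X).filter (fun p => P (p.1 * p.2)),
      ((if H (p.1 * p.2) = g then (1 : ℂ) else 0) - 1 / (Nat.card D : ℂ)) =
      ((∑ n ∈ (range (X + 1)).filter (fun n => 1 ≤ n + t ∧ n ≡ a [MOD q] ∧ P (n ^ 2 + t * n + c)),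
        ((if H (n ^ 2 + t * n + c) = g then (1 : ℝ) else 0) - 1 / (Nat.card D : ℝ)) *
          (wt t c q r s₁ s₂ s₃ s₄ X n : ℝ) : ℝ) : ℂ) := by
  rw [sum_filter, convG ht hc (fun x y => if P (x * y) then
    ((if H (x * y) = g then (1 : ℂ) else 0) - 1 / (Nat.card D : ℂ)) else 0)
    q a r s₁ s₂ s₃ s₄ h2 h4 X, Complex.ofReal_sum]
  have e0 : (range (X + 1)).filter (fun n => 1 ≤ n + t ∧ n ≡ a [MOD q] ∧ P (n ^ 2 + t * n + c)) =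
      ((range (X + 1)).filter (fun n => 1 ≤ n + t ∧ n ≡ a [MOD q])).filter
        (fun n => P (n ^ 2 + t * n + c)) := by
    rw [filter_filter]
    refine filter_congr fun n _ => ?_
    tauto
  rw [e0]
  conv_rhs => rw [sum_filter]
  refine sum_congr rfl fun n _ => ?_
  have e2 : ∀ d ∈ (n ^ 2 + t * n + c).divisors.filter (fun d : ℕ => d ≡ r [MOD q] ∧
        s₁ * X < (d : ℝ) ∧
        (d : ℝ) ≤ s₂ * X ∧ s₃ * X < (((n ^ 2 + t * n + c) / d : ℕ) : ℝ) ∧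
        (((n ^ 2 + t * n + c) / d : ℕ) : ℝ) ≤ s₄ * X),
      (if P (d * ((n ^ 2 + t * n + c) / d)) then
        ((if H (d * ((n ^ 2 + t * n + c) / d)) = g then (1 : ℂ) else 0) -
          1 / (Nat.card D : ℂ)) else 0) =
      if P (n ^ 2 + t * n + c) then
        ((if H (n ^ 2 + t * n + c) = g then (1 : ℂ) else 0) - 1 / (Nat.card D : ℂ)) else 0 := by
    intro d hd
    have hd1 := (Nat.mem_divisors.1 (mem_filter.1 hd).1).1
    have hdd : d * ((n ^ 2 + t * n + c) / d) = n ^ 2 + t * n + c := Nat.mul_div_cancel' hd1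
    rw [hdd]
  rw [sum_congr rfl e2, sum_const, nsmul_eq_mul]
  unfold wt
  split_ifs
  · push_cast
    ring
  · push_cast
    ring
  · simp

/-- admissible values -/
def Al (t c m q a : ℕ) (E : ℤ → ℤ → A) (H : ℕ → A) (g : A) : Prop :=
  ∀ n : ℕ, n ≡ a [MOD q] → H (n ^ 2 + t * n + c) - g ∈ Df t c m E

theorem al_SW {q a r : ℕ} {s₁ s₂ s₃ s₄ : ℝ} {X : ℕ} {g : A} (hal : Al t c m q a E H g)
    {p : ℕ × ℕ} (hp : p ∈ SW (t : ℤ) (c : ℤ) q a r s₁ s₂ s₃ s₄ X) :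
    p.1 ≠ 0 ∧ p.2 ≠ 0 ∧ H (p.1 * p.2) - g ∈ Df t c m E := by
  obtain ⟨⟨h1, h2, h3⟩, ⟨n, h4, h5, h6, h7⟩, _⟩ := mem_SWn.1 hp
  refine ⟨by omega, by omega, ?_⟩
  rw [h5]
  exact hal n h6

open scoped Classical in
theorem avg_tw [Finite A] (hF : Fd (t : ℤ) (c : ℤ) f χ) (h : Gv t c m E τ H) (g : A)
    (q a r : ℕ) (hq : 1 ≤ q) (hal : Al t c m q a E H g) (s₁ s₂ s₃ s₄ : ℝ) (h1 : 0 ≤ s₁)
    (h2 : s₁ < s₂) (h3 : s₂ ≤ 1) (h4 : 0 ≤ s₃) (h5 : s₃ < s₄) (h6 : s₄ ≤ 1) (ε : ℝ) (hε : 0 < ε) :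
    ∃ N₀ : ℕ, ∀ N' : ℕ, N₀ ≤ N' → ∑ X ∈ Icc 1 N', 1 / (X : ℝ) ^ 2 *
      ‖∑ p ∈ SW (t : ℤ) (c : ℤ) q a r s₁ s₂ s₃ s₄ X,
        ((if H (p.1 * p.2) = g then (1 : ℂ) else 0) - 1 / (Nat.card (Df t c m E) : ℂ))‖ ≤
      ε * Real.log N' := by
  refine fourier h.add g (fun X => SW (t : ℤ) (c : ℤ) q a r s₁ s₂ s₃ s₄ X)
    (fun X p hp => al_SW hal hp) (fun ψ hψ ε' hε' => ?_) ε hε
  obtain ⟨N₀, hN₀⟩ := twG hF (Nat.card A) (ψ τ) (fun n => ψ (H n)) (fun n => ψ (H n)) (fgv h χ ψ)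
    (Or.inr (apdv hF h ψ hψ)) q a r 0 hq s₁ s₂ s₃ s₄ h1 h2 h3 h4 h5 h6 ε' hε'
  refine ⟨N₀, fun N' hN' => le_trans (le_of_eq ?_) (hN₀ N' hN')⟩
  refine sum_congr rfl fun X _ => ?_
  have e0 : (SW (t : ℤ) (c : ℤ) q a r s₁ s₂ s₃ s₄ X).filter (Sqp 0) =
      SW (t : ℤ) (c : ℤ) q a r s₁ s₂ s₃ s₄ X := by
    refine filter_true_of_mem fun p _ l hl hp => ?_
    have := hp.pos
    omega
  rw [e0]

open scoped Classical in
theorem avg_ts [Finite A] (hF : Fd (t : ℤ) (c : ℤ) f χ) (h : Gv t c m E τ H) (g : A)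
    (q a r : ℕ) (hq : 1 ≤ q) (hal : Al t c m q a E H g) (s₁ s₂ s₃ s₄ : ℝ) (h1 : 0 ≤ s₁)
    (h2 : s₁ < s₂) (h3 : s₂ ≤ 1) (h4 : 0 ≤ s₃) (h5 : s₃ < s₄) (h6 : s₄ ≤ 1) (ε : ℝ) (hε : 0 < ε) :
    ∃ N₀ : ℕ, ∀ N' : ℕ, N₀ ≤ N' → ∑ X ∈ Icc 1 N', 1 / (X : ℝ) ^ 2 *
      ‖∑ p ∈ (SW (t : ℤ) (c : ℤ) q a r s₁ s₂ s₃ s₄ X).filter (fun p => Squarefree (p.1 * p.2)),
        ((if H (p.1 * p.2) = g then (1 : ℂ) else 0) - 1 / (Nat.card (Df t c m E) : ℂ))‖ ≤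
      ε * Real.log N' := by
  refine fourier h.add g (fun X => (SW (t : ℤ) (c : ℤ) q a r s₁ s₂ s₃ s₄ X).filter
    (fun p => Squarefree (p.1 * p.2))) (fun X p hp => al_SW hal (mem_filter.1 hp).1)
    (fun ψ hψ ε' hε' => ?_) ε hε
  exact tsG hF (Nat.card A) (ψ τ) (fun n => ψ (H n)) (fun n => ψ (H n)) (fgv h χ ψ)
    (Or.inr (apdv hF h ψ hψ)) q a r hq s₁ s₂ s₃ s₄ h1 h2 h3 h4 h5 h6 ε' hε'

open scoped Classical in
/-- weighted sums over all `n` -/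
theorem outAll [Finite A] (hF : Fd (t : ℤ) (c : ℤ) f χ) (h : Gv t c m E τ H) (g : A)
    (q a r : ℕ) (hq : 1 ≤ q) (hal : Al t c m q a E H g) (s₁ s₂ s₃ s₄ : ℝ) (h1 : 0 ≤ s₁)
    (h2 : s₁ < s₂) (h3 : s₂ ≤ 1) (h4 : 0 ≤ s₃) (h5 : s₃ < s₄) (h6 : s₄ ≤ 1) (ε : ℝ) (hε : 0 < ε) :
    Tendsto (fun N : ℕ => (∑ X ∈ (Icc 1 N).filter (fun X : ℕ => ε * X <
      |∑ n ∈ (range (X + 1)).filter (fun n => 1 ≤ n + t ∧ n ≡ a [MOD q]),
        ((if H (n ^ 2 + t * n + c) = g then (1 : ℝ) else 0) -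
          1 / (Nat.card (Df t c m E) : ℝ)) * (wt t c q r s₁ s₂ s₃ s₄ X n : ℝ)|), 1 / (X : ℝ)) /
      Real.log N) atTop (nhds 0) := by
  have h7 := tt (fun X => ∑ p ∈ SW (t : ℤ) (c : ℤ) q a r s₁ s₂ s₃ s₄ X,
        ((if H (p.1 * p.2) = g then (1 : ℂ) else 0) - 1 / (Nat.card (Df t c m E) : ℂ)))
    (fun ε' hε' => avg_tw hF h g q a r hq hal s₁ s₂ s₃ s₄ h1 h2 h3 h4 h5 h6 ε' hε') ε hε
  refine h7.congr fun N => ?_
  congr 1
  refine sum_congr ?_ fun _ _ => rfl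
  ext X
  rw [mem_filter, mem_filter]
  refine and_congr_right fun _ => ?_
  have h8 := conv_n (H := H) (t_le hF) (c_pos hF) (fun _ => True) g (Df t c m E) q a r s₁ s₂ s₃ s₄
    h3 h6 X
  simp only [filter_true, and_true] at h8
  rw [h8, Complex.norm_real, Real.norm_eq_abs]

open scoped Classical in
/-- weighted sums over the `n` with squarefree values -/
theorem outSq [Finite A] (hF : Fd (t : ℤ) (c : ℤ) f χ) (h : Gv t c m E τ H) (g : A)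
    (q a r : ℕ) (hq : 1 ≤ q) (hal : Al t c m q a E H g) (s₁ s₂ s₃ s₄ : ℝ) (h1 : 0 ≤ s₁)
    (h2 : s₁ < s₂) (h3 : s₂ ≤ 1) (h4 : 0 ≤ s₃) (h5 : s₃ < s₄) (h6 : s₄ ≤ 1) (ε : ℝ) (hε : 0 < ε) :
    Tendsto (fun N : ℕ => (∑ X ∈ (Icc 1 N).filter (fun X : ℕ => ε * X <
      |∑ n ∈ (range (X + 1)).filter (fun n => 1 ≤ n + t ∧ n ≡ a [MOD q] ∧
        Squarefree (n ^ 2 + t * n + c)),
        ((if H (n ^ 2 + t * n + c) = g then (1 : ℝ) else 0) -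
          1 / (Nat.card (Df t c m E) : ℝ)) * (wt t c q r s₁ s₂ s₃ s₄ X n : ℝ)|), 1 / (X : ℝ)) /
      Real.log N) atTop (nhds 0) := by
  have h7 := tt (fun X => ∑ p ∈ (SW (t : ℤ) (c : ℤ) q a r s₁ s₂ s₃ s₄ X).filter
        (fun p => Squarefree (p.1 * p.2)),
        ((if H (p.1 * p.2) = g then (1 : ℂ) else 0) - 1 / (Nat.card (Df t c m E) : ℂ)))
    (fun ε' hε' => avg_ts hF h g q a r hq hal s₁ s₂ s₃ s₄ h1 h2 h3 h4 h5 h6 ε' hε') ε hε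
  refine h7.congr fun N => ?_
  congr 1
  refine sum_congr ?_ fun _ _ => rfl
  ext X
  rw [mem_filter, mem_filter]
  refine and_congr_right fun _ => ?_
  have h8 := conv_n (H := H) (t_le hF) (c_pos hF) Squarefree g (Df t c m E) q a r s₁ s₂ s₃ s₄
    h3 h6 X
  have h9 : ∑ p ∈ (SW (t : ℤ) (c : ℤ) q a r s₁ s₂ s₃ s₄ X).filter
        (fun p => Squarefree (p.1 * p.2)),
        ((if H (p.1 * p.2) = g then (1 : ℂ) else 0) - 1 / (Nat.card (Df t c m E) : ℂ)) =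
      ((∑ n ∈ (range (X + 1)).filter (fun n => 1 ≤ n + t ∧ n ≡ a [MOD q] ∧
        Squarefree (n ^ 2 + t * n + c)),
        ((if H (n ^ 2 + t * n + c) = g then (1 : ℝ) else 0) -
          1 / (Nat.card (Df t c m E) : ℝ)) * (wt t c q r s₁ s₂ s₃ s₄ X n : ℝ) : ℝ) : ℂ) := by
    convert h8
  rw [h9, Complex.norm_real, Real.norm_eq_abs]

open scoped Classical in
/-- the number of `n` -/
noncomputable def cv (t c q a : ℕ) (H : ℕ → A) (g : A) (X : ℕ) : ℕ :=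
  ((range (X + 1)).filter (fun n : ℕ => 1 ≤ n + t ∧ n ≡ a [MOD q] ∧
    Squarefree (n ^ 2 + t * n + c) ∧ H (n ^ 2 + t * n + c) = g)).card

omit [AddCommGroup A] in
theorem cv_mono (t c q a : ℕ) (H : ℕ → A) (g : A) : Monotone (cv t c q a H g) := by
  classical
  intro X Y h
  unfold cv
  refine card_le_card fun n hn => ?_
  rw [mem_filter, mem_range] at hn ⊢
  exact ⟨by omega, hn.2⟩

open scoped Classical in
/-- all values in a residue class, at almost all scales -/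
theorem outCv [Finite A] (hF : Fd (t : ℤ) (c : ℤ) f χ) (hS : S_SPSc (t : ℤ) (c : ℤ))
    (h : Gv t c m E τ H) (g : A) (q a : ℕ) (hq : 1 ≤ q) (hal : Al t c m q a E H g)
    (hqa : ∀ l : ℕ, l.Prime → l ^ 2 ∣ q → ¬ l ^ 2 ∣ a ^ 2 + t * a + c) (ε : ℝ) (hε : 0 < ε) :
    Tendsto (fun Z : ℕ => (∑ X ∈ (Icc 1 Z).filter (fun X : ℕ =>
      (cv t c q a H g X : ℝ) < (X : ℝ) / Real.log X ^ (Real.log 2 + ε)), 1 / (X : ℝ)) /
      Real.log Z) atTop (nhds 0) := by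
  have ht := t_le hF
  have hc := c_pos hF
  obtain ⟨D, hD⟩ : ∃ D : AddSubgroup A, D = Df t c m E := ⟨_, rfl⟩
  obtain ⟨k, hk⟩ : ∃ k : ℕ, k = Nat.card D := ⟨_, rfl⟩
  have hk0 : (0 : ℝ) < k := by
    rw [hk]
    exact_mod_cast Nat.card_pos
  obtain ⟨c₁, hc₁, X₀, hlow⟩ := hS q a hq
    (fun l hl hlq hd => hqa l hl hlq (by exact_mod_cast hd))
  obtain ⟨N₁, hpn⟩ := Pool.Agent.TH890.DV.pnL hF (c₁ / (2 * k)) ε (by positivity) hε
  obtain ⟨G, hG⟩ : ∃ G : ℕ × ℕ → ℂ, G = fun p => ((if H (p.1 * p.2) = g then (1 : ℂ) else 0) -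
    1 / (Nat.card D : ℂ)) := ⟨_, rfl⟩
  have hnull : Tendsto (fun Z : ℕ => (∑ X ∈ (Icc 1 Z).filter (fun X : ℕ => c₁ / (2 * k) * X <
      ∑ r ∈ range q, ‖∑ p ∈ (SW (t : ℤ) (c : ℤ) q a r 0 1 0 1 X).filter
      (fun p => Squarefree (p.1 * p.2)), G p‖), 1 / (X : ℝ)) / Real.log Z)
      atTop (nhds 0) := by
    have hav : ∀ (r : ℕ) (δ : ℝ), 0 < δ → ∃ N₀ : ℕ, ∀ N' : ℕ, N₀ ≤ N' →
        ∑ X ∈ Icc 1 N', 1 / (X : ℝ) ^ 2 *
        ‖∑ p ∈ (SW (t : ℤ) (c : ℤ) q a r 0 1 0 1 X).filter (fun p => Squarefree (p.1 * p.2)),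
          G p‖ ≤ δ * Real.log N' := by
      intro r δ hδ
      have h9 := avg_ts hF h g q a r hq hal 0 1 0 1 le_rfl one_pos le_rfl le_rfl one_pos le_rfl
        δ hδ
      rw [hG, hD]
      exact h9
    have hav2 := fun r : ℕ => tt _ (hav r)
    exact sum_null hq (fun r _ => hav2 r) (c₁ / (2 * k)) (by positivity)
  refine null_of (max X₀ N₁) (fun X hX hlt => ?_) hnull
  by_contra hcon
  push Not at hcon
  have h1 := hlow X ((le_max_left _ _).trans hX)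
  obtain ⟨B, hB⟩ : ∃ B : Finset (ℕ × ℕ), B = (SP (t : ℤ) (c : ℤ) X).filter
    (fun p => Squarefree (p.1 * p.2) ∧ ∃ n : ℕ, 0 < 2 * (n : ℤ) + (t : ℤ) ∧
      (p.1 * p.2 : ℤ) = (n : ℤ) ^ 2 + (t : ℤ) * n + (c : ℤ) ∧ n ≡ a [MOD q]) := ⟨_, rfl⟩
  rw [← hB] at h1
  have hBm : ∀ p ∈ B, p ∈ SP (t : ℤ) (c : ℤ) X ∧ Squarefree (p.1 * p.2) ∧ 1 ≤ p.1 ∧ p.1 ≤ X ∧
      1 ≤ p.2 ∧ p.2 ≤ X ∧ ∃ n : ℕ, 1 ≤ n + t ∧ p.1 * p.2 = n ^ 2 + t * n + c ∧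
      n ≡ a [MOD q] := by
    intro p hp
    rw [hB] at hp
    obtain ⟨h2, h3, n, h4, h5, h6⟩ := mem_filter.1 hp
    obtain ⟨h7, h8⟩ := (fcond n p.1 p.2).1 ⟨h4, h5⟩
    have h9 := h2
    unfold SP at h9
    simp only [mem_filter, mem_product, mem_Icc] at h9
    exact ⟨h2, h3, h9.1.1.1, h9.1.1.2, h9.1.2.1, h9.1.2.2, n, h7, h8, h6⟩
  -- the sum over `B`
  have hsum : ‖∑ p ∈ B, G p‖ ≤ c₁ / (2 * k) * X := by
    refine le_trans ?_ hcon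
    have h2 : ∑ p ∈ B, G p = ∑ r ∈ range q,
        ∑ p ∈ (SW (t : ℤ) (c : ℤ) q a r 0 1 0 1 X).filter (fun p => Squarefree (p.1 * p.2)),
        G p := by
      rw [← sum_fiberwise_of_maps_to (s := B) (t := range q) (g := fun p : ℕ × ℕ => p.1 % q)
        (fun p _ => mem_range.2 (Nat.mod_lt _ (by omega)))]
      refine sum_congr rfl fun r hr => ?_
      refine sum_congr ?_ fun _ _ => rfl
      have hr' : r % q = r := Nat.mod_eq_of_lt (mem_range.1 hr)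
      ext p
      rw [mem_filter, mem_filter, mem_SWn]
      constructor
      · rintro ⟨h3, h4⟩
        obtain ⟨h5, h6, h7, h8, h9, h10, n, h11, h12, h13⟩ := hBm p h3
        refine ⟨⟨⟨⟨h7, h8⟩, h9, h10⟩, ⟨n, h11, h12, h13, ?_⟩, ?_, ?_, ?_, ?_⟩, h6⟩
        · show p.1 % q = r % q
          rw [h4, hr']
        · rw [zero_mul]; exact_mod_cast h7
        · rw [one_mul]; exact_mod_cast h8
        · rw [zero_mul]; exact_mod_cast h9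
        · rw [one_mul]; exact_mod_cast h10
      · rintro ⟨⟨⟨h3, h4⟩, ⟨n, h5, h6, h7, h8⟩, _⟩, h9⟩
        have h10 := (fcond n p.1 p.2).2 ⟨h5, h6⟩
        refine ⟨?_, ?_⟩
        · rw [hB]
          refine mem_filter.2 ⟨?_, h9, n, h10.1, h10.2, h7⟩
          unfold SP
          rw [mem_filter, mem_product, mem_Icc, mem_Icc]
          exact ⟨⟨h3, h4⟩, n, h10.1, h10.2⟩
        · have h11 : p.1 % q = r % q := h8
          rw [h11, hr']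
    rw [h2]
    exact norm_sum_le _ _
  -- the pairs with the value `g`
  obtain ⟨S, hSd⟩ : ∃ S : Finset (ℕ × ℕ), S = B.filter
    (fun p => H (p.1 * p.2) = g) := ⟨_, rfl⟩
  have hS1 : c₁ / (2 * k) * X ≤ (S.card : ℝ) := by
    have h2 : ∑ p ∈ B, G p = (((S.card : ℝ) - 1 / k * B.card : ℝ) : ℂ) := by
      rw [hG, sum_sub_distrib, sum_boole, hSd, sum_const, nsmul_eq_mul, ← hk]
      push_cast
      ring
    rw [h2, Complex.norm_real, Real.norm_eq_abs] at hsum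
    have h5 := (abs_le.1 hsum).1
    have h6 : 1 / (k : ℝ) * (c₁ * X) ≤ 1 / k * B.card :=
      mul_le_mul_of_nonneg_left h1 (by positivity)
    have h7 : 1 / (k : ℝ) * (c₁ * X) = c₁ / (2 * k) * X + c₁ / (2 * k) * X := by
      field_simp
      ring
    linarith
  have hSm : ∀ p ∈ S, p ∈ B ∧ H (p.1 * p.2) = g := by
    intro p hp
    rw [hSd] at hp
    exact mem_filter.1 hp
  have h3 := hpn X ((le_max_right _ _).trans hX) S
    (fun p hp => ⟨(hBm p (hSm p hp).1).1, (hBm p (hSm p hp).1).2.1⟩) hS1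
  have h4 : (S.image (fun p : ℕ × ℕ => Nat.sqrt (p.1 * p.2 - c))).card ≤ cv t c q a H g X := by
    unfold cv
    refine card_le_card fun n hn => ?_
    obtain ⟨p, hp, rfl⟩ := mem_image.1 hn
    obtain ⟨hpB, hpe⟩ := hSm p hp
    obtain ⟨_, hsf, _, h8, _, h10, n, h11, h12, h13⟩ := hBm p hpB
    have h14 : Nat.sqrt (p.1 * p.2 - c) = n := by
      rw [h12]
      exact fsqrt ht n
    rw [h14, mem_filter, mem_range, ← h12]
    refine ⟨?_, h11, h13, hsf, hpe⟩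
    by_contra hcon2
    push Not at hcon2
    have h15 : p.1 * p.2 ≤ X * X := Nat.mul_le_mul h8 h10
    nlinarith [Nat.zero_le (t * n)]
  have h5 : ((S.image (fun p : ℕ × ℕ => Nat.sqrt (p.1 * p.2 - c))).card : ℝ) ≤
      cv t c q a H g X := by
    exact_mod_cast h4
  linarith

/-- all large scales -/
theorem outCvAll [Finite A] (hF : Fd (t : ℤ) (c : ℤ) f χ) (hS : S_SPSc (t : ℤ) (c : ℤ))
    (h : Gv t c m E τ H) (g : A) (q a : ℕ) (hq : 1 ≤ q) (hal : Al t c m q a E H g)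
    (hqa : ∀ l : ℕ, l.Prime → l ^ 2 ∣ q → ¬ l ^ 2 ∣ a ^ 2 + t * a + c) (δ : ℝ) (hδ : 0 < δ) :
    ∃ N₀ : ℕ, ∀ N : ℕ, N₀ ≤ N → (N : ℝ) ^ (1 - δ) ≤ cv t c q a H g N := by
  refine all_of (cv_mono t c q a H g) (fun ε hε => ?_) δ hδ
  have hl2 := Real.log_pos (show (1 : ℝ) < 2 by norm_num)
  have h1 := outCv hF hS h g q a hq hal hqa (Real.log 2 + ε) (by linarith)
  have h2 : Real.log 2 + (Real.log 2 + ε) = 2 * Real.log 2 + ε := by ring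
  rwa [h2] at h1

end

end Pool.Agent.V11296.CV
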