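import Pool.Agent.V11296.CV3

/-!
Class vectors (helper296), part 4: the residue classes which contain an odd number of the prime
factors.
-/

set_option autoImplicit false

namespace Pool.Agent.V11296.CV

open Finset Filter
open Pool.Agent.W251.EG
open Pool.Agent.W78.EG

open scoped Classical in
/-- the number of the prime factors of `N` in a residue class, counted with multiplicity -/
noncomputable def cb (m N : ℕ) (b : ZMod m) : ℕ :=
  N.primeFactorsList.countP (fun p : ℕ => (p : ZMod m) = b)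

open scoped Classical in
/-- the residue classes mod `m`, prime to `m`, with an odd number of the prime factors of `N`,
counted with multiplicity -/
noncomputable def oddc (m : ℕ) [NeZero m] (N : ℕ) : Finset (ZMod m)ˣ :=
  univ.filter (fun b => Odd (cb m N b))

/-- the values of the norm form prime to `m` -/
def isN (t c m : ℕ) (b : ZMod m) : Prop := ∃ x y : ℤ,
  IsCoprime (x ^ 2 + t * x * y + c * y ^ 2) (m : ℤ) ∧
  ((x ^ 2 + t * x * y + c * y ^ 2 : ℤ) : ZMod m) = b

/-- the finite group -/
abbrev Ak (m k : ℕ) : Type := ZMod k × ((ZMod m)ˣ → ZMod 2)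

open scoped Classical in
/-- the vector of a residue class -/
noncomputable def ev (m : ℕ) (b : ZMod m) : (ZMod m)ˣ → ZMod 2 := fun x => if b = x then 1 else 0

open scoped Classical in
/-- the function on the integers -/
noncomputable def Hk (m k : ℕ) (N : ℕ) : Ak m k :=
  ((N.primeFactorsList.length : ZMod k), fun b : (ZMod m)ˣ => ((cb m N b : ℕ) : ZMod 2))

/-- the function on the classes -/
noncomputable def Ek (t c m k : ℕ) (x y : ℤ) : Ak m k :=
  (1, ev m ((x ^ 2 + t * x * y + c * y ^ 2 : ℤ) : ZMod m))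

theorem Hk_prime (m k p : ℕ) (hp : p.Prime) : Hk m k p = (1, ev m (p : ZMod m)) := by
  unfold Hk ev cb
  rw [Nat.primeFactorsList_prime hp]
  refine Prod.ext ?_ ?_
  · simp
  · funext b
    by_cases h : (p : ZMod m) = b
    · simp [h]
    · simp [h]

theorem gvk (t c m k : ℕ) (hm : 1 ≤ m) : Gv t c m (Ek t c m k) ((2, 0) : Ak m k) (Hk m k) where
  pos := hm
  add := by
    intro x y hx hy
    unfold Hk
    have h1 := Nat.perm_primeFactorsList_mul hx hy
    refine Prod.ext ?_ ?_
    · show ((Nat.primeFactorsList (x * y)).length : ZMod k) = _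
      rw [h1.length_eq, List.length_append]
      push_cast
      rfl
    · funext b
      show ((cb m (x * y) b : ℕ) : ZMod 2) = ((cb m x b : ℕ) : ZMod 2) + ((cb m y b : ℕ) : ZMod 2)
      unfold cb
      rw [h1.countP_eq, List.countP_append]
      push_cast
      rfl
  two := by
    intro p hp
    rw [Hk_prime m k p hp]
    refine Prod.ext ?_ ?_
    · show (1 : ZMod k) + 1 = 2
      norm_num
    · show ev m (p : ZMod m) + ev m (p : ZMod m) = 0
      exact CharTwo.add_self_eq_zero _
  per := by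
    intro x y u v h1 h2
    unfold Ek
    have h3 : (x : ZMod m) = u := (ZMod.intCast_eq_intCast_iff _ _ _).2 h1
    have h4 : (y : ZMod m) = v := (ZMod.intCast_eq_intCast_iff _ _ _).2 h2
    push_cast
    rw [h3, h4]
  val := by
    intro x y p hp _ hxy
    rw [Hk_prime m k p hp]
    unfold Ek
    rw [hxy]
    push_cast
    rfl

section

variable {t c m k : ℕ}

theorem isN_mul {a b : ZMod m} (ha : isN t c m a) (hb : isN t c m b) : isN t c m (a * b) := by
  obtain ⟨x, y, h1, h2⟩ := ha
  obtain ⟨u, v, h3, h4⟩ := hb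
  have h5 : (x * u - c * y * v) ^ 2 + t * (x * u - c * y * v) * (x * v + y * u + t * y * v) +
      c * (x * v + y * u + t * y * v) ^ 2 =
      (x ^ 2 + t * x * y + c * y ^ 2) * (u ^ 2 + t * u * v + c * v ^ 2) := by ring
  refine ⟨x * u - c * y * v, x * v + y * u + t * y * v, ?_, ?_⟩
  · rw [h5]
    exact h1.mul_left h3
  · rw [h5, Int.cast_mul, h2, h4]

theorem isN_one : isN t c m 1 := by
  refine ⟨1, 0, ?_, ?_⟩
  · have : (1 : ℤ) ^ 2 + t * 1 * 0 + c * 0 ^ 2 = 1 := by ring
    rw [this]
    exact isCoprime_one_left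
  · simp

/-- defects -/
theorem dfk {a b : ZMod m} (ha : isN t c m a) (hb : isN t c m b) :
    ((1, ev m a + ev m b - ev m (a * b)) : Ak m k) ∈ Df t c m (Ek t c m k) := by
  obtain ⟨x, y, h1, h2⟩ := ha
  obtain ⟨u, v, h3, h4⟩ := hb
  refine AddSubgroup.subset_closure ⟨x, y, u, v, h1, h3, ?_⟩
  unfold Ek
  have h5 : (x * u - c * y * v) ^ 2 + t * (x * u - c * y * v) * (x * v + y * u + t * y * v) +
      c * (x * v + y * u + t * y * v) ^ 2 =
      (x ^ 2 + t * x * y + c * y ^ 2) * (u ^ 2 + t * u * v + c * v ^ 2) := by ring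
  rw [h5, Int.cast_mul, h2, h4]
  refine Prod.ext ?_ rfl
  show (1 : ZMod k) = 1 + 1 - 1
  ring

theorem df_one : ((1, ev m 1) : Ak m k) ∈ Df t c m (Ek t c m k) := by
  have h := dfk (k := k) (isN_one (t := t) (c := c) (m := m)) isN_one
  simpa using h

theorem df_two : ((2, 0) : Ak m k) ∈ Df t c m (Ek t c m k) := by
  have h := add_mem (df_one (t := t) (c := c) (m := m) (k := k)) df_one
  have h1 : ((1, ev m 1) : Ak m k) + (1, ev m 1) = (2, 0) := by
    refine Prod.ext ?_ ?_
    · show (1 : ZMod k) + 1 = 2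
      norm_num
    · exact CharTwo.add_self_eq_zero _
  rwa [h1] at h

/-- subsets of the group of norms -/
theorem df_set (T : Finset (ZMod m)ˣ) (hT : ∀ b ∈ T, isN t c m b) :
    isN t c m (∏ b ∈ T, (b : ZMod m)) ∧
    (((T.card : ZMod k), ∑ b ∈ T, ev m b) - (1, ev m (∏ b ∈ T, (b : ZMod m))) : Ak m k) ∈
      Df t c m (Ek t c m k) := by
  classical
  induction T using Finset.induction_on with
  | empty =>
    refine ⟨by simpa using isN_one, ?_⟩
    have h := neg_mem (df_one (t := t) (c := c) (m := m) (k := k))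
    have h1 : (((∅ : Finset (ZMod m)ˣ).card : ZMod k), ∑ b ∈ (∅ : Finset (ZMod m)ˣ), ev m b) -
        (1, ev m (∏ b ∈ (∅ : Finset (ZMod m)ˣ), (b : ZMod m))) = -((1, ev m 1) : Ak m k) := by
      refine Prod.ext ?_ ?_
      · simp
      · simp
    rw [h1]
    exact h
  | insert b T hb ih =>
    obtain ⟨h1, h2⟩ := ih (fun x hx => hT x (mem_insert_of_mem hx))
    have h3 := hT b (mem_insert_self _ _)
    refine ⟨?_, ?_⟩
    · rw [prod_insert hb]
      exact isN_mul h3 h1
    · have h4 := dfk (k := k) h3 h1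
      have h5 := add_mem h2 h4
      have h6 : (((insert b T).card : ZMod k), ∑ b ∈ insert b T, ev m b) -
          (1, ev m (∏ b ∈ insert b T, (b : ZMod m))) =
          (((T.card : ZMod k), ∑ b ∈ T, ev m b) - (1, ev m (∏ b ∈ T, (b : ZMod m))) : Ak m k) +
          (1, ev m b + ev m (∏ b ∈ T, (b : ZMod m)) - ev m (b * ∏ b ∈ T, (b : ZMod m))) := by
        rw [card_insert_of_notMem hb, sum_insert hb, prod_insert hb]
        refine Prod.ext ?_ ?_
        · show ((T.card + 1 : ℕ) : ZMod k) - 1 = (T.card : ZMod k) - 1 + 1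
          push_cast
          ring
        · show ev m b + ∑ b ∈ T, ev m b - ev m (b * ∏ b ∈ T, (b : ZMod m)) =
            ∑ b ∈ T, ev m b - ev m (∏ b ∈ T, (b : ZMod m)) +
            (ev m b + ev m (∏ b ∈ T, (b : ZMod m)) - ev m (b * ∏ b ∈ T, (b : ZMod m)))
          abel
      rw [h6]
      exact h5

/-- squares of norms -/
theorem df_sq {a s : ZMod m} (ha : isN t c m a) (hs : isN t c m s) :
    ((0, ev m (a * s ^ 2) - ev m a) : Ak m k) ∈ Df t c m (Ek t c m k) := by
  have h1 := dfk (k := k) hs hs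
  have h2 := dfk (k := k) ha (isN_mul hs hs)
  have h3 := sub_mem h1 h2
  have h4 : ((1, ev m s + ev m s - ev m (s * s)) : Ak m k) -
      (1, ev m a + ev m (s * s) - ev m (a * (s * s))) = (0, ev m (a * s ^ 2) - ev m a) := by
    refine Prod.ext ?_ ?_
    · show (1 : ZMod k) - 1 = 0
      ring
    · show ev m s + ev m s - ev m (s * s) - (ev m a + ev m (s * s) - ev m (a * (s * s))) =
        ev m (a * s ^ 2) - ev m a
      have h5 : ev m s + ev m s = 0 := CharTwo.add_self_eq_zero _
      have h6 : ev m (s * s) + ev m (s * s) = 0 := CharTwo.add_self_eq_zero _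
      rw [h5, pow_two]
      have h7 : (0 : (ZMod m)ˣ → ZMod 2) - ev m (s * s) -
          (ev m a + ev m (s * s) - ev m (a * (s * s))) =
          ev m (a * (s * s)) - ev m a - (ev m (s * s) + ev m (s * s)) := by abel
      rw [h7, h6, sub_zero]
  rwa [h4] at h3

/-- multiples -/
theorem df_mul (z : ℤ) (hz : 2 ∣ k → 2 ∣ z) :
    (((z : ZMod k), 0) : Ak m k) ∈ Df t c m (Ek t c m k) := by
  obtain ⟨l, w, hl⟩ : ∃ l w : ℤ, z + k * l = w * 2 := by
    rcases Nat.even_or_odd k with hk | hk
    · obtain ⟨w, hw⟩ := hz hk.two_dvd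
      exact ⟨0, w, by rw [hw]; ring⟩
    · obtain ⟨k', hk'⟩ := hk
      rcases Int.even_or_odd z with ⟨w, hw⟩ | ⟨w, hw⟩
      · exact ⟨0, w, by rw [hw]; ring⟩
      · exact ⟨1, w + k' + 1, by rw [hw, hk']; push_cast; ring⟩
  have h1 := zsmul_mem (df_two (t := t) (c := c) (m := m) (k := k)) w
  have h2 : w • ((2, 0) : Ak m k) = ((z : ZMod k), 0) := by
    refine Prod.ext ?_ ?_
    · show w • (2 : ZMod k) = (z : ZMod k)
      have h3 : ((w * 2 : ℤ) : ZMod k) = ((z + k * l : ℤ) : ZMod k) := by rw [hl]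
      rw [zsmul_eq_mul]
      push_cast at h3
      rw [h3]
      simp
    · show w • (0 : (ZMod m)ˣ → ZMod 2) = 0
      rw [smul_zero]
  rwa [h2] at h1

/-- the vector of a set of classes -/
theorem sum_ev [NeZero m] (T : Finset (ZMod m)ˣ) (x : (ZMod m)ˣ) :
    (∑ b ∈ T, ev m (b : ZMod m)) x = if x ∈ T then 1 else 0 := by
  classical
  rw [Finset.sum_apply]
  unfold ev
  have h1 : ∀ b ∈ T, (if ((b : ZMod m)) = (x : ZMod m) then (1 : ZMod 2) else 0) =
      if x = b then 1 else 0 := by
    intro b _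
    by_cases h : x = b
    · rw [h]
      simp
    · have : ¬ ((b : ZMod m)) = (x : ZMod m) := fun h2 => h (Units.ext h2).symm
      rw [if_neg this, if_neg h]
  rw [sum_congr rfl h1, sum_ite_eq]

/-- the values with given classes -/
theorem Hk_eq_iff [NeZero m] (N J : ℕ) (T : Finset (ZMod m)ˣ) :
    Hk m k N = (((J : ZMod k), ∑ b ∈ T, ev m (b : ZMod m)) : Ak m k) ↔
      (N.primeFactorsList.length ≡ J [MOD k] ∧ oddc m N = T) := by
  classical
  unfold Hk
  rw [Prod.ext_iff]
  refine and_congr ?_ ?_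
  · exact ZMod.natCast_eq_natCast_iff _ _ _
  · rw [funext_iff]
    constructor
    · intro h
      ext x
      have h1 : ((cb m N x : ℕ) : ZMod 2) = (∑ b ∈ T, ev m (b : ZMod m)) x := h x
      unfold oddc
      rw [mem_filter]
      simp only [mem_univ, true_and]
      rw [sum_ev] at h1
      rw [← ZMod.natCast_ne_zero_iff_odd, h1]
      by_cases h3 : x ∈ T
      · simp [h3]
      · simp [h3]
    · intro h x
      have h1 : x ∈ oddc m N ↔ x ∈ T := by rw [h]
      unfold oddc at h1
      rw [mem_filter] at h1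
      simp only [mem_univ, true_and] at h1
      show ((cb m N x : ℕ) : ZMod 2) = (∑ b ∈ T, ev m (b : ZMod m)) x
      rw [sum_ev]
      by_cases h3 : x ∈ T
      · rw [if_pos h3]
        obtain ⟨w, hw⟩ := h1.2 h3
        rw [hw]
        push_cast
        rw [show (2 : ZMod 2) = 0 from rfl]
        ring
      · rw [if_neg h3]
        have h4 : ¬ Odd (cb m N x) := fun h5 => h3 (h1.1 h5)
        rw [Nat.not_odd_iff_even] at h4
        exact (ZMod.natCast_eq_zero_iff_even).2 h4

end

end Pool.Agent.V11296.CV
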