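import Pool.Agent.V11296.CV4

/-!
Class vectors (helper296), part 5: admissible values.
-/

set_option autoImplicit false

namespace Pool.Agent.V11296.CV

open Finset Filter
open Pool.Agent.W251.EG
open Pool.Agent.W78.EG

section

variable {t c : ℕ} {f : ℕ} {χ : DirichletCharacter ℂ f}

theorem F_mod {m q a n : ℕ} (hm : m ∣ q) (hn : n ≡ a [MOD q]) :
    n ^ 2 + t * n + c ≡ a ^ 2 + t * a + c [MOD m] := by
  have h1 : n ≡ a [MOD m] := hn.of_dvd hm
  exact ((h1.pow 2).add (h1.mul_left t)).add_right c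

theorem F_cop {m q a n : ℕ} (hm : m ∣ q) (hn : n ≡ a [MOD q])
    (ha : (a ^ 2 + t * a + c).Coprime m) : (n ^ 2 + t * n + c).Coprime m := by
  have h1 := F_mod (t := t) (c := c) hm hn
  unfold Nat.Coprime at ha ⊢
  rw [h1.gcd_eq]
  exact ha

/-- admissible values -/
theorem al_of {A : Type} [AddCommGroup A] (hF : Fd (t : ℤ) (c : ℤ) f χ) {m : ℕ} {E : ℤ → ℤ → A}
    {τ : A} {H : ℕ → A} (h : Gv t c m E τ H) {q a : ℕ} {g : A}
    (hg : Df t c m E = ⊤ ∨ (m ∣ q ∧ (a ^ 2 + t * a + c).Coprime m ∧ E a 1 - g ∈ Df t c m E)) :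
    Al t c m q a E H g := by
  intro n hn
  rcases hg with h1 | ⟨h1, h2, h3⟩
  · rw [h1]
    exact AddSubgroup.mem_top _
  · have h4 := val_F hF h n (F_cop h1 hn h2)
    have h5 : E n 1 = E a 1 := by
      refine h.per _ _ _ _ ?_ rfl
      exact (Int.natCast_modEq_iff).2 (hn.of_dvd h1)
    rw [h5] at h4
    have h6 := add_mem h4 h3
    have h7 : H (n ^ 2 + t * n + c) - E a 1 + (E a 1 - g) = H (n ^ 2 + t * n + c) - g := by abel
    rwa [h7] at h6

end

open scoped Classical in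
/-- the number of `n` -/
noncomputable def ck (t c q a m k J : ℕ) [NeZero m] (T : Finset (ZMod m)ˣ) (X : ℕ) : ℕ :=
  ((range (X + 1)).filter (fun n : ℕ => 1 ≤ n + t ∧ n ≡ a [MOD q] ∧
    Squarefree (n ^ 2 + t * n + c) ∧ (n ^ 2 + t * n + c).primeFactorsList.length ≡ J [MOD k] ∧
    oddc m (n ^ 2 + t * n + c) = T)).card

theorem ck_eq (t c q a m k J : ℕ) [NeZero m] (T : Finset (ZMod m)ˣ) (X : ℕ) :
    ck t c q a m k J T X = cv t c q a (Hk m k)
      (((J : ZMod k), ∑ b ∈ T, ev m (b : ZMod m)) : Ak m k) X := by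
  classical
  unfold ck cv
  congr 1
  ext n
  simp only [mem_filter]
  rw [Hk_eq_iff]

end Pool.Agent.V11296.CV
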