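import Pool.Agent.V11296.CV5

/-!
Class vectors (helper296), part 6: the patterns which occur are admissible.
-/

set_option autoImplicit false

namespace Pool.Agent.V11296.CV

open Finset Filter
open Pool.Agent.W78.GA (Qd nm nm_cast nm_mul nm_pos mul_star_self' prim prim_iff prim_of_dvd
  prim_star prim_ne_zero)
open Pool.Agent.W251.EG
open Pool.Agent.W78.EG

section

variable {t c m k : ℕ}

open scoped Classical in
/-- lists of integers prime to `m` -/
theorem list_classes [NeZero m] (L : List ℕ) (hL : ∀ p ∈ L, p.Coprime m) :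
    ∑ b : (ZMod m)ˣ, L.countP (fun p : ℕ => (p : ZMod m) = b) = L.length ∧
    ∏ b : (ZMod m)ˣ, (b : ZMod m) ^ (L.countP (fun p : ℕ => (p : ZMod m) = b)) =
      ((L.prod : ℕ) : ZMod m) := by
  induction L with
  | nil => simp
  | cons p L ih =>
    obtain ⟨h1, h2⟩ := ih (fun x hx => hL x (List.mem_cons_of_mem _ hx))
    have hp := hL p (List.mem_cons_self ..)
    obtain ⟨u, hu⟩ : ∃ u : (ZMod m)ˣ, (u : ZMod m) = p := ⟨ZMod.unitOfCoprime p hp, by simp⟩
    have h3 : ∀ b : (ZMod m)ˣ, (p :: L).countP (fun p : ℕ => (p : ZMod m) = b) =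
        L.countP (fun p : ℕ => (p : ZMod m) = b) + if b = u then 1 else 0 := by
      intro b
      rw [List.countP_cons]
      congr 1
      by_cases hb : b = u
      · rw [hb, hu]
        simp
      · have h4 : ¬ ((p : ZMod m) = b) := by
          rw [← hu]
          exact fun h5 => hb (Units.ext h5).symm
        rw [if_neg hb, if_neg]
        simpa using h4
    simp only [h3]
    refine ⟨?_, ?_⟩
    · rw [sum_add_distrib, h1, List.length_cons]
      simp
    · have h4 : ∀ b : (ZMod m)ˣ, (b : ZMod m) ^ (L.countP (fun p : ℕ => (p : ZMod m) = b) +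
          if b = u then 1 else 0) = (b : ZMod m) ^ (L.countP (fun p : ℕ => (p : ZMod m) = b)) *
          if b = u then (u : ZMod m) else 1 := by
        intro b
        rw [pow_add]
        congr 1
        by_cases hb : b = u
        · rw [if_pos hb, if_pos hb, hb, pow_one]
        · rw [if_neg hb, if_neg hb, pow_zero]
      rw [prod_congr rfl (fun b _ => h4 b), prod_mul_distrib, h2, prod_ite_eq' univ u
        (fun _ => (u : ZMod m)), if_pos (mem_univ _), hu, List.prod_cons]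
      push_cast
      ring

/-- products of norms -/
theorem isN_prod {ι : Type} (S : Finset ι) (g : ι → ZMod m) (h : ∀ i ∈ S, isN t c m (g i)) :
    isN t c m (∏ i ∈ S, g i) := by
  classical
  induction S using Finset.induction_on with
  | empty => simpa using isN_one
  | insert i S hi ih =>
    rw [prod_insert hi]
    exact isN_mul (h i (mem_insert_self _ _)) (ih fun j hj => h j (mem_insert_of_mem hj))

theorem isN_pow {b : ZMod m} (h : isN t c m b) (j : ℕ) : isN t c m (b ^ j) := by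
  induction j with
  | zero => simpa using isN_one
  | succ j ih =>
    rw [pow_succ]
    exact isN_mul ih h

end

section

variable {t c : ℕ} {f : ℕ} {χ : DirichletCharacter ℂ f}

/-- the admissible patterns -/
def Adm (t c m k a J : ℕ) (T : Finset (ZMod m)ˣ) : Prop :=
  (∀ b ∈ T, isN t c m b) ∧ (2 ∣ k → T.card ≡ J [MOD 2]) ∧
  ∃ s : ZMod m, isN t c m s ∧
    ((a ^ 2 + t * a + c : ℕ) : ZMod m) = s ^ 2 * ∏ b ∈ T, (b : ZMod m)

/-- necessity -/
theorem nec (hF : Fd (t : ℤ) (c : ℤ) f χ) {m k : ℕ} [NeZero m] {q a J n : ℕ}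
    (hmq : m ∣ q) (ha : (a ^ 2 + t * a + c).Coprime m) (T : Finset (ZMod m)ˣ)
    (hn : n ≡ a [MOD q]) (hJ : (n ^ 2 + t * n + c).primeFactorsList.length ≡ J [MOD k])
    (hT : oddc m (n ^ 2 + t * n + c) = T) : Adm t c m k a J T := by
  classical
  have hD := hDG hF
  have hc := c_pos hF
  have hcop := F_cop hmq hn ha
  have hpos := fpos (t := t) hc n
  obtain ⟨N, hN⟩ : ∃ N : ℕ, N = n ^ 2 + t * n + c := ⟨_, rfl⟩
  rw [← hN] at hcop hpos hJ hT
  have hpr : prim (⟨(n : ℤ), 1⟩ : Qd (t : ℤ) (c : ℤ)) := by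
    unfold prim
    simp
  have hnm : nm (⟨(n : ℤ), 1⟩ : Qd (t : ℤ) (c : ℤ)) = N := by
    have h2 : ((nm (⟨(n : ℤ), 1⟩ : Qd (t : ℤ) (c : ℤ)) : ℕ) : ℤ) = ((N : ℕ) : ℤ) := by
      rw [nm_cast hD, hN]
      push_cast
      ring
    exact_mod_cast h2
  -- the classes of the prime factors are classes of norms
  have hcl : ∀ b : (ZMod m)ˣ, cb m N b ≠ 0 → isN t c m b := by
    intro b hb
    unfold cb at hb
    obtain ⟨p, hp1, hp2⟩ := List.countP_pos_iff.1 (Nat.pos_of_ne_zero hb)
    have hp3 : (p : ZMod m) = b := by simpa using hp2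
    have hp := Nat.prime_of_mem_primeFactorsList hp1
    have hpN := Nat.dvd_of_mem_primeFactorsList hp1
    obtain ⟨π, w, _, h5⟩ := prime_above hF hpr hp (by rw [hnm]; exact hpN)
    have h6 := nm_cast hD π
    rw [h5] at h6
    refine ⟨π.re, π.im, ?_, ?_⟩
    · rw [← h6]
      exact Nat.isCoprime_iff_coprime.2 (Nat.Coprime.coprime_dvd_left hpN hcop)
    · rw [← h6, ← hp3]
      simp
  have hLc : ∀ p ∈ N.primeFactorsList, p.Coprime m := fun p hp =>
    Nat.Coprime.coprime_dvd_left (Nat.dvd_of_mem_primeFactorsList hp) hcop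
  obtain ⟨h1, h2⟩ := list_classes N.primeFactorsList hLc
  have h1' : ∑ b : (ZMod m)ˣ, cb m N b = N.primeFactorsList.length := h1
  have h2' : ∏ b : (ZMod m)ˣ, (b : ZMod m) ^ (cb m N b) = (N : ZMod m) := by
    rw [Nat.prod_primeFactorsList hpos.ne'] at h2
    exact h2
  have hTm : ∀ b : (ZMod m)ˣ, b ∈ T ↔ Odd (cb m N b) := by
    intro b
    rw [← hT]
    unfold oddc
    rw [mem_filter]
    simp
  refine ⟨fun b hb => hcl b ?_, fun hk => ?_, ∏ b : (ZMod m)ˣ, (b : ZMod m) ^ (cb m N b / 2),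
    ?_, ?_⟩
  · intro h0
    have h3 := (hTm b).1 hb
    rw [h0] at h3
    exact absurd h3 (by decide)
  · have h3 : N.primeFactorsList.length ≡ J [MOD 2] := hJ.of_dvd hk
    refine Nat.ModEq.trans ?_ h3
    rw [← h1']
    have h4 := Finset.odd_sum_iff_odd_card_odd (s := (univ : Finset (ZMod m)ˣ))
      (fun b : (ZMod m)ˣ => cb m N (b : ZMod m))
    have h5 : (univ : Finset (ZMod m)ˣ).filter
        (fun b : (ZMod m)ˣ => Odd (cb m N (b : ZMod m))) = T := by
      ext b
      rw [mem_filter, hTm b]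
      simp
    rw [h5] at h4
    unfold Nat.ModEq
    rcases Nat.even_or_odd T.card with h6 | h6
    · have h7 : Even (∑ b : (ZMod m)ˣ, cb m N b) := by
        rw [← Nat.not_odd_iff_even, h4, Nat.not_odd_iff_even]
        exact h6
      rw [Nat.even_iff.1 h6, Nat.even_iff.1 h7]
    · have h7 := h4.2 h6
      rw [Nat.odd_iff.1 h6, Nat.odd_iff.1 h7]
  · refine isN_prod _ _ fun b _ => ?_
    by_cases hb : cb m N b = 0
    · rw [hb]
      simpa using isN_one
    · exact isN_pow (hcl b hb) _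
  · have h3 : ((a ^ 2 + t * a + c : ℕ) : ZMod m) = (N : ZMod m) := by
      rw [hN]
      exact ((ZMod.natCast_eq_natCast_iff _ _ _).2 (F_mod hmq hn)).symm
    rw [h3, ← h2', ← prod_pow]
    have h4 : ∏ b ∈ T, (b : ZMod m) = ∏ b : (ZMod m)ˣ, if b ∈ T then (b : ZMod m) else 1 := by
      rw [prod_ite_mem]
      simp
    rw [h4, ← prod_mul_distrib]
    refine prod_congr rfl fun b _ => ?_
    by_cases hb : b ∈ T
    · obtain ⟨w, hw⟩ := (hTm b).1 hb
      rw [if_pos hb, hw, show (2 * w + 1) / 2 = w by omega]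
      ring
    · have hb' : ¬ Odd (cb m N b) := fun h => hb ((hTm b).2 h)
      rw [Nat.not_odd_iff_even] at hb'
      obtain ⟨w, hw⟩ := hb'
      rw [if_neg hb, hw, show (w + w) / 2 = w by omega]
      ring

/-- sufficiency -/
theorem suf (hF : Fd (t : ℤ) (c : ℤ) f χ) {m k : ℕ} (hm : 1 ≤ m) {q a J : ℕ}
    (hmq : m ∣ q) (ha : (a ^ 2 + t * a + c).Coprime m) (T : Finset (ZMod m)ˣ)
    (h : Adm t c m k a J T) :
    Al t c m q a (Ek t c m k) (Hk m k) (((J : ZMod k), ∑ b ∈ T, ev m (b : ZMod m)) : Ak m k) := by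
  obtain ⟨hT, hk, s, hs1, hs2⟩ := h
  refine al_of hF (gvk t c m k hm) (Or.inr ⟨hmq, ha, ?_⟩)
  have hE : Ek t c m k a 1 = (1, ev m ((a ^ 2 + t * a + c : ℕ) : ZMod m)) := by
    unfold Ek
    push_cast
    simp
  have h1 := df_set (k := k) T hT
  have h2 := df_sq (k := k) h1.1 hs1
  rw [mul_comm, ← hs2] at h2
  have h3 := df_mul (t := t) (c := c) (m := m) (k := k) ((J : ℤ) - T.card) (by
    intro h4
    exact (Int.natCast_modEq_iff.2 (hk h4)).dvd)
  have h4 := sub_mem h2 (add_mem h3 h1.2)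
  have h5 : ((0, ev m ((a ^ 2 + t * a + c : ℕ) : ZMod m) - ev m (∏ b ∈ T, (b : ZMod m))) -
      (((((J : ℤ) - T.card : ℤ) : ZMod k), 0) +
      (((T.card : ZMod k), ∑ b ∈ T, ev m (b : ZMod m)) - (1, ev m (∏ b ∈ T, (b : ZMod m)))))
        : Ak m k) =
      Ek t c m k a 1 - ((J : ZMod k), ∑ b ∈ T, ev m (b : ZMod m)) := by
    rw [hE]
    refine Prod.ext ?_ ?_
    · show (0 : ZMod k) - ((((J : ℤ) - T.card : ℤ) : ZMod k) + ((T.card : ZMod k) - 1)) =
        1 - (J : ZMod k)
      push_cast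
      ring
    · show ev m ((a ^ 2 + t * a + c : ℕ) : ZMod m) - ev m (∏ b ∈ T, (b : ZMod m)) -
        (0 + (∑ b ∈ T, ev m (b : ZMod m) - ev m (∏ b ∈ T, (b : ZMod m)))) =
        ev m ((a ^ 2 + t * a + c : ℕ) : ZMod m) - ∑ b ∈ T, ev m (b : ZMod m)
      abel
  rw [h5] at h4
  exact h4

end

end Pool.Agent.V11296.CV
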