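import Pool.Agent.V11296.CV3

/-!
Pairs (helper296), part 1: two completely additive functions with values in a finite abelian group.
-/

set_option autoImplicit false

namespace Pool.Agent.V11296.CW

open Finset Filter
open Pool.Agent.W78.GA (Qd nm nm_cast nm_mul nm_pos mul_star_self' prim prim_iff prim_of_dvd
  prim_star prim_ne_zero)
open Pool.Agent.W78.EG
open Pool.Agent.W251.EG
open Pool.Agent.W251.EX (Sqp tt sum_null)
open Pool.Agent.W738.EG (red red_eq PerM)
open Pool.Agent.V11296.CV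

variable {A : Type} [AddCommGroup A]

/-- completely additive functions whose values at the primes are determined by residue classes -/
structure Gw (t c m : ℕ) (E : ℤ → ℤ → A) (H : ℕ → A) : Prop where
  pos : 1 ≤ m
  add : ∀ x y : ℕ, x ≠ 0 → y ≠ 0 → H (x * y) = H x + H y
  per : ∀ x y u v : ℤ, x ≡ u [ZMOD m] → y ≡ v [ZMOD m] → E x y = E u v
  val : ∀ (x y : ℤ) (p : ℕ), p.Prime → ¬ p ∣ m → x ^ 2 + t * x * y + c * y ^ 2 = p → H p = E x y

section

variable {t c : ℕ} {f : ℕ} {χ : DirichletCharacter ℂ f} {m : ℕ} {E : ℤ → ℤ → A} {H : ℕ → A}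

theorem Gw.one (h : Gw t c m E H) : H 1 = 0 := by
  have h1 := h.add 1 1 one_ne_zero one_ne_zero
  rw [mul_one] at h1
  simpa using h1

/-- units -/
theorem Ez_unit (hF : Fd (t : ℤ) (c : ℤ) f χ) (h : Gw t c m E H) (u : Qd (t : ℤ) (c : ℤ))
    (hu : nm u = 1) : Ez E u ∈ Df t c m E := by
  have hD := hDG hF
  have hc := c_pos hF
  obtain ⟨π, hπ, hπm⟩ : ∃ π : Qd (t : ℤ) (c : ℤ), (nm π).Prime ∧ ¬ nm π ∣ m := by
    obtain ⟨z, hz⟩ : ∃ z : Qd (t : ℤ) (c : ℤ), z = ⟨1, m⟩ := ⟨_, rfl⟩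
    have h1 : ((nm z : ℕ) : ℤ) = 1 + m * (t + c * m) := by
      rw [nm_cast hD, hz]
      ring
    have h1' : nm z = 1 + m * (t + c * m) := by exact_mod_cast h1
    have h2 : nm z ≠ 1 := by
      have : 0 < m * (t + c * m) := by
        have hm := h.pos
        have : 0 < c * m := Nat.mul_pos (by omega) (by omega)
        exact Nat.mul_pos (by omega) (by omega)
      omega
    have h3 : prim z := by
      unfold prim
      rw [hz]
      simp
    obtain ⟨p, hp, hpz⟩ := Nat.exists_prime_and_dvd h2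
    obtain ⟨π, w, _, h5⟩ := prime_above hF h3 hp hpz
    refine ⟨π, h5 ▸ hp, ?_⟩
    rw [h5]
    intro h6
    have h7 : p ∣ 1 := by
      have h8 := Dvd.dvd.mul_right h6 (t + c * m)
      rw [h1'] at hpz
      exact (Nat.dvd_add_left h8).1 hpz
    exact hp.one_lt.ne' (Nat.dvd_one.1 h7)
  have hcp : (nm π).Coprime m := (Nat.Prime.coprime_iff_not_dvd hπ).2 hπm
  have h1 := Ez_mul (E := E) (m := m) hD u π (by rw [hu]; exact Nat.coprime_one_left m) hcp
  have h2 : Ez E (u * π) = H (nm π) := by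
    have h3 : nm (u * π) = nm π := by rw [nm_mul, hu, one_mul]
    refine (h.val _ _ _ hπ hπm ?_).symm
    rw [← nm_cast hD, h3]
  have h4 : Ez E π = H (nm π) := by
    refine (h.val _ _ _ hπ hπm ?_).symm
    rw [← nm_cast hD]
  rw [h2, h4] at h1
  simpa using h1

/-- the value at the norm of a primitive element -/
theorem val_prim (hF : Fd (t : ℤ) (c : ℤ) f χ) (h : Gw t c m E H) (M : ℕ) :
    ∀ z : Qd (t : ℤ) (c : ℤ), prim z → nm z = M → M.Coprime m →
    H M - Ez E z ∈ Df t c m E := by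
  have hD := hDG hF
  induction M using Nat.strong_induction_on with
  | _ M ih =>
    intro z hz hM hMm
    rcases eq_or_ne M 1 with h1 | h1
    · rw [h1, h.one, zero_sub]
      exact neg_mem (Ez_unit hF h z (hM.trans h1))
    · have hM0 : 0 < M := by
        rw [← hM]
        exact nm_pos hD (prim_ne_zero hz)
      obtain ⟨p, hp, hpM⟩ := Nat.exists_prime_and_dvd h1
      obtain ⟨π, w, hzw, hπ⟩ := prime_above hF hz hp (hM ▸ hpM)
      have hw : prim w := prim_of_dvd hz ⟨π, by rw [hzw, mul_comm]⟩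
      have hN : M = p * nm w := by rw [← hM, hzw, nm_mul, hπ]
      have hw0 : 0 < nm w := nm_pos hD (prim_ne_zero hw)
      have hlt : nm w < M := by
        rw [hN]
        have := hp.two_le
        nlinarith
      have hcw : (nm w).Coprime m := Nat.Coprime.coprime_dvd_left ⟨p, by rw [hN]; ring⟩ hMm
      have hcp : (nm π).Coprime m := by
        rw [hπ]
        exact Nat.Coprime.coprime_dvd_left ⟨nm w, hN⟩ hMm
      have hpm : ¬ p ∣ m := (Nat.Prime.coprime_iff_not_dvd hp).1 (hπ ▸ hcp)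
      have h2 := ih (nm w) hlt w hw rfl hcw
      have h3 := Ez_mul (E := E) (m := m) hD π w hcp hcw
      have h4 : Ez E π = H p := by
        refine (h.val _ _ _ hp hpm ?_).symm
        rw [← nm_cast hD, hπ]
      have h5 : H M = H p + H (nm w) := by
        rw [hN]
        exact h.add _ _ hp.ne_zero hw0.ne'
      rw [← hzw, h4] at h3
      rw [h5]
      have h6 := add_mem h2 h3
      have h7 : H (nm w) - Ez E w + (H p + Ez E w - Ez E z) = H p + H (nm w) - Ez E z := by abel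
      rwa [h7] at h6

theorem apdw [Finite A] (hF : Fd (t : ℤ) (c : ℤ) f χ) (h : Gw t c m E H) (ψ : AddChar A ℂ)
    (hψ : ∃ d ∈ Df t c m E, ψ d ≠ 1) :
    Apd (Nat.card A) (fun z : Qd (t : ℤ) (c : ℤ) => ψ (H (nm z))) := by
  have hD := hDG hF
  have hP := Pool.Agent.W290.EG.pid hF
  refine apdE hF hP (lconG hF) (Pool.Agent.W240.EG.lnv hF hP (lconG hF)) (m := m)
    (E := fun z => ψ (E z.re z.im)) (h := fun n => ψ (H n))
    ⟨h.pos, ?_, fun x y hx hy => ?_, fun n => chnrm ψ _, ?_⟩ ?_ Nat.card_pos (fun n => chpow ψ _)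
  · intro z z' hzz
    rw [red_eq] at hzz
    show ψ (E z.re z.im) = ψ (E z'.re z'.im)
    rw [h.per z.re z.im z'.re z'.im (Int.modEq_iff_dvd.2 (by
      have := hzz.1
      rw [← Int.neg_sub, dvd_neg]
      exact this)) (Int.modEq_iff_dvd.2 (by
      have := hzz.2
      rw [← Int.neg_sub, dvd_neg]
      exact this))]
  · show ψ (H (x * y)) = ψ (H x) * ψ (H y)
    rw [h.add x y hx hy, AddChar.map_add_eq_mul]
  · intro z hz hzm
    show ψ (H (nm z)) = ψ (E z.re z.im)
    rw [h.val z.re z.im (nm z) hz hzm (nm_cast hD z).symm]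
  · obtain ⟨x, y, u, v, h1, h2, h3⟩ := exists_defect ψ hψ
    refine ⟨⟨x, y⟩, ⟨u, v⟩, copr hD _ h1, copr hD _ h2, ?_⟩
    intro h4
    apply h3
    have h5 : ((⟨x, y⟩ : Qd (t : ℤ) (c : ℤ)) * ⟨u, v⟩).re = x * u - c * y * v := by
      rw [QuadraticAlgebra.re_mul]
      ring
    have h6 : ((⟨x, y⟩ : Qd (t : ℤ) (c : ℤ)) * ⟨u, v⟩).im = x * v + y * u + t * y * v := by
      rw [QuadraticAlgebra.im_mul]
    rw [h5, h6] at h4
    exact h4

/-- factorisations of a primitive element -/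
theorem split_prim (hF : Fd (t : ℤ) (c : ℤ) f χ) (d : ℕ) :
    ∀ z : Qd (t : ℤ) (c : ℤ), prim z → d ∣ nm z → ∃ x y : Qd (t : ℤ) (c : ℤ), z = x * y ∧
      nm x = d := by
  have hD := hDG hF
  induction d using Nat.strong_induction_on with
  | _ d ih =>
    intro z hz hd
    have hz0 : 0 < nm z := nm_pos hD (prim_ne_zero hz)
    have hd0 : 0 < d := Nat.pos_of_dvd_of_pos hd hz0
    rcases eq_or_ne d 1 with h1 | h1
    · refine ⟨1, z, (one_mul z).symm, ?_⟩
      rw [h1]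
      have h2 := nm_mul (1 : Qd (t : ℤ) (c : ℤ)) 1
      rw [mul_one] at h2
      have h3 : 0 < nm (1 : Qd (t : ℤ) (c : ℤ)) := nm_pos hD one_ne_zero
      exact Nat.eq_of_mul_eq_mul_left h3 (by rw [← h2, mul_one])
    · obtain ⟨p, hp, e, he⟩ := Nat.exists_prime_and_dvd h1
      obtain ⟨π, w, hzw, hπ⟩ := prime_above hF hz hp ((Dvd.intro _ he.symm).trans hd)
      have hw : prim w := prim_of_dvd hz ⟨π, by rw [hzw, mul_comm]⟩
      have he0 : 0 < e := by
        rcases Nat.eq_zero_or_pos e with h2 | h2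
        · rw [h2, mul_zero] at he
          omega
        · exact h2
      have hlt : e < d := by
        rw [he]
        have := hp.two_le
        nlinarith
      have hew : e ∣ nm w := by
        have h2 : p * e ∣ p * nm w := by
          rw [← he, ← hπ, ← nm_mul, ← hzw]
          exact hd
        exact Nat.dvd_of_mul_dvd_mul_left hp.pos h2
      obtain ⟨x, y, hxy, hx⟩ := ih e hlt w hw hew
      exact ⟨π * x, y, by rw [hzw, hxy, mul_assoc], by rw [nm_mul, hπ, hx, he]⟩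

end

/-! ### two functions -/

/-- two completely additive functions, `H₁(p) + H₂(p)` the same for all primes `p` -/
structure Gp (t c m : ℕ) (E : ℤ → ℤ → A) (τ : A) (H₁ H₂ : ℕ → A) : Prop where
  pos : 1 ≤ m
  add₁ : ∀ x y : ℕ, x ≠ 0 → y ≠ 0 → H₁ (x * y) = H₁ x + H₁ y
  add₂ : ∀ x y : ℕ, x ≠ 0 → y ≠ 0 → H₂ (x * y) = H₂ x + H₂ y
  two : ∀ p : ℕ, p.Prime → H₁ p + H₂ p = τ
  per : ∀ x y u v : ℤ, x ≡ u [ZMOD m] → y ≡ v [ZMOD m] → E x y = E u v
  val : ∀ (x y : ℤ) (p : ℕ), p.Prime → ¬ p ∣ m → x ^ 2 + t * x * y + c * y ^ 2 = p → H₁ p = E x y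

/-- the group generated by the defects and `τ` -/
def Dt (t c m : ℕ) (E : ℤ → ℤ → A) (τ : A) : AddSubgroup A :=
  Df t c m E ⊔ AddSubgroup.zmultiples τ

section

variable {t c : ℕ} {f : ℕ} {χ : DirichletCharacter ℂ f} {m : ℕ} {E : ℤ → ℤ → A} {τ : A}
  {H₁ H₂ : ℕ → A}

theorem Gp.g₁ (h : Gp t c m E τ H₁ H₂) : Gw t c m E H₁ := ⟨h.pos, h.add₁, h.per, h.val⟩

theorem Gp.g₂ (h : Gp t c m E τ H₁ H₂) : Gw t c m (fun x y => τ - E x y) H₂ := by
  refine ⟨h.pos, h.add₂, fun x y u v h1 h2 => ?_, fun x y p hp hpm hxy => ?_⟩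
  · show τ - E x y = τ - E u v
    rw [h.per x y u v h1 h2]
  · show H₂ p = τ - E x y
    rw [← h.val x y p hp hpm hxy, ← h.two p hp]
    abel

theorem df_le : Df t c m E ≤ Dt t c m E τ := le_sup_left

theorem tau_mem : τ ∈ Dt t c m E τ :=
  (le_sup_right : AddSubgroup.zmultiples τ ≤ Dt t c m E τ) (AddSubgroup.mem_zmultiples τ)

theorem df₂_le : Df t c m (fun x y => τ - E x y) ≤ Dt t c m E τ := by
  unfold Df
  rw [AddSubgroup.closure_le]
  rintro g ⟨x, y, u, v, h1, h2, rfl⟩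
  have h3 : E x y + E u v - E (x * u - c * y * v) (x * v + y * u + t * y * v) ∈ Dt t c m E τ :=
    df_le (AddSubgroup.subset_closure ⟨x, y, u, v, h1, h2, rfl⟩)
  have h4 := sub_mem (tau_mem (t := t) (c := c) (m := m) (E := E) (τ := τ)) h3
  have h5 : τ - E x y + (τ - E u v) - (τ - E (x * u - c * y * v) (x * v + y * u + t * y * v)) =
      τ - (E x y + E u v - E (x * u - c * y * v) (x * v + y * u + t * y * v)) := by abel
  show τ - E x y + (τ - E u v) - (τ - E (x * u - c * y * v) (x * v + y * u + t * y * v)) ∈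
    Dt t c m E τ
  rw [h5]
  exact h4

/-- aperiodicity of one of the two functions -/
theorem apdp [Finite A] (hF : Fd (t : ℤ) (c : ℤ) f χ) (h : Gp t c m E τ H₁ H₂) (ψ : AddChar A ℂ)
    (hψ : ∃ d ∈ Dt t c m E τ, ψ d ≠ 1) :
    Apd (Nat.card A) (fun z : Qd (t : ℤ) (c : ℤ) => ψ (H₁ (nm z))) ∨
    Apd (Nat.card A) (fun z : Qd (t : ℤ) (c : ℤ) => ψ (H₂ (nm z))) := by
  by_cases h1 : ∃ d ∈ Df t c m E, ψ d ≠ 1
  · exact Or.inl (apdw hF h.g₁ ψ h1)
  · right
    push Not at h1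
    refine apdw hF h.g₂ ψ ?_
    have h2 : ψ τ ≠ 1 := by
      intro h3
      obtain ⟨d, hd, hd1⟩ := hψ
      apply hd1
      obtain ⟨x, hx, y, hy, rfl⟩ := AddSubgroup.mem_sup.1 hd
      obtain ⟨k, rfl⟩ := AddSubgroup.mem_zmultiples_iff.1 hy
      rw [AddChar.map_add_eq_mul, h1 x hx, one_mul, AddChar.map_zsmul_eq_zpow, h3, one_zpow]
    refine ⟨τ - (E 1 0 + E 1 0 - E 1 0), ?_, ?_⟩
    · refine AddSubgroup.subset_closure ⟨1, 0, 1, 0, ?_, ?_, ?_⟩
      · have : (1 : ℤ) ^ 2 + t * 1 * 0 + c * 0 ^ 2 = 1 := by ring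
        rw [this]
        exact isCoprime_one_left
      · have : (1 : ℤ) ^ 2 + t * 1 * 0 + c * 0 ^ 2 = 1 := by ring
        rw [this]
        exact isCoprime_one_left
      · have e1 : (1 : ℤ) * 1 - c * 0 * 0 = 1 := by ring
        have e2 : (1 : ℤ) * 0 + 0 * 1 + t * 0 * 0 = 0 := by ring
        rw [e1, e2]
        show τ - (E 1 0 + E 1 0 - E 1 0) = τ - E 1 0 + (τ - E 1 0) - (τ - E 1 0)
        abel
    · have h3 : ψ (E 1 0 + E 1 0 - E 1 0) = 1 := by
        refine h1 _ (AddSubgroup.subset_closure ⟨1, 0, 1, 0, ?_, ?_, ?_⟩)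
        · have : (1 : ℤ) ^ 2 + t * 1 * 0 + c * 0 ^ 2 = 1 := by ring
          rw [this]
          exact isCoprime_one_left
        · have : (1 : ℤ) ^ 2 + t * 1 * 0 + c * 0 ^ 2 = 1 := by ring
          rw [this]
          exact isCoprime_one_left
        · have e1 : (1 : ℤ) * 1 - c * 0 * 0 = 1 := by ring
          have e2 : (1 : ℤ) * 0 + 0 * 1 + t * 0 * 0 = 0 := by ring
          rw [e1, e2]
      rw [AddChar.map_sub_eq_div, h3, div_one]
      exact h2

theorem fgp [Finite A] (h : Gp t c m E τ H₁ H₂) (χ : DirichletCharacter ℂ f) (ψ : AddChar A ℂ) :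
    FGc χ (Nat.card A) (ψ τ) (fun n => ψ (H₁ n)) (fun n => ψ (H₂ n)) where
  pos := Nat.card_pos
  m₁ := fun x y hx hy => by rw [h.add₁ x y hx hy, AddChar.map_add_eq_mul]
  m₂ := fun x y hx hy => by rw [h.add₂ x y hx hy, AddChar.map_add_eq_mul]
  p₁ := fun n => chpow ψ _
  p₂ := fun n => chpow ψ _
  tw := fun p hp _ => by rw [← AddChar.map_add_eq_mul, h.two p hp]

/-- admissible values -/
def Alp (t c m q a r : ℕ) (E : ℤ → ℤ → A) (τ : A) (H₁ H₂ : ℕ → A) (g : A) : Prop :=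
  ∀ n d e : ℕ, n ≡ a [MOD q] → d ≡ r [MOD q] → d * e = n ^ 2 + t * n + c →
    H₁ d + H₂ e - g ∈ Dt t c m E τ

/-- the values at the factorisations of `n^2+tn+c` -/
theorem alp_of (hF : Fd (t : ℤ) (c : ℤ) f χ) (h : Gp t c m E τ H₁ H₂) {q a r : ℕ} {g : A}
    (hg : Dt t c m E τ = ⊤ ∨ (m ∣ q ∧ (a ^ 2 + t * a + c).Coprime m ∧
      ∀ x y u v : ℤ, x * u - c * y * v ≡ a [ZMOD m] → x * v + y * u + t * y * v ≡ 1 [ZMOD m] →
        x ^ 2 + t * x * y + c * y ^ 2 ≡ r [ZMOD m] → E x y - E u v - g ∈ Dt t c m E τ)) :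
    Alp t c m q a r E τ H₁ H₂ g := by
  intro n d e hn hd hde
  have hD := hDG hF
  have hc := c_pos hF
  rcases hg with h1 | ⟨h1, h2, h3⟩
  · rw [h1]
    exact AddSubgroup.mem_top _
  · have hpr : prim (⟨(n : ℤ), 1⟩ : Qd (t : ℤ) (c : ℤ)) := by
      unfold prim
      simp
    have hnm : nm (⟨(n : ℤ), 1⟩ : Qd (t : ℤ) (c : ℤ)) = d * e := by
      have h2 : ((nm (⟨(n : ℤ), 1⟩ : Qd (t : ℤ) (c : ℤ)) : ℕ) : ℤ) = ((d * e : ℕ) : ℤ) := by
        rw [nm_cast hD, hde]
        push_cast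
        ring
      exact_mod_cast h2
    obtain ⟨z, w, hzw, hz⟩ := split_prim hF d _ hpr (hnm ▸ Dvd.intro _ rfl)
    have hpos := fpos (t := t) hc n
    have hd0 : 0 < d := Nat.pos_of_dvd_of_pos (Dvd.intro _ hde) hpos
    have hw : nm w = e := by
      have h4 : d * nm w = d * e := by rw [← hz, ← nm_mul, ← hzw, hnm, hz]
      exact Nat.eq_of_mul_eq_mul_left hd0 h4
    have hcop : (n ^ 2 + t * n + c).Coprime m := by
      have h4 : n ^ 2 + t * n + c ≡ a ^ 2 + t * a + c [MOD m] := by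
        have h5 : n ≡ a [MOD m] := hn.of_dvd h1
        exact ((h5.pow 2).add (h5.mul_left t)).add_right c
      unfold Nat.Coprime at h2 ⊢
      rw [h4.gcd_eq]
      exact h2
    rw [← hde] at hcop
    have hdm : d.Coprime m := Nat.Coprime.coprime_dvd_left (Dvd.intro _ rfl) hcop
    have hem : e.Coprime m := Nat.Coprime.coprime_dvd_left (Dvd.intro_left _ rfl) hcop
    have hzp : prim z := prim_of_dvd hpr ⟨w, hzw⟩
    have hwp : prim w := prim_of_dvd hpr ⟨z, by rw [hzw, mul_comm]⟩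
    have h4 := df_le (τ := τ) (val_prim hF h.g₁ d z hzp hz hdm)
    have h5 := df₂_le (val_prim hF h.g₂ e w hwp hw hem)
    have h6 : E z.re z.im - E w.re w.im - g ∈ Dt t c m E τ := by
      have hre := congrArg QuadraticAlgebra.re hzw
      have him := congrArg QuadraticAlgebra.im hzw
      rw [QuadraticAlgebra.re_mul] at hre
      rw [QuadraticAlgebra.im_mul] at him
      have hnm' : (n : ℤ) ≡ a [ZMOD m] := Int.natCast_modEq_iff.2 (hn.of_dvd h1)
      refine h3 z.re z.im w.re w.im ?_ ?_ ?_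
      · have h7 : z.re * w.re - c * z.im * w.im = n := by
          have h8 : (n : ℤ) = z.re * w.re + -(c : ℤ) * z.im * w.im := hre
          rw [h8]
          ring
        rw [h7]
        exact hnm'
      · have h7 : z.re * w.im + z.im * w.re + t * z.im * w.im = 1 := him.symm
        rw [h7]
      · rw [← nm_cast hD, hz]
        exact Int.natCast_modEq_iff.2 (hd.of_dvd h1)
    have h7 : (fun x y => τ - E x y) w.re w.im = τ - E w.re w.im := rfl
    unfold Ez at h4 h5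
    rw [h7] at h5
    have h8 := add_mem (add_mem (add_mem h4 h5) h6)
      (tau_mem (t := t) (c := c) (m := m) (E := E) (τ := τ))
    have h9 : H₁ d - E z.re z.im + (H₂ e - (τ - E w.re w.im)) + (E z.re z.im - E w.re w.im - g) +
        τ = H₁ d + H₂ e - g := by abel
    rwa [h9] at h8

end

end Pool.Agent.V11296.CW
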