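import Pool.Agent.V11296.CW1

/-!
Pairs (helper296), part 2: sums over the factorisations of `n^2+tn+c`.
-/

set_option autoImplicit false

namespace Pool.Agent.V11296.CW

open Finset Filter
open Pool.Agent.W78.GA (Qd nm nm_cast nm_mul nm_pos mul_star_self' prim prim_iff prim_of_dvd
  prim_star prim_ne_zero)
open Pool.Agent.W78.EG
open Pool.Agent.W251.EG
open Pool.Agent.W251.EX (Sqp tt sum_null)
open Pool.Agent.V11296.CV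

variable {A : Type} [AddCommGroup A]

open scoped Classical in
theorem fourier2 [Finite A] {D : AddSubgroup A} {H₁ H₂ : ℕ → A} (g : A)
    (S : ℕ → Finset (ℕ × ℕ))
    (hS : ∀ X, ∀ p ∈ S X, H₁ p.1 + H₂ p.2 - g ∈ D)
    (hav : ∀ ψ : AddChar A ℂ, (∃ d ∈ D, ψ d ≠ 1) → ∀ ε : ℝ, 0 < ε → ∃ N₀ : ℕ, ∀ N' : ℕ, N₀ ≤ N' →
      ∑ X ∈ Icc 1 N', 1 / (X : ℝ) ^ 2 * ‖∑ p ∈ S X, ψ (H₁ p.1) * ψ (H₂ p.2)‖ ≤ ε * Real.log N')
    (ε : ℝ) (hε : 0 < ε) : ∃ N₀ : ℕ, ∀ N' : ℕ, N₀ ≤ N' →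
      ∑ X ∈ Icc 1 N', 1 / (X : ℝ) ^ 2 * ‖∑ p ∈ S X, ((if H₁ p.1 + H₂ p.2 = g then (1 : ℂ) else 0) -
        1 / (Nat.card D : ℂ))‖ ≤ ε * Real.log N' := by
  have hX : ∀ X, ‖∑ p ∈ S X, ((if H₁ p.1 + H₂ p.2 = g then (1 : ℂ) else 0) -
      1 / (Nat.card D : ℂ))‖ ≤ ∑ ψ ∈ nt D, ‖∑ p ∈ S X, ψ (H₁ p.1) * ψ (H₂ p.2)‖ := by
    intro X
    have h1 : ∑ p ∈ S X, ((if H₁ p.1 + H₂ p.2 = g then (1 : ℂ) else 0) - 1 / (Nat.card D : ℂ)) =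
        1 / (Nat.card A : ℂ) * ∑ ψ ∈ nt D, ψ (-g) * ∑ p ∈ S X, ψ (H₁ p.1) * ψ (H₂ p.2) := by
      rw [sum_congr rfl (g := fun p => 1 / (Nat.card A : ℂ) * ∑ ψ ∈ nt D,
        ψ (-g) * (ψ (H₁ p.1) * ψ (H₂ p.2))), ← mul_sum, sum_comm]
      · refine congrArg _ (sum_congr rfl fun ψ _ => ?_)
        rw [mul_sum]
      · intro p hp
        have h4 := ind_eq D (H₁ p.1 + H₂ p.2 - g) (hS X p hp)
        simp only [sub_eq_zero] at h4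
        rw [h4]
        refine congrArg _ (sum_congr rfl fun ψ _ => ?_)
        rw [← AddChar.map_add_eq_mul, ← AddChar.map_add_eq_mul]
        congr 1
        abel
    rw [h1, norm_mul]
    have h2 : ‖(1 / (Nat.card A : ℂ) : ℂ)‖ ≤ 1 := by
      rw [norm_div, norm_one, Complex.norm_natCast]
      have : (1 : ℝ) ≤ Nat.card A := by exact_mod_cast (Nat.card_pos (α := A))
      rw [div_le_one (by linarith)]
      exact this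
    calc ‖(1 / (Nat.card A : ℂ) : ℂ)‖ * ‖∑ ψ ∈ nt D, ψ (-g) * ∑ p ∈ S X, ψ (H₁ p.1) * ψ (H₂ p.2)‖
        ≤ 1 * ‖∑ ψ ∈ nt D, ψ (-g) * ∑ p ∈ S X, ψ (H₁ p.1) * ψ (H₂ p.2)‖ :=
          mul_le_mul_of_nonneg_right h2 (norm_nonneg _)
      _ ≤ ∑ ψ ∈ nt D, ‖ψ (-g) * ∑ p ∈ S X, ψ (H₁ p.1) * ψ (H₂ p.2)‖ := by
          rw [one_mul]
          exact norm_sum_le _ _
      _ = _ := by
          refine sum_congr rfl fun ψ _ => ?_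
          rw [norm_mul, chnrm, one_mul]
  obtain ⟨K, hK⟩ : ∃ K : ℕ, K = (nt D).card + 1 := ⟨_, rfl⟩
  have hK0 : (0 : ℝ) < K := by
    rw [hK]
    positivity
  have h2 : ∀ ψ : AddChar A ℂ, ∃ N₀ : ℕ, ψ ∈ nt D → ∀ N' : ℕ, N₀ ≤ N' →
      ∑ X ∈ Icc 1 N', 1 / (X : ℝ) ^ 2 * ‖∑ p ∈ S X, ψ (H₁ p.1) * ψ (H₂ p.2)‖ ≤
        ε / K * Real.log N' := by
    intro ψ
    by_cases hψ : ψ ∈ nt D
    · obtain ⟨N₀, h⟩ := hav ψ (by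
        unfold nt at hψ
        simpa using hψ) (ε / K) (by positivity)
      exact ⟨N₀, fun _ => h⟩
    · exact ⟨0, fun h => absurd h hψ⟩
  choose N₁ hN₁ using h2
  refine ⟨max 1 ((nt D).sup N₁), fun N' hN' => ?_⟩
  have hN1 : 1 ≤ N' := (le_max_left _ _).trans hN'
  have hlog : 0 ≤ Real.log N' := Real.log_nonneg (by exact_mod_cast hN1)
  calc ∑ X ∈ Icc 1 N', 1 / (X : ℝ) ^ 2 *
        ‖∑ p ∈ S X, ((if H₁ p.1 + H₂ p.2 = g then (1 : ℂ) else 0) - 1 / (Nat.card D : ℂ))‖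
      ≤ ∑ X ∈ Icc 1 N', 1 / (X : ℝ) ^ 2 * ∑ ψ ∈ nt D, ‖∑ p ∈ S X, ψ (H₁ p.1) * ψ (H₂ p.2)‖ :=
        sum_le_sum fun X _ => mul_le_mul_of_nonneg_left (hX X) (by positivity)
    _ = ∑ ψ ∈ nt D, ∑ X ∈ Icc 1 N', 1 / (X : ℝ) ^ 2 * ‖∑ p ∈ S X, ψ (H₁ p.1) * ψ (H₂ p.2)‖ := by
        rw [sum_comm]
        exact sum_congr rfl fun X _ => mul_sum _ _ _
    _ ≤ ∑ ψ ∈ nt D, ε / K * Real.log N' := sum_le_sum fun ψ hψ =>
        hN₁ ψ hψ N' ((Finset.le_sup hψ).trans ((le_max_right _ _).trans hN'))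
    _ = (nt D).card * (ε / K * Real.log N') := by rw [sum_const, nsmul_eq_mul]
    _ ≤ K * (ε / K * Real.log N') := by
        refine mul_le_mul_of_nonneg_right ?_ (by positivity)
        rw [hK]
        push_cast
        linarith
    _ = ε * Real.log N' := by field_simp

open scoped Classical in
/-- the divisors in a window -/
noncomputable def wd (t c q r : ℕ) (s₁ s₂ s₃ s₄ : ℝ) (X n : ℕ) : Finset ℕ :=
  (n ^ 2 + t * n + c).divisors.filter (fun d : ℕ => d ≡ r [MOD q] ∧ s₁ * X < (d : ℝ) ∧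
    (d : ℝ) ≤ s₂ * X ∧ s₃ * X < (((n ^ 2 + t * n + c) / d : ℕ) : ℝ) ∧
    (((n ^ 2 + t * n + c) / d : ℕ) : ℝ) ≤ s₄ * X)

section

variable {t c : ℕ} {f : ℕ} {χ : DirichletCharacter ℂ f} {m : ℕ} {E : ℤ → ℤ → A} {τ : A}
  {H₁ H₂ : ℕ → A}

open scoped Classical in
/-- from pairs to `n` and `d` -/
theorem conv_p (ht : t ≤ 1) (hc : 1 ≤ c) (P : ℕ → Prop) (g : A) (D : AddSubgroup A)
    (q a r : ℕ) (s₁ s₂ s₃ s₄ : ℝ) (h2 : s₂ ≤ 1) (h4 : s₄ ≤ 1) (X : ℕ) :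
    ∑ p ∈ (SW (t : ℤ) (c : ℤ) q a r s₁ s₂ s₃ s₄ X).filter (fun p => P (p.1 * p.2)),
      ((if H₁ p.1 + H₂ p.2 = g then (1 : ℂ) else 0) - 1 / (Nat.card D : ℂ)) =
      ((∑ n ∈ (range (X + 1)).filter (fun n => 1 ≤ n + t ∧ n ≡ a [MOD q] ∧ P (n ^ 2 + t * n + c)),
        ∑ d ∈ wd t c q r s₁ s₂ s₃ s₄ X n,
        ((if H₁ d + H₂ ((n ^ 2 + t * n + c) / d) = g then (1 : ℝ) else 0) -
          1 / (Nat.card D : ℝ)) : ℝ) : ℂ) := by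
  rw [sum_filter, convG ht hc (fun x y => if P (x * y) then
    ((if H₁ x + H₂ y = g then (1 : ℂ) else 0) - 1 / (Nat.card D : ℂ)) else 0)
    q a r s₁ s₂ s₃ s₄ h2 h4 X, Complex.ofReal_sum]
  have e0 : (range (X + 1)).filter (fun n => 1 ≤ n + t ∧ n ≡ a [MOD q] ∧ P (n ^ 2 + t * n + c)) =
      ((range (X + 1)).filter (fun n => 1 ≤ n + t ∧ n ≡ a [MOD q])).filter
        (fun n => P (n ^ 2 + t * n + c)) := by
    rw [filter_filter]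
    refine filter_congr fun n _ => ?_
    tauto
  rw [e0]
  conv_rhs => rw [sum_filter]
  refine sum_congr rfl fun n _ => ?_
  have e2 : ∀ d ∈ wd t c q r s₁ s₂ s₃ s₄ X n,
      (if P (d * ((n ^ 2 + t * n + c) / d)) then
        ((if H₁ d + H₂ ((n ^ 2 + t * n + c) / d) = g then (1 : ℂ) else 0) -
          1 / (Nat.card D : ℂ)) else 0) =
      if P (n ^ 2 + t * n + c) then
        ((if H₁ d + H₂ ((n ^ 2 + t * n + c) / d) = g then (1 : ℂ) else 0) -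
          1 / (Nat.card D : ℂ)) else 0 := by
    intro d hd
    unfold wd at hd
    have hd1 := (Nat.mem_divisors.1 (mem_filter.1 hd).1).1
    have hdd : d * ((n ^ 2 + t * n + c) / d) = n ^ 2 + t * n + c := Nat.mul_div_cancel' hd1
    rw [hdd]
  have e3 := sum_congr rfl e2
  refine Eq.trans e3 ?_
  by_cases hP : P (n ^ 2 + t * n + c)
  · simp only [if_pos hP]
    rw [Complex.ofReal_sum]
    refine sum_congr rfl fun d _ => ?_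
    split_ifs
    · push_cast
      ring
    · push_cast
      ring
  · simp only [if_neg hP]
    simp

theorem alp_SW {q a r : ℕ} {s₁ s₂ s₃ s₄ : ℝ} {X : ℕ} {g : A}
    (hal : Alp t c m q a r E τ H₁ H₂ g)
    {p : ℕ × ℕ} (hp : p ∈ SW (t : ℤ) (c : ℤ) q a r s₁ s₂ s₃ s₄ X) :
    H₁ p.1 + H₂ p.2 - g ∈ Dt t c m E τ := by
  obtain ⟨_, ⟨n, _, h5, h6, h7⟩, _⟩ := mem_SWn.1 hp
  exact hal n p.1 p.2 h6 h7 h5

open scoped Classical in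
theorem avg_tw2 [Finite A] (hF : Fd (t : ℤ) (c : ℤ) f χ) (h : Gp t c m E τ H₁ H₂) (g : A)
    (q a r : ℕ) (hq : 1 ≤ q) (hal : Alp t c m q a r E τ H₁ H₂ g) (s₁ s₂ s₃ s₄ : ℝ) (h1 : 0 ≤ s₁)
    (h2 : s₁ < s₂) (h3 : s₂ ≤ 1) (h4 : 0 ≤ s₃) (h5 : s₃ < s₄) (h6 : s₄ ≤ 1) (ε : ℝ) (hε : 0 < ε) :
    ∃ N₀ : ℕ, ∀ N' : ℕ, N₀ ≤ N' → ∑ X ∈ Icc 1 N', 1 / (X : ℝ) ^ 2 *
      ‖∑ p ∈ SW (t : ℤ) (c : ℤ) q a r s₁ s₂ s₃ s₄ X,
        ((if H₁ p.1 + H₂ p.2 = g then (1 : ℂ) else 0) - 1 / (Nat.card (Dt t c m E τ) : ℂ))‖ ≤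
      ε * Real.log N' := by
  refine fourier2 g (fun X => SW (t : ℤ) (c : ℤ) q a r s₁ s₂ s₃ s₄ X)
    (fun X p hp => alp_SW hal hp) (fun ψ hψ ε' hε' => ?_) ε hε
  obtain ⟨N₀, hN₀⟩ := twG hF (Nat.card A) (ψ τ) (fun n => ψ (H₁ n)) (fun n => ψ (H₂ n))
    (fgp h χ ψ) (apdp hF h ψ hψ) q a r 0 hq s₁ s₂ s₃ s₄ h1 h2 h3 h4 h5 h6 ε' hε'
  refine ⟨N₀, fun N' hN' => le_trans (le_of_eq ?_) (hN₀ N' hN')⟩
  refine sum_congr rfl fun X _ => ?_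
  have e0 : (SW (t : ℤ) (c : ℤ) q a r s₁ s₂ s₃ s₄ X).filter (Sqp 0) =
      SW (t : ℤ) (c : ℤ) q a r s₁ s₂ s₃ s₄ X := by
    refine filter_true_of_mem fun p _ l hl hp => ?_
    have := hp.pos
    omega
  rw [e0]

open scoped Classical in
theorem avg_ts2 [Finite A] (hF : Fd (t : ℤ) (c : ℤ) f χ) (h : Gp t c m E τ H₁ H₂) (g : A)
    (q a r : ℕ) (hq : 1 ≤ q) (hal : Alp t c m q a r E τ H₁ H₂ g) (s₁ s₂ s₃ s₄ : ℝ) (h1 : 0 ≤ s₁)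
    (h2 : s₁ < s₂) (h3 : s₂ ≤ 1) (h4 : 0 ≤ s₃) (h5 : s₃ < s₄) (h6 : s₄ ≤ 1) (ε : ℝ) (hε : 0 < ε) :
    ∃ N₀ : ℕ, ∀ N' : ℕ, N₀ ≤ N' → ∑ X ∈ Icc 1 N', 1 / (X : ℝ) ^ 2 *
      ‖∑ p ∈ (SW (t : ℤ) (c : ℤ) q a r s₁ s₂ s₃ s₄ X).filter (fun p => Squarefree (p.1 * p.2)),
        ((if H₁ p.1 + H₂ p.2 = g then (1 : ℂ) else 0) - 1 / (Nat.card (Dt t c m E τ) : ℂ))‖ ≤
      ε * Real.log N' := by
  refine fourier2 g (fun X => (SW (t : ℤ) (c : ℤ) q a r s₁ s₂ s₃ s₄ X).filter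
    (fun p => Squarefree (p.1 * p.2))) (fun X p hp => alp_SW hal (mem_filter.1 hp).1)
    (fun ψ hψ ε' hε' => ?_) ε hε
  exact tsG hF (Nat.card A) (ψ τ) (fun n => ψ (H₁ n)) (fun n => ψ (H₂ n)) (fgp h χ ψ)
    (apdp hF h ψ hψ) q a r hq s₁ s₂ s₃ s₄ h1 h2 h3 h4 h5 h6 ε' hε'

open scoped Classical in
/-- sums over all factorisations -/
theorem outAll2 [Finite A] (hF : Fd (t : ℤ) (c : ℤ) f χ) (h : Gp t c m E τ H₁ H₂) (g : A)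
    (q a r : ℕ) (hq : 1 ≤ q) (hal : Alp t c m q a r E τ H₁ H₂ g) (s₁ s₂ s₃ s₄ : ℝ) (h1 : 0 ≤ s₁)
    (h2 : s₁ < s₂) (h3 : s₂ ≤ 1) (h4 : 0 ≤ s₃) (h5 : s₃ < s₄) (h6 : s₄ ≤ 1) (ε : ℝ) (hε : 0 < ε) :
    Tendsto (fun N : ℕ => (∑ X ∈ (Icc 1 N).filter (fun X : ℕ => ε * X <
      |∑ n ∈ (range (X + 1)).filter (fun n => 1 ≤ n + t ∧ n ≡ a [MOD q]),
        ∑ d ∈ wd t c q r s₁ s₂ s₃ s₄ X n,
        ((if H₁ d + H₂ ((n ^ 2 + t * n + c) / d) = g then (1 : ℝ) else 0) -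
          1 / (Nat.card (Dt t c m E τ) : ℝ))|), 1 / (X : ℝ)) /
      Real.log N) atTop (nhds 0) := by
  have h7 := tt (fun X => ∑ p ∈ SW (t : ℤ) (c : ℤ) q a r s₁ s₂ s₃ s₄ X,
        ((if H₁ p.1 + H₂ p.2 = g then (1 : ℂ) else 0) - 1 / (Nat.card (Dt t c m E τ) : ℂ)))
    (fun ε' hε' => avg_tw2 hF h g q a r hq hal s₁ s₂ s₃ s₄ h1 h2 h3 h4 h5 h6 ε' hε') ε hε
  refine h7.congr fun N => ?_
  congr 1
  refine sum_congr ?_ fun _ _ => rfl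
  ext X
  rw [mem_filter, mem_filter]
  refine and_congr_right fun _ => ?_
  have h8 := conv_p (H₁ := H₁) (H₂ := H₂) (t_le hF) (c_pos hF) (fun _ => True) g (Dt t c m E τ)
    q a r s₁ s₂ s₃ s₄ h3 h6 X
  simp only [filter_true, and_true] at h8
  rw [h8, Complex.norm_real, Real.norm_eq_abs]

open scoped Classical in
/-- sums over the factorisations of the squarefree values -/
theorem outSq2 [Finite A] (hF : Fd (t : ℤ) (c : ℤ) f χ) (h : Gp t c m E τ H₁ H₂) (g : A)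
    (q a r : ℕ) (hq : 1 ≤ q) (hal : Alp t c m q a r E τ H₁ H₂ g) (s₁ s₂ s₃ s₄ : ℝ) (h1 : 0 ≤ s₁)
    (h2 : s₁ < s₂) (h3 : s₂ ≤ 1) (h4 : 0 ≤ s₃) (h5 : s₃ < s₄) (h6 : s₄ ≤ 1) (ε : ℝ) (hε : 0 < ε) :
    Tendsto (fun N : ℕ => (∑ X ∈ (Icc 1 N).filter (fun X : ℕ => ε * X <
      |∑ n ∈ (range (X + 1)).filter (fun n => 1 ≤ n + t ∧ n ≡ a [MOD q] ∧
        Squarefree (n ^ 2 + t * n + c)),
        ∑ d ∈ wd t c q r s₁ s₂ s₃ s₄ X n,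
        ((if H₁ d + H₂ ((n ^ 2 + t * n + c) / d) = g then (1 : ℝ) else 0) -
          1 / (Nat.card (Dt t c m E τ) : ℝ))|), 1 / (X : ℝ)) /
      Real.log N) atTop (nhds 0) := by
  have h7 := tt (fun X => ∑ p ∈ (SW (t : ℤ) (c : ℤ) q a r s₁ s₂ s₃ s₄ X).filter
        (fun p => Squarefree (p.1 * p.2)),
        ((if H₁ p.1 + H₂ p.2 = g then (1 : ℂ) else 0) - 1 / (Nat.card (Dt t c m E τ) : ℂ)))
    (fun ε' hε' => avg_ts2 hF h g q a r hq hal s₁ s₂ s₃ s₄ h1 h2 h3 h4 h5 h6 ε' hε') ε hε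
  refine h7.congr fun N => ?_
  congr 1
  refine sum_congr ?_ fun _ _ => rfl
  ext X
  rw [mem_filter, mem_filter]
  refine and_congr_right fun _ => ?_
  have h8 := conv_p (H₁ := H₁) (H₂ := H₂) (t_le hF) (c_pos hF) Squarefree g (Dt t c m E τ)
    q a r s₁ s₂ s₃ s₄ h3 h6 X
  have h9 : ∑ p ∈ (SW (t : ℤ) (c : ℤ) q a r s₁ s₂ s₃ s₄ X).filter
        (fun p => Squarefree (p.1 * p.2)),
        ((if H₁ p.1 + H₂ p.2 = g then (1 : ℂ) else 0) - 1 / (Nat.card (Dt t c m E τ) : ℂ)) =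
      ((∑ n ∈ (range (X + 1)).filter (fun n => 1 ≤ n + t ∧ n ≡ a [MOD q] ∧
        Squarefree (n ^ 2 + t * n + c)),
        ∑ d ∈ wd t c q r s₁ s₂ s₃ s₄ X n,
        ((if H₁ d + H₂ ((n ^ 2 + t * n + c) / d) = g then (1 : ℝ) else 0) -
          1 / (Nat.card (Dt t c m E τ) : ℝ)) : ℝ) : ℂ) := by
    convert h8
  rw [h9, Complex.norm_real, Real.norm_eq_abs]

end

end Pool.Agent.V11296.CW
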