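import Pool.Agent.V11296.CW2

/-!
Pairs (helper296), part 3: the number of the `n` with a factorisation of given type.
-/

set_option autoImplicit false

namespace Pool.Agent.V11296.CW

open Finset Filter
open Pool.Agent.W78.GA (Qd nm nm_cast nm_mul nm_pos mul_star_self' prim prim_iff prim_of_dvd
  prim_star prim_ne_zero)
open Pool.Agent.W78.EG
open Pool.Agent.W251.EG
open Pool.Agent.W251.EX (Sqp tt sum_null)
open Pool.Agent.V11296.CV

variable {A : Type} [AddCommGroup A]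

/-- admissible values, for all classes of `d` -/
def Alq (t c m q a : ℕ) (E : ℤ → ℤ → A) (τ : A) (H₁ H₂ : ℕ → A) (g : A) : Prop :=
  ∀ n d e : ℕ, n ≡ a [MOD q] → d * e = n ^ 2 + t * n + c → H₁ d + H₂ e - g ∈ Dt t c m E τ

open scoped Classical in
/-- the number of `n` -/
noncomputable def cw (t c q a : ℕ) (H₁ H₂ : ℕ → A) (g : A) (X : ℕ) : ℕ :=
  ((range (X + 1)).filter (fun n : ℕ => 1 ≤ n + t ∧ n ≡ a [MOD q] ∧
    Squarefree (n ^ 2 + t * n + c) ∧ ∃ d e : ℕ, d ≤ X ∧ e ≤ X ∧ d * e = n ^ 2 + t * n + c ∧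
      H₁ d + H₂ e = g)).card

theorem cw_mono (t c q a : ℕ) (H₁ H₂ : ℕ → A) (g : A) : Monotone (cw t c q a H₁ H₂ g) := by
  classical
  intro X Y h
  unfold cw
  refine card_le_card fun n hn => ?_
  rw [mem_filter, mem_range] at hn ⊢
  obtain ⟨h1, h2, h3, h4, d, e, h5, h6, h7, h8⟩ := hn
  exact ⟨by omega, h2, h3, h4, d, e, by omega, by omega, h7, h8⟩

section

variable {t c : ℕ} {f : ℕ} {χ : DirichletCharacter ℂ f} {m : ℕ} {E : ℤ → ℤ → A} {τ : A}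
  {H₁ H₂ : ℕ → A}

/-- admissible values -/
theorem alq_of (hF : Fd (t : ℤ) (c : ℤ) f χ) (h : Gp t c m E τ H₁ H₂) {q a : ℕ} {g : A}
    (hg : Dt t c m E τ = ⊤ ∨ (m ∣ q ∧ (a ^ 2 + t * a + c).Coprime m ∧
      ∀ x y u v : ℤ, x * u - c * y * v ≡ a [ZMOD m] → x * v + y * u + t * y * v ≡ 1 [ZMOD m] →
        E x y - E u v - g ∈ Dt t c m E τ)) :
    Alq t c m q a E τ H₁ H₂ g := by
  intro n d e hn hde
  refine alp_of hF h (q := q) (a := a) (r := d) (g := g) ?_ n d e hn rfl hde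
  rcases hg with h1 | ⟨h1, h2, h3⟩
  · exact Or.inl h1
  · exact Or.inr ⟨h1, h2, fun x y u v h4 h5 _ => h3 x y u v h4 h5⟩

open scoped Classical in
/-- all admissible values in a residue class, at almost all scales -/
theorem outCw [Finite A] (hF : Fd (t : ℤ) (c : ℤ) f χ) (hS : S_SPSc (t : ℤ) (c : ℤ))
    (h : Gp t c m E τ H₁ H₂) (g : A) (q a : ℕ) (hq : 1 ≤ q) (hal : Alq t c m q a E τ H₁ H₂ g)
    (hqa : ∀ l : ℕ, l.Prime → l ^ 2 ∣ q → ¬ l ^ 2 ∣ a ^ 2 + t * a + c) (ε : ℝ) (hε : 0 < ε) :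
    Tendsto (fun Z : ℕ => (∑ X ∈ (Icc 1 Z).filter (fun X : ℕ =>
      (cw t c q a H₁ H₂ g X : ℝ) < (X : ℝ) / Real.log X ^ (Real.log 2 + ε)), 1 / (X : ℝ)) /
      Real.log Z) atTop (nhds 0) := by
  have ht := t_le hF
  have hc := c_pos hF
  obtain ⟨D, hD⟩ : ∃ D : AddSubgroup A, D = Dt t c m E τ := ⟨_, rfl⟩
  obtain ⟨k, hk⟩ : ∃ k : ℕ, k = Nat.card D := ⟨_, rfl⟩
  have hk0 : (0 : ℝ) < k := by
    rw [hk]
    exact_mod_cast Nat.card_pos
  obtain ⟨c₁, hc₁, X₀, hlow⟩ := hS q a hq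
    (fun l hl hlq hd => hqa l hl hlq (by exact_mod_cast hd))
  obtain ⟨N₁, hpn⟩ := Pool.Agent.TH890.DV.pnL hF (c₁ / (2 * k)) ε (by positivity) hε
  obtain ⟨G, hG⟩ : ∃ G : ℕ × ℕ → ℂ, G = fun p => ((if H₁ p.1 + H₂ p.2 = g then (1 : ℂ) else 0) -
    1 / (Nat.card D : ℂ)) := ⟨_, rfl⟩
  have hnull : Tendsto (fun Z : ℕ => (∑ X ∈ (Icc 1 Z).filter (fun X : ℕ => c₁ / (2 * k) * X <
      ∑ r ∈ range q, ‖∑ p ∈ (SW (t : ℤ) (c : ℤ) q a r 0 1 0 1 X).filter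
      (fun p => Squarefree (p.1 * p.2)), G p‖), 1 / (X : ℝ)) / Real.log Z)
      atTop (nhds 0) := by
    have hav : ∀ (r : ℕ) (δ : ℝ), 0 < δ → ∃ N₀ : ℕ, ∀ N' : ℕ, N₀ ≤ N' →
        ∑ X ∈ Icc 1 N', 1 / (X : ℝ) ^ 2 *
        ‖∑ p ∈ (SW (t : ℤ) (c : ℤ) q a r 0 1 0 1 X).filter (fun p => Squarefree (p.1 * p.2)),
          G p‖ ≤ δ * Real.log N' := by
      intro r δ hδ
      have hal' : Alp t c m q a r E τ H₁ H₂ g := fun n d e hn _ hde => hal n d e hn hde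
      have h9 := avg_ts2 hF h g q a r hq hal' 0 1 0 1 le_rfl one_pos le_rfl le_rfl one_pos le_rfl
        δ hδ
      rw [hG, hD]
      exact h9
    have hav2 := fun r : ℕ => tt _ (hav r)
    exact sum_null hq (fun r _ => hav2 r) (c₁ / (2 * k)) (by positivity)
  refine null_of (max X₀ N₁) (fun X hX hlt => ?_) hnull
  by_contra hcon
  push Not at hcon
  have h1 := hlow X ((le_max_left _ _).trans hX)
  obtain ⟨B, hB⟩ : ∃ B : Finset (ℕ × ℕ), B = (SP (t : ℤ) (c : ℤ) X).filter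
    (fun p => Squarefree (p.1 * p.2) ∧ ∃ n : ℕ, 0 < 2 * (n : ℤ) + (t : ℤ) ∧
      (p.1 * p.2 : ℤ) = (n : ℤ) ^ 2 + (t : ℤ) * n + (c : ℤ) ∧ n ≡ a [MOD q]) := ⟨_, rfl⟩
  rw [← hB] at h1
  have hBm : ∀ p ∈ B, p ∈ SP (t : ℤ) (c : ℤ) X ∧ Squarefree (p.1 * p.2) ∧ 1 ≤ p.1 ∧ p.1 ≤ X ∧
      1 ≤ p.2 ∧ p.2 ≤ X ∧ ∃ n : ℕ, 1 ≤ n + t ∧ p.1 * p.2 = n ^ 2 + t * n + c ∧
      n ≡ a [MOD q] := by
    intro p hp
    rw [hB] at hp
    obtain ⟨h2, h3, n, h4, h5, h6⟩ := mem_filter.1 hp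
    obtain ⟨h7, h8⟩ := (fcond n p.1 p.2).1 ⟨h4, h5⟩
    have h9 := h2
    unfold SP at h9
    simp only [mem_filter, mem_product, mem_Icc] at h9
    exact ⟨h2, h3, h9.1.1.1, h9.1.1.2, h9.1.2.1, h9.1.2.2, n, h7, h8, h6⟩
  -- the sum over `B`
  have hsum : ‖∑ p ∈ B, G p‖ ≤ c₁ / (2 * k) * X := by
    refine le_trans ?_ hcon
    have h2 : ∑ p ∈ B, G p = ∑ r ∈ range q,
        ∑ p ∈ (SW (t : ℤ) (c : ℤ) q a r 0 1 0 1 X).filter (fun p => Squarefree (p.1 * p.2)),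
        G p := by
      rw [← sum_fiberwise_of_maps_to (s := B) (t := range q) (g := fun p : ℕ × ℕ => p.1 % q)
        (fun p _ => mem_range.2 (Nat.mod_lt _ (by omega)))]
      refine sum_congr rfl fun r hr => ?_
      refine sum_congr ?_ fun _ _ => rfl
      have hr' : r % q = r := Nat.mod_eq_of_lt (mem_range.1 hr)
      ext p
      rw [mem_filter, mem_filter, mem_SWn]
      constructor
      · rintro ⟨h3, h4⟩
        obtain ⟨h5, h6, h7, h8, h9, h10, n, h11, h12, h13⟩ := hBm p h3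
        refine ⟨⟨⟨⟨h7, h8⟩, h9, h10⟩, ⟨n, h11, h12, h13, ?_⟩, ?_, ?_, ?_, ?_⟩, h6⟩
        · show p.1 % q = r % q
          rw [h4, hr']
        · rw [zero_mul]; exact_mod_cast h7
        · rw [one_mul]; exact_mod_cast h8
        · rw [zero_mul]; exact_mod_cast h9
        · rw [one_mul]; exact_mod_cast h10
      · rintro ⟨⟨⟨h3, h4⟩, ⟨n, h5, h6, h7, h8⟩, _⟩, h9⟩
        have h10 := (fcond n p.1 p.2).2 ⟨h5, h6⟩
        refine ⟨?_, ?_⟩
        · rw [hB]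
          refine mem_filter.2 ⟨?_, h9, n, h10.1, h10.2, h7⟩
          unfold SP
          rw [mem_filter, mem_product, mem_Icc, mem_Icc]
          exact ⟨⟨h3, h4⟩, n, h10.1, h10.2⟩
        · have h11 : p.1 % q = r % q := h8
          rw [h11, hr']
    rw [h2]
    exact norm_sum_le _ _
  -- the pairs with the value `g`
  obtain ⟨S, hSd⟩ : ∃ S : Finset (ℕ × ℕ), S = B.filter
    (fun p => H₁ p.1 + H₂ p.2 = g) := ⟨_, rfl⟩
  have hS1 : c₁ / (2 * k) * X ≤ (S.card : ℝ) := by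
    have h2 : ∑ p ∈ B, G p = (((S.card : ℝ) - 1 / k * B.card : ℝ) : ℂ) := by
      rw [hG, sum_sub_distrib, sum_boole, hSd, sum_const, nsmul_eq_mul, ← hk]
      push_cast
      ring
    rw [h2, Complex.norm_real, Real.norm_eq_abs] at hsum
    have h5 := (abs_le.1 hsum).1
    have h6 : 1 / (k : ℝ) * (c₁ * X) ≤ 1 / k * B.card :=
      mul_le_mul_of_nonneg_left h1 (by positivity)
    have h7 : 1 / (k : ℝ) * (c₁ * X) = c₁ / (2 * k) * X + c₁ / (2 * k) * X := by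
      field_simp
      ring
    linarith
  have hSm : ∀ p ∈ S, p ∈ B ∧ H₁ p.1 + H₂ p.2 = g := by
    intro p hp
    rw [hSd] at hp
    exact mem_filter.1 hp
  have h3 := hpn X ((le_max_right _ _).trans hX) S
    (fun p hp => ⟨(hBm p (hSm p hp).1).1, (hBm p (hSm p hp).1).2.1⟩) hS1
  have h4 : (S.image (fun p : ℕ × ℕ => Nat.sqrt (p.1 * p.2 - c))).card ≤
      cw t c q a H₁ H₂ g X := by
    unfold cw
    refine card_le_card fun n hn => ?_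
    obtain ⟨p, hp, rfl⟩ := mem_image.1 hn
    obtain ⟨hpB, hpe⟩ := hSm p hp
    obtain ⟨_, hsf, _, h8, _, h10, n, h11, h12, h13⟩ := hBm p hpB
    have h14 : Nat.sqrt (p.1 * p.2 - c) = n := by
      rw [h12]
      exact fsqrt ht n
    rw [h14, mem_filter, mem_range]
    refine ⟨?_, h11, h13, h12 ▸ hsf, p.1, p.2, h8, h10, h12, hpe⟩
    by_contra hcon2
    push Not at hcon2
    have h15 : p.1 * p.2 ≤ X * X := Nat.mul_le_mul h8 h10
    nlinarith [Nat.zero_le (t * n)]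
  have h5 : ((S.image (fun p : ℕ × ℕ => Nat.sqrt (p.1 * p.2 - c))).card : ℝ) ≤
      cw t c q a H₁ H₂ g X := by
    exact_mod_cast h4
  linarith

/-- all large scales -/
theorem outCwAll [Finite A] (hF : Fd (t : ℤ) (c : ℤ) f χ) (hS : S_SPSc (t : ℤ) (c : ℤ))
    (h : Gp t c m E τ H₁ H₂) (g : A) (q a : ℕ) (hq : 1 ≤ q) (hal : Alq t c m q a E τ H₁ H₂ g)
    (hqa : ∀ l : ℕ, l.Prime → l ^ 2 ∣ q → ¬ l ^ 2 ∣ a ^ 2 + t * a + c) (δ : ℝ) (hδ : 0 < δ) :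
    ∃ N₀ : ℕ, ∀ N : ℕ, N₀ ≤ N → (N : ℝ) ^ (1 - δ) ≤ cw t c q a H₁ H₂ g N := by
  refine all_of (cw_mono t c q a H₁ H₂ g) (fun ε hε => ?_) δ hδ
  have hl2 := Real.log_pos (show (1 : ℝ) < 2 by norm_num)
  have h1 := outCw hF hS h g q a hq hal hqa (Real.log 2 + ε) (by linarith)
  have h2 : Real.log 2 + (Real.log 2 + ε) = 2 * Real.log 2 + ε := by ring
  rwa [h2] at h1

end

end Pool.Agent.V11296.CW
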