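import Pool.Agent.V11296.CW3
import Pool.Agent.V11296.CQ1

/-!
Pairs (helper296), part 4: the numbers of prime factors of both factors modulo `k` and the parities of
the numbers of prime factors in residue classes.
-/

set_option autoImplicit false

namespace Pool.Agent.V11296.CW

open Finset Filter
open Pool.Agent.W78.EG
open Pool.Agent.W251.EG
open Pool.Agent.V11296.CV
open Pool.Agent.V11296.CQ

/-- the finite group -/
abbrev Bk (m k : ℕ) : Type := ZMod k × ZMod k × ((ZMod m)ˣ → ZMod 2)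

/-- the embedding of the smaller group -/
def emb {m k : ℕ} (u : Ak m k) : Bk m k := (u.1, 0, u.2)

theorem emb_add {m k : ℕ} (u v : Ak m k) : emb (u + v) = emb u + emb v := by
  unfold emb
  refine Prod.ext rfl (Prod.ext ?_ rfl)
  show (0 : ZMod k) = 0 + 0
  rw [add_zero]

/-- the function for the first factor -/
noncomputable def H1 (m k : ℕ) (N : ℕ) : Bk m k :=
  ((N.primeFactorsList.length : ZMod k), 0, (Hk m k N).2)

/-- the function for the second factor -/
noncomputable def H2 (m k : ℕ) (N : ℕ) : Bk m k :=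
  (0, (N.primeFactorsList.length : ZMod k), (Hk m k N).2)

/-- the function on the classes -/
noncomputable def E1 (t c m k : ℕ) (x y : ℤ) : Bk m k := emb (Ek t c m k x y)

theorem H1_eq (m k N : ℕ) : H1 m k N = emb (Hk m k N) := rfl

theorem gpk (t c m k : ℕ) (hm : 1 ≤ m) :
    Gp t c m (E1 t c m k) ((1, 1, 0) : Bk m k) (H1 m k) (H2 m k) where
  pos := hm
  add₁ := by
    intro x y hx hy
    rw [H1_eq, H1_eq, H1_eq, (gvk t c m k hm).add x y hx hy, emb_add]
  add₂ := by
    intro x y hx hy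
    have h := (gvk t c m k hm).add x y hx hy
    have h1 := congrArg Prod.fst h
    have h2 := congrArg Prod.snd h
    refine Prod.ext ?_ (Prod.ext h1 h2)
    show (0 : ZMod k) = 0 + 0
    rw [add_zero]
  two := by
    intro p hp
    have h := Hk_prime m k p hp
    have h1 := congrArg Prod.fst h
    have h2 := congrArg Prod.snd h
    refine Prod.ext ?_ (Prod.ext ?_ ?_)
    · show (Hk m k p).1 + 0 = 1
      rw [h1, add_zero]
    · show 0 + (Hk m k p).1 = 1
      rw [h1, zero_add]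
    · show (Hk m k p).2 + (Hk m k p).2 = 0
      exact CharTwo.add_self_eq_zero _
  per := by
    intro x y u v h1 h2
    unfold E1
    rw [(gvk t c m k hm).per x y u v h1 h2]
  val := by
    intro x y p hp hpm hxy
    rw [H1_eq, (gvk t c m k hm).val x y p hp hpm hxy]
    rfl

section

variable {t c m k : ℕ}

/-- the embedding maps defects to defects -/
theorem emb_mem {u : Ak m k} (hu : u ∈ Df t c m (Ek t c m k)) :
    emb u ∈ Dt t c m (E1 t c m k) ((1, 1, 0) : Bk m k) := by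
  refine df_le ?_
  unfold Df at hu ⊢
  induction hu using AddSubgroup.closure_induction with
  | mem g hg =>
    obtain ⟨x, y, u, v, h1, h2, rfl⟩ := hg
    refine AddSubgroup.subset_closure ⟨x, y, u, v, h1, h2, ?_⟩
    unfold E1 emb
    refine Prod.ext rfl (Prod.ext ?_ rfl)
    show (0 : ZMod k) = 0 + 0 - 0
    ring
  | zero =>
    have : emb (0 : Ak m k) = 0 := rfl
    rw [this]
    exact zero_mem _
  | add x y _ _ hx hy =>
    rw [emb_add]
    exact add_mem hx hy
  | neg x _ hx =>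
    have : emb (-x) = -emb x := by
      unfold emb
      refine Prod.ext rfl (Prod.ext ?_ rfl)
      show (0 : ZMod k) = -0
      ring
    rw [this]
    exact neg_mem hx

/-- the coset -/
theorem coset_pair {v i j : ℕ} (T : Finset (ZMod m)ˣ) (h : Admn t c m k v (i + j) T)
    (hk : 1 ≤ k) {a b : ZMod m} (ha : isN t c m a) (hb : isN t c m b) (hab : a * b = (v : ZMod m)) :
    ((0, 0, ev m a - ev m b) : Bk m k) -
      ((i : ZMod k), (j : ZMod k), ∑ b ∈ T, ev m (b : ZMod m)) ∈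
      Dt t c m (E1 t c m k) ((1, 1, 0) : Bk m k) := by
  have hv : isN t c m (v : ZMod m) := hab ▸ isN_mul ha hb
  have hA : Admn t c m k v (2 + i + (k - 1) * j) T := by
    refine ⟨h.1, fun h2k => ?_, h.2.2⟩
    refine (h.2.1 h2k).trans ?_
    obtain ⟨w, hw⟩ := h2k
    obtain ⟨w', hw'⟩ : ∃ w', w = w' + 1 := ⟨w - 1, by omega⟩
    have h3 : 2 + i + (k - 1) * j = i + j + 2 * (1 + w' * j) := by
      have h4 : k - 1 = 2 * w' + 1 := by omega
      rw [h4]
      ring
    rw [h3]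
    show (i + j) % 2 = (i + j + 2 * (1 + w' * j)) % 2
    omega
  have h1 := emb_mem (coset_k (k := k) hv T hA)
  have h2 := emb_mem (dfk (k := k) ha hb)
  have h3 := zsmul_mem (tau_mem (t := t) (c := c) (m := m) (E := E1 t c m k)
    (τ := ((1, 1, 0) : Bk m k))) (-(j : ℤ))
  have h4 := add_mem (add_mem h1 h2) h3
  have h5 : emb (((1, ev m (v : ZMod m)) : Ak m k) -
      (((2 + i + (k - 1) * j : ℕ) : ZMod k), ∑ b ∈ T, ev m (b : ZMod m))) +
      emb ((1, ev m a + ev m b - ev m (a * b)) : Ak m k) + (-(j : ℤ)) • ((1, 1, 0) : Bk m k) =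
      ((0, 0, ev m a - ev m b) : Bk m k) -
        ((i : ZMod k), (j : ZMod k), ∑ b ∈ T, ev m (b : ZMod m)) := by
    refine Prod.ext ?_ (Prod.ext ?_ ?_)
    · show (1 : ZMod k) - ((2 + i + (k - 1) * j : ℕ) : ZMod k) + 1 + (-(j : ℤ)) • (1 : ZMod k) =
        0 - (i : ZMod k)
      rw [zsmul_eq_mul]
      push_cast [Nat.cast_sub hk]
      rw [ZMod.natCast_self]
      ring
    · show (0 : ZMod k) + 0 + (-(j : ℤ)) • (1 : ZMod k) = 0 - (j : ZMod k)
      rw [zsmul_eq_mul]
      push_cast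
      ring
    · show ev m (v : ZMod m) - ∑ b ∈ T, ev m (b : ZMod m) +
        (ev m a + ev m b - ev m (a * b)) + (-(j : ℤ)) • (0 : (ZMod m)ˣ → ZMod 2) =
        ev m a - ev m b - ∑ b ∈ T, ev m (b : ZMod m)
      rw [hab, smul_zero, add_zero]
      have h6 : ev m b + ev m b = 0 := CharTwo.add_self_eq_zero _
      have h7 : ev m (v : ZMod m) - ∑ b ∈ T, ev m (b : ZMod m) +
          (ev m a + ev m b - ev m (v : ZMod m)) =
          ev m a - ev m b - ∑ b ∈ T, ev m (b : ZMod m) + (ev m b + ev m b) := by abel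
      rw [h7, h6, add_zero]
  rw [h5] at h4
  exact h4

end

section

variable {t c : ℕ} {f : ℕ} {χ : DirichletCharacter ℂ f}

theorem alq_k (hF : Fd (t : ℤ) (c : ℤ) f χ) {m k : ℕ} (hm : 1 ≤ m) (hk : 1 ≤ k) {q a i j : ℕ}
    (hmq : m ∣ q) (ha : (a ^ 2 + t * a + c).Coprime m) (T : Finset (ZMod m)ˣ)
    (h : Admn t c m k (a ^ 2 + t * a + c) (i + j) T) :
    Alq t c m q a (E1 t c m k) ((1, 1, 0) : Bk m k) (H1 m k) (H2 m k)
      (((i : ZMod k), (j : ZMod k), ∑ b ∈ T, ev m (b : ZMod m)) : Bk m k) := by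
  refine alq_of hF (gpk t c m k hm) (Or.inr ⟨hmq, ha, ?_⟩)
  intro x y u v h1 h2
  -- the norms of the two factors
  have h3 : (x ^ 2 + t * x * y + c * y ^ 2) * (u ^ 2 + t * u * v + c * v ^ 2) ≡
      ((a ^ 2 + t * a + c : ℕ) : ℤ) [ZMOD m] := by
    have h4 : (x ^ 2 + t * x * y + c * y ^ 2) * (u ^ 2 + t * u * v + c * v ^ 2) =
        (x * u - c * y * v) ^ 2 + t * (x * u - c * y * v) * (x * v + y * u + t * y * v) +
        c * (x * v + y * u + t * y * v) ^ 2 := by ring
    have h5 : ((a ^ 2 + t * a + c : ℕ) : ℤ) = (a : ℤ) ^ 2 + t * a * 1 + c * 1 ^ 2 := by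
      push_cast
      ring
    rw [h4, h5]
    exact ((h1.pow 2).add ((h1.mul_left _).mul h2)).add ((h2.pow 2).mul_left _)
  have h4 : ((x ^ 2 + t * x * y + c * y ^ 2 : ℤ) : ZMod m) *
      ((u ^ 2 + t * u * v + c * v ^ 2 : ℤ) : ZMod m) = ((a ^ 2 + t * a + c : ℕ) : ZMod m) := by
    rw [← Int.cast_mul, (ZMod.intCast_eq_intCast_iff _ _ _).2 h3]
    simp
  have h5 : IsCoprime ((x ^ 2 + t * x * y + c * y ^ 2) * (u ^ 2 + t * u * v + c * v ^ 2))
      (m : ℤ) := by
    obtain ⟨w, hw⟩ := h3.symm.dvd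
    have h6 : (x ^ 2 + t * x * y + c * y ^ 2) * (u ^ 2 + t * u * v + c * v ^ 2) =
        ((a ^ 2 + t * a + c : ℕ) : ℤ) + w * m := by linarith [mul_comm w (m : ℤ)]
    rw [h6]
    exact (IsCoprime.add_mul_right_left (Nat.isCoprime_iff_coprime.2 ha) w)
  have hz : isN t c m ((x ^ 2 + t * x * y + c * y ^ 2 : ℤ) : ZMod m) :=
    ⟨x, y, h5.of_mul_left_left, rfl⟩
  have hw : isN t c m ((u ^ 2 + t * u * v + c * v ^ 2 : ℤ) : ZMod m) :=
    ⟨u, v, h5.of_mul_left_right, rfl⟩
  have h6 := coset_pair (i := i) (j := j) T h hk hz hw h4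
  have h7 : E1 t c m k x y - E1 t c m k u v = ((0, 0,
      ev m ((x ^ 2 + t * x * y + c * y ^ 2 : ℤ) : ZMod m) -
      ev m ((u ^ 2 + t * u * v + c * v ^ 2 : ℤ) : ZMod m)) : Bk m k) := by
    unfold E1 emb Ek
    refine Prod.ext ?_ (Prod.ext ?_ rfl)
    · show (1 : ZMod k) - 1 = 0
      ring
    · show (0 : ZMod k) - 0 = 0
      ring
  rw [h7]
  exact h6

end

/-- the values with given classes -/
theorem pair_iff {m k : ℕ} [NeZero m] (d e i j : ℕ) (hd : d ≠ 0) (he : e ≠ 0)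
    (T : Finset (ZMod m)ˣ) :
    H1 m k d + H2 m k e = (((i : ZMod k), (j : ZMod k), ∑ b ∈ T, ev m (b : ZMod m)) : Bk m k) ↔
      (d.primeFactorsList.length ≡ i [MOD k] ∧ e.primeFactorsList.length ≡ j [MOD k] ∧
        oddc m (d * e) = T) := by
  have h1 := Hk_eq_iff (m := m) (k := k) (d * e) (d * e).primeFactorsList.length T
  have h2 : (Hk m k (d * e)).2 = (Hk m k d).2 + (Hk m k e).2 := by
    rw [(gvk 0 1 m k (Nat.one_le_iff_ne_zero.2 (NeZero.ne m))).add d e hd he]
    rfl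
  have h3 : (Hk m k (d * e)).2 = ∑ b ∈ T, ev m (b : ZMod m) ↔ oddc m (d * e) = T := by
    constructor
    · intro h4
      exact (h1.1 (Prod.ext rfl h4)).2
    · intro h4
      exact congrArg Prod.snd (h1.2 ⟨rfl, h4⟩)
  rw [← h3, h2]
  constructor
  · intro h4
    have h5 : ((d.primeFactorsList.length : ZMod k)) + 0 = (i : ZMod k) := congrArg Prod.fst h4
    have h6 : 0 + ((e.primeFactorsList.length : ZMod k)) = (j : ZMod k) :=
      congrArg (fun z => z.2.1) h4
    have h7 : (Hk m k d).2 + (Hk m k e).2 = ∑ b ∈ T, ev m (b : ZMod m) :=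
      congrArg (fun z => z.2.2) h4
    rw [add_zero] at h5
    rw [zero_add] at h6
    exact ⟨(ZMod.natCast_eq_natCast_iff _ _ _).1 h5, (ZMod.natCast_eq_natCast_iff _ _ _).1 h6, h7⟩
  · rintro ⟨h5, h6, h7⟩
    refine Prod.ext ?_ (Prod.ext ?_ h7)
    · show ((d.primeFactorsList.length : ZMod k)) + 0 = (i : ZMod k)
      rw [add_zero]
      exact (ZMod.natCast_eq_natCast_iff _ _ _).2 h5
    · show 0 + ((e.primeFactorsList.length : ZMod k)) = (j : ZMod k)
      rw [zero_add]
      exact (ZMod.natCast_eq_natCast_iff _ _ _).2 h6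

end Pool.Agent.V11296.CW
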