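import Pool.Agent.V11296.CW4
import Pool.Agent.W251.EG.Out4
import Pool.Agent.W293.EG.Finl

/-!
General quadratic polynomials `a m^2 + b m + e` of class number one discriminants (helper296), part 1:
pairs of completely additive functions with values in a finite abelian group.
-/

set_option autoImplicit false

namespace Pool.Agent.V11296.CX

open Finset Filter
open Pool.Agent.W78.GA (Qd nm nm_cast nm_mul nm_pos mul_star_self' prim prim_iff prim_of_dvd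
  prim_star prim_ne_zero)
open Pool.Agent.W78.EG
open Pool.Agent.W251.EG
open Pool.Agent.W251.EX (Sqp tt sum_null)
open Pool.Agent.TH890.DV (LogNull LogNull.of_or LogNull.of_ev)
open Pool.Agent.V11296.CV
open Pool.Agent.V11296.CW

/-- sums of functions which are small at almost all scales -/
theorem null_sum {ι : Type} (s : Finset ι) (h : ι → ℕ → ℝ)
    (hn : ∀ i ∈ s, ∀ ε : ℝ, 0 < ε → LogNull (fun X : ℕ => ε * X < h i X)) :
    ∀ ε : ℝ, 0 < ε → LogNull (fun X : ℕ => ε * X < ∑ i ∈ s, h i X) := by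
  classical
  induction s using Finset.induction_on with
  | empty =>
    intro ε hε
    refine LogNull.of_ev 0 (fun X _ hX => ?_) Pool.Agent.TH890.DV.LogNull.empty
    rw [sum_empty] at hX
    have : 0 ≤ ε * X := by positivity
    exact absurd hX (not_lt.2 this)
  | insert i s hi ih =>
    intro ε hε
    refine LogNull.of_or (fun X hX => ?_) (hn i (mem_insert_self _ _) (ε / 2) (by positivity))
      (ih (fun j hj => hn j (mem_insert_of_mem hj)) (ε / 2) (by positivity))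
    rw [sum_insert hi] at hX
    by_contra hcon
    push Not at hcon
    linarith [hcon.1, hcon.2]

/-- the theorem for the pairs `(d, d')` with `d d' = a m^2 + b m + e`, one of the functions being
aperiodic -/
theorem outV2 {t c : ℕ} {f : ℕ} {χ : DirichletCharacter ℂ f} (hF : Fd (t : ℤ) (c : ℤ) f χ)
    {a b e : ℤ} (ha : 0 < a) (hdisc : b ^ 2 - 4 * a * e = (t : ℤ) ^ 2 - 4 * (c : ℤ))
    {N : ℕ} {τ : ℂ} {g₁ g₂ : ℕ → ℂ} (hg : FGc χ N τ g₁ g₂)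
    (hap : Apd N (fun z : Qd (t : ℤ) (c : ℤ) => g₁ (nm z)) ∨
      Apd N (fun z : Qd (t : ℤ) (c : ℤ) => g₂ (nm z)))
    (q : ℕ) (hq : 1 ≤ q) (u r : ℕ) (s₁ s₂ s₃ s₄ ε : ℝ) (hs₁ : 0 ≤ s₁) (hs₁₂ : s₁ < s₂)
    (hs₃ : 0 ≤ s₃) (hs₃₄ : s₃ < s₄) (hε : 0 < ε) :
    LogNull (fun X : ℕ => ε * X <
      ‖∑ p ∈ SV a b e q u r s₁ s₂ s₃ s₄ X, g₁ p.1 * g₂ p.2‖) := by
  classical
  obtain ⟨n₀, A, C, K, hA1, hC1, hC2, hC4, hK, hle⟩ := sum_le hF ha hdisc hq u r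
    (s₁ := s₁) (s₂ := s₂) (s₃ := s₃) (s₄ := s₄) (by linarith) (by linarith) hg.pos hg.m₁ hg.p₁
    hg.p₂
  have hC0 : (0 : ℝ) < C := by exact_mod_cast hC1
  have hA0 : (0 : ℝ) < A := by exact_mod_cast hA1
  unfold LogNull
  refine Pool.Agent.W347.EG.bad_scales (g := fun X => ‖∑ p ∈ SV a b e q u r s₁ s₂ s₃ s₄ X,
    g₁ p.1 * g₂ p.2‖) (g' := fun X => ‖∑ p ∈ SW (t : ℤ) (c : ℤ) (A * q) n₀ (A * r) (A * s₁ / C)
    (A * s₂ / C) (s₃ / C) (s₄ / C) X, g₁ p.1 * g₂ p.2‖) hC1 hle (fun ε' hε' => ?_) hε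
  refine tt (fun X => ∑ p ∈ SW (t : ℤ) (c : ℤ) (A * q) n₀ (A * r) (A * s₁ / C)
    (A * s₂ / C) (s₃ / C) (s₄ / C) X, g₁ p.1 * g₂ p.2) (fun δ hδ => ?_) ε' hε'
  obtain ⟨N₀, h⟩ := twG hF N τ g₁ g₂ hg hap (A * q) n₀ (A * r) 0
    (Nat.one_le_iff_ne_zero.2 (by positivity)) (A * s₁ / C) (A * s₂ / C) (s₃ / C) (s₄ / C)
    (by positivity) (by gcongr) (by rwa [div_le_one hC0]) (by positivity) (by gcongr)
    (by rwa [div_le_one hC0]) δ hδ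
  refine ⟨N₀, fun N' hN' => le_trans (le_of_eq (sum_congr rfl fun X _ => ?_)) (h N' hN')⟩
  have e0 : (SW (t : ℤ) (c : ℤ) (A * q) n₀ (A * r) (A * s₁ / C)
    (A * s₂ / C) (s₃ / C) (s₄ / C) X).filter (Sqp 0) =
      SW (t : ℤ) (c : ℤ) (A * q) n₀ (A * r) (A * s₁ / C)
    (A * s₂ / C) (s₃ / C) (s₄ / C) X := by
    refine filter_true_of_mem fun p _ l hl hp => ?_
    have := hp.pos
    omega
  rw [e0]

variable {A : Type} [AddCommGroup A]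

open scoped Classical in
/-- Fourier analysis, for one set of pairs -/
theorem fourier_pt [Finite A] {D : AddSubgroup A} {H₁ H₂ : ℕ → A} (g : A)
    (S : Finset (ℕ × ℕ)) (hS : ∀ p ∈ S, H₁ p.1 + H₂ p.2 - g ∈ D) :
    ‖∑ p ∈ S, ((if H₁ p.1 + H₂ p.2 = g then (1 : ℂ) else 0) -
      1 / (Nat.card D : ℂ))‖ ≤ ∑ ψ ∈ nt D, ‖∑ p ∈ S, ψ (H₁ p.1) * ψ (H₂ p.2)‖ := by
  have h1 : ∑ p ∈ S, ((if H₁ p.1 + H₂ p.2 = g then (1 : ℂ) else 0) - 1 / (Nat.card D : ℂ)) =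
      1 / (Nat.card A : ℂ) * ∑ ψ ∈ nt D, ψ (-g) * ∑ p ∈ S, ψ (H₁ p.1) * ψ (H₂ p.2) := by
    rw [sum_congr rfl (g := fun p => 1 / (Nat.card A : ℂ) * ∑ ψ ∈ nt D,
      ψ (-g) * (ψ (H₁ p.1) * ψ (H₂ p.2))), ← mul_sum, sum_comm]
    · refine congrArg _ (sum_congr rfl fun ψ _ => ?_)
      rw [mul_sum]
    · intro p hp
      have h4 := ind_eq D (H₁ p.1 + H₂ p.2 - g) (hS p hp)
      simp only [sub_eq_zero] at h4
      rw [h4]
      refine congrArg _ (sum_congr rfl fun ψ _ => ?_)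
      rw [← AddChar.map_add_eq_mul, ← AddChar.map_add_eq_mul]
      congr 1
      abel
  rw [h1, norm_mul]
  have h2 : ‖(1 / (Nat.card A : ℂ) : ℂ)‖ ≤ 1 := by
    rw [norm_div, norm_one, Complex.norm_natCast]
    have : (1 : ℝ) ≤ Nat.card A := by exact_mod_cast (Nat.card_pos (α := A))
    rw [div_le_one (by linarith)]
    exact this
  calc ‖(1 / (Nat.card A : ℂ) : ℂ)‖ * ‖∑ ψ ∈ nt D, ψ (-g) * ∑ p ∈ S, ψ (H₁ p.1) * ψ (H₂ p.2)‖
      ≤ 1 * ‖∑ ψ ∈ nt D, ψ (-g) * ∑ p ∈ S, ψ (H₁ p.1) * ψ (H₂ p.2)‖ :=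
        mul_le_mul_of_nonneg_right h2 (norm_nonneg _)
    _ ≤ ∑ ψ ∈ nt D, ‖ψ (-g) * ∑ p ∈ S, ψ (H₁ p.1) * ψ (H₂ p.2)‖ := by
        rw [one_mul]
        exact norm_sum_le _ _
    _ = _ := by
        refine sum_congr rfl fun ψ _ => ?_
        rw [norm_mul, chnrm, one_mul]

section

variable {t c : ℕ} {f : ℕ} {χ : DirichletCharacter ℂ f} {m : ℕ} {E : ℤ → ℤ → A} {τ : A}
  {H₁ H₂ : ℕ → A}

open scoped Classical in
/-- equidistribution in the coset, at almost all scales -/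
theorem nullV [Finite A] (hF : Fd (t : ℤ) (c : ℤ) f χ) (h : Gp t c m E τ H₁ H₂) (g : A)
    {a b e : ℤ} (ha : 0 < a) (hdisc : b ^ 2 - 4 * a * e = (t : ℤ) ^ 2 - 4 * (c : ℤ))
    (q : ℕ) (hq : 1 ≤ q) (u r : ℕ)
    (hal : ∀ n d d' : ℕ, 1 ≤ d → 1 ≤ d' → n ≡ u [MOD q] → d ≡ r [MOD q] →
      (d * d' : ℤ) = a * (n : ℤ) ^ 2 + b * n + e → H₁ d + H₂ d' - g ∈ Dt t c m E τ)
    (s₁ s₂ s₃ s₄ : ℝ) (h1 : 0 ≤ s₁)
    (h2 : s₁ < s₂) (h4 : 0 ≤ s₃) (h5 : s₃ < s₄) (ε : ℝ) (hε : 0 < ε) :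
    LogNull (fun X : ℕ => ε * X < |∑ p ∈ SV a b e q u r s₁ s₂ s₃ s₄ X,
      ((if H₁ p.1 + H₂ p.2 = g then (1 : ℝ) else 0) - 1 / (Nat.card (Dt t c m E τ) : ℝ))|) := by
  refine LogNull.of_ev 0 (fun X _ hX => ?_) (null_sum (nt (Dt t c m E τ))
    (fun ψ X => ‖∑ p ∈ SV a b e q u r s₁ s₂ s₃ s₄ X, ψ (H₁ p.1) * ψ (H₂ p.2)‖)
    (fun ψ hψ ε' hε' => outV2 hF ha hdisc (fgp h χ ψ) (apdp hF h ψ (by
      unfold nt at hψ
      simpa using hψ)) q hq u r s₁ s₂ s₃ s₄ ε' h1 h2 h4 h5 hε') ε hε)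
  refine lt_of_lt_of_le hX ?_
  have h6 := fourier_pt (D := Dt t c m E τ) (H₁ := H₁) (H₂ := H₂) g
    (SV a b e q u r s₁ s₂ s₃ s₄ X) (fun p hp => by
      unfold SV at hp
      rw [mem_filter, mem_product, mem_Icc, mem_Icc] at hp
      obtain ⟨⟨⟨h7, _⟩, h8, _⟩, _, _, n, h9, h10, h11⟩ := hp
      exact hal n p.1 p.2 h7 h8 h10 h11 h9)
  have h7 : ∑ p ∈ SV a b e q u r s₁ s₂ s₃ s₄ X, ((if H₁ p.1 + H₂ p.2 = g then (1 : ℂ) else 0) -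
      1 / (Nat.card (Dt t c m E τ) : ℂ)) = ((∑ p ∈ SV a b e q u r s₁ s₂ s₃ s₄ X,
      ((if H₁ p.1 + H₂ p.2 = g then (1 : ℝ) else 0) - 1 / (Nat.card (Dt t c m E τ) : ℝ)) : ℝ) :
      ℂ) := by
    rw [Complex.ofReal_sum]
    refine sum_congr rfl fun p _ => ?_
    split_ifs
    · push_cast
      ring
    · push_cast
      ring
  rw [h7, Complex.norm_real, Real.norm_eq_abs] at h6
  exact h6

/-- the value of an additive function at a norm `f(n)` with `a f(n) = F(a n + β)` -/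
theorem val_quotZ (hF : Fd (t : ℤ) (c : ℤ) f χ) {H : ℕ → A} (h : Gw t c m E H) {a N : ℕ} {n : ℤ}
    (ha : 1 ≤ a) (hN : (a * N : ℤ) = n ^ 2 + t * n + c) (hcop : N.Coprime m) :
    ∃ x y : ℤ, x ^ 2 + t * x * y + c * y ^ 2 = N ∧ H N - E x y ∈ Df t c m E := by
  have hD := hDG hF
  have hnz : nm (⟨n, 1⟩ : Qd (t : ℤ) (c : ℤ)) = a * N := by
    have h1 : ((nm (⟨n, 1⟩ : Qd (t : ℤ) (c : ℤ)) : ℕ) : ℤ) = ((a * N : ℕ) : ℤ) := by
      rw [nm_cast hD]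
      push_cast
      rw [hN]
      ring
    exact_mod_cast h1
  have hpr : prim (⟨n, 1⟩ : Qd (t : ℤ) (c : ℤ)) := by
    unfold prim
    simp
  obtain ⟨x, y, hxy, hx⟩ := CW.split_prim hF a (⟨n, 1⟩ : Qd (t : ℤ) (c : ℤ)) hpr
    (by rw [hnz]; exact Dvd.intro _ rfl)
  have hny : nm y = N := by
    have h1 : a * nm y = a * N := by rw [← hnz, hxy, nm_mul, hx]
    exact Nat.eq_of_mul_eq_mul_left (by omega) h1
  have hpy : prim y := prim_of_dvd hpr ⟨x, by rw [hxy, mul_comm]⟩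
  refine ⟨y.re, y.im, ?_, CW.val_prim hF h N y hpy hny hcop⟩
  rw [← nm_cast hD, hny]

/-- prime factors of a norm `f(n)` with `a f(n) = F(a n + β)` -/
theorem prime_quotZ (hF : Fd (t : ℤ) (c : ℤ) f χ) {a N : ℕ} {n : ℤ}
    (hN : (a * N : ℤ) = n ^ 2 + t * n + c) {p : ℕ} (hp : p.Prime) (hpN : p ∣ N) :
    ∃ π : Qd (t : ℤ) (c : ℤ), nm π = p := by
  have hD := hDG hF
  have hnz : nm (⟨n, 1⟩ : Qd (t : ℤ) (c : ℤ)) = a * N := by
    have h1 : ((nm (⟨n, 1⟩ : Qd (t : ℤ) (c : ℤ)) : ℕ) : ℤ) = ((a * N : ℕ) : ℤ) := by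
      rw [nm_cast hD]
      push_cast
      rw [hN]
      ring
    exact_mod_cast h1
  have hpr : prim (⟨n, 1⟩ : Qd (t : ℤ) (c : ℤ)) := by
    unfold prim
    simp
  obtain ⟨π, w, _, h2⟩ := prime_above hF hpr hp (by rw [hnz]; exact hpN.trans (Dvd.intro_left _ rfl))
  exact ⟨π, h2⟩

end

end Pool.Agent.V11296.CX
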