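import Pool.Agent.V11296.CX1
import Pool.Agent.W78.EG.Out

/-!
General quadratic polynomials `a m^2 + b m + e` of class number one discriminants (helper296), part 2:
logarithmic weights.
-/

set_option autoImplicit false

namespace Pool.Agent.V11296.CX

open Finset Filter
open Pool.Agent.W78.GA (Qd nm)
open Pool.Agent.W78.EG
open Pool.Agent.W251.EG
open Pool.Agent.W293.EG (PP mem_PP wt wt_nonneg compare scale_sum abel mem_SV ev_log)
open Pool.Agent.TH890.DV (LogNull)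
open Pool.Agent.V11296.CV
open Pool.Agent.V11296.CW

variable {A : Type} [AddCommGroup A]

open scoped Classical in
/-- the deviation from equidistribution of one pair -/
noncomputable def phi (H₁ H₂ : ℕ → A) (g : A) (D : AddSubgroup A) (p : ℕ × ℕ) : ℝ :=
  (if H₁ p.1 + H₂ p.2 = g then (1 : ℝ) else 0) - 1 / (Nat.card D : ℝ)

theorem abs_phi [Finite A] (H₁ H₂ : ℕ → A) (g : A) (D : AddSubgroup A) (p : ℕ × ℕ) :
    |phi H₁ H₂ g D p| ≤ 1 := by
  have h0 : (0 : ℝ) < Nat.card D := by exact_mod_cast (Nat.card_pos (α := D))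
  have h1 : 1 / (Nat.card D : ℝ) ≤ 1 := by
    rw [div_le_one h0]
    exact_mod_cast (Nat.card_pos (α := D))
  have h2 : 0 < 1 / (Nat.card D : ℝ) := by positivity
  unfold phi
  rw [abs_le]
  split_ifs <;> constructor <;> linarith

section

variable {t c : ℕ} {f : ℕ} {χ : DirichletCharacter ℂ f} {m : ℕ} {E : ℤ → ℤ → A} {τ : A}
  {H₁ H₂ : ℕ → A}

/-- all the values are in the coset of `g` -/
def Alf (a b e : ℤ) (t c m q u : ℕ) (E : ℤ → ℤ → A) (τ : A) (H₁ H₂ : ℕ → A) (g : A) : Prop :=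
  ∀ n d d' : ℕ, 1 ≤ d → 1 ≤ d' → n ≡ u [MOD q] →
    (d * d' : ℤ) = a * (n : ℤ) ^ 2 + b * n + e → H₁ d + H₂ d' - g ∈ Dt t c m E τ

open scoped Classical in
theorem smallW [Finite A] (hF : Fd (t : ℤ) (c : ℤ) f χ) (h : Gp t c m E τ H₁ H₂) (g : A)
    {a b e : ℤ} (ha : 0 < a) (hdisc : b ^ 2 - 4 * a * e = (t : ℤ) ^ 2 - 4 * (c : ℤ))
    (q : ℕ) (hq : 1 ≤ q) (u : ℕ) (hal : Alf a b e t c m q u E τ H₁ H₂ g) {C5 : ℝ} (hC5 : 0 ≤ C5)
    (hcard : ∀ N : ℕ, 1 ≤ N → ((PP a b e q u N).card : ℝ) ≤ C5 * N) (ε : ℝ) (hε : 0 < ε) :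
    ∀ᶠ N : ℕ in atTop, |∑ p ∈ PP a b e q u N, phi H₁ H₂ g (Dt t c m E τ) p * wt p| ≤
      ε * Real.log N := by
  have h := scale_sum (fun X => ∑ p ∈ PP a b e q u X, phi H₁ H₂ g (Dt t c m E τ) p)
    (range q ×ˢ range 1)
    (fun y X => |∑ p ∈ SV a b e q u y.1 0 1 0 1 X, phi H₁ H₂ g (Dt t c m E τ) p|) hC5 ?_ ?_ ?_ ε hε
  · filter_upwards [h] with N hN
    rw [abel]
    exact hN
  · intro X hX
    refine ((abs_sum_le_sum_abs _ _).trans ?_).trans (hcard X hX)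
    refine (sum_le_card_nsmul _ _ 1 fun p _ => abs_phi H₁ H₂ g _ p).trans ?_
    rw [nsmul_eq_mul, mul_one]
  · intro X
    rw [sum_product]
    simp only [range_one, sum_singleton]
    rw [← sum_fiberwise_of_maps_to (s := PP a b e q u X) (t := range q)
      (g := fun p : ℕ × ℕ => p.1 % q) (fun p _ => mem_range.2 (Nat.mod_lt _ (by omega)))]
    refine (abs_sum_le_sum_abs _ _).trans (sum_le_sum fun r hr => le_of_eq ?_)
    congr 1
    refine sum_congr ?_ fun _ _ => rfl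
    have hr' : r % q = r := Nat.mod_eq_of_lt (mem_range.1 hr)
    ext p
    rw [mem_filter, mem_SV]
    refine and_congr_right fun _ => ?_
    constructor
    · intro h1
      show p.1 % q = r % q
      rw [h1, hr']
    · intro h1
      have h2 : p.1 % q = r % q := h1
      rw [h2, hr']
  · intro ε' hε' y _
    exact nullV hF h g ha hdisc q hq u y.1 (fun n d d' h1 h2 h3 _ h5 => hal n d d' h1 h2 h3 h5)
      0 1 0 1 le_rfl one_pos le_rfl one_pos ε' hε'

open scoped Classical in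
/-- the mean with logarithmic weights -/
theorem tendW [Finite A] (hF : Fd (t : ℤ) (c : ℤ) f χ) (h : Gp t c m E τ H₁ H₂) (g : A)
    {a b e : ℤ} (ha : 0 < a) (hdisc : b ^ 2 - 4 * a * e = (t : ℤ) ^ 2 - 4 * (c : ℤ))
    (q : ℕ) (hq : 1 ≤ q) (u : ℕ) (hal : Alf a b e t c m q u E τ H₁ H₂ g) :
    Tendsto (fun N : ℕ => (∑ n ∈ (Icc 1 N).filter (fun n => n ≡ u [MOD q]),
      ∑ d ∈ (qv a b e n).divisors.filter (fun d => H₁ d + H₂ (qv a b e n / d) = g),
        1 / ((max d (qv a b e n / d) : ℕ) : ℝ)) /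
      ∑ n ∈ (Icc 1 N).filter (fun n => n ≡ u [MOD q]), wq a b e n) atTop
      (nhds (1 / (Nat.card (Dt t c m E τ) : ℝ))) := by
  have hd : 0 < 4 * a * e - b ^ 2 := by
    have h1 := hDG hF
    linarith
  obtain ⟨C5, hC5, hcard, hcmp⟩ := compare hF.tt (scntG hF) ha hdisc hd q u
  obtain ⟨c₁, hc₁, N₀, hlow⟩ := finlow hF (lowqG hF) (scntG hF) a b e ha hdisc q u hq
  obtain ⟨D, hDd⟩ : ∃ D, D = Dt t c m E τ := ⟨_, rfl⟩
  rw [← hDd]
  rw [Metric.tendsto_atTop]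
  intro δ hδ
  have h1 := smallW hF h g ha hdisc q hq u hal hC5 hcard (c₁ * δ / 4) (by positivity)
  obtain ⟨N₁, hN₁⟩ := eventually_atTop.1 (h1.and (ev_log (c₁ * δ / 4) C5 (by positivity)))
  refine ⟨max (max N₀ N₁) 2, fun N hN => ?_⟩
  have hN0 : N₀ ≤ N := ((le_max_left _ _).trans (le_max_left _ _)).trans hN
  have hN1 : N₁ ≤ N := ((le_max_right _ _).trans (le_max_left _ _)).trans hN
  have hN2 : 2 ≤ N := (le_max_right _ _).trans hN
  obtain ⟨h2, h3⟩ := hN₁ N hN1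
  have hlog : 0 < Real.log N := Real.log_pos (by exact_mod_cast hN2)
  have h4 := hlow N hN0
  obtain ⟨S, hS⟩ : ∃ S : ℝ, S = ∑ n ∈ (Icc 1 N).filter (fun n => n ≡ u [MOD q]),
      ∑ d ∈ (qv a b e n).divisors.filter (fun d => H₁ d + H₂ (qv a b e n / d) = g),
        1 / ((max d (qv a b e n / d) : ℕ) : ℝ) := ⟨_, rfl⟩
  obtain ⟨T, hT⟩ : ∃ T : ℝ, T = ∑ n ∈ (Icc 1 N).filter (fun n => n ≡ u [MOD q]), wq a b e n :=
    ⟨_, rfl⟩
  rw [← hS, ← hT]
  rw [← hT] at h4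
  have hT0 : 0 < T := lt_of_lt_of_le (by positivity) h4
  have h5 := hcmp (phi H₁ H₂ g D) (abs_phi H₁ H₂ g D) N (by omega)
  have h6 : ∑ n ∈ (Icc 1 N).filter (fun n => n ≡ u [MOD q]), ∑ d ∈ Nat.divisors (qv a b e n),
      phi H₁ H₂ g D (d, qv a b e n / d) * wt (d, qv a b e n / d) =
      S - 1 / (Nat.card D : ℝ) * T := by
    rw [hS, hT, mul_sum, ← sum_sub_distrib]
    refine sum_congr rfl fun n _ => ?_
    unfold wq
    rw [mul_sum, sum_filter, ← sum_sub_distrib]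
    refine sum_congr rfl fun d _ => ?_
    unfold phi Pool.Agent.W293.EG.wt
    split_ifs
    · ring
    · ring
  rw [h6] at h5
  rw [← hDd] at h2
  have h7 : |S - 1 / (Nat.card D : ℝ) * T| ≤ c₁ * δ / 2 * Real.log N := by
    have h8 := abs_le.1 h5
    have h9 := abs_le.1 h2
    rw [abs_le]
    constructor <;> linarith [h8.1, h8.2, h9.1, h9.2]
  rw [Real.dist_eq]
  have h8 : S / T - 1 / (Nat.card D : ℝ) = (S - 1 / (Nat.card D : ℝ) * T) / T := by
    field_simp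
  rw [h8, abs_div, abs_of_pos hT0, div_lt_iff₀ hT0]
  have h9 : c₁ * δ / 2 * Real.log N < δ * T := by
    have h10 : δ * (c₁ * Real.log N) ≤ δ * T := mul_le_mul_of_nonneg_left h4 hδ.le
    have h11 : 0 < c₁ * δ * Real.log N := by positivity
    linarith
  linarith

end

end Pool.Agent.V11296.CX
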