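import Pool.Agent.V11296.CX2

/-!
General quadratic polynomials `a m^2 + b m + e` of class number one discriminants (helper296), part 3:
the patterns of the numbers of prime factors in residue classes, logarithmic weights.
-/

set_option autoImplicit false

namespace Pool.Agent.V11296.CX

open Finset Filter
open Pool.Agent.W78.GA (Qd nm)
open Pool.Agent.W78.EG
open Pool.Agent.W251.EG
open Pool.Agent.W293.EG (g_pos qv_eq)
open Pool.Agent.V11296.CV
open Pool.Agent.V11296.CW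
open Pool.Agent.V11296.CQ

section

variable {t c : ℕ} {f : ℕ} {χ : DirichletCharacter ℂ f}

theorem disc_pos (hF : Fd (t : ℤ) (c : ℤ) f χ) {a b e : ℤ}
    (hdisc : b ^ 2 - 4 * a * e = (t : ℤ) ^ 2 - 4 * (c : ℤ)) : 0 < 4 * a * e - b ^ 2 := by
  have h1 := hDG hF
  linarith

theorem qv_pos (hF : Fd (t : ℤ) (c : ℤ) f χ) {a b e : ℤ} (ha : 0 < a)
    (hdisc : b ^ 2 - 4 * a * e = (t : ℤ) ^ 2 - 4 * (c : ℤ)) (n : ℕ) : 0 < qv a b e n := by
  have h1 := qv_eq ha (disc_pos hF hdisc) n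
  have h2 := g_pos ha (disc_pos hF hdisc) n
  rw [← h1] at h2
  exact_mod_cast h2

theorem qv_cast (hF : Fd (t : ℤ) (c : ℤ) f χ) {a b e : ℤ} (ha : 0 < a)
    (hdisc : b ^ 2 - 4 * a * e = (t : ℤ) ^ 2 - 4 * (c : ℤ)) (n : ℕ) :
    (qv a b e n : ℤ) = a * (n : ℤ) ^ 2 + b * n + e := qv_eq ha (disc_pos hF hdisc) n

theorem qv_mod (hF : Fd (t : ℤ) (c : ℤ) f χ) {a b e : ℤ} (ha : 0 < a)
    (hdisc : b ^ 2 - 4 * a * e = (t : ℤ) ^ 2 - 4 * (c : ℤ)) {m q n u : ℕ} (hmq : m ∣ q)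
    (hn : n ≡ u [MOD q]) : qv a b e n ≡ qv a b e u [MOD m] := by
  rw [← Int.natCast_modEq_iff, qv_cast hF ha hdisc, qv_cast hF ha hdisc]
  have h1 : (n : ℤ) ≡ u [ZMOD m] := Int.natCast_modEq_iff.2 (hn.of_dvd hmq)
  exact (((h1.pow 2).mul_left a).add (h1.mul_left b)).add_right e

theorem qv_cop (hF : Fd (t : ℤ) (c : ℤ) f χ) {a b e : ℤ} (ha : 0 < a)
    (hdisc : b ^ 2 - 4 * a * e = (t : ℤ) ^ 2 - 4 * (c : ℤ)) {m q n u : ℕ} (hmq : m ∣ q)
    (hn : n ≡ u [MOD q]) (hu : (qv a b e u).Coprime m) : (qv a b e n).Coprime m := by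
  unfold Nat.Coprime at hu ⊢
  rw [(qv_mod hF ha hdisc hmq hn).gcd_eq]
  exact hu

/-- `a f(n)` is a value of `x^2+tx+c` -/
theorem quot_id {a b e β : ℤ} (hβ : b = 2 * β + t)
    (hdisc : b ^ 2 - 4 * a * e = (t : ℤ) ^ 2 - 4 * (c : ℤ)) (n : ℤ) :
    a * (a * n ^ 2 + b * n + e) = (a * n + β) ^ 2 + t * (a * n + β) + c := by
  have h1 : 4 * (a * e) = 4 * (β ^ 2 + t * β + c) := by
    rw [hβ] at hdisc
    linarith
  have h2 : a * e = β ^ 2 + t * β + c := by linarith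
  rw [hβ]
  linear_combination h2

/-- the coset -/
theorem val_cls (hF : Fd (t : ℤ) (c : ℤ) f χ) {m k : ℕ} (hm : 1 ≤ m) {a b e : ℤ} (ha : 0 < a)
    (hdisc : b ^ 2 - 4 * a * e = (t : ℤ) ^ 2 - 4 * (c : ℤ)) {q u n : ℕ} (hmq : m ∣ q)
    (hn : n ≡ u [MOD q]) (hu : (qv a b e u).Coprime m) :
    isN t c m ((qv a b e u : ℕ) : ZMod m) ∧
    Hk m k (qv a b e n) - ((1, ev m ((qv a b e u : ℕ) : ZMod m)) : Ak m k) ∈
      Df t c m (Ek t c m k) := by
  obtain ⟨β, hβ⟩ := Pool.Agent.W347.EG.parity hF.tt hdisc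
  obtain ⟨A, hA⟩ := Int.eq_ofNat_of_zero_le ha.le
  have hA1 : 1 ≤ A := by omega
  have hg := gvk t c m k hm
  have hgw : Gw t c m (Ek t c m k) (Hk m k) := ⟨hg.pos, hg.add, hg.per, hg.val⟩
  have hcop := qv_cop hF ha hdisc hmq hn hu
  have hmod := qv_mod hF ha hdisc hmq hn
  have hN : ((A : ℤ) * (qv a b e n : ℕ) : ℤ) = (a * n + β) ^ 2 + t * (a * n + β) + c := by
    rw [qv_cast hF ha hdisc, ← quot_id hβ hdisc, hA]
  obtain ⟨x, y, hxy, h4⟩ := val_quotZ hF hgw hA1 hN hcop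
  have hcl : ((qv a b e n : ℕ) : ZMod m) = ((qv a b e u : ℕ) : ZMod m) :=
    (ZMod.natCast_eq_natCast_iff _ _ _).2 hmod
  have hE : Ek t c m k x y = (1, ev m ((qv a b e u : ℕ) : ZMod m)) := by
    unfold Ek
    rw [hxy, Int.cast_natCast, hcl]
  rw [hE] at h4
  refine ⟨⟨x, y, ?_, ?_⟩, h4⟩
  · rw [hxy]
    exact Nat.isCoprime_iff_coprime.2 hcop
  · rw [hxy, Int.cast_natCast, hcl]

/-- the group -/
noncomputable abbrev Dk (t c m k : ℕ) : AddSubgroup (Ak m k) := Dt t c m (Ek t c m k) ((2, 0) : Ak m k)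

theorem gpk1 (t c m k : ℕ) (hm : 1 ≤ m) :
    Gp t c m (Ek t c m k) ((2, 0) : Ak m k) (Hk m k) (Hk m k) := by
  have hg := gvk t c m k hm
  exact ⟨hg.pos, hg.add, hg.add, hg.two, hg.per, hg.val⟩

/-- admissible patterns are in the coset -/
theorem alf_k (hF : Fd (t : ℤ) (c : ℤ) f χ) {m k : ℕ} (hm : 1 ≤ m) {a b e : ℤ} (ha : 0 < a)
    (hdisc : b ^ 2 - 4 * a * e = (t : ℤ) ^ 2 - 4 * (c : ℤ)) {q u J : ℕ} (hmq : m ∣ q)
    (hu : (qv a b e u).Coprime m) (T : Finset (ZMod m)ˣ)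
    (h : Admn t c m k (qv a b e u) J T) :
    Alf a b e t c m q u (Ek t c m k) ((2, 0) : Ak m k) (Hk m k) (Hk m k)
      (((J : ZMod k), ∑ b ∈ T, ev m (b : ZMod m)) : Ak m k) := by
  intro n d d' hd hd' hn hdd
  have hg := gvk t c m k hm
  have h1 : d * d' = qv a b e n := by
    have h2 := qv_cast hF ha hdisc n
    rw [← hdd] at h2
    exact_mod_cast h2.symm
  rw [← hg.add d d' (by omega) (by omega), h1]
  obtain ⟨h2, h3⟩ := val_cls (k := k) hF hm ha hdisc hmq hn hu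
  have h4 := coset_k (k := k) h2 T h
  have h5 := add_mem h3 h4
  have h6 : Hk m k (qv a b e n) - ((1, ev m ((qv a b e u : ℕ) : ZMod m)) : Ak m k) +
      (((1, ev m ((qv a b e u : ℕ) : ZMod m)) : Ak m k) -
        ((J : ZMod k), ∑ b ∈ T, ev m (b : ZMod m))) =
      Hk m k (qv a b e n) - ((J : ZMod k), ∑ b ∈ T, ev m (b : ZMod m)) := by abel
  rw [h6] at h5
  exact df_le h5

/-- necessity -/
theorem nec_f (hF : Fd (t : ℤ) (c : ℤ) f χ) {m k : ℕ} [NeZero m] {a b e : ℤ} (ha : 0 < a)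
    (hdisc : b ^ 2 - 4 * a * e = (t : ℤ) ^ 2 - 4 * (c : ℤ)) {q u J n : ℕ} (hmq : m ∣ q)
    (hu : (qv a b e u).Coprime m) (T : Finset (ZMod m)ˣ) (hn : n ≡ u [MOD q])
    (hJ : (qv a b e n).primeFactorsList.length ≡ J [MOD k])
    (hT : oddc m (qv a b e n) = T) : Admn t c m k (qv a b e u) J T := by
  obtain ⟨β, hβ⟩ := Pool.Agent.W347.EG.parity hF.tt hdisc
  obtain ⟨A, hA⟩ := Int.eq_ofNat_of_zero_le ha.le
  have hN : ((A : ℤ) * (qv a b e n : ℕ) : ℤ) = (a * n + β) ^ 2 + t * (a * n + β) + c := by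
    rw [qv_cast hF ha hdisc, ← quot_id hβ hdisc, hA]
  exact nec_gen hF (qv_pos hF ha hdisc n) (qv_cop hF ha hdisc hmq hn hu)
    (qv_mod hF ha hdisc hmq hn) (fun p hp hpd => prime_quotZ hF hN hp hpd) T hJ hT

open scoped Classical in
/-- the weighted sum over a pattern -/
noncomputable def SK (a b e : ℤ) (m k q u : ℕ) [NeZero m] (x : ℕ × Finset (ZMod m)ˣ) (N : ℕ) : ℝ :=
  ∑ n ∈ (Icc 1 N).filter (fun n => n ≡ u [MOD q] ∧
    (qv a b e n).primeFactorsList.length ≡ x.1 [MOD k] ∧ oddc m (qv a b e n) = x.2), wq a b e n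

open scoped Classical in
/-- the weighted sum -/
noncomputable def TK (a b e : ℤ) (q u N : ℕ) : ℝ :=
  ∑ n ∈ (Icc 1 N).filter (fun n => n ≡ u [MOD q]), wq a b e n

theorem tendK (hF : Fd (t : ℤ) (c : ℤ) f χ) {m k : ℕ} [NeZero m] [NeZero k] {a b e : ℤ}
    (ha : 0 < a) (hdisc : b ^ 2 - 4 * a * e = (t : ℤ) ^ 2 - 4 * (c : ℤ)) {q u J : ℕ}
    (hq : 1 ≤ q) (hmq : m ∣ q) (hu : (qv a b e u).Coprime m) (T : Finset (ZMod m)ˣ)
    (h : Admn t c m k (qv a b e u) J T) :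
    Tendsto (fun N : ℕ => SK a b e m k q u (J, T) N / TK a b e q u N) atTop
      (nhds (1 / (Nat.card (Dk t c m k) : ℝ))) := by
  classical
  have hm1 : 1 ≤ m := Nat.one_le_iff_ne_zero.2 (NeZero.ne m)
  have hg := gvk t c m k hm1
  have h1 := tendW hF (gpk1 t c m k hm1) (((J : ZMod k), ∑ b ∈ T, ev m (b : ZMod m)) : Ak m k)
    ha hdisc q hq u (alf_k hF hm1 ha hdisc hmq hu T h)
  refine h1.congr fun N => ?_
  unfold SK TK
  congr 1
  · conv_rhs => rw [← filter_filter, sum_filter]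
    refine sum_congr (by congr!) fun n hn => ?_
    have h2 : ∀ d ∈ (qv a b e n).divisors, Hk m k d + Hk m k (qv a b e n / d) =
        Hk m k (qv a b e n) := by
      intro d hd
      have hd1 := Nat.mem_divisors.1 hd
      have hd2 : d * (qv a b e n / d) = qv a b e n := Nat.mul_div_cancel' hd1.1
      have hd3 : d ≠ 0 := fun h0 => by rw [h0, zero_mul] at hd2; exact hd1.2 hd2.symm
      have hd4 : qv a b e n / d ≠ 0 := fun h0 => by rw [h0, mul_zero] at hd2; exact hd1.2 hd2.symm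
      rw [← hg.add d _ hd3 hd4, hd2]
    have h3 := Hk_eq_iff (k := k) (qv a b e n) J T
    by_cases h4 : (qv a b e n).primeFactorsList.length ≡ J [MOD k] ∧ oddc m (qv a b e n) = T
    · rw [if_pos h4, sum_filter]
      unfold wq
      refine sum_congr rfl fun d hd => if_pos ?_
      rw [h2 d hd]
      exact h3.2 h4
    · rw [if_neg h4, sum_filter]
      refine sum_eq_zero fun d hd => if_neg ?_
      rw [h2 d hd]
      exact fun h5 => h4 (h3.1 h5)

open scoped Classical in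
/-- the admissible patterns -/
noncomputable def AP (t c m k v : ℕ) [NeZero m] : Finset (ℕ × Finset (ZMod m)ˣ) :=
  (range k ×ˢ (univ : Finset (Finset (ZMod m)ˣ))).filter (fun x => Admn t c m k v x.1 x.2)

theorem sum_SK (hF : Fd (t : ℤ) (c : ℤ) f χ) {m k : ℕ} [NeZero m] [NeZero k] {a b e : ℤ}
    (ha : 0 < a) (hdisc : b ^ 2 - 4 * a * e = (t : ℤ) ^ 2 - 4 * (c : ℤ)) {q u : ℕ}
    (hmq : m ∣ q) (hu : (qv a b e u).Coprime m) (N : ℕ) :
    ∑ x ∈ AP t c m k (qv a b e u), SK a b e m k q u x N = TK a b e q u N := by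
  classical
  have hk0 : 0 < k := Nat.pos_of_ne_zero (NeZero.ne k)
  unfold TK
  rw [← sum_fiberwise_of_maps_to (s := (Icc 1 N).filter (fun n => n ≡ u [MOD q]))
    (t := AP t c m k (qv a b e u))
    (g := fun n => ((qv a b e n).primeFactorsList.length % k, oddc m (qv a b e n)))]
  · refine sum_congr rfl fun x hx => ?_
    unfold AP at hx
    rw [mem_filter, mem_product, mem_range] at hx
    unfold SK
    rw [filter_filter]
    refine sum_congr ?_ fun _ _ => rfl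
    refine filter_congr fun n _ => ?_
    have hx1 : x.1 % k = x.1 := Nat.mod_eq_of_lt hx.1.1
    constructor
    · rintro ⟨h1, h2, h3⟩
      refine ⟨h1, Prod.ext ?_ h3⟩
      show (qv a b e n).primeFactorsList.length % k = x.1
      rw [← hx1]
      exact h2
    · rintro ⟨h1, h2⟩
      refine ⟨h1, ?_, congrArg Prod.snd h2⟩
      show (qv a b e n).primeFactorsList.length % k = x.1 % k
      rw [hx1]
      exact congrArg Prod.fst h2
  · intro n hn
    rw [mem_filter] at hn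
    unfold AP
    rw [mem_filter, mem_product, mem_range]
    refine ⟨⟨Nat.mod_lt _ hk0, mem_univ _⟩, ?_⟩
    exact nec_f hF ha hdisc hmq hu _ hn.2 (Nat.mod_modEq _ _).symm rfl

/-- the number of the admissible patterns -/
theorem card_AP (hF : Fd (t : ℤ) (c : ℤ) f χ) {m k : ℕ} [NeZero m] [NeZero k] {a b e : ℤ}
    (ha : 0 < a) (hdisc : b ^ 2 - 4 * a * e = (t : ℤ) ^ 2 - 4 * (c : ℤ)) {q u : ℕ}
    (hq : 1 ≤ q) (hmq : m ∣ q) (hu : (qv a b e u).Coprime m) :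
    (Nat.card (Dk t c m k) : ℝ) = (AP t c m k (qv a b e u)).card := by
  classical
  have h1 : Tendsto (fun N : ℕ => ∑ x ∈ AP t c m k (qv a b e u),
      SK a b e m k q u x N / TK a b e q u N) atTop
      (nhds (∑ x ∈ AP t c m k (qv a b e u), 1 / (Nat.card (Dk t c m k) : ℝ))) := by
    refine tendsto_finsetSum _ fun x hx => ?_
    unfold AP at hx
    exact tendK hF ha hdisc hq hmq hu x.2 (mem_filter.1 hx).2
  obtain ⟨c₁, hc₁, N₀, hlow⟩ := finlow hF (lowqG hF) (scntG hF) a b e ha hdisc q u hq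
  have h2 : (fun N : ℕ => ∑ x ∈ AP t c m k (qv a b e u),
      SK a b e m k q u x N / TK a b e q u N) =ᶠ[atTop] fun _ => (1 : ℝ) := by
    filter_upwards [eventually_ge_atTop (max N₀ 2)] with N hN
    have hN0 : N₀ ≤ N := (le_max_left _ _).trans hN
    have hN2 : 2 ≤ N := (le_max_right _ _).trans hN
    have hlog : 0 < Real.log N := Real.log_pos (by exact_mod_cast hN2)
    have hT : 0 < TK a b e q u N := by
      refine lt_of_lt_of_le (mul_pos hc₁ hlog) (le_of_le_of_eq (hlow N hN0) ?_)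
      unfold TK
      refine sum_congr (by congr!) fun _ _ => rfl
    rw [← sum_div, sum_SK hF ha hdisc hmq hu, div_self hT.ne']
  have h3 := tendsto_nhds_unique h1 (tendsto_const_nhds.congr' h2.symm)
  rw [sum_const, nsmul_eq_mul] at h3
  have h4 : (Nat.card (Dk t c m k) : ℝ) ≠ 0 := by
    exact_mod_cast (Nat.card_pos (α := Dk t c m k)).ne'
  field_simp at h3
  linarith

end

end Pool.Agent.V11296.CX
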