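import Pool.Agent.V11296.CX3

/-!
General quadratic polynomials `A n^2 + B n + C` of class number one discriminants (helper296), part 4:
the number of `n` with a factorisation of given type.
-/

set_option autoImplicit false

namespace Pool.Agent.V11296.CX

open Finset Filter
open Pool.Agent.W78.GA (Qd nm)
open Pool.Agent.W78.EG
open Pool.Agent.W251.EG
open Pool.Agent.W293.EG (PP mem_PP mem_SV)
open Pool.Agent.TH890.DV (LogNull LogNull.of_ev)
open Pool.Agent.V11296.CV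
open Pool.Agent.V11296.CW
open Pool.Agent.V11296.CQ
open Pool.Agent.V11296.CR

variable {G : Type} [AddCommGroup G]

open scoped Classical in
/-- the number of `n ≤ X` with a factorisation of given type -/
noncomputable def cf2 (A B C q u : ℕ) (H₁ H₂ : ℕ → G) (g : G) (X : ℕ) : ℕ :=
  ((range (X + 1)).filter (fun n : ℕ => n ≡ u [MOD q] ∧ ∃ d e : ℕ, d ≤ X ∧ e ≤ X ∧
    d * e = A * n ^ 2 + B * n + C ∧ H₁ d + H₂ e = g)).card

theorem cf2_mono (A B C q u : ℕ) (H₁ H₂ : ℕ → G) (g : G) : Monotone (cf2 A B C q u H₁ H₂ g) := by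
  classical
  intro X Y h
  unfold cf2
  refine card_le_card fun n hn => ?_
  rw [mem_filter, mem_range] at hn ⊢
  obtain ⟨h1, h2, d, e, h3, h4, h5⟩ := hn
  exact ⟨by omega, h2, d, e, h3.trans h, h4.trans h, h5⟩

theorem f_inj {A B C m n : ℕ} (hA : 1 ≤ A) (h : A * m ^ 2 + B * m + C = A * n ^ 2 + B * n + C) :
    m = n := by
  have key : ∀ x y : ℕ, x < y → A * x ^ 2 + B * x + C < A * y ^ 2 + B * y + C := by
    intro x y hxy
    have h1 : A * x ^ 2 < A * y ^ 2 := by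
      have h2 : x ^ 2 < y ^ 2 := Nat.pow_lt_pow_left hxy (by norm_num)
      exact Nat.mul_lt_mul_of_pos_left h2 (by omega)
    have h3 : B * x ≤ B * y := Nat.mul_le_mul_left _ hxy.le
    omega
  rcases lt_trichotomy m n with h1 | h1 | h1
  · have := key m n h1; omega
  · exact h1
  · have := key n m h1; omega

section

variable {t c : ℕ} {f : ℕ} {χ : DirichletCharacter ℂ f} {m : ℕ} {E : ℤ → ℤ → G} {τ : G}
  {H₁ H₂ : ℕ → G}

open scoped Classical in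
/-- the deviation over all the pairs -/
theorem nullPP [Finite G] (hF : Fd (t : ℤ) (c : ℤ) f χ) (h : Gp t c m E τ H₁ H₂) (g : G)
    {a b e : ℤ} (ha : 0 < a) (hdisc : b ^ 2 - 4 * a * e = (t : ℤ) ^ 2 - 4 * (c : ℤ))
    (q : ℕ) (hq : 1 ≤ q) (u : ℕ) (hal : Alf a b e t c m q u E τ H₁ H₂ g) (ε : ℝ) (hε : 0 < ε) :
    LogNull (fun X : ℕ => ε * X < |∑ p ∈ PP a b e q u X, phi H₁ H₂ g (Dt t c m E τ) p|) := by
  refine LogNull.of_ev 0 (fun X _ hX => ?_) (null_sum (range q)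
    (fun r X => |∑ p ∈ SV a b e q u r 0 1 0 1 X, phi H₁ H₂ g (Dt t c m E τ) p|)
    (fun r _ ε' hε' => nullV hF h g ha hdisc q hq u r
      (fun n d d' h1 h2 h3 _ h5 => hal n d d' h1 h2 h3 h5)
      0 1 0 1 le_rfl one_pos le_rfl one_pos ε' hε') ε hε)
  refine lt_of_lt_of_le hX ?_
  rw [← sum_fiberwise_of_maps_to (s := PP a b e q u X) (t := range q)
    (g := fun p : ℕ × ℕ => p.1 % q) (fun p _ => mem_range.2 (Nat.mod_lt _ (by omega)))]
  refine (abs_sum_le_sum_abs _ _).trans (sum_le_sum fun r hr => le_of_eq ?_)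
  congr 1
  refine sum_congr ?_ fun _ _ => rfl
  have hr' : r % q = r := Nat.mod_eq_of_lt (mem_range.1 hr)
  ext p
  rw [mem_filter, mem_SV]
  refine and_congr_right fun _ => ?_
  constructor
  · intro h1
    show p.1 % q = r % q
    rw [h1, hr']
  · intro h1
    have h2 : p.1 % q = r % q := h1
    rw [h2, hr']

open scoped Classical in
/-- many `n` at almost all scales -/
theorem cntG [Finite G] (hF : Fd (t : ℤ) (c : ℤ) f χ) (h : Gp t c m E τ H₁ H₂) (g : G)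
    {A B C : ℕ} (hA : 1 ≤ A) (hD : B ^ 2 + 4 * c = t ^ 2 + 4 * A * C)
    (q : ℕ) (hq : 1 ≤ q) (u : ℕ) (hal : Alf (A : ℤ) (B : ℤ) (C : ℤ) t c m q u E τ H₁ H₂ g)
    (ε : ℝ) (hε : 0 < ε) :
    LogNull (fun X : ℕ => (cf2 A B C q u H₁ H₂ g X : ℝ) <
      (X : ℝ) / Real.log X ^ (Real.log 2 + ε)) := by
  have ht := t_le hF
  have hc := c_pos hF
  have ha : (0 : ℤ) < (A : ℤ) := by exact_mod_cast hA
  have hdisc : (B : ℤ) ^ 2 - 4 * (A : ℤ) * (C : ℤ) = (t : ℤ) ^ 2 - 4 * (c : ℤ) := by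
    have h1 : ((B ^ 2 + 4 * c : ℕ) : ℤ) = ((t ^ 2 + 4 * A * C : ℕ) : ℤ) := by rw [hD]
    push_cast at h1
    linarith
  obtain ⟨β, hβ⟩ := exists_beta ht hD
  have hns : ¬ IsSquare ((t : ℤ) ^ 2 - 4 * (c : ℤ)) := by
    rintro ⟨x, hx⟩
    have h1 : (t : ℤ) ≤ 1 := by exact_mod_cast ht
    have h2 : (1 : ℤ) ≤ c := by exact_mod_cast hc
    have h3 : (0 : ℤ) ≤ t := Nat.cast_nonneg t
    nlinarith [mul_self_nonneg x]
  obtain ⟨D, hDd⟩ : ∃ D : AddSubgroup G, D = Dt t c m E τ := ⟨_, rfl⟩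
  obtain ⟨k, hk⟩ : ∃ k : ℕ, k = Nat.card D := ⟨_, rfl⟩
  have hk0 : (0 : ℝ) < k := by
    rw [hk]
    exact_mod_cast Nat.card_pos
  obtain ⟨c₁, hc₁, X₀, hlow⟩ := lowqG hF (A : ℤ) (B : ℤ) (C : ℤ) ha hdisc q u hq
  obtain ⟨N₁, hcore⟩ := Pool.Agent.TH890.DV.cnt_core (t := (t : ℤ)) (c := (c : ℤ)) hns
    (F := fun n => A * n ^ 2 + B * n + C) (A := A) (β := β) hA (Nat.cast_nonneg t)
    (fun n => by
      have h1 := quot_id (t := t) (c := c) (β := (β : ℤ)) (b := (B : ℤ)) (by rw [hβ]; push_cast; rfl)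
        hdisc (n : ℤ)
      unfold Pool.Agent.W78.GT.Qp
      push_cast
      exact h1) (c₁ / (2 * k)) ε (by positivity) hε
  refine LogNull.of_ev (max X₀ N₁) (fun X hX hlt => ?_)
    (nullPP hF h g ha hdisc q hq u hal (c₁ / (2 * k)) (by positivity))
  by_contra hcon
  push Not at hcon
  have h1 : c₁ * X ≤ ((PP (A : ℤ) (B : ℤ) (C : ℤ) q u X).card : ℝ) := by
    refine (hlow X ((le_max_left _ _).trans hX)).trans (le_of_eq ?_)
    unfold PP
    rfl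
  obtain ⟨S, hSd⟩ : ∃ S : Finset (ℕ × ℕ), S = (PP (A : ℤ) (B : ℤ) (C : ℤ) q u X).filter
    (fun p => H₁ p.1 + H₂ p.2 = g) := ⟨_, rfl⟩
  have hS1 : c₁ / (2 * k) * X ≤ (S.card : ℝ) := by
    have h2 : ∑ p ∈ PP (A : ℤ) (B : ℤ) (C : ℤ) q u X, phi H₁ H₂ g (Dt t c m E τ) p =
        (S.card : ℝ) - 1 / k * (PP (A : ℤ) (B : ℤ) (C : ℤ) q u X).card := by
      unfold phi
      rw [sum_sub_distrib, sum_boole, hSd, sum_const, nsmul_eq_mul, ← hDd, ← hk]
      ring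
    rw [h2] at hcon
    have h5 := (abs_le.1 hcon).1
    have h6 : 1 / (k : ℝ) * (c₁ * X) ≤
        1 / k * (PP (A : ℤ) (B : ℤ) (C : ℤ) q u X).card :=
      mul_le_mul_of_nonneg_left h1 (by positivity)
    have h7 : 1 / (k : ℝ) * (c₁ * X) = c₁ / (2 * k) * X + c₁ / (2 * k) * X := by
      field_simp
      ring
    linarith
  have hSm : ∀ p ∈ S, 1 ≤ p.1 ∧ p.1 ≤ X ∧ 1 ≤ p.2 ∧ p.2 ≤ X ∧ (∃ n : ℕ,
      p.1 * p.2 = A * n ^ 2 + B * n + C ∧ n ≡ u [MOD q]) ∧ H₁ p.1 + H₂ p.2 = g := by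
    intro p hp
    rw [hSd, mem_filter, mem_PP] at hp
    obtain ⟨⟨h2, h3, h4, h5, n, h6, h7⟩, h8⟩ := hp
    refine ⟨h2, h3, h4, h5, ⟨n, ?_, h7⟩, h8⟩
    unfold Pool.Agent.W293.EG.g at h6
    exact_mod_cast h6
  have h3 := hcore X ((le_max_right _ _).trans hX) S
    (fun p hp => by
      obtain ⟨h4, h5, h6, h7, ⟨n, h8, _⟩, _⟩ := hSm p hp
      exact ⟨h4, h5, h6, h7, n, h8⟩) hS1
    ((range (X + 1)).filter (fun n : ℕ => n ≡ u [MOD q] ∧ ∃ d e : ℕ, d ≤ X ∧ e ≤ X ∧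
      d * e = A * n ^ 2 + B * n + C ∧ H₁ d + H₂ e = g)) (by
    rintro n ⟨p, hp, hpn⟩
    obtain ⟨h4, h5, h6, h7, ⟨n', h8, h9⟩, h10⟩ := hSm p hp
    have hpn' : p.1 * p.2 = A * n ^ 2 + B * n + C := hpn
    have hnn : n = n' := f_inj hA (by rw [← hpn', h8])
    subst hnn
    rw [mem_filter, mem_range]
    refine ⟨?_, h9, p.1, p.2, h5, h7, h8, h10⟩
    by_contra hcon2
    push Not at hcon2
    have h15 : p.1 * p.2 ≤ X * X := Nat.mul_le_mul h5 h7
    have h16 : 1 * n ^ 2 ≤ A * n ^ 2 := Nat.mul_le_mul_right _ hA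
    have h17 : (X + 1) ^ 2 ≤ n ^ 2 := Nat.pow_le_pow_left hcon2 2
    nlinarith [Nat.zero_le (B * n)])
  have h4 : (cf2 A B C q u H₁ H₂ g X : ℝ) < (X : ℝ) / Real.log X ^ (Real.log 2 + ε) := hlt
  unfold cf2 at h4
  exact absurd h3 (not_le.2 h4)

/-- all large scales -/
theorem cntGAll [Finite G] (hF : Fd (t : ℤ) (c : ℤ) f χ) (h : Gp t c m E τ H₁ H₂) (g : G)
    {A B C : ℕ} (hA : 1 ≤ A) (hD : B ^ 2 + 4 * c = t ^ 2 + 4 * A * C)
    (q : ℕ) (hq : 1 ≤ q) (u : ℕ) (hal : Alf (A : ℤ) (B : ℤ) (C : ℤ) t c m q u E τ H₁ H₂ g)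
    (δ : ℝ) (hδ : 0 < δ) :
    ∃ N₀ : ℕ, ∀ N : ℕ, N₀ ≤ N → (N : ℝ) ^ (1 - δ) ≤ cf2 A B C q u H₁ H₂ g N := by
  refine all_of (cf2_mono A B C q u H₁ H₂ g) (fun ε hε => ?_) δ hδ
  have hl2 := Real.log_pos (show (1 : ℝ) < 2 by norm_num)
  have h1 := cntG hF h g hA hD q hq u hal (Real.log 2 + ε) (by linarith)
  have h2 : Real.log 2 + (Real.log 2 + ε) = 2 * Real.log 2 + ε := by ring
  rwa [h2] at h1

end

/-! ### the patterns of pairs -/

section

variable {t c : ℕ} {f : ℕ} {χ : DirichletCharacter ℂ f}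

/-- admissible patterns of pairs are in the coset -/
theorem alf_pair (hF : Fd (t : ℤ) (c : ℤ) f χ) {m k : ℕ} (hm : 1 ≤ m) (hk : 1 ≤ k) {a b e : ℤ}
    (ha : 0 < a) (hdisc : b ^ 2 - 4 * a * e = (t : ℤ) ^ 2 - 4 * (c : ℤ)) {q u i j : ℕ}
    (hmq : m ∣ q) (hu : (qv a b e u).Coprime m) (T : Finset (ZMod m)ˣ)
    (h : Admn t c m k (qv a b e u) (i + j) T) :
    Alf a b e t c m q u (E1 t c m k) ((1, 1, 0) : Bk m k) (H1 m k) (H2 m k)
      (((i : ZMod k), (j : ZMod k), ∑ b ∈ T, ev m (b : ZMod m)) : Bk m k) := by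
  intro n d d' hd hd' hn hdd
  have hp := gpk t c m k hm
  have hD := hDG hF
  obtain ⟨β, hβ⟩ := Pool.Agent.W347.EG.parity hF.tt hdisc
  obtain ⟨A, hA⟩ := Int.eq_ofNat_of_zero_le ha.le
  have hA1 : 1 ≤ A := by omega
  have hN : d * d' = qv a b e n := by
    have h2 := qv_cast hF ha hdisc n
    rw [← hdd] at h2
    exact_mod_cast h2.symm
  have hcop := qv_cop hF ha hdisc hmq hn hu
  have hmod := qv_mod hF ha hdisc hmq hn
  rw [← hN] at hcop hmod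
  have hAN : ((A : ℤ) * ((d * d' : ℕ) : ℤ) : ℤ) = (a * n + β) ^ 2 + t * (a * n + β) + c := by
    rw [hN, qv_cast hF ha hdisc, ← quot_id hβ hdisc, hA]
  have hcd : d.Coprime m := Nat.Coprime.coprime_dvd_left (Dvd.intro _ rfl) hcop
  have hcd' : d'.Coprime m := Nat.Coprime.coprime_dvd_left (Dvd.intro_left _ rfl) hcop
  obtain ⟨x, y, hxy, h4⟩ := val_quotZ hF hp.g₁ (a := A * d') (N := d) (n := a * n + β)
    (Nat.mul_pos hA1 hd') (by rw [← hAN]; push_cast; ring) hcd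
  obtain ⟨x', y', hxy', h4'⟩ := val_quotZ hF hp.g₂ (a := A * d) (N := d') (n := a * n + β)
    (Nat.mul_pos hA1 hd) (by rw [← hAN]; push_cast; ring) hcd'
  have hE : E1 t c m k x y = ((1, 0, ev m (d : ZMod m)) : Bk m k) := by
    unfold E1 Ek emb
    rw [hxy, Int.cast_natCast]
  have hE' : E1 t c m k x' y' = ((1, 0, ev m (d' : ZMod m)) : Bk m k) := by
    unfold E1 Ek emb
    rw [hxy', Int.cast_natCast]
  have h4'' : H2 m k d' - (((1, 1, 0) : Bk m k) - E1 t c m k x' y') ∈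
      Df t c m (fun x y => ((1, 1, 0) : Bk m k) - E1 t c m k x y) := h4'
  rw [hE] at h4
  rw [hE'] at h4''
  have hz : isN t c m (d : ZMod m) :=
    ⟨x, y, by rw [hxy]; exact Nat.isCoprime_iff_coprime.2 hcd, by rw [hxy, Int.cast_natCast]⟩
  have hz' : isN t c m (d' : ZMod m) :=
    ⟨x', y', by rw [hxy']; exact Nat.isCoprime_iff_coprime.2 hcd', by rw [hxy', Int.cast_natCast]⟩
  have hab : (d : ZMod m) * (d' : ZMod m) = ((qv a b e u : ℕ) : ZMod m) := by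
    rw [← Nat.cast_mul]
    exact (ZMod.natCast_eq_natCast_iff _ _ _).2 hmod
  have h6 := coset_pair (i := i) (j := j) T h hk hz hz' hab
  have h7 := df_le (τ := ((1, 1, 0) : Bk m k)) h4
  have h8 := df₂_le h4''
  have h9 := add_mem (add_mem (add_mem h7 h8) h6)
    (tau_mem (t := t) (c := c) (m := m) (E := E1 t c m k) (τ := ((1, 1, 0) : Bk m k)))
  have h10 : H1 m k d - ((1, 0, ev m (d : ZMod m)) : Bk m k) +
      (H2 m k d' - (((1, 1, 0) : Bk m k) - ((1, 0, ev m (d' : ZMod m)) : Bk m k))) +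
      (((0, 0, ev m (d : ZMod m) - ev m (d' : ZMod m)) : Bk m k) -
        ((i : ZMod k), (j : ZMod k), ∑ b ∈ T, ev m (b : ZMod m))) + ((1, 1, 0) : Bk m k) =
      H1 m k d + H2 m k d' - ((i : ZMod k), (j : ZMod k), ∑ b ∈ T, ev m (b : ZMod m)) := by
    have h11 : ((0, 0, ev m (d : ZMod m) - ev m (d' : ZMod m)) : Bk m k) =
        ((1, 0, ev m (d : ZMod m)) : Bk m k) - ((1, 0, ev m (d' : ZMod m)) : Bk m k) := by
      refine Prod.ext ?_ (Prod.ext ?_ rfl)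
      · show (0 : ZMod k) = 1 - 1
        ring
      · show (0 : ZMod k) = 0 - 0
        ring
    rw [h11]
    abel
  rw [h10] at h9
  exact h9

/-- necessity -/
theorem nec_pair (hF : Fd (t : ℤ) (c : ℤ) f χ) {m k : ℕ} [NeZero m] {a b e : ℤ} (ha : 0 < a)
    (hdisc : b ^ 2 - 4 * a * e = (t : ℤ) ^ 2 - 4 * (c : ℤ)) {q u i j n d d' : ℕ} (hmq : m ∣ q)
    (hu : (qv a b e u).Coprime m) (T : Finset (ZMod m)ˣ) (hn : n ≡ u [MOD q])
    (hdd : (d * d' : ℤ) = a * (n : ℤ) ^ 2 + b * n + e)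
    (hi : d.primeFactorsList.length ≡ i [MOD k]) (hj : d'.primeFactorsList.length ≡ j [MOD k])
    (hT : oddc m (d * d') = T) : Admn t c m k (qv a b e u) (i + j) T := by
  have hN : d * d' = qv a b e n := by
    have h2 := qv_cast hF ha hdisc n
    rw [← hdd] at h2
    exact_mod_cast h2.symm
  have hpos := qv_pos hF ha hdisc n
  have hd : d ≠ 0 := fun h => by rw [h, Nat.zero_mul] at hN; omega
  have he : d' ≠ 0 := fun h => by rw [h, Nat.mul_zero] at hN; omega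
  refine nec_f hF ha hdisc hmq hu T hn ?_ (by rw [← hN]; exact hT)
  rw [← hN, (Nat.perm_primeFactorsList_mul hd he).length_eq, List.length_append]
  exact hi.add hj

end

end Pool.Agent.V11296.CX
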