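import Pool.Agent.V11296.CX4

/-!
General quadratic polynomials of class number one discriminants (helper296), part 5: the number of the
admissible triples.
-/

set_option autoImplicit false

namespace Pool.Agent.V11296.CX

open Finset Filter
open Pool.Agent.W78.GA (Qd nm)
open Pool.Agent.W78.EG
open Pool.Agent.W251.EG
open Pool.Agent.V11296.CV
open Pool.Agent.V11296.CW
open Pool.Agent.V11296.CQ

section

variable {t c : ℕ} {f : ℕ} {χ : DirichletCharacter ℂ f}

/-- the group -/
noncomputable abbrev Dp (t c m k : ℕ) : AddSubgroup (Bk m k) :=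
  Dt t c m (E1 t c m k) ((1, 1, 0) : Bk m k)

open scoped Classical in
/-- the weighted sum over a pattern -/
noncomputable def SP2 (a b e : ℤ) (m k q u : ℕ) [NeZero m] (x : ℕ × ℕ × Finset (ZMod m)ˣ)
    (N : ℕ) : ℝ :=
  ∑ n ∈ (Icc 1 N).filter (fun n => n ≡ u [MOD q]),
    ∑ d ∈ (qv a b e n).divisors.filter (fun d => d.primeFactorsList.length ≡ x.1 [MOD k] ∧
      (qv a b e n / d).primeFactorsList.length ≡ x.2.1 [MOD k] ∧ oddc m (qv a b e n) = x.2.2),
      1 / ((max d (qv a b e n / d) : ℕ) : ℝ)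

theorem tendP (hF : Fd (t : ℤ) (c : ℤ) f χ) {m k : ℕ} [NeZero m] [NeZero k] {a b e : ℤ}
    (ha : 0 < a) (hdisc : b ^ 2 - 4 * a * e = (t : ℤ) ^ 2 - 4 * (c : ℤ)) {q u i j : ℕ}
    (hq : 1 ≤ q) (hmq : m ∣ q) (hu : (qv a b e u).Coprime m) (T : Finset (ZMod m)ˣ)
    (h : Admn t c m k (qv a b e u) (i + j) T) :
    Tendsto (fun N : ℕ => SP2 a b e m k q u (i, j, T) N / TK a b e q u N) atTop
      (nhds (1 / (Nat.card (Dp t c m k) : ℝ))) := by
  classical
  have hm1 : 1 ≤ m := Nat.one_le_iff_ne_zero.2 (NeZero.ne m)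
  have hk1 : 1 ≤ k := Nat.one_le_iff_ne_zero.2 (NeZero.ne k)
  have h1 := tendW hF (gpk t c m k hm1)
    (((i : ZMod k), (j : ZMod k), ∑ b ∈ T, ev m (b : ZMod m)) : Bk m k)
    ha hdisc q hq u (alf_pair hF hm1 hk1 ha hdisc hmq hu T h)
  refine h1.congr fun N => ?_
  unfold SP2 TK
  congr 1
  refine sum_congr rfl fun n _ => ?_
  rw [sum_filter, sum_filter]
  refine sum_congr rfl fun d hd => ?_
  have hd1 := Nat.mem_divisors.1 hd
  have hd2 : d * (qv a b e n / d) = qv a b e n := Nat.mul_div_cancel' hd1.1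
  have hd3 : d ≠ 0 := fun h0 => by rw [h0, zero_mul] at hd2; exact hd1.2 hd2.symm
  have hd4 : qv a b e n / d ≠ 0 := fun h0 => by rw [h0, mul_zero] at hd2; exact hd1.2 hd2.symm
  have h3 := pair_iff (k := k) d (qv a b e n / d) i j hd3 hd4 T
  rw [hd2] at h3
  by_cases h4 : H1 m k d + H2 m k (qv a b e n / d) =
      (((i : ZMod k), (j : ZMod k), ∑ b ∈ T, ev m (b : ZMod m)) : Bk m k)
  · rw [if_pos h4, if_pos (h3.1 h4)]
  · rw [if_neg h4, if_neg (fun h5 => h4 (h3.2 h5))]

open scoped Classical in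
/-- the admissible triples -/
noncomputable def AT (t c m k v : ℕ) [NeZero m] : Finset (ℕ × ℕ × Finset (ZMod m)ˣ) :=
  (range k ×ˢ range k ×ˢ (univ : Finset (Finset (ZMod m)ˣ))).filter
    (fun x => Admn t c m k v (x.1 + x.2.1) x.2.2)

theorem sum_SP2 (hF : Fd (t : ℤ) (c : ℤ) f χ) {m k : ℕ} [NeZero m] [NeZero k] {a b e : ℤ}
    (ha : 0 < a) (hdisc : b ^ 2 - 4 * a * e = (t : ℤ) ^ 2 - 4 * (c : ℤ)) {q u : ℕ}
    (hmq : m ∣ q) (hu : (qv a b e u).Coprime m) (N : ℕ) :
    ∑ x ∈ AT t c m k (qv a b e u), SP2 a b e m k q u x N = TK a b e q u N := by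
  classical
  have hk0 : 0 < k := Nat.pos_of_ne_zero (NeZero.ne k)
  unfold TK SP2
  rw [sum_comm]
  refine sum_congr rfl fun n hn => ?_
  rw [mem_filter] at hn
  unfold wq
  rw [← sum_fiberwise_of_maps_to (s := (qv a b e n).divisors)
    (t := AT t c m k (qv a b e u))
    (g := fun d => (d.primeFactorsList.length % k, (qv a b e n / d).primeFactorsList.length % k,
      oddc m (qv a b e n)))]
  · refine sum_congr rfl fun x hx => ?_
    unfold AT at hx
    rw [mem_filter, mem_product, mem_product, mem_range, mem_range] at hx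
    refine sum_congr ?_ fun _ _ => rfl
    refine filter_congr fun d _ => ?_
    have hx1 : x.1 % k = x.1 := Nat.mod_eq_of_lt hx.1.1
    have hx2 : x.2.1 % k = x.2.1 := Nat.mod_eq_of_lt hx.1.2.1
    constructor
    · rintro ⟨h1, h2, h3⟩
      refine Prod.ext ?_ (Prod.ext ?_ h3)
      · show d.primeFactorsList.length % k = x.1
        rw [← hx1]
        exact h1
      · show (qv a b e n / d).primeFactorsList.length % k = x.2.1
        rw [← hx2]
        exact h2
    · intro h2
      refine ⟨?_, ?_, congrArg (fun z => z.2.2) h2⟩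
      · show d.primeFactorsList.length % k = x.1 % k
        rw [hx1]
        exact congrArg Prod.fst h2
      · show (qv a b e n / d).primeFactorsList.length % k = x.2.1 % k
        rw [hx2]
        exact congrArg (fun z => z.2.1) h2
  · intro d hd
    have hd1 := Nat.mem_divisors.1 hd
    have hd2 : d * (qv a b e n / d) = qv a b e n := Nat.mul_div_cancel' hd1.1
    unfold AT
    rw [mem_filter, mem_product, mem_product, mem_range, mem_range]
    refine ⟨⟨Nat.mod_lt _ hk0, Nat.mod_lt _ hk0, mem_univ _⟩, ?_⟩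
    refine nec_pair (d := d) (d' := qv a b e n / d) hF ha hdisc hmq hu _ hn.2 ?_
      (Nat.mod_modEq _ _).symm (Nat.mod_modEq _ _).symm ?_
    · rw [← qv_cast hF ha hdisc]
      exact_mod_cast hd2
    · rw [hd2]

/-- the number of the admissible triples -/
theorem card_AT (hF : Fd (t : ℤ) (c : ℤ) f χ) {m k : ℕ} [NeZero m] [NeZero k] {a b e : ℤ}
    (ha : 0 < a) (hdisc : b ^ 2 - 4 * a * e = (t : ℤ) ^ 2 - 4 * (c : ℤ)) {q u : ℕ}
    (hq : 1 ≤ q) (hmq : m ∣ q) (hu : (qv a b e u).Coprime m) :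
    (Nat.card (Dp t c m k) : ℝ) = (AT t c m k (qv a b e u)).card := by
  classical
  have h1 : Tendsto (fun N : ℕ => ∑ x ∈ AT t c m k (qv a b e u),
      SP2 a b e m k q u x N / TK a b e q u N) atTop
      (nhds (∑ x ∈ AT t c m k (qv a b e u), 1 / (Nat.card (Dp t c m k) : ℝ))) := by
    refine tendsto_finsetSum _ fun x hx => ?_
    unfold AT at hx
    exact tendP hF ha hdisc hq hmq hu x.2.2 (mem_filter.1 hx).2
  obtain ⟨c₁, hc₁, N₀, hlow⟩ := finlow hF (lowqG hF) (scntG hF) a b e ha hdisc q u hq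
  have h2 : (fun N : ℕ => ∑ x ∈ AT t c m k (qv a b e u),
      SP2 a b e m k q u x N / TK a b e q u N) =ᶠ[atTop] fun _ => (1 : ℝ) := by
    filter_upwards [eventually_ge_atTop (max N₀ 2)] with N hN
    have hN0 : N₀ ≤ N := (le_max_left _ _).trans hN
    have hN2 : 2 ≤ N := (le_max_right _ _).trans hN
    have hlog : 0 < Real.log N := Real.log_pos (by exact_mod_cast hN2)
    have hT : 0 < TK a b e q u N := by
      refine lt_of_lt_of_le (mul_pos hc₁ hlog) (le_of_le_of_eq (hlow N hN0) ?_)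
      unfold TK
      refine sum_congr (by congr!) fun _ _ => rfl
    rw [← sum_div, sum_SP2 hF ha hdisc hmq hu, div_self hT.ne']
  have h3 := tendsto_nhds_unique h1 (tendsto_const_nhds.congr' h2.symm)
  rw [sum_const, nsmul_eq_mul] at h3
  have h4 : (Nat.card (Dp t c m k) : ℝ) ≠ 0 := by
    exact_mod_cast (Nat.card_pos (α := Dp t c m k)).ne'
  field_simp at h3
  linarith

end

end Pool.Agent.V11296.CX
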