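import Mathlib

/-!
A contraction argument for mean values (helper296): if `A(n) log n ≤ ∑_{d ∣ n} B(d) A(n/d)`, the mean
values of `A` are bounded and those of `B` are at most `κ < 1`, then the mean values of `A` tend to `0`.
-/

set_option autoImplicit false

namespace Pool.Agent.V11296.CY

open Finset Filter

theorem abel_inv (a : ℕ → ℝ) (N : ℕ) : ∑ n ∈ Icc 1 N, a n / n =
    ∑ n ∈ Icc 1 N, (∑ m ∈ Icc 1 n, a m) * (1 / ((n : ℝ) * (n + 1))) +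
      (∑ m ∈ Icc 1 N, a m) / (N + 1) := by
  induction N with
  | zero => simp
  | succ N ih =>
    rw [sum_Icc_succ_top (by omega), sum_Icc_succ_top (b := N) (by omega),
      ih]
    have h0 : ∑ m ∈ Icc 1 (N + 1), a m = ∑ m ∈ Icc 1 N, a m + a (N + 1) :=
      sum_Icc_succ_top (by omega) _
    rw [h0]
    push_cast
    have h1 : (N : ℝ) + 1 ≠ 0 := by positivity
    have h2 : (N : ℝ) + 1 + 1 ≠ 0 := by positivity
    field_simp
    ring

theorem abel_log (a : ℕ → ℝ) (N : ℕ) : ∑ n ∈ Icc 1 (N + 1), a n * (Real.log (N + 1 : ℕ) - Real.log n) =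
    ∑ n ∈ Icc 1 N, (∑ m ∈ Icc 1 n, a m) * (Real.log (n + 1 : ℕ) - Real.log n) := by
  induction N with
  | zero => simp
  | succ N ih =>
    rw [sum_Icc_succ_top (by omega), sub_self, mul_zero, add_zero,
      sum_Icc_succ_top (b := N) (by omega) (fun n => (∑ m ∈ Icc 1 n, a m) *
        (Real.log (n + 1 : ℕ) - Real.log n)), ← ih, sum_mul, ← sum_add_distrib]
    refine sum_congr rfl fun n _ => ?_
    ring

theorem log_up {n : ℕ} (hn : 1 ≤ n) : Real.log (n + 1 : ℕ) - Real.log n ≤ 1 / n := by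
  have h0 : (0 : ℝ) < n := by exact_mod_cast hn
  rw [← Real.log_div (by positivity) h0.ne']
  refine (Real.log_le_sub_one_of_pos (by positivity)).trans (le_of_eq ?_)
  push_cast
  field_simp
  ring

theorem log_low {n : ℕ} (hn : 1 ≤ n) : 1 / ((n : ℝ) + 1) ≤ Real.log (n + 1 : ℕ) - Real.log n := by
  have h0 : (0 : ℝ) < n := by exact_mod_cast hn
  have h1 := Real.log_le_sub_one_of_pos (show (0 : ℝ) < n / (n + 1) by positivity)
  rw [Real.log_div h0.ne' (by positivity)] at h1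
  push_cast
  have h2 : (n : ℝ) / (n + 1) - 1 = -(1 / (n + 1)) := by
    field_simp
    ring
  linarith

theorem log_mono_step {n : ℕ} (hn : 1 ≤ n) : 0 ≤ Real.log (n + 1 : ℕ) - Real.log n :=
  le_trans (by positivity) (log_low hn)

theorem tele (g : ℕ → ℝ) (N : ℕ) : ∑ n ∈ Icc 1 N, (g (n + 1) - g n) = g (N + 1) - g 1 := by
  induction N with
  | zero => simp
  | succ N ih => rw [sum_Icc_succ_top (by omega), ih]; ring

theorem log_succ_le {N : ℕ} (hN : 1 ≤ N) : Real.log (N + 1 : ℕ) ≤ Real.log N + 1 := by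
  have h1 := log_up hN
  have h2 : 1 / (N : ℝ) ≤ 1 := by
    rw [div_le_one (by exact_mod_cast hN)]
    exact_mod_cast hN
  linarith

theorem sum_inv_succ (N : ℕ) : ∑ n ∈ Icc 1 N, 1 / ((n : ℝ) + 1) ≤ Real.log (N + 1 : ℕ) := by
  have h1 := tele (fun n => Real.log (n : ℕ)) N
  simp only [Nat.cast_one, Real.log_one, sub_zero] at h1
  rw [← h1]
  exact sum_le_sum fun n hn => log_low (mem_Icc.1 hn).1

theorem sum_tel_inv (N : ℕ) : ∑ n ∈ Icc 1 N, 1 / ((n : ℝ) * (n + 1)) ≤ 1 := by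
  have h1 := tele (fun n => -(1 / (n : ℝ))) N
  have h2 : ∑ n ∈ Icc 1 N, 1 / ((n : ℝ) * (n + 1)) = ∑ n ∈ Icc 1 N,
      (-(1 / ((n + 1 : ℕ) : ℝ)) - -(1 / (n : ℝ))) := by
    refine sum_congr rfl fun n hn => ?_
    have : (0 : ℝ) < n := by exact_mod_cast (mem_Icc.1 hn).1
    push_cast
    field_simp
    ring
  rw [h2, h1]
  push_cast
  have h3 : 0 ≤ 1 / ((N : ℝ) + 1) := by positivity
  linarith

/-- from sums to sums with the weight `1/n` -/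
theorem inv_le {B : ℕ → ℝ} {κ K : ℝ} (hκ : 0 ≤ κ) (hK : 0 ≤ K)
    (h : ∀ N : ℕ, 1 ≤ N → ∑ n ∈ Icc 1 N, B n ≤ κ * N + K) (N : ℕ) (hN : 1 ≤ N) :
    ∑ n ∈ Icc 1 N, B n / n ≤ κ * Real.log N + (2 * κ + 2 * K) := by
  rw [abel_inv]
  have h1 : ∑ n ∈ Icc 1 N, (∑ m ∈ Icc 1 n, B m) * (1 / ((n : ℝ) * (n + 1))) ≤
      ∑ n ∈ Icc 1 N, (κ * (1 / ((n : ℝ) + 1)) + K * (1 / ((n : ℝ) * (n + 1)))) := by
    refine sum_le_sum fun n hn => ?_
    have hn1 := (mem_Icc.1 hn).1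
    have : (0 : ℝ) < n := by exact_mod_cast hn1
    refine (mul_le_mul_of_nonneg_right (h n hn1) (by positivity)).trans (le_of_eq ?_)
    field_simp
  rw [sum_add_distrib, ← mul_sum, ← mul_sum] at h1
  have h2 := mul_le_mul_of_nonneg_left (sum_inv_succ N) hκ
  have h3 := mul_le_mul_of_nonneg_left (sum_tel_inv N) hK
  have h4 := mul_le_mul_of_nonneg_left (log_succ_le hN) hκ
  have h5 : (∑ m ∈ Icc 1 N, B m) / ((N : ℝ) + 1) ≤ κ + K := by
    have hN0 : (0 : ℝ) < N := by exact_mod_cast hN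
    rw [div_le_iff₀ (by positivity)]
    refine (h N hN).trans ?_
    nlinarith
  linarith

/-- double counting -/
theorem dc (F : ℕ → ℕ → ℝ) (N : ℕ) : ∑ n ∈ Icc 1 N, ∑ d ∈ n.divisors, F d (n / d) =
    ∑ m ∈ Icc 1 N, ∑ d ∈ Icc 1 (N / m), F d m := by
  rw [sum_sigma', sum_sigma']
  refine sum_bij' (fun x _ => ⟨x.1 / x.2, x.2⟩) (fun x _ => ⟨x.1 * x.2, x.2⟩) ?_ ?_ ?_ ?_ ?_
  · rintro ⟨n, d⟩ h
    rw [mem_sigma, mem_Icc, Nat.mem_divisors] at h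
    obtain ⟨⟨h1, h2⟩, ⟨e, he⟩, h3⟩ := h
    dsimp only at h1 h2 he h3
    have hd : 0 < d := Nat.pos_of_ne_zero fun h0 => h3 (by rw [he, h0, Nat.zero_mul])
    have he0 : 0 < e := Nat.pos_of_ne_zero fun h0 => h3 (by rw [he, h0, Nat.mul_zero])
    rw [mem_sigma, mem_Icc, mem_Icc]
    dsimp only
    rw [he, Nat.mul_div_cancel_left _ hd]
    refine ⟨⟨he0, ?_⟩, hd, ?_⟩
    · exact (Nat.le_mul_of_pos_left e hd).trans (by rw [← he]; exact h2)
    · rw [Nat.le_div_iff_mul_le he0, ← he]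
      exact h2
  · rintro ⟨m, d⟩ h
    rw [mem_sigma, mem_Icc, mem_Icc] at h
    obtain ⟨⟨h1, h2⟩, h3, h4⟩ := h
    dsimp only at h1 h2 h3 h4
    rw [mem_sigma, mem_Icc, Nat.mem_divisors]
    dsimp only
    rw [Nat.le_div_iff_mul_le (by omega)] at h4
    refine ⟨⟨Nat.mul_pos h1 h3, by rw [mul_comm]; exact h4⟩, dvd_mul_left _ _, ?_⟩
    exact (Nat.mul_pos h1 h3).ne'
  · rintro ⟨n, d⟩ h
    rw [mem_sigma, mem_Icc, Nat.mem_divisors] at h
    obtain ⟨_, h1, _⟩ := h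
    dsimp only at h1 ⊢
    rw [Nat.div_mul_cancel h1]
  · rintro ⟨m, d⟩ h
    rw [mem_sigma, mem_Icc, mem_Icc] at h
    obtain ⟨_, h3, _⟩ := h
    dsimp only at h3 ⊢
    rw [Nat.mul_div_cancel _ (by omega)]
  · rintro ⟨n, d⟩ _
    rfl

section

variable {A B : ℕ → ℝ}

/-- the logarithmic sums -/
theorem logsum (hA : ∀ n, 0 ≤ A n) (_hB : ∀ n, 0 ≤ B n)
    (hlog : ∀ n : ℕ, 1 ≤ n → A n * Real.log n ≤ ∑ d ∈ n.divisors, B d * A (n / d))
    {κ C : ℝ} (hκ : 0 ≤ κ)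
    (hβ : ∀ N : ℕ, 1 ≤ N → ∑ d ∈ Icc 1 N, B d / d ≤ κ * Real.log N + C) (N : ℕ) :
    ∑ n ∈ Icc 1 N, A n / n * Real.log n ≤
      ∑ m ∈ Icc 1 N, A m / m * (κ * (Real.log N - Real.log m) + C) := by
  have h1 : ∑ n ∈ Icc 1 N, A n / n * Real.log n ≤
      ∑ n ∈ Icc 1 N, ∑ d ∈ n.divisors, (B d / d) * (A (n / d) / (n / d : ℕ)) := by
    refine sum_le_sum fun n hn => ?_
    have hn1 := (mem_Icc.1 hn).1
    have hn0 : (0 : ℝ) < n := by exact_mod_cast hn1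
    have h2 := hlog n hn1
    have h3 : ∑ d ∈ n.divisors, (B d / d) * (A (n / d) / (n / d : ℕ)) =
        (∑ d ∈ n.divisors, B d * A (n / d)) / n := by
      rw [sum_div]
      refine sum_congr rfl fun d hd => ?_
      have hd1 := (Nat.mem_divisors.1 hd).1
      have h4 : (d : ℝ) * ((n / d : ℕ) : ℝ) = n := by
        exact_mod_cast Nat.mul_div_cancel' hd1
      rw [div_mul_div_comm, h4]
    rw [h3, div_mul_eq_mul_div]
    exact div_le_div_of_nonneg_right h2 hn0.le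
  refine h1.trans ?_
  rw [dc (fun d e => (B d / d) * (A e / e)) N]
  refine sum_le_sum fun m hm => ?_
  have hm1 := (mem_Icc.1 hm).1
  have hmN := (mem_Icc.1 hm).2
  have hm0 : (0 : ℝ) < m := by exact_mod_cast hm1
  rw [← sum_mul, mul_comm]
  refine mul_le_mul_of_nonneg_left ?_ (div_nonneg (hA m) hm0.le)
  have hq : 1 ≤ N / m := Nat.div_pos hmN hm1
  refine (hβ (N / m) hq).trans ?_
  have h5 : Real.log ((N / m : ℕ) : ℝ) ≤ Real.log N - Real.log m := by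
    rw [← Real.log_div (by exact_mod_cast (by omega : N ≠ 0)) hm0.ne']
    refine Real.log_le_log (by exact_mod_cast hq) ?_
    exact Nat.cast_div_le
  nlinarith

/-- the inequality for `L` -/
theorem ineq (hA : ∀ n, 0 ≤ A n) (hB : ∀ n, 0 ≤ B n)
    (hlog : ∀ n : ℕ, 1 ≤ n → A n * Real.log n ≤ ∑ d ∈ n.divisors, B d * A (n / d))
    {κ C : ℝ} (hκ : 0 ≤ κ)
    (hβ : ∀ N : ℕ, 1 ≤ N → ∑ d ∈ Icc 1 N, B d / d ≤ κ * Real.log N + C)
    {a K : ℝ} (ha : 0 ≤ a) (_hK : 0 ≤ K)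
    (hL : ∀ N : ℕ, 1 ≤ N → ∑ n ∈ Icc 1 N, A n / n ≤ a * Real.log N + K) (N : ℕ) :
    (∑ n ∈ Icc 1 (N + 1), A n / n) * (Real.log (N + 1 : ℕ) - C) ≤
      (1 + κ) * (a / 2 * Real.log (N + 1 : ℕ) ^ 2 + K * Real.log (N + 1 : ℕ)) := by
  have h1 := logsum hA hB hlog hκ hβ (N + 1)
  have h2 := abel_log (fun n => A n / n) N
  have h3 : ∑ n ∈ Icc 1 N, (∑ m ∈ Icc 1 n, A m / m) * (Real.log (n + 1 : ℕ) - Real.log n) ≤
      ∑ n ∈ Icc 1 N, (a / 2 * (Real.log (n + 1 : ℕ) ^ 2 - Real.log n ^ 2) +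
        K * (Real.log (n + 1 : ℕ) - Real.log n)) := by
    refine sum_le_sum fun n hn => ?_
    have hn1 := (mem_Icc.1 hn).1
    have h4 := log_mono_step hn1
    refine (mul_le_mul_of_nonneg_right (hL n hn1) h4).trans ?_
    have h5 : 0 ≤ (Real.log (n + 1 : ℕ) - Real.log n) ^ 2 := sq_nonneg _
    nlinarith
  rw [sum_add_distrib, ← mul_sum, ← mul_sum,
    tele (fun n => Real.log (n : ℕ) ^ 2) N, tele (fun n => Real.log (n : ℕ)) N] at h3
  simp only [Nat.cast_one, Real.log_one, sub_zero, ne_eq, OfNat.ofNat_ne_zero, not_false_eq_true,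
    zero_pow] at h3
  rw [← h2] at h3
  obtain ⟨L, hLd⟩ : ∃ L, L = ∑ n ∈ Icc 1 (N + 1), A n / n := ⟨_, rfl⟩
  obtain ⟨W, hW⟩ : ∃ W, W = ∑ n ∈ Icc 1 (N + 1), A n / n * Real.log n := ⟨_, rfl⟩
  have e1 : ∑ n ∈ Icc 1 (N + 1), A n / n * (Real.log (N + 1 : ℕ) - Real.log n) =
      L * Real.log (N + 1 : ℕ) - W := by
    rw [hLd, hW, sum_mul, ← sum_sub_distrib]
    exact sum_congr rfl fun n _ => by ring
  have e2 : ∑ m ∈ Icc 1 (N + 1), A m / m * (κ * (Real.log (N + 1 : ℕ) - Real.log m) + C) =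
      κ * (L * Real.log (N + 1 : ℕ) - W) + C * L := by
    rw [← e1, hLd, mul_sum, mul_sum, ← sum_add_distrib]
    exact sum_congr rfl fun n _ => by ring
  rw [e2, ← hW] at h1
  rw [e1] at h3
  rw [← hLd]
  nlinarith

/-- one step of the contraction -/
theorem contract (hA : ∀ n, 0 ≤ A n) (hB : ∀ n, 0 ≤ B n)
    (hlog : ∀ n : ℕ, 1 ≤ n → A n * Real.log n ≤ ∑ d ∈ n.divisors, B d * A (n / d))
    {κ C : ℝ} (hκ : 0 ≤ κ) (hκ1 : κ < 1) (hC : 1 ≤ C)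
    (hβ : ∀ N : ℕ, 1 ≤ N → ∑ d ∈ Icc 1 N, B d / d ≤ κ * Real.log N + C)
    {a K : ℝ} (ha : 0 ≤ a) (hK : 0 ≤ K)
    (hL : ∀ N : ℕ, 1 ≤ N → ∑ n ∈ Icc 1 N, A n / n ≤ a * Real.log N + K) (N : ℕ) (hN : 1 ≤ N) :
    ∑ n ∈ Icc 1 N, A n / n ≤ ((1 + κ) / 2 * a) * Real.log N + 2 * (a * C + 2 * K) := by
  have hl0 : 0 ≤ Real.log N := Real.log_nonneg (by exact_mod_cast hN)
  have haC : 0 ≤ a * C := mul_nonneg ha (by linarith)
  by_cases hl : Real.log N < 2 * C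
  · refine (hL N hN).trans ?_
    have h1 : a * Real.log N ≤ a * (2 * C) := mul_le_mul_of_nonneg_left hl.le ha
    have h2 : 0 ≤ ((1 + κ) / 2 * a) * Real.log N := by positivity
    linarith
  · push Not at hl
    have hN2 : N ≠ 1 := by
      rintro rfl
      rw [Nat.cast_one, Real.log_one] at hl
      linarith
    obtain ⟨M, rfl⟩ : ∃ M, N = M + 1 := ⟨N - 1, by omega⟩
    have h1 := ineq hA hB hlog hκ hβ ha hK hL M
    obtain ⟨ℓ, hℓ⟩ : ∃ ℓ, ℓ = Real.log (M + 1 : ℕ) := ⟨_, rfl⟩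
    obtain ⟨L, hLd⟩ : ∃ L, L = ∑ n ∈ Icc 1 (M + 1), A n / n := ⟨_, rfl⟩
    rw [← hℓ, ← hLd] at h1
    rw [← hℓ] at hl ⊢
    rw [← hLd]
    have hpos : 0 < ℓ - C := by linarith
    have h2 : (1 + κ) * (a / 2 * ℓ ^ 2 + K * ℓ) ≤
        (ℓ - C) * ((1 + κ) * (a / 2 * ℓ + (a * C + 2 * K))) := by
      have h3 : a / 2 * ℓ ^ 2 + K * ℓ ≤ (ℓ - C) * (a / 2 * ℓ + (a * C + 2 * K)) := by
        have h4 : 0 ≤ (a / 2 * C + K) * (ℓ - 2 * C) := mul_nonneg (by positivity) (by linarith)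
        nlinarith
      have h5 := mul_le_mul_of_nonneg_left h3 (by linarith : 0 ≤ 1 + κ)
      linarith
    have h3 : L * (ℓ - C) ≤ ((1 + κ) * (a / 2 * ℓ + (a * C + 2 * K))) * (ℓ - C) := by
      linarith
    have h4 := le_of_mul_le_mul_right h3 hpos
    have h5 : (1 + κ) * (a * C + 2 * K) ≤ 2 * (a * C + 2 * K) :=
      mul_le_mul_of_nonneg_right (by linarith) (by linarith)
    linarith

/-- the sums with the weight `1/n` are small -/
theorem L_small (hA : ∀ n, 0 ≤ A n) (hB : ∀ n, 0 ≤ B n)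
    (hlog : ∀ n : ℕ, 1 ≤ n → A n * Real.log n ≤ ∑ d ∈ n.divisors, B d * A (n / d))
    {κ C : ℝ} (hκ : 0 ≤ κ) (hκ1 : κ < 1) (hC : 1 ≤ C)
    (hβ : ∀ N : ℕ, 1 ≤ N → ∑ d ∈ Icc 1 N, B d / d ≤ κ * Real.log N + C)
    {a K : ℝ} (ha : 0 ≤ a) (hK : 0 ≤ K)
    (hL : ∀ N : ℕ, 1 ≤ N → ∑ n ∈ Icc 1 N, A n / n ≤ a * Real.log N + K) (ε : ℝ) (hε : 0 < ε) :
    ∃ K' : ℝ, 0 ≤ K' ∧ ∀ N : ℕ, 1 ≤ N → ∑ n ∈ Icc 1 N, A n / n ≤ ε * Real.log N + K' := by
  have h1 : ∀ j : ℕ, ∃ K' : ℝ, 0 ≤ K' ∧ ∀ N : ℕ, 1 ≤ N →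
      ∑ n ∈ Icc 1 N, A n / n ≤ (((1 + κ) / 2) ^ j * a) * Real.log N + K' := by
    intro j
    induction j with
    | zero => exact ⟨K, hK, fun N hN => by rw [pow_zero, one_mul]; exact hL N hN⟩
    | succ j ih =>
      obtain ⟨K', hK', h2⟩ := ih
      have ha' : 0 ≤ ((1 + κ) / 2) ^ j * a := by positivity
      refine ⟨2 * ((((1 + κ) / 2) ^ j * a) * C + 2 * K'), ?_, fun N hN => ?_⟩
      · have := mul_nonneg ha' (by linarith : 0 ≤ C)
        linarith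
      · have h3 := contract hA hB hlog hκ hκ1 hC hβ ha' hK' h2 N hN
        rw [pow_succ]
        have e1 : ((1 + κ) / 2) ^ j * ((1 + κ) / 2) * a = (1 + κ) / 2 * (((1 + κ) / 2) ^ j * a) := by
          ring
        rw [e1]
        exact h3
  obtain ⟨j, hj⟩ := exists_pow_lt_of_lt_one (show 0 < ε / (a + 1) by positivity)
    (show (1 + κ) / 2 < 1 by linarith)
  obtain ⟨K', hK', h2⟩ := h1 j
  refine ⟨K', hK', fun N hN => (h2 N hN).trans ?_⟩
  have hl0 : 0 ≤ Real.log N := Real.log_nonneg (by exact_mod_cast hN)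
  have h3 : ((1 + κ) / 2) ^ j * a ≤ ε := by
    have h4 : ((1 + κ) / 2) ^ j * a ≤ ε / (a + 1) * a := mul_le_mul_of_nonneg_right hj.le ha
    have h5 : ε / (a + 1) * a ≤ ε := by
      rw [div_mul_eq_mul_div, div_le_iff₀ (by positivity)]
      nlinarith
    linarith
  have := mul_le_mul_of_nonneg_right h3 hl0
  linarith

/-- the mean values of `A` tend to `0` -/
theorem mean_small (hA : ∀ n, 0 ≤ A n) (hB : ∀ n, 0 ≤ B n)
    (hlog : ∀ n : ℕ, 1 ≤ n → A n * Real.log n ≤ ∑ d ∈ n.divisors, B d * A (n / d))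
    {C : ℝ} (hC : 0 ≤ C) (hS : ∀ N : ℕ, ∑ n ∈ Icc 1 N, A n ≤ C * N)
    (hT : ∀ N : ℕ, ∑ n ∈ Icc 1 N, B n ≤ C * N) {κ : ℝ} (hκ : 0 ≤ κ) (hκ1 : κ < 1) {N₁ : ℕ}
    (hκT : ∀ N : ℕ, N₁ ≤ N → ∑ n ∈ Icc 1 N, B n ≤ κ * N) (ε : ℝ) (hε : 0 < ε) :
    ∃ N₀ : ℕ, ∀ N : ℕ, N₀ ≤ N → ∑ n ∈ Icc 1 N, A n ≤ ε * N := by
  have h1 : ∀ N : ℕ, 1 ≤ N → ∑ n ∈ Icc 1 N, B n ≤ κ * N + C * N₁ := by
    intro N _
    rcases le_total N₁ N with h | h
    · have := hκT N h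
      have : 0 ≤ C * N₁ := by positivity
      linarith
    · have h2 := hT N
      have h3 : C * N ≤ C * N₁ := mul_le_mul_of_nonneg_left (by exact_mod_cast h) hC
      have h4 : 0 ≤ κ * N := by positivity
      linarith
  have h2 := inv_le hκ (by positivity : 0 ≤ C * N₁) h1
  have hβ : ∀ N : ℕ, 1 ≤ N → ∑ d ∈ Icc 1 N, B d / d ≤
      κ * Real.log N + (2 * κ + 2 * (C * N₁) + 1) := by
    intro N hN
    linarith [h2 N hN]
  have hL := inv_le (B := A) hC (le_refl (0 : ℝ)) (fun N _ => by linarith [hS N])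
  obtain ⟨δ, hδ⟩ : ∃ δ : ℝ, δ = ε / (2 * (C + 1)) := ⟨_, rfl⟩
  have hδ0 : 0 < δ := by rw [hδ]; positivity
  obtain ⟨K', hK', h3⟩ := L_small hA hB hlog hκ hκ1
    (by have : 0 ≤ C * N₁ := by positivity
        linarith : 1 ≤ 2 * κ + 2 * (C * N₁) + 1) hβ hC (by linarith : 0 ≤ 2 * C + 2 * 0)
    hL δ hδ0
  -- the sum with the logarithm
  have h4 : ∀ N : ℕ, 1 ≤ N → (∑ n ∈ Icc 1 N, A n) * Real.log N ≤
      C * N * (δ * Real.log N + K' + 1) := by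
    intro N hN
    have h5 : ∑ n ∈ Icc 1 N, A n * Real.log n ≤ C * N * ∑ m ∈ Icc 1 N, A m / m := by
      have h6 : ∑ n ∈ Icc 1 N, A n * Real.log n ≤
          ∑ n ∈ Icc 1 N, ∑ d ∈ n.divisors, B d * A (n / d) :=
        sum_le_sum fun n hn => hlog n (mem_Icc.1 hn).1
      refine h6.trans ?_
      rw [dc (fun d e => B d * A e) N, mul_sum]
      refine sum_le_sum fun m hm => ?_
      have hm1 := (mem_Icc.1 hm).1
      have hm0 : (0 : ℝ) < m := by exact_mod_cast hm1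
      rw [← sum_mul]
      have h7 := hT (N / m)
      have h8 : ((N / m : ℕ) : ℝ) ≤ N / m := Nat.cast_div_le
      have h9 : ∑ d ∈ Icc 1 (N / m), B d ≤ C * (N / m) :=
        h7.trans (mul_le_mul_of_nonneg_left h8 hC)
      refine (mul_le_mul_of_nonneg_right h9 (hA m)).trans (le_of_eq ?_)
      field_simp
    obtain ⟨M, rfl⟩ : ∃ M, N = M + 1 := ⟨N - 1, by omega⟩
    have h6 := abel_log A M
    have h7 : ∑ n ∈ Icc 1 M, (∑ m ∈ Icc 1 n, A m) * (Real.log (n + 1 : ℕ) - Real.log n) ≤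
        ∑ n ∈ Icc 1 M, C := by
      refine sum_le_sum fun n hn => ?_
      have hn1 := (mem_Icc.1 hn).1
      have hn0 : (0 : ℝ) < n := by exact_mod_cast hn1
      refine (mul_le_mul_of_nonneg_right (hS n) (log_mono_step hn1)).trans ?_
      refine (mul_le_mul_of_nonneg_left (log_up hn1) (by positivity)).trans (le_of_eq ?_)
      field_simp
    rw [sum_const, Nat.card_Icc, nsmul_eq_mul, ← h6] at h7
    have h8 : ∑ n ∈ Icc 1 (M + 1), A n * (Real.log (M + 1 : ℕ) - Real.log n) =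
        (∑ n ∈ Icc 1 (M + 1), A n) * Real.log (M + 1 : ℕ) -
          ∑ n ∈ Icc 1 (M + 1), A n * Real.log n := by
      rw [sum_mul, ← sum_sub_distrib]
      exact sum_congr rfl fun n _ => by ring
    rw [h8] at h7
    have h9 := mul_le_mul_of_nonneg_left (h3 (M + 1) hN)
      (by positivity : 0 ≤ C * ((M + 1 : ℕ) : ℝ))
    have h10 : ((M + 1 - 1 : ℕ) : ℝ) * C ≤ C * ((M + 1 : ℕ) : ℝ) := by
      rw [mul_comm]
      refine mul_le_mul_of_nonneg_left ?_ hC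
      exact_mod_cast Nat.sub_le _ _
    linarith
  obtain ⟨N₂, hN₂⟩ : ∃ N₂ : ℕ, 2 * C * (K' + 1) / ε ≤ Real.log N₂ := by
    obtain ⟨N₂, h⟩ := exists_nat_ge (Real.exp (2 * C * (K' + 1) / ε))
    exact ⟨N₂, (Real.le_log_iff_exp_le (lt_of_lt_of_le (Real.exp_pos _) h)).2 h⟩
  refine ⟨max N₂ 2, fun N hN => ?_⟩
  have hN1 : 2 ≤ N := (le_max_right _ _).trans hN
  have hN3 : N₂ ≤ N := (le_max_left _ _).trans hN
  have hl : 0 < Real.log N := Real.log_pos (by exact_mod_cast hN1)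
  have hN0 : (0 : ℝ) < N := by exact_mod_cast (by omega : 0 < N)
  have h5 : 2 * C * (K' + 1) ≤ ε * Real.log N := by
    rcases Nat.eq_zero_or_pos N₂ with h0 | h0
    · rw [h0, Nat.cast_zero, Real.log_zero, div_le_iff₀ hε, zero_mul] at hN₂
      have : 0 ≤ ε * Real.log N := by positivity
      linarith
    · have h6 : Real.log N₂ ≤ Real.log N := Real.log_le_log (by exact_mod_cast h0)
        (by exact_mod_cast hN3)
      have h7 := hN₂.trans h6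
      rw [div_le_iff₀ hε] at h7
      linarith
  have h6 := h4 N (by omega)
  have h7 : C * δ ≤ ε / 2 := by
    rw [hδ, mul_div_assoc', div_le_div_iff₀ (by positivity) (by positivity)]
    nlinarith
  have h8 : C * N * (δ * Real.log N + K' + 1) ≤ ε * N * Real.log N := by
    have h9 : C * N * (δ * Real.log N) ≤ ε / 2 * N * Real.log N := by
      have := mul_le_mul_of_nonneg_right h7 (by positivity : 0 ≤ (N : ℝ) * Real.log N)
      nlinarith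
    have h10 : C * N * (K' + 1) ≤ ε / 2 * N * Real.log N := by
      have := mul_le_mul_of_nonneg_left h5 hN0.le
      nlinarith
    nlinarith
  exact le_of_mul_le_mul_right (h6.trans h8) hl

end

end Pool.Agent.V11296.CY
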