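import Pool.Agent.V11296.CY1
import Pool.Agent.W251.EG.RC3

/-!
Mean values of completely multiplicative functions on imaginary quadratic orders of class number one
(helper296): a criterion without a hypothesis on the values at the primes in residue classes.
-/

set_option autoImplicit false

namespace Pool.Agent.V11296.CY

open Finset Filter Topology
open ArithmeticFunction (vonMangoldt)
open Pool.Agent.W78.EG
open Pool.Agent.W78.GA
open Pool.Agent.W357.EG (Nn mem_Nn LK LK_nonneg sum_LK sum_LK_le isDomain Bk aL_eq mem_ball1)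
open Pool.Agent.W738.EG (RM red red_eq red_surj isUnit_red PerM)
open Pool.Agent.W584.EG (rr aL_le sum_rr ball_card_le phi_le uc_pos sum_ball)
open Pool.Agent.W251.GX (Cm)
open Pool.Agent.W251.EG

variable {t c : ℤ}

/-- completely multiplicative functions, trivial on the units, of absolute value at most `1` -/
structure Mr (ψ : Qd t c → ℂ) : Prop where
  mul : ∀ z w : Qd t c, z ≠ 0 → w ≠ 0 → ψ (z * w) = ψ z * ψ w
  one : ψ 1 = 1
  unit : ∀ u : Qd t c, nm u = 1 → ψ u = 1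
  le : ∀ z : Qd t c, ‖ψ z‖ ≤ 1

section

variable {ψ : Qd t c → ℂ}

/-- sum over the multiples of `d` of norm `n` -/
lemma sum_mul' (hD : t ^ 2 < 4 * c) (H : Mr ψ) {n m : ℕ} (hn : n ≠ 0)
    (hm : m ∣ n) {d : Qd t c} (hd : nm d = m) :
    ∑ z ∈ Nn t c n, (open scoped Classical in if d ∣ z then ψ z else 0) =
      ψ d * ∑ w ∈ Nn t c (n / m), ψ w := by
  classical
  have := isDomain hD
  have hm0 : 0 < m := Nat.pos_of_dvd_of_pos hm (Nat.pos_of_ne_zero hn)
  have hd0 : d ≠ 0 := by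
    rintro rfl
    rw [nm_zero] at hd
    omega
  have hnm0 : 1 ≤ n / m := Nat.div_pos (Nat.le_of_dvd (Nat.pos_of_ne_zero hn) hm) hm0
  rw [← Finset.sum_filter, Finset.mul_sum]
  refine (Finset.sum_bij (fun w _ => d * w) ?_ ?_ ?_ ?_).symm
  · intro w hw
    rw [mem_filter, mem_Nn hD, nm_mul, hd, ((mem_Nn hD).1 hw).2]
    exact ⟨⟨Nat.pos_of_ne_zero hn, Nat.mul_div_cancel' hm⟩, dvd_mul_right _ _⟩
  · intro a _ b _ h
    exact mul_left_cancel₀ hd0 h
  · intro z hz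
    rw [mem_filter, mem_Nn hD] at hz
    obtain ⟨⟨-, h1⟩, w, rfl⟩ := hz
    refine ⟨w, ?_, rfl⟩
    rw [mem_Nn hD]
    refine ⟨hnm0, ?_⟩
    rw [nm_mul, hd] at h1
    rw [← h1, Nat.mul_div_cancel_left _ hm0]
  · intro w hw
    have hw0 : w ≠ 0 := by
      rintro rfl
      have h1 := (mem_Nn hD).1 hw
      rw [nm_zero] at h1
      omega
    rw [H.mul d w hd0 hw0]

/-- the identity of the logarithmic derivative -/
lemma log_id' (hD : t ^ 2 < 4 * c) (hP : S_PID t c) (H : Mr ψ)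
    {n : ℕ} (hn : n ≠ 0) :
    aL ψ n * (Real.log n : ℂ) = ∑ m ∈ n.divisors, Bk ψ m * aL ψ (n / m) := by
  classical
  have huc : (uc t c : ℂ) ≠ 0 := by exact_mod_cast (uc_pos hD).ne'
  have h1 : ∀ z ∈ Nn t c n, ψ z * ((uc t c : ℂ) * (Real.log n : ℂ)) =
      ∑ d ∈ ball t c n, (LK d : ℂ) * (if d ∣ z then ψ z else 0) := by
    intro z hz
    obtain ⟨h2, h3⟩ := (mem_Nn hD).1 hz
    have hz0 : z ≠ 0 := by
      rintro rfl
      rw [nm_zero] at h3
      omega
    have h4 := sum_LK hD hP (n : ℝ) z hz0 (by rw [h3])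
    rw [h3] at h4
    have h5 : ((uc t c : ℂ) * (Real.log n : ℂ)) =
        ∑ d ∈ ball t c n, ((if d ∣ z then LK d else 0 : ℝ) : ℂ) := by
      rw [← Complex.ofReal_sum, h4]
      push_cast
      rfl
    rw [h5, Finset.mul_sum]
    refine Finset.sum_congr rfl fun d _ => ?_
    split_ifs
    · ring
    · simp
  have h2 : (∑ z ∈ Nn t c n, ψ z) * ((uc t c : ℂ) * (Real.log n : ℂ)) =
      ∑ d ∈ ball t c n, (LK d : ℂ) * ∑ z ∈ Nn t c n, (if d ∣ z then ψ z else 0) := by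
    rw [Finset.sum_mul, Finset.sum_congr rfl h1, Finset.sum_comm]
    exact Finset.sum_congr rfl fun d _ => by rw [Finset.mul_sum]
  have h3 : ∑ d ∈ ball t c n, (LK d : ℂ) * ∑ z ∈ Nn t c n, (if d ∣ z then ψ z else 0) =
      ∑ m ∈ n.divisors, ∑ d ∈ Nn t c m, (LK d : ℂ) * (ψ d * ∑ w ∈ Nn t c (n / m), ψ w) := by
    have h4 : ∀ d ∈ ball t c n, d ∉ n.divisors.biUnion (fun m => Nn t c m) →
        (LK d : ℂ) * ∑ z ∈ Nn t c n, (if d ∣ z then ψ z else 0) = 0 := by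
      intro d hd hd2
      rw [Finset.sum_eq_zero, mul_zero]
      intro z hz
      rw [if_neg]
      intro hdz
      apply hd2
      obtain ⟨h5, h6⟩ := (mem_Nn hD).1 hz
      rw [mem_biUnion]
      refine ⟨nm d, ?_, (mem_Nn hD).2 ⟨((mem_ball hD).1 hd).1, rfl⟩⟩
      rw [Nat.mem_divisors]
      exact ⟨h6 ▸ nm_dvd hdz, hn⟩
    have hsub : n.divisors.biUnion (fun m => Nn t c m) ⊆ ball t c n := by
      intro d hd
      rw [mem_biUnion] at hd
      obtain ⟨m, hm, hd⟩ := hd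
      obtain ⟨h5, h6⟩ := (mem_Nn hD).1 hd
      rw [mem_ball hD, h6]
      exact ⟨h5, Nat.cast_le.2 (Nat.divisor_le hm)⟩
    rw [← Finset.sum_subset hsub h4, Finset.sum_biUnion]
    · refine Finset.sum_congr rfl fun m hm => Finset.sum_congr rfl fun d hd => ?_
      rw [sum_mul' hD H hn (Nat.dvd_of_mem_divisors hm) ((mem_Nn hD).1 hd).2]
    · intro m _ m' _ hmm
      rw [Function.onFun, Finset.disjoint_left]
      intro d hd hd'
      exact hmm (((mem_Nn hD).1 hd).2.symm.trans ((mem_Nn hD).1 hd').2)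
  rw [h3] at h2
  have h4 : ∀ m ∈ n.divisors, ∑ d ∈ Nn t c m, (LK d : ℂ) * (ψ d * ∑ w ∈ Nn t c (n / m), ψ w) =
      (uc t c : ℂ) * (uc t c : ℂ) * (Bk ψ m * aL ψ (n / m)) := by
    intro m _
    have h6 : ∑ d ∈ Nn t c m, (LK d : ℂ) * (ψ d * ∑ w ∈ Nn t c (n / m), ψ w) =
        (∑ d ∈ Nn t c m, (LK d : ℂ) * ψ d) * ∑ w ∈ Nn t c (n / m), ψ w := by
      rw [Finset.sum_mul]
      exact Finset.sum_congr rfl fun d _ => by ring
    rw [h6, aL_eq, Bk]
    field_simp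
  rw [Finset.sum_congr rfl h4, ← Finset.mul_sum] at h2
  rw [aL_eq]
  have h5 : (uc t c : ℂ) * (uc t c : ℂ) ≠ 0 := mul_ne_zero huc huc
  apply mul_left_cancel₀ h5
  rw [← h2]
  field_simp

lemma Bk_le' (hD : t ^ 2 < 4 * c) (hP : S_PID t c) (H : Mr ψ) (m : ℕ) :
    ‖Bk ψ m‖ ≤ 2 * vonMangoldt m := by
  have huc : (0 : ℝ) < uc t c := by exact_mod_cast uc_pos hD
  rw [Bk, norm_div, Complex.norm_natCast, div_le_iff₀ huc]
  calc ‖∑ d ∈ Nn t c m, (LK d : ℂ) * ψ d‖ ≤ ∑ d ∈ Nn t c m, ‖(LK d : ℂ) * ψ d‖ :=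
        norm_sum_le _ _
    _ ≤ ∑ d ∈ Nn t c m, LK d := by
        refine Finset.sum_le_sum fun d _ => ?_
        rw [norm_mul, Complex.norm_real, Real.norm_of_nonneg (LK_nonneg d)]
        exact mul_le_of_le_one_right (LK_nonneg d) (H.le d)
    _ ≤ _ := (sum_LK_le hD hP m).trans (le_of_eq (by ring))

lemma aL_one' (hD : t ^ 2 < 4 * c) (H : Mr ψ) : aL ψ 1 = 1 := by
  have huc : (uc t c : ℂ) ≠ 0 := by exact_mod_cast (uc_pos hD).ne'
  have h1 : Nn t c 1 = ball t c 1 := by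
    ext z
    rw [mem_Nn hD, mem_ball1 hD]
    simp
  rw [aL_eq, h1, Finset.sum_congr rfl (fun z hz => H.unit z ((mem_ball1 hD).1 hz)),
    Finset.sum_const, nsmul_eq_mul, mul_one]
  exact div_self huc

lemma Bk_prime (hD : t ^ 2 < 4 * c) (hP : S_PID t c) (H : Mr ψ) {p : ℕ} (hp : p.Prime) :
    Bk ψ p = (Real.log p : ℂ) * aL ψ p := by
  have h1 := log_id' hD hP H hp.ne_zero
  have h2 : Bk ψ 1 = 0 := by
    have h3 := Bk_le' hD hP H 1
    rw [ArithmeticFunction.vonMangoldt_apply_one, mul_zero, norm_le_zero_iff] at h3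
    exact h3
  rw [hp.divisors, sum_pair hp.one_lt.ne, h2, zero_mul, zero_add, Nat.div_self hp.pos,
    aL_one' hD H, mul_one] at h1
  rw [← h1, mul_comm]

/-- the mean value is `0` if the coefficients at the primes are bounded by those of a periodic
function of mean value less than `1` -/
theorem mr_mean {f : ℕ} {χ : DirichletCharacter ℂ f} (hF : Fd t c f χ) (hP : S_PID t c)
    (hL : S_LCON t c) (hN : S_LNV t c) (H : Mr ψ) {M : ℕ} (hM : 1 ≤ M) {Ψ : Qd t c → ℂ}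
    (hper : PerM M Ψ) (h0 : ∀ z : Qd t c, ¬ IsCoprime z (M : Qd t c) → Ψ z = 0)
    (hmaj : ∀ p : ℕ, p.Prime → ¬ p ∣ M → ‖aL ψ p‖ ≤ (aL Ψ p).re)
    (hκ : (mv M Ψ).re < 1) (ε : ℝ) (hε : 0 < ε) :
    ∃ X₀ : ℝ, ∀ X : ℝ, X₀ ≤ X → ‖∑ z ∈ ball t c X, ψ z‖ ≤ ε * X := by
  classical
  have hD : t ^ 2 < 4 * c := by
    have h1 := hF.disc
    have h2 : (3 : ℤ) ≤ f := by exact_mod_cast hF.three
    linarith
  have hucp : (0 : ℝ) < uc t c := by exact_mod_cast uc_pos hD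
  -- the coefficients
  obtain ⟨b, hb⟩ : ∃ b : ℕ → ℝ, b = fun n => ‖Bk ψ n‖ / vonMangoldt n := ⟨_, rfl⟩
  have hb0 : ∀ n, 0 ≤ b n := fun n => by
    rw [hb]
    exact div_nonneg (norm_nonneg _) ArithmeticFunction.vonMangoldt_nonneg
  have hb2 : ∀ n, b n ≤ 2 := fun n => by
    rw [hb]
    have h1 : (0 : ℝ) ≤ vonMangoldt n := ArithmeticFunction.vonMangoldt_nonneg
    rcases h1.eq_or_lt with h2 | h2
    · beta_reduce
      rw [← h2, div_zero]
      norm_num
    · beta_reduce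
      rw [div_le_iff₀ h2]
      exact Bk_le' hD hP H n
  have hbB : ∀ n, vonMangoldt n * b n = ‖Bk ψ n‖ := fun n => by
    rw [hb]
    have h1 : (0 : ℝ) ≤ vonMangoldt n := ArithmeticFunction.vonMangoldt_nonneg
    rcases h1.eq_or_lt with h2 | h2
    · have h3 := Bk_le' hD hP H n
      beta_reduce
      rw [← h2, mul_zero] at h3
      rw [← h2, zero_mul]
      exact le_antisymm (norm_nonneg _) h3
    · beta_reduce
      field_simp
  have hbp : ∀ p : ℕ, p.Prime → b p = ‖aL ψ p‖ := fun p hp => by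
    rw [hb]
    beta_reduce
    rw [Bk_prime hD hP H hp, ArithmeticFunction.vonMangoldt_apply_prime hp, norm_mul,
      Complex.norm_real, Real.norm_eq_abs]
    have h1 : 0 < Real.log p := Real.log_pos (by exact_mod_cast hp.one_lt)
    rw [abs_of_pos h1]
    field_simp
  -- the mean value over the primes
  obtain ⟨a', ha'⟩ : ∃ a' : ℕ → ℂ, a' = fun n => if n ∣ M then aL Ψ n else (b n : ℂ) := ⟨_, rfl⟩
  have hnorm : ∀ n, ‖((b n : ℝ) : ℂ)‖ ≤ 2 := fun n => by
    rw [Complex.norm_real, Real.norm_eq_abs, abs_of_nonneg (hb0 n)]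
    exact hb2 n
  have l1 := lim_np (fun n => (b n : ℂ)) 2 hnorm
  have l2 := lim_diff hM (a := fun n => (b n : ℂ)) (b := a') (by
    intro p _ hpM
    rw [ha']
    beta_reduce
    rw [if_neg hpM])
  have l3 := lim_class hF hP hL hN hM hper h0
  have hle : ∀ x : ℝ, (SPr a' x).re ≤ (SPr (aL Ψ) x).re := by
    intro x
    unfold SPr
    rw [Complex.re_sum, Complex.re_sum]
    refine sum_le_sum fun n hn => ?_
    have hp := (mem_filter.1 hn).2
    have hl : 0 ≤ Real.log n := Real.log_nonneg (by exact_mod_cast hp.one_lt.le)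
    rw [Complex.re_ofReal_mul, Complex.re_ofReal_mul]
    refine mul_le_mul_of_nonneg_left ?_ hl
    rw [ha']
    beta_reduce
    split_ifs with h1
    · exact le_rfl
    · rw [Complex.ofReal_re, hbp n hp]
      exact hmaj n hp h1
  obtain ⟨κ₀, hκ₀⟩ : ∃ κ₀, κ₀ = max 0 (mv M Ψ).re := ⟨_, rfl⟩
  have hκ0 : 0 ≤ κ₀ := by rw [hκ₀]; exact le_max_left _ _
  have hκ1 : κ₀ < 1 := by rw [hκ₀]; exact max_lt one_pos hκ
  have hκ2 : (mv M Ψ).re ≤ κ₀ := by rw [hκ₀]; exact le_max_right _ _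
  obtain ⟨δ, hδ⟩ : ∃ δ : ℝ, δ = (1 - κ₀) / 8 := ⟨_, rfl⟩
  have hδ0 : 0 < δ := by rw [hδ]; linarith
  have e1 := l1.eventually (Metric.ball_mem_nhds 0 hδ0)
  have e2 := l2.eventually (Metric.ball_mem_nhds 0 hδ0)
  have e3 := l3.eventually (Metric.ball_mem_nhds (mv M Ψ) hδ0)
  have hκT : ∃ N₁ : ℕ, ∀ N : ℕ, N₁ ≤ N → ∑ n ∈ Icc 1 N, ‖Bk ψ n‖ ≤ (κ₀ + 3 * δ) * N := by
    obtain ⟨x₀, hx₀⟩ := eventually_atTop.1 ((e1.and e2).and e3)
    refine ⟨⌈max x₀ 1⌉₊, fun N hN' => ?_⟩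
    have hNx : max x₀ 1 ≤ N := (Nat.le_ceil _).trans (by exact_mod_cast hN')
    have hN1 : (1 : ℝ) ≤ N := (le_max_right _ _).trans hNx
    obtain ⟨⟨g1, g2⟩, g3⟩ := hx₀ N ((le_max_left _ _).trans hNx)
    have hN0 : (0 : ℝ) < N := by linarith
    rw [dist_zero_right] at g1 g2
    rw [dist_eq_norm] at g3
    have r1 := (Complex.abs_re_le_norm _).trans g1.le
    have r2 := (Complex.abs_re_le_norm _).trans g2.le
    have r3 := (Complex.abs_re_le_norm _).trans g3.le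
    rw [Complex.div_ofReal_re, Complex.sub_re, Nat.floor_natCast] at r1
    rw [Complex.div_ofReal_re, Complex.sub_re] at r2
    rw [Complex.sub_re, Complex.div_ofReal_re] at r3
    have r4 := hle N
    have r5 : (∑ n ∈ Icc 1 N, (vonMangoldt n : ℂ) * ((b n : ℝ) : ℂ)).re =
        ∑ n ∈ Icc 1 N, ‖Bk ψ n‖ := by
      rw [Complex.re_sum]
      refine sum_congr rfl fun n _ => ?_
      rw [Complex.re_ofReal_mul, Complex.ofReal_re, hbB]
    rw [r5] at r1
    have s1 := (abs_le.1 r1).2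
    have s2 := (abs_le.1 r2).2
    have s3 := (abs_le.1 r3).2
    rw [div_le_iff₀ hN0] at s1 s2
    have s4 : (SPr (aL Ψ) N).re ≤ ((mv M Ψ).re + δ) * N := by
      rw [← div_le_iff₀ hN0]
      linarith
    have s5 : ((mv M Ψ).re + δ) * N ≤ (κ₀ + δ) * N :=
      mul_le_mul_of_nonneg_right (by linarith) hN0.le
    linarith
  obtain ⟨N₁, hN₁⟩ := hκT
  -- bounds for all `N`
  obtain ⟨C, hC, hball⟩ := ball_card_le hD
  obtain ⟨C', hC'⟩ : ∃ C' : ℝ, C' = C / uc t c + (1 + ∑ n ∈ Icc 1 N₁, ‖Bk ψ n‖) := ⟨_, rfl⟩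
  have hsum0 : 0 ≤ ∑ n ∈ Icc 1 N₁, ‖Bk ψ n‖ := sum_nonneg fun n _ => norm_nonneg _
  have hCu : 0 ≤ C / uc t c := by positivity
  have hC'0 : 0 ≤ C' := by rw [hC']; linarith
  have hS : ∀ N : ℕ, ∑ n ∈ Icc 1 N, ‖aL ψ n‖ ≤ C' * N := by
    intro N
    have h1 : ∑ n ∈ Icc 1 N, ‖aL ψ n‖ ≤ ∑ n ∈ Icc 1 N, rr t c n :=
      sum_le_sum fun n _ => aL_le hD H.le n
    rw [sum_rr hD] at h1
    refine h1.trans ?_
    have h2 : ((ball t c (N : ℝ)).card : ℝ) / (uc t c : ℝ) ≤ C / uc t c * N := by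
      rw [div_mul_eq_mul_div]
      exact div_le_div_of_nonneg_right (hball N) hucp.le
    refine h2.trans (mul_le_mul_of_nonneg_right ?_ (Nat.cast_nonneg _))
    rw [hC']
    linarith
  have hT : ∀ N : ℕ, ∑ n ∈ Icc 1 N, ‖Bk ψ n‖ ≤ C' * N := by
    intro N
    rcases Nat.eq_zero_or_pos N with rfl | hN0
    · simp
    have hN1 : (1 : ℝ) ≤ N := by exact_mod_cast hN0
    rcases le_total N₁ N with h | h
    · refine (hN₁ N h).trans (mul_le_mul_of_nonneg_right ?_ (Nat.cast_nonneg _))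
      rw [hC', hδ]
      linarith
    · have h1 : ∑ n ∈ Icc 1 N, ‖Bk ψ n‖ ≤ ∑ n ∈ Icc 1 N₁, ‖Bk ψ n‖ :=
        sum_le_sum_of_subset_of_nonneg (Icc_subset_Icc_right h) fun _ _ _ => norm_nonneg _
      have h2 : C' * 1 ≤ C' * N := mul_le_mul_of_nonneg_left hN1 hC'0
      rw [hC'] at h2 ⊢
      linarith
  obtain ⟨N₀, hN₀⟩ := mean_small (A := fun n => ‖aL ψ n‖) (B := fun n => ‖Bk ψ n‖)
    (fun n => norm_nonneg _) (fun n => norm_nonneg _) (fun n hn => by
      have h1 := log_id' hD hP H (n := n) (by omega)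
      have h2 : ‖aL ψ n‖ * Real.log n = ‖aL ψ n * (Real.log n : ℂ)‖ := by
        rw [norm_mul, Complex.norm_real, Real.norm_eq_abs,
          abs_of_nonneg (Real.log_nonneg (by exact_mod_cast hn))]
      rw [h2, h1]
      refine (norm_sum_le _ _).trans (le_of_eq (sum_congr rfl fun d _ => ?_))
      rw [norm_mul]) hC'0 hS hT (κ := κ₀ + 3 * δ) (by linarith) (by rw [hδ]; linarith) hN₁
    (ε / uc t c) (by positivity)
  refine ⟨(N₀ : ℝ) + 1, fun X hX => ?_⟩
  have hN00 : (0 : ℝ) ≤ N₀ := Nat.cast_nonneg _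
  have hX1 : (1 : ℝ) ≤ X := by linarith
  have hXN : (N₀ : ℝ) ≤ X := by linarith
  have h1 := hN₀ ⌊X⌋₊ (Nat.le_floor hXN)
  rw [sum_ball hD]
  have e4 : ∀ k ∈ Icc 1 ⌊X⌋₊, ∑ z ∈ (ball t c (k : ℝ)).filter (fun z => nm z = k), ψ z =
      (uc t c : ℂ) * aL ψ k := by
    intro k _
    have huc : (uc t c : ℂ) ≠ 0 := by exact_mod_cast (uc_pos hD).ne'
    unfold aL
    field_simp
  rw [Finset.sum_congr rfl e4, ← Finset.mul_sum, norm_mul, Complex.norm_natCast]
  have h2 : (uc t c : ℝ) * ‖∑ k ∈ Icc 1 ⌊X⌋₊, aL ψ k‖ ≤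
      (uc t c : ℝ) * (ε / uc t c * ⌊X⌋₊) :=
    mul_le_mul_of_nonneg_left ((norm_sum_le _ _).trans h1) hucp.le
  refine h2.trans ?_
  have h3 : (uc t c : ℝ) * (ε / uc t c * ⌊X⌋₊) = ε * ⌊X⌋₊ := by field_simp
  rw [h3]
  exact mul_le_mul_of_nonneg_left (Nat.floor_le (by linarith)) hε.le

end

open scoped Classical in
/-- aperiodicity: it is enough that `F(π)` and `F(π̄)` are different, uniformly -/
theorem apd_of {f : ℕ} {χ : DirichletCharacter ℂ f} (hF : Fd t c f χ) (hP : S_PID t c)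
    (hL : S_LCON t c) (hN : S_LNV t c) {N : ℕ} {F : Qd t c → ℂ} (hc : Cm N F)
    (hu : ∀ u z : Qd t c, nm u = 1 → F (u * z) = F z) {m₀ : ℕ} (hm₀ : 1 ≤ m₀) {η : ℝ} (hη : 0 < η)
    (hη2 : η ≤ 2)
    (hpp : ∀ z : Qd t c, (nm z).Prime → ¬ nm z ∣ m₀ → ‖F z + F (star z)‖ ≤ 2 - η) : Apd N F := by
  have hD : t ^ 2 < 4 * c := by
    have h1 := hF.disc
    have h2 : (3 : ℤ) ≤ f := by exact_mod_cast hF.three
    linarith
  have hnrm : ∀ z, ‖F z‖ = 1 := fun z =>
    Complex.norm_eq_one_of_pow_eq_one (hc.pow z) (by have := hc.pos; omega)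
  have hone : F 1 = 1 := by
    have := isDomain hD
    have h1 := hc.mul 1 1 one_ne_zero one_ne_zero
    rw [mul_one] at h1
    have h2 : F 1 ≠ 0 := by
      intro h
      have := hnrm 1
      rw [h, norm_zero] at this
      exact zero_ne_one this
    exact (mul_right_cancel₀ h2 ((one_mul _).trans h1)).symm
  refine ⟨hc, Pool.Agent.W738.EG.main hD hP ⟨hc.mul, hnrm, fun u z h => hu u z h, ?_⟩⟩
  intro M φ hM hφ ε hε
  obtain ⟨M', hM'⟩ : ∃ M' : ℕ, M' = M * m₀ := ⟨_, rfl⟩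
  have hM'1 : 1 ≤ M' := by rw [hM']; exact Nat.mul_pos hM hm₀
  have hphi := phi_le hM hφ
  have H : Mr (fun z => F z * φ z) := by
    refine ⟨?_, ?_, ?_, ?_⟩
    · intro z w hz hw
      show F (z * w) * φ (z * w) = F z * φ z * (F w * φ w)
      rw [hc.mul z w hz hw, hφ.mul]
      ring
    · show F 1 * φ 1 = 1
      rw [hone, hφ.one, one_mul]
    · intro u hu1
      show F u * φ u = 1
      have h1 := hu u 1 hu1
      rw [mul_one, hone] at h1
      rw [h1, hφ.unit u hu1, one_mul]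
    · intro z
      rw [norm_mul, hnrm, one_mul]
      exact hphi z
  have hMdvd : (M : ℤ) ∣ M' := by rw [hM']; push_cast; exact dvd_mul_right _ _
  have hredM : ∀ z w : Qd t c, red t c M' z = red t c M' w → φ z = φ w := by
    intro z w hzw
    rw [red_eq] at hzw
    exact hφ.per z w (hMdvd.trans hzw.1) (hMdvd.trans hzw.2)
  -- the majorant
  obtain ⟨U, hU⟩ : ∃ U : Qd t c → Prop, U = fun z => ∃ u : Qd t c, nm u = 1 ∧
    red t c M' z = red t c M' u := ⟨_, rfl⟩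
  obtain ⟨Ψ, hΨ⟩ : ∃ Ψ : Qd t c → ℂ, Ψ = fun z => if IsCoprime z (M' : Qd t c) then
    (if U z then ((1 - η / 2 : ℝ) : ℂ) else 1) else 0 := ⟨_, rfl⟩
  have hstar : ∀ z : Qd t c, U z → U (star z) := by
    intro z hz
    rw [hU] at hz ⊢
    obtain ⟨u, hu1, hu2⟩ := hz
    refine ⟨star u, by rw [nm_star, hu1], ?_⟩
    rw [red_eq] at hu2 ⊢
    obtain ⟨⟨a, ha⟩, ⟨b, hb⟩⟩ := hu2
    simp only [QuadraticAlgebra.re_star, QuadraticAlgebra.im_star]
    constructor
    · refine ⟨a + t * b, ?_⟩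
      linear_combination ha + t * hb
    · refine ⟨-b, ?_⟩
      linear_combination -hb
  have hΨper : PerM M' Ψ := by
    intro z w hzw
    rw [hΨ]
    simp only
    have h1 : IsCoprime z (M' : Qd t c) ↔ IsCoprime w (M' : Qd t c) := by
      rw [← isUnit_red, ← isUnit_red, hzw]
    have h2 : U z ↔ U w := by
      rw [hU]
      simp only
      rw [hzw]
    simp only [h1, h2]
  have hΨ0 : ∀ z : Qd t c, ¬ IsCoprime z (M' : Qd t c) → Ψ z = 0 := by
    intro z hz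
    rw [hΨ]
    simp only
    rw [if_neg hz]
  have hΨ1 : ∀ z, ‖Ψ z‖ ≤ 1 := by
    intro z
    rw [hΨ]
    simp only
    split_ifs
    · rw [Complex.norm_real, Real.norm_eq_abs, abs_le]
      constructor <;> linarith
    · rw [norm_one]
    · rw [norm_zero]; exact zero_le_one
  have hΨne : Ψ 1 ≠ 1 := by
    rw [hΨ]
    simp only
    have h1 : IsCoprime (1 : Qd t c) (M' : Qd t c) := isCoprime_one_left
    have h2 : U 1 := by
      rw [hU]
      exact ⟨1, nm_one, rfl⟩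
    rw [if_pos h1, if_pos h2]
    intro h3
    have h4 : (1 - η / 2 : ℝ) = 1 := by exact_mod_cast h3
    linarith
  have hκ := mv_re_lt hM'1 hΨper hΨ1 isCoprime_one_left hΨne
  refine mr_mean hF hP hL hN H hM'1 hΨper hΨ0 ?_ hκ ε hε
  intro p hp hpM
  have hucp : (0 : ℝ) < uc t c := by exact_mod_cast uc_pos hD
  have hsym : ∀ g : Qd t c → ℂ, ∑ z ∈ Nn t c p, g (star z) = ∑ z ∈ Nn t c p, g z := by
    intro g
    refine sum_bij' (fun z _ => star z) (fun z _ => star z) ?_ ?_ ?_ ?_ ?_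
    · intro z hz
      rw [mem_Nn hD] at hz ⊢
      rw [nm_star]
      exact hz
    · intro z hz
      rw [mem_Nn hD] at hz ⊢
      rw [nm_star]
      exact hz
    · intro z _
      exact star_star z
    · intro z _
      exact star_star z
    · intro z _
      rfl
  have hΨre : ∀ z ∈ Nn t c p, ‖F z * φ z + F (star z) * φ (star z)‖ ≤
      (Ψ z).re + (Ψ (star z)).re := by
    intro z hz
    have hz1 := ((mem_Nn hD).1 hz).2
    have hcz : IsCoprime z (M' : Qd t c) := coprime_of_prime hD hp hz1 hpM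
    have hcs : IsCoprime (star z) (M' : Qd t c) :=
      coprime_of_prime hD hp (by rw [nm_star]; exact hz1) hpM
    rw [hΨ]
    simp only
    rw [if_pos hcz, if_pos hcs]
    by_cases hUz : U z
    · rw [if_pos hUz, if_pos (hstar z hUz), Complex.ofReal_re]
      have hUs := hstar z hUz
      rw [hU] at hUz hUs
      obtain ⟨u, hu1, hu2⟩ := hUz
      obtain ⟨v, hv1, hv2⟩ := hUs
      rw [hredM z u hu2, hredM (star z) v hv2, hφ.unit u hu1, hφ.unit v hv1, mul_one, mul_one]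
      refine (hpp z (by rw [hz1]; exact hp) (by
        rw [hz1]
        intro hd
        exact hpM (hd.trans (by rw [hM']; exact dvd_mul_left _ _)))).trans (le_of_eq ?_)
      ring
    · have hUs : ¬ U (star z) := fun h => hUz (by
        have := hstar _ h
        rwa [star_star] at this)
      rw [if_neg hUz, if_neg hUs, Complex.one_re]
      refine (norm_add_le _ _).trans ?_
      rw [norm_mul, norm_mul, hnrm, hnrm, one_mul, one_mul]
      linarith [hphi z, hphi (star z)]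
  have e1 : aL (fun z => F z * φ z) p = (∑ z ∈ Nn t c p, (F z * φ z + F (star z) * φ (star z))) /
      2 / (uc t c : ℂ) := by
    rw [aL_eq, sum_add_distrib, hsym (fun z => F z * φ z)]
    ring
  have e2 : (aL Ψ p).re = (∑ z ∈ Nn t c p, ((Ψ z).re + (Ψ (star z)).re)) / 2 / (uc t c : ℝ) := by
    have h1 := congrArg Complex.re (hsym Ψ)
    rw [Complex.re_sum, Complex.re_sum] at h1
    rw [aL_eq, sum_add_distrib, h1, Complex.div_natCast_re, Complex.re_sum]
    ring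
  rw [e1, e2, norm_div, norm_div, Complex.norm_natCast, Complex.norm_ofNat]
  refine div_le_div_of_nonneg_right (div_le_div_of_nonneg_right ?_ (by norm_num)) hucp.le
  exact (norm_sum_le _ _).trans (sum_le_sum hΨre)

end Pool.Agent.V11296.CY
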