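import Pool.Agent.V11296.CY2
import Pool.Agent.W251.EG.All2
import Pool.Agent.W748.EG.Corr

/-!
From pairs of elements of determinant `1` to the factorisations `d d' = n^2 + t n + c` (helper296): the
functions need not depend on the norms only.
-/

set_option autoImplicit false

namespace Pool.Agent.V11296.CY

open Finset Filter Topology
open Pool.Agent.W78.GA (Qd nm dt ip dedge nm_mul nm_cast ip_dt nm_pos nm_zero ball)
open Pool.Agent.W251.GX (Cm)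
open Pool.Agent.W78.EG
open Pool.Agent.W251.EG
open Pool.Agent.W334.EG (hD_of nmne norm_one_of RR RR_rel CC CC_iff SP_swap Win mem_Win finyw SW_eq)

variable {t c : ℤ} {f : ℕ} {χ : DirichletCharacter ℂ f}

open scoped Classical in
/-- the value of `F₁(v) F₂(w)` at the pairs of determinant `1` above `(x, y)` -/
noncomputable def PhR (F₁ F₂ : Qd t c → ℂ) (x y : ℕ) : ℂ :=
  if h : ∃ e : Qd t c × Qd t c, nm e.1 = x ∧ nm e.2 = y ∧ dt e.1 e.2 = 1 ∧ 0 < pp e.1 e.2 then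
    F₁ h.choose.1 * F₂ h.choose.2 else 0

/-- pairs with the same norms -/
theorem pair_unit (hF : Fd t c f χ) {v w v' w' : Qd t c} (h1 : nm v' = nm v) (h2 : nm w' = nm w)
    (h3 : dt v w = 1) (h3' : dt v' w' = 1) (h4 : 0 < pp v w) (h4' : 0 < pp v' w') :
    ∃ u : Qd t c, nm u = 1 ∧ v' = u * v ∧ w' = u * w := by
  have hD := hD_of hF
  have hv : v ≠ 0 := by
    rintro rfl
    unfold dt at h3
    simp at h3
  have e1 := ip_dt hD v w
  have e2 := ip_dt hD v' w'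
  rw [h3] at e1
  rw [h3', h1, h2] at e2
  unfold pp at h4 h4'
  rw [h3, mul_one] at h4
  rw [h3', mul_one] at h4'
  have h5 : ip v' w' = ip v w := by
    have hfac : (ip v w - ip v' w') * (ip v w + ip v' w' + t) = 0 := by
      linear_combination e2 - e1
    rcases mul_eq_zero.1 hfac with h9 | h9
    · linarith
    · exfalso
      linarith
  obtain ⟨u, hu, hu1, hu2⟩ := Pool.Agent.W748.EG.unique_pair hD hv h1 h3 h3' h5
  exact ⟨u, (Pool.Agent.W748.EG.mem_unit hD).1 hu, hu1, hu2⟩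

theorem PhR_eq (hF : Fd t c f χ) {F₁ F₂ : Qd t c → ℂ}
    (hu₁ : ∀ u z : Qd t c, nm u = 1 → F₁ (u * z) = F₁ z)
    (hu₂ : ∀ u z : Qd t c, nm u = 1 → F₂ (u * z) = F₂ z) {v w : Qd t c} (h3 : dt v w = 1)
    (h4 : 0 < pp v w) : PhR F₁ F₂ (nm v) (nm w) = F₁ v * F₂ w := by
  have h : ∃ e : Qd t c × Qd t c, nm e.1 = nm v ∧ nm e.2 = nm w ∧ dt e.1 e.2 = 1 ∧
      0 < pp e.1 e.2 := ⟨(v, w), rfl, rfl, h3, h4⟩
  unfold PhR
  rw [dif_pos h]
  obtain ⟨g1, g2, g3, g4⟩ := h.choose_spec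
  obtain ⟨u, hu, e1, e2⟩ := pair_unit hF g1 g2 h3 g3 h4 g4
  rw [e1, e2, hu₁ u v hu, hu₂ u w hu]

theorem PhR_le {F₁ F₂ : Qd t c → ℂ} (n₁ : ∀ z, ‖F₁ z‖ = 1) (n₂ : ∀ z, ‖F₂ z‖ = 1) (x y : ℕ) :
    ‖PhR F₁ F₂ x y‖ ≤ 1 := by
  unfold PhR
  split_ifs
  · rw [norm_mul, n₁, n₂, one_mul]
  · rw [norm_zero]
    exact zero_le_one

open scoped Classical in
/-- cancellation over the pairs in windows, at almost all scales -/
theorem twR (hF : Fd t c f χ) {N : ℕ} {τ : ℂ} {F₁ F₂ : Qd t c → ℂ} (hpr : Pr N τ F₁ F₂)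
    (hu₁ : ∀ u z : Qd t c, nm u = 1 → F₁ (u * z) = F₁ z)
    (hu₂ : ∀ u z : Qd t c, nm u = 1 → F₂ (u * z) = F₂ z) (ha : Apd N F₂) (q a r : ℕ) (hq : 1 ≤ q)
    (s₁ s₂ s₃ s₄ : ℝ) (hs1 : 0 ≤ s₁) (hs12 : s₁ < s₂)
    (hs2 : s₂ ≤ 1) (hs3 : 0 ≤ s₃) (hs34 : s₃ < s₄) (hs4 : s₄ ≤ 1) (ε : ℝ) (hε : 0 < ε) :
    ∃ N₀ : ℕ, ∀ N' : ℕ, N₀ ≤ N' → ∑ X ∈ Icc 1 N', 1 / (X : ℝ) ^ 2 *
      ‖∑ p ∈ SW t c q a r s₁ s₂ s₃ s₄ X, PhR F₁ F₂ p.1 p.2‖ ≤ ε * Real.log N' := by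
  have hD := hD_of hF
  have n₁ : ∀ z, ‖F₁ z‖ = 1 := fun z => norm_one_of N (F₁ z) hpr.cm₁.pos (hpr.cm₁.pow z)
  have n₂ : ∀ z, ‖F₂ z‖ = 1 := fun z => norm_one_of N (F₂ z) hpr.cm₂.pos (hpr.cm₂.pow z)
  obtain ⟨N₀, hN₀⟩ := finyw hD (corrG hF) (scntG hF)
      (fun x y => if CC t c q a r false x y then PhR F₁ F₂ x y else 0) (by
        intro x y
        show ‖if CC t c q a r false x y then _ else (0 : ℂ)‖ ≤ 1
        split_ifs
        · exact PhR_le n₁ n₂ x y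
        · simp) s₁ s₂ s₃ s₄ hs1 hs12 hs3 hs34 (by
        intro σ₁ σ₃ hσ1 hσ12 hσ3 hσ34 ε hε
        obtain ⟨N₀, hN₀⟩ := mainyG hF N τ F₁ F₂ hpr q hq (fun β => btaG hF N F₂ ha q β hq)
          (RR q a r false) (RR_rel hD q a r false) σ₁ s₂ σ₃ s₄ hσ1 hσ12 hs2 hσ3 hσ34 hs4 ε hε
        refine ⟨N₀, fun N' hN => ?_⟩
        have hthis := hN₀ N' hN
        refine le_trans (le_of_eq (sum_congr rfl fun X _ => ?_)) hthis
        congr 2
        unfold AG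
        refine sum_congr rfl fun e he => ?_
        rw [mem_filter] at he
        have hdt : dt e.1 e.2 = 1 := by
          have h3 := he.1
          unfold dedge at h3
          exact (mem_filter.1 h3).2
        unfold g2
        beta_reduce
        have hiff := CC_iff hF q a r false e.1 e.2 hdt he.2.1
        by_cases hc : CC t c q a r false (nm e.1) (nm e.2)
        · rw [if_pos hc, if_pos (hiff.1 hc), PhR_eq hF hu₁ hu₂ hdt he.2.1]
        · rw [if_neg hc, if_neg (fun h => hc (hiff.2 h))]) ε hε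
  refine ⟨N₀, fun N' hN => le_trans (le_of_eq (sum_congr rfl fun X _ => ?_)) (hN₀ N' hN)⟩
  congr 2
  rw [SW_eq, sum_filter]
  refine sum_congr rfl fun p hp => ?_
  have hiff : CC t c q a r false p.1 p.2 ↔ Cd t c q a r p := by
    unfold CC Cd
    simp only [Bool.false_eq_true, if_false]
  by_cases hc : CC t c q a r false p.1 p.2
  · rw [if_pos hc, if_pos (hiff.1 hc)]
  · rw [if_neg hc, if_neg (fun h => hc (hiff.2 h))]

end Pool.Agent.V11296.CY
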