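import Pool.Agent.V11296.CY3
import Pool.Agent.V11296.CX6

/-!
Completely additive functions on the imaginary quadratic orders of class number one with given values
at the prime elements (helper296), and the factorisations `d d' = n^2 + t n + c`.
-/

set_option autoImplicit false

namespace Pool.Agent.V11296.CY

open Finset Filter Topology
open Pool.Agent.W78.GA
open Pool.Agent.W357.EG (isDomain isUnit_iff nm_assoc)
open Pool.Agent.W251.GX (Cm)
open Pool.Agent.W78.EG
open Pool.Agent.W251.EG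
open Pool.Agent.V11296.CV (chpow chnrm)

section ring

variable {t c : ℤ}

section add

variable {G : Type} [AddCommGroup G]

open scoped Classical in
/-- the completely additive function with given values at the prime elements -/
noncomputable def Hm (g : Qd t c → G) (z : Qd t c) : G :=
  if h : ∃ s : Multiset (Qd t c), (∀ π ∈ s, Prime π) ∧ Associated s.prod z then
    (h.choose.map g).sum else 0

theorem map_rel {g : Qd t c → G} (hg : ∀ a b : Qd t c, Associated a b → g a = g b)
    {s s' : Multiset (Qd t c)} (h : Multiset.Rel Associated s s') : s.map g = s'.map g := by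
  induction h with
  | zero => rfl
  | cons hab _ ih => rw [Multiset.map_cons, Multiset.map_cons, hg _ _ hab, ih]

variable (hD : t ^ 2 < 4 * c) {g : Qd t c → G}
  (hg : ∀ a b : Qd t c, Associated a b → g a = g b)

include hD hg

theorem Hm_eq {s : Multiset (Qd t c)} (hs : ∀ π ∈ s, Prime π) {z : Qd t c}
    (h : Associated s.prod z) : Hm g z = (s.map g).sum := by
  have := isDomain hD
  have h' : ∃ s : Multiset (Qd t c), (∀ π ∈ s, Prime π) ∧ Associated s.prod z := ⟨s, hs, h⟩
  unfold Hm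
  rw [dif_pos h', map_rel hg (prime_factors_unique h'.choose_spec.1 hs
    (h'.choose_spec.2.trans h.symm))]

theorem Hm_prime {π : Qd t c} (hπ : Prime π) : Hm g π = g π := by
  rw [Hm_eq hD hg (s := {π}) (fun x hx => by rw [Multiset.mem_singleton.1 hx]; exact hπ)
    (by rw [Multiset.prod_singleton])]
  rw [Multiset.map_singleton, Multiset.sum_singleton]

theorem Hm_one : Hm g 1 = 0 := by
  rw [Hm_eq hD hg (s := 0) (fun x hx => absurd hx (Multiset.notMem_zero x))
    (by rw [Multiset.prod_zero])]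
  rw [Multiset.map_zero, Multiset.sum_zero]

theorem Hm_mul (hP : S_PID t c) {z w : Qd t c} (hz : z ≠ 0) (hw : w ≠ 0) :
    Hm g (z * w) = Hm g z + Hm g w := by
  have := isDomain hD
  have : IsPrincipalIdealRing (Qd t c) := hP
  obtain ⟨s, hs, hsz⟩ := UniqueFactorizationMonoid.exists_prime_factors z hz
  obtain ⟨s', hs', hsw⟩ := UniqueFactorizationMonoid.exists_prime_factors w hw
  rw [Hm_eq hD hg hs hsz, Hm_eq hD hg hs' hsw, Hm_eq hD hg (s := s + s') (fun x hx => by
    rcases Multiset.mem_add.1 hx with h | h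
    · exact hs x h
    · exact hs' x h) (by
      rw [Multiset.prod_add]
      exact hsz.mul_mul hsw)]
  rw [Multiset.map_add, Multiset.sum_add]

theorem Hm_assoc {z w : Qd t c} (h : Associated z w) : Hm g z = Hm g w := by
  by_cases h' : ∃ s : Multiset (Qd t c), (∀ π ∈ s, Prime π) ∧ Associated s.prod z
  · obtain ⟨s, hs, hsz⟩ := h'
    rw [Hm_eq hD hg hs hsz, Hm_eq hD hg hs (hsz.trans h)]
  · have h'' : ¬ ∃ s : Multiset (Qd t c), (∀ π ∈ s, Prime π) ∧ Associated s.prod w := by
      rintro ⟨s, hs, hsw⟩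
      exact h' ⟨s, hs, hsw.trans h.symm⟩
    unfold Hm
    rw [dif_neg h', dif_neg h'']

theorem Hm_unit {u : Qd t c} (hu : nm u = 1) (z : Qd t c) : Hm g (u * z) = Hm g z := by
  refine Hm_assoc hD hg ?_
  have h1 : IsUnit u := (isUnit_iff hD).2 hu
  obtain ⟨v, hv⟩ := h1
  refine ⟨v⁻¹, ?_⟩
  rw [← hv, mul_comm, ← mul_assoc, Units.inv_mul, one_mul]

end add

/-- elements of prime norm are prime -/
theorem prime_of_nm (hD : t ^ 2 < 4 * c) (hP : S_PID t c) {z : Qd t c} (hz : (nm z).Prime) :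
    Prime z := by
  have := isDomain hD
  have : IsPrincipalIdealRing (Qd t c) := hP
  rw [← irreducible_iff_prime]
  refine ⟨fun h => hz.one_lt.ne' ((isUnit_iff hD).1 h), fun a b hab => ?_⟩
  have h1 : nm a * nm b = nm z := by rw [hab, nm_mul]
  rcases (Nat.prime_mul_iff.1 (by rw [h1]; exact hz)) with ⟨_, h2⟩ | ⟨_, h2⟩
  · exact Or.inr ((isUnit_iff hD).2 h2)
  · exact Or.inl ((isUnit_iff hD).2 h2)

/-- the characters of a completely additive function -/
theorem cm_Hm {G : Type} [AddCommGroup G] [Finite G] (hD : t ^ 2 < 4 * c) (hP : S_PID t c)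
    {g : Qd t c → G} (hg : ∀ a b : Qd t c, Associated a b → g a = g b) (ψ : AddChar G ℂ) :
    Cm (Nat.card G) (fun z => ψ (Hm g z)) where
  pos := Nat.card_pos
  mul := fun z w hz hw => by
    show ψ (Hm g (z * w)) = ψ (Hm g z) * ψ (Hm g w)
    rw [Hm_mul hD hg hP hz hw, AddChar.map_add_eq_mul]
  pow := fun z => chpow ψ _

end ring

/-! ### the prime factors of `n^2 + t n + c` -/

section

variable {t c : ℕ} {f : ℕ} {χ : DirichletCharacter ℂ f}

open scoped Classical in
/-- the number of the prime factors with the property `P`, with multiplicity -/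
noncomputable def cP (P : ℕ → Prop) (N : ℕ) : ℕ :=
  N.primeFactorsList.countP (fun p : ℕ => P p)

theorem cP_mul (P : ℕ → Prop) {x y : ℕ} (hx : x ≠ 0) (hy : y ≠ 0) :
    cP P (x * y) = cP P x + cP P y := by
  classical
  unfold cP
  rw [(Nat.perm_primeFactorsList_mul hx hy).countP_eq, List.countP_append]

theorem cP_one (P : ℕ → Prop) : cP P 1 = 0 := by
  classical
  unfold cP
  rw [Nat.primeFactorsList_one, List.countP_nil]

theorem cP_prime (P : ℕ → Prop) {p : ℕ} (hp : p.Prime) : cP P p =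
    (open scoped Classical in if P p then 1 else 0) := by
  classical
  unfold cP
  rw [Nat.primeFactorsList_prime hp]
  by_cases h : P p
  · rw [if_pos h, List.countP_cons_of_pos (by simpa using h), List.countP_nil]
  · rw [if_neg h, List.countP_cons_of_neg (by simpa using h), List.countP_nil]

/-- `n + ω` -/
def nw (t c n : ℕ) : Qd (t : ℤ) (c : ℤ) := ⟨(n : ℤ), 1⟩

theorem prim_of_dvd_nw {n : ℕ} {z : Qd (t : ℤ) (c : ℤ)} (h : z ∣ nw t c n) : prim z := by
  refine prim_of_dvd (u := nw t c n) ?_ h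
  have h1 : IsCoprime ((n : ℤ)) (1 : ℤ) := isCoprime_one_right
  exact Int.isCoprime_iff_gcd_eq_one.1 h1

theorem nm_nw (hD : (t : ℤ) ^ 2 < 4 * (c : ℤ)) (n : ℕ) : nm (nw t c n) = n ^ 2 + t * n + c := by
  have h1 := nm_cast hD (nw t c n)
  unfold nw at h1
  have h2 : ((nm (nw t c n) : ℕ) : ℤ) = ((n ^ 2 + t * n + c : ℕ) : ℤ) := by
    unfold nw
    rw [h1]
    push_cast
    ring
  exact_mod_cast h2

/-- an element of prime norm divides `n + ω` and `ρ + ω` if and only if `p` divides `n - ρ` -/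
theorem dvd_nw (hD : (t : ℤ) ^ 2 < 4 * (c : ℤ)) {π : Qd (t : ℤ) (c : ℤ)} (hp : (nm π).Prime)
    {n r : ℕ} (hn : π ∣ nw t c n) : π ∣ nw t c r ↔ n ≡ r [MOD nm π] := by
  have h0 : π ∣ ((nm π : ℕ) : Qd (t : ℤ) (c : ℤ)) := by
    rw [← mul_star_self' hD]
    exact dvd_mul_right _ _
  have key : nw t c n - nw t c r = (((n : ℤ) - r : ℤ) : Qd (t : ℤ) (c : ℤ)) := by
    unfold nw
    apply QuadraticAlgebra.ext
    · simp only [QuadraticAlgebra.re_sub, QuadraticAlgebra.re_intCast, Int.cast_id]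
    · simp only [QuadraticAlgebra.im_sub, QuadraticAlgebra.im_intCast, sub_self]
  constructor
  · intro hr
    have h1 : π ∣ (((n : ℤ) - r : ℤ) : Qd (t : ℤ) (c : ℤ)) := by
      rw [← key]
      exact dvd_sub hn hr
    have h2 := nm_dvd h1
    have h3 : nm ((((n : ℤ) - r : ℤ)) : Qd (t : ℤ) (c : ℤ)) = (((n : ℤ) - r) ^ 2).natAbs := by
      have h4 := nm_cast hD ((((n : ℤ) - r : ℤ)) : Qd (t : ℤ) (c : ℤ))
      simp only [QuadraticAlgebra.re_intCast, QuadraticAlgebra.im_intCast, Int.cast_id] at h4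
      have h5 : ((nm ((((n : ℤ) - r : ℤ)) : Qd (t : ℤ) (c : ℤ)) : ℕ) : ℤ) = ((n : ℤ) - r) ^ 2 := by
        rw [h4]
        ring
      rw [← h5, Int.natAbs_natCast]
    rw [h3, Int.natAbs_pow] at h2
    have h6 : nm π ∣ ((n : ℤ) - r).natAbs := hp.dvd_of_dvd_pow h2
    have h7 : ((nm π : ℕ) : ℤ) ∣ (n : ℤ) - r := Int.natCast_dvd.2 h6
    exact ((Nat.modEq_iff_dvd).2 (by
      have := dvd_neg.2 h7
      rwa [neg_sub] at this))
  · intro hr
    have h1 := (Nat.modEq_iff_dvd).1 hr
    obtain ⟨k, hk⟩ := h1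
    have h2 : π ∣ (((n : ℤ) - r : ℤ) : Qd (t : ℤ) (c : ℤ)) := by
      have h3 : (n : ℤ) - r = (nm π : ℕ) * (-k) := by linear_combination -hk
      rw [h3]
      push_cast
      exact (h0.mul_right _)
    rw [← key] at h2
    have h3 := dvd_sub hn h2
    rwa [sub_sub_cancel] at h3

/-- induction on the prime factors of a divisor of `n + ω` -/
theorem ind_nw (hF : Fd (t : ℤ) (c : ℤ) f χ) {G : Type} [AddCommGroup G] {n : ℕ}
    (h1 h2 : Qd (t : ℤ) (c : ℤ) → G)
    (hu : ∀ u : Qd (t : ℤ) (c : ℤ), nm u = 1 → h1 u = h2 u)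
    (hm : ∀ z w : Qd (t : ℤ) (c : ℤ), z ≠ 0 → w ≠ 0 → h1 (z * w) = h1 z + h1 w ∧
      h2 (z * w) = h2 z + h2 w)
    (hp : ∀ π : Qd (t : ℤ) (c : ℤ), (nm π).Prime → π ∣ nw t c n → h1 π = h2 π) :
    ∀ z : Qd (t : ℤ) (c : ℤ), z ∣ nw t c n → h1 z = h2 z := by
  have hD := hDG hF
  have key : ∀ N : ℕ, ∀ z : Qd (t : ℤ) (c : ℤ), nm z = N → z ∣ nw t c n → h1 z = h2 z := by
    intro N
    induction N using Nat.strong_induction_on with
    | _ N ih =>
      intro z hzN hz
      by_cases h1N : N = 1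
      · exact hu z (by rw [hzN, h1N])
      · obtain ⟨p, hp1, hpd⟩ := Nat.exists_prime_and_dvd h1N
        have hprim := prim_of_dvd_nw hz
        have hz0 : z ≠ 0 := prim_ne_zero hprim
        obtain ⟨π, w, h3, h4⟩ := Pool.Agent.V11296.CV.prime_above hF hprim hp1 (by
          rw [hzN]
          exact hpd)
        have hπ0 : π ≠ 0 := fun h => hz0 (by rw [h3, h, zero_mul])
        have hw0 : w ≠ 0 := fun h => hz0 (by rw [h3, h, mul_zero])
        have h5 : nm w < N := by
          have h6 : nm π * nm w = N := by rw [← nm_mul, ← h3, hzN]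
          have h7 := nm_pos hD hw0
          rw [← h6, h4]
          exact lt_mul_left h7 hp1.one_lt
        have hπd : π ∣ nw t c n := (dvd_mul_right π w).trans (by rw [← h3]; exact hz)
        have hwd : w ∣ nw t c n := (dvd_mul_left w π).trans (by rw [← h3]; exact hz)
        obtain ⟨h8, h9⟩ := hm π w hπ0 hw0
        rw [h3, h8, h9, hp π (by rw [h4]; exact hp1) hπd, ih (nm w) h5 w rfl hwd]
  exact fun z hz => key (nm z) z rfl hz

end

end Pool.Agent.V11296.CY
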