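import Pool.Agent.V11296.CY4

/-!
The prime factors `p` of `n^2 + t n + c` with `n ≡ ρ(p) mod p`, for an arbitrary choice of the roots
`ρ(p)` (helper296): the values of the characters.
-/

set_option autoImplicit false

namespace Pool.Agent.V11296.CY

open Finset Filter Topology
open Pool.Agent.W78.GA
open Pool.Agent.W357.EG (isDomain isUnit_iff nm_assoc)
open Pool.Agent.W251.GX (Cm)
open Pool.Agent.W78.EG
open Pool.Agent.W251.EG
open Pool.Agent.W251.EX (tt)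
open Pool.Agent.V11296.CV (chpow chnrm nt ind_eq)
open Pool.Agent.TH890.DV (LogNull LogNull.of_ev)

/-- the values: `Ω(d)`, `Ω(d')` and the number of the marked prime factors, modulo `k` -/
abbrev Tk (k : ℕ) := ZMod k × ZMod k × ZMod k

section

variable {t c : ℕ} {f : ℕ} {χ : DirichletCharacter ℂ f}

/-- a choice of roots -/
def Rt (t c : ℕ) (ρ : ℕ → ℕ) : Prop := ∀ p : ℕ, p.Prime → (∃ x : ℕ, p ∣ x ^ 2 + t * x + c) →
  p ∣ ρ p ^ 2 + t * ρ p + c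

open scoped Classical in
/-- the mark of a prime element -/
noncomputable def mk (ρ : ℕ → ℕ) (k : ℕ) (π : Qd (t : ℤ) (c : ℤ)) : ZMod k :=
  if π ∣ nw t c (ρ (nm π)) then 1 else 0

open scoped Classical in
/-- the two functions on the prime elements -/
noncomputable def m₂ (ρ : ℕ → ℕ) (k : ℕ) (π : Qd (t : ℤ) (c : ℤ)) : Tk k := (0, 1, mk ρ k π)

open scoped Classical in
noncomputable def m₁ (f : ℕ) (ρ : ℕ → ℕ) (k : ℕ) (π : Qd (t : ℤ) (c : ℤ)) : Tk k :=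
  (1, 0, mk ρ k (star π) - if nm π ∣ f then 1 else 0)

theorem mk_assoc (hF : Fd (t : ℤ) (c : ℤ) f χ) (ρ : ℕ → ℕ) (k : ℕ) {a b : Qd (t : ℤ) (c : ℤ)}
    (h : Associated a b) : mk ρ k a = mk ρ k b := by
  unfold mk
  rw [nm_assoc (hDG hF) h]
  by_cases h1 : b ∣ nw t c (ρ (nm b))
  · rw [if_pos h1, if_pos (h.dvd_iff_dvd_left.2 h1)]
  · rw [if_neg h1, if_neg (fun h2 => h1 (h.dvd_iff_dvd_left.1 h2))]

theorem star_assoc (hD : (t : ℤ) ^ 2 < 4 * (c : ℤ)) {a b : Qd (t : ℤ) (c : ℤ)}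
    (h : Associated a b) : Associated (star a) (star b) := by
  obtain ⟨u, rfl⟩ := h
  have h1 : nm (u : Qd (t : ℤ) (c : ℤ)) = 1 := (isUnit_iff hD).1 u.isUnit
  have h2 : IsUnit (star (u : Qd (t : ℤ) (c : ℤ))) := (isUnit_iff hD).2 (by rw [nm_star, h1])
  rw [star_mul']
  exact (associated_mul_unit_right _ _ h2)

theorem m₂_assoc (hF : Fd (t : ℤ) (c : ℤ) f χ) (ρ : ℕ → ℕ) (k : ℕ) (a b : Qd (t : ℤ) (c : ℤ))
    (h : Associated a b) : m₂ ρ k a = m₂ ρ k b := by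
  unfold m₂
  rw [mk_assoc hF ρ k h]

theorem m₁_assoc (hF : Fd (t : ℤ) (c : ℤ) f χ) (ρ : ℕ → ℕ) (k : ℕ) (a b : Qd (t : ℤ) (c : ℤ))
    (h : Associated a b) : m₁ f ρ k a = m₁ f ρ k b := by
  unfold m₁
  rw [mk_assoc hF ρ k (star_assoc (hDG hF) h), nm_assoc (hDG hF) h]

/-- the difference `ω - ω̄` -/
def dl (t c : ℕ) : Qd (t : ℤ) (c : ℤ) := ⟨-(t : ℤ), 2⟩

theorem nw_sub (n : ℕ) : nw t c n - star (nw t c n) = dl t c := by
  unfold nw dl
  apply QuadraticAlgebra.ext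
  · simp only [QuadraticAlgebra.re_sub, QuadraticAlgebra.re_star]
    ring
  · simp only [QuadraticAlgebra.im_sub, QuadraticAlgebra.im_star]
    ring

theorem nm_dl (hF : Fd (t : ℤ) (c : ℤ) f χ) : nm (dl t c) = f := by
  have h1 := nm_cast (hDG hF) (dl t c)
  have h2 := hF.disc
  unfold dl at h1
  have h3 : ((nm (dl t c) : ℕ) : ℤ) = (f : ℤ) := by
    unfold dl
    rw [h1]
    linear_combination h2
  exact_mod_cast h3

theorem dl_sq (hF : Fd (t : ℤ) (c : ℤ) f χ) : dl t c * dl t c = -((f : ℕ) : Qd (t : ℤ) (c : ℤ)) := by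
  have h2 := hF.disc
  unfold dl
  apply QuadraticAlgebra.ext
  · simp only [QuadraticAlgebra.re_mul, QuadraticAlgebra.re_neg, QuadraticAlgebra.re_natCast]
    linear_combination -h2
  · simp only [QuadraticAlgebra.im_mul, QuadraticAlgebra.im_neg, QuadraticAlgebra.im_natCast]
    ring

theorem dvd_star {a b : Qd (t : ℤ) (c : ℤ)} (h : a ∣ b) : star a ∣ star b := by
  obtain ⟨w, rfl⟩ := h
  rw [star_mul']
  exact dvd_mul_right _ _

/-- exactly one of `π`, `π̄` is marked, or both if the prime is ramified -/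
theorem mk_cases (hF : Fd (t : ℤ) (c : ℤ) f χ) (hP : S_PID (t : ℤ) (c : ℤ)) {ρ : ℕ → ℕ}
    (hρ : Rt t c ρ) {π : Qd (t : ℤ) (c : ℤ)} (hp : (nm π).Prime) :
    (¬ nm π ∣ f ∧ ((π ∣ nw t c (ρ (nm π)) ∧ ¬ star π ∣ nw t c (ρ (nm π))) ∨
      (¬ π ∣ nw t c (ρ (nm π)) ∧ star π ∣ nw t c (ρ (nm π))))) ∨
    (nm π ∣ f ∧ π ∣ nw t c (ρ (nm π)) ∧ star π ∣ nw t c (ρ (nm π))) := by
  have hD := hDG hF
  have hpr := prime_of_nm hD hP hp
  have h0 : π ∣ ((nm π : ℕ) : Qd (t : ℤ) (c : ℤ)) := by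
    rw [← mul_star_self' hD]
    exact dvd_mul_right _ _
  -- a root exists
  have hex : ∃ x : ℕ, nm π ∣ x ^ 2 + t * x + c := by
    obtain ⟨r, hr⟩ := (hF.root (nm π) hp).2 (chi_of_nm hF π hp)
    have hp0 : (0 : ℤ) < ((nm π : ℕ) : ℤ) := by exact_mod_cast hp.pos
    refine ⟨((-r) % ((nm π : ℕ) : ℤ)).toNat, ?_⟩
    have h1 : (((((-r) % ((nm π : ℕ) : ℤ)).toNat : ℕ)) : ℤ) = (-r) % ((nm π : ℕ) : ℤ) :=
      Int.toNat_of_nonneg (Int.emod_nonneg _ hp0.ne')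
    have h2 : (((nm π : ℕ) : ℤ)) ∣ ((((-r) % ((nm π : ℕ) : ℤ)).toNat ^ 2 +
        t * ((-r) % ((nm π : ℕ) : ℤ)).toNat + c : ℕ) : ℤ) := by
      push_cast
      rw [h1]
      obtain ⟨s, hs⟩ : ((nm π : ℕ) : ℤ) ∣ (-r) - (-r) % ((nm π : ℕ) : ℤ) :=
        Int.dvd_self_sub_emod
      obtain ⟨y, hy⟩ := hr
      refine ⟨y + s * (((nm π : ℕ) : ℤ) * s + 2 * r - t), ?_⟩
      have h3 : (-r) % ((nm π : ℕ) : ℤ) = -r - ((nm π : ℕ) : ℤ) * s := by linarith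
      rw [h3]
      linear_combination hy
    exact_mod_cast h2
  have hd := hρ (nm π) hp hex
  obtain ⟨n, hn⟩ : ∃ n, n = ρ (nm π) := ⟨_, rfl⟩
  rw [← hn] at hd ⊢
  have h1 : π ∣ nw t c n * star (nw t c n) := by
    rw [mul_star_self' hD, nm_nw hD]
    obtain ⟨y, hy⟩ := hd
    rw [hy]
    push_cast
    exact h0.mul_right _
  have h2 : π ∣ nw t c n ∨ star π ∣ nw t c n := by
    rcases hpr.dvd_or_dvd h1 with h | h
    · exact Or.inl h
    · right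
      have := dvd_star h
      rwa [star_star] at this
  -- both
  have h3 : π ∣ dl t c ↔ nm π ∣ f := by
    constructor
    · intro h
      have := nm_dvd h
      rwa [nm_dl hF] at this
    · rintro ⟨y, hy⟩
      have h4 : π ∣ dl t c * dl t c := by
        rw [dl_sq hF, hy]
        push_cast
        exact (dvd_neg.2 (h0.mul_right _))
      rcases hpr.dvd_or_dvd h4 with h | h <;> exact h
  have h5 : star π ∣ nw t c n ↔ π ∣ star (nw t c n) := by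
    constructor
    · intro h
      have := dvd_star h
      rwa [star_star] at this
    · intro h
      have := dvd_star h
      rwa [star_star] at this
  have h6 := nw_sub (t := t) (c := c) n
  have h7 : π ∣ nw t c n → star π ∣ nw t c n → nm π ∣ f := by
    intro g1 g2
    rw [← h3, ← h6]
    exact dvd_sub g1 (h5.1 g2)
  have h8 : nm π ∣ f → π ∣ nw t c n ∧ star π ∣ nw t c n := by
    intro g
    have g1 := h3.2 g
    rw [← h6] at g1
    rcases h2 with h | h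
    · refine ⟨h, h5.2 ?_⟩
      have := dvd_sub h g1
      rwa [sub_sub_cancel] at this
    · refine ⟨?_, h⟩
      have := dvd_add g1 (h5.1 h)
      rwa [sub_add_cancel] at this
  by_cases g : nm π ∣ f
  · exact Or.inr ⟨g, h8 g⟩
  · left
    refine ⟨g, ?_⟩
    rcases h2 with h | h
    · exact Or.inl ⟨h, fun h' => g (h7 h h')⟩
    · exact Or.inr ⟨fun h' => g (h7 h' h), h⟩

theorem m_two (hF : Fd (t : ℤ) (c : ℤ) f χ) (hP : S_PID (t : ℤ) (c : ℤ)) {ρ : ℕ → ℕ}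
    (hρ : Rt t c ρ) (k : ℕ) {π : Qd (t : ℤ) (c : ℤ)} (hp : (nm π).Prime) :
    m₁ f ρ k π + m₂ ρ k π = (1, 1, 1) := by
  unfold m₁ m₂ mk
  rw [nm_star]
  rcases mk_cases hF hP hρ hp with ⟨h0, ⟨h1, h2⟩ | ⟨h1, h2⟩⟩ | ⟨h0, h1, h2⟩
  · rw [if_neg h0, if_pos h1, if_neg h2]
    simp
  · rw [if_neg h0, if_neg h1, if_pos h2]
    simp
  · rw [if_pos h0, if_pos h1, if_pos h2]
    simp

/-- the two functions are an admissible pair for the cancellation theorem -/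
theorem m_Pr (hF : Fd (t : ℤ) (c : ℤ) f χ) (hP : S_PID (t : ℤ) (c : ℤ)) {ρ : ℕ → ℕ}
    (hρ : Rt t c ρ) (k : ℕ) [NeZero k] (ψ : AddChar (Tk k) ℂ) :
    Pr (Nat.card (Tk k)) (ψ (1, 1, 1))
      (fun z : Qd (t : ℤ) (c : ℤ) => ψ (Hm (m₁ f ρ k) z)) (fun z => ψ (Hm (m₂ ρ k) z)) where
  cm₁ := cm_Hm (hDG hF) hP (m₁_assoc hF ρ k) ψ
  cm₂ := cm_Hm (hDG hF) hP (m₂_assoc hF ρ k) ψ
  tw := fun π hπ => by
    have hpr := prime_of_nm (hDG hF) hP hπ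
    rw [Hm_prime (hDG hF) (m₁_assoc hF ρ k) hpr, Hm_prime (hDG hF) (m₂_assoc hF ρ k) hpr,
      ← AddChar.map_add_eq_mul, m_two hF hP hρ k hπ]

/-- aperiodicity -/
theorem m_Apd (hF : Fd (t : ℤ) (c : ℤ) f χ) (hP : S_PID (t : ℤ) (c : ℤ)) {ρ : ℕ → ℕ}
    (hρ : Rt t c ρ) (k : ℕ) [NeZero k] (ψ : AddChar (Tk k) ℂ) (hψ : ψ (0, 0, 1) ≠ 1) :
    Apd (Nat.card (Tk k)) (fun z : Qd (t : ℤ) (c : ℤ) => ψ (Hm (m₂ ρ k) z)) := by
  have hD := hDG hF
  have hf : 1 ≤ f := le_trans (by norm_num) hF.three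
  obtain ⟨ζ, hζ⟩ : ∃ ζ, ζ = ψ (0, 0, 1) := ⟨_, rfl⟩
  rw [← hζ] at hψ
  have hn : ‖ζ‖ = 1 := by rw [hζ]; exact chnrm ψ _
  have hre : ζ.re < 1 := re_lt_one hn.le hψ
  have hlt : ‖1 + ζ‖ < 2 := by
    have h1 : ‖1 + ζ‖ ^ 2 = 2 + 2 * ζ.re := by
      rw [← Complex.normSq_eq_norm_sq, Complex.normSq_add, Complex.normSq_one,
        Complex.normSq_eq_norm_sq, hn, one_mul, Complex.conj_re]
      ring
    have h2 := norm_nonneg (1 + ζ)
    nlinarith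
  refine apd_of hF hP (lconG hF) (Pool.Agent.W240.EG.lnv hF hP (lconG hF)) (cm_Hm hD hP (m₂_assoc hF ρ k) ψ)
    (fun u z hu => by
      show ψ (Hm (m₂ ρ k) (u * z)) = ψ (Hm (m₂ ρ k) z)
      rw [Hm_unit hD (m₂_assoc hF ρ k) hu]) hf (η := 2 - ‖1 + ζ‖) (by linarith)
    (by linarith [norm_nonneg (1 + ζ)]) ?_
  intro z hz hzf
  have hpr := prime_of_nm hD hP hz
  have hprs : Prime (star z) := prime_of_nm hD hP (by rw [nm_star]; exact hz)
  show ‖ψ (Hm (m₂ ρ k) z) + ψ (Hm (m₂ ρ k) (star z))‖ ≤ 2 - (2 - ‖1 + ζ‖)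
  rw [Hm_prime hD (m₂_assoc hF ρ k) hpr, Hm_prime hD (m₂_assoc hF ρ k) hprs, sub_sub_cancel]
  have e1 : ψ ((0, 1, 1) : Tk k) = ψ (0, 1, 0) * ζ := by
    rw [hζ, ← AddChar.map_add_eq_mul]
    congr 1
    simp
  unfold m₂ mk
  rw [nm_star]
  rcases mk_cases hF hP hρ hz with ⟨h0, ⟨h1, h2⟩ | ⟨h1, h2⟩⟩ | ⟨h0, _, _⟩
  · rw [if_pos h1, if_neg h2, e1]
    have e2 : ψ ((0, 1, 0) : Tk k) * ζ + ψ (0, 1, 0) = ψ (0, 1, 0) * (1 + ζ) := by ring
    rw [e2, norm_mul, chnrm, one_mul]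
  · rw [if_neg h1, if_pos h2, e1]
    have e2 : ψ ((0, 1, 0) : Tk k) + ψ (0, 1, 0) * ζ = ψ (0, 1, 0) * (1 + ζ) := by ring
    rw [e2, norm_mul, chnrm, one_mul]
  · exact absurd h0 hzf

end

end Pool.Agent.V11296.CY
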