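import Pool.Agent.V11296.CY5

/-!
The prime factors `p` of `n^2 + t n + c` with `n ≡ ρ(p) mod p` (helper296), part 2: sums over the
factorisations.
-/

set_option autoImplicit false

namespace Pool.Agent.V11296.CY

open Finset Filter Topology
open Pool.Agent.W78.GA
open Pool.Agent.W357.EG (isDomain isUnit_iff nm_assoc)
open Pool.Agent.W251.GX (Cm)
open Pool.Agent.W78.EG
open Pool.Agent.W251.EG
open Pool.Agent.W251.EX (tt)
open Pool.Agent.V11296.CV (chpow chnrm nt ind_eq)
open Pool.Agent.TH890.DV (LogNull LogNull.of_ev)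

section

variable {t c : ℕ} {f : ℕ} {χ : DirichletCharacter ℂ f}

/-- the number `n` with `n^2 + t n + c = d d'` -/
def nn (c : ℕ) (p : ℕ × ℕ) : ℕ := Nat.sqrt (p.1 * p.2 - c)

theorem nn_eq (ht : t ≤ 1) {p : ℕ × ℕ} {n : ℕ} (h : p.1 * p.2 = n ^ 2 + t * n + c) :
    nn c p = n := by
  unfold nn
  rw [h]
  exact fsqrt ht n

/-- the values: `Ω(d)`, `Ω(d')`, and the number of the prime factors `l` of `d d'` with
`n ≡ ρ(l) mod l` -/
noncomputable def HH (c : ℕ) (ρ : ℕ → ℕ) (k : ℕ) (p : ℕ × ℕ) : Tk k :=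
  (((p.1.primeFactorsList.length : ℕ) : ZMod k), ((p.2.primeFactorsList.length : ℕ) : ZMod k),
    ((cP (fun l => nn c p ≡ ρ l [MOD l]) (p.1 * p.2) : ℕ) : ZMod k))

theorem len_mul {x y : ℕ} (hx : x ≠ 0) (hy : y ≠ 0) :
    (x * y).primeFactorsList.length = x.primeFactorsList.length + y.primeFactorsList.length := by
  rw [(Nat.perm_primeFactorsList_mul hx hy).length_eq, List.length_append]

/-- the values of the second function -/
theorem val₂ (hF : Fd (t : ℤ) (c : ℤ) f χ) (hP : S_PID (t : ℤ) (c : ℤ)) (ρ : ℕ → ℕ) (k n : ℕ)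
    {w : Qd (t : ℤ) (c : ℤ)} (hw : w ∣ nw t c n) : Hm (m₂ ρ k) w =
      ((0, ((nm w).primeFactorsList.length : ZMod k),
        (cP (fun l => n ≡ ρ l [MOD l]) (nm w) : ZMod k)) : Tk k) := by
  have hD := hDG hF
  have ha := m₂_assoc hF ρ k
  refine ind_nw hF (fun z => Hm (m₂ ρ k) z) (fun z => ((0, ((nm z).primeFactorsList.length : ZMod k),
        (cP (fun l => n ≡ ρ l [MOD l]) (nm z) : ZMod k)) : Tk k)) ?_ ?_ ?_ w hw
  · intro u hu
    have h1 : Hm (m₂ ρ k) u = 0 := by
      have := Hm_unit hD ha hu 1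
      rwa [mul_one, Hm_one hD ha] at this
    simp only [h1, hu, Nat.primeFactorsList_one, List.length_nil, cP_one, Nat.cast_zero]
    rfl
  · intro z w hz hw
    refine ⟨Hm_mul hD ha hP hz hw, ?_⟩
    have hz0 := (nm_pos hD hz).ne'
    have hw0 := (nm_pos hD hw).ne'
    beta_reduce
    rw [nm_mul, len_mul hz0 hw0, cP_mul _ hz0 hw0]
    push_cast
    rw [Prod.mk_add_mk, Prod.mk_add_mk, add_zero]
  · intro π hπ hd
    beta_reduce
    rw [Hm_prime hD ha (prime_of_nm hD hP hπ), cP_prime _ hπ, Nat.primeFactorsList_prime hπ]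
    unfold m₂ mk
    by_cases h1 : n ≡ ρ (nm π) [MOD nm π]
    · rw [if_pos h1, if_pos ((dvd_nw hD hπ hd).2 h1)]
      simp
    · rw [if_neg h1, if_neg (fun h2 => h1 ((dvd_nw hD hπ hd).1 h2))]
      simp

/-- the values of the first function -/
theorem val₁ (hF : Fd (t : ℤ) (c : ℤ) f χ) (hP : S_PID (t : ℤ) (c : ℤ)) (ρ : ℕ → ℕ) (k n : ℕ)
    {w : Qd (t : ℤ) (c : ℤ)} (hw : w ∣ nw t c n) : Hm (m₁ f ρ k) (star w) =
      ((((nm w).primeFactorsList.length : ZMod k), 0,
        (cP (fun l => n ≡ ρ l [MOD l]) (nm w) : ZMod k) -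
          (cP (fun l => l ∣ f) (nm w) : ZMod k)) : Tk k) := by
  have hD := hDG hF
  have ha := m₁_assoc hF ρ k
  refine ind_nw hF (fun z => Hm (m₁ f ρ k) (star z)) (fun z =>
    ((((nm z).primeFactorsList.length : ZMod k), 0,
        (cP (fun l => n ≡ ρ l [MOD l]) (nm z) : ZMod k) -
          (cP (fun l => l ∣ f) (nm z) : ZMod k)) : Tk k)) ?_ ?_ ?_ w hw
  · intro u hu
    have hus : nm (star u) = 1 := by rw [nm_star, hu]
    have h1 : Hm (m₁ f ρ k) (star u) = 0 := by
      have := Hm_unit hD ha hus 1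
      rwa [mul_one, Hm_one hD ha] at this
    simp only [h1, hu, Nat.primeFactorsList_one, List.length_nil, cP_one, Nat.cast_zero, sub_zero]
    rfl
  · intro z w hz hw
    have hz0 := (nm_pos hD hz).ne'
    have hw0 := (nm_pos hD hw).ne'
    have hzs : star z ≠ 0 := fun h => hz (by rw [← star_star z, h, star_zero])
    have hws : star w ≠ 0 := fun h => hw (by rw [← star_star w, h, star_zero])
    refine ⟨?_, ?_⟩
    · beta_reduce
      rw [star_mul', Hm_mul hD ha hP hzs hws]
    beta_reduce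
    rw [nm_mul, len_mul hz0 hw0, cP_mul _ hz0 hw0, cP_mul _ hz0 hw0]
    push_cast
    rw [Prod.mk_add_mk, Prod.mk_add_mk, add_zero]
    congr 2
    ring
  · intro π hπ hd
    beta_reduce
    have hπs : (nm (star π)).Prime := by rw [nm_star]; exact hπ
    rw [Hm_prime hD ha (prime_of_nm hD hP hπs), cP_prime _ hπ, cP_prime _ hπ,
      Nat.primeFactorsList_prime hπ]
    unfold m₁ mk
    rw [star_star, nm_star]
    by_cases h1 : n ≡ ρ (nm π) [MOD nm π]
    · rw [if_pos h1, if_pos ((dvd_nw hD hπ hd).2 h1)]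
      by_cases h2 : nm π ∣ f
      · rw [if_pos h2, if_pos h2]
        simp
      · rw [if_neg h2, if_neg h2]
        simp
    · rw [if_neg h1, if_neg (fun h2 => h1 ((dvd_nw hD hπ hd).1 h2))]
      by_cases h2 : nm π ∣ f
      · rw [if_pos h2, if_pos h2]
        simp
      · rw [if_neg h2, if_neg h2]
        simp

/-- the number of the ramified prime factors -/
noncomputable def rm (f d : ℕ) : ℕ := (f.primeFactors.filter (fun l => l ∣ d)).card

theorem rm_eq {f d : ℕ} (hf : f ≠ 0) (hd : d ≠ 0)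
    (h : ∀ l : ℕ, l.Prime → l ∣ f → ¬ l ^ 2 ∣ d) : cP (fun l => l ∣ f) d = rm f d := by
  have h0 : cP (fun l => l ∣ f) d = d.primeFactorsList.countP (fun l : ℕ => l ∣ f) := by
    unfold cP
    exact List.countP_congr (fun x _ => by simp only [decide_eq_true_eq])
  rw [h0]
  unfold rm
  rw [List.countP_eq_length_filter]
  have hnd : (d.primeFactorsList.filter (fun l : ℕ => l ∣ f)).Nodup := by
    rw [List.nodup_iff_count_le_one]
    intro a
    by_cases ha : a ∈ d.primeFactorsList.filter (fun l : ℕ => l ∣ f)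
    · rw [List.mem_filter] at ha
      obtain ⟨ha1, ha2⟩ := ha
      have hap := Nat.prime_of_mem_primeFactorsList ha1
      have haf : a ∣ f := by simpa using ha2
      refine (List.filter_sublist.count_le a).trans ?_
      rw [Nat.primeFactorsList_count_eq]
      by_contra hcon
      push Not at hcon
      exact h a hap haf ((hap.pow_dvd_iff_le_factorization hd).2 hcon)
    · rw [List.count_eq_zero_of_not_mem ha]
      exact Nat.zero_le _
  rw [← List.toFinset_card_of_nodup hnd]
  congr 1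
  ext a
  rw [List.mem_toFinset, List.mem_filter, mem_filter, Nat.mem_primeFactorsList hd,
    Nat.mem_primeFactors]
  simp only [decide_eq_true_eq]
  tauto

theorem rm_mod {f d r : ℕ} (h : d ≡ r [MOD f]) : rm f d = rm f r := by
  unfold rm
  congr 1
  refine filter_congr fun l hl => ?_
  have hlf := (Nat.mem_primeFactors.1 hl).2.1
  exact (h.of_dvd hlf).dvd_iff (dvd_refl _)

end

end Pool.Agent.V11296.CY
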