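import Pool.Agent.V11296.CY6

/-!
The prime factors `p` of `n^2 + t n + c` with `n ≡ ρ(p) mod p` (helper296), part 3: cancellation and
equidistribution over the factorisations in windows.
-/

set_option autoImplicit false

namespace Pool.Agent.V11296.CY

open Finset Filter Topology
open Pool.Agent.W78.GA
open Pool.Agent.W251.GX (Cm)
open Pool.Agent.W78.EG
open Pool.Agent.W251.EG
open Pool.Agent.W251.EX (tt)
open Pool.Agent.V11296.CV (chpow chnrm nt ind_eq)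
open Pool.Agent.TH890.DV (LogNull LogNull.of_ev)

/-- smallness at almost all scales -/
def Av (h : ℕ → ℝ) : Prop := ∀ ε : ℝ, 0 < ε → ∃ N₀ : ℕ, ∀ N' : ℕ, N₀ ≤ N' →
  ∑ X ∈ Icc 1 N', 1 / (X : ℝ) ^ 2 * h X ≤ ε * Real.log N'

theorem Av.mono {h h' : ℕ → ℝ} (H : Av h) (hh : ∀ X, h' X ≤ h X) : Av h' := by
  intro ε hε
  obtain ⟨N₀, hN₀⟩ := H ε hε
  exact ⟨N₀, fun N' hN => le_trans (sum_le_sum fun X _ =>
    mul_le_mul_of_nonneg_left (hh X) (by positivity)) (hN₀ N' hN)⟩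

theorem Av.sum {ι : Type} (s : Finset ι) {h : ι → ℕ → ℝ} (H : ∀ i ∈ s, Av (h i)) :
    Av (fun X => ∑ i ∈ s, h i X) := by
  classical
  induction s using Finset.induction_on with
  | empty =>
    intro ε hε
    refine ⟨1, fun N' hN => ?_⟩
    simp only [sum_empty, mul_zero, sum_const_zero]
    exact mul_nonneg hε.le (Real.log_nonneg (by exact_mod_cast hN))
  | insert i s hi ih =>
    intro ε hε
    obtain ⟨N₀, hN₀⟩ := H i (mem_insert_self _ _) (ε / 2) (by positivity)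
    obtain ⟨N₁, hN₁⟩ := ih (fun j hj => H j (mem_insert_of_mem hj)) (ε / 2) (by positivity)
    refine ⟨max N₀ N₁, fun N' hN => ?_⟩
    have h1 := hN₀ N' ((le_max_left _ _).trans hN)
    have h2 := hN₁ N' ((le_max_right _ _).trans hN)
    simp only [sum_insert hi, mul_add, sum_add_distrib]
    linarith

section

variable {t c : ℕ} {f : ℕ} {χ : DirichletCharacter ℂ f}

/-- the values of the characters -/
theorem val_pair (hF : Fd (t : ℤ) (c : ℤ) f χ) (hP : S_PID (t : ℤ) (c : ℤ))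
    (hR : ∀ l : ℕ, l.Prime → l ∣ f → ∀ n : ℤ, ¬ ((l ^ 2 : ℕ) : ℤ) ∣ n ^ 2 + (t : ℤ) * n + (c : ℤ))
    (ρ : ℕ → ℕ) (k : ℕ) (ψ : AddChar (Tk k) ℂ) {q a r : ℕ} {s₁ s₂ s₃ s₄ : ℝ} {X : ℕ} {p : ℕ × ℕ}
    (hp : p ∈ SW (t : ℤ) (c : ℤ) q a r s₁ s₂ s₃ s₄ X) :
    ψ (HH c ρ k p) = PhR (fun z : Qd (t : ℤ) (c : ℤ) => ψ (Hm (m₁ f ρ k) z))
      (fun z => ψ (Hm (m₂ ρ k) z)) p.1 p.2 * ψ (0, 0, (rm f p.1 : ZMod k)) := by
  have hD := hDG hF
  have hf : f ≠ 0 := by have := hF.three; omega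
  obtain ⟨⟨⟨h1, _⟩, h2, _⟩, ⟨n, h3, h4, _, _⟩, _⟩ := mem_SWn.1 hp
  have h4' : (p.1 * p.2 : ℤ) = (n : ℤ) ^ 2 + t * n + c := by exact_mod_cast h4
  obtain ⟨v, w, e1, e2, e3, e4⟩ := Pool.Agent.W748.EG.exists_pair hF n p.1 p.2 h1 h4'
  have hpp : 0 < pp v w := by
    unfold pp
    rw [e3, e4]
    have : (1 : ℤ) ≤ (n : ℤ) + t := by exact_mod_cast h3
    have : (0 : ℤ) ≤ (n : ℤ) := Nat.cast_nonneg n
    omega
  have h5 := PhR_eq hF (F₁ := fun z : Qd (t : ℤ) (c : ℤ) => ψ (Hm (m₁ f ρ k) z))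
    (F₂ := fun z => ψ (Hm (m₂ ρ k) z))
    (fun u z hu => by
      show ψ (Hm (m₁ f ρ k) (u * z)) = ψ (Hm (m₁ f ρ k) z)
      rw [Hm_unit hD (m₁_assoc hF ρ k) hu])
    (fun u z hu => by
      show ψ (Hm (m₂ ρ k) (u * z)) = ψ (Hm (m₂ ρ k) z)
      rw [Hm_unit hD (m₂_assoc hF ρ k) hu]) e3 hpp
  rw [e1, e2] at h5
  have h6 : star v * w = nw t c n := by
    rw [star_mul_eq, e3, e4]
    rfl
  have hv : star v ∣ nw t c n := by rw [← h6]; exact dvd_mul_right _ _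
  have hw : w ∣ nw t c n := by rw [← h6]; exact dvd_mul_left _ _
  have g1 := val₁ hF hP ρ k n hv
  have g2 := val₂ hF hP ρ k n hw
  rw [star_star, nm_star, e1] at g1
  rw [e2] at g2
  have h7 : cP (fun l => l ∣ f) p.1 = rm f p.1 := rm_eq hf (by omega) (fun l hl hlf hd =>
    hR l hl hlf n (by
      have h8 : l ^ 2 ∣ n ^ 2 + t * n + c := by
        rw [← h4]
        exact hd.mul_right _
      exact_mod_cast h8))
  rw [h5, g1, g2, h7, ← AddChar.map_add_eq_mul, ← AddChar.map_add_eq_mul]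
  congr 1
  unfold HH
  rw [nn_eq (t_le hF) h4, cP_mul _ (by omega) (by omega)]
  push_cast
  rw [Prod.mk_add_mk, Prod.mk_add_mk, Prod.mk_add_mk, Prod.mk_add_mk]
  congr 1
  · ring
  · congr 1
    · ring
    · ring

/-- finer residue classes -/
theorem split (hF : Fd (t : ℤ) (c : ℤ) f χ) (q m a r : ℕ) (hq : 1 ≤ q) (hm : 1 ≤ m)
    (s₁ s₂ s₃ s₄ : ℝ) (X : ℕ) (Φ : ℕ × ℕ → ℂ) :
    ∑ p ∈ SW (t : ℤ) (c : ℤ) q a r s₁ s₂ s₃ s₄ X, Φ p =
      ∑ x ∈ ((range (q * m)) ×ˢ (range (q * m))).filter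
        (fun x : ℕ × ℕ => x.1 ≡ a [MOD q] ∧ x.2 ≡ r [MOD q]),
        ∑ p ∈ SW (t : ℤ) (c : ℤ) (q * m) x.1 x.2 s₁ s₂ s₃ s₄ X, Φ p := by
  have hqm : 0 < q * m := Nat.mul_pos hq hm
  rw [← sum_fiberwise_of_maps_to (s := SW (t : ℤ) (c : ℤ) q a r s₁ s₂ s₃ s₄ X)
    (t := ((range (q * m)) ×ˢ (range (q * m))).filter
        (fun x : ℕ × ℕ => x.1 ≡ a [MOD q] ∧ x.2 ≡ r [MOD q]))
    (g := fun p : ℕ × ℕ => (nn c p % (q * m), p.1 % (q * m)))]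
  · refine sum_congr rfl fun x hx => sum_congr ?_ fun _ _ => rfl
    rw [mem_filter, mem_product, mem_range, mem_range] at hx
    obtain ⟨⟨hx1, hx2⟩, hx3, hx4⟩ := hx
    ext p
    rw [mem_filter, mem_SWn, mem_SWn]
    constructor
    · rintro ⟨⟨h1, ⟨n, h2, h3, h4, h5⟩, h6⟩, h7⟩
      have h8 := congrArg Prod.fst h7
      have h9 := congrArg Prod.snd h7
      dsimp only at h8 h9
      rw [nn_eq (t_le hF) h3] at h8
      refine ⟨h1, ⟨n, h2, h3, ?_, ?_⟩, h6⟩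
      · show n % (q * m) = x.1 % (q * m)
        rw [h8, Nat.mod_eq_of_lt hx1]
      · show p.1 % (q * m) = x.2 % (q * m)
        rw [h9, Nat.mod_eq_of_lt hx2]
    · rintro ⟨h1, ⟨n, h2, h3, h4, h5⟩, h6⟩
      refine ⟨⟨h1, ⟨n, h2, h3, (h4.of_mul_right m).trans hx3, (h5.of_mul_right m).trans hx4⟩,
        h6⟩, ?_⟩
      rw [nn_eq (t_le hF) h3]
      have h8 : n % (q * m) = x.1 % (q * m) := h4
      have h9 : p.1 % (q * m) = x.2 % (q * m) := h5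
      rw [h8, h9, Nat.mod_eq_of_lt hx1, Nat.mod_eq_of_lt hx2]
  · intro p hp
    obtain ⟨_, ⟨n, _, h3, h4, h5⟩, _⟩ := mem_SWn.1 hp
    rw [mem_filter, mem_product, mem_range, mem_range]
    dsimp only
    rw [nn_eq (t_le hF) h3]
    refine ⟨⟨Nat.mod_lt _ hqm, Nat.mod_lt _ hqm⟩, ?_, ?_⟩
    · exact (((Nat.mod_modEq n (q * m)).of_mul_right m)).trans h4
    · exact (((Nat.mod_modEq p.1 (q * m)).of_mul_right m)).trans h5

open scoped Classical in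
/-- cancellation for all non-trivial characters -/
theorem avψ (hF : Fd (t : ℤ) (c : ℤ) f χ)
    (hR : ∀ l : ℕ, l.Prime → l ∣ f → ∀ n : ℤ, ¬ ((l ^ 2 : ℕ) : ℤ) ∣ n ^ 2 + (t : ℤ) * n + (c : ℤ))
    {ρ : ℕ → ℕ} (hρ : Rt t c ρ) (k : ℕ) [NeZero k] (ψ : AddChar (Tk k) ℂ) (hψ : ∃ x, ψ x ≠ 1)
    (q a r : ℕ) (hq : 1 ≤ q)
    (s₁ s₂ s₃ s₄ : ℝ) (hs1 : 0 ≤ s₁) (hs12 : s₁ < s₂)
    (hs2 : s₂ ≤ 1) (hs3 : 0 ≤ s₃) (hs34 : s₃ < s₄) (hs4 : s₄ ≤ 1) :
    Av (fun X => ‖∑ p ∈ SW (t : ℤ) (c : ℤ) q a r s₁ s₂ s₃ s₄ X, ψ (HH c ρ k p)‖) := by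
  have hP : S_PID (t : ℤ) (c : ℤ) := Pool.Agent.W290.EG.pid hF
  have hf : 1 ≤ f := le_trans (by norm_num) hF.three
  by_cases hζ : ψ (0, 0, 1) = 1
  · -- only the numbers of prime factors matter
    have e1 : ∀ x y z : ℕ, ψ (((x : ZMod k), (y : ZMod k), (z : ZMod k)) : Tk k) =
        ψ (1, 0, 0) ^ x * ψ (0, 1, 0) ^ y := by
      intro x y z
      have h1 : (((x : ZMod k), (y : ZMod k), (z : ZMod k)) : Tk k) =
          x • ((1, 0, 0) : Tk k) + y • ((0, 1, 0) : Tk k) + z • ((0, 0, 1) : Tk k) := by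
        simp
      rw [h1, AddChar.map_add_eq_mul, AddChar.map_add_eq_mul, AddChar.map_nsmul_eq_pow,
        AddChar.map_nsmul_eq_pow, AddChar.map_nsmul_eq_pow, hζ, one_pow, mul_one]
    have hne : ψ (1, 0, 0) ≠ 1 ∨ ψ (0, 1, 0) ≠ 1 := by
      by_contra hcon
      push Not at hcon
      obtain ⟨⟨x, y, z⟩, hx⟩ := hψ
      apply hx
      have h1 := e1 x.val y.val z.val
      rw [ZMod.natCast_zmod_val, ZMod.natCast_zmod_val, ZMod.natCast_zmod_val, hcon.1, hcon.2,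
        one_pow, one_pow, one_mul] at h1
      exact h1
    have hchrw := Pool.Agent.W334.EG.chrw hF (mainyG hF) (corrG hF) (scntG hF)
      (fun N b hN hb hb1 q β hq => btG hF N b hN hb hb1 q β hq)
    intro ε hε
    obtain ⟨N₀, hN₀⟩ := hchrw (Nat.card (Tk k)) (ψ (1, 0, 0)) (ψ (0, 1, 0)) Nat.card_pos
      (chpow ψ _) (chpow ψ _) hne q a r hq s₁ s₂ s₃ s₄ hs1 hs12 hs2 hs3 hs34 hs4 ε hε
    refine ⟨N₀, fun N' hN => le_trans (le_of_eq (sum_congr rfl fun X _ => ?_)) (hN₀ N' hN)⟩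
    refine congrArg (fun z : ℂ => 1 / (X : ℝ) ^ 2 * ‖z‖) (sum_congr rfl fun p _ => ?_)
    unfold HH
    rw [e1, ArithmeticFunction.cardFactors_apply, ArithmeticFunction.cardFactors_apply]
  · refine (Av.sum (((range (q * f)) ×ˢ (range (q * f))).filter
        (fun x : ℕ × ℕ => x.1 ≡ a [MOD q] ∧ x.2 ≡ r [MOD q]))
      (h := fun x X => ‖∑ p ∈ SW (t : ℤ) (c : ℤ) (q * f) x.1 x.2 s₁ s₂ s₃ s₄ X,
        PhR (fun z : Qd (t : ℤ) (c : ℤ) => ψ (Hm (m₁ f ρ k) z))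
          (fun z => ψ (Hm (m₂ ρ k) z)) p.1 p.2‖) (fun x _ => ?_)).mono (fun X => ?_)
    · intro ε hε
      exact twR hF (m_Pr hF hP hρ k ψ) (fun u z hu => by
        show ψ (Hm (m₁ f ρ k) (u * z)) = ψ (Hm (m₁ f ρ k) z)
        rw [Hm_unit (hDG hF) (m₁_assoc hF ρ k) hu])
        (fun u z hu => by
        show ψ (Hm (m₂ ρ k) (u * z)) = ψ (Hm (m₂ ρ k) z)
        rw [Hm_unit (hDG hF) (m₂_assoc hF ρ k) hu]) (m_Apd hF hP hρ k ψ hζ) (q * f) x.1 x.2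
        (Nat.mul_pos hq hf) s₁ s₂ s₃ s₄ hs1 hs12 hs2 hs3 hs34 hs4 ε hε
    · rw [split hF q f a r hq hf]
      refine (norm_sum_le _ _).trans (sum_le_sum fun x _ => le_of_eq ?_)
      have h1 : ∀ p ∈ SW (t : ℤ) (c : ℤ) (q * f) x.1 x.2 s₁ s₂ s₃ s₄ X, ψ (HH c ρ k p) =
          PhR (fun z : Qd (t : ℤ) (c : ℤ) => ψ (Hm (m₁ f ρ k) z))
          (fun z => ψ (Hm (m₂ ρ k) z)) p.1 p.2 * ψ (0, 0, (rm f x.2 : ZMod k)) := by
        intro p hp
        rw [val_pair hF hP hR ρ k ψ hp]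
        obtain ⟨_, ⟨n, _, _, _, h5⟩, _⟩ := mem_SWn.1 hp
        rw [rm_mod (h5.of_mul_left q)]
      rw [sum_congr rfl h1, ← sum_mul, norm_mul, chnrm, mul_one]

end

/-! ### Fourier analysis -/

section

variable {A : Type} [AddCommGroup A]

open scoped Classical in
/-- the deviation from equidistribution of one pair -/
noncomputable def dv (H : ℕ × ℕ → A) (g : A) (K : ℕ) (p : ℕ × ℕ) : ℝ :=
  (if H p = g then (1 : ℝ) else 0) - 1 / (K : ℝ)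

omit [AddCommGroup A] in
theorem abs_dv (H : ℕ × ℕ → A) (g : A) (K : ℕ) (p : ℕ × ℕ) : |dv H g K p| ≤ 1 := by
  unfold dv
  have h1 : (0 : ℝ) ≤ 1 / (K : ℝ) := by positivity
  have h2 : 1 / (K : ℝ) ≤ 1 := by
    rcases Nat.eq_zero_or_pos K with h | h
    · rw [h]; simp
    · rw [div_le_one (by exact_mod_cast h)]
      exact_mod_cast h
  split_ifs
  · rw [abs_le]; constructor <;> linarith
  · rw [abs_le]; constructor <;> linarith

open scoped Classical in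
theorem av_dv [Finite A] {D : AddSubgroup A} {H : ℕ × ℕ → A} (g : A) (S : ℕ → Finset (ℕ × ℕ))
    (hS : ∀ X, ∀ p ∈ S X, H p - g ∈ D)
    (hav : ∀ ψ : AddChar A ℂ, (∃ d ∈ D, ψ d ≠ 1) → Av (fun X => ‖∑ p ∈ S X, ψ (H p)‖)) :
    Av (fun X => |∑ p ∈ S X, dv H g (Nat.card D) p|) := by
  refine (Av.sum (nt D) (h := fun ψ X => ‖∑ p ∈ S X, ψ (H p)‖) (fun ψ hψ => hav ψ (by
    unfold nt at hψ
    simpa using hψ))).mono (fun X => ?_)
  have h1 : ∑ p ∈ S X, ((if H p = g then (1 : ℂ) else 0) - 1 / (Nat.card D : ℂ)) =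
      1 / (Nat.card A : ℂ) * ∑ ψ ∈ nt D, ψ (-g) * ∑ p ∈ S X, ψ (H p) := by
    rw [sum_congr rfl (g := fun p => 1 / (Nat.card A : ℂ) * ∑ ψ ∈ nt D,
      ψ (-g) * ψ (H p)), ← mul_sum, sum_comm]
    · refine congrArg _ (sum_congr rfl fun ψ _ => ?_)
      rw [mul_sum]
    · intro p hp
      have h4 := ind_eq D (H p - g) (hS X p hp)
      simp only [sub_eq_zero] at h4
      rw [h4]
      refine congrArg _ (sum_congr rfl fun ψ _ => ?_)
      rw [← AddChar.map_add_eq_mul]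
      congr 1
      abel
  have h0 : ((∑ p ∈ S X, dv H g (Nat.card D) p : ℝ) : ℂ) =
      ∑ p ∈ S X, ((if H p = g then (1 : ℂ) else 0) - 1 / (Nat.card D : ℂ)) := by
    rw [Complex.ofReal_sum]
    refine sum_congr rfl fun p _ => ?_
    unfold dv
    split_ifs
    · push_cast
      ring
    · push_cast
      ring
  rw [← Real.norm_eq_abs, ← Complex.norm_real, h0, h1, norm_mul]
  have h2 : ‖(1 / (Nat.card A : ℂ) : ℂ)‖ ≤ 1 := by
    rw [norm_div, norm_one, Complex.norm_natCast]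
    have : (1 : ℝ) ≤ Nat.card A := by exact_mod_cast (Nat.card_pos (α := A))
    rw [div_le_one (by linarith)]
    exact this
  calc ‖(1 / (Nat.card A : ℂ) : ℂ)‖ * ‖∑ ψ ∈ nt D, ψ (-g) * ∑ p ∈ S X, ψ (H p)‖
      ≤ 1 * ‖∑ ψ ∈ nt D, ψ (-g) * ∑ p ∈ S X, ψ (H p)‖ :=
        mul_le_mul_of_nonneg_right h2 (norm_nonneg _)
    _ ≤ ∑ ψ ∈ nt D, ‖ψ (-g) * ∑ p ∈ S X, ψ (H p)‖ := by
        rw [one_mul]
        exact norm_sum_le _ _
    _ = _ := by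
        refine sum_congr rfl fun ψ _ => ?_
        rw [norm_mul, chnrm, one_mul]

omit [AddCommGroup A] in
theorem null_dv {H : ℕ × ℕ → A} {g : A} {K : ℕ} {S : ℕ → Finset (ℕ × ℕ)}
    (h : Av (fun X => |∑ p ∈ S X, dv H g K p|)) (ε : ℝ) (hε : 0 < ε) :
    LogNull (fun X : ℕ => ε * X < |∑ p ∈ S X, dv H g K p|) := by
  have h7 := tt (fun X => ((∑ p ∈ S X, dv H g K p : ℝ) : ℂ)) (fun ε' hε' => by
    obtain ⟨N₀, hN₀⟩ := h ε' hε'
    refine ⟨N₀, fun N' hN => le_trans (le_of_eq (sum_congr rfl fun X _ => ?_)) (hN₀ N' hN)⟩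
    rw [Complex.norm_real, Real.norm_eq_abs]) ε hε
  unfold LogNull
  refine h7.congr fun N => ?_
  congr 1
  refine sum_congr ?_ fun _ _ => rfl
  ext X
  rw [mem_filter, mem_filter, Complex.norm_real, Real.norm_eq_abs]

end

end Pool.Agent.V11296.CY
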