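import Pool.Agent.V11296.CY7
import Pool.Agent.V11296.CX4

/-!
Functions of the factorisations `d d' = n^2 + t n + c` (helper296): from the windows to logarithmic
weights and to the number of the `n`.
-/

set_option autoImplicit false

namespace Pool.Agent.V11296.CY

open Finset Filter Topology
open Pool.Agent.W78.GA
open Pool.Agent.W78.EG
open Pool.Agent.W251.EG
open Pool.Agent.W293.EG (PP mem_PP wt wt_nonneg compare scale_sum abel mem_SV ev_log)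
open Pool.Agent.TH890.DV (LogNull LogNull.of_ev)
open Pool.Agent.V11296.CX (null_sum f_inj quot_id)

variable {A : Type}

section

variable {t c : ℕ} {f : ℕ} {χ : DirichletCharacter ℂ f}

/-- equidistribution in all the windows -/
def Wn (t c : ℕ) (H : ℕ × ℕ → A) (g : A) (K q u : ℕ) : Prop :=
  ∀ r : ℕ, ∀ s₁ s₂ s₃ s₄ : ℝ, 0 ≤ s₁ → s₁ < s₂ → s₂ ≤ 1 → 0 ≤ s₃ → s₃ < s₄ → s₄ ≤ 1 →
    ∀ ε : ℝ, 0 < ε → LogNull (fun X : ℕ => ε * X <
      |∑ p ∈ SW (t : ℤ) (c : ℤ) q u r s₁ s₂ s₃ s₄ X, dv H g K p|)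

theorem mem_PPn {q u X : ℕ} {p : ℕ × ℕ} :
    p ∈ PP (1 : ℤ) (t : ℤ) (c : ℤ) q u X ↔ 1 ≤ p.1 ∧ p.1 ≤ X ∧ 1 ≤ p.2 ∧ p.2 ≤ X ∧
      ∃ n : ℕ, p.1 * p.2 = n ^ 2 + t * n + c ∧ n ≡ u [MOD q] := by
  rw [mem_PP]
  unfold Pool.Agent.W293.EG.g
  have key : ∀ n : ℕ, ((p.1 * p.2 : ℤ) = 1 * (n : ℤ) ^ 2 + t * n + c) ↔
      p.1 * p.2 = n ^ 2 + t * n + c := by
    intro n
    rw [one_mul]
    constructor
    · intro h
      exact_mod_cast h
    · intro h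
      exact_mod_cast h
  simp only [key]

theorem mem_SW_PPn (ht : t ≤ 1) {q u r X : ℕ} {p : ℕ × ℕ} :
    p ∈ SW (t : ℤ) (c : ℤ) q u r 0 1 0 1 X ↔
      (p ∈ PP (1 : ℤ) (t : ℤ) (c : ℤ) q u X ∧ 1 ≤ nn c p + t) ∧ p.1 ≡ r [MOD q] := by
  rw [mem_SWn, mem_PPn]
  constructor
  · rintro ⟨⟨⟨h1, h2⟩, h3, h4⟩, ⟨n, h5, h6, h7, h8⟩, _⟩
    refine ⟨⟨⟨h1, h2, h3, h4, n, h6, h7⟩, ?_⟩, h8⟩
    rw [nn_eq ht h6]
    exact h5
  · rintro ⟨⟨⟨h1, h2, h3, h4, n, h6, h7⟩, h5⟩, h8⟩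
    rw [nn_eq ht h6] at h5
    refine ⟨⟨⟨h1, h2⟩, h3, h4⟩, ⟨n, h5, h6, h7, h8⟩, ?_, ?_, ?_, ?_⟩
    · rw [zero_mul]
      exact_mod_cast h1
    · rw [one_mul]
      exact_mod_cast h2
    · rw [zero_mul]
      exact_mod_cast h3
    · rw [one_mul]
      exact_mod_cast h4

open scoped Classical in
/-- the deviation over all the pairs -/
theorem nullP (hF : Fd (t : ℤ) (c : ℤ) f χ) {H : ℕ × ℕ → A} {g : A} {K q u : ℕ} (hq : 1 ≤ q)
    (hw : Wn t c H g K q u) (ε : ℝ) (hε : 0 < ε) :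
    LogNull (fun X : ℕ => ε * X < |∑ p ∈ PP (1 : ℤ) (t : ℤ) (c : ℤ) q u X, dv H g K p|) := by
  have ht := t_le hF
  have h0 := null_sum (range q)
    (fun r X => |∑ p ∈ SW (t : ℤ) (c : ℤ) q u r 0 1 0 1 X, dv H g K p|)
    (fun r _ ε' hε' => hw r 0 1 0 1 le_rfl one_pos le_rfl le_rfl one_pos le_rfl ε' hε')
    (ε / 2) (by positivity)
  obtain ⟨C, hC⟩ : ∃ C : ℝ, C = (c.divisorsAntidiagonal.card : ℝ) := ⟨_, rfl⟩
  obtain ⟨X₀, hX₀⟩ := exists_nat_gt (2 * C / ε)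
  refine LogNull.of_ev X₀ (fun X hX hlt => ?_) h0
  have h1 : C ≤ ε / 2 * X := by
    have h2 : 2 * C / ε < X := hX₀.trans_le (by exact_mod_cast hX)
    rw [div_lt_iff₀ hε] at h2
    linarith
  have h3 : ∑ p ∈ PP (1 : ℤ) (t : ℤ) (c : ℤ) q u X, dv H g K p =
      ∑ p ∈ (PP (1 : ℤ) (t : ℤ) (c : ℤ) q u X).filter (fun p => 1 ≤ nn c p + t), dv H g K p +
      ∑ p ∈ (PP (1 : ℤ) (t : ℤ) (c : ℤ) q u X).filter (fun p => ¬ 1 ≤ nn c p + t), dv H g K p :=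
    (sum_filter_add_sum_filter_not _ _ _).symm
  have h4 : |∑ p ∈ (PP (1 : ℤ) (t : ℤ) (c : ℤ) q u X).filter (fun p => ¬ 1 ≤ nn c p + t),
      dv H g K p| ≤ C := by
    refine (abs_sum_le_sum_abs _ _).trans ?_
    refine (sum_le_card_nsmul _ _ 1 fun p _ => abs_dv H g K p).trans ?_
    rw [nsmul_eq_mul, mul_one, hC]
    refine Nat.cast_le.2 (card_le_card fun p hp => ?_)
    rw [mem_filter, mem_PPn] at hp
    obtain ⟨⟨_, _, _, _, n, h6, _⟩, h7⟩ := hp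
    rw [nn_eq ht h6] at h7
    have hn : n = 0 := by omega
    rw [Nat.mem_divisorsAntidiagonal]
    refine ⟨?_, ?_⟩
    · rw [h6, hn]
      ring
    · have := c_pos hF
      omega
  have h5 : |∑ p ∈ (PP (1 : ℤ) (t : ℤ) (c : ℤ) q u X).filter (fun p => 1 ≤ nn c p + t),
      dv H g K p| ≤ ∑ r ∈ range q,
        |∑ p ∈ SW (t : ℤ) (c : ℤ) q u r 0 1 0 1 X, dv H g K p| := by
    rw [← sum_fiberwise_of_maps_to
      (s := (PP (1 : ℤ) (t : ℤ) (c : ℤ) q u X).filter (fun p => 1 ≤ nn c p + t)) (t := range q)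
      (g := fun p : ℕ × ℕ => p.1 % q) (fun p _ => mem_range.2 (Nat.mod_lt _ (by omega)))]
    refine (abs_sum_le_sum_abs _ _).trans (sum_le_sum fun r hr => le_of_eq ?_)
    congr 1
    refine sum_congr ?_ fun _ _ => rfl
    have hr' : r % q = r := Nat.mod_eq_of_lt (mem_range.1 hr)
    ext p
    rw [mem_filter, mem_filter, mem_SW_PPn ht]
    refine and_congr_right fun _ => ?_
    constructor
    · intro h1
      show p.1 % q = r % q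
      rw [h1, hr']
    · intro h1
      have h2 : p.1 % q = r % q := h1
      rw [h2, hr']
  rw [h3] at hlt
  have h6 := abs_add_le (∑ p ∈ (PP (1 : ℤ) (t : ℤ) (c : ℤ) q u X).filter
    (fun p => 1 ≤ nn c p + t), dv H g K p)
    (∑ p ∈ (PP (1 : ℤ) (t : ℤ) (c : ℤ) q u X).filter (fun p => ¬ 1 ≤ nn c p + t), dv H g K p)
  show ε / 2 * X < _
  linarith

theorem dsc1 (t c : ℕ) : (t : ℤ) ^ 2 - 4 * 1 * (c : ℤ) = (t : ℤ) ^ 2 - 4 * (c : ℤ) := by ring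

open scoped Classical in
theorem smallg (hF : Fd (t : ℤ) (c : ℤ) f χ) {H : ℕ × ℕ → A} {g : A} {K q u : ℕ} (hq : 1 ≤ q)
    (hw : Wn t c H g K q u) {C5 : ℝ} (hC5 : 0 ≤ C5)
    (hcard : ∀ N : ℕ, 1 ≤ N → ((PP (1 : ℤ) (t : ℤ) (c : ℤ) q u N).card : ℝ) ≤ C5 * N) (ε : ℝ)
    (hε : 0 < ε) :
    ∀ᶠ N : ℕ in atTop, |∑ p ∈ PP (1 : ℤ) (t : ℤ) (c : ℤ) q u N,
      dv H g K p * Pool.Agent.W293.EG.wt p| ≤ ε * Real.log N := by
  have h := scale_sum (fun X => ∑ p ∈ PP (1 : ℤ) (t : ℤ) (c : ℤ) q u X, dv H g K p)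
    {((0, 0) : ℕ × ℕ)}
    (fun _ X => |∑ p ∈ PP (1 : ℤ) (t : ℤ) (c : ℤ) q u X, dv H g K p|) hC5 ?_ ?_ ?_ ε hε
  · filter_upwards [h] with N hN
    rw [abel]
    exact hN
  · intro X hX
    refine ((abs_sum_le_sum_abs _ _).trans ?_).trans (hcard X hX)
    refine (sum_le_card_nsmul _ _ 1 fun p _ => abs_dv H g K p).trans ?_
    rw [nsmul_eq_mul, mul_one]
  · intro X
    rw [sum_singleton]
  · intro ε' hε' y _
    exact nullP hF hq hw ε' hε'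

open scoped Classical in
/-- the mean with logarithmic weights -/
theorem tendg (hF : Fd (t : ℤ) (c : ℤ) f χ) {H : ℕ × ℕ → A} {g : A} {K q u : ℕ} (hq : 1 ≤ q)
    (hw : Wn t c H g K q u) :
    Tendsto (fun N : ℕ => (∑ n ∈ (Icc 1 N).filter (fun n => n ≡ u [MOD q]),
      ∑ d ∈ (qv 1 t c n).divisors.filter (fun d => H (d, qv 1 t c n / d) = g),
        1 / ((max d (qv 1 t c n / d) : ℕ) : ℝ)) /
      ∑ n ∈ (Icc 1 N).filter (fun n => n ≡ u [MOD q]), wq 1 t c n) atTop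
      (nhds (1 / (K : ℝ))) := by
  have hd : 0 < 4 * (1 : ℤ) * (c : ℤ) - (t : ℤ) ^ 2 := by
    have h1 := hDG hF
    linarith
  obtain ⟨C5, hC5, hcard, hcmp⟩ := compare hF.tt (scntG hF) (a := 1) (b := (t : ℤ)) (e := (c : ℤ))
    one_pos (dsc1 t c) hd q u
  obtain ⟨c₁, hc₁, N₀, hlow⟩ := finlow hF (lowqG hF) (scntG hF) 1 t c one_pos (dsc1 t c) q u hq
  rw [Metric.tendsto_atTop]
  intro δ hδ
  have h1 := smallg hF hq hw hC5 hcard (c₁ * δ / 4) (by positivity)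
  obtain ⟨N₁, hN₁⟩ := eventually_atTop.1 (h1.and (ev_log (c₁ * δ / 4) C5 (by positivity)))
  refine ⟨max (max N₀ N₁) 2, fun N hN => ?_⟩
  have hN0 : N₀ ≤ N := ((le_max_left _ _).trans (le_max_left _ _)).trans hN
  have hN1 : N₁ ≤ N := ((le_max_right _ _).trans (le_max_left _ _)).trans hN
  have hN2 : 2 ≤ N := (le_max_right _ _).trans hN
  obtain ⟨h2, h3⟩ := hN₁ N hN1
  have hlog : 0 < Real.log N := Real.log_pos (by exact_mod_cast hN2)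
  have h4 := hlow N hN0
  obtain ⟨S, hS⟩ : ∃ S : ℝ, S = ∑ n ∈ (Icc 1 N).filter (fun n => n ≡ u [MOD q]),
      ∑ d ∈ (qv 1 t c n).divisors.filter (fun d => H (d, qv 1 t c n / d) = g),
        1 / ((max d (qv 1 t c n / d) : ℕ) : ℝ) := ⟨_, rfl⟩
  obtain ⟨T, hT⟩ : ∃ T : ℝ, T = ∑ n ∈ (Icc 1 N).filter (fun n => n ≡ u [MOD q]), wq 1 t c n :=
    ⟨_, rfl⟩
  rw [← hS, ← hT]
  rw [← hT] at h4
  have hT0 : 0 < T := lt_of_lt_of_le (by positivity) h4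
  have h5 := hcmp (dv H g K) (abs_dv H g K) N (by omega)
  have h6 : ∑ n ∈ (Icc 1 N).filter (fun n => n ≡ u [MOD q]), ∑ d ∈ Nat.divisors (qv 1 t c n),
      dv H g K (d, qv 1 t c n / d) * Pool.Agent.W293.EG.wt (d, qv 1 t c n / d) =
      S - 1 / (K : ℝ) * T := by
    rw [hS, hT, mul_sum, ← sum_sub_distrib]
    refine sum_congr rfl fun n _ => ?_
    unfold wq
    rw [mul_sum, sum_filter, ← sum_sub_distrib]
    refine sum_congr rfl fun d _ => ?_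
    unfold dv Pool.Agent.W293.EG.wt
    split_ifs
    · ring
    · ring
  rw [h6] at h5
  have h7 : |S - 1 / (K : ℝ) * T| ≤ c₁ * δ / 2 * Real.log N := by
    have h8 := abs_le.1 h5
    have h9 := abs_le.1 h2
    rw [abs_le]
    constructor <;> linarith [h8.1, h8.2, h9.1, h9.2]
  rw [Real.dist_eq]
  have h8 : S / T - 1 / (K : ℝ) = (S - 1 / (K : ℝ) * T) / T := by
    field_simp
  rw [h8, abs_div, abs_of_pos hT0, div_lt_iff₀ hT0]
  have h9 : c₁ * δ / 2 * Real.log N < δ * T := by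
    have h10 : δ * (c₁ * Real.log N) ≤ δ * T := mul_le_mul_of_nonneg_left h4 hδ.le
    have h11 : 0 < c₁ * δ * Real.log N := by positivity
    linarith
  linarith

open scoped Classical in
/-- the number of `n ≤ X` with a factorisation of given type -/
noncomputable def cfg (t c q u : ℕ) (H : ℕ × ℕ → A) (g : A) (X : ℕ) : ℕ :=
  ((range (X + 1)).filter (fun n : ℕ => n ≡ u [MOD q] ∧ ∃ d e : ℕ, d ≤ X ∧ e ≤ X ∧
    d * e = n ^ 2 + t * n + c ∧ H (d, e) = g)).card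

theorem cfg_mono (t c q u : ℕ) (H : ℕ × ℕ → A) (g : A) : Monotone (cfg t c q u H g) := by
  classical
  intro X Y h
  unfold cfg
  refine card_le_card fun n hn => ?_
  rw [mem_filter, mem_range] at hn ⊢
  obtain ⟨h1, h2, d, e, h3, h4, h5⟩ := hn
  exact ⟨by omega, h2, d, e, h3.trans h, h4.trans h, h5⟩

theorem f_inj1 {t c m n : ℕ} (h : m ^ 2 + t * m + c = n ^ 2 + t * n + c) : m = n :=
  f_inj (A := 1) (B := t) (C := c) le_rfl (by rw [one_mul, one_mul]; exact h)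

open scoped Classical in
/-- many `n` at almost all scales -/
theorem cntg (hF : Fd (t : ℤ) (c : ℤ) f χ) {H : ℕ × ℕ → A} {g : A} {K q u : ℕ} (hq : 1 ≤ q)
    (hK : 1 ≤ K) (hw : Wn t c H g K q u) (ε : ℝ) (hε : 0 < ε) :
    LogNull (fun X : ℕ => (cfg t c q u H g X : ℝ) <
      (X : ℝ) / Real.log X ^ (Real.log 2 + ε)) := by
  have ht := t_le hF
  have hc := c_pos hF
  have hns : ¬ IsSquare ((t : ℤ) ^ 2 - 4 * (c : ℤ)) := by
    rintro ⟨x, hx⟩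
    have h1 : (t : ℤ) ≤ 1 := by exact_mod_cast ht
    have h2 : (1 : ℤ) ≤ c := by exact_mod_cast hc
    have h3 : (0 : ℤ) ≤ t := Nat.cast_nonneg t
    nlinarith [mul_self_nonneg x]
  have hk0 : (0 : ℝ) < K := by exact_mod_cast hK
  obtain ⟨c₁, hc₁, X₀, hlow⟩ := lowqG hF 1 t c one_pos (dsc1 t c) q u hq
  obtain ⟨N₁, hcore⟩ := Pool.Agent.TH890.DV.cnt_core (t := (t : ℤ)) (c := (c : ℤ)) hns
    (F := fun n => n ^ 2 + t * n + c) (A := 1) (β := 0) le_rfl (Nat.cast_nonneg t)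
    (fun n => by
      unfold Pool.Agent.W78.GT.Qp
      push_cast
      ring) (c₁ / (2 * K)) ε (by positivity) hε
  refine LogNull.of_ev (max X₀ N₁) (fun X hX hlt => ?_)
    (nullP hF hq hw (c₁ / (2 * K)) (by positivity))
  by_contra hcon
  push Not at hcon
  have h1 : c₁ * X ≤ ((PP (1 : ℤ) (t : ℤ) (c : ℤ) q u X).card : ℝ) := by
    refine (hlow X ((le_max_left _ _).trans hX)).trans (le_of_eq ?_)
    unfold PP
    rfl
  obtain ⟨S, hSd⟩ : ∃ S : Finset (ℕ × ℕ), S = (PP (1 : ℤ) (t : ℤ) (c : ℤ) q u X).filter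
    (fun p => H p = g) := ⟨_, rfl⟩
  have hS1 : c₁ / (2 * K) * X ≤ (S.card : ℝ) := by
    have h2 : ∑ p ∈ PP (1 : ℤ) (t : ℤ) (c : ℤ) q u X, dv H g K p =
        (S.card : ℝ) - 1 / K * (PP (1 : ℤ) (t : ℤ) (c : ℤ) q u X).card := by
      unfold dv
      rw [sum_sub_distrib, sum_boole, hSd, sum_const, nsmul_eq_mul]
      ring
    rw [h2] at hcon
    have h5 := (abs_le.1 hcon).1
    have h6 : 1 / (K : ℝ) * (c₁ * X) ≤
        1 / K * (PP (1 : ℤ) (t : ℤ) (c : ℤ) q u X).card :=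
      mul_le_mul_of_nonneg_left h1 (by positivity)
    have h7 : 1 / (K : ℝ) * (c₁ * X) = c₁ / (2 * K) * X + c₁ / (2 * K) * X := by
      field_simp
      ring
    linarith
  have hSm : ∀ p ∈ S, 1 ≤ p.1 ∧ p.1 ≤ X ∧ 1 ≤ p.2 ∧ p.2 ≤ X ∧ (∃ n : ℕ,
      p.1 * p.2 = n ^ 2 + t * n + c ∧ n ≡ u [MOD q]) ∧ H p = g := by
    intro p hp
    rw [hSd, mem_filter, mem_PPn] at hp
    obtain ⟨⟨h2, h3, h4, h5, h6⟩, h8⟩ := hp
    exact ⟨h2, h3, h4, h5, h6, h8⟩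
  have h3 := hcore X ((le_max_right _ _).trans hX) S
    (fun p hp => by
      obtain ⟨h4, h5, h6, h7, ⟨n, h8, _⟩, _⟩ := hSm p hp
      exact ⟨h4, h5, h6, h7, n, h8⟩) hS1
    ((range (X + 1)).filter (fun n : ℕ => n ≡ u [MOD q] ∧ ∃ d e : ℕ, d ≤ X ∧ e ≤ X ∧
      d * e = n ^ 2 + t * n + c ∧ H (d, e) = g)) (by
    rintro n ⟨p, hp, hpn⟩
    obtain ⟨h4, h5, h6, h7, ⟨n', h8, h9⟩, h10⟩ := hSm p hp
    have hpn' : p.1 * p.2 = n ^ 2 + t * n + c := hpn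
    have hnn : n = n' := f_inj1 (by rw [← hpn', h8])
    subst hnn
    rw [mem_filter, mem_range]
    refine ⟨?_, h9, p.1, p.2, h5, h7, h8, h10⟩
    by_contra hcon2
    push Not at hcon2
    have h15 : p.1 * p.2 ≤ X * X := Nat.mul_le_mul h5 h7
    have h17 : (X + 1) ^ 2 ≤ n ^ 2 := Nat.pow_le_pow_left hcon2 2
    nlinarith [Nat.zero_le (t * n)])
  have h4 : (cfg t c q u H g X : ℝ) < (X : ℝ) / Real.log X ^ (Real.log 2 + ε) := hlt
  unfold cfg at h4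
  exact absurd h3 (not_le.2 h4)

/-- all large scales -/
theorem cntgAll (hF : Fd (t : ℤ) (c : ℤ) f χ) {H : ℕ × ℕ → A} {g : A} {K q u : ℕ} (hq : 1 ≤ q)
    (hK : 1 ≤ K) (hw : Wn t c H g K q u) (δ : ℝ) (hδ : 0 < δ) :
    ∃ N₀ : ℕ, ∀ N : ℕ, N₀ ≤ N → (N : ℝ) ^ (1 - δ) ≤ cfg t c q u H g N := by
  refine all_of (cfg_mono t c q u H g) (fun ε hε => ?_) δ hδ
  have hl2 := Real.log_pos (show (1 : ℝ) < 2 by norm_num)
  have h1 := cntg hF hq hK hw (Real.log 2 + ε) (by linarith)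
  have h2 : Real.log 2 + (Real.log 2 + ε) = 2 * Real.log 2 + ε := by ring
  rwa [h2] at h1

end

end Pool.Agent.V11296.CY
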