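import Pool.Agent.V11296.CY8
import Pool.Agent.V11296.CW2

/-!
The prime factors `p` of `n^2 + t n + c` with `n ≡ ρ(p) mod p` (helper296), part 4: the statements.
-/

set_option autoImplicit false

namespace Pool.Agent.V11296.CY

open Finset Filter Topology
open Pool.Agent.W78.GA
open Pool.Agent.W78.EG
open Pool.Agent.W251.EG
open Pool.Agent.TH890.DV (LogNull LogNull.of_ev)
open Pool.Agent.V11296.CW (wd)

variable {A : Type}

section

variable {t c : ℕ} {f : ℕ} {χ : DirichletCharacter ℂ f}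

open scoped Classical in
/-- from pairs to `n` and `d` -/
theorem conv_d (ht : t ≤ 1) (hc : 1 ≤ c) (Φ : ℕ × ℕ → ℝ)
    (q a r : ℕ) (s₁ s₂ s₃ s₄ : ℝ) (h2 : s₂ ≤ 1) (h4 : s₄ ≤ 1) (X : ℕ) :
    ∑ p ∈ SW (t : ℤ) (c : ℤ) q a r s₁ s₂ s₃ s₄ X, Φ p =
      ∑ n ∈ (range (X + 1)).filter (fun n => 1 ≤ n + t ∧ n ≡ a [MOD q]),
        ∑ d ∈ wd t c q r s₁ s₂ s₃ s₄ X n, Φ (d, (n ^ 2 + t * n + c) / d) := by
  have h := convG ht hc (fun x y => ((Φ (x, y) : ℝ) : ℂ)) q a r s₁ s₂ s₃ s₄ h2 h4 X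
  have h5 : ((∑ p ∈ SW (t : ℤ) (c : ℤ) q a r s₁ s₂ s₃ s₄ X, Φ p : ℝ) : ℂ) =
      ((∑ n ∈ (range (X + 1)).filter (fun n => 1 ≤ n + t ∧ n ≡ a [MOD q]),
        ∑ d ∈ wd t c q r s₁ s₂ s₃ s₄ X n, Φ (d, (n ^ 2 + t * n + c) / d) : ℝ) : ℂ) := by
    rw [Complex.ofReal_sum, Complex.ofReal_sum]
    refine Eq.trans ?_ (h.trans ?_)
    · rfl
    · refine sum_congr rfl fun n _ => ?_
      rw [Complex.ofReal_sum]
      rfl
  exact_mod_cast h5

open scoped Classical in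
/-- equidistribution of the homomorphic images -/
theorem wn_HH (hF : Fd (t : ℤ) (c : ℤ) f χ)
    (hR : ∀ l : ℕ, l.Prime → l ∣ f → ∀ n : ℤ, ¬ ((l ^ 2 : ℕ) : ℤ) ∣ n ^ 2 + (t : ℤ) * n + (c : ℤ))
    {ρ : ℕ → ℕ} (hρ : Rt t c ρ) (k : ℕ) [NeZero k] {B : Type} [AddCommGroup B] [Finite B]
    (π : Tk k →+ B) (hπ : Function.Surjective π) (g : B) {q u : ℕ} (hq : 1 ≤ q) :
    Wn t c (fun p => π (HH c ρ k p)) g (Nat.card B) q u := by
  intro r s₁ s₂ s₃ s₄ h1 h2 h3 h4 h5 h6 ε hε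
  have h7 := av_dv (D := (⊤ : AddSubgroup B)) (H := fun p => π (HH c ρ k p)) g
    (fun X => SW (t : ℤ) (c : ℤ) q u r s₁ s₂ s₃ s₄ X) (fun _ _ _ => trivial) (fun ψ hψ => by
      obtain ⟨d, _, hd⟩ := hψ
      obtain ⟨x, hx⟩ := hπ d
      have h8 := avψ hF hR hρ k (ψ.compAddMonoidHom π) ⟨x, by
        rw [AddChar.compAddMonoidHom_apply, hx]
        exact hd⟩ q u r hq s₁ s₂ s₃ s₄ h1 h2 h3 h4 h5 h6
      exact h8)
  rw [AddSubgroup.card_top] at h7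
  exact null_dv h7 ε hε

end

/-! ### the two projections -/

section

variable {t c : ℕ}

/-- the sum of the first two coordinates, and the third one -/
def pr (k : ℕ) : Tk k →+ ZMod k × ZMod k where
  toFun x := (x.1 + x.2.1, x.2.2)
  map_zero' := by simp
  map_add' x y := by
    refine Prod.ext ?_ rfl
    show x.1 + y.1 + (x.2.1 + y.2.1) = x.1 + x.2.1 + (y.1 + y.2.1)
    ring

theorem pr_surj (k : ℕ) : Function.Surjective (pr k) := by
  rintro ⟨x, z⟩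
  refine ⟨(x, 0, z), ?_⟩
  unfold pr
  simp

theorem card_tk (k : ℕ) [NeZero k] : Nat.card (Tk k) = k ^ 3 := by
  rw [Nat.card_prod, Nat.card_prod, Nat.card_zmod]
  ring

theorem card_tk2 (k : ℕ) [NeZero k] : Nat.card (ZMod k × ZMod k) = k ^ 2 := by
  rw [Nat.card_prod, Nat.card_zmod]
  ring

/-- the number of the marked prime factors -/
noncomputable def mkd (ρ : ℕ → ℕ) (v n : ℕ) : ℕ :=
  v.primeFactorsList.countP (fun p => n ≡ ρ p [MOD p])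

theorem cP_mkd (ρ : ℕ → ℕ) (v n : ℕ) : cP (fun l => n ≡ ρ l [MOD l]) v = mkd ρ v n := by
  unfold cP mkd
  exact List.countP_congr (fun x _ => by simp only [decide_eq_true_eq])

theorem HH_iff (ht : t ≤ 1) {ρ : ℕ → ℕ} {k : ℕ} {d e n : ℕ} (h : d * e = n ^ 2 + t * n + c)
    (i j l : ℕ) : HH c ρ k (d, e) = ((i : ZMod k), (j : ZMod k), (l : ZMod k)) ↔
      d.primeFactorsList.length ≡ i [MOD k] ∧ e.primeFactorsList.length ≡ j [MOD k] ∧
      mkd ρ (n ^ 2 + t * n + c) n ≡ l [MOD k] := by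
  unfold HH
  rw [nn_eq (p := (d, e)) ht h, cP_mkd, Prod.mk.injEq, Prod.mk.injEq,
    ZMod.natCast_eq_natCast_iff, ZMod.natCast_eq_natCast_iff, ZMod.natCast_eq_natCast_iff]
  dsimp only
  rw [h]

theorem prHH_iff (ht : t ≤ 1) (hc : 1 ≤ c) {ρ : ℕ → ℕ} {k : ℕ} {d e n : ℕ}
    (h : d * e = n ^ 2 + t * n + c)
    (j l : ℕ) : pr k (HH c ρ k (d, e)) = ((j : ZMod k), (l : ZMod k)) ↔
      (n ^ 2 + t * n + c).primeFactorsList.length ≡ j [MOD k] ∧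
      mkd ρ (n ^ 2 + t * n + c) n ≡ l [MOD k] := by
  have hd : d ≠ 0 := fun h0 => by rw [h0, Nat.zero_mul] at h; omega
  have he : e ≠ 0 := fun h0 => by rw [h0, Nat.mul_zero] at h; omega
  have h1 := len_mul hd he
  rw [h] at h1
  unfold pr HH
  rw [nn_eq (p := (d, e)) ht h, cP_mkd]
  show (((d.primeFactorsList.length : ℕ) : ZMod k) + ((e.primeFactorsList.length : ℕ) : ZMod k),
    _) = _ ↔ _
  rw [Prod.mk.injEq, ← Nat.cast_add, ← h1, ZMod.natCast_eq_natCast_iff]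
  dsimp only
  rw [h, ZMod.natCast_eq_natCast_iff]

end

end Pool.Agent.V11296.CY
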