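import Pool.Agent.V11296.CY2

/-!
Completely multiplicative functions on imaginary quadratic orders of class number one whose values at
the prime elements are given by residue classes, and which need not depend on the norm only
(helper296): aperiodicity.
-/

set_option autoImplicit false

namespace Pool.Agent.V11296.CZ

open Finset Filter Topology
open ArithmeticFunction (vonMangoldt)
open Pool.Agent.W78.EG
open Pool.Agent.W78.GA
open Pool.Agent.W357.EG (Nn mem_Nn LK LK_nonneg sum_LK sum_LK_le isDomain Bk aL_eq mem_ball1)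
open Pool.Agent.W738.EG (RM red red_eq red_surj isUnit_red PerM)
open Pool.Agent.W584.EG (rr aL_le sum_rr ball_card_le phi_le uc_pos sum_ball)
open Pool.Agent.W251.GX (Cm)
open Pool.Agent.W251.EG
open Pool.Agent.V11296.CY (Mr log_id' Bk_le' Bk_prime)

variable {t c : ℤ} {ψ : Qd t c → ℂ}

/-- the mean value is `0` if the coefficients at the primes are those of a periodic function whose
mean value is not `1` -/
theorem mr_mean2 {f : ℕ} {χ : DirichletCharacter ℂ f} (hF : Fd t c f χ) (hP : S_PID t c)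
    (hL : S_LCON t c) (hN : S_LNV t c) (H : Mr ψ) {M : ℕ} (hM : 1 ≤ M) {Ψ : Qd t c → ℂ}
    (hper : PerM M Ψ) (h0 : ∀ z : Qd t c, ¬ IsCoprime z (M : Qd t c) → Ψ z = 0)
    (heq : ∀ p : ℕ, p.Prime → ¬ p ∣ M → aL ψ p = aL Ψ p)
    (hκ : (mv M Ψ).re < 1) (ε : ℝ) (hε : 0 < ε) :
    ∃ X₀ : ℝ, ∀ X : ℝ, X₀ ≤ X → ‖∑ z ∈ ball t c X, ψ z‖ ≤ ε * X := by
  classical
  have hD : t ^ 2 < 4 * c := by
    have h1 := hF.disc
    have h2 : (3 : ℤ) ≤ f := by exact_mod_cast hF.three
    linarith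
  have hucp : (0 : ℝ) < uc t c := by exact_mod_cast uc_pos hD
  obtain ⟨b, hb⟩ : ∃ b : ℕ → ℂ, b = fun n => Bk ψ n / (vonMangoldt n : ℂ) := ⟨_, rfl⟩
  have hb2 : ∀ n, ‖b n‖ ≤ 2 := fun n => by
    rw [hb]
    beta_reduce
    rw [norm_div, Complex.norm_real, Real.norm_eq_abs,
      abs_of_nonneg ArithmeticFunction.vonMangoldt_nonneg]
    have h1 : (0 : ℝ) ≤ vonMangoldt n := ArithmeticFunction.vonMangoldt_nonneg
    rcases h1.eq_or_lt with h2 | h2
    · rw [← h2, div_zero]
      norm_num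
    · rw [div_le_iff₀ h2]
      exact Bk_le' hD hP H n
  have hbB : ∀ n, (vonMangoldt n : ℂ) * b n = Bk ψ n := fun n => by
    rw [hb]
    beta_reduce
    have h1 : (0 : ℝ) ≤ vonMangoldt n := ArithmeticFunction.vonMangoldt_nonneg
    rcases h1.eq_or_lt with h2 | h2
    · have h3 := Bk_le' hD hP H n
      rw [← h2, mul_zero, norm_le_zero_iff] at h3
      rw [h3, zero_div, mul_zero]
    · have h4 : (vonMangoldt n : ℂ) ≠ 0 := by exact_mod_cast h2.ne'
      field_simp
  have hbp : ∀ p : ℕ, p.Prime → b p = aL ψ p := fun p hp => by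
    rw [hb]
    beta_reduce
    rw [Bk_prime hD hP H hp, ArithmeticFunction.vonMangoldt_apply_prime hp]
    have h1 : (Real.log p : ℂ) ≠ 0 := by
      exact_mod_cast (Real.log_pos (by exact_mod_cast hp.one_lt)).ne'
    field_simp
  have hlim : Tendsto (fun x : ℝ => (∑ n ∈ Icc 1 ⌊x⌋₊, Bk ψ n) / (x : ℂ)) atTop
      (𝓝 (mv M Ψ)) := by
    have h1 := lim_np b 2 hb2
    have h2 := lim_class hF hP hL hN hM hper h0
    have h3 := lim_diff hM (a := aL ψ) (b := aL Ψ) heq
    have h4 := (h1.add h3).add h2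
    rw [zero_add, zero_add] at h4
    refine h4.congr fun x => ?_
    have h5 : SPr b x = SPr (aL ψ) x := by
      unfold SPr
      refine sum_congr rfl fun n hn => ?_
      rw [hbp n (mem_filter.1 hn).2]
    have h6 : ∑ n ∈ Icc 1 ⌊x⌋₊, Bk ψ n = ∑ n ∈ Icc 1 ⌊x⌋₊, (vonMangoldt n : ℂ) * b n :=
      sum_congr rfl fun n _ => (hbB n).symm
    rw [h5, h6]
    ring
  obtain ⟨C, hC, hball⟩ := ball_card_le hD
  have hu : (1 : ℝ) ≤ uc t c := by exact_mod_cast uc_pos hD
  have hrr : ∀ n : ℕ, ∑ k ∈ Icc 1 n, rr t c k ≤ max C 2 * n := by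
    intro n
    rw [sum_rr hD]
    have h3 : ((ball t c (n : ℝ)).card : ℝ) / (uc t c : ℝ) ≤ ((ball t c (n : ℝ)).card : ℝ) :=
      div_le_self (Nat.cast_nonneg _) hu
    have h4 : C * n ≤ max C 2 * n :=
      mul_le_mul_of_nonneg_right (le_max_left _ _) (Nat.cast_nonneg _)
    linarith [hball n]
  have key : Tendsto (fun x : ℝ => (∑ n ∈ Icc 1 ⌊x⌋₊, aL ψ n) / (x : ℂ)) atTop (𝓝 0) := by
    refine Pool.Agent.W973.EX.amv Pool.Agent.W583.EX.amv1 (aL ψ) (Bk ψ) (rr t c) (max C 2)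
      (mv M Ψ) ?_
    refine ⟨?_, ?_, ?_, ?_, hlim, hκ⟩
    · intro n
      exact aL_le hD H.le n
    · exact hrr
    · intro n
      exact (Bk_le' hD hP H n).trans (mul_le_mul_of_nonneg_right (le_max_right _ _)
        ArithmeticFunction.vonMangoldt_nonneg)
    · intro n hn
      exact log_id' hD hP H (by omega)
  have e1 := key.eventually (Metric.ball_mem_nhds 0
    (show (0 : ℝ) < ε / uc t c by positivity))
  obtain ⟨X₁, hX₁⟩ := Filter.eventually_atTop.1 e1
  refine ⟨max X₁ 1, fun X hX => ?_⟩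
  have hXp : 0 < X := lt_of_lt_of_le one_pos ((le_max_right _ _).trans hX)
  have h3 := hX₁ X ((le_max_left _ _).trans hX)
  rw [dist_zero_right, norm_div, Complex.norm_real, Real.norm_eq_abs, abs_of_pos hXp,
    div_lt_iff₀ hXp] at h3
  rw [sum_ball hD]
  have e4 : ∀ k ∈ Icc 1 ⌊X⌋₊, ∑ z ∈ (ball t c (k : ℝ)).filter (fun z => nm z = k), ψ z =
      (uc t c : ℂ) * aL ψ k := by
    intro k _
    have huc : (uc t c : ℂ) ≠ 0 := by exact_mod_cast (uc_pos hD).ne'
    unfold aL
    field_simp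
  rw [Finset.sum_congr rfl e4, ← Finset.mul_sum, norm_mul, Complex.norm_natCast]
  have h4 : (uc t c : ℝ) * ‖∑ k ∈ Icc 1 ⌊X⌋₊, aL ψ k‖ ≤ (uc t c : ℝ) * (ε / uc t c * X) :=
    mul_le_mul_of_nonneg_left h3.le hucp.le
  refine h4.trans (le_of_eq ?_)
  field_simp

open scoped Classical in
/-- aperiodicity of functions given by residue classes at the prime elements -/
theorem apdR {f : ℕ} {χ : DirichletCharacter ℂ f} (hF : Fd t c f χ) (hP : S_PID t c)
    (hL : S_LCON t c) (hN : S_LNV t c) {N : ℕ} {F : Qd t c → ℂ} (hc : Cm N F)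
    (hu : ∀ u z : Qd t c, nm u = 1 → F (u * z) = F z) {m : ℕ} (hm : 1 ≤ m) {E : Qd t c → ℂ}
    (hper : PerM m E) (hval : ∀ z : Qd t c, (nm z).Prime → ¬ nm z ∣ m → F z = E z)
    (hne : ∃ z w : Qd t c, IsCoprime z (m : Qd t c) ∧ IsCoprime w (m : Qd t c) ∧
      E (z * w) ≠ E z * E w) : Apd N F := by
  have hD : t ^ 2 < 4 * c := by
    have h1 := hF.disc
    have h2 : (3 : ℤ) ≤ f := by exact_mod_cast hF.three
    linarith
  have hnrm : ∀ z, ‖F z‖ = 1 := fun z =>
    Complex.norm_eq_one_of_pow_eq_one (hc.pow z) (by have := hc.pos; omega)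
  have hone : F 1 = 1 := by
    have := isDomain hD
    have h1 := hc.mul 1 1 one_ne_zero one_ne_zero
    rw [mul_one] at h1
    have h2 : F 1 ≠ 0 := by
      intro h
      have := hnrm 1
      rw [h, norm_zero] at this
      exact zero_ne_one this
    exact (mul_right_cancel₀ h2 ((one_mul _).trans h1)).symm
  refine ⟨hc, Pool.Agent.W738.EG.main hD hP ⟨hc.mul, hnrm, fun u z h => hu u z h, ?_⟩⟩
  intro M φ hM hφ ε hε
  have hphi := phi_le hM hφ
  have H : Mr (fun z => F z * φ z) := by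
    refine ⟨?_, ?_, ?_, ?_⟩
    · intro z w hz hw
      show F (z * w) * φ (z * w) = F z * φ z * (F w * φ w)
      rw [hc.mul z w hz hw, hφ.mul]
      ring
    · show F 1 * φ 1 = 1
      rw [hone, hφ.one, one_mul]
    · intro u hu1
      show F u * φ u = 1
      have h1 := hu u 1 hu1
      rw [mul_one, hone] at h1
      rw [h1, hφ.unit u hu1, one_mul]
    · intro z
      rw [norm_mul, hnrm, one_mul]
      exact hphi z
  -- the absolute value of `E`
  have hE1 : ∀ z : Qd t c, IsCoprime z (m : Qd t c) → ‖E z‖ = 1 := by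
    intro z hz
    obtain ⟨w, hw1, hw2, hw3⟩ := exists_prime hF hP hL hN hm hz m
    rw [← hper w z hw3, ← hval w hw1 (fun hd => by
      have := Nat.le_of_dvd (by omega) hd
      omega)]
    exact hnrm _
  obtain ⟨M', hM'⟩ : ∃ M' : ℕ, M' = M * m := ⟨_, rfl⟩
  have hM'1 : 1 ≤ M' := by rw [hM']; exact Nat.mul_pos hM hm
  have hcM : ∀ z : Qd t c, IsCoprime z (M' : Qd t c) → IsCoprime z (M : Qd t c) := by
    intro z hz
    refine hz.of_isCoprime_of_dvd_right ?_
    rw [hM']
    push_cast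
    exact dvd_mul_right _ _
  have hcm : ∀ z : Qd t c, IsCoprime z (M' : Qd t c) → IsCoprime z (m : Qd t c) := by
    intro z hz
    refine hz.of_isCoprime_of_dvd_right ?_
    rw [hM']
    push_cast
    exact dvd_mul_left _ _
  have hredm : ∀ z w : Qd t c, red t c M' z = red t c M' w → red t c m z = red t c m w := by
    intro z w hzw
    rw [red_eq] at hzw ⊢
    have : (m : ℤ) ∣ M' := by rw [hM']; push_cast; exact dvd_mul_left _ _
    exact ⟨this.trans hzw.1, this.trans hzw.2⟩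
  have hredM : ∀ z w : Qd t c, red t c M' z = red t c M' w → φ z = φ w := by
    intro z w hzw
    rw [red_eq] at hzw
    have : (M : ℤ) ∣ M' := by rw [hM']; push_cast; exact dvd_mul_right _ _
    exact hφ.per z w (this.trans hzw.1) (this.trans hzw.2)
  obtain ⟨Ψ, hΨ⟩ : ∃ Ψ : Qd t c → ℂ, Ψ = fun z => if IsCoprime z (M' : Qd t c) then E z * φ z
      else 0 := ⟨_, rfl⟩
  have hΨper : PerM M' Ψ := by
    intro z w hzw
    rw [hΨ]
    simp only
    have h1 : IsCoprime z (M' : Qd t c) ↔ IsCoprime w (M' : Qd t c) := by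
      rw [← isUnit_red, ← isUnit_red, hzw]
    rw [hper z w (hredm z w hzw), hredM z w hzw]
    simp only [h1]
  have hΨ0 : ∀ z : Qd t c, ¬ IsCoprime z (M' : Qd t c) → Ψ z = 0 := by
    intro z hz
    rw [hΨ]
    simp only
    rw [if_neg hz]
  have hΨ1 : ∀ z, ‖Ψ z‖ ≤ 1 := by
    intro z
    rw [hΨ]
    simp only
    split_ifs with hz
    · rw [norm_mul, hE1 z (hcm z hz), one_mul]
      exact hphi z
    · rw [norm_zero]; exact zero_le_one
  -- `Ψ` is not constant
  have hΨne : ∃ z₀ : Qd t c, IsCoprime z₀ (M' : Qd t c) ∧ Ψ z₀ ≠ 1 := by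
    by_contra hcon
    push Not at hcon
    obtain ⟨z, w, hz, hw, hzw⟩ := hne
    obtain ⟨z', hz1, hz2, hz3⟩ := exists_prime hF hP hL hN hm hz M'
    obtain ⟨w', hw1, hw2, hw3⟩ := exists_prime hF hP hL hN hm hw M'
    have hcz : IsCoprime z' (M' : Qd t c) := coprime_of_prime hD hz1 rfl (fun hd => by
      have := Nat.le_of_dvd (by omega) hd
      omega)
    have hcw : IsCoprime w' (M' : Qd t c) := coprime_of_prime hD hw1 rfl (fun hd => by
      have := Nat.le_of_dvd (by omega) hd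
      omega)
    have e1 := hcon z' hcz
    have e2 := hcon w' hcw
    have e3 := hcon (z' * w') (hcz.mul_left hcw)
    rw [hΨ] at e1 e2 e3
    simp only at e1 e2 e3
    rw [if_pos hcz] at e1
    rw [if_pos hcw] at e2
    rw [if_pos (hcz.mul_left hcw), hφ.mul] at e3
    apply hzw
    have h1 : E (z * w) = E (z' * w') := hper _ _ (by rw [map_mul, map_mul, hz3, hw3])
    have h2 : E z = E z' := hper _ _ hz3.symm
    have h3 : E w = E w' := hper _ _ hw3.symm
    rw [h1, h2, h3]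
    have n1 : φ z' ≠ 0 := (hφ.ne z').2 (hcM z' hcz)
    have n2 : φ w' ≠ 0 := (hφ.ne w').2 (hcM w' hcw)
    have h4 : E (z' * w') * (φ z' * φ w') = E z' * E w' * (φ z' * φ w') := by
      rw [e3]
      calc (1 : ℂ) = (E z' * φ z') * (E w' * φ w') := by rw [e1, e2, one_mul]
        _ = E z' * E w' * (φ z' * φ w') := by ring
    exact mul_right_cancel₀ (mul_ne_zero n1 n2) h4
  obtain ⟨z₀, hz₀, hz₁⟩ := hΨne
  have hκ := mv_re_lt hM'1 hΨper hΨ1 hz₀ hz₁
  refine mr_mean2 hF hP hL hN H hM'1 hΨper hΨ0 ?_ hκ ε hε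
  intro p hp hpM
  unfold aL
  congr 1
  refine sum_congr rfl fun z hz => ?_
  have hz2 := (mem_filter.1 hz).2
  have hcz : IsCoprime z (M' : Qd t c) := coprime_of_prime hD hp hz2 hpM
  rw [hΨ]
  simp only
  rw [if_pos hcz, hval z (by rw [hz2]; exact hp) (by
    rw [hz2]
    intro hd
    exact hpM (hd.trans (by rw [hM']; exact dvd_mul_left _ _)))]

end Pool.Agent.V11296.CZ
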