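import Pool.Agent.V11296.CY4

/-!
From pairs of elements of determinant `1` to the factorisations `d d' = n^2 + t n + c` (helper296),
part 2: it is enough that one of the two functions is aperiodic.
-/

set_option autoImplicit false

namespace Pool.Agent.V11296.CZ

open Finset Filter Topology
open Pool.Agent.W78.GA
open Pool.Agent.W251.GX (Cm)
open Pool.Agent.W78.EG
open Pool.Agent.W251.EG
open Pool.Agent.W334.EG (hD_of nmne norm_one_of RR RR_rel CC CC_iff SP_swap Win mem_Win finyw SW_eq)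
open Pool.Agent.V11296.CY (PhR PhR_eq PhR_le twR)

variable {t c : ℤ} {f : ℕ} {χ : DirichletCharacter ℂ f}

theorem star_mul_ex (v w : Qd t c) : (star v * w).re = ip v w ∧ (star v * w).im = dt v w := by
  unfold ip dt
  constructor
  · simp only [QuadraticAlgebra.re_mul, QuadraticAlgebra.re_star, QuadraticAlgebra.im_star]
    ring
  · simp only [QuadraticAlgebra.im_mul, QuadraticAlgebra.re_star, QuadraticAlgebra.im_star]
    ring

theorem dt_star (v w : Qd t c) : dt (star w) (star v) = dt v w := by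
  have h1 := (star_mul_ex (star w) (star v)).2
  have h2 := (star_mul_ex v w).2
  rw [star_star, mul_comm] at h1
  rw [← h1, ← h2]

theorem ip_star (v w : Qd t c) : ip (star w) (star v) = ip v w := by
  have h1 := (star_mul_ex (star w) (star v)).1
  have h2 := (star_mul_ex v w).1
  rw [star_star, mul_comm] at h1
  rw [← h1, ← h2]

theorem PhR_swap (hF : Fd t c f χ) {F₁ F₂ : Qd t c → ℂ}
    (hu₁ : ∀ u z : Qd t c, nm u = 1 → F₁ (u * z) = F₁ z)
    (hu₂ : ∀ u z : Qd t c, nm u = 1 → F₂ (u * z) = F₂ z) (x y : ℕ) :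
    PhR (fun z => F₂ (star z)) (fun z => F₁ (star z)) y x = PhR F₁ F₂ x y := by
  have hv₁ : ∀ u z : Qd t c, nm u = 1 → (fun z => F₁ (star z)) (u * z) = (fun z => F₁ (star z)) z :=
    fun u z hu => by
      show F₁ (star (u * z)) = F₁ (star z)
      rw [star_mul', hu₁ _ _ (by rw [nm_star, hu])]
  have hv₂ : ∀ u z : Qd t c, nm u = 1 → (fun z => F₂ (star z)) (u * z) = (fun z => F₂ (star z)) z :=
    fun u z hu => by
      show F₂ (star (u * z)) = F₂ (star z)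
      rw [star_mul', hu₂ _ _ (by rw [nm_star, hu])]
  by_cases h : ∃ e : Qd t c × Qd t c, nm e.1 = x ∧ nm e.2 = y ∧ dt e.1 e.2 = 1 ∧
      0 < pp e.1 e.2
  · obtain ⟨⟨v, w⟩, h1, h2, h3, h4⟩ := h
    dsimp only at h1 h2 h3 h4
    have e1 := PhR_eq hF hu₁ hu₂ h3 h4
    have h3' : dt (star w) (star v) = 1 := by rw [dt_star]; exact h3
    have h4' : 0 < pp (star w) (star v) := by
      unfold pp at h4 ⊢
      rw [dt_star, ip_star]
      exact h4
    have e2 := PhR_eq (F₁ := fun z => F₂ (star z)) (F₂ := fun z => F₁ (star z)) hF hv₂ hv₁ h3' h4'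
    rw [nm_star, nm_star, h1, h2] at e2
    rw [h1, h2] at e1
    rw [e1, e2]
    show F₂ (star (star w)) * F₁ (star (star v)) = F₁ v * F₂ w
    rw [star_star, star_star, mul_comm]
  · have h' : ¬ ∃ e : Qd t c × Qd t c, nm e.1 = y ∧ nm e.2 = x ∧ dt e.1 e.2 = 1 ∧
        0 < pp e.1 e.2 := by
      rintro ⟨⟨v, w⟩, h1, h2, h3, h4⟩
      dsimp only at h1 h2 h3 h4
      apply h
      refine ⟨(star w, star v), ?_, ?_, ?_, ?_⟩
      · show nm (star w) = x
        rw [nm_star, h2]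
      · show nm (star v) = y
        rw [nm_star, h1]
      · show dt (star w) (star v) = 1
        rw [dt_star, h3]
      · show 0 < pp (star w) (star v)
        unfold pp at h4 ⊢
        rw [dt_star, ip_star]
        exact h4
    unfold PhR
    rw [dif_neg h, dif_neg h']

open scoped Classical in
/-- cancellation over the pairs in windows, at almost all scales -/
theorem twR' (hF : Fd t c f χ) {N : ℕ} {τ : ℂ} {F₁ F₂ : Qd t c → ℂ} (hpr : Pr N τ F₁ F₂)
    (hu₁ : ∀ u z : Qd t c, nm u = 1 → F₁ (u * z) = F₁ z)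
    (hu₂ : ∀ u z : Qd t c, nm u = 1 → F₂ (u * z) = F₂ z)
    (hab : Apd N (fun z => F₁ (star z)) ∨ Apd N F₂) (q a r : ℕ) (hq : 1 ≤ q)
    (s₁ s₂ s₃ s₄ : ℝ) (hs1 : 0 ≤ s₁) (hs12 : s₁ < s₂)
    (hs2 : s₂ ≤ 1) (hs3 : 0 ≤ s₃) (hs34 : s₃ < s₄) (hs4 : s₄ ≤ 1) (ε : ℝ) (hε : 0 < ε) :
    ∃ N₀ : ℕ, ∀ N' : ℕ, N₀ ≤ N' → ∑ X ∈ Icc 1 N', 1 / (X : ℝ) ^ 2 *
      ‖∑ p ∈ SW t c q a r s₁ s₂ s₃ s₄ X, PhR F₁ F₂ p.1 p.2‖ ≤ ε * Real.log N' := by
  rcases hab with ha | ha
  swap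
  · exact twR hF hpr hu₁ hu₂ ha q a r hq s₁ s₂ s₃ s₄ hs1 hs12 hs2 hs3 hs34 hs4 ε hε
  have hD := hD_of hF
  have n₁ : ∀ z, ‖F₁ z‖ = 1 := fun z => norm_one_of N (F₁ z) hpr.cm₁.pos (hpr.cm₁.pow z)
  have n₂ : ∀ z, ‖F₂ z‖ = 1 := fun z => norm_one_of N (F₂ z) hpr.cm₂.pos (hpr.cm₂.pow z)
  have hsne : ∀ z : Qd t c, z ≠ 0 → star z ≠ 0 := fun z hz h => hz (by
    rw [← star_star z, h, star_zero])
  obtain ⟨G₁, hG₁⟩ : ∃ G₁ : Qd t c → ℂ, G₁ = fun z => F₂ (star z) := ⟨_, rfl⟩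
  obtain ⟨G₂, hG₂⟩ : ∃ G₂ : Qd t c → ℂ, G₂ = fun z => F₁ (star z) := ⟨_, rfl⟩
  have hg₁ : ∀ u z : Qd t c, nm u = 1 → G₁ (u * z) = G₁ z := fun u z hu => by
    rw [hG₁]
    beta_reduce
    rw [star_mul', hu₂ _ _ (by rw [nm_star, hu])]
  have hg₂ : ∀ u z : Qd t c, nm u = 1 → G₂ (u * z) = G₂ z := fun u z hu => by
    rw [hG₂]
    beta_reduce
    rw [star_mul', hu₁ _ _ (by rw [nm_star, hu])]
  have hprs : Pr N τ G₁ G₂ := by
    refine ⟨⟨hpr.cm₂.pos, ?_, ?_⟩, ⟨hpr.cm₁.pos, ?_, ?_⟩, ?_⟩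
    · intro z w hz hw
      rw [hG₁]
      beta_reduce
      rw [star_mul', hpr.cm₂.mul _ _ (hsne z hz) (hsne w hw)]
    · intro z
      rw [hG₁]
      exact hpr.cm₂.pow _
    · intro z w hz hw
      rw [hG₂]
      beta_reduce
      rw [star_mul', hpr.cm₁.mul _ _ (hsne z hz) (hsne w hw)]
    · intro z
      rw [hG₂]
      exact hpr.cm₁.pow _
    · intro π hπ
      rw [hG₁, hG₂]
      beta_reduce
      rw [mul_comm]
      exact hpr.tw (star π) (by rw [nm_star]; exact hπ)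
  rw [← hG₂] at ha
  have k₁ : ∀ z, ‖G₁ z‖ = 1 := fun z => by rw [hG₁]; exact n₂ _
  have k₂ : ∀ z, ‖G₂ z‖ = 1 := fun z => by rw [hG₂]; exact n₁ _
  obtain ⟨N₀, hN₀⟩ := finyw hD (corrG hF) (scntG hF)
      (fun x y => if CC t c q a r true x y then PhR G₁ G₂ x y else 0) (by
        intro x y
        show ‖if CC t c q a r true x y then _ else (0 : ℂ)‖ ≤ 1
        split_ifs
        · exact PhR_le k₁ k₂ x y
        · simp) s₃ s₄ s₁ s₂ hs3 hs34 hs1 hs12 (by
        intro σ₁ σ₃ hσ1 hσ12 hσ3 hσ34 ε hε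
        obtain ⟨N₀, hN₀⟩ := mainyG hF N τ G₁ G₂ hprs q hq (fun β => btaG hF N G₂ ha q β hq)
          (RR q a r true) (RR_rel hD q a r true) σ₁ s₄ σ₃ s₂ hσ1 hσ12 hs4 hσ3 hσ34 hs2 ε hε
        refine ⟨N₀, fun N' hN => ?_⟩
        have hthis := hN₀ N' hN
        refine le_trans (le_of_eq (sum_congr rfl fun X _ => ?_)) hthis
        congr 2
        unfold AG
        refine sum_congr rfl fun e he => ?_
        rw [mem_filter] at he
        have hdt : dt e.1 e.2 = 1 := by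
          have h3 := he.1
          unfold dedge at h3
          exact (mem_filter.1 h3).2
        unfold g2
        beta_reduce
        have hiff := CC_iff hF q a r true e.1 e.2 hdt he.2.1
        by_cases hc : CC t c q a r true (nm e.1) (nm e.2)
        · rw [if_pos hc, if_pos (hiff.1 hc), PhR_eq hF hg₁ hg₂ hdt he.2.1]
        · rw [if_neg hc, if_neg (fun h => hc (hiff.2 h))]) ε hε
  refine ⟨N₀, fun N' hN => le_trans (le_of_eq (sum_congr rfl fun X _ => ?_)) (hN₀ N' hN)⟩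
  congr 2
  rw [SW_eq, sum_filter]
  refine sum_nbij' Prod.swap Prod.swap ?_ ?_ (fun p _ => Prod.swap_swap p)
    (fun p _ => Prod.swap_swap p) fun p hp => ?_
  · intro p hp
    rw [mem_Win] at hp ⊢
    exact ⟨SP_swap hp.1, hp.2.2.2.1, hp.2.2.2.2, hp.2.1, hp.2.2.1⟩
  · intro p hp
    rw [mem_Win] at hp ⊢
    exact ⟨SP_swap hp.1, hp.2.2.2.1, hp.2.2.2.2, hp.2.1, hp.2.2.1⟩
  have hiff : CC t c q a r true p.swap.1 p.swap.2 ↔ Cd t c q a r p := by
    unfold CC Cd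
    simp only [if_true, Prod.fst_swap, Prod.snd_swap]
    constructor
    · rintro ⟨n, h0, h3, h4, h5⟩
      exact ⟨n, h0, by rw [mul_comm]; exact h3, h4, h5⟩
    · rintro ⟨n, h0, h3, h4, h5⟩
      exact ⟨n, h0, by rw [mul_comm]; exact h3, h4, h5⟩
  by_cases hc : CC t c q a r true p.swap.1 p.swap.2
  · rw [if_pos (hiff.1 hc), if_pos hc, Prod.fst_swap, Prod.snd_swap, hG₁, hG₂,
      PhR_swap hF hu₁ hu₂]
  · rw [if_neg (fun h => hc (hiff.2 h)), if_neg hc]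

end Pool.Agent.V11296.CZ
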