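import Pool.Agent.V11296.CY9
import Pool.Agent.V11296.CZ1
import Pool.Agent.V11296.CZ2

/-!
The residue classes of the prime elements above the prime factors of `n^2 + t n + c` which divide
`n + ω` (helper296): the values of additive functions.
-/

set_option autoImplicit false

namespace Pool.Agent.V11296.CZ

open Finset Filter Topology
open Pool.Agent.W78.GA
open Pool.Agent.W357.EG (isDomain isUnit_iff nm_assoc)
open Pool.Agent.W251.GX (Cm)
open Pool.Agent.W78.EG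
open Pool.Agent.W251.EG
open Pool.Agent.W738.EG (red red_eq PerM)
open Pool.Agent.TH890.DV (LogNull LogNull.of_ev)
open Pool.Agent.V11296.CV (Df copr exists_defect chpow chnrm Ez Ez_mul prime_above)
open Pool.Agent.V11296.CW (Dt df_le tau_mem)
open Pool.Agent.V11296.CY

variable {A : Type} [AddCommGroup A]

/-- functions of the residue classes modulo `m`, invariant under the units -/
structure Rc (t c m : ℕ) (E : ℤ → ℤ → A) : Prop where
  pos : 1 ≤ m
  per : ∀ x y u v : ℤ, x ≡ u [ZMOD m] → y ≡ v [ZMOD m] → E x y = E u v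
  unit : ∀ a b x y : ℤ, a ^ 2 + t * a * b + c * b ^ 2 = 1 →
    E (a * x - c * b * y) (a * y + b * x + t * b * y) = E x y

/-- the sum over the prime factors, with multiplicity -/
def LS (g : ℕ → A) (N : ℕ) : A := (N.primeFactorsList.map g).sum

theorem LS_mul (g : ℕ → A) {x y : ℕ} (hx : x ≠ 0) (hy : y ≠ 0) : LS g (x * y) = LS g x + LS g y := by
  unfold LS
  rw [((Nat.perm_primeFactorsList_mul hx hy).map g).sum_eq, List.map_append, List.sum_append]

theorem LS_one (g : ℕ → A) : LS g 1 = 0 := by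
  unfold LS
  rw [Nat.primeFactorsList_one, List.map_nil, List.sum_nil]

theorem LS_prime (g : ℕ → A) {p : ℕ} (hp : p.Prime) : LS g p = g p := by
  unfold LS
  rw [Nat.primeFactorsList_prime hp, List.map_cons, List.map_nil, List.sum_singleton]

/-- `x + y ω` has norm `l` and divides `n + ω` -/
def Ab (t c n l : ℕ) (z : ℤ × ℤ) : Prop :=
  z.1 ^ 2 + t * z.1 * z.2 + c * z.2 ^ 2 = l ∧ (l : ℤ) ∣ z.1 - n * z.2

open scoped Classical in
/-- the value of `E` at the prime elements of norm `l` which divide `n + ω` -/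
noncomputable def vl (t c : ℕ) (E : ℤ → ℤ → A) (n l : ℕ) : A :=
  if h : ∃ z : ℤ × ℤ, Ab t c n l z then E h.choose.1 h.choose.2 else 0

open scoped Classical in
/-- the value of `E` at the conjugates of the prime elements of norm `l` which divide `n + ω` -/
noncomputable def vc (t c : ℕ) (E : ℤ → ℤ → A) (n l : ℕ) : A :=
  if h : ∃ z : ℤ × ℤ, Ab t c n l z then E (h.choose.1 + t * h.choose.2) (-h.choose.2) else 0

section

variable {t c : ℕ} {f : ℕ} {χ : DirichletCharacter ℂ f} {m : ℕ} {E : ℤ → ℤ → A} {τ : A}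

/-- the value at an element -/
def ev (E : ℤ → ℤ → A) (z : Qd (t : ℤ) (c : ℤ)) : A := E z.re z.im

theorem ev_unit (h : Rc t c m E) (hD : (t : ℤ) ^ 2 < 4 * (c : ℤ)) {u : Qd (t : ℤ) (c : ℤ)}
    (hu : nm u = 1) (z : Qd (t : ℤ) (c : ℤ)) : ev E (u * z) = ev E z := by
  have h1 := nm_cast hD u
  rw [hu] at h1
  have h2 := h.unit u.re u.im z.re z.im (by rw [← h1]; norm_num)
  have e1 : (u * z).re = u.re * z.re - c * u.im * z.im := by
    rw [QuadraticAlgebra.re_mul]
    ring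
  have e2 : (u * z).im = u.re * z.im + u.im * z.re + t * u.im * z.im := by
    rw [QuadraticAlgebra.im_mul]
  unfold ev
  rw [e1, e2, h2]

theorem ev_assoc (h : Rc t c m E) (hD : (t : ℤ) ^ 2 < 4 * (c : ℤ)) (a b : Qd (t : ℤ) (c : ℤ))
    (hab : Associated a b) : ev E a = ev E b := by
  obtain ⟨u, rfl⟩ := hab
  rw [mul_comm, ev_unit h hD ((isUnit_iff hD).1 u.isUnit)]

/-- two prime elements above `l` which divide `n + ω` -/
theorem ab_of (hD : (t : ℤ) ^ 2 < 4 * (c : ℤ)) {n : ℕ} {π : Qd (t : ℤ) (c : ℤ)}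
    (hd : π ∣ nw t c n) : Ab t c n (nm π) (π.re, π.im) := by
  refine ⟨(nm_cast hD π).symm, ?_⟩
  obtain ⟨w, hw⟩ := hd
  have h1 : nw t c n * star π = ((nm π : ℕ) : Qd (t : ℤ) (c : ℤ)) * w := by
    rw [← mul_star_self' hD, hw]
    ring
  have h2 := congrArg QuadraticAlgebra.im h1
  rw [QuadraticAlgebra.im_mul, QuadraticAlgebra.im_mul] at h2
  unfold nw at h2
  simp only [QuadraticAlgebra.re_star, QuadraticAlgebra.im_star, QuadraticAlgebra.re_natCast,
    QuadraticAlgebra.im_natCast] at h2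
  refine ⟨w.im, ?_⟩
  linear_combination h2

theorem ab_unique (hD : (t : ℤ) ^ 2 < 4 * (c : ℤ)) {n : ℕ} {π : Qd (t : ℤ) (c : ℤ)}
    (hπ : (nm π).Prime) (hd : π ∣ nw t c n) {z : ℤ × ℤ} (hz : Ab t c n (nm π) z) :
    ∃ u : Qd (t : ℤ) (c : ℤ), nm u = 1 ∧ (⟨z.1, z.2⟩ : Qd (t : ℤ) (c : ℤ)) = u * π := by
  obtain ⟨h1, s, hs⟩ := hz
  have h0 : π ∣ ((nm π : ℕ) : Qd (t : ℤ) (c : ℤ)) := by
    rw [← mul_star_self' hD]
    exact dvd_mul_right _ _
  have h2 : (⟨z.1, z.2⟩ : Qd (t : ℤ) (c : ℤ)) = ((z.2 : ℤ) : Qd (t : ℤ) (c : ℤ)) * nw t c n +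
      ((nm π : ℕ) : Qd (t : ℤ) (c : ℤ)) * ((s : ℤ) : Qd (t : ℤ) (c : ℤ)) := by
    unfold nw
    apply QuadraticAlgebra.ext
    · simp only [QuadraticAlgebra.re_add, QuadraticAlgebra.re_mul, QuadraticAlgebra.re_intCast,
        QuadraticAlgebra.im_intCast, QuadraticAlgebra.re_natCast, QuadraticAlgebra.im_natCast,
        Int.cast_id]
      linear_combination hs
    · simp only [QuadraticAlgebra.im_add, QuadraticAlgebra.im_mul, QuadraticAlgebra.re_intCast,
        QuadraticAlgebra.im_intCast, QuadraticAlgebra.re_natCast, QuadraticAlgebra.im_natCast,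
        Int.cast_id]
      ring
  have h3 : π ∣ (⟨z.1, z.2⟩ : Qd (t : ℤ) (c : ℤ)) := by
    rw [h2]
    exact dvd_add (hd.mul_left _) (h0.mul_right _)
  obtain ⟨u, hu⟩ := h3
  refine ⟨u, ?_, by rw [hu, mul_comm]⟩
  have h4 : nm (⟨z.1, z.2⟩ : Qd (t : ℤ) (c : ℤ)) = nm π := by
    have h5 : ((nm (⟨z.1, z.2⟩ : Qd (t : ℤ) (c : ℤ)) : ℕ) : ℤ) = ((nm π : ℕ) : ℤ) := by
      rw [nm_cast hD]
      exact h1
    exact_mod_cast h5
  rw [hu, nm_mul] at h4
  exact Nat.eq_of_mul_eq_mul_left hπ.pos (by rw [h4, mul_one])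

theorem vl_eq (h : Rc t c m E) (hD : (t : ℤ) ^ 2 < 4 * (c : ℤ)) {n : ℕ}
    {π : Qd (t : ℤ) (c : ℤ)} (hπ : (nm π).Prime) (hd : π ∣ nw t c n) :
    vl t c E n (nm π) = ev E π := by
  have hex : ∃ z : ℤ × ℤ, Ab t c n (nm π) z := ⟨_, ab_of hD hd⟩
  obtain ⟨u, hu, h1⟩ := ab_unique hD hπ hd hex.choose_spec
  unfold vl
  rw [dif_pos hex, ← ev_unit h hD hu π, ← h1]
  rfl

theorem vc_eq (h : Rc t c m E) (hD : (t : ℤ) ^ 2 < 4 * (c : ℤ)) {n : ℕ}
    {π : Qd (t : ℤ) (c : ℤ)} (hπ : (nm π).Prime) (hd : π ∣ nw t c n) :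
    vc t c E n (nm π) = ev E (star π) := by
  have hex : ∃ z : ℤ × ℤ, Ab t c n (nm π) z := ⟨_, ab_of hD hd⟩
  obtain ⟨u, hu, h1⟩ := ab_unique hD hπ hd hex.choose_spec
  have h2 : star (⟨hex.choose.1, hex.choose.2⟩ : Qd (t : ℤ) (c : ℤ)) = star u * star π := by
    rw [h1, star_mul']
  unfold vc
  rw [dif_pos hex, ← ev_unit h hD (u := star u) (by rw [nm_star, hu]) (star π), ← h2]
  unfold ev
  congr 1

/-- the values of `E` at the prime elements dividing `n + ω`, summed over the factors of `w` -/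
theorem sum₂ (hF : Fd (t : ℤ) (c : ℤ) f χ) (hP : S_PID (t : ℤ) (c : ℤ)) (h : Rc t c m E) (n : ℕ)
    {w : Qd (t : ℤ) (c : ℤ)} (hw : w ∣ nw t c n) :
    Hm (fun z : Qd (t : ℤ) (c : ℤ) => ev E z) w = LS (vl t c E n) (nm w) := by
  have hD := hDG hF
  have ha : ∀ a b : Qd (t : ℤ) (c : ℤ), Associated a b → (fun z => ev E z) a =
      (fun z => ev E z) b := ev_assoc h hD
  refine ind_nw hF (fun z => Hm (fun z : Qd (t : ℤ) (c : ℤ) => ev E z) z)
    (fun z => LS (vl t c E n) (nm z)) ?_ ?_ ?_ w hw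
  · intro u hu
    have h1 : Hm (fun z : Qd (t : ℤ) (c : ℤ) => ev E z) u = 0 := by
      have := Hm_unit hD ha hu 1
      rwa [mul_one, Hm_one hD ha] at this
    simp only [h1, hu, LS_one]
  · intro z w hz hw
    refine ⟨Hm_mul hD ha hP hz hw, ?_⟩
    beta_reduce
    rw [nm_mul, LS_mul _ (nm_pos hD hz).ne' (nm_pos hD hw).ne']
  · intro π hπ hd
    beta_reduce
    rw [Hm_prime hD ha (prime_of_nm hD hP hπ), LS_prime _ hπ, vl_eq h hD hπ hd]

theorem sum₁ (hF : Fd (t : ℤ) (c : ℤ) f χ) (hP : S_PID (t : ℤ) (c : ℤ)) (h : Rc t c m E) (τ : A)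
    (n : ℕ) {w : Qd (t : ℤ) (c : ℤ)} (hw : w ∣ nw t c n) :
    Hm (fun z : Qd (t : ℤ) (c : ℤ) => τ - ev E z) (star w) =
      LS (fun l => τ - vc t c E n l) (nm w) := by
  have hD := hDG hF
  have ha : ∀ a b : Qd (t : ℤ) (c : ℤ), Associated a b → (fun z => τ - ev E z) a =
      (fun z => τ - ev E z) b := fun a b hab => by
    show τ - ev E a = τ - ev E b
    rw [ev_assoc h hD a b hab]
  refine ind_nw hF (fun z => Hm (fun z : Qd (t : ℤ) (c : ℤ) => τ - ev E z) (star z))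
    (fun z => LS (fun l => τ - vc t c E n l) (nm z)) ?_ ?_ ?_ w hw
  · intro u hu
    have hus : nm (star u) = 1 := by rw [nm_star, hu]
    have h1 : Hm (fun z : Qd (t : ℤ) (c : ℤ) => τ - ev E z) (star u) = 0 := by
      have := Hm_unit hD ha hus 1
      rwa [mul_one, Hm_one hD ha] at this
    simp only [h1, hu, LS_one]
  · intro z w hz hw
    have hzs : star z ≠ 0 := fun h => hz (by rw [← star_star z, h, star_zero])
    have hws : star w ≠ 0 := fun h => hw (by rw [← star_star w, h, star_zero])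
    refine ⟨?_, ?_⟩
    · beta_reduce
      rw [star_mul', Hm_mul hD ha hP hzs hws]
    · beta_reduce
      rw [nm_mul, LS_mul _ (nm_pos hD hz).ne' (nm_pos hD hw).ne']
  · intro π hπ hd
    beta_reduce
    have hπs : (nm (star π)).Prime := by rw [nm_star]; exact hπ
    rw [Hm_prime hD ha (prime_of_nm hD hP hπs), LS_prime _ hπ]
    beta_reduce
    rw [vc_eq h hD hπ hd]

/-- the values at the factorisations -/
noncomputable def HC (t c : ℕ) (E : ℤ → ℤ → A) (τ : A) (p : ℕ × ℕ) : A :=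
  LS (fun l => τ - vc t c E (nn c p) l) p.1 + LS (vl t c E (nn c p)) p.2

/-- the pair of elements above a factorisation -/
theorem pair_of (hF : Fd (t : ℤ) (c : ℤ) f χ) (hP : S_PID (t : ℤ) (c : ℤ)) (h : Rc t c m E)
    (τ : A) {n d e : ℕ} (hd : 1 ≤ d) (hn : 1 ≤ n + t) (hde : d * e = n ^ 2 + t * n + c) :
    ∃ v w : Qd (t : ℤ) (c : ℤ), nm v = d ∧ nm w = e ∧ dt v w = 1 ∧ 0 < pp v w ∧
      star v * w = nw t c n ∧
      HC t c E τ (d, e) = Hm (fun z : Qd (t : ℤ) (c : ℤ) => τ - ev E z) v +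
        Hm (fun z : Qd (t : ℤ) (c : ℤ) => ev E z) w := by
  have h4' : (d * e : ℤ) = (n : ℤ) ^ 2 + t * n + c := by exact_mod_cast hde
  obtain ⟨v, w, e1, e2, e3, e4⟩ := Pool.Agent.W748.EG.exists_pair hF n d e hd h4'
  have hpp : 0 < pp v w := by
    unfold pp
    rw [e3, e4]
    have : (1 : ℤ) ≤ (n : ℤ) + t := by exact_mod_cast hn
    have : (0 : ℤ) ≤ (n : ℤ) := Nat.cast_nonneg n
    omega
  have h6 : star v * w = nw t c n := by
    rw [star_mul_eq, e3, e4]
    rfl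
  have hv : star v ∣ nw t c n := by rw [← h6]; exact dvd_mul_right _ _
  have hw : w ∣ nw t c n := by rw [← h6]; exact dvd_mul_left _ _
  refine ⟨v, w, e1, e2, e3, hpp, h6, ?_⟩
  have g1 := sum₁ hF hP h τ n hv
  have g2 := sum₂ hF hP h n hw
  rw [star_star, nm_star, e1] at g1
  rw [e2] at g2
  unfold HC
  rw [nn_eq (p := (d, e)) (t_le hF) hde, g1, g2]

/-- membership in the subgroup -/
theorem ind_prim (hF : Fd (t : ℤ) (c : ℤ) f χ) {n : ℕ} (P : Qd (t : ℤ) (c : ℤ) → Prop)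
    (hu : ∀ u : Qd (t : ℤ) (c : ℤ), nm u = 1 → P u)
    (hm : ∀ π w : Qd (t : ℤ) (c : ℤ), (nm π).Prime → π * w ∣ nw t c n → P w → P (π * w)) :
    ∀ z : Qd (t : ℤ) (c : ℤ), z ∣ nw t c n → P z := by
  have hD := hDG hF
  have key : ∀ N : ℕ, ∀ z : Qd (t : ℤ) (c : ℤ), nm z = N → z ∣ nw t c n → P z := by
    intro N
    induction N using Nat.strong_induction_on with
    | _ N ih =>
      intro z hzN hz
      by_cases h1N : N = 1
      · exact hu z (by rw [hzN, h1N])
      · obtain ⟨p, hp1, hpd⟩ := Nat.exists_prime_and_dvd h1N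
        have hprim := prim_of_dvd_nw hz
        have hz0 : z ≠ 0 := prim_ne_zero hprim
        obtain ⟨π, w, h3, h4⟩ := prime_above hF hprim hp1 (by
          rw [hzN]
          exact hpd)
        have hw0 : w ≠ 0 := fun h => hz0 (by rw [h3, h, mul_zero])
        have h5 : nm w < N := by
          have h6 : nm π * nm w = N := by rw [← nm_mul, ← h3, hzN]
          have h7 := nm_pos hD hw0
          rw [← h6, h4]
          exact lt_mul_left h7 hp1.one_lt
        have hwd : w ∣ nw t c n := (dvd_mul_left w π).trans (by rw [← h3]; exact hz)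
        rw [h3]
        exact hm π w (by rw [h4]; exact hp1) (by rw [← h3]; exact hz) (ih (nm w) h5 w rfl hwd)
  exact fun z hz => key (nm z) z rfl hz

end

end Pool.Agent.V11296.CZ
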