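import Pool.Agent.V11296.CZ3

/-!
The residue classes of the prime elements above the prime factors of `n^2 + t n + c` which divide
`n + ω` (helper296), part 2: equidistribution over the factorisations in windows.
-/

set_option autoImplicit false

namespace Pool.Agent.V11296.CZ

open Finset Filter Topology
open Pool.Agent.W78.GA
open Pool.Agent.W357.EG (isDomain isUnit_iff nm_assoc)
open Pool.Agent.W251.GX (Cm)
open Pool.Agent.W78.EG
open Pool.Agent.W251.EG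
open Pool.Agent.W738.EG (red red_eq PerM)
open Pool.Agent.TH890.DV (LogNull LogNull.of_ev)
open Pool.Agent.V11296.CV (Df copr exists_defect chpow chnrm Ez Ez_mul prime_above)
open Pool.Agent.V11296.CW (Dt df_le tau_mem wd)
open Pool.Agent.V11296.CY

variable {A : Type} [AddCommGroup A]

section

variable {t c : ℕ} {f : ℕ} {χ : DirichletCharacter ℂ f} {m : ℕ} {E : ℤ → ℤ → A} {τ : A}

theorem one_mem : E 1 0 ∈ Df t c m E := by
  have h : E 1 0 + E 1 0 - E 1 0 ∈ Df t c m E := by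
    refine AddSubgroup.subset_closure ⟨1, 0, 1, 0, ?_, ?_, ?_⟩
    · have : (1 : ℤ) ^ 2 + t * 1 * 0 + c * 0 ^ 2 = 1 := by ring
      rw [this]
      exact isCoprime_one_left
    · have : (1 : ℤ) ^ 2 + t * 1 * 0 + c * 0 ^ 2 = 1 := by ring
      rw [this]
      exact isCoprime_one_left
    · have e1 : (1 : ℤ) * 1 - c * 0 * 0 = 1 := by ring
      have e2 : (1 : ℤ) * 0 + 0 * 1 + t * 0 * 0 = 0 := by ring
      rw [e1, e2]
  rwa [add_sub_cancel_right] at h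

theorem ev_mul (hD : (t : ℤ) ^ 2 < 4 * (c : ℤ)) (z w : Qd (t : ℤ) (c : ℤ))
    (hz : (nm z).Coprime m) (hw : (nm w).Coprime m) :
    ev E z + ev E w - ev E (z * w) ∈ Df t c m E := Ez_mul hD z w hz hw

theorem unit_mem (h : Rc t c m E) (hD : (t : ℤ) ^ 2 < 4 * (c : ℤ)) {u : Qd (t : ℤ) (c : ℤ)}
    (hu : nm u = 1) : ev E u ∈ Df t c m E := by
  have h1 := ev_unit h hD hu 1
  rw [mul_one] at h1
  rw [h1]
  exact one_mem

theorem ne_of_dvd {n : ℕ} {z w : Qd (t : ℤ) (c : ℤ)} (h : z * w ∣ nw t c n) : z ≠ 0 ∧ w ≠ 0 := by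
  have h0 := prim_ne_zero (prim_of_dvd_nw h)
  exact ⟨fun h1 => h0 (by rw [h1, zero_mul]), fun h1 => h0 (by rw [h1, mul_zero])⟩

theorem cop_of_dvd (hD : (t : ℤ) ^ 2 < 4 * (c : ℤ)) {n : ℕ}
    (hcop : (n ^ 2 + t * n + c).Coprime m) {z : Qd (t : ℤ) (c : ℤ)} (h : z ∣ nw t c n) :
    (nm z).Coprime m := by
  have h1 := nm_dvd h
  rw [nm_nw hD] at h1
  exact Nat.Coprime.coprime_dvd_left h1 hcop

theorem mem₂ (hF : Fd (t : ℤ) (c : ℤ) f χ) (hP : S_PID (t : ℤ) (c : ℤ)) (h : Rc t c m E) {n : ℕ}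
    (hcop : (n ^ 2 + t * n + c).Coprime m) {w : Qd (t : ℤ) (c : ℤ)} (hw : w ∣ nw t c n) :
    Hm (fun z : Qd (t : ℤ) (c : ℤ) => ev E z) w - ev E w ∈ Df t c m E := by
  have hD := hDG hF
  have ha : ∀ a b : Qd (t : ℤ) (c : ℤ), Associated a b → (fun z => ev E z) a =
      (fun z => ev E z) b := ev_assoc h hD
  refine ind_prim hF (fun w => Hm (fun z : Qd (t : ℤ) (c : ℤ) => ev E z) w - ev E w ∈
    Df t c m E) ?_ ?_ w hw
  · intro u hu
    have h1 : Hm (fun z : Qd (t : ℤ) (c : ℤ) => ev E z) u = 0 := by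
      have := Hm_unit hD ha hu 1
      rwa [mul_one, Hm_one hD ha] at this
    rw [h1, zero_sub]
    exact neg_mem (unit_mem h hD hu)
  · intro π w hπ hd hw
    obtain ⟨hπ0, hw0⟩ := ne_of_dvd hd
    have h1 := ev_mul (E := E) (m := m) hD π w
      (cop_of_dvd hD hcop ((dvd_mul_right π w).trans hd))
      (cop_of_dvd hD hcop ((dvd_mul_left w π).trans hd))
    rw [Hm_mul hD ha hP hπ0 hw0, Hm_prime hD ha (prime_of_nm hD hP hπ)]
    have h2 := add_mem hw h1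
    have h3 : Hm (fun z : Qd (t : ℤ) (c : ℤ) => ev E z) w - ev E w +
        (ev E π + ev E w - ev E (π * w)) =
        ev E π + Hm (fun z : Qd (t : ℤ) (c : ℤ) => ev E z) w - ev E (π * w) := by abel
    rwa [h3] at h2

theorem mem₁ (hF : Fd (t : ℤ) (c : ℤ) f χ) (hP : S_PID (t : ℤ) (c : ℤ)) (h : Rc t c m E) {n : ℕ}
    (hcop : (n ^ 2 + t * n + c).Coprime m) {w : Qd (t : ℤ) (c : ℤ)} (hw : w ∣ nw t c n) :
    Hm (fun z : Qd (t : ℤ) (c : ℤ) => τ - ev E z) (star w) + ev E (star w) ∈ Dt t c m E τ := by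
  have hD := hDG hF
  have ha : ∀ a b : Qd (t : ℤ) (c : ℤ), Associated a b → (fun z => τ - ev E z) a =
      (fun z => τ - ev E z) b := fun a b hab => by
    show τ - ev E a = τ - ev E b
    rw [ev_assoc h hD a b hab]
  refine ind_prim hF (fun w => Hm (fun z : Qd (t : ℤ) (c : ℤ) => τ - ev E z) (star w) +
    ev E (star w) ∈ Dt t c m E τ) ?_ ?_ w hw
  · intro u hu
    have hus : nm (star u) = 1 := by rw [nm_star, hu]
    have h1 : Hm (fun z : Qd (t : ℤ) (c : ℤ) => τ - ev E z) (star u) = 0 := by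
      have := Hm_unit hD ha hus 1
      rwa [mul_one, Hm_one hD ha] at this
    rw [h1, zero_add]
    exact df_le (unit_mem h hD hus)
  · intro π w hπ hd hw
    obtain ⟨hπ0, hw0⟩ := ne_of_dvd hd
    have hπs : star π ≠ 0 := fun h => hπ0 (by rw [← star_star π, h, star_zero])
    have hws : star w ≠ 0 := fun h => hw0 (by rw [← star_star w, h, star_zero])
    have hπp : (nm (star π)).Prime := by rw [nm_star]; exact hπ
    have h1 := ev_mul (E := E) (m := m) hD (star π) (star w)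
      (by rw [nm_star]; exact cop_of_dvd hD hcop ((dvd_mul_right π w).trans hd))
      (by rw [nm_star]; exact cop_of_dvd hD hcop ((dvd_mul_left w π).trans hd))
    rw [star_mul', Hm_mul hD ha hP hπs hws, Hm_prime hD ha (prime_of_nm hD hP hπp)]
    have h2 := add_mem (sub_mem hw (df_le (τ := τ) h1))
      (tau_mem (t := t) (c := c) (m := m) (E := E) (τ := τ))
    have h3 : Hm (fun z : Qd (t : ℤ) (c : ℤ) => τ - ev E z) (star w) + ev E (star w) -
        (ev E (star π) + ev E (star w) - ev E (star π * star w)) + τ =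
        τ - ev E (star π) + Hm (fun z : Qd (t : ℤ) (c : ℤ) => τ - ev E z) (star w) +
        ev E (star π * star w) := by abel
    rwa [h3] at h2

/-- admissible values -/
def Adc (t c m q a r : ℕ) (E : ℤ → ℤ → A) (τ g : A) : Prop :=
  Dt t c m E τ = ⊤ ∨ (m ∣ q ∧ (a ^ 2 + t * a + c).Coprime m ∧
    E a 1 - E r 0 - g ∈ Dt t c m E τ)

/-- the values are in the coset -/
theorem hc_mem (hF : Fd (t : ℤ) (c : ℤ) f χ) (hP : S_PID (t : ℤ) (c : ℤ)) (h : Rc t c m E)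
    {q a r : ℕ} {g : A} (hg : Adc t c m q a r E τ g) {n d e : ℕ} (hd : 1 ≤ d) (hn0 : 1 ≤ n + t)
    (hde : d * e = n ^ 2 + t * n + c) (hn : n ≡ a [MOD q]) (hr : d ≡ r [MOD q]) :
    HC t c E τ (d, e) - g ∈ Dt t c m E τ := by
  rcases hg with h1 | ⟨h1, h2, h3⟩
  · rw [h1]
    exact AddSubgroup.mem_top _
  · have hD := hDG hF
    obtain ⟨v, w, e1, e2, e3, e4, e5, e6⟩ := pair_of hF hP h τ hd hn0 hde
    have hcop : (n ^ 2 + t * n + c).Coprime m := by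
      have h4 : n ^ 2 + t * n + c ≡ a ^ 2 + t * a + c [MOD m] := by
        have h5 : n ≡ a [MOD m] := hn.of_dvd h1
        exact ((h5.pow 2).add (h5.mul_left t)).add_right c
      unfold Nat.Coprime at h2 ⊢
      rw [h4.gcd_eq]
      exact h2
    have hv : star v ∣ nw t c n := by rw [← e5]; exact dvd_mul_right _ _
    have hw : w ∣ nw t c n := by rw [← e5]; exact dvd_mul_left _ _
    have g1 := mem₁ (τ := τ) hF hP h hcop hv
    rw [star_star] at g1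
    have g2 := df_le (τ := τ) (mem₂ hF hP h hcop hw)
    have cv : (nm v).Coprime m := by
      have := cop_of_dvd hD hcop hv
      rwa [nm_star] at this
    have cw : (nm w).Coprime m := cop_of_dvd hD hcop hw
    have g3 := df_le (τ := τ) (ev_mul (E := E) (m := m) hD (star v) w
      (by rw [nm_star]; exact cv) cw)
    have g4 := df_le (τ := τ) (ev_mul (E := E) (m := m) hD v (star v) cv
      (by rw [nm_star]; exact cv))
    rw [e5] at g3
    rw [mul_star_self' hD] at g4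
    have k1 : ev E (nw t c n) = E a 1 := by
      show E (n : ℤ) 1 = E a 1
      exact h.per _ _ _ _ (Int.natCast_modEq_iff.2 (hn.of_dvd h1)) rfl
    have k2 : ev E ((nm v : ℕ) : Qd (t : ℤ) (c : ℤ)) = E r 0 := by
      unfold ev
      rw [QuadraticAlgebra.re_natCast, QuadraticAlgebra.im_natCast, e1]
      exact h.per _ _ _ _ (Int.natCast_modEq_iff.2 (hr.of_dvd h1)) rfl
    rw [k1] at g3
    rw [k2] at g4
    rw [e6]
    have g5 := add_mem (add_mem (add_mem g1 g2) (sub_mem g3 g4)) h3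
    have g6 : Hm (fun z : Qd (t : ℤ) (c : ℤ) => τ - ev E z) v + ev E v +
        (Hm (fun z : Qd (t : ℤ) (c : ℤ) => ev E z) w - ev E w) +
        ((ev E (star v) + ev E w - E a 1) - (ev E v + ev E (star v) - E r 0)) +
        (E a 1 - E r 0 - g) = Hm (fun z : Qd (t : ℤ) (c : ℤ) => τ - ev E z) v +
        Hm (fun z : Qd (t : ℤ) (c : ℤ) => ev E z) w - g := by abel
    rwa [g6] at g5

/-! ### the characters -/

theorem per_star {z z' : Qd (t : ℤ) (c : ℤ)} (h : Rc t c m E) :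
    ((m : ℤ) ∣ z.re - z'.re ∧ (m : ℤ) ∣ z.im - z'.im) → ev E z = ev E z' ∧
      ev E (star z) = ev E (star z') := by
  rintro ⟨h1, h2⟩
  have k1 : z.re ≡ z'.re [ZMOD m] := Int.modEq_iff_dvd.2 (by
    rw [← Int.neg_sub, dvd_neg]
    exact h1)
  have k2 : z.im ≡ z'.im [ZMOD m] := Int.modEq_iff_dvd.2 (by
    rw [← Int.neg_sub, dvd_neg]
    exact h2)
  refine ⟨h.per _ _ _ _ k1 k2, h.per _ _ _ _ ?_ ?_⟩
  · rw [QuadraticAlgebra.re_star, QuadraticAlgebra.re_star]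
    exact k1.add (k2.mul_left _)
  · rw [QuadraticAlgebra.im_star, QuadraticAlgebra.im_star]
    exact k2.neg

theorem c_Pr [Finite A] (hF : Fd (t : ℤ) (c : ℤ) f χ) (hP : S_PID (t : ℤ) (c : ℤ))
    (h : Rc t c m E) (τ : A) (ψ : AddChar A ℂ) :
    Pr (Nat.card A) (ψ τ)
      (fun z : Qd (t : ℤ) (c : ℤ) => ψ (Hm (fun z : Qd (t : ℤ) (c : ℤ) => τ - ev E z) z))
      (fun z => ψ (Hm (fun z : Qd (t : ℤ) (c : ℤ) => ev E z) z)) where
  cm₁ := cm_Hm (hDG hF) hP (g := fun z : Qd (t : ℤ) (c : ℤ) => τ - ev E z) (fun a b hab => by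
    show τ - ev E a = τ - ev E b
    rw [ev_assoc h (hDG hF) a b hab]) ψ
  cm₂ := cm_Hm (hDG hF) hP (g := fun z : Qd (t : ℤ) (c : ℤ) => ev E z) (ev_assoc h (hDG hF)) ψ
  tw := fun π hπ => by
    have hpr := prime_of_nm (hDG hF) hP hπ
    rw [Hm_prime (hDG hF) (g := fun z : Qd (t : ℤ) (c : ℤ) => τ - ev E z) (fun a b hab => by
      show τ - ev E a = τ - ev E b
      rw [ev_assoc h (hDG hF) a b hab]) hpr,
      Hm_prime (hDG hF) (g := fun z : Qd (t : ℤ) (c : ℤ) => ev E z) (ev_assoc h (hDG hF)) hpr,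
      ← AddChar.map_add_eq_mul, sub_add_cancel]

theorem c_Apd [Finite A] (hF : Fd (t : ℤ) (c : ℤ) f χ) (hP : S_PID (t : ℤ) (c : ℤ))
    (h : Rc t c m E) (τ : A) (ψ : AddChar A ℂ) (hψ : ∃ d ∈ Dt t c m E τ, ψ d ≠ 1) :
    Apd (Nat.card A) (fun z : Qd (t : ℤ) (c : ℤ) =>
      ψ (Hm (fun z : Qd (t : ℤ) (c : ℤ) => τ - ev E z) (star z))) ∨
    Apd (Nat.card A) (fun z : Qd (t : ℤ) (c : ℤ) =>
      ψ (Hm (fun z : Qd (t : ℤ) (c : ℤ) => ev E z) z)) := by
  have hD := hDG hF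
  have ha₂ : ∀ a b : Qd (t : ℤ) (c : ℤ), Associated a b → (fun z => ev E z) a =
      (fun z => ev E z) b := ev_assoc h hD
  have ha₁ : ∀ a b : Qd (t : ℤ) (c : ℤ), Associated a b → (fun z => τ - ev E z) a =
      (fun z => τ - ev E z) b := fun a b hab => by
    show τ - ev E a = τ - ev E b
    rw [ev_assoc h hD a b hab]
  by_cases h1 : ∃ d ∈ Df t c m E, ψ d ≠ 1
  · right
    refine apdR hF hP (lconG hF) (Pool.Agent.W240.EG.lnv hF hP (lconG hF))
      (c_Pr hF hP h τ ψ).cm₂ (fun u z hu => by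
        show ψ (Hm (fun z : Qd (t : ℤ) (c : ℤ) => ev E z) (u * z)) =
          ψ (Hm (fun z : Qd (t : ℤ) (c : ℤ) => ev E z) z)
        rw [Hm_unit hD ha₂ hu]) h.pos (E := fun z => ψ (ev E z)) ?_ ?_ ?_
    · intro z z' hzz
      rw [red_eq] at hzz
      show ψ (ev E z) = ψ (ev E z')
      rw [(per_star h hzz).1]
    · intro z hz _
      show ψ (Hm (fun z : Qd (t : ℤ) (c : ℤ) => ev E z) z) = ψ (ev E z)
      rw [Hm_prime hD ha₂ (prime_of_nm hD hP hz)]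
    · obtain ⟨x, y, u, v, h1, h2, h3⟩ := exists_defect ψ h1
      refine ⟨⟨x, y⟩, ⟨u, v⟩, copr hD _ h1, copr hD _ h2, ?_⟩
      intro h4
      apply h3
      have h5 : ((⟨x, y⟩ : Qd (t : ℤ) (c : ℤ)) * ⟨u, v⟩).re = x * u - c * y * v := by
        rw [QuadraticAlgebra.re_mul]
        ring
      have h6 : ((⟨x, y⟩ : Qd (t : ℤ) (c : ℤ)) * ⟨u, v⟩).im = x * v + y * u + t * y * v := by
        rw [QuadraticAlgebra.im_mul]
      unfold ev at h4
      rw [h5, h6] at h4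
      exact h4
  · left
    push Not at h1
    have h2 : ψ τ ≠ 1 := by
      intro h3
      obtain ⟨d, hd, hd1⟩ := hψ
      apply hd1
      obtain ⟨x, hx, y, hy, rfl⟩ := AddSubgroup.mem_sup.1 hd
      obtain ⟨k, rfl⟩ := AddSubgroup.mem_zmultiples_iff.1 hy
      rw [AddChar.map_add_eq_mul, h1 x hx, one_mul, AddChar.map_zsmul_eq_zpow, h3, one_zpow]
    have hsne : ∀ z : Qd (t : ℤ) (c : ℤ), z ≠ 0 → star z ≠ 0 := fun z hz h => hz (by
      rw [← star_star z, h, star_zero])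
    have hc₁ := (c_Pr hF hP h τ ψ).cm₁
    refine apdR hF hP (lconG hF) (Pool.Agent.W240.EG.lnv hF hP (lconG hF))
      (⟨hc₁.pos, fun z w hz hw => ?_, fun z => hc₁.pow _⟩) (fun u z hu => ?_) h.pos
      (E := fun z => ψ (τ - ev E (star z))) ?_ ?_ ?_
    · show ψ (Hm (fun z : Qd (t : ℤ) (c : ℤ) => τ - ev E z) (star (z * w))) =
        ψ (Hm (fun z : Qd (t : ℤ) (c : ℤ) => τ - ev E z) (star z)) *
        ψ (Hm (fun z : Qd (t : ℤ) (c : ℤ) => τ - ev E z) (star w))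
      rw [star_mul']
      exact hc₁.mul _ _ (hsne z hz) (hsne w hw)
    · show ψ (Hm (fun z : Qd (t : ℤ) (c : ℤ) => τ - ev E z) (star (u * z))) =
        ψ (Hm (fun z : Qd (t : ℤ) (c : ℤ) => τ - ev E z) (star z))
      rw [star_mul', Hm_unit hD ha₁ (by rw [nm_star, hu])]
    · intro z z' hzz
      rw [red_eq] at hzz
      show ψ (τ - ev E (star z)) = ψ (τ - ev E (star z'))
      rw [(per_star h hzz).2]
    · intro z hz _
      show ψ (Hm (fun z : Qd (t : ℤ) (c : ℤ) => τ - ev E z) (star z)) = ψ (τ - ev E (star z))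
      rw [Hm_prime hD ha₁ (prime_of_nm hD hP (by rw [nm_star]; exact hz))]
    · refine ⟨1, 1, isCoprime_one_left, isCoprime_one_left, ?_⟩
      have h3 : ψ (τ - ev E (star (1 : Qd (t : ℤ) (c : ℤ)))) = ψ τ := by
        have h4 : ev E (star (1 : Qd (t : ℤ) (c : ℤ))) = E 1 0 := by
          rw [star_one]
          rfl
        rw [h4, AddChar.map_sub_eq_div, h1 _ one_mem, div_one]
      show ψ (τ - ev E (star (1 * 1))) ≠ ψ (τ - ev E (star 1)) * ψ (τ - ev E (star 1))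
      rw [mul_one, h3]
      intro h4
      apply h2
      have h5 : ψ τ ≠ 0 := by
        intro h6
        have h7 := chnrm ψ τ
        rw [h6, norm_zero] at h7
        exact zero_ne_one h7
      exact (mul_right_cancel₀ h5 ((one_mul (ψ τ)).trans h4)).symm

open scoped Classical in
/-- cancellation -/
theorem avC [Finite A] (hF : Fd (t : ℤ) (c : ℤ) f χ) (h : Rc t c m E) (τ : A) (ψ : AddChar A ℂ)
    (hψ : ∃ d ∈ Dt t c m E τ, ψ d ≠ 1) (q a r : ℕ) (hq : 1 ≤ q)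
    (s₁ s₂ s₃ s₄ : ℝ) (hs1 : 0 ≤ s₁) (hs12 : s₁ < s₂)
    (hs2 : s₂ ≤ 1) (hs3 : 0 ≤ s₃) (hs34 : s₃ < s₄) (hs4 : s₄ ≤ 1) :
    Av (fun X => ‖∑ p ∈ SW (t : ℤ) (c : ℤ) q a r s₁ s₂ s₃ s₄ X, ψ (HC t c E τ p)‖) := by
  have hP : S_PID (t : ℤ) (c : ℤ) := Pool.Agent.W290.EG.pid hF
  have hD := hDG hF
  have hu₁ : ∀ u z : Qd (t : ℤ) (c : ℤ), nm u = 1 →
      ψ (Hm (fun z : Qd (t : ℤ) (c : ℤ) => τ - ev E z) (u * z)) =
      ψ (Hm (fun z : Qd (t : ℤ) (c : ℤ) => τ - ev E z) z) := fun u z hu => by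
    rw [Hm_unit hD (g := fun z : Qd (t : ℤ) (c : ℤ) => τ - ev E z) (fun a b hab => by
      show τ - ev E a = τ - ev E b
      rw [ev_assoc h hD a b hab]) hu]
  have hu₂ : ∀ u z : Qd (t : ℤ) (c : ℤ), nm u = 1 →
      ψ (Hm (fun z : Qd (t : ℤ) (c : ℤ) => ev E z) (u * z)) =
      ψ (Hm (fun z : Qd (t : ℤ) (c : ℤ) => ev E z) z) := fun u z hu => by
    rw [Hm_unit hD (g := fun z : Qd (t : ℤ) (c : ℤ) => ev E z) (ev_assoc h hD) hu]
  intro ε hε
  obtain ⟨N₀, hN₀⟩ := twR' hF (c_Pr hF hP h τ ψ) hu₁ hu₂ (c_Apd hF hP h τ ψ hψ) q a r hq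
    s₁ s₂ s₃ s₄ hs1 hs12 hs2 hs3 hs34 hs4 ε hε
  refine ⟨N₀, fun N' hN => le_trans (le_of_eq (sum_congr rfl fun X _ => ?_)) (hN₀ N' hN)⟩
  refine congrArg (fun z : ℂ => 1 / (X : ℝ) ^ 2 * ‖z‖) (sum_congr rfl fun p hp => ?_)
  obtain ⟨⟨⟨h1, _⟩, h2, _⟩, ⟨n, h3, h4, _, _⟩, _⟩ := mem_SWn.1 hp
  obtain ⟨v, w, e1, e2, e3, e4, _, e6⟩ := pair_of hF hP h τ h1 h3 h4
  have h5 := PhR_eq (F₁ := fun z : Qd (t : ℤ) (c : ℤ) =>
    ψ (Hm (fun z : Qd (t : ℤ) (c : ℤ) => τ - ev E z) z))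
    (F₂ := fun z => ψ (Hm (fun z : Qd (t : ℤ) (c : ℤ) => ev E z) z)) hF hu₁ hu₂ e3 e4
  rw [e1, e2] at h5
  rw [h5, ← AddChar.map_add_eq_mul, ← e6]

open scoped Classical in
/-- equidistribution over the factorisations in windows -/
theorem outC [Finite A] (hF : Fd (t : ℤ) (c : ℤ) f χ) (h : Rc t c m E) {g : A}
    {q a r : ℕ} (hq : 1 ≤ q) (hg : Adc t c m q a r E τ g)
    (s₁ s₂ s₃ s₄ : ℝ) (hs1 : 0 ≤ s₁) (hs12 : s₁ < s₂)
    (hs2 : s₂ ≤ 1) (hs3 : 0 ≤ s₃) (hs34 : s₃ < s₄) (hs4 : s₄ ≤ 1) (ε : ℝ) (hε : 0 < ε) :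
    LogNull (fun X : ℕ => ε * X < |∑ p ∈ SW (t : ℤ) (c : ℤ) q a r s₁ s₂ s₃ s₄ X,
      dv (HC t c E τ) g (Nat.card (Dt t c m E τ)) p|) := by
  have hP : S_PID (t : ℤ) (c : ℤ) := Pool.Agent.W290.EG.pid hF
  refine null_dv (av_dv (D := Dt t c m E τ) (H := HC t c E τ) g
    (fun X => SW (t : ℤ) (c : ℤ) q a r s₁ s₂ s₃ s₄ X) (fun X p hp => ?_) (fun ψ hψ => ?_)) ε hε
  · obtain ⟨⟨⟨h1, _⟩, h2, _⟩, ⟨n, h3, h4, h5, h6⟩, _⟩ := mem_SWn.1 hp
    exact hc_mem hF hP h hg h1 h3 h4 h5 h6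
  · exact avC hF h τ ψ hψ q a r hq s₁ s₂ s₃ s₄ hs1 hs12 hs2 hs3 hs34 hs4

end

end Pool.Agent.V11296.CZ
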