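import Pool.Agent.V11296.CZ4

/-!
Functions of the prime elements above the prime factors of `n^2 + t n + c` which divide `n + ω`
(helper296), without any hypothesis except for the invariance under the units: the values.
-/

set_option autoImplicit false

namespace Pool.Agent.V11296.DA

open Finset Filter Topology
open Pool.Agent.W78.GA
open Pool.Agent.W357.EG (isDomain isUnit_iff nm_assoc)
open Pool.Agent.W251.GX (Cm)
open Pool.Agent.W78.EG
open Pool.Agent.W251.EG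
open Pool.Agent.V11296.CY
open Pool.Agent.V11296.CZ (LS LS_mul LS_one LS_prime Ab vl vc ev ab_of ab_unique HC)

variable {A : Type} [AddCommGroup A]

/-- functions invariant under the units -/
def Ru (t c : ℕ) (E : ℤ → ℤ → A) : Prop :=
  ∀ a b x y : ℤ, a ^ 2 + t * a * b + c * b ^ 2 = 1 →
    E (a * x - c * b * y) (a * y + b * x + t * b * y) = E x y

section

variable {t c : ℕ} {f : ℕ} {χ : DirichletCharacter ℂ f} {E : ℤ → ℤ → A} {τ : A}

theorem ev_unitU (h : Ru t c E) (hD : (t : ℤ) ^ 2 < 4 * (c : ℤ)) {u : Qd (t : ℤ) (c : ℤ)}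
    (hu : nm u = 1) (z : Qd (t : ℤ) (c : ℤ)) : ev E (u * z) = ev E z := by
  have h1 := nm_cast hD u
  rw [hu] at h1
  have h2 := h u.re u.im z.re z.im (by rw [← h1]; norm_num)
  have e1 : (u * z).re = u.re * z.re - c * u.im * z.im := by
    rw [QuadraticAlgebra.re_mul]
    ring
  have e2 : (u * z).im = u.re * z.im + u.im * z.re + t * u.im * z.im := by
    rw [QuadraticAlgebra.im_mul]
  unfold ev
  rw [e1, e2, h2]

theorem ev_assocU (h : Ru t c E) (hD : (t : ℤ) ^ 2 < 4 * (c : ℤ)) (a b : Qd (t : ℤ) (c : ℤ))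
    (hab : Associated a b) : ev E a = ev E b := by
  obtain ⟨u, rfl⟩ := hab
  rw [mul_comm, ev_unitU h hD ((isUnit_iff hD).1 u.isUnit)]

theorem vl_eqU (h : Ru t c E) (hD : (t : ℤ) ^ 2 < 4 * (c : ℤ)) {n : ℕ}
    {π : Qd (t : ℤ) (c : ℤ)} (hπ : (nm π).Prime) (hd : π ∣ nw t c n) :
    vl t c E n (nm π) = ev E π := by
  have hex : ∃ z : ℤ × ℤ, Ab t c n (nm π) z := ⟨_, ab_of hD hd⟩
  obtain ⟨u, hu, h1⟩ := ab_unique hD hπ hd hex.choose_spec
  unfold vl
  rw [dif_pos hex, ← ev_unitU h hD hu π, ← h1]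
  rfl

theorem vc_eqU (h : Ru t c E) (hD : (t : ℤ) ^ 2 < 4 * (c : ℤ)) {n : ℕ}
    {π : Qd (t : ℤ) (c : ℤ)} (hπ : (nm π).Prime) (hd : π ∣ nw t c n) :
    vc t c E n (nm π) = ev E (star π) := by
  have hex : ∃ z : ℤ × ℤ, Ab t c n (nm π) z := ⟨_, ab_of hD hd⟩
  obtain ⟨u, hu, h1⟩ := ab_unique hD hπ hd hex.choose_spec
  have h2 : star (⟨hex.choose.1, hex.choose.2⟩ : Qd (t : ℤ) (c : ℤ)) = star u * star π := by
    rw [h1, star_mul']
  unfold vc
  rw [dif_pos hex, ← ev_unitU h hD (u := star u) (by rw [nm_star, hu]) (star π), ← h2]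
  unfold ev
  congr 1

/-- the values of `E` at the prime elements dividing `n + ω`, summed over the factors of `w` -/
theorem sum₂U (hF : Fd (t : ℤ) (c : ℤ) f χ) (hP : S_PID (t : ℤ) (c : ℤ)) (h : Ru t c E) (n : ℕ)
    {w : Qd (t : ℤ) (c : ℤ)} (hw : w ∣ nw t c n) :
    Hm (fun z : Qd (t : ℤ) (c : ℤ) => ev E z) w = LS (vl t c E n) (nm w) := by
  have hD := hDG hF
  have ha : ∀ a b : Qd (t : ℤ) (c : ℤ), Associated a b → (fun z => ev E z) a =
      (fun z => ev E z) b := ev_assocU h hD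
  refine ind_nw hF (fun z => Hm (fun z : Qd (t : ℤ) (c : ℤ) => ev E z) z)
    (fun z => LS (vl t c E n) (nm z)) ?_ ?_ ?_ w hw
  · intro u hu
    have h1 : Hm (fun z : Qd (t : ℤ) (c : ℤ) => ev E z) u = 0 := by
      have := Hm_unit hD ha hu 1
      rwa [mul_one, Hm_one hD ha] at this
    simp only [h1, hu, LS_one]
  · intro z w hz hw
    refine ⟨Hm_mul hD ha hP hz hw, ?_⟩
    beta_reduce
    rw [nm_mul, LS_mul _ (nm_pos hD hz).ne' (nm_pos hD hw).ne']
  · intro π hπ hd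
    beta_reduce
    rw [Hm_prime hD ha (prime_of_nm hD hP hπ), LS_prime _ hπ, vl_eqU h hD hπ hd]

theorem sum₁U (hF : Fd (t : ℤ) (c : ℤ) f χ) (hP : S_PID (t : ℤ) (c : ℤ)) (h : Ru t c E) (τ : A)
    (n : ℕ) {w : Qd (t : ℤ) (c : ℤ)} (hw : w ∣ nw t c n) :
    Hm (fun z : Qd (t : ℤ) (c : ℤ) => τ - ev E z) (star w) =
      LS (fun l => τ - vc t c E n l) (nm w) := by
  have hD := hDG hF
  have ha : ∀ a b : Qd (t : ℤ) (c : ℤ), Associated a b → (fun z => τ - ev E z) a =
      (fun z => τ - ev E z) b := fun a b hab => by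
    show τ - ev E a = τ - ev E b
    rw [ev_assocU h hD a b hab]
  refine ind_nw hF (fun z => Hm (fun z : Qd (t : ℤ) (c : ℤ) => τ - ev E z) (star z))
    (fun z => LS (fun l => τ - vc t c E n l) (nm z)) ?_ ?_ ?_ w hw
  · intro u hu
    have hus : nm (star u) = 1 := by rw [nm_star, hu]
    have h1 : Hm (fun z : Qd (t : ℤ) (c : ℤ) => τ - ev E z) (star u) = 0 := by
      have := Hm_unit hD ha hus 1
      rwa [mul_one, Hm_one hD ha] at this
    simp only [h1, hu, LS_one]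
  · intro z w hz hw
    have hzs : star z ≠ 0 := fun h => hz (by rw [← star_star z, h, star_zero])
    have hws : star w ≠ 0 := fun h => hw (by rw [← star_star w, h, star_zero])
    refine ⟨?_, ?_⟩
    · beta_reduce
      rw [star_mul', Hm_mul hD ha hP hzs hws]
    · beta_reduce
      rw [nm_mul, LS_mul _ (nm_pos hD hz).ne' (nm_pos hD hw).ne']
  · intro π hπ hd
    beta_reduce
    have hπs : (nm (star π)).Prime := by rw [nm_star]; exact hπ
    rw [Hm_prime hD ha (prime_of_nm hD hP hπs), LS_prime _ hπ]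
    beta_reduce
    rw [vc_eqU h hD hπ hd]

/-- the pair of elements above a factorisation -/
theorem pair_ofU (hF : Fd (t : ℤ) (c : ℤ) f χ) (hP : S_PID (t : ℤ) (c : ℤ)) (h : Ru t c E)
    (τ : A) {n d e : ℕ} (hd : 1 ≤ d) (hn : 1 ≤ n + t) (hde : d * e = n ^ 2 + t * n + c) :
    ∃ v w : Qd (t : ℤ) (c : ℤ), nm v = d ∧ nm w = e ∧ dt v w = 1 ∧ 0 < pp v w ∧
      star v * w = nw t c n ∧
      HC t c E τ (d, e) = Hm (fun z : Qd (t : ℤ) (c : ℤ) => τ - ev E z) v +
        Hm (fun z : Qd (t : ℤ) (c : ℤ) => ev E z) w := by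
  have h4' : (d * e : ℤ) = (n : ℤ) ^ 2 + t * n + c := by exact_mod_cast hde
  obtain ⟨v, w, e1, e2, e3, e4⟩ := Pool.Agent.W748.EG.exists_pair hF n d e hd h4'
  have hpp : 0 < pp v w := by
    unfold pp
    rw [e3, e4]
    have : (1 : ℤ) ≤ (n : ℤ) + t := by exact_mod_cast hn
    have : (0 : ℤ) ≤ (n : ℤ) := Nat.cast_nonneg n
    omega
  have h6 : star v * w = nw t c n := by
    rw [star_mul_eq, e3, e4]
    rfl
  have hv : star v ∣ nw t c n := by rw [← h6]; exact dvd_mul_right _ _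
  have hw : w ∣ nw t c n := by rw [← h6]; exact dvd_mul_left _ _
  refine ⟨v, w, e1, e2, e3, hpp, h6, ?_⟩
  have g1 := sum₁U hF hP h τ n hv
  have g2 := sum₂U hF hP h n hw
  rw [star_star, nm_star, e1] at g1
  rw [e2] at g2
  unfold HC
  rw [nn_eq (p := (d, e)) (t_le hF) hde, g1, g2]

end

end Pool.Agent.V11296.DA
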