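import Pool.Agent.V11296.CZ1

/-!
Mean values of completely multiplicative functions on imaginary quadratic orders of class number one
(helper296): it is enough for aperiodicity that `F(π)` and `F(π̄)` are different for a set of primes of
positive lower density in the class of `1`, for every modulus.
-/

set_option autoImplicit false

namespace Pool.Agent.V11296.DA

open Finset Filter Topology
open ArithmeticFunction (vonMangoldt)
open Pool.Agent.W78.EG
open Pool.Agent.W78.GA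
open Pool.Agent.W357.EG (Nn mem_Nn LK LK_nonneg sum_LK sum_LK_le isDomain isUnit_iff Bk aL_eq
  mem_ball1)
open Pool.Agent.W738.EG (RM red red_eq red_surj isUnit_red PerM)
open Pool.Agent.W584.EG (rr aL_le sum_rr ball_card_le phi_le uc_pos sum_ball)
open Pool.Agent.W251.GX (Cm)
open Pool.Agent.W251.EG
open Pool.Agent.V11296.CY (Mr log_id' Bk_le' Bk_prime mean_small)

variable {t c : ℤ} {ψ : Qd t c → ℂ}

theorem mv_one {M : ℕ} (hM : 1 ≤ M) {F : Qd t c → ℂ} (_hper : PerM M F)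
    (h1 : ∀ z : Qd t c, IsCoprime z (M : Qd t c) → F z = 1) : mv M F = 1 := by
  classical
  have hM0 : M ≠ 0 := by omega
  unfold mv
  rw [dif_neg hM0]
  have : NeZero M := ⟨hM0⟩
  let _ : Fintype (RM t c M)ˣ := Fintype.ofFinite _
  obtain ⟨rep, hrep'⟩ : ∃ rep, rep = (red_surj (t := t) (c := c) M).hasRightInverse.choose :=
    ⟨_, rfl⟩
  have hrep : Function.RightInverse rep (red t c M) := by
    rw [hrep']
    exact (red_surj (t := t) (c := c) M).hasRightInverse.choose_spec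
  rw [← hrep', Nat.card_eq_fintype_card]
  have h2 : ∀ a : (RM t c M)ˣ, F (rep a) = 1 := by
    intro a
    refine h1 _ ?_
    rw [← isUnit_red, hrep]
    exact a.isUnit
  rw [sum_congr rfl fun a _ => h2 a, sum_const, card_univ, nsmul_eq_mul, mul_one]
  refine div_self ?_
  exact_mod_cast Fintype.card_ne_zero

/-- the mean value is `0` if the mean of the absolute values over the primes is less than `1` -/
theorem mr_mean3 {f : ℕ} {χ : DirichletCharacter ℂ f} (hF : Fd t c f χ) (hP : S_PID t c)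
    (H : Mr ψ) {κ : ℝ} (hκ0 : 0 ≤ κ)
    (hκ : κ < 1) {N₂ : ℕ} (hpr : ∀ N : ℕ, N₂ ≤ N →
      ∑ p ∈ (Icc 1 N).filter Nat.Prime, Real.log p * ‖aL ψ p‖ ≤ κ * N) (ε : ℝ) (hε : 0 < ε) :
    ∃ X₀ : ℝ, ∀ X : ℝ, X₀ ≤ X → ‖∑ z ∈ ball t c X, ψ z‖ ≤ ε * X := by
  classical
  have hD : t ^ 2 < 4 * c := by
    have h1 := hF.disc
    have h2 : (3 : ℤ) ≤ f := by exact_mod_cast hF.three
    linarith
  have hucp : (0 : ℝ) < uc t c := by exact_mod_cast uc_pos hD
  obtain ⟨b, hb⟩ : ∃ b : ℕ → ℝ, b = fun n => ‖Bk ψ n‖ / vonMangoldt n := ⟨_, rfl⟩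
  have hb0 : ∀ n, 0 ≤ b n := fun n => by
    rw [hb]
    exact div_nonneg (norm_nonneg _) ArithmeticFunction.vonMangoldt_nonneg
  have hb2 : ∀ n, b n ≤ 2 := fun n => by
    rw [hb]
    have h1 : (0 : ℝ) ≤ vonMangoldt n := ArithmeticFunction.vonMangoldt_nonneg
    rcases h1.eq_or_lt with h2 | h2
    · beta_reduce
      rw [← h2, div_zero]
      norm_num
    · beta_reduce
      rw [div_le_iff₀ h2]
      exact Bk_le' hD hP H n
  have hbB : ∀ n, vonMangoldt n * b n = ‖Bk ψ n‖ := fun n => by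
    rw [hb]
    have h1 : (0 : ℝ) ≤ vonMangoldt n := ArithmeticFunction.vonMangoldt_nonneg
    rcases h1.eq_or_lt with h2 | h2
    · have h3 := Bk_le' hD hP H n
      beta_reduce
      rw [← h2, mul_zero] at h3
      rw [← h2, zero_mul]
      exact le_antisymm (norm_nonneg _) h3
    · beta_reduce
      field_simp
  have hbp : ∀ p : ℕ, p.Prime → b p = ‖aL ψ p‖ := fun p hp => by
    rw [hb]
    beta_reduce
    rw [Bk_prime hD hP H hp, ArithmeticFunction.vonMangoldt_apply_prime hp, norm_mul,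
      Complex.norm_real, Real.norm_eq_abs]
    have h1 : 0 < Real.log p := Real.log_pos (by exact_mod_cast hp.one_lt)
    rw [abs_of_pos h1]
    field_simp
  have hnorm : ∀ n, ‖((b n : ℝ) : ℂ)‖ ≤ 2 := fun n => by
    rw [Complex.norm_real, Real.norm_eq_abs, abs_of_nonneg (hb0 n)]
    exact hb2 n
  have l1 := lim_np (fun n => (b n : ℂ)) 2 hnorm
  obtain ⟨δ, hδ⟩ : ∃ δ : ℝ, δ = (1 - κ) / 4 := ⟨_, rfl⟩
  have hδ0 : 0 < δ := by rw [hδ]; linarith
  have e1 := l1.eventually (Metric.ball_mem_nhds 0 hδ0)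
  have hκT : ∃ N₁ : ℕ, ∀ N : ℕ, N₁ ≤ N → ∑ n ∈ Icc 1 N, ‖Bk ψ n‖ ≤ (κ + δ) * N := by
    obtain ⟨x₀, hx₀⟩ := eventually_atTop.1 e1
    refine ⟨max ⌈max x₀ 1⌉₊ N₂, fun N hN' => ?_⟩
    have hNx : max x₀ 1 ≤ N := (Nat.le_ceil _).trans (by
      exact_mod_cast (le_max_left _ _).trans hN')
    have hN1 : (1 : ℝ) ≤ N := (le_max_right _ _).trans hNx
    have g1 := hx₀ N ((le_max_left _ _).trans hNx)
    have hN0 : (0 : ℝ) < N := by linarith
    rw [dist_zero_right] at g1
    have r1 := (Complex.abs_re_le_norm _).trans g1.le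
    rw [Complex.div_ofReal_re, Complex.sub_re, Nat.floor_natCast] at r1
    have r5 : (∑ n ∈ Icc 1 N, (vonMangoldt n : ℂ) * ((b n : ℝ) : ℂ)).re =
        ∑ n ∈ Icc 1 N, ‖Bk ψ n‖ := by
      rw [Complex.re_sum]
      refine sum_congr rfl fun n _ => ?_
      rw [Complex.re_ofReal_mul, Complex.ofReal_re, hbB]
    rw [r5] at r1
    have r6 : (SPr (fun n => (b n : ℂ)) N).re =
        ∑ p ∈ (Icc 1 N).filter Nat.Prime, Real.log p * ‖aL ψ p‖ := by
      unfold SPr
      rw [Complex.re_sum, Nat.floor_natCast]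
      refine sum_congr rfl fun n hn => ?_
      rw [Complex.re_ofReal_mul, Complex.ofReal_re, hbp n (mem_filter.1 hn).2]
    rw [r6] at r1
    have s1 := (abs_le.1 r1).2
    rw [div_le_iff₀ hN0] at s1
    have s2 := hpr N ((le_max_right _ _).trans hN')
    linarith
  obtain ⟨N₁, hN₁⟩ := hκT
  obtain ⟨C, hC, hball⟩ := ball_card_le hD
  obtain ⟨C', hC'⟩ : ∃ C' : ℝ, C' = C / uc t c + (1 + ∑ n ∈ Icc 1 N₁, ‖Bk ψ n‖) := ⟨_, rfl⟩
  have hsum0 : 0 ≤ ∑ n ∈ Icc 1 N₁, ‖Bk ψ n‖ := sum_nonneg fun n _ => norm_nonneg _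
  have hCu : 0 ≤ C / uc t c := by positivity
  have hC'0 : 0 ≤ C' := by rw [hC']; linarith
  have hS : ∀ N : ℕ, ∑ n ∈ Icc 1 N, ‖aL ψ n‖ ≤ C' * N := by
    intro N
    have h1 : ∑ n ∈ Icc 1 N, ‖aL ψ n‖ ≤ ∑ n ∈ Icc 1 N, rr t c n :=
      sum_le_sum fun n _ => aL_le hD H.le n
    rw [sum_rr hD] at h1
    refine h1.trans ?_
    have h2 : ((ball t c (N : ℝ)).card : ℝ) / (uc t c : ℝ) ≤ C / uc t c * N := by
      rw [div_mul_eq_mul_div]
      exact div_le_div_of_nonneg_right (hball N) hucp.le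
    refine h2.trans (mul_le_mul_of_nonneg_right ?_ (Nat.cast_nonneg _))
    rw [hC']
    linarith
  have hT : ∀ N : ℕ, ∑ n ∈ Icc 1 N, ‖Bk ψ n‖ ≤ C' * N := by
    intro N
    rcases Nat.eq_zero_or_pos N with rfl | hN0
    · simp
    have hN1 : (1 : ℝ) ≤ N := by exact_mod_cast hN0
    rcases le_total N₁ N with h | h
    · refine (hN₁ N h).trans (mul_le_mul_of_nonneg_right ?_ (Nat.cast_nonneg _))
      rw [hC', hδ]
      linarith
    · have h1 : ∑ n ∈ Icc 1 N, ‖Bk ψ n‖ ≤ ∑ n ∈ Icc 1 N₁, ‖Bk ψ n‖ :=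
        sum_le_sum_of_subset_of_nonneg (Icc_subset_Icc_right h) fun _ _ _ => norm_nonneg _
      have h2 : C' * 1 ≤ C' * N := mul_le_mul_of_nonneg_left hN1 hC'0
      rw [hC'] at h2 ⊢
      linarith
  obtain ⟨N₀, hN₀⟩ := mean_small (A := fun n => ‖aL ψ n‖) (B := fun n => ‖Bk ψ n‖)
    (fun n => norm_nonneg _) (fun n => norm_nonneg _) (fun n hn => by
      have h1 := log_id' hD hP H (n := n) (by omega)
      have h2 : ‖aL ψ n‖ * Real.log n = ‖aL ψ n * (Real.log n : ℂ)‖ := by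
        rw [norm_mul, Complex.norm_real, Real.norm_eq_abs,
          abs_of_nonneg (Real.log_nonneg (by exact_mod_cast hn))]
      rw [h2, h1]
      refine (norm_sum_le _ _).trans (le_of_eq (sum_congr rfl fun d _ => ?_))
      rw [norm_mul]) hC'0 hS hT (κ := κ + δ) (by linarith) (by rw [hδ]; linarith) hN₁
    (ε / uc t c) (by positivity)
  refine ⟨(N₀ : ℝ) + 1, fun X hX => ?_⟩
  have hN00 : (0 : ℝ) ≤ N₀ := Nat.cast_nonneg _
  have hX1 : (1 : ℝ) ≤ X := by linarith
  have hXN : (N₀ : ℝ) ≤ X := by linarith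
  have h1 := hN₀ ⌊X⌋₊ (Nat.le_floor hXN)
  rw [sum_ball hD]
  have e4 : ∀ k ∈ Icc 1 ⌊X⌋₊, ∑ z ∈ (ball t c (k : ℝ)).filter (fun z => nm z = k), ψ z =
      (uc t c : ℂ) * aL ψ k := by
    intro k _
    have huc : (uc t c : ℂ) ≠ 0 := by exact_mod_cast (uc_pos hD).ne'
    unfold aL
    field_simp
  rw [Finset.sum_congr rfl e4, ← Finset.mul_sum, norm_mul, Complex.norm_natCast]
  have h2 : (uc t c : ℝ) * ‖∑ k ∈ Icc 1 ⌊X⌋₊, aL ψ k‖ ≤
      (uc t c : ℝ) * (ε / uc t c * ⌊X⌋₊) :=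
    mul_le_mul_of_nonneg_left ((norm_sum_le _ _).trans h1) hucp.le
  refine h2.trans ?_
  have h3 : (uc t c : ℝ) * (ε / uc t c * ⌊X⌋₊) = ε * ⌊X⌋₊ := by field_simp
  rw [h3]
  exact mul_le_mul_of_nonneg_left (Nat.floor_le (by linarith)) hε.le

/-- elements of the same prime norm -/
theorem same_norm (hD : t ^ 2 < 4 * c) (hP : S_PID t c) {z w : Qd t c} (hz : (nm z).Prime)
    (hzw : nm w = nm z) : ∃ u : Qd t c, nm u = 1 ∧ (w = u * z ∨ w = u * star z) := by
  have := isDomain hD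
  have : IsPrincipalIdealRing (Qd t c) := hP
  have hp : Prime z := by
    rw [← irreducible_iff_prime]
    refine ⟨fun h => hz.one_lt.ne' ((isUnit_iff hD).1 h), fun a b hab => ?_⟩
    have h1 : nm a * nm b = nm z := by rw [hab, nm_mul]
    rcases (Nat.prime_mul_iff.1 (by rw [h1]; exact hz)) with ⟨_, h2⟩ | ⟨_, h2⟩
    · exact Or.inr ((isUnit_iff hD).2 h2)
    · exact Or.inl ((isUnit_iff hD).2 h2)
  have h1 : z ∣ w * star w := by
    rw [mul_star_self' hD, hzw, ← mul_star_self' hD]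
    exact dvd_mul_right _ _
  have key : ∀ y : Qd t c, nm y = nm z → z ∣ y → ∃ u : Qd t c, nm u = 1 ∧ y = u * z := by
    rintro y hy ⟨u, hu⟩
    refine ⟨u, ?_, by rw [hu, mul_comm]⟩
    rw [hu, nm_mul] at hy
    exact Nat.eq_of_mul_eq_mul_left hz.pos (by rw [hy, mul_one])
  rcases hp.dvd_or_dvd h1 with h | h
  · obtain ⟨u, hu, hw⟩ := key w hzw h
    exact ⟨u, hu, Or.inl hw⟩
  · obtain ⟨u, hu, hw⟩ := key (star w) (by rw [nm_star, hzw]) h
    refine ⟨star u, by rw [nm_star, hu], Or.inr ?_⟩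
    rw [← star_star w, hw, star_mul']

open scoped Classical in
/-- the primes with an element `z ≡ 1` of norm `p` with `F(z)`, `F(z̄)` different -/
noncomputable def Sp (F : Qd t c → ℂ) (η : ℝ) (M N : ℕ) : Finset ℕ :=
  (Icc 1 N).filter (fun p => p.Prime ∧ ∃ z : Qd t c, nm z = p ∧ red t c M z = red t c M 1 ∧
    ‖F z + F (star z)‖ ≤ 2 - η)

open scoped Classical in
/-- aperiodicity: it is enough that `F(π)` and `F(π̄)` are different for a set of primes of positive
lower density -/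
theorem apd_of3 {f : ℕ} {χ : DirichletCharacter ℂ f} (hF : Fd t c f χ) (hP : S_PID t c)
    (hL : S_LCON t c) (hN : S_LNV t c) {N : ℕ} {F : Qd t c → ℂ} (hc : Cm N F)
    (hu : ∀ u z : Qd t c, nm u = 1 → F (u * z) = F z) {η : ℝ} (hη : 0 < η)
    (hS : ∀ M : ℕ, 1 ≤ M → ∃ δ : ℝ, 0 < δ ∧ ∃ N₀ : ℕ, ∀ N' : ℕ, N₀ ≤ N' →
      δ * N' ≤ ∑ p ∈ Sp F η M N', Real.log p) : Apd N F := by
  have hD : t ^ 2 < 4 * c := by
    have h1 := hF.disc
    have h2 : (3 : ℤ) ≤ f := by exact_mod_cast hF.three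
    linarith
  have hnrm : ∀ z, ‖F z‖ = 1 := fun z =>
    Complex.norm_eq_one_of_pow_eq_one (hc.pow z) (by have := hc.pos; omega)
  have hone : F 1 = 1 := by
    have := isDomain hD
    have h1 := hc.mul 1 1 one_ne_zero one_ne_zero
    rw [mul_one] at h1
    have h2 : F 1 ≠ 0 := by
      intro h
      have := hnrm 1
      rw [h, norm_zero] at this
      exact zero_ne_one this
    exact (mul_right_cancel₀ h2 ((one_mul _).trans h1)).symm
  refine ⟨hc, Pool.Agent.W738.EG.main hD hP ⟨hc.mul, hnrm, fun u z h => hu u z h, ?_⟩⟩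
  intro M φ hM hφ ε hε
  have hphi := phi_le hM hφ
  have H : Mr (fun z => F z * φ z) := by
    refine ⟨?_, ?_, ?_, ?_⟩
    · intro z w hz hw
      show F (z * w) * φ (z * w) = F z * φ z * (F w * φ w)
      rw [hc.mul z w hz hw, hφ.mul]
      ring
    · show F 1 * φ 1 = 1
      rw [hone, hφ.one, one_mul]
    · intro u hu1
      show F u * φ u = 1
      have h1 := hu u 1 hu1
      rw [mul_one, hone] at h1
      rw [h1, hφ.unit u hu1, one_mul]
    · intro z
      rw [norm_mul, hnrm, one_mul]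
      exact hphi z
  have hucp : (0 : ℝ) < uc t c := by exact_mod_cast uc_pos hD
  -- the majorant
  obtain ⟨Ψ, hΨ⟩ : ∃ Ψ : Qd t c → ℂ, Ψ = fun z => if IsCoprime z (M : Qd t c) then 1 else 0 :=
    ⟨_, rfl⟩
  have hΨper : PerM M Ψ := by
    intro z w hzw
    rw [hΨ]
    simp only
    have h1 : IsCoprime z (M : Qd t c) ↔ IsCoprime w (M : Qd t c) := by
      rw [← isUnit_red, ← isUnit_red, hzw]
    simp only [h1]
  have hΨ0 : ∀ z : Qd t c, ¬ IsCoprime z (M : Qd t c) → Ψ z = 0 := by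
    intro z hz
    rw [hΨ]
    simp only
    rw [if_neg hz]
  have hΨ1 : ∀ z : Qd t c, IsCoprime z (M : Qd t c) → Ψ z = 1 := by
    intro z hz
    rw [hΨ]
    simp only
    rw [if_pos hz]
  have hΨre : ∀ z, 0 ≤ (Ψ z).re := by
    intro z
    rw [hΨ]
    simp only
    split_ifs <;> simp
  have hmv := mv_one hM hΨper hΨ1
  have l3 := lim_class hF hP hL hN hM hΨper hΨ0
  rw [hmv] at l3
  obtain ⟨δ, hδ, N₀, hN₀⟩ := hS M hM
  obtain ⟨x, hx⟩ : ∃ x : ℝ, x = η * δ / (8 * uc t c) := ⟨_, rfl⟩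
  have hx0 : 0 < x := by rw [hx]; positivity
  obtain ⟨C₀, hC₀⟩ : ∃ C₀ : ℝ, C₀ = (2 + η / (2 * uc t c)) * ∑ p ∈ M.divisors, Real.log p := ⟨_, rfl⟩
  have hsym : ∀ (p : ℕ) (g : Qd t c → ℂ), ∑ z ∈ Nn t c p, g (star z) = ∑ z ∈ Nn t c p, g z := by
    intro p g
    refine sum_bij' (fun z _ => star z) (fun z _ => star z) ?_ ?_ ?_ ?_ ?_
    · intro z hz
      rw [mem_Nn hD] at hz ⊢
      rw [nm_star]
      exact hz
    · intro z hz
      rw [mem_Nn hD] at hz ⊢
      rw [nm_star]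
      exact hz
    · intro z _
      exact star_star z
    · intro z _
      exact star_star z
    · intro z _
      rfl
  have e1 : ∀ p : ℕ, aL (fun z => F z * φ z) p =
      (∑ z ∈ Nn t c p, (F z * φ z + F (star z) * φ (star z))) / 2 / (uc t c : ℂ) := by
    intro p
    rw [aL_eq, sum_add_distrib, hsym p (fun z => F z * φ z)]
    ring
  have e2 : ∀ p : ℕ, p.Prime → ¬ p ∣ M → (aL Ψ p).re = ((Nn t c p).card : ℝ) / (uc t c : ℝ) := by
    intro p hp hpM
    have h1 : ∀ z ∈ Nn t c p, Ψ z = 1 := fun z hz =>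
      hΨ1 z (coprime_of_prime hD hp ((mem_Nn hD).1 hz).2 hpM)
    rw [aL_eq, sum_congr rfl h1, sum_const, nsmul_eq_mul, mul_one, Complex.div_natCast_re,
      Complex.natCast_re]
  have hb1 : ∀ p : ℕ, p.Prime → ¬ p ∣ M → ‖aL (fun z => F z * φ z) p‖ ≤ (aL Ψ p).re := by
    intro p hp hpM
    rw [e1, e2 p hp hpM, norm_div, norm_div, Complex.norm_natCast, Complex.norm_ofNat]
    refine div_le_div_of_nonneg_right ?_ hucp.le
    rw [div_le_iff₀ (by norm_num : (0 : ℝ) < 2)]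
    refine (norm_sum_le _ _).trans ?_
    refine (sum_le_card_nsmul _ _ 2 fun z _ => ?_).trans (le_of_eq (by rw [nsmul_eq_mul]))
    refine (norm_add_le _ _).trans ?_
    rw [norm_mul, norm_mul, hnrm, hnrm, one_mul, one_mul]
    linarith [hphi z, hphi (star z)]
  have hb2 : ∀ p : ℕ, p.Prime → ¬ p ∣ M → (∃ z : Qd t c, nm z = p ∧ red t c M z = red t c M 1 ∧
      ‖F z + F (star z)‖ ≤ 2 - η) →
      ‖aL (fun z => F z * φ z) p‖ ≤ (aL Ψ p).re - η / (2 * uc t c) := by
    rintro p hp hpM ⟨z₀, g1, g2, g3⟩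
    have hz₀ : (nm z₀).Prime := by rw [g1]; exact hp
    have hcard : (1 : ℝ) ≤ (Nn t c p).card := by
      have h1 : z₀ ∈ Nn t c p := by
        rw [mem_Nn hD]
        exact ⟨hp.one_lt.le, g1⟩
      exact_mod_cast Finset.card_pos.2 ⟨z₀, h1⟩
    have hφ1 : φ z₀ = 1 := by
      rw [red_eq] at g2
      rw [hφ.per z₀ 1 g2.1 g2.2, hφ.one]
    have hφ2 : φ (star z₀) = 1 := by
      rw [red_eq] at g2
      obtain ⟨⟨a, ha⟩, ⟨b, hb⟩⟩ := g2
      rw [hφ.per (star z₀) 1 ?_ ?_, hφ.one]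
      · refine ⟨a + t * b, ?_⟩
        simp only [QuadraticAlgebra.re_star, QuadraticAlgebra.re_one,
          QuadraticAlgebra.im_one] at ha hb ⊢
        linear_combination ha + t * hb
      · refine ⟨-b, ?_⟩
        simp only [QuadraticAlgebra.im_star, QuadraticAlgebra.im_one] at hb ⊢
        linear_combination -hb
    have hterm : ∀ z ∈ Nn t c p, ‖F z * φ z + F (star z) * φ (star z)‖ ≤ 2 - η := by
      intro z hz
      have h1 : nm z = nm z₀ := by rw [((mem_Nn hD).1 hz).2, g1]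
      obtain ⟨u, hu1, h2⟩ := same_norm hD hP hz₀ h1
      have hus : nm (star u) = 1 := by rw [nm_star, hu1]
      rcases h2 with h2 | h2
      · have k1 : F z = F z₀ := by rw [h2, hu u z₀ hu1]
        have k2 : F (star z) = F (star z₀) := by rw [h2, star_mul', hu _ _ hus]
        have k3 : φ z = 1 := by rw [h2, hφ.mul, hφ.unit u hu1, hφ1, one_mul]
        have k4 : φ (star z) = 1 := by
          rw [h2, star_mul', hφ.mul, hφ.unit _ hus, hφ2, one_mul]
        rw [k1, k2, k3, k4, mul_one, mul_one]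
        exact g3
      · have k1 : F z = F (star z₀) := by rw [h2, hu u _ hu1]
        have k2 : F (star z) = F z₀ := by rw [h2, star_mul', star_star, hu _ _ hus]
        have k3 : φ z = 1 := by rw [h2, hφ.mul, hφ.unit u hu1, hφ2, one_mul]
        have k4 : φ (star z) = 1 := by
          rw [h2, star_mul', star_star, hφ.mul, hφ.unit _ hus, hφ1, one_mul]
        rw [k1, k2, k3, k4, mul_one, mul_one, add_comm]
        exact g3
    rw [e1, e2 p hp hpM, norm_div, norm_div, Complex.norm_natCast, Complex.norm_ofNat]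
    have h3 : ‖∑ z ∈ Nn t c p, (F z * φ z + F (star z) * φ (star z))‖ ≤
        (Nn t c p).card * (2 - η) := by
      refine (norm_sum_le _ _).trans ?_
      exact (sum_le_card_nsmul _ _ (2 - η) hterm).trans (le_of_eq (by rw [nsmul_eq_mul]))
    have h4 : ((Nn t c p).card : ℝ) * (2 - η) / 2 / (uc t c : ℝ) ≤
        ((Nn t c p).card : ℝ) / (uc t c : ℝ) - η / (2 * uc t c) := by
      have h5 : ((Nn t c p).card : ℝ) * (2 - η) / 2 / (uc t c : ℝ) =
          ((Nn t c p).card : ℝ) / (uc t c : ℝ) - ((Nn t c p).card : ℝ) * (η / (2 * uc t c)) := by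
        field_simp
      rw [h5]
      have h6 : 1 * (η / (2 * uc t c)) ≤ ((Nn t c p).card : ℝ) * (η / (2 * uc t c)) :=
        mul_le_mul_of_nonneg_right hcard (by positivity)
      linarith
    refine le_trans ?_ h4
    exact div_le_div_of_nonneg_right (div_le_div_of_nonneg_right h3 (by norm_num)) hucp.le
  have hb3 : ∀ p : ℕ, p.Prime → ‖aL (fun z => F z * φ z) p‖ ≤ 2 := by
    intro p hp
    have h1 := Bk_le' hD hP H p
    rw [Bk_prime hD hP H hp, ArithmeticFunction.vonMangoldt_apply_prime hp, norm_mul,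
      Complex.norm_real, Real.norm_eq_abs] at h1
    have h2 : 0 < Real.log p := Real.log_pos (by exact_mod_cast hp.one_lt)
    rw [abs_of_pos h2, mul_comm] at h1
    exact le_of_mul_le_mul_right h1 h2
  obtain ⟨κ, hκ⟩ : ∃ κ : ℝ, κ = max 0 (1 - x) := ⟨_, rfl⟩
  have ev1 := l3.eventually (Metric.ball_mem_nhds 1 hx0)
  obtain ⟨x₀, hx₀⟩ := eventually_atTop.1 ev1
  refine mr_mean3 hF hP H (κ := κ) (by rw [hκ]; exact le_max_left _ _)
    (by rw [hκ]; exact max_lt one_pos (by linarith))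
    (N₂ := max (max N₀ 1) (max ⌈x₀⌉₊ ⌈C₀ / x⌉₊)) ?_ ε hε
  intro N' hN'
  have hNa : N₀ ≤ N' := ((le_max_left _ _).trans (le_max_left _ _)).trans hN'
  have hNb : 1 ≤ N' := ((le_max_right _ _).trans (le_max_left _ _)).trans hN'
  have hNc : x₀ ≤ N' := (Nat.le_ceil _).trans (by
    exact_mod_cast ((le_max_left _ _).trans (le_max_right _ _)).trans hN')
  have hNd : C₀ / x ≤ N' := (Nat.le_ceil _).trans (by
    exact_mod_cast ((le_max_right _ _).trans (le_max_right _ _)).trans hN')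
  have hN0 : (0 : ℝ) < N' := by exact_mod_cast hNb
  rw [div_le_iff₀ hx0] at hNd
  have g1 := hx₀ N' hNc
  rw [dist_eq_norm] at g1
  have g2 := (Complex.abs_re_le_norm _).trans g1.le
  rw [Complex.sub_re, Complex.div_ofReal_re, Complex.one_re] at g2
  have g3 := (abs_le.1 g2).2
  have g4 : (SPr (aL Ψ) N').re ≤ (1 + x) * N' := by
    rw [← div_le_iff₀ hN0]
    linarith
  have g5 : (SPr (aL Ψ) N').re = ∑ p ∈ (Icc 1 N').filter Nat.Prime, Real.log p * (aL Ψ p).re := by
    unfold SPr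
    rw [Complex.re_sum, Nat.floor_natCast]
    refine sum_congr rfl fun n _ => ?_
    rw [Complex.re_ofReal_mul]
  have g6 := hN₀ N' hNa
  -- the pointwise bound
  have hpt : ∀ p ∈ (Icc 1 N').filter Nat.Prime, Real.log p * ‖aL (fun z => F z * φ z) p‖ ≤
      Real.log p * (aL Ψ p).re - (if p ∈ Sp F η M N' then η / (2 * uc t c) * Real.log p else 0) +
      (if p ∈ M.divisors then (2 + η / (2 * uc t c)) * Real.log p else 0) := by
    intro p hp
    have hpp := (mem_filter.1 hp).2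
    have hl : 0 ≤ Real.log p := Real.log_nonneg (by exact_mod_cast hpp.one_lt.le)
    by_cases hpM : p ∣ M
    · have h1 : p ∈ M.divisors := Nat.mem_divisors.2 ⟨hpM, by omega⟩
      rw [if_pos h1]
      have h2 := mul_le_mul_of_nonneg_left (hb3 p hpp) hl
      have h3 : 0 ≤ Real.log p * (aL Ψ p).re := by
        refine mul_nonneg hl ?_
        rw [aL_eq, Complex.div_natCast_re, Complex.re_sum]
        exact div_nonneg (sum_nonneg fun z _ => hΨre z) hucp.le
      have h4 : 0 ≤ η / (2 * uc t c) * Real.log p := mul_nonneg (by positivity) hl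
      split_ifs
      · linarith
      · linarith
    · have h1 : p ∉ M.divisors := fun h => hpM (Nat.mem_divisors.1 h).1
      rw [if_neg h1, add_zero]
      by_cases h2 : p ∈ Sp F η M N'
      · rw [if_pos h2]
        have h3 := (mem_filter.1 h2).2.2
        have h4 := mul_le_mul_of_nonneg_left (hb2 p hpp hpM h3) hl
        refine h4.trans (le_of_eq (by ring))
      · rw [if_neg h2, sub_zero]
        exact mul_le_mul_of_nonneg_left (hb1 p hpp hpM) hl
  have h1 := sum_le_sum hpt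
  rw [sum_add_distrib, sum_sub_distrib, ← g5] at h1
  have h2 : ∑ p ∈ (Icc 1 N').filter Nat.Prime,
      (if p ∈ Sp F η M N' then η / (2 * uc t c) * Real.log p else 0) =
      η / (2 * uc t c) * ∑ p ∈ Sp F η M N', Real.log p := by
    rw [← sum_filter, mul_sum]
    refine sum_congr ?_ fun _ _ => rfl
    ext p
    rw [mem_filter]
    constructor
    · exact fun h => h.2
    · intro h
      refine ⟨?_, h⟩
      have h3 := mem_filter.1 h
      exact mem_filter.2 ⟨h3.1, h3.2.1⟩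
  have h3 : ∑ p ∈ (Icc 1 N').filter Nat.Prime,
      (if p ∈ M.divisors then (2 + η / (2 * uc t c)) * Real.log p else 0) ≤ C₀ := by
    rw [← sum_filter, hC₀, mul_sum]
    refine sum_le_sum_of_subset_of_nonneg ?_ ?_
    · intro p hp
      exact (mem_filter.1 hp).2
    · intro p hp _
      have h4 : 1 ≤ p := Nat.pos_of_mem_divisors hp
      exact mul_nonneg (by positivity) (Real.log_nonneg (by exact_mod_cast h4))
  rw [h2] at h1
  have h4 : η / (2 * uc t c) * (δ * N') ≤ η / (2 * uc t c) * ∑ p ∈ Sp F η M N', Real.log p :=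
    mul_le_mul_of_nonneg_left g6 (by positivity)
  have h5 : η / (2 * uc t c) * (δ * N') = 4 * x * N' := by
    rw [hx]
    field_simp
    ring
  have h6 : (1 - 2 * x) * N' ≤ κ * N' := by
    refine mul_le_mul_of_nonneg_right ?_ hN0.le
    have : 1 - x ≤ κ := by rw [hκ]; exact le_max_right _ _
    linarith
  linarith

end Pool.Agent.V11296.DA
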