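import Pool.Agent.V11296.DA1
import Pool.Agent.V11296.DA2

/-!
Functions of the prime elements above the prime factors of `n^2 + t n + c` which divide `n + ω`
(helper296): independence of class functions and of arbitrary functions.
-/

set_option autoImplicit false

namespace Pool.Agent.V11296.DA

open Finset Filter Topology
open Pool.Agent.W78.GA
open Pool.Agent.W357.EG (isDomain isUnit_iff nm_assoc)
open Pool.Agent.W251.GX (Cm)
open Pool.Agent.W78.EG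
open Pool.Agent.W251.EG
open Pool.Agent.W738.EG (red red_eq PerM)
open Pool.Agent.TH890.DV (LogNull LogNull.of_ev)
open Pool.Agent.V11296.CV (Df chpow chnrm)
open Pool.Agent.V11296.CW (Dt df_le tau_mem wd)
open Pool.Agent.V11296.CY
open Pool.Agent.V11296.CZ (LS LS_mul LS_one LS_prime Ab vl vc ev ab_of ab_unique HC Rc Adc hc_mem
  twR' c_Apd)

/-! ### homomorphic images -/

section maps

variable {A B : Type} [AddCommGroup A] [AddCommGroup B]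

theorem Hm_map {t c : ℤ} (φ : A →+ B) (g : Qd t c → A) (z : Qd t c) :
    φ (Hm g z) = Hm (fun w => φ (g w)) z := by
  unfold Hm
  by_cases h : ∃ s : Multiset (Qd t c), (∀ π ∈ s, Prime π) ∧ Associated s.prod z
  · rw [dif_pos h, dif_pos h, map_multiset_sum, Multiset.map_map]
    rfl
  · rw [dif_neg h, dif_neg h, map_zero]

theorem LS_map (φ : A →+ B) (g : ℕ → A) (N : ℕ) : φ (LS g N) = LS (fun l => φ (g l)) N := by
  unfold LS
  rw [map_list_sum, List.map_map]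
  rfl

theorem vl_map (φ : A →+ B) (t c : ℕ) (E : ℤ → ℤ → A) (n l : ℕ) :
    φ (vl t c E n l) = vl t c (fun x y => φ (E x y)) n l := by
  unfold vl
  by_cases h : ∃ z : ℤ × ℤ, Ab t c n l z
  · rw [dif_pos h, dif_pos h]
  · rw [dif_neg h, dif_neg h, map_zero]

theorem vc_map (φ : A →+ B) (t c : ℕ) (E : ℤ → ℤ → A) (n l : ℕ) :
    φ (vc t c E n l) = vc t c (fun x y => φ (E x y)) n l := by
  unfold vc
  by_cases h : ∃ z : ℤ × ℤ, Ab t c n l z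
  · rw [dif_pos h, dif_pos h]
  · rw [dif_neg h, dif_neg h, map_zero]

theorem HC_map (φ : A →+ B) (t c : ℕ) (E : ℤ → ℤ → A) (τ : A) (p : ℕ × ℕ) :
    φ (HC t c E τ p) = HC t c (fun x y => φ (E x y)) (φ τ) p := by
  unfold HC
  rw [map_add, LS_map, LS_map]
  congr 1
  · unfold LS
    congr 1
    refine List.map_congr_left fun l _ => ?_
    rw [map_sub, vc_map]
  · unfold LS
    congr 1
    refine List.map_congr_left fun l _ => ?_
    rw [vl_map]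

end maps

/-! ### the master theorem -/

section

variable {A₁ A₂ : Type} [AddCommGroup A₁] [AddCommGroup A₂] {t c : ℕ} {f : ℕ}
  {χ : DirichletCharacter ℂ f} {m : ℕ} {E : ℤ → ℤ → A₁} {g : ℤ → ℤ → A₂} {τ₁ : A₁} {τ₂ : A₂}

open scoped Classical in
/-- the primes `p ≤ N` which are norms of elements `x + y ω ≡ 1 mod M` with
`g(x + y ω) - g(x + y ω̄) ∉ B` -/
noncomputable def Pg (t c : ℕ) (g : ℤ → ℤ → A₂) (B : AddSubgroup A₂) (M N : ℕ) : Finset ℕ :=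
  (Icc 1 N).filter (fun p => p.Prime ∧ ∃ x y : ℤ, x ≡ 1 [ZMOD M] ∧ y ≡ 0 [ZMOD M] ∧
    x ^ 2 + t * x * y + c * y ^ 2 = p ∧ g x y - g (x + t * y) (-y) ∉ B)

/-- for every proper subgroup `B` and every modulus `M`, these primes have positive lower density -/
def Gen (t c : ℕ) (g : ℤ → ℤ → A₂) : Prop :=
  ∀ B : AddSubgroup A₂, B ≠ ⊤ → ∀ M : ℕ, 1 ≤ M → ∃ δ : ℝ, 0 < δ ∧ ∃ N₀ : ℕ, ∀ N : ℕ, N₀ ≤ N →
    δ * N ≤ ∑ p ∈ Pg t c g B M N, Real.log p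

theorem u_Pr {A : Type} [AddCommGroup A] [Finite A] (hF : Fd (t : ℤ) (c : ℤ) f χ)
    (hP : S_PID (t : ℤ) (c : ℤ)) {G : ℤ → ℤ → A} (h : Ru t c G) (τ : A) (ψ : AddChar A ℂ) :
    Pr (Nat.card A) (ψ τ)
      (fun z : Qd (t : ℤ) (c : ℤ) => ψ (Hm (fun z : Qd (t : ℤ) (c : ℤ) => τ - ev G z) z))
      (fun z => ψ (Hm (fun z : Qd (t : ℤ) (c : ℤ) => ev G z) z)) where
  cm₁ := cm_Hm (hDG hF) hP (g := fun z : Qd (t : ℤ) (c : ℤ) => τ - ev G z) (fun a b hab => by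
    show τ - ev G a = τ - ev G b
    rw [ev_assocU h (hDG hF) a b hab]) ψ
  cm₂ := cm_Hm (hDG hF) hP (g := fun z : Qd (t : ℤ) (c : ℤ) => ev G z) (ev_assocU h (hDG hF)) ψ
  tw := fun π hπ => by
    have hpr := prime_of_nm (hDG hF) hP hπ
    rw [Hm_prime (hDG hF) (g := fun z : Qd (t : ℤ) (c : ℤ) => τ - ev G z) (fun a b hab => by
      show τ - ev G a = τ - ev G b
      rw [ev_assocU h (hDG hF) a b hab]) hpr,
      Hm_prime (hDG hF) (g := fun z : Qd (t : ℤ) (c : ℤ) => ev G z) (ev_assocU h (hDG hF)) hpr,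
      ← AddChar.map_add_eq_mul, sub_add_cancel]

/-- a uniform bound -/
theorem unif {A : Type} [AddCommGroup A] [Finite A] (ψ : AddChar A ℂ) :
    ∃ η : ℝ, 0 < η ∧ ∀ a : A, ψ a ≠ 1 → ‖1 + ψ a‖ ≤ 2 - η := by
  classical
  have hlt : ∀ a : A, ψ a ≠ 1 → ‖1 + ψ a‖ < 2 := by
    intro a ha
    have hn : ‖ψ a‖ = 1 := chnrm ψ _
    have hre : (ψ a).re < 1 := re_lt_one hn.le ha
    have h1 : ‖1 + ψ a‖ ^ 2 = 2 + 2 * (ψ a).re := by
      rw [← Complex.normSq_eq_norm_sq, Complex.normSq_add, Complex.normSq_one,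
        Complex.normSq_eq_norm_sq, hn, one_mul, Complex.conj_re]
      ring
    have h2 := norm_nonneg (1 + ψ a)
    nlinarith
  obtain ⟨a₀, ha₀⟩ := Finite.exists_min (fun a : A => if ψ a = 1 then (1 : ℝ) else 2 - ‖1 + ψ a‖)
  refine ⟨if ψ a₀ = 1 then (1 : ℝ) else 2 - ‖1 + ψ a₀‖, ?_, fun a ha => ?_⟩
  · split_ifs with h
    · exact one_pos
    · linarith [hlt a₀ h]
  · have h1 := ha₀ a
    beta_reduce at h1
    rw [if_neg ha] at h1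
    linarith

/-- the kernel of a character -/
def kerS {A : Type} [AddCommGroup A] (ψ : AddChar A ℂ) : AddSubgroup A where
  carrier := {b | ψ b = 1}
  zero_mem' := AddChar.map_zero_eq_one ψ
  add_mem' := fun {a b} ha hb => by
    show ψ (a + b) = 1
    rw [AddChar.map_add_eq_mul, show ψ a = 1 from ha, show ψ b = 1 from hb, one_mul]
  neg_mem' := fun {a} ha => by
    show ψ (-a) = 1
    rw [AddChar.map_neg_eq_inv, show ψ a = 1 from ha, inv_one]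

/-- the combined function -/
def cmb (E : ℤ → ℤ → A₁) (g : ℤ → ℤ → A₂) (x y : ℤ) : A₁ × A₂ := (E x y, g x y)

theorem cmb_Ru (h : Rc t c m E) (hg : Ru t c g) : Ru t c (cmb E g) := by
  intro a b x y hab
  unfold cmb
  rw [h.unit a b x y hab, hg a b x y hab]

/-- aperiodicity -/
theorem u_Apd [Finite A₁] [Finite A₂] (hF : Fd (t : ℤ) (c : ℤ) f χ) (hP : S_PID (t : ℤ) (c : ℤ))
    (h : Rc t c m E) (hg : Ru t c g) (hgen : Gen t c g) (τ₁ : A₁) (τ₂ : A₂)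
    (ψ : AddChar (A₁ × A₂) ℂ) (hψ : ∃ d ∈ (Dt t c m E τ₁).prod (⊤ : AddSubgroup A₂), ψ d ≠ 1) :
    Apd (Nat.card (A₁ × A₂)) (fun z : Qd (t : ℤ) (c : ℤ) =>
      ψ (Hm (fun z : Qd (t : ℤ) (c : ℤ) => (τ₁, τ₂) - ev (cmb E g) z) (star z))) ∨
    Apd (Nat.card (A₁ × A₂)) (fun z : Qd (t : ℤ) (c : ℤ) =>
      ψ (Hm (fun z : Qd (t : ℤ) (c : ℤ) => ev (cmb E g) z) z)) := by
  classical
  have hD := hDG hF
  have hu := cmb_Ru h hg
  have hpr := u_Pr hF hP hu (τ₁, τ₂) ψ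
  have ha₂ : ∀ a b : Qd (t : ℤ) (c : ℤ), Associated a b → (fun z => ev (cmb E g) z) a =
      (fun z => ev (cmb E g) z) b := ev_assocU hu hD
  have hsplit : ∀ (a : A₁) (b : A₂), ψ (a, b) = ψ (a, 0) * ψ (0, b) := by
    intro a b
    rw [← AddChar.map_add_eq_mul]
    congr 1
    simp
  by_cases h2 : ∃ b : A₂, ψ (0, b) ≠ 1
  · right
    obtain ⟨ψ₂, hψ₂⟩ : ∃ ψ₂ : AddChar A₂ ℂ, ∀ b, ψ₂ b = ψ (0, b) :=
      ⟨ψ.compAddMonoidHom (AddMonoidHom.inr A₁ A₂), fun b => rfl⟩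
    obtain ⟨η, hη, hη2⟩ := unif ψ₂
    refine apd_of3 hF hP (lconG hF) (Pool.Agent.W240.EG.lnv hF hP (lconG hF)) hpr.cm₂
      (fun u z hu1 => by
        show ψ (Hm (fun z : Qd (t : ℤ) (c : ℤ) => ev (cmb E g) z) (u * z)) =
          ψ (Hm (fun z : Qd (t : ℤ) (c : ℤ) => ev (cmb E g) z) z)
        rw [Hm_unit hD ha₂ hu1]) hη ?_
    intro M hM
    obtain ⟨B, hB⟩ : ∃ B : AddSubgroup A₂, ∀ b, b ∈ B ↔ ψ₂ b = 1 := ⟨kerS ψ₂, fun b => Iff.rfl⟩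
    have hBt : B ≠ ⊤ := by
      obtain ⟨b, hb⟩ := h2
      intro h3
      have h4 : b ∈ B := by rw [h3]; exact AddSubgroup.mem_top _
      rw [hB, hψ₂] at h4
      exact hb h4
    obtain ⟨δ, hδ, N₀, hN₀⟩ := hgen B hBt (M * m) (Nat.mul_pos hM h.pos)
    refine ⟨δ, hδ, N₀, fun N' hN => (hN₀ N' hN).trans ?_⟩
    refine sum_le_sum_of_subset_of_nonneg ?_ ?_
    · intro p hp
      unfold Pg at hp
      unfold Sp
      rw [mem_filter] at hp ⊢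
      obtain ⟨hp1, hp2, x, y, hx, hy, hxy, hB2⟩ := hp
      refine ⟨hp1, hp2, ⟨x, y⟩, ?_, ?_, ?_⟩
      · have h5 := nm_cast hD (⟨x, y⟩ : Qd (t : ℤ) (c : ℤ))
        have h6 : ((nm (⟨x, y⟩ : Qd (t : ℤ) (c : ℤ)) : ℕ) : ℤ) = (p : ℤ) := by
          rw [h5]
          exact hxy
        exact_mod_cast h6
      · rw [red_eq]
        have hM2 : (M : ℤ) ∣ ((M * m : ℕ) : ℤ) := by push_cast; exact dvd_mul_right _ _
        constructor
        · have := (Int.modEq_iff_dvd.1 hx.symm)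
          exact hM2.trans this
        · have := (Int.modEq_iff_dvd.1 hy.symm)
          exact hM2.trans this
      · have hz : (nm (⟨x, y⟩ : Qd (t : ℤ) (c : ℤ))).Prime := by
          have h5 := nm_cast hD (⟨x, y⟩ : Qd (t : ℤ) (c : ℤ))
          have h6 : ((nm (⟨x, y⟩ : Qd (t : ℤ) (c : ℤ)) : ℕ) : ℤ) = (p : ℤ) := by
            rw [h5]
            exact hxy
          have h7 : nm (⟨x, y⟩ : Qd (t : ℤ) (c : ℤ)) = p := by exact_mod_cast h6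
          rw [h7]
          exact hp2
        have hz2 : (nm (star (⟨x, y⟩ : Qd (t : ℤ) (c : ℤ)))).Prime := by
          rw [nm_star]
          exact hz
        show ‖ψ (Hm (fun z : Qd (t : ℤ) (c : ℤ) => ev (cmb E g) z) _) +
          ψ (Hm (fun z : Qd (t : ℤ) (c : ℤ) => ev (cmb E g) z) _)‖ ≤ 2 - η
        rw [Hm_prime hD ha₂ (prime_of_nm hD hP hz), Hm_prime hD ha₂ (prime_of_nm hD hP hz2)]
        have hm2 : (m : ℤ) ∣ ((M * m : ℕ) : ℤ) := by push_cast; exact dvd_mul_left _ _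
        have k1 : x ≡ 1 [ZMOD m] := hx.of_dvd hm2
        have k2 : y ≡ 0 [ZMOD m] := hy.of_dvd hm2
        have k3 : x + t * y ≡ 1 [ZMOD m] := by
          have := k1.add (k2.mul_left (t : ℤ))
          simpa using this
        have k4 : -y ≡ 0 [ZMOD m] := by
          have := k2.neg
          simpa using this
        have e1 : ev (cmb E g) (⟨x, y⟩ : Qd (t : ℤ) (c : ℤ)) = (E 1 0, g x y) := by
          show (E x y, g x y) = (E 1 0, g x y)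
          rw [h.per x y 1 0 k1 k2]
        have e2 : ev (cmb E g) (star (⟨x, y⟩ : Qd (t : ℤ) (c : ℤ))) =
            (E 1 0, g (x + t * y) (-y)) := by
          show (E (x + t * y) (-y), g (x + t * y) (-y)) = (E 1 0, g (x + t * y) (-y))
          rw [h.per (x + t * y) (-y) 1 0 k3 k4]
        beta_reduce
        rw [e1, e2]
        have e3 : ψ (E 1 0, g x y) = ψ (E 1 0, g (x + t * y) (-y)) *
            ψ₂ (g x y - g (x + t * y) (-y)) := by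
          rw [hψ₂, ← AddChar.map_add_eq_mul]
          congr 1
          rw [Prod.mk_add_mk, add_zero, add_sub_cancel]
        have e4 : ψ (E 1 0, g x y) + ψ (E 1 0, g (x + t * y) (-y)) =
            ψ (E 1 0, g (x + t * y) (-y)) * (1 + ψ₂ (g x y - g (x + t * y) (-y))) := by
          rw [e3]
          ring
        rw [e4, norm_mul, chnrm, one_mul]
        refine hη2 _ ?_
        exact fun h5 => hB2 ((hB _).2 h5)
    · intro p hp _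
      unfold Sp at hp
      have := (mem_filter.1 hp).2.1
      exact Real.log_nonneg (by exact_mod_cast this.one_lt.le)
  · push Not at h2
    obtain ⟨ψ₁, hψ₁⟩ : ∃ ψ₁ : AddChar A₁ ℂ, ∀ a, ψ₁ a = ψ (a, 0) :=
      ⟨ψ.compAddMonoidHom (AddMonoidHom.inl A₁ A₂), fun b => rfl⟩
    have hfst : ∀ x : A₁ × A₂, ψ x = ψ₁ (AddMonoidHom.fst A₁ A₂ x) := by
      rintro ⟨a, b⟩
      rw [hsplit, h2, mul_one, hψ₁]
      rfl
    have hψ' : ∃ d ∈ Dt t c m E τ₁, ψ₁ d ≠ 1 := by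
      obtain ⟨⟨a, b⟩, hd, hd1⟩ := hψ
      refine ⟨a, (AddSubgroup.mem_prod.1 hd).1, ?_⟩
      rw [hfst] at hd1
      exact hd1
    have e1 : ∀ z : Qd (t : ℤ) (c : ℤ),
        ψ (Hm (fun z : Qd (t : ℤ) (c : ℤ) => (τ₁, τ₂) - ev (cmb E g) z) z) =
        ψ₁ (Hm (fun z : Qd (t : ℤ) (c : ℤ) => τ₁ - ev E z) z) := by
      intro z
      rw [hfst, Hm_map]
      rfl
    have e2 : ∀ z : Qd (t : ℤ) (c : ℤ),
        ψ (Hm (fun z : Qd (t : ℤ) (c : ℤ) => ev (cmb E g) z) z) =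
        ψ₁ (Hm (fun z : Qd (t : ℤ) (c : ℤ) => ev E z) z) := by
      intro z
      rw [hfst, Hm_map]
      rfl
    have hsne : ∀ z : Qd (t : ℤ) (c : ℤ), z ≠ 0 → star z ≠ 0 := fun z hz h => hz (by
      rw [← star_star z, h, star_zero])
    rcases c_Apd hF hP h τ₁ ψ₁ hψ' with h3 | h3
    · left
      have h4 : (fun z : Qd (t : ℤ) (c : ℤ) =>
          ψ (Hm (fun z : Qd (t : ℤ) (c : ℤ) => (τ₁, τ₂) - ev (cmb E g) z) (star z))) =
          fun z => ψ₁ (Hm (fun z : Qd (t : ℤ) (c : ℤ) => τ₁ - ev E z) (star z)) := by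
        funext z
        exact e1 (star z)
      have hc₁ := hpr.cm₁
      refine ⟨⟨hc₁.pos, fun z w hz hw => ?_, fun z => hc₁.pow _⟩, ?_⟩
      · show ψ (Hm (fun z : Qd (t : ℤ) (c : ℤ) => (τ₁, τ₂) - ev (cmb E g) z) (star (z * w))) =
          ψ (Hm (fun z : Qd (t : ℤ) (c : ℤ) => (τ₁, τ₂) - ev (cmb E g) z) (star z)) *
          ψ (Hm (fun z : Qd (t : ℤ) (c : ℤ) => (τ₁, τ₂) - ev (cmb E g) z) (star w))
        rw [star_mul']
        exact hc₁.mul _ _ (hsne z hz) (hsne w hw)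
      · rw [h4]
        exact h3.2
    · right
      have h4 : (fun z : Qd (t : ℤ) (c : ℤ) =>
          ψ (Hm (fun z : Qd (t : ℤ) (c : ℤ) => ev (cmb E g) z) z)) =
          fun z => ψ₁ (Hm (fun z : Qd (t : ℤ) (c : ℤ) => ev E z) z) := by
        funext z
        exact e2 z
      refine ⟨hpr.cm₂, ?_⟩
      rw [h4]
      exact h3.2

open scoped Classical in
/-- cancellation -/
theorem avU [Finite A₁] [Finite A₂] (hF : Fd (t : ℤ) (c : ℤ) f χ)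
    (h : Rc t c m E) (hg : Ru t c g) (hgen : Gen t c g) (τ₁ : A₁) (τ₂ : A₂)
    (ψ : AddChar (A₁ × A₂) ℂ) (hψ : ∃ d ∈ (Dt t c m E τ₁).prod (⊤ : AddSubgroup A₂), ψ d ≠ 1)
    (q a r : ℕ) (hq : 1 ≤ q)
    (s₁ s₂ s₃ s₄ : ℝ) (hs1 : 0 ≤ s₁) (hs12 : s₁ < s₂)
    (hs2 : s₂ ≤ 1) (hs3 : 0 ≤ s₃) (hs34 : s₃ < s₄) (hs4 : s₄ ≤ 1) :
    Av (fun X => ‖∑ p ∈ SW (t : ℤ) (c : ℤ) q a r s₁ s₂ s₃ s₄ X,
      ψ (HC t c (cmb E g) (τ₁, τ₂) p)‖) := by
  have hP : S_PID (t : ℤ) (c : ℤ) := Pool.Agent.W290.EG.pid hF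
  have hD := hDG hF
  have hu := cmb_Ru h hg
  have hu₁ : ∀ u z : Qd (t : ℤ) (c : ℤ), nm u = 1 →
      ψ (Hm (fun z : Qd (t : ℤ) (c : ℤ) => (τ₁, τ₂) - ev (cmb E g) z) (u * z)) =
      ψ (Hm (fun z : Qd (t : ℤ) (c : ℤ) => (τ₁, τ₂) - ev (cmb E g) z) z) := fun u z hu1 => by
    rw [Hm_unit hD (g := fun z : Qd (t : ℤ) (c : ℤ) => (τ₁, τ₂) - ev (cmb E g) z)
      (fun a b hab => by
      show (τ₁, τ₂) - ev (cmb E g) a = (τ₁, τ₂) - ev (cmb E g) b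
      rw [ev_assocU hu hD a b hab]) hu1]
  have hu₂ : ∀ u z : Qd (t : ℤ) (c : ℤ), nm u = 1 →
      ψ (Hm (fun z : Qd (t : ℤ) (c : ℤ) => ev (cmb E g) z) (u * z)) =
      ψ (Hm (fun z : Qd (t : ℤ) (c : ℤ) => ev (cmb E g) z) z) := fun u z hu1 => by
    rw [Hm_unit hD (g := fun z : Qd (t : ℤ) (c : ℤ) => ev (cmb E g) z) (ev_assocU hu hD) hu1]
  intro ε hε
  obtain ⟨N₀, hN₀⟩ := twR' hF (u_Pr hF hP hu (τ₁, τ₂) ψ) hu₁ hu₂
    (u_Apd hF hP h hg hgen τ₁ τ₂ ψ hψ) q a r hq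
    s₁ s₂ s₃ s₄ hs1 hs12 hs2 hs3 hs34 hs4 ε hε
  refine ⟨N₀, fun N' hN => le_trans (le_of_eq (sum_congr rfl fun X _ => ?_)) (hN₀ N' hN)⟩
  refine congrArg (fun z : ℂ => 1 / (X : ℝ) ^ 2 * ‖z‖) (sum_congr rfl fun p hp => ?_)
  obtain ⟨⟨⟨h1, _⟩, h2, _⟩, ⟨n, h3, h4, _, _⟩, _⟩ := mem_SWn.1 hp
  obtain ⟨v, w, e1, e2, e3, e4, _, e6⟩ := pair_ofU hF hP hu (τ₁, τ₂) h1 h3 h4
  have h5 := PhR_eq (F₁ := fun z : Qd (t : ℤ) (c : ℤ) =>
    ψ (Hm (fun z : Qd (t : ℤ) (c : ℤ) => (τ₁, τ₂) - ev (cmb E g) z) z))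
    (F₂ := fun z => ψ (Hm (fun z : Qd (t : ℤ) (c : ℤ) => ev (cmb E g) z) z)) hF hu₁ hu₂ e3 e4
  rw [e1, e2] at h5
  rw [h5, ← AddChar.map_add_eq_mul, ← e6]

/-- the two components -/
theorem HC_cmb (t c : ℕ) (E : ℤ → ℤ → A₁) (g : ℤ → ℤ → A₂) (τ₁ : A₁) (τ₂ : A₂) (p : ℕ × ℕ) :
    HC t c (cmb E g) (τ₁, τ₂) p = (HC t c E τ₁ p, HC t c g τ₂ p) := by
  have h1 := HC_map (AddMonoidHom.fst A₁ A₂) t c (cmb E g) (τ₁, τ₂) p
  have h2 := HC_map (AddMonoidHom.snd A₁ A₂) t c (cmb E g) (τ₁, τ₂) p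
  exact Prod.ext h1 h2

open scoped Classical in
/-- equidistribution over the factorisations in windows -/
theorem outU [Finite A₁] [Finite A₂] (hF : Fd (t : ℤ) (c : ℤ) f χ) (h : Rc t c m E)
    (hg : Ru t c g) (hgen : Gen t c g) {g₁ : A₁} (g₂ : A₂)
    {q a r : ℕ} (hq : 1 ≤ q) (had : Adc t c m q a r E τ₁ g₁)
    (s₁ s₂ s₃ s₄ : ℝ) (hs1 : 0 ≤ s₁) (hs12 : s₁ < s₂)
    (hs2 : s₂ ≤ 1) (hs3 : 0 ≤ s₃) (hs34 : s₃ < s₄) (hs4 : s₄ ≤ 1) (ε : ℝ) (hε : 0 < ε) :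
    LogNull (fun X : ℕ => ε * X < |∑ p ∈ SW (t : ℤ) (c : ℤ) q a r s₁ s₂ s₃ s₄ X,
      dv (HC t c (cmb E g) (τ₁, τ₂)) (g₁, g₂) (Nat.card (Dt t c m E τ₁) * Nat.card A₂) p|) := by
  have hP : S_PID (t : ℤ) (c : ℤ) := Pool.Agent.W290.EG.pid hF
  have hcard : Nat.card ((Dt t c m E τ₁).prod (⊤ : AddSubgroup A₂)) =
      Nat.card (Dt t c m E τ₁) * Nat.card A₂ := by
    rw [Nat.card_congr (AddSubgroup.prodEquiv (Dt t c m E τ₁) (⊤ : AddSubgroup A₂)).toEquiv,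
      Nat.card_prod, AddSubgroup.card_top]
  rw [← hcard]
  refine null_dv (av_dv (D := (Dt t c m E τ₁).prod (⊤ : AddSubgroup A₂))
    (H := HC t c (cmb E g) (τ₁, τ₂)) (g₁, g₂)
    (fun X => SW (t : ℤ) (c : ℤ) q a r s₁ s₂ s₃ s₄ X) (fun X p hp => ?_) (fun ψ hψ => ?_)) ε hε
  · obtain ⟨⟨⟨h1, _⟩, h2, _⟩, ⟨n, h3, h4, h5, h6⟩, _⟩ := mem_SWn.1 hp
    rw [HC_cmb]
    refine AddSubgroup.mem_prod.2 ⟨?_, AddSubgroup.mem_top _⟩
    exact hc_mem hF hP h had h1 h3 h4 h5 h6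
  · exact avU hF h hg hgen τ₁ τ₂ ψ hψ q a r hq s₁ s₂ s₃ s₄ hs1 hs12 hs2 hs3 hs34 hs4

end

end Pool.Agent.V11296.DA
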