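import Pool.Agent.V11296.DA3

/-!
Primes in the class of `1` (helper296): the functions for which the two values are always different
are generic.
-/

set_option autoImplicit false

namespace Pool.Agent.V11296.DA

open Finset Filter Topology
open Pool.Agent.W78.GA
open Pool.Agent.W357.EG (Nn mem_Nn aL_eq isDomain)
open Pool.Agent.W78.EG
open Pool.Agent.W251.EG
open Pool.Agent.W738.EG (RM red red_eq red_surj isUnit_red PerM)
open Pool.Agent.W584.EG (uc_pos)
open Pool.Agent.V11296.CY (Mr Bk_le' Bk_prime)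

section

variable {t c : ℤ}

theorem mv_pos {M : ℕ} (hM : 1 ≤ M) {F : Qd t c → ℂ}
    (hF : F = fun w => open scoped Classical in if red t c M w = red t c M 1 then 1 else 0) :
    0 < (mv M F).re := by
  classical
  have hM0 : M ≠ 0 := by omega
  unfold mv
  rw [dif_neg hM0]
  have : NeZero M := ⟨hM0⟩
  let _ : Fintype (RM t c M)ˣ := Fintype.ofFinite _
  obtain ⟨rep, hrep'⟩ : ∃ rep, rep = (red_surj (t := t) (c := c) M).hasRightInverse.choose :=
    ⟨_, rfl⟩
  have hrep : Function.RightInverse rep (red t c M) := by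
    rw [hrep']
    exact (red_surj (t := t) (c := c) M).hasRightInverse.choose_spec
  rw [← hrep', Nat.card_eq_fintype_card]
  have hu : IsUnit (red t c M 1) := isUnit_red.2 isCoprime_one_left
  have h5 : ∑ a : (RM t c M)ˣ, F (rep a) = 1 := by
    rw [Finset.sum_eq_single_of_mem hu.unit (Finset.mem_univ _)]
    · rw [hF]
      simp only
      rw [if_pos]
      rw [hrep, IsUnit.unit_spec]
    · intro b _ hb
      rw [hF]
      simp only
      rw [if_neg]
      intro h6
      apply hb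
      apply Units.ext
      rw [IsUnit.unit_spec, ← h6, hrep]
  rw [h5, Complex.div_natCast_re, Complex.one_re]
  have : 0 < Fintype.card (RM t c M)ˣ := Fintype.card_pos
  positivity

open scoped Classical in
/-- the primes which are norms of elements `≡ 1 mod M` have positive lower density -/
theorem dens {f : ℕ} {χ : DirichletCharacter ℂ f} (hF : Fd t c f χ) (hP : S_PID t c)
    (hL : S_LCON t c) (hN : S_LNV t c) {M : ℕ} (hM : 1 ≤ M) :
    ∃ δ : ℝ, 0 < δ ∧ ∃ N₀ : ℕ, ∀ N : ℕ, N₀ ≤ N → δ * N ≤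
      ∑ p ∈ (Icc 1 N).filter (fun p : ℕ => p.Prime ∧ ¬ p ∣ f ∧ ∃ z : Qd t c, nm z = p ∧
        red t c M z = red t c M 1), Real.log p := by
  have hD : t ^ 2 < 4 * c := by
    have h1 := hF.disc
    have h2 : (3 : ℤ) ≤ f := by exact_mod_cast hF.three
    linarith
  have hucp : (0 : ℝ) < uc t c := by exact_mod_cast uc_pos hD
  have hf : f ≠ 0 := by have := hF.three; omega
  obtain ⟨Ψ, hΨ⟩ : ∃ Ψ : Qd t c → ℂ, Ψ = fun w =>
    if red t c M w = red t c M 1 then 1 else 0 := ⟨_, rfl⟩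
  have hper : PerM M Ψ := by
    intro x y hxy
    rw [hΨ]
    simp only [hxy]
  have h0 : ∀ w : Qd t c, ¬ IsCoprime w (M : Qd t c) → Ψ w = 0 := by
    intro w hw
    rw [hΨ]
    simp only
    rw [if_neg]
    intro h1
    apply hw
    rw [← isUnit_red (M := M), h1, isUnit_red]
    exact isCoprime_one_left
  have hmv := mv_pos hM hΨ
  have l3 := lim_class hF hP hL hN hM hper h0
  obtain ⟨μ, hμ⟩ : ∃ μ : ℝ, μ = (mv M Ψ).re := ⟨_, rfl⟩
  rw [← hμ] at hmv
  have ev1 := l3.eventually (Metric.ball_mem_nhds _ (show (0 : ℝ) < μ / 2 by positivity))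
  obtain ⟨x₀, hx₀⟩ := eventually_atTop.1 ev1
  -- the bound for the coefficients
  have H : Mr (fun _ : Qd t c => (1 : ℂ)) :=
    ⟨fun _ _ _ _ => (one_mul 1).symm, rfl, fun _ _ => rfl, fun _ => by rw [norm_one]⟩
  have hb3 : ∀ p : ℕ, p.Prime → ((Nn t c p).card : ℝ) / (uc t c : ℝ) ≤ 2 := by
    intro p hp
    have h1 := Bk_le' hD hP H p
    rw [Bk_prime hD hP H hp, ArithmeticFunction.vonMangoldt_apply_prime hp, norm_mul,
      Complex.norm_real, Real.norm_eq_abs] at h1
    have h2 : 0 < Real.log p := Real.log_pos (by exact_mod_cast hp.one_lt)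
    rw [abs_of_pos h2, mul_comm] at h1
    have h3 := le_of_mul_le_mul_right h1 h2
    rw [aL_eq, sum_const, nsmul_eq_mul, mul_one, norm_div, Complex.norm_natCast,
      Complex.norm_natCast] at h3
    exact h3
  have hre : ∀ p : ℕ, (aL Ψ p).re = (∑ z ∈ Nn t c p, (Ψ z).re) / (uc t c : ℝ) := by
    intro p
    rw [aL_eq, Complex.div_natCast_re, Complex.re_sum]
  have hΨ01 : ∀ z, (Ψ z).re ≤ 1 ∧ 0 ≤ (Ψ z).re := by
    intro z
    rw [hΨ]
    simp only
    split_ifs <;> simp
  obtain ⟨C₀, hC₀⟩ : ∃ C₀ : ℝ, C₀ = 2 * ∑ p ∈ f.divisors, Real.log p := ⟨_, rfl⟩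
  refine ⟨μ / 8, by positivity, max (max 1 ⌈x₀⌉₊) ⌈4 * C₀ / μ⌉₊, fun N hN' => ?_⟩
  have hNb : 1 ≤ N := ((le_max_left _ _).trans (le_max_left _ _)).trans hN'
  have hNc : x₀ ≤ N := (Nat.le_ceil _).trans (by
    exact_mod_cast ((le_max_right _ _).trans (le_max_left _ _)).trans hN')
  have hNd : 4 * C₀ / μ ≤ N := (Nat.le_ceil _).trans (by
    exact_mod_cast (le_max_right _ _).trans hN')
  have hN0 : (0 : ℝ) < N := by exact_mod_cast hNb
  rw [div_le_iff₀ hmv] at hNd
  have g1 := hx₀ N hNc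
  rw [dist_eq_norm] at g1
  have g2 := (Complex.abs_re_le_norm _).trans g1.le
  rw [Complex.sub_re, Complex.div_ofReal_re, ← hμ] at g2
  have g3 := (abs_le.1 g2).1
  have g4 : μ / 2 * N ≤ (SPr (aL Ψ) N).re := by
    rw [← le_div_iff₀ hN0]
    linarith
  have g5 : (SPr (aL Ψ) N).re = ∑ p ∈ (Icc 1 N).filter Nat.Prime, Real.log p * (aL Ψ p).re := by
    unfold SPr
    rw [Complex.re_sum, Nat.floor_natCast]
    refine sum_congr rfl fun n _ => ?_
    rw [Complex.re_ofReal_mul]
  have hpt : ∀ p ∈ (Icc 1 N).filter Nat.Prime, Real.log p * (aL Ψ p).re ≤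
      2 * (if ¬ p ∣ f ∧ ∃ z : Qd t c, nm z = p ∧ red t c M z = red t c M 1 then Real.log p else 0) +
      2 * (if p ∈ f.divisors then Real.log p else 0) := by
    intro p hp
    have hpp := (mem_filter.1 hp).2
    have hl : 0 ≤ Real.log p := Real.log_nonneg (by exact_mod_cast hpp.one_lt.le)
    have h1 : (aL Ψ p).re ≤ 2 := by
      rw [hre]
      refine le_trans (div_le_div_of_nonneg_right ?_ hucp.le) (hb3 p hpp)
      refine (sum_le_card_nsmul _ _ 1 fun z _ => (hΨ01 z).1).trans ?_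
      rw [nsmul_eq_mul, mul_one]
    have h2 : Real.log p * (aL Ψ p).re ≤ 2 * Real.log p := by
      have := mul_le_mul_of_nonneg_left h1 hl
      linarith
    by_cases h3 : p ∣ f
    · have h4 : p ∈ f.divisors := Nat.mem_divisors.2 ⟨h3, hf⟩
      rw [if_pos h4, if_neg (fun h => h.1 h3)]
      linarith
    · have h4 : p ∉ f.divisors := fun h => h3 (Nat.mem_divisors.1 h).1
      rw [if_neg h4]
      by_cases h5 : ∃ z : Qd t c, nm z = p ∧ red t c M z = red t c M 1
      · rw [if_pos ⟨h3, h5⟩]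
        linarith
      · rw [if_neg (fun h => h5 h.2)]
        have h6 : (aL Ψ p).re = 0 := by
          rw [hre, div_eq_zero_iff]
          left
          refine sum_eq_zero fun z hz => ?_
          rw [hΨ]
          simp only
          rw [if_neg, Complex.zero_re]
          intro h7
          exact h5 ⟨z, ((mem_Nn hD).1 hz).2, h7⟩
        rw [h6, mul_zero]
        linarith
  have h1 := sum_le_sum hpt
  rw [← g5, sum_add_distrib, ← mul_sum, ← mul_sum, ← sum_filter, ← sum_filter] at h1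
  have h2 : ∑ p ∈ ((Icc 1 N).filter Nat.Prime).filter (fun p => p ∈ f.divisors), Real.log p ≤
      ∑ p ∈ f.divisors, Real.log p := by
    refine sum_le_sum_of_subset_of_nonneg ?_ ?_
    · intro p hp
      exact (mem_filter.1 hp).2
    · intro p hp _
      have h4 : 1 ≤ p := Nat.pos_of_mem_divisors hp
      exact Real.log_nonneg (by exact_mod_cast h4)
  have h3 : ((Icc 1 N).filter Nat.Prime).filter (fun p : ℕ => ¬ p ∣ f ∧ ∃ z : Qd t c, nm z = p ∧
      red t c M z = red t c M 1) = (Icc 1 N).filter (fun p : ℕ => p.Prime ∧ ¬ p ∣ f ∧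
      ∃ z : Qd t c, nm z = p ∧ red t c M z = red t c M 1) := by
    rw [filter_filter]
  rw [h3] at h1
  linarith

end

section

variable {A : Type} [AddCommGroup A] {t c : ℕ} {f : ℕ} {χ : DirichletCharacter ℂ f}

/-- if `g(π) - g(π̄)` is in no proper subgroup, for all `π` of prime norm not dividing the
discriminant, then `g` is generic -/
theorem gen_of (hF : Fd (t : ℤ) (c : ℤ) f χ) {g : ℤ → ℤ → A}
    (h : ∀ (x y : ℤ) (p : ℕ), p.Prime → ¬ p ∣ f → x ^ 2 + t * x * y + c * y ^ 2 = p →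
      ∀ B : AddSubgroup A, B ≠ ⊤ → g x y - g (x + t * y) (-y) ∉ B) : Gen t c g := by
  classical
  have hP : S_PID (t : ℤ) (c : ℤ) := Pool.Agent.W290.EG.pid hF
  have hD := hDG hF
  intro B hB M hM
  obtain ⟨δ, hδ, N₀, hN₀⟩ := dens hF hP (lconG hF) (Pool.Agent.W240.EG.lnv hF hP (lconG hF)) hM
  refine ⟨δ, hδ, N₀, fun N hN => (hN₀ N hN).trans ?_⟩
  refine sum_le_sum_of_subset_of_nonneg ?_ ?_
  · intro p hp
    unfold Pg
    rw [mem_filter] at hp ⊢
    obtain ⟨h1, h2, h3, z, h4, h5⟩ := hp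
    rw [red_eq] at h5
    have h6 : z.re ^ 2 + t * z.re * z.im + c * z.im ^ 2 = (p : ℤ) := by
      rw [← nm_cast hD, h4]
    refine ⟨h1, h2, z.re, z.im, ?_, ?_, h6, h _ _ p h2 h3 h6 B hB⟩
    · have h7 : (M : ℤ) ∣ z.re - 1 := by
        have := h5.1
        rwa [QuadraticAlgebra.re_one] at this
      exact (Int.modEq_iff_dvd.2 h7).symm
    · have h7 : (M : ℤ) ∣ z.im - 0 := by
        have := h5.2
        rwa [QuadraticAlgebra.im_one] at this
      exact (Int.modEq_iff_dvd.2 h7).symm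
  · intro p hp _
    unfold Pg at hp
    have := (mem_filter.1 hp).2.1
    exact Real.log_nonneg (by exact_mod_cast this.one_lt.le)

end

end Pool.Agent.V11296.DA
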