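import Pool.Agent.V11296.DA4

/-!
Functions of the factorisations of the values of general quadratic polynomials `a n^2 + b n + e` of
class number one discriminants (helper296), part 1: from `x^2 + t x + c` to `a n^2 + b n + e`,
logarithmic weights and the number of the `n`.
-/

set_option autoImplicit false

namespace Pool.Agent.V11296.EA

open Finset Filter Topology
open Pool.Agent.W78.GA
open Pool.Agent.W78.EG
open Pool.Agent.W251.EG
open Pool.Agent.W251.EX (tt)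
open Pool.Agent.W293.EG (PP mem_PP wt wt_nonneg compare scale_sum abel mem_SV ev_log)
open Pool.Agent.TH890.DV (LogNull LogNull.of_ev)
open Pool.Agent.V11296.CX (null_sum f_inj quot_id cf2)
open Pool.Agent.V11296.CQ
open Pool.Agent.V11296.CR
open Pool.Agent.V11296.CY (dv abs_dv Wn)

variable {G : Type}

section

variable {t c : ℕ} {f : ℕ} {χ : DirichletCharacter ℂ f}

/-- equidistribution in all the windows -/
def WnV (a b e : ℤ) (H : ℕ × ℕ → G) (g : G) (K q u : ℕ) : Prop :=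
  ∀ r : ℕ, ∀ s₁ s₂ s₃ s₄ : ℝ, 0 ≤ s₁ → s₁ < s₂ → 0 ≤ s₃ → s₃ < s₄ →
    ∀ ε : ℝ, 0 < ε → LogNull (fun X : ℕ => ε * X <
      |∑ p ∈ SV a b e q u r s₁ s₂ s₃ s₄ X, dv H g K p|)

open scoped Classical in
/-- from `F` to `f` with `a f(n) = F(a n + β)` -/
theorem wnV_of (hF : Fd (t : ℤ) (c : ℤ) f χ) {a b e : ℤ} (ha : 0 < a)
    (hdisc : b ^ 2 - 4 * a * e = (t : ℤ) ^ 2 - 4 * (c : ℤ)) {A : ℕ} (hA : (A : ℤ) = a) {β : ℤ}
    (hb : b = 2 * β + t) {q : ℕ} (hq : 1 ≤ q) (u : ℕ) {H : ℕ × ℕ → G} {g : G} {K : ℕ}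
    (hw : ∀ n₀ : ℕ, (n₀ : ℤ) ≡ a * u + β [ZMOD (a * q)] → Wn t c H g K (A * q) n₀) :
    WnV a b e (fun p => H (A * p.1, p.2)) g K q u := by
  intro r s₁ s₂ s₃ s₄ hs₁ hs₁₂ hs₃ hs₃₄ ε hε
  have hA1 : 1 ≤ A := by omega
  obtain ⟨C, hC⟩ := exists_nat_ge (max 1 (max (A * s₂) s₄))
  have hC1 : 1 ≤ C := by
    have : (1 : ℝ) ≤ C := (le_max_left _ _).trans hC
    exact_mod_cast this
  have hC2 : A * s₂ ≤ C := ((le_max_left _ _).trans (le_max_right _ _)).trans hC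
  have hC4 : s₄ ≤ C := ((le_max_right _ _).trans (le_max_right _ _)).trans hC
  have haq : (0 : ℤ) < a * q := by positivity
  obtain ⟨n₀, hn₀⟩ := Int.eq_ofNat_of_zero_le (Int.emod_nonneg (a * u + β) haq.ne')
  have hn₀' : (n₀ : ℤ) ≡ a * u + β [ZMOD (a * q)] := by
    have : (n₀ : ℤ) = (a * u + β) % (a * q) := hn₀.symm
    rw [this]
    exact Int.mod_modEq _ _
  obtain ⟨small, hsmall⟩ : ∃ small : Finset (ℕ × ℕ),
    small = Icc 1 (b ^ 2 + f).toNat ×ˢ Icc 1 (b ^ 2 + f).toNat := ⟨_, rfl⟩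
  have hinj : Function.Injective (fun p : ℕ × ℕ => (A * p.1, p.2)) := by
    intro p p' hpp
    simp only [Prod.mk.injEq] at hpp
    exact Prod.ext (Nat.eq_of_mul_eq_mul_left (by omega) hpp.1) hpp.2
  have hC0 : (0 : ℝ) < C := by exact_mod_cast hC1
  have hA0 : (0 : ℝ) < A := by exact_mod_cast hA1
  have hle : ∀ X : ℕ, |∑ p ∈ SV a b e q u r s₁ s₂ s₃ s₄ X, dv (fun p => H (A * p.1, p.2)) g K p| ≤
      |∑ p ∈ SW (t : ℤ) (c : ℤ) (A * q) n₀ (A * r) (A * s₁ / C) (A * s₂ / C) (s₃ / C) (s₄ / C)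
        (C * X), dv H g K p| + 2 * small.card := by
    intro X
    have c1 := sum_cmp hinj (S := SV a b e q u r s₁ s₂ s₃ s₄ X)
      (T := SW (t : ℤ) (c : ℤ) (A * q) n₀ (A * r) (A * s₁ / C) (A * s₂ / C) (s₃ / C) (s₄ / C)
        (C * X))
      (small := small)
      (by
        rw [hsmall]
        exact Pool.Agent.W347.EG.fwd hF.tt hF.disc hb hdisc hA hA1 hn₀' hC1 hC2 hC4 (by linarith)
          (by linarith))
      (by
        rw [hsmall]
        exact Pool.Agent.W347.EG.bwd hF.disc hb hdisc hA hA1 hn₀' hC1)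
      (fun p => ((dv H g K p : ℝ) : ℂ))
      (fun P _ => by
        rw [Complex.norm_real, Real.norm_eq_abs]
        exact abs_dv H g K P)
      (fun P _ => by
        rw [Complex.norm_real, Real.norm_eq_abs]
        exact abs_dv H g K _)
    have c2 : ∑ p ∈ SV a b e q u r s₁ s₂ s₃ s₄ X, (fun p => ((dv H g K p : ℝ) : ℂ))
        ((fun p : ℕ × ℕ => (A * p.1, p.2)) p) =
        ((∑ p ∈ SV a b e q u r s₁ s₂ s₃ s₄ X, dv (fun p => H (A * p.1, p.2)) g K p : ℝ) : ℂ) := by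
      rw [Complex.ofReal_sum]
      exact sum_congr rfl fun p _ => rfl
    have c3 : ∑ P ∈ SW (t : ℤ) (c : ℤ) (A * q) n₀ (A * r) (A * s₁ / C) (A * s₂ / C) (s₃ / C)
        (s₄ / C) (C * X), (fun p => ((dv H g K p : ℝ) : ℂ)) P =
        ((∑ P ∈ SW (t : ℤ) (c : ℤ) (A * q) n₀ (A * r) (A * s₁ / C) (A * s₂ / C) (s₃ / C)
        (s₄ / C) (C * X), dv H g K P : ℝ) : ℂ) := by
      rw [Complex.ofReal_sum]
    rw [c2, c3, ← Complex.ofReal_sub, Complex.norm_real, Real.norm_eq_abs] at c1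
    have c4 := abs_sub_abs_le_abs_sub
      (∑ p ∈ SV a b e q u r s₁ s₂ s₃ s₄ X, dv (fun p => H (A * p.1, p.2)) g K p)
      (∑ P ∈ SW (t : ℤ) (c : ℤ) (A * q) n₀ (A * r) (A * s₁ / C) (A * s₂ / C) (s₃ / C)
        (s₄ / C) (C * X), dv H g K P)
    linarith
  exact Pool.Agent.W347.EG.bad_scales
    (g := fun X => |∑ p ∈ SV a b e q u r s₁ s₂ s₃ s₄ X, dv (fun p => H (A * p.1, p.2)) g K p|)
    (g' := fun X => |∑ p ∈ SW (t : ℤ) (c : ℤ) (A * q) n₀ (A * r) (A * s₁ / C)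
    (A * s₂ / C) (s₃ / C) (s₄ / C) X, dv H g K p|) hC1 hle
    (fun ε' hε' => hw n₀ hn₀' (A * r) _ _ _ _
      (by positivity) (by gcongr) (by rwa [div_le_one hC0]) (by positivity) (by gcongr)
      (by rwa [div_le_one hC0]) ε' hε') hε

open scoped Classical in
/-- the deviation over all the pairs -/
theorem nullPV {a b e : ℤ} {H : ℕ × ℕ → G} {g : G} {K q u : ℕ} (hq : 1 ≤ q)
    (hw : WnV a b e H g K q u) (ε : ℝ) (hε : 0 < ε) :
    LogNull (fun X : ℕ => ε * X < |∑ p ∈ PP a b e q u X, dv H g K p|) := by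
  refine LogNull.of_ev 0 (fun X _ hX => ?_) (null_sum (range q)
    (fun r X => |∑ p ∈ SV a b e q u r 0 1 0 1 X, dv H g K p|)
    (fun r _ ε' hε' => hw r 0 1 0 1 le_rfl one_pos le_rfl one_pos ε' hε') ε hε)
  refine lt_of_lt_of_le hX ?_
  rw [← sum_fiberwise_of_maps_to (s := PP a b e q u X) (t := range q)
    (g := fun p : ℕ × ℕ => p.1 % q) (fun p _ => mem_range.2 (Nat.mod_lt _ (by omega)))]
  refine (abs_sum_le_sum_abs _ _).trans (sum_le_sum fun r hr => le_of_eq ?_)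
  congr 1
  refine sum_congr ?_ fun _ _ => rfl
  have hr' : r % q = r := Nat.mod_eq_of_lt (mem_range.1 hr)
  ext p
  rw [mem_filter, mem_SV]
  refine and_congr_right fun _ => ?_
  constructor
  · intro h1
    show p.1 % q = r % q
    rw [h1, hr']
  · intro h1
    have h2 : p.1 % q = r % q := h1
    rw [h2, hr']

open scoped Classical in
theorem smallV {a b e : ℤ} {H : ℕ × ℕ → G} {g : G} {K q u : ℕ} (hq : 1 ≤ q)
    (hw : WnV a b e H g K q u) {C5 : ℝ} (hC5 : 0 ≤ C5)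
    (hcard : ∀ N : ℕ, 1 ≤ N → ((PP a b e q u N).card : ℝ) ≤ C5 * N) (ε : ℝ) (hε : 0 < ε) :
    ∀ᶠ N : ℕ in atTop, |∑ p ∈ PP a b e q u N, dv H g K p * Pool.Agent.W293.EG.wt p| ≤
      ε * Real.log N := by
  have h := scale_sum (fun X => ∑ p ∈ PP a b e q u X, dv H g K p)
    {((0, 0) : ℕ × ℕ)}
    (fun _ X => |∑ p ∈ PP a b e q u X, dv H g K p|) hC5 ?_ ?_ ?_ ε hε
  · filter_upwards [h] with N hN
    rw [abel]
    exact hN
  · intro X hX
    refine ((abs_sum_le_sum_abs _ _).trans ?_).trans (hcard X hX)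
    refine (sum_le_card_nsmul _ _ 1 fun p _ => abs_dv H g K p).trans ?_
    rw [nsmul_eq_mul, mul_one]
  · intro X
    rw [sum_singleton]
  · intro ε' hε' y _
    exact nullPV hq hw ε' hε'

open scoped Classical in
/-- the mean with logarithmic weights -/
theorem tendV (hF : Fd (t : ℤ) (c : ℤ) f χ) {a b e : ℤ} (ha : 0 < a)
    (hdisc : b ^ 2 - 4 * a * e = (t : ℤ) ^ 2 - 4 * (c : ℤ)) {H : ℕ × ℕ → G} {g : G} {K q u : ℕ}
    (hq : 1 ≤ q) (hw : WnV a b e H g K q u) :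
    Tendsto (fun N : ℕ => (∑ n ∈ (Icc 1 N).filter (fun n => n ≡ u [MOD q]),
      ∑ d ∈ (qv a b e n).divisors.filter (fun d => H (d, qv a b e n / d) = g),
        1 / ((max d (qv a b e n / d) : ℕ) : ℝ)) /
      ∑ n ∈ (Icc 1 N).filter (fun n => n ≡ u [MOD q]), wq a b e n) atTop
      (nhds (1 / (K : ℝ))) := by
  have hd : 0 < 4 * a * e - b ^ 2 := by
    have h1 := hDG hF
    linarith
  obtain ⟨C5, hC5, hcard, hcmp⟩ := compare hF.tt (scntG hF) ha hdisc hd q u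
  obtain ⟨c₁, hc₁, N₀, hlow⟩ := finlow hF (lowqG hF) (scntG hF) a b e ha hdisc q u hq
  rw [Metric.tendsto_atTop]
  intro δ hδ
  have h1 := smallV hq hw hC5 hcard (c₁ * δ / 4) (by positivity)
  obtain ⟨N₁, hN₁⟩ := eventually_atTop.1 (h1.and (ev_log (c₁ * δ / 4) C5 (by positivity)))
  refine ⟨max (max N₀ N₁) 2, fun N hN => ?_⟩
  have hN0 : N₀ ≤ N := ((le_max_left _ _).trans (le_max_left _ _)).trans hN
  have hN1 : N₁ ≤ N := ((le_max_right _ _).trans (le_max_left _ _)).trans hN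
  have hN2 : 2 ≤ N := (le_max_right _ _).trans hN
  obtain ⟨h2, h3⟩ := hN₁ N hN1
  have hlog : 0 < Real.log N := Real.log_pos (by exact_mod_cast hN2)
  have h4 := hlow N hN0
  obtain ⟨S, hS⟩ : ∃ S : ℝ, S = ∑ n ∈ (Icc 1 N).filter (fun n => n ≡ u [MOD q]),
      ∑ d ∈ (qv a b e n).divisors.filter (fun d => H (d, qv a b e n / d) = g),
        1 / ((max d (qv a b e n / d) : ℕ) : ℝ) := ⟨_, rfl⟩
  obtain ⟨T, hT⟩ : ∃ T : ℝ, T = ∑ n ∈ (Icc 1 N).filter (fun n => n ≡ u [MOD q]), wq a b e n :=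
    ⟨_, rfl⟩
  rw [← hS, ← hT]
  rw [← hT] at h4
  have hT0 : 0 < T := lt_of_lt_of_le (by positivity) h4
  have h5 := hcmp (dv H g K) (abs_dv H g K) N (by omega)
  have h6 : ∑ n ∈ (Icc 1 N).filter (fun n => n ≡ u [MOD q]), ∑ d ∈ Nat.divisors (qv a b e n),
      dv H g K (d, qv a b e n / d) * Pool.Agent.W293.EG.wt (d, qv a b e n / d) =
      S - 1 / (K : ℝ) * T := by
    rw [hS, hT, mul_sum, ← sum_sub_distrib]
    refine sum_congr rfl fun n _ => ?_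
    unfold wq
    rw [mul_sum, sum_filter, ← sum_sub_distrib]
    refine sum_congr rfl fun d _ => ?_
    unfold dv Pool.Agent.W293.EG.wt
    split_ifs
    · ring
    · ring
  rw [h6] at h5
  have h7 : |S - 1 / (K : ℝ) * T| ≤ c₁ * δ / 2 * Real.log N := by
    have h8 := abs_le.1 h5
    have h9 := abs_le.1 h2
    rw [abs_le]
    constructor <;> linarith [h8.1, h8.2, h9.1, h9.2]
  rw [Real.dist_eq]
  have h8 : S / T - 1 / (K : ℝ) = (S - 1 / (K : ℝ) * T) / T := by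
    field_simp
  rw [h8, abs_div, abs_of_pos hT0, div_lt_iff₀ hT0]
  have h9 : c₁ * δ / 2 * Real.log N < δ * T := by
    have h10 : δ * (c₁ * Real.log N) ≤ δ * T := mul_le_mul_of_nonneg_left h4 hδ.le
    have h11 : 0 < c₁ * δ * Real.log N := by positivity
    linarith
  linarith

open scoped Classical in
/-- the number of `n ≤ X` with a factorisation of given type -/
noncomputable def cfv (A B C q u : ℕ) (H : ℕ × ℕ → G) (g : G) (X : ℕ) : ℕ :=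
  ((range (X + 1)).filter (fun n : ℕ => n ≡ u [MOD q] ∧ ∃ d e : ℕ, d ≤ X ∧ e ≤ X ∧
    d * e = A * n ^ 2 + B * n + C ∧ H (d, e) = g)).card

theorem cfv_mono (A B C q u : ℕ) (H : ℕ × ℕ → G) (g : G) : Monotone (cfv A B C q u H g) := by
  classical
  intro X Y h
  unfold cfv
  refine card_le_card fun n hn => ?_
  rw [mem_filter, mem_range] at hn ⊢
  obtain ⟨h1, h2, d, e, h3, h4, h5⟩ := hn
  exact ⟨by omega, h2, d, e, h3.trans h, h4.trans h, h5⟩

open scoped Classical in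
/-- many `n` at almost all scales -/
theorem cntV (hF : Fd (t : ℤ) (c : ℤ) f χ) {H : ℕ × ℕ → G} {g : G} {K q u : ℕ} (hq : 1 ≤ q)
    (hK : 1 ≤ K) {A B C : ℕ} (hA : 1 ≤ A) (hD : B ^ 2 + 4 * c = t ^ 2 + 4 * A * C)
    (hw : WnV (A : ℤ) (B : ℤ) (C : ℤ) H g K q u) (ε : ℝ) (hε : 0 < ε) :
    LogNull (fun X : ℕ => (cfv A B C q u H g X : ℝ) <
      (X : ℝ) / Real.log X ^ (Real.log 2 + ε)) := by
  have ht := t_le hF
  have hc := c_pos hF
  have ha : (0 : ℤ) < (A : ℤ) := by exact_mod_cast hA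
  have hdisc : (B : ℤ) ^ 2 - 4 * (A : ℤ) * (C : ℤ) = (t : ℤ) ^ 2 - 4 * (c : ℤ) := by
    have h1 : ((B ^ 2 + 4 * c : ℕ) : ℤ) = ((t ^ 2 + 4 * A * C : ℕ) : ℤ) := by rw [hD]
    push_cast at h1
    linarith
  obtain ⟨β, hβ⟩ := exists_beta ht hD
  have hns : ¬ IsSquare ((t : ℤ) ^ 2 - 4 * (c : ℤ)) := by
    rintro ⟨x, hx⟩
    have h1 : (t : ℤ) ≤ 1 := by exact_mod_cast ht
    have h2 : (1 : ℤ) ≤ c := by exact_mod_cast hc
    have h3 : (0 : ℤ) ≤ t := Nat.cast_nonneg t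
    nlinarith [mul_self_nonneg x]
  have hk0 : (0 : ℝ) < K := by exact_mod_cast hK
  obtain ⟨c₁, hc₁, X₀, hlow⟩ := lowqG hF (A : ℤ) (B : ℤ) (C : ℤ) ha hdisc q u hq
  obtain ⟨N₁, hcore⟩ := Pool.Agent.TH890.DV.cnt_core (t := (t : ℤ)) (c := (c : ℤ)) hns
    (F := fun n => A * n ^ 2 + B * n + C) (A := A) (β := β) hA (Nat.cast_nonneg t)
    (fun n => by
      have h1 := quot_id (t := t) (c := c) (β := (β : ℤ)) (b := (B : ℤ)) (by rw [hβ]; push_cast; rfl)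
        hdisc (n : ℤ)
      unfold Pool.Agent.W78.GT.Qp
      push_cast
      exact h1) (c₁ / (2 * K)) ε (by positivity) hε
  refine LogNull.of_ev (max X₀ N₁) (fun X hX hlt => ?_)
    (nullPV hq hw (c₁ / (2 * K)) (by positivity))
  by_contra hcon
  push Not at hcon
  have h1 : c₁ * X ≤ ((PP (A : ℤ) (B : ℤ) (C : ℤ) q u X).card : ℝ) := by
    refine (hlow X ((le_max_left _ _).trans hX)).trans (le_of_eq ?_)
    unfold PP
    rfl
  obtain ⟨S, hSd⟩ : ∃ S : Finset (ℕ × ℕ), S = (PP (A : ℤ) (B : ℤ) (C : ℤ) q u X).filter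
    (fun p => H p = g) := ⟨_, rfl⟩
  have hS1 : c₁ / (2 * K) * X ≤ (S.card : ℝ) := by
    have h2 : ∑ p ∈ PP (A : ℤ) (B : ℤ) (C : ℤ) q u X, dv H g K p =
        (S.card : ℝ) - 1 / K * (PP (A : ℤ) (B : ℤ) (C : ℤ) q u X).card := by
      unfold dv
      rw [sum_sub_distrib, sum_boole, hSd, sum_const, nsmul_eq_mul]
      ring
    rw [h2] at hcon
    have h5 := (abs_le.1 hcon).1
    have h6 : 1 / (K : ℝ) * (c₁ * X) ≤
        1 / K * (PP (A : ℤ) (B : ℤ) (C : ℤ) q u X).card :=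
      mul_le_mul_of_nonneg_left h1 (by positivity)
    have h7 : 1 / (K : ℝ) * (c₁ * X) = c₁ / (2 * K) * X + c₁ / (2 * K) * X := by
      field_simp
      ring
    linarith
  have hSm : ∀ p ∈ S, 1 ≤ p.1 ∧ p.1 ≤ X ∧ 1 ≤ p.2 ∧ p.2 ≤ X ∧ (∃ n : ℕ,
      p.1 * p.2 = A * n ^ 2 + B * n + C ∧ n ≡ u [MOD q]) ∧ H p = g := by
    intro p hp
    rw [hSd, mem_filter, mem_PP] at hp
    obtain ⟨⟨h2, h3, h4, h5, n, h6, h7⟩, h8⟩ := hp
    refine ⟨h2, h3, h4, h5, ⟨n, ?_, h7⟩, h8⟩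
    unfold Pool.Agent.W293.EG.g at h6
    exact_mod_cast h6
  have h3 := hcore X ((le_max_right _ _).trans hX) S
    (fun p hp => by
      obtain ⟨h4, h5, h6, h7, ⟨n, h8, _⟩, _⟩ := hSm p hp
      exact ⟨h4, h5, h6, h7, n, h8⟩) hS1
    ((range (X + 1)).filter (fun n : ℕ => n ≡ u [MOD q] ∧ ∃ d e : ℕ, d ≤ X ∧ e ≤ X ∧
      d * e = A * n ^ 2 + B * n + C ∧ H (d, e) = g)) (by
    rintro n ⟨p, hp, hpn⟩
    obtain ⟨h4, h5, h6, h7, ⟨n', h8, h9⟩, h10⟩ := hSm p hp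
    have hpn' : p.1 * p.2 = A * n ^ 2 + B * n + C := hpn
    have hnn : n = n' := f_inj hA (by rw [← hpn', h8])
    subst hnn
    rw [mem_filter, mem_range]
    refine ⟨?_, h9, p.1, p.2, h5, h7, h8, h10⟩
    by_contra hcon2
    push Not at hcon2
    have h15 : p.1 * p.2 ≤ X * X := Nat.mul_le_mul h5 h7
    have h16 : 1 * n ^ 2 ≤ A * n ^ 2 := Nat.mul_le_mul_right _ hA
    have h17 : (X + 1) ^ 2 ≤ n ^ 2 := Nat.pow_le_pow_left hcon2 2
    nlinarith [Nat.zero_le (B * n)])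
  have h4 : (cfv A B C q u H g X : ℝ) < (X : ℝ) / Real.log X ^ (Real.log 2 + ε) := hlt
  unfold cfv at h4
  exact absurd h3 (not_le.2 h4)

/-- all large scales -/
theorem cntVAll (hF : Fd (t : ℤ) (c : ℤ) f χ) {H : ℕ × ℕ → G} {g : G} {K q u : ℕ} (hq : 1 ≤ q)
    (hK : 1 ≤ K) {A B C : ℕ} (hA : 1 ≤ A) (hD : B ^ 2 + 4 * c = t ^ 2 + 4 * A * C)
    (hw : WnV (A : ℤ) (B : ℤ) (C : ℤ) H g K q u) (δ : ℝ) (hδ : 0 < δ) :
    ∃ N₀ : ℕ, ∀ N : ℕ, N₀ ≤ N → (N : ℝ) ^ (1 - δ) ≤ cfv A B C q u H g N := by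
  refine all_of (cfv_mono A B C q u H g) (fun ε hε => ?_) δ hδ
  have hl2 := Real.log_pos (show (1 : ℝ) < 2 by norm_num)
  have h1 := cntV hF hq hK hA hD hw (Real.log 2 + ε) (by linarith)
  have h2 : Real.log 2 + (Real.log 2 + ε) = 2 * Real.log 2 + ε := by ring
  rwa [h2] at h1

end

end Pool.Agent.V11296.EA
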