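import Pool.Agent.V11296.EA1

/-!
General quadratic polynomials `A n^2 + B n + C` of class number one discriminants (helper296), part 2:
the prime factors `p` with `n ≡ ρ(p) mod p`, for an arbitrary choice of roots `ρ(p)`.
-/

set_option autoImplicit false

namespace Pool.Agent.V11296.EA

open Finset Filter Topology
open Pool.Agent.W78.GA
open Pool.Agent.W78.EG
open Pool.Agent.W251.EG
open Pool.Agent.V11296.CQ
open Pool.Agent.V11296.CR
open Pool.Agent.V11296.CY (Tk Rt HH cP cP_mul nn nn_eq len_mul wn_HH pr mkd cP_mkd)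

/-- a choice of roots -/
def RtV (A B C : ℕ) (ρ : ℕ → ℕ) : Prop := ∀ p : ℕ, p.Prime →
  (∃ x : ℕ, p ∣ A * x ^ 2 + B * x + C) → p ∣ A * ρ p ^ 2 + B * ρ p + C

/-- the roots of `x^2 + t x + c` -/
def rt (A β : ℕ) (ρ : ℕ → ℕ) (p : ℕ) : ℕ := if p ∣ A then β else A * ρ p + β

section

variable {t c : ℕ} {f : ℕ} {χ : DirichletCharacter ℂ f} {A B C β : ℕ}

theorem idn (hβ : B = 2 * β + t) (hD : B ^ 2 + 4 * c = t ^ 2 + 4 * A * C) (n : ℕ) :
    A * (A * n ^ 2 + B * n + C) = (A * n + β) ^ 2 + t * (A * n + β) + c := by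
  have h1 : 4 * (A * (A * n ^ 2 + B * n + C)) = 4 * ((A * n + β) ^ 2 + t * (A * n + β) + c) := by
    have h2 : 4 * (A * (A * n ^ 2 + B * n + C)) + t ^ 2 =
        4 * A ^ 2 * n ^ 2 + 4 * A * B * n + (t ^ 2 + 4 * A * C) := by ring
    have h3 : 4 * ((A * n + β) ^ 2 + t * (A * n + β) + c) + t ^ 2 =
        4 * A ^ 2 * n ^ 2 + 4 * A * (2 * β + t) * n + ((2 * β + t) ^ 2 + 4 * c) := by ring
    have h4 : 4 * (A * (A * n ^ 2 + B * n + C)) + t ^ 2 =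
        4 * ((A * n + β) ^ 2 + t * (A * n + β) + c) + t ^ 2 := by
      rw [h2, h3, ← hD, hβ]
    omega
  omega

theorem rtV_rt (hβ : B = 2 * β + t) (hD : B ^ 2 + 4 * c = t ^ 2 + 4 * A * C) {ρ : ℕ → ℕ}
    (hρ : RtV A B C ρ) : Rt t c (rt A β ρ) := by
  intro p hp hx
  unfold rt
  by_cases hpA : p ∣ A
  · rw [if_pos hpA]
    have h := idn hβ hD 0
    simp only [mul_zero, zero_add, ne_eq, OfNat.ofNat_ne_zero, not_false_eq_true, zero_pow] at h
    rw [← h]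
    exact hpA.mul_right _
  · rw [if_neg hpA, ← idn hβ hD]
    refine Dvd.dvd.mul_left ?_ _
    refine hρ p hp ?_
    obtain ⟨x, hx⟩ := hx
    have : Fact p.Prime := ⟨hp⟩
    have hA0 : (A : ZMod p) ≠ 0 := fun h => hpA ((ZMod.natCast_eq_zero_iff _ _).1 h)
    obtain ⟨y, hy⟩ : ∃ y : ℕ, (y : ZMod p) = (A : ZMod p)⁻¹ * ((x : ZMod p) - β) :=
      ⟨((A : ZMod p)⁻¹ * ((x : ZMod p) - β)).val, by rw [ZMod.natCast_zmod_val]⟩
    have hy2 : (A : ZMod p) * y + β = x := by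
      rw [hy, ← mul_assoc, mul_inv_cancel₀ hA0, one_mul, sub_add_cancel]
    refine ⟨y, ?_⟩
    have h1 : p ∣ A * (A * y ^ 2 + B * y + C) := by
      rw [idn hβ hD, ← ZMod.natCast_eq_zero_iff]
      push_cast
      rw [hy2]
      have h2 := (ZMod.natCast_eq_zero_iff (x ^ 2 + t * x + c) p).2 hx
      push_cast at h2
      exact h2
    exact (hp.dvd_mul.1 h1).resolve_left hpA

/-- no prime divides all the coefficients -/
theorem not_all (hF : Fd (t : ℤ) (c : ℤ) f χ)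
    (hR : ∀ l : ℕ, l.Prime → l ∣ f → ∀ n : ℤ, ¬ ((l ^ 2 : ℕ) : ℤ) ∣ n ^ 2 + (t : ℤ) * n + (c : ℤ))
    (hβ : B = 2 * β + t) (hD : B ^ 2 + 4 * c = t ^ 2 + 4 * A * C) {l : ℕ} (hl : l.Prime)
    (hA : l ∣ A) (hB : l ∣ B) (hC : l ∣ C) : False := by
  have h1 : l ^ 2 ∣ A * C := by
    rw [pow_two]
    exact mul_dvd_mul hA hC
  have h0 := idn hβ hD 0
  simp only [mul_zero, zero_add, ne_eq, OfNat.ofNat_ne_zero, not_false_eq_true, zero_pow] at h0
  have h2 : (l : ℤ) ∣ f := by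
    have h3 := hF.disc
    have h4 : (f : ℤ) = 4 * A * C - B ^ 2 := by
      have h5 : ((B ^ 2 + 4 * c : ℕ) : ℤ) = ((t ^ 2 + 4 * A * C : ℕ) : ℤ) := by rw [hD]
      push_cast at h5
      linarith
    rw [h4]
    have hA' : (l : ℤ) ∣ A := by exact_mod_cast hA
    have hB' : (l : ℤ) ∣ B := by exact_mod_cast hB
    refine dvd_sub ?_ (Dvd.dvd.pow hB' two_ne_zero)
    exact (hA'.mul_left 4).mul_right _
  refine hR l hl (by exact_mod_cast h2) (β : ℤ) ?_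
  have h6 : l ^ 2 ∣ β ^ 2 + t * β + c := by rw [← h0]; exact h1
  exact_mod_cast h6

/-- the marked prime factors -/
theorem cP_val (hF : Fd (t : ℤ) (c : ℤ) f χ)
    (hR : ∀ l : ℕ, l.Prime → l ∣ f → ∀ n : ℤ, ¬ ((l ^ 2 : ℕ) : ℤ) ∣ n ^ 2 + (t : ℤ) * n + (c : ℤ))
    (hβ : B = 2 * β + t) (hD : B ^ 2 + 4 * c = t ^ 2 + 4 * A * C) {ρ : ℕ → ℕ}
    (hρ : RtV A B C ρ) (n : ℕ) :
    mkd (rt A β ρ) (A * n ^ 2 + B * n + C) (A * n + β) = mkd ρ (A * n ^ 2 + B * n + C) n := by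
  unfold mkd
  refine List.countP_congr (fun l hl => ?_)
  have hlp := Nat.prime_of_mem_primeFactorsList hl
  have hld := Nat.dvd_of_mem_primeFactorsList hl
  simp only [decide_eq_true_eq]
  unfold rt
  by_cases hlA : l ∣ A
  · rw [if_pos hlA]
    have h1 : A * n + β ≡ β [MOD l] := by
      have h2 : A * n ≡ 0 [MOD l] := (Nat.modEq_zero_iff_dvd.2 (hlA.mul_right n))
      simpa using h2.add_right β
    refine ⟨fun _ => ?_, fun _ => h1⟩
    have hρl := hρ l hlp ⟨n, hld⟩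
    -- uniqueness of the root
    have hlB : ¬ l ∣ B := by
      intro hB
      have hC : l ∣ C := by
        have h3 : l ∣ A * n ^ 2 + B * n := dvd_add (hlA.mul_right _) (hB.mul_right _)
        exact (Nat.dvd_add_right h3).1 hld
      exact not_all hF hR hβ hD hlp hlA hB hC
    have e1 : B * n + C ≡ 0 [MOD l] := by
      have h3 : A * n ^ 2 + B * n + C ≡ 0 [MOD l] := Nat.modEq_zero_iff_dvd.2 hld
      have h4 : A * n ^ 2 ≡ 0 [MOD l] := Nat.modEq_zero_iff_dvd.2 (hlA.mul_right _)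
      have h5 : A * n ^ 2 + (B * n + C) ≡ 0 + (B * n + C) [MOD l] := h4.add_right _
      rw [zero_add, ← add_assoc] at h5
      exact h5.symm.trans h3
    have e2 : B * ρ l + C ≡ 0 [MOD l] := by
      have h3 : A * ρ l ^ 2 + B * ρ l + C ≡ 0 [MOD l] := Nat.modEq_zero_iff_dvd.2 hρl
      have h4 : A * ρ l ^ 2 ≡ 0 [MOD l] := Nat.modEq_zero_iff_dvd.2 (hlA.mul_right _)
      have h5 : A * ρ l ^ 2 + (B * ρ l + C) ≡ 0 + (B * ρ l + C) [MOD l] := h4.add_right _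
      rw [zero_add, ← add_assoc] at h5
      exact h5.symm.trans h3
    have e3 : B * n ≡ B * ρ l [MOD l] := Nat.ModEq.add_right_cancel' C (e1.trans e2.symm)
    exact Nat.ModEq.cancel_left_of_coprime
      ((Nat.Prime.coprime_iff_not_dvd hlp).2 hlB) e3
  · rw [if_neg hlA]
    constructor
    · intro h1
      have h2 : A * n ≡ A * ρ l [MOD l] := Nat.ModEq.add_right_cancel' β h1
      exact Nat.ModEq.cancel_left_of_coprime
        ((Nat.Prime.coprime_iff_not_dvd hlp).2 hlA) h2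
    · intro h1
      exact (h1.mul_left A).add_right β

theorem cP_A {n : ℕ} (ρ : ℕ → ℕ) : mkd (rt A β ρ) A (A * n + β) = A.primeFactorsList.length := by
  unfold mkd
  rw [List.countP_eq_length]
  intro l hl
  have hld := Nat.dvd_of_mem_primeFactorsList hl
  simp only [decide_eq_true_eq]
  unfold rt
  rw [if_pos hld]
  have h2 : A * n ≡ 0 [MOD l] := (Nat.modEq_zero_iff_dvd.2 (hld.mul_right n))
  simpa using h2.add_right β

/-- the values -/
theorem HV_eq (hF : Fd (t : ℤ) (c : ℤ) f χ)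
    (hR : ∀ l : ℕ, l.Prime → l ∣ f → ∀ n : ℤ, ¬ ((l ^ 2 : ℕ) : ℤ) ∣ n ^ 2 + (t : ℤ) * n + (c : ℤ))
    (hA : 1 ≤ A) (hβ : B = 2 * β + t) (hD : B ^ 2 + 4 * c = t ^ 2 + 4 * A * C) {ρ : ℕ → ℕ}
    (hρ : RtV A B C ρ) (k : ℕ) {d e n : ℕ} (hde : d * e = A * n ^ 2 + B * n + C) :
    HH c (rt A β ρ) k (A * d, e) =
      ((((A.primeFactorsList.length : ℕ) : ZMod k) + ((d.primeFactorsList.length : ℕ) : ZMod k),
        ((e.primeFactorsList.length : ℕ) : ZMod k),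
        ((A.primeFactorsList.length : ℕ) : ZMod k) +
          ((mkd ρ (A * n ^ 2 + B * n + C) n : ℕ) : ZMod k)) : Tk k) := by
  have ht := t_le hF
  have hc := c_pos hF
  have h1 : A * d * e = (A * n + β) ^ 2 + t * (A * n + β) + c := by
    rw [← idn hβ hD, ← hde]
    ring
  have h0 : d * e ≠ 0 := by
    intro h
    rw [mul_assoc, h, mul_zero] at h1
    omega
  have hd : d ≠ 0 := fun h => h0 (by rw [h, zero_mul])
  have he : e ≠ 0 := fun h => h0 (by rw [h, mul_zero])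
  unfold HH
  rw [nn_eq (p := (A * d, e)) ht h1]
  dsimp only
  rw [len_mul (by omega) hd, mul_assoc A d e, cP_mul _ (by omega) h0, cP_mkd, cP_mkd, hde,
    cP_val hF hR hβ hD hρ, cP_A]
  push_cast
  rfl

theorem HV_iff (hF : Fd (t : ℤ) (c : ℤ) f χ)
    (hR : ∀ l : ℕ, l.Prime → l ∣ f → ∀ n : ℤ, ¬ ((l ^ 2 : ℕ) : ℤ) ∣ n ^ 2 + (t : ℤ) * n + (c : ℤ))
    (hA : 1 ≤ A) (hβ : B = 2 * β + t) (hD : B ^ 2 + 4 * c = t ^ 2 + 4 * A * C) {ρ : ℕ → ℕ}
    (hρ : RtV A B C ρ) (k : ℕ) {d e n : ℕ} (hde : d * e = A * n ^ 2 + B * n + C) (i j l : ℕ) :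
    HH c (rt A β ρ) k (A * d, e) =
      ((((A.primeFactorsList.length : ℕ) : ZMod k) + (i : ZMod k), (j : ZMod k),
        ((A.primeFactorsList.length : ℕ) : ZMod k) + (l : ZMod k)) : Tk k) ↔
      d.primeFactorsList.length ≡ i [MOD k] ∧ e.primeFactorsList.length ≡ j [MOD k] ∧
      mkd ρ (A * n ^ 2 + B * n + C) n ≡ l [MOD k] := by
  rw [HV_eq hF hR hA hβ hD hρ k hde, Prod.mk.injEq, Prod.mk.injEq, add_right_inj, add_right_inj,
    ZMod.natCast_eq_natCast_iff, ZMod.natCast_eq_natCast_iff, ZMod.natCast_eq_natCast_iff]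

theorem prHV_iff (hF : Fd (t : ℤ) (c : ℤ) f χ)
    (hR : ∀ l : ℕ, l.Prime → l ∣ f → ∀ n : ℤ, ¬ ((l ^ 2 : ℕ) : ℤ) ∣ n ^ 2 + (t : ℤ) * n + (c : ℤ))
    (hA : 1 ≤ A) (hβ : B = 2 * β + t) (hD : B ^ 2 + 4 * c = t ^ 2 + 4 * A * C) {ρ : ℕ → ℕ}
    (hρ : RtV A B C ρ) (k : ℕ) {d e n : ℕ} (hde : d * e = A * n ^ 2 + B * n + C) (j l : ℕ) :
    pr k (HH c (rt A β ρ) k (A * d, e)) =
      (((A.primeFactorsList.length : ℕ) : ZMod k) + (j : ZMod k),
        ((A.primeFactorsList.length : ℕ) : ZMod k) + (l : ZMod k)) ↔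
      (A * n ^ 2 + B * n + C).primeFactorsList.length ≡ j [MOD k] ∧
      mkd ρ (A * n ^ 2 + B * n + C) n ≡ l [MOD k] := by
  have hc := c_pos hF
  have h1 : A * d * e = (A * n + β) ^ 2 + t * (A * n + β) + c := by
    rw [← idn hβ hD, ← hde]
    ring
  have h0 : d * e ≠ 0 := by
    intro h
    rw [mul_assoc, h, mul_zero] at h1
    omega
  have hd : d ≠ 0 := fun h => h0 (by rw [h, zero_mul])
  have he : e ≠ 0 := fun h => h0 (by rw [h, mul_zero])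
  rw [HV_eq hF hR hA hβ hD hρ k hde]
  have h2 := len_mul hd he
  rw [hde] at h2
  unfold pr
  show (((A.primeFactorsList.length : ℕ) : ZMod k) + ((d.primeFactorsList.length : ℕ) : ZMod k) +
    ((e.primeFactorsList.length : ℕ) : ZMod k), _) = _ ↔ _
  rw [Prod.mk.injEq, add_assoc, ← Nat.cast_add (d.primeFactorsList.length), ← h2,
    add_right_inj, ZMod.natCast_eq_natCast_iff]
  refine and_congr_right fun _ => ?_
  show ((A.primeFactorsList.length : ℕ) : ZMod k) + _ = _ ↔ _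
  rw [add_right_inj, ZMod.natCast_eq_natCast_iff]

open scoped Classical in
/-- equidistribution in the windows -/
theorem wnV_HH (hF : Fd (t : ℤ) (c : ℤ) f χ)
    (hR : ∀ l : ℕ, l.Prime → l ∣ f → ∀ n : ℤ, ¬ ((l ^ 2 : ℕ) : ℤ) ∣ n ^ 2 + (t : ℤ) * n + (c : ℤ))
    (hA : 1 ≤ A) (hβ : B = 2 * β + t) (hD : B ^ 2 + 4 * c = t ^ 2 + 4 * A * C) {ρ : ℕ → ℕ}
    (hρ : RtV A B C ρ) (k : ℕ) [NeZero k] {B' : Type} [AddCommGroup B'] [Finite B']
    (π : Tk k →+ B') (hπ : Function.Surjective π) (g : B') {q : ℕ} (hq : 1 ≤ q) (u : ℕ) :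
    WnV (A : ℤ) (B : ℤ) (C : ℤ) (fun p => π (HH c (rt A β ρ) k (A * p.1, p.2))) g (Nat.card B')
      q u := by
  have ha : (0 : ℤ) < (A : ℤ) := by exact_mod_cast hA
  have hdisc : (B : ℤ) ^ 2 - 4 * (A : ℤ) * (C : ℤ) = (t : ℤ) ^ 2 - 4 * (c : ℤ) := by
    have h1 : ((B ^ 2 + 4 * c : ℕ) : ℤ) = ((t ^ 2 + 4 * A * C : ℕ) : ℤ) := by rw [hD]
    push_cast at h1
    linarith
  exact wnV_of (H := fun p => π (HH c (rt A β ρ) k p)) hF ha hdisc rfl (β := (β : ℤ))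
    (by rw [hβ]; push_cast; rfl) hq u (fun n₀ _ =>
      wn_HH hF hR (rtV_rt hβ hD hρ) k π hπ g (Nat.mul_pos hA hq))

end

end Pool.Agent.V11296.EA
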