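import Pool.Agent.V11296.EA2

/-!
Functions `V(l, n)` of a prime factor `l` of `n^2 + t n + c` and of the root `n mod l` (helper296).
-/

set_option autoImplicit false

namespace Pool.Agent.V11296.EA

open Finset Filter Topology
open Pool.Agent.W78.GA
open Pool.Agent.W78.EG
open Pool.Agent.W251.EG
open Pool.Agent.W738.EG (red red_eq PerM)
open Pool.Agent.TH890.DV (LogNull LogNull.of_ev)
open Pool.Agent.V11296.CX (null_sum)
open Pool.Agent.V11296.CV (prime_above)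
open Pool.Agent.V11296.CW (Dt)
open Pool.Agent.V11296.CY
open Pool.Agent.V11296.CZ (LS LS_mul LS_one LS_prime Ab vl vc ev ab_of ab_unique HC Rc Adc)
open Pool.Agent.V11296.DA

variable {G : Type} [AddCommGroup G]

section

variable {t c : ℕ} {f : ℕ} {χ : DirichletCharacter ℂ f} {V : ℕ → ℕ → G} {τ : G}

omit [AddCommGroup G] in
/-- from a function to another one which is obtained by a correction depending on `d mod m` -/
theorem wn_corr {G' : Type} (hF : Fd (t : ℤ) (c : ℤ) f χ) {H : ℕ × ℕ → G'} {H' : ℕ × ℕ → G}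
    {K : ℕ} {g : G} {m : ℕ} (hm : 1 ≤ m) (γ : ℕ → G')
    (hH : ∀ (d e n : ℕ), 1 ≤ d → 1 ≤ e → 1 ≤ n + t → d * e = n ^ 2 + t * n + c →
      (H' (d, e) = g ↔ H (d, e) = γ (d % m)))
    (hw : ∀ (x : G') (q u : ℕ), 1 ≤ q → Wn t c H x K q u) {q : ℕ} (hq : 1 ≤ q) (u : ℕ) :
    Wn t c H' g K q u := by
  classical
  intro r s₁ s₂ s₃ s₄ h1 h2 h3 h4 h5 h6 ε hε
  refine LogNull.of_ev 0 (fun X _ hX => ?_) (null_sum
    (((range (q * m)) ×ˢ (range (q * m))).filter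
        (fun x : ℕ × ℕ => x.1 ≡ u [MOD q] ∧ x.2 ≡ r [MOD q]))
    (fun x X => |∑ p ∈ SW (t : ℤ) (c : ℤ) (q * m) x.1 x.2 s₁ s₂ s₃ s₄ X,
      dv H (γ (x.2 % m)) K p|)
    (fun x _ ε' hε' => hw (γ (x.2 % m)) (q * m) x.1 (Nat.mul_pos hq hm) x.2
      s₁ s₂ s₃ s₄ h1 h2 h3 h4 h5 h6 ε' hε') ε hε)
  refine lt_of_lt_of_le hX ?_
  have e1 := split hF q m u r hq hm s₁ s₂ s₃ s₄ X (fun p => ((dv H' g K p : ℝ) : ℂ))
  have e2 : ∑ p ∈ SW (t : ℤ) (c : ℤ) q u r s₁ s₂ s₃ s₄ X, dv H' g K p =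
      ∑ x ∈ ((range (q * m)) ×ˢ (range (q * m))).filter
        (fun x : ℕ × ℕ => x.1 ≡ u [MOD q] ∧ x.2 ≡ r [MOD q]),
        ∑ p ∈ SW (t : ℤ) (c : ℤ) (q * m) x.1 x.2 s₁ s₂ s₃ s₄ X, dv H' g K p := by
    have e3 : ((∑ p ∈ SW (t : ℤ) (c : ℤ) q u r s₁ s₂ s₃ s₄ X, dv H' g K p : ℝ) : ℂ) =
      ((∑ x ∈ ((range (q * m)) ×ˢ (range (q * m))).filter
        (fun x : ℕ × ℕ => x.1 ≡ u [MOD q] ∧ x.2 ≡ r [MOD q]),
        ∑ p ∈ SW (t : ℤ) (c : ℤ) (q * m) x.1 x.2 s₁ s₂ s₃ s₄ X, dv H' g K p : ℝ) : ℂ) := by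
      push_cast
      exact e1
    exact_mod_cast e3
  rw [e2]
  refine (abs_sum_le_sum_abs _ _).trans (sum_le_sum fun x _ => le_of_eq ?_)
  congr 1
  refine sum_congr rfl fun p hp => ?_
  obtain ⟨⟨⟨h7, _⟩, h8, _⟩, ⟨n, h9, h10, _, h12⟩, _⟩ := mem_SWn.1 hp
  have h13 := hH p.1 p.2 n h7 h8 h9 h10
  have h14 : p.1 % m = x.2 % m := h12.of_mul_left q
  rw [h14] at h13
  unfold dv
  by_cases h15 : H' p = g
  · rw [if_pos h15, if_pos (h13.1 h15)]
  · rw [if_neg h15, if_neg (fun h16 => h15 (h13.2 h16))]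

/-- `V l n` depends on `n mod l`, and the values at two different roots modulo `l` have the
sum `τ` -/
structure RV (t c f : ℕ) (V : ℕ → ℕ → G) (τ : G) : Prop where
  per : ∀ l n n' : ℕ, n ≡ n' [MOD l] → V l n = V l n'
  sum : ∀ l n n' : ℕ, l.Prime → ¬ l ∣ f → l ∣ n ^ 2 + t * n + c → l ∣ n' ^ 2 + t * n' + c →
    ¬ n ≡ n' [MOD l] → V l n + V l n' = τ

open scoped Classical in
/-- the function on elements -/
noncomputable def gV (t c f : ℕ) (V : ℕ → ℕ → G) (x y : ℤ) : G :=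
  if h : ∃ ln : ℕ × ℕ, ln.1.Prime ∧ ¬ ln.1 ∣ f ∧ x ^ 2 + t * x * y + c * y ^ 2 = ln.1 ∧
    (ln.1 : ℤ) ∣ x - ln.2 * y then V h.choose.1 h.choose.2 else 0

theorem not_dvd_y {l : ℕ} (hl : l.Prime) {x y : ℤ} (h1 : x ^ 2 + t * x * y + c * y ^ 2 = l)
    {n : ℕ} (h2 : (l : ℤ) ∣ x - n * y) : ¬ (l : ℤ) ∣ y := by
  intro hy
  have hx : (l : ℤ) ∣ x := by
    have : x = (x - n * y) + n * y := by ring
    rw [this]
    exact dvd_add h2 (hy.mul_left _)
  obtain ⟨a, rfl⟩ := hx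
  obtain ⟨b, rfl⟩ := hy
  have h3 : (l : ℤ) * ((l : ℤ) * (a ^ 2 + t * a * b + c * b ^ 2)) = (l : ℤ) * 1 := by
    linear_combination h1
  have hl0 : (l : ℤ) ≠ 0 := by exact_mod_cast hl.ne_zero
  have h4 := mul_left_cancel₀ hl0 h3
  have h5 : (l : ℤ) ∣ 1 := Dvd.intro _ h4
  have h6 : l ∣ 1 := by exact_mod_cast h5
  exact hl.one_lt.ne' (Nat.dvd_one.1 h6)

omit [AddCommGroup G] in
theorem root_unique {l : ℕ} (hl : l.Prime) {x y : ℤ} (h1 : x ^ 2 + t * x * y + c * y ^ 2 = l)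
    {n n' : ℕ} (h2 : (l : ℤ) ∣ x - n * y) (h3 : (l : ℤ) ∣ x - n' * y) : n ≡ n' [MOD l] := by
  have h4 : (l : ℤ) ∣ ((n' : ℤ) - n) * y := by
    have : ((n' : ℤ) - n) * y = (x - n * y) - (x - n' * y) := by ring
    rw [this]
    exact dvd_sub h2 h3
  have hlp : Prime (l : ℤ) := Nat.prime_iff_prime_int.1 hl
  rcases hlp.dvd_or_dvd h4 with h5 | h5
  · exact (Int.natCast_modEq_iff.1 (Int.modEq_iff_dvd.2 h5))
  · exact absurd h5 (not_dvd_y hl h1 h2)

theorem gV_eq (h : RV t c f V τ) {l : ℕ} (hl : l.Prime) (hlf : ¬ l ∣ f) {x y : ℤ}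
    (h1 : x ^ 2 + t * x * y + c * y ^ 2 = l) {n : ℕ} (h2 : (l : ℤ) ∣ x - n * y) :
    gV t c f V x y = V l n := by
  have hex : ∃ ln : ℕ × ℕ, ln.1.Prime ∧ ¬ ln.1 ∣ f ∧ x ^ 2 + t * x * y + c * y ^ 2 = ln.1 ∧
    (ln.1 : ℤ) ∣ x - ln.2 * y := ⟨(l, n), hl, hlf, h1, h2⟩
  unfold gV
  rw [dif_pos hex]
  obtain ⟨k1, _, k3, k4⟩ := hex.choose_spec
  have k5 : hex.choose.1 = l := by
    have : ((hex.choose.1 : ℕ) : ℤ) = (l : ℤ) := by rw [← k3, h1]
    exact_mod_cast this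
  rw [k5] at k4 ⊢
  exact h.per _ _ _ (root_unique hl h1 k4 h2)

theorem gV_ram {l : ℕ} (hlf : l ∣ f) {x y : ℤ}
    (h1 : x ^ 2 + t * x * y + c * y ^ 2 = l) : gV t c f V x y = 0 := by
  unfold gV
  rw [dif_neg]
  rintro ⟨ln, _, k2, k3, _⟩
  have : ((ln.1 : ℕ) : ℤ) = (l : ℤ) := by rw [← k3, h1]
  have h5 : ln.1 = l := by exact_mod_cast this
  rw [h5] at k2
  exact k2 hlf

/-- the condition is invariant under units -/
theorem cond_unit {a b x y : ℤ} (hu : a ^ 2 + t * a * b + c * b ^ 2 = 1) {l : ℕ} (hl : l.Prime)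
    {n : ℕ} (h1 : x ^ 2 + t * x * y + c * y ^ 2 = l) (h2 : (l : ℤ) ∣ x - n * y) :
    (a * x - c * b * y) ^ 2 + t * (a * x - c * b * y) * (a * y + b * x + t * b * y) +
      c * (a * y + b * x + t * b * y) ^ 2 = l ∧
    (l : ℤ) ∣ (a * x - c * b * y) - n * (a * y + b * x + t * b * y) := by
  constructor
  · have h3 : (a * x - c * b * y) ^ 2 + t * (a * x - c * b * y) * (a * y + b * x + t * b * y) +
      c * (a * y + b * x + t * b * y) ^ 2 =
      (a ^ 2 + t * a * b + c * b ^ 2) * (x ^ 2 + t * x * y + c * y ^ 2) := by ring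
    rw [h3, hu, h1, one_mul]
  · have hlp : Prime (l : ℤ) := Nat.prime_iff_prime_int.1 hl
    have h3 : (l : ℤ) ∣ y ^ 2 * ((n : ℤ) ^ 2 + t * n + c) := by
      have h4 : y ^ 2 * ((n : ℤ) ^ 2 + t * n + c) = (x ^ 2 + t * x * y + c * y ^ 2) -
          (x - n * y) * (x + n * y + t * y) := by ring
      rw [h4, h1]
      exact dvd_sub (dvd_refl _) (h2.mul_right _)
    have h5 : (l : ℤ) ∣ (n : ℤ) ^ 2 + t * n + c := by
      rcases hlp.dvd_or_dvd h3 with h6 | h6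
      · exact absurd (hlp.dvd_of_dvd_pow h6) (not_dvd_y hl h1 h2)
      · exact h6
    have h7 : (a * x - c * b * y) - n * (a * y + b * x + t * b * y) =
        a * (x - n * y) - b * (n * (x - n * y)) - b * y * ((n : ℤ) ^ 2 + t * n + c) := by ring
    rw [h7]
    exact dvd_sub (dvd_sub (h2.mul_left _) ((h2.mul_left _).mul_left _)) (h5.mul_left _)

theorem gV_Ru (h : RV t c f V τ) : Ru t c (gV t c f V) := by
  intro a b x y hab
  by_cases hex : ∃ ln : ℕ × ℕ, ln.1.Prime ∧ ¬ ln.1 ∣ f ∧ x ^ 2 + t * x * y + c * y ^ 2 = ln.1 ∧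
    (ln.1 : ℤ) ∣ x - ln.2 * y
  · obtain ⟨⟨l, n⟩, k1, k2, k3, k4⟩ := hex
    dsimp only at k1 k2 k3 k4
    obtain ⟨j1, j2⟩ := cond_unit hab k1 k3 k4
    rw [gV_eq h k1 k2 k3 k4, gV_eq h k1 k2 j1 j2]
  · have h0 : gV t c f V x y = 0 := by
      unfold gV
      rw [dif_neg hex]
    rw [h0]
    unfold gV
    rw [dif_neg]
    rintro ⟨⟨l, n⟩, k1, k2, k3, k4⟩
    dsimp only at k1 k2 k3 k4
    apply hex
    have hab' : (a + t * b) ^ 2 + t * (a + t * b) * (-b) + c * (-b) ^ 2 = 1 := by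
      rw [← hab]
      ring
    obtain ⟨j1, j2⟩ := cond_unit hab' k1 k3 k4
    have ex : (a + t * b) * (a * x - c * b * y) - c * (-b) * (a * y + b * x + t * b * y) = x := by
      linear_combination x * hab
    have ey : (a + t * b) * (a * y + b * x + t * b * y) + (-b) * (a * x - c * b * y) +
        t * (-b) * (a * y + b * x + t * b * y) = y := by
      linear_combination y * hab
    rw [ex, ey] at j1 j2
    exact ⟨(l, n), k1, k2, j1, j2⟩

/-- there are elements above -/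
theorem ab_ex (hF : Fd (t : ℤ) (c : ℤ) f χ) {l n : ℕ} (hl : l.Prime) (hd : l ∣ n ^ 2 + t * n + c) :
    ∃ z : ℤ × ℤ, Ab t c n l z := by
  have hD := hDG hF
  have hnw : nm (nw t c n) = n ^ 2 + t * n + c := by
    have h1 := nm_cast hD (nw t c n)
    have h2 : ((nm (nw t c n) : ℕ) : ℤ) = ((n ^ 2 + t * n + c : ℕ) : ℤ) := by
      rw [h1]
      unfold nw
      push_cast
      ring
    exact_mod_cast h2
  have hpr : prim (nw t c n) := by
    unfold prim nw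
    simp
  obtain ⟨π, w, h1, h2⟩ := prime_above hF hpr hl (by rw [hnw]; exact hd)
  refine ⟨(π.re, π.im), ?_⟩
  rw [← h2]
  exact ab_of hD ⟨w, h1⟩

theorem vl_gV (hF : Fd (t : ℤ) (c : ℤ) f χ) (h : RV t c f V τ) {l n : ℕ} (hl : l.Prime)
    (hd : l ∣ n ^ 2 + t * n + c) :
    vl t c (gV t c f V) n l = if l ∣ f then 0 else V l n := by
  have hex := ab_ex hF hl hd
  unfold vl
  rw [dif_pos hex]
  obtain ⟨h1, h2⟩ := hex.choose_spec
  split_ifs with hlf
  · exact gV_ram hlf h1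
  · exact gV_eq h hl hlf h1 h2

theorem vc_gV (hF : Fd (t : ℤ) (c : ℤ) f χ) (h : RV t c f V τ) {l n : ℕ} (hl : l.Prime)
    (hd : l ∣ n ^ 2 + t * n + c) :
    vc t c (gV t c f V) n l = if l ∣ f then 0 else τ - V l n := by
  have hex := ab_ex hF hl hd
  unfold vc
  rw [dif_pos hex]
  obtain ⟨h1, h2⟩ := hex.choose_spec
  obtain ⟨x, hx⟩ : ∃ x, x = hex.choose.1 := ⟨_, rfl⟩
  obtain ⟨y, hy⟩ : ∃ y, y = hex.choose.2 := ⟨_, rfl⟩
  rw [← hx, ← hy] at h1 h2 ⊢
  have h3 : (x + t * y) ^ 2 + t * (x + t * y) * (-y) + c * (-y) ^ 2 = l := by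
    rw [← h1]
    ring
  split_ifs with hlf
  · exact gV_ram hlf h3
  · -- the conjugate root
    obtain ⟨n', hn'⟩ : ∃ n' : ℕ, (l : ℤ) ∣ (n' : ℤ) + n + t := by
      refine ⟨(l - 1) * (n + t), ?_⟩
      have : (((l - 1) * (n + t) : ℕ) : ℤ) + n + t = l * (n + t) := by
        rw [Nat.cast_mul, Nat.cast_sub hl.one_lt.le]
        push_cast
        ring
      rw [this]
      exact dvd_mul_right _ _
    have h4 : (l : ℤ) ∣ (x + t * y) - n' * (-y) := by
      have : (x + t * y) - n' * (-y) = (x - n * y) + ((n' : ℤ) + n + t) * y := by ring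
      rw [this]
      exact dvd_add h2 (hn'.mul_right _)
    rw [gV_eq h hl hlf h3 h4]
    have hd' : (l : ℤ) ∣ (n : ℤ) ^ 2 + t * n + c := by exact_mod_cast hd
    have h5 : l ∣ n' ^ 2 + t * n' + c := by
      have h6 : (l : ℤ) ∣ (n' : ℤ) ^ 2 + t * n' + c := by
        have : (n' : ℤ) ^ 2 + t * n' + c = ((n : ℤ) ^ 2 + t * n + c) +
            ((n' : ℤ) + n + t) * (n' - n) := by ring
        rw [this]
        exact dvd_add hd' (hn'.mul_right _)
      exact_mod_cast h6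
    have h6 : ¬ n ≡ n' [MOD l] := by
      intro h7
      apply hlf
      have h8 : (l : ℤ) ∣ (n' : ℤ) - n := Int.modEq_iff_dvd.1 (Int.natCast_modEq_iff.2 h7)
      have h9 : (l : ℤ) ∣ 2 * n + t := by
        have : (2 * n + t : ℤ) = ((n' : ℤ) + n + t) - (n' - n) := by ring
        rw [this]
        exact dvd_sub hn' h8
      have h10 : (l : ℤ) ∣ f := by
        have h11 := hF.disc
        have : (f : ℤ) = 4 * ((n : ℤ) ^ 2 + t * n + c) - (2 * n + t) * (2 * n + t) := by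
          have : (f : ℤ) = 4 * c - t ^ 2 := by linarith
          rw [this]
          ring
        rw [this]
        exact dvd_sub (hd'.mul_left _) (h9.mul_left _)
      exact_mod_cast h10
    have h7 := h.sum l n n' hl hlf hd h5 h6
    rw [← h7]
    abel

/-- the sum of the values over the unramified prime factors of `N` -/
def Th (f : ℕ) (V : ℕ → ℕ → G) (N n : ℕ) : G := LS (fun l => if l ∣ f then 0 else V l n) N

theorem LS_congr {g g' : ℕ → G} {N : ℕ} (h : ∀ l : ℕ, l.Prime → l ∣ N → g l = g' l) :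
    LS g N = LS g' N := by
  unfold LS
  congr 1
  exact List.map_congr_left fun l hl =>
    h l (Nat.prime_of_mem_primeFactorsList hl) (Nat.dvd_of_mem_primeFactorsList hl)

theorem LS_add (g g' : ℕ → G) (N : ℕ) : LS (fun l => g l + g' l) N = LS g N + LS g' N := by
  unfold LS
  exact List.sum_map_add

theorem LS_ite (P : ℕ → Prop) (x : G) (N : ℕ) [DecidablePred P] :
    LS (fun l => if P l then x else 0) N = (cP P N) • x := by
  classical
  unfold LS cP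
  induction N.primeFactorsList with
  | nil => simp
  | cons a L ih =>
    rw [List.map_cons, List.sum_cons, ih, List.countP_cons]
    by_cases h : P a
    · simp only [h, if_true, decide_true]
      rw [add_smul, one_smul]
      abel
    · simp only [h, if_false, decide_false, zero_add]
      simp

theorem HC_gV (hF : Fd (t : ℤ) (c : ℤ) f χ)
    (hR : ∀ l : ℕ, l.Prime → l ∣ f → ∀ n : ℤ, ¬ ((l ^ 2 : ℕ) : ℤ) ∣ n ^ 2 + (t : ℤ) * n + (c : ℤ))
    (h : RV t c f V τ) {d e n : ℕ} (hd : 1 ≤ d) (he : 1 ≤ e) (hde : d * e = n ^ 2 + t * n + c) :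
    HC t c (gV t c f V) τ (d, e) = Th f V (d * e) n + (rm f d) • τ := by
  classical
  have hf : f ≠ 0 := by have := hF.three; omega
  unfold HC
  rw [nn_eq (p := (d, e)) (t_le hF) hde]
  dsimp only
  have e1 : LS (fun l => τ - vc t c (gV t c f V) n l) d =
      LS (fun l => if l ∣ f then 0 else V l n) d + (cP (fun l => l ∣ f) d) • τ := by
    rw [← LS_ite, ← LS_add]
    refine LS_congr fun l hl hld => ?_
    rw [vc_gV hF h hl (by rw [← hde]; exact hld.mul_right _)]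
    split_ifs <;> abel
  have e2 : LS (vl t c (gV t c f V) n) e = LS (fun l => if l ∣ f then 0 else V l n) e :=
    LS_congr fun l hl hld => vl_gV hF h hl (by rw [← hde]; exact hld.mul_left _)
  have e3 : cP (fun l => l ∣ f) d = rm f d := rm_eq hf (by omega) (fun l hl hlf hd2 =>
    hR l hl hlf n (by
      have h8 : l ^ 2 ∣ n ^ 2 + t * n + c := by
        rw [← hde]
        exact hd2.mul_right _
      exact_mod_cast h8))
  rw [e1, e2, e3]
  unfold Th
  rw [LS_mul _ (by omega : d ≠ 0) (by omega : e ≠ 0)]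
  abel

end

end Pool.Agent.V11296.EA
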