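import Pool.Agent.V11296.EA3

/-!
Functions `V(l, n)` of a prime factor `l` of `n^2 + t n + c` and of the root `n mod l` (helper296):
equidistribution.
-/

set_option autoImplicit false

namespace Pool.Agent.V11296.EA

open Finset Filter Topology
open Pool.Agent.W78.GA
open Pool.Agent.W78.EG
open Pool.Agent.W251.EG
open Pool.Agent.W738.EG (red red_eq PerM)
open Pool.Agent.TH890.DV (LogNull LogNull.of_ev)
open Pool.Agent.V11296.CX (null_sum)
open Pool.Agent.V11296.CV (prime_above Df)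
open Pool.Agent.V11296.CW (Dt)
open Pool.Agent.V11296.CY
open Pool.Agent.V11296.CZ (LS LS_mul LS_one LS_prime Ab vl vc ev ab_of ab_unique HC Rc Adc)
open Pool.Agent.V11296.DA

variable {G : Type} [AddCommGroup G]

section

variable {t c : ℕ} {f : ℕ} {χ : DirichletCharacter ℂ f} {V : ℕ → ℕ → G} {τ : G}

omit [AddCommGroup G] in
/-- from a function to another one which is obtained by a correction depending on `n mod m` and
`d mod m` -/
theorem wn_corr2 {G' : Type} (hF : Fd (t : ℤ) (c : ℤ) f χ) {H : ℕ × ℕ → G'} {H' : ℕ × ℕ → G}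
    {K : ℕ} {g : G} {m : ℕ} (hm : 1 ≤ m) (γ : ℕ → ℕ → G')
    (hH : ∀ (d e n : ℕ), 1 ≤ d → 1 ≤ e → 1 ≤ n + t → d * e = n ^ 2 + t * n + c →
      (H' (d, e) = g ↔ H (d, e) = γ (n % m) (d % m)))
    (hw : ∀ (x : G') (q u : ℕ), 1 ≤ q → Wn t c H x K q u) {q : ℕ} (hq : 1 ≤ q) (u : ℕ) :
    Wn t c H' g K q u := by
  classical
  intro r s₁ s₂ s₃ s₄ h1 h2 h3 h4 h5 h6 ε hε
  refine LogNull.of_ev 0 (fun X _ hX => ?_) (null_sum
    (((range (q * m)) ×ˢ (range (q * m))).filter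
        (fun x : ℕ × ℕ => x.1 ≡ u [MOD q] ∧ x.2 ≡ r [MOD q]))
    (fun x X => |∑ p ∈ SW (t : ℤ) (c : ℤ) (q * m) x.1 x.2 s₁ s₂ s₃ s₄ X,
      dv H (γ (x.1 % m) (x.2 % m)) K p|)
    (fun x _ ε' hε' => hw (γ (x.1 % m) (x.2 % m)) (q * m) x.1 (Nat.mul_pos hq hm) x.2
      s₁ s₂ s₃ s₄ h1 h2 h3 h4 h5 h6 ε' hε') ε hε)
  refine lt_of_lt_of_le hX ?_
  have e1 := split hF q m u r hq hm s₁ s₂ s₃ s₄ X (fun p => ((dv H' g K p : ℝ) : ℂ))
  have e2 : ∑ p ∈ SW (t : ℤ) (c : ℤ) q u r s₁ s₂ s₃ s₄ X, dv H' g K p =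
      ∑ x ∈ ((range (q * m)) ×ˢ (range (q * m))).filter
        (fun x : ℕ × ℕ => x.1 ≡ u [MOD q] ∧ x.2 ≡ r [MOD q]),
        ∑ p ∈ SW (t : ℤ) (c : ℤ) (q * m) x.1 x.2 s₁ s₂ s₃ s₄ X, dv H' g K p := by
    have e3 : ((∑ p ∈ SW (t : ℤ) (c : ℤ) q u r s₁ s₂ s₃ s₄ X, dv H' g K p : ℝ) : ℂ) =
      ((∑ x ∈ ((range (q * m)) ×ˢ (range (q * m))).filter
        (fun x : ℕ × ℕ => x.1 ≡ u [MOD q] ∧ x.2 ≡ r [MOD q]),
        ∑ p ∈ SW (t : ℤ) (c : ℤ) (q * m) x.1 x.2 s₁ s₂ s₃ s₄ X, dv H' g K p : ℝ) : ℂ) := by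
      push_cast
      exact e1
    exact_mod_cast e3
  rw [e2]
  refine (abs_sum_le_sum_abs _ _).trans (sum_le_sum fun x _ => le_of_eq ?_)
  congr 1
  refine sum_congr rfl fun p hp => ?_
  obtain ⟨⟨⟨h7, _⟩, h8, _⟩, ⟨n, h9, h10, h11, h12⟩, _⟩ := mem_SWn.1 hp
  have h13 := hH p.1 p.2 n h7 h8 h9 h10
  have h14 : p.1 % m = x.2 % m := h12.of_mul_left q
  have h15 : n % m = x.1 % m := h11.of_mul_left q
  rw [h14, h15] at h13
  unfold dv
  by_cases h15 : H' p = g
  · rw [if_pos h15, if_pos (h13.1 h15)]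
  · rw [if_neg h15, if_neg (fun h16 => h15 (h13.2 h16))]

/-- the sum as a sum over the primes -/
theorem LS_fac (g : ℕ → G) (N : ℕ) : LS g N = ∑ l ∈ N.primeFactors, N.factorization l • g l := by
  classical
  unfold LS
  rw [Finset.sum_list_map_count]
  refine sum_congr rfl fun l _ => ?_
  rw [Nat.primeFactorsList_count_eq]

/-- the values at the ramified primes -/
def rv (t c f : ℕ) (V : ℕ → ℕ → G) (n : ℕ) : G :=
  ∑ l ∈ f.primeFactors.filter (fun l => l ∣ n ^ 2 + t * n + c), V l n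

theorem rv_mod (hV : ∀ l n n' : ℕ, n ≡ n' [MOD l] → V l n = V l n') (n : ℕ) :
    rv t c f V (n % f) = rv t c f V n := by
  unfold rv
  have key : ∀ l ∈ f.primeFactors, n % f ≡ n [MOD l] := fun l hl =>
    (Nat.mod_modEq n f).of_dvd (Nat.dvd_of_mem_primeFactors hl)
  refine sum_congr (filter_congr fun l hl => ?_) fun l hl =>
    hV _ _ _ (key l (mem_filter.1 hl).1)
  have h1 : (n % f) ^ 2 + t * (n % f) + c ≡ n ^ 2 + t * n + c [MOD l] :=
    (((key l hl).pow 2).add ((key l hl).mul_left t)).add_right c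
  exact h1.dvd_iff (dvd_refl l)

theorem ram_eq (hf : f ≠ 0) {N n : ℕ} (hN : N ≠ 0)
    (h : ∀ l : ℕ, l.Prime → l ∣ f → ¬ l ^ 2 ∣ N) :
    LS (fun l => if l ∣ f then V l n else 0) N = ∑ l ∈ f.primeFactors.filter (fun l => l ∣ N),
      V l n := by
  classical
  rw [LS_fac]
  have e1 : ∑ l ∈ N.primeFactors, N.factorization l • (if l ∣ f then V l n else 0) =
      ∑ l ∈ N.primeFactors.filter (fun l => l ∣ f), N.factorization l • V l n := by
    rw [sum_filter]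
    refine sum_congr rfl fun l _ => ?_
    split_ifs
    · rfl
    · rw [smul_zero]
  rw [e1]
  have e2 : N.primeFactors.filter (fun l => l ∣ f) = f.primeFactors.filter (fun l => l ∣ N) := by
    ext l
    rw [mem_filter, mem_filter, Nat.mem_primeFactors, Nat.mem_primeFactors]
    constructor
    · rintro ⟨⟨h1, h2, _⟩, h3⟩
      exact ⟨⟨h1, h3, hf⟩, h2⟩
    · rintro ⟨⟨h1, h2, _⟩, h3⟩
      exact ⟨⟨h1, h3, hN⟩, h2⟩
  rw [e2]
  refine sum_congr rfl fun l hl => ?_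
  rw [mem_filter, Nat.mem_primeFactors] at hl
  obtain ⟨⟨h1, h2, _⟩, h3⟩ := hl
  have h4 : N.factorization l = 1 := by
    have h5 : 1 ≤ N.factorization l := (h1.dvd_iff_one_le_factorization hN).1 h3
    have h6 : ¬ 2 ≤ N.factorization l := fun h7 =>
      h l h1 h2 ((h1.pow_dvd_iff_le_factorization hN).2 h7)
    omega
  rw [h4, one_smul]

theorem LS_full (hF : Fd (t : ℤ) (c : ℤ) f χ)
    (hR : ∀ l : ℕ, l.Prime → l ∣ f → ∀ n : ℤ, ¬ ((l ^ 2 : ℕ) : ℤ) ∣ n ^ 2 + (t : ℤ) * n + (c : ℤ))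
    (n : ℕ) : LS (fun l => V l n) (n ^ 2 + t * n + c) =
      Th f V (n ^ 2 + t * n + c) n + rv t c f V n := by
  classical
  have hc := c_pos hF
  have hf : f ≠ 0 := by have := hF.three; omega
  unfold rv
  rw [← ram_eq hf (by omega : n ^ 2 + t * n + c ≠ 0) (fun l hl hlf hd => hR l hl hlf n (by
    exact_mod_cast hd))]
  unfold Th
  rw [← LS_add]
  refine LS_congr fun l _ _ => ?_
  split_ifs
  · rw [zero_add]
  · rw [add_zero]

/-- the conjugate root -/
theorem conj_root (hF : Fd (t : ℤ) (c : ℤ) f χ) {l n : ℕ} (hl : l.Prime) (hlf : ¬ l ∣ f)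
    (hd : l ∣ n ^ 2 + t * n + c) {x y : ℤ} (h2 : (l : ℤ) ∣ x - n * y) :
    ∃ n' : ℕ, l ∣ n' ^ 2 + t * n' + c ∧ ¬ n ≡ n' [MOD l] ∧
      (l : ℤ) ∣ (x + t * y) - n' * (-y) := by
  obtain ⟨n', hn'⟩ : ∃ n' : ℕ, (l : ℤ) ∣ (n' : ℤ) + n + t := by
    refine ⟨(l - 1) * (n + t), ?_⟩
    have : (((l - 1) * (n + t) : ℕ) : ℤ) + n + t = l * (n + t) := by
      rw [Nat.cast_mul, Nat.cast_sub hl.one_lt.le]
      push_cast
      ring
    rw [this]
    exact dvd_mul_right _ _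
  have hd' : (l : ℤ) ∣ (n : ℤ) ^ 2 + t * n + c := by exact_mod_cast hd
  refine ⟨n', ?_, ?_, ?_⟩
  · have h6 : (l : ℤ) ∣ (n' : ℤ) ^ 2 + t * n' + c := by
      have : (n' : ℤ) ^ 2 + t * n' + c = ((n : ℤ) ^ 2 + t * n + c) +
          ((n' : ℤ) + n + t) * (n' - n) := by ring
      rw [this]
      exact dvd_add hd' (hn'.mul_right _)
    exact_mod_cast h6
  · intro h7
    apply hlf
    have h8 : (l : ℤ) ∣ (n' : ℤ) - n := Int.modEq_iff_dvd.1 (Int.natCast_modEq_iff.2 h7)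
    have h9 : (l : ℤ) ∣ 2 * n + t := by
      have : (2 * n + t : ℤ) = ((n' : ℤ) + n + t) - (n' - n) := by ring
      rw [this]
      exact dvd_sub hn' h8
    have h10 : (l : ℤ) ∣ f := by
      have h11 := hF.disc
      have : (f : ℤ) = 4 * ((n : ℤ) ^ 2 + t * n + c) - (2 * n + t) * (2 * n + t) := by
        have : (f : ℤ) = 4 * c - t ^ 2 := by linarith
        rw [this]
        ring
      rw [this]
      exact dvd_sub (hd'.mul_left _) (h9.mul_left _)
    exact_mod_cast h10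
  · have : (x + t * y) - n' * (-y) = (x - n * y) + ((n' : ℤ) + n + t) * y := by ring
    rw [this]
    exact dvd_add h2 (hn'.mul_right _)

/-- a root below an element -/
theorem root_of {l : ℕ} (hl : l.Prime) {x y : ℤ} (h1 : x ^ 2 + t * x * y + c * y ^ 2 = l) :
    ∃ n : ℕ, (l : ℤ) ∣ x - n * y ∧ l ∣ n ^ 2 + t * n + c := by
  have : Fact l.Prime := ⟨hl⟩
  have hy : (y : ZMod l) ≠ 0 := by
    intro h
    have hy : (l : ℤ) ∣ y := (ZMod.intCast_zmod_eq_zero_iff_dvd y l).1 h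
    have hlp : Prime (l : ℤ) := Nat.prime_iff_prime_int.1 hl
    have hx : (l : ℤ) ∣ x := by
      refine hlp.dvd_of_dvd_pow (n := 2) ?_
      have : x ^ 2 = l - y * (t * x + c * y) := by
        rw [← h1]
        ring
      rw [this]
      exact dvd_sub (dvd_refl _) (hy.mul_right _)
    exact not_dvd_y hl h1 (n := 0) (by simpa using hx) hy
  obtain ⟨n, hn⟩ : ∃ n : ℕ, (n : ZMod l) = (x : ZMod l) * (y : ZMod l)⁻¹ :=
    ⟨((x : ZMod l) * (y : ZMod l)⁻¹).val, by rw [ZMod.natCast_zmod_val]⟩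
  have h2 : (l : ℤ) ∣ x - n * y := by
    rw [← ZMod.intCast_zmod_eq_zero_iff_dvd]
    push_cast
    rw [hn, mul_assoc, inv_mul_cancel₀ hy, mul_one, sub_self]
  refine ⟨n, h2, ?_⟩
  have hlp : Prime (l : ℤ) := Nat.prime_iff_prime_int.1 hl
  have h3 : (l : ℤ) ∣ y ^ 2 * ((n : ℤ) ^ 2 + t * n + c) := by
    have h4 : y ^ 2 * ((n : ℤ) ^ 2 + t * n + c) = (x ^ 2 + t * x * y + c * y ^ 2) -
        (x - n * y) * (x + n * y + t * y) := by ring
    rw [h4, h1]
    exact dvd_sub (dvd_refl _) (h2.mul_right _)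
  have h5 : (l : ℤ) ∣ (n : ℤ) ^ 2 + t * n + c := by
    rcases hlp.dvd_or_dvd h3 with h6 | h6
    · exact absurd (hlp.dvd_of_dvd_pow h6) (not_dvd_y hl h1 h2)
    · exact h6
  exact_mod_cast h5

open scoped Classical in
/-- the primes with two roots where the difference of the values is in `B` -/
noncomputable def bad (t c : ℕ) (V : ℕ → ℕ → G) (B : AddSubgroup G) (N : ℕ) : Finset ℕ :=
  (Icc 1 N).filter (fun p => p.Prime ∧ ∃ n n' : ℕ, p ∣ n ^ 2 + t * n + c ∧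
    p ∣ n' ^ 2 + t * n' + c ∧ ¬ n ≡ n' [MOD p] ∧ V p n - V p n' ∈ B)

/-- for every proper subgroup, these primes have density `0` -/
def GenV (t c : ℕ) (V : ℕ → ℕ → G) : Prop := ∀ B : AddSubgroup G, B ≠ ⊤ → ∀ ε : ℝ, 0 < ε →
  ∃ N₀ : ℕ, ∀ N : ℕ, N₀ ≤ N → ∑ p ∈ bad t c V B N, Real.log p ≤ ε * N

theorem gen_gV (hF : Fd (t : ℤ) (c : ℤ) f χ) (h : RV t c f V τ) (hg : GenV t c V) :
    Gen t c (gV t c f V) := by
  classical
  have hP : S_PID (t : ℤ) (c : ℤ) := Pool.Agent.W290.EG.pid hF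
  have hD := hDG hF
  intro B hB M hM
  obtain ⟨δ, hδ, N₀, hN₀⟩ := dens hF hP (lconG hF) (Pool.Agent.W240.EG.lnv hF hP (lconG hF)) hM
  obtain ⟨N₁, hN₁⟩ := hg B hB (δ / 2) (by positivity)
  refine ⟨δ / 2, by positivity, max N₀ N₁, fun N hN => ?_⟩
  have h1 := hN₀ N ((le_max_left _ _).trans hN)
  have h2 := hN₁ N ((le_max_right _ _).trans hN)
  have hlog : ∀ p ∈ Icc 1 N, 0 ≤ Real.log p := fun p hp =>
    Real.log_nonneg (by exact_mod_cast (mem_Icc.1 hp).1)
  have h3 : ∑ p ∈ (Icc 1 N).filter (fun p : ℕ => p.Prime ∧ ¬ p ∣ f ∧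
      ∃ z : Qd (t : ℤ) (c : ℤ), nm z = p ∧ red (t : ℤ) (c : ℤ) M z = red (t : ℤ) (c : ℤ) M 1),
      Real.log p ≤ ∑ p ∈ Pg t c (gV t c f V) B M N, Real.log p +
        ∑ p ∈ bad t c V B N, Real.log p := by
    refine le_trans (sum_le_sum_of_subset_of_nonneg
      (t := Pg t c (gV t c f V) B M N ∪ bad t c V B N) ?_ ?_) ?_
    · intro p hp
      rw [mem_filter] at hp
      obtain ⟨h1, h2, h3, z, h4, h5⟩ := hp
      rw [red_eq] at h5
      have h6 : z.re ^ 2 + t * z.re * z.im + c * z.im ^ 2 = (p : ℤ) := by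
        rw [← nm_cast hD, h4]
      obtain ⟨n, h7, h8⟩ := root_of h2 h6
      obtain ⟨n', k1, k2, k3⟩ := conj_root hF h2 h3 h8 h7
      have h6' : (z.re + t * z.im) ^ 2 + t * (z.re + t * z.im) * (-z.im) + c * (-z.im) ^ 2 =
          (p : ℤ) := by
        rw [← h6]
        ring
      have e1 : gV t c f V z.re z.im = V p n := gV_eq h h2 h3 h6 h7
      have e2 : gV t c f V (z.re + t * z.im) (-z.im) = V p n' := gV_eq h h2 h3 h6' k3
      rw [mem_union]
      by_cases hb : V p n - V p n' ∈ B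
      · right
        unfold bad
        rw [mem_filter]
        exact ⟨h1, h2, n, n', h8, k1, k2, hb⟩
      · left
        unfold Pg
        rw [mem_filter]
        refine ⟨h1, h2, z.re, z.im, ?_, ?_, h6, ?_⟩
        · have h7 : (M : ℤ) ∣ z.re - 1 := by
            have := h5.1
            rwa [QuadraticAlgebra.re_one] at this
          exact (Int.modEq_iff_dvd.2 h7).symm
        · have h7 : (M : ℤ) ∣ z.im - 0 := by
            have := h5.2
            rwa [QuadraticAlgebra.im_one] at this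
          exact (Int.modEq_iff_dvd.2 h7).symm
        · rw [e1, e2]
          exact hb
    · intro p hp _
      refine hlog p ?_
      rcases mem_union.1 hp with h7 | h7
      · unfold Pg at h7
        exact (mem_filter.1 h7).1
      · unfold bad at h7
        exact (mem_filter.1 h7).1
    · rw [← sum_union_inter]
      have : 0 ≤ ∑ p ∈ Pg t c (gV t c f V) B M N ∩ bad t c V B N, Real.log p := by
        refine sum_nonneg fun p hp => hlog p ?_
        have h7 := (mem_inter.1 hp).2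
        unfold bad at h7
        exact (mem_filter.1 h7).1
      linarith
  linarith

/-! ### the theorem -/

/-- the values -/
noncomputable def HT (c k : ℕ) (V : ℕ → ℕ → G) (p : ℕ × ℕ) : (ZMod k × ZMod k) × G :=
  ((((p.1.primeFactorsList.length : ℕ) : ZMod k), ((p.2.primeFactorsList.length : ℕ) : ZMod k)),
    LS (fun l => V l (nn c p)) (p.1 * p.2))

theorem Dt_top (t c k : ℕ) :
    Dt t c 1 (fun _ _ => ((0, 1) : ZMod k × ZMod k)) ((1, 1) : ZMod k × ZMod k) = ⊤ := by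
  have h1 : ((0, 1) : ZMod k × ZMod k) ∈
      Dt t c 1 (fun _ _ => ((0, 1) : ZMod k × ZMod k)) ((1, 1) : ZMod k × ZMod k) := by
    refine AddSubgroup.mem_sup_left (AddSubgroup.subset_closure ⟨1, 0, 1, 0, ?_, ?_, ?_⟩)
    · simp only [Nat.cast_one]
      exact isCoprime_one_right
    · simp only [Nat.cast_one]
      exact isCoprime_one_right
    · simp
  have h2 : ((1, 1) : ZMod k × ZMod k) ∈
      Dt t c 1 (fun _ _ => ((0, 1) : ZMod k × ZMod k)) ((1, 1) : ZMod k × ZMod k) :=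
    AddSubgroup.mem_sup_right (AddSubgroup.mem_zmultiples _)
  have h3 : ((1, 0) : ZMod k × ZMod k) ∈
      Dt t c 1 (fun _ _ => ((0, 1) : ZMod k × ZMod k)) ((1, 1) : ZMod k × ZMod k) := by
    have := AddSubgroup.sub_mem _ h2 h1
    simpa using this
  rw [eq_top_iff]
  rintro ⟨a, b⟩ _
  obtain ⟨i, rfl⟩ := ZMod.intCast_surjective a
  obtain ⟨j, rfl⟩ := ZMod.intCast_surjective b
  have h4 := AddSubgroup.add_mem _ (AddSubgroup.zsmul_mem _ h3 i) (AddSubgroup.zsmul_mem _ h1 j)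
  have h5 : i • ((1, 0) : ZMod k × ZMod k) + j • ((0, 1) : ZMod k × ZMod k) =
      ((i : ZMod k), (j : ZMod k)) := by
    simp
  rwa [h5] at h4

theorem LS_const (x : G) (N : ℕ) : LS (fun _ => x) N = N.primeFactorsList.length • x := by
  unfold LS
  rw [List.map_const', List.sum_replicate]

theorem HC_const (hF : Fd (t : ℤ) (c : ℤ) f χ) (k : ℕ) {d e n : ℕ}
    (hde : d * e = n ^ 2 + t * n + c) :
    HC t c (fun _ _ => ((0, 1) : ZMod k × ZMod k)) ((1, 1) : ZMod k × ZMod k) (d, e) =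
      (((d.primeFactorsList.length : ℕ) : ZMod k), ((e.primeFactorsList.length : ℕ) : ZMod k)) := by
  unfold HC
  rw [nn_eq (p := (d, e)) (t_le hF) hde]
  dsimp only
  have e1 : LS (fun l => ((1, 1) : ZMod k × ZMod k) -
      vc t c (fun _ _ => ((0, 1) : ZMod k × ZMod k)) n l) d =
      LS (fun _ => ((1, 0) : ZMod k × ZMod k)) d := by
    refine LS_congr fun l hl hld => ?_
    have hex := ab_ex hF hl (n := n) (by rw [← hde]; exact hld.mul_right _)
    unfold vc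
    rw [dif_pos hex]
    simp
  have e2 : LS (vl t c (fun _ _ => ((0, 1) : ZMod k × ZMod k)) n) e =
      LS (fun _ => ((0, 1) : ZMod k × ZMod k)) e := by
    refine LS_congr fun l hl hld => ?_
    have hex := ab_ex hF hl (n := n) (by rw [← hde]; exact hld.mul_left _)
    unfold vl
    rw [dif_pos hex]
  rw [e1, e2, LS_const, LS_const]
  simp

/-- equidistribution in the windows -/
theorem wn_V [Finite G] (hF : Fd (t : ℤ) (c : ℤ) f χ)
    (hR : ∀ l : ℕ, l.Prime → l ∣ f → ∀ n : ℤ, ¬ ((l ^ 2 : ℕ) : ℤ) ∣ n ^ 2 + (t : ℤ) * n + (c : ℤ))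
    (h : RV t c f V τ) (hg : GenV t c V) (k : ℕ) [NeZero k] (x : (ZMod k × ZMod k) × G)
    {q : ℕ} (hq : 1 ≤ q) (u : ℕ) : Wn t c (HT c k V) x (k ^ 2 * Nat.card G) q u := by
  have hc := c_pos hF
  have hf : 1 ≤ f := le_trans (by norm_num) hF.three
  have hRc : Rc t c 1 (fun _ _ => ((0, 1) : ZMod k × ZMod k)) := by
    refine ⟨le_rfl, fun _ _ _ _ _ _ => rfl, fun _ _ _ _ _ => rfl⟩
  have hK : Nat.card (Dt t c 1 (fun _ _ => ((0, 1) : ZMod k × ZMod k))
      ((1, 1) : ZMod k × ZMod k)) = k ^ 2 := by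
    rw [Dt_top, AddSubgroup.card_top, card_tk2]
  refine wn_corr2 hF (H := HC t c (cmb (fun _ _ => ((0, 1) : ZMod k × ZMod k)) (gV t c f V))
    (((1, 1) : ZMod k × ZMod k), τ)) hf
    (fun n d => (x.1, x.2 - rv t c f V n + rm f d • τ)) ?_ ?_ hq u
  · intro d e n hd he hn hde
    rw [HC_cmb, HC_const hF k hde, HC_gV hF hR h hd he hde, rv_mod h.per, rm_mod (Nat.mod_modEq d f)]
    unfold HT
    rw [nn_eq (p := (d, e)) (t_le hF) hde]
    dsimp only
    rw [hde, LS_full hF hR]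
    obtain ⟨x₁, x₂⟩ := x
    constructor
    · intro h0
      have a1 := congrArg Prod.fst h0
      have a2 := congrArg Prod.snd h0
      dsimp only at a1 a2
      refine Prod.ext a1 ?_
      dsimp only
      rw [← a2]
      abel
    · intro h0
      have a1 := congrArg Prod.fst h0
      have a2 := congrArg Prod.snd h0
      dsimp only at a1 a2
      refine Prod.ext a1 ?_
      dsimp only
      have h2 : Th f V (n ^ 2 + t * n + c) n = x₂ - rv t c f V n := add_right_cancel a2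
      rw [h2]
      abel
  · intro y q' u' hq' r s₁ s₂ s₃ s₄ h1 h2 h3 h4 h5 h6 ε hε
    have h7 := outU (τ₁ := ((1, 1) : ZMod k × ZMod k)) (τ₂ := τ) hF hRc (gV_Ru h) (gen_gV hF h hg)
      (g₁ := y.1) y.2 (q := q') (a := u') (r := r) hq' (Or.inl (Dt_top t c k)) s₁ s₂ s₃ s₄
      h1 h2 h3 h4 h5 h6 ε hε
    rw [hK] at h7
    exact h7

end

end Pool.Agent.V11296.EA
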