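import Pool.Agent.V11296.EA4

/-!
Functions `e(l, n)` of a prime factor `l` of `A n^2 + B n + C` and of the root `n mod l` (helper296),
for the quadratic polynomials of class number one discriminants.
-/

set_option autoImplicit false

namespace Pool.Agent.V11296.EA

open Finset Filter Topology
open Pool.Agent.W78.GA
open Pool.Agent.W78.EG
open Pool.Agent.W251.EG
open Pool.Agent.TH890.DV (LogNull LogNull.of_ev)
open Pool.Agent.V11296.CX (null_sum)
open Pool.Agent.V11296.CY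
open Pool.Agent.V11296.CZ (LS LS_mul LS_one LS_prime)
open Pool.Agent.V11296.DA

variable {G : Type} [AddCommGroup G]

section

variable {t c : ℕ} {f : ℕ} {χ : DirichletCharacter ℂ f} {A B C β : ℕ} {e : ℕ → ℕ → G} {τ : G}

/-- `e l n` depends on `n mod l`, and the values at two different roots modulo `l` of
`A x^2 + B x + C` have the sum `τ` -/
structure RVf (A B C : ℕ) (e : ℕ → ℕ → G) (τ : G) : Prop where
  per : ∀ l n n' : ℕ, n ≡ n' [MOD l] → e l n = e l n'
  sum : ∀ l n n' : ℕ, l.Prime → l ∣ A * n ^ 2 + B * n + C → l ∣ A * n' ^ 2 + B * n' + C →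
    ¬ n ≡ n' [MOD l] → e l n + e l n' = τ

open scoped Classical in
/-- a root modulo `l` -/
noncomputable def rf (A B C l : ℕ) : ℕ :=
  if h : ∃ y : ℕ, l ∣ A * y ^ 2 + B * y + C then h.choose else 0

open scoped Classical in
/-- the function for `x^2 + t x + c` -/
noncomputable def vF (A B C β : ℕ) (e : ℕ → ℕ → G) (τ : G) (l x : ℕ) : G :=
  if l ∣ A then (if x ≡ β [MOD l] then e l (rf A B C l) else τ - e l (rf A B C l))
  else e l (((A : ZMod l)⁻¹ * ((x : ZMod l) - β)).val)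

/-- at most two roots -/
theorem two_roots {l a b n : ℕ} (hl : l.Prime) (ha : l ∣ a ^ 2 + t * a + c)
    (hb : l ∣ b ^ 2 + t * b + c) (hn : l ∣ n ^ 2 + t * n + c) (hab : ¬ a ≡ b [MOD l]) :
    n ≡ a [MOD l] ∨ n ≡ b [MOD l] := by
  have hlp : Prime (l : ℤ) := Nat.prime_iff_prime_int.1 hl
  have ha' : (l : ℤ) ∣ (a : ℤ) ^ 2 + t * a + c := by exact_mod_cast ha
  have hb' : (l : ℤ) ∣ (b : ℤ) ^ 2 + t * b + c := by exact_mod_cast hb
  have hn' : (l : ℤ) ∣ (n : ℤ) ^ 2 + t * n + c := by exact_mod_cast hn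
  have h1 : (l : ℤ) ∣ ((b : ℤ) - a) * (b + a + t) := by
    have : ((b : ℤ) - a) * (b + a + t) = ((b : ℤ) ^ 2 + t * b + c) - (a ^ 2 + t * a + c) := by ring
    rw [this]
    exact dvd_sub hb' ha'
  have h2 : (l : ℤ) ∣ ((a : ℤ) - n) * (a + n + t) := by
    have : ((a : ℤ) - n) * (a + n + t) = ((a : ℤ) ^ 2 + t * a + c) - (n ^ 2 + t * n + c) := by ring
    rw [this]
    exact dvd_sub ha' hn'
  have h3 : (l : ℤ) ∣ b + a + t := by
    rcases hlp.dvd_or_dvd h1 with h | h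
    · exact absurd (Int.natCast_modEq_iff.1 (Int.modEq_iff_dvd.2 h)) hab
    · exact h
  rcases hlp.dvd_or_dvd h2 with h | h
  · left
    exact Int.natCast_modEq_iff.1 (Int.modEq_iff_dvd.2 h)
  · right
    refine Int.natCast_modEq_iff.1 (Int.modEq_iff_dvd.2 ?_)
    have : ((b : ℤ) - n) = (b + a + t) - (a + n + t) := by ring
    rw [this]
    exact dvd_sub h3 h

/-- one root modulo the prime factors of the leading coefficient -/
theorem root_A (hF : Fd (t : ℤ) (c : ℤ) f χ)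
    (hR : ∀ l : ℕ, l.Prime → l ∣ f → ∀ n : ℤ, ¬ ((l ^ 2 : ℕ) : ℤ) ∣ n ^ 2 + (t : ℤ) * n + (c : ℤ))
    (hβ : B = 2 * β + t) (hD : B ^ 2 + 4 * c = t ^ 2 + 4 * A * C) {l : ℕ} (hlp : l.Prime)
    (hlA : l ∣ A) {n m : ℕ} (hn : l ∣ A * n ^ 2 + B * n + C) (hm : l ∣ A * m ^ 2 + B * m + C) :
    n ≡ m [MOD l] := by
  have hlB : ¬ l ∣ B := by
    intro hB
    have hC : l ∣ C := by
      have h3 : l ∣ A * n ^ 2 + B * n := dvd_add (hlA.mul_right _) (hB.mul_right _)
      exact (Nat.dvd_add_right h3).1 hn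
    exact not_all hF hR hβ hD hlp hlA hB hC
  have key : ∀ y : ℕ, l ∣ A * y ^ 2 + B * y + C → B * y + C ≡ 0 [MOD l] := by
    intro y hy
    have h3 : A * y ^ 2 + B * y + C ≡ 0 [MOD l] := Nat.modEq_zero_iff_dvd.2 hy
    have h4 : A * y ^ 2 ≡ 0 [MOD l] := Nat.modEq_zero_iff_dvd.2 (hlA.mul_right _)
    have h5 : A * y ^ 2 + (B * y + C) ≡ 0 + (B * y + C) [MOD l] := h4.add_right _
    rw [zero_add, ← add_assoc] at h5
    exact h5.symm.trans h3
  have e3 : B * n ≡ B * m [MOD l] :=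
    Nat.ModEq.add_right_cancel' C ((key n hn).trans (key m hm).symm)
  exact Nat.ModEq.cancel_left_of_coprime ((Nat.Prime.coprime_iff_not_dvd hlp).2 hlB) e3

theorem inv_root {l : ℕ} (hl : l.Prime) (hlA : ¬ l ∣ A) (x : ℕ) :
    A * (((A : ZMod l)⁻¹ * ((x : ZMod l) - β)).val) + β ≡ x [MOD l] := by
  have : Fact l.Prime := ⟨hl⟩
  have hA0 : (A : ZMod l) ≠ 0 := fun h => hlA ((ZMod.natCast_eq_zero_iff _ _).1 h)
  rw [← ZMod.natCast_eq_natCast_iff]
  push_cast
  rw [ZMod.natCast_zmod_val, ← mul_assoc, mul_inv_cancel₀ hA0, one_mul, sub_add_cancel]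

theorem f_root (hβ : B = 2 * β + t) (hD : B ^ 2 + 4 * c = t ^ 2 + 4 * A * C) {l : ℕ}
    (hl : l.Prime) (hlA : ¬ l ∣ A) {y x : ℕ} (h : A * y + β ≡ x [MOD l])
    (hx : l ∣ x ^ 2 + t * x + c) : l ∣ A * y ^ 2 + B * y + C := by
  have h1 : l ∣ A * (A * y ^ 2 + B * y + C) := by
    rw [idn hβ hD]
    have h2 : (A * y + β) ^ 2 + t * (A * y + β) + c ≡ x ^ 2 + t * x + c [MOD l] :=
      ((h.pow 2).add (h.mul_left t)).add_right c
    exact (h2.dvd_iff (dvd_refl l)).2 hx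
  exact (hl.dvd_mul.1 h1).resolve_left hlA

theorem vF_RV (h : RVf A B C e τ) (hβ : B = 2 * β + t) (hD : B ^ 2 + 4 * c = t ^ 2 + 4 * A * C) :
    RV t c f (vF A B C β e τ) τ := by
  constructor
  · intro l n n' hn
    unfold vF
    by_cases hlA : l ∣ A
    · rw [if_pos hlA, if_pos hlA]
      by_cases h1 : n ≡ β [MOD l]
      · rw [if_pos h1, if_pos (hn.symm.trans h1)]
      · rw [if_neg h1, if_neg (fun h2 => h1 (hn.trans h2))]
    · rw [if_neg hlA, if_neg hlA, (ZMod.natCast_eq_natCast_iff n n' l).2 hn]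
  · intro l n n' hl _ hn hn' hnn
    unfold vF
    by_cases hlA : l ∣ A
    · rw [if_pos hlA, if_pos hlA]
      have h0 := idn hβ hD 0
      simp only [mul_zero, zero_add, ne_eq, OfNat.ofNat_ne_zero, not_false_eq_true, zero_pow] at h0
      have hb : l ∣ β ^ 2 + t * β + c := by
        rw [← h0]
        exact hlA.mul_right _
      rcases two_roots hl hn hn' hb hnn with h1 | h1
      · rw [if_pos h1.symm, if_neg (fun h2 => hnn ((h2.trans h1).symm))]
        abel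
      · rw [if_neg (fun h2 => hnn (h2.trans h1)), if_pos h1.symm]
        abel
    · rw [if_neg hlA, if_neg hlA]
      have e1 := inv_root (β := β) hl hlA n
      have e2 := inv_root (β := β) hl hlA n'
      refine h.sum l _ _ hl (f_root hβ hD hl hlA e1 hn) (f_root hβ hD hl hlA e2 hn')
        (fun h1 => hnn ?_)
      exact e1.symm.trans (((h1.mul_left A).add_right β).trans e2)

open scoped Classical in
/-- the primes with two roots where the difference of the values is in `S` -/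
noncomputable def badf (A B C : ℕ) (e : ℕ → ℕ → G) (S : AddSubgroup G) (N : ℕ) : Finset ℕ :=
  (Icc 1 N).filter (fun p => p.Prime ∧ ∃ n n' : ℕ, p ∣ A * n ^ 2 + B * n + C ∧
    p ∣ A * n' ^ 2 + B * n' + C ∧ ¬ n ≡ n' [MOD p] ∧ e p n - e p n' ∈ S)

/-- for every proper subgroup, these primes have density `0` -/
def GenVf (A B C : ℕ) (e : ℕ → ℕ → G) : Prop := ∀ S : AddSubgroup G, S ≠ ⊤ → ∀ ε : ℝ, 0 < ε →
  ∃ N₀ : ℕ, ∀ N : ℕ, N₀ ≤ N → ∑ p ∈ badf A B C e S N, Real.log p ≤ ε * N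

theorem vF_Gen (hA : 1 ≤ A) (hβ : B = 2 * β + t) (hD : B ^ 2 + 4 * c = t ^ 2 + 4 * A * C)
    (hg : GenVf A B C e) : GenV t c (vF A B C β e τ) := by
  classical
  intro S hS ε hε
  obtain ⟨N₀, hN₀⟩ := hg S hS (ε / 2) (by positivity)
  obtain ⟨N₁, hN₁⟩ := exists_nat_ge ((∑ p ∈ A.divisors, Real.log p) / (ε / 2))
  refine ⟨max N₀ N₁, fun N hN => ?_⟩
  have h1 := hN₀ N ((le_max_left _ _).trans hN)
  have h2 : ∑ p ∈ A.divisors, Real.log p ≤ ε / 2 * N := by
    have h3 : (N₁ : ℝ) ≤ N := by exact_mod_cast (le_max_right _ _).trans hN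
    have h4 := hN₁.trans h3
    rw [div_le_iff₀ (by positivity)] at h4
    linarith
  have hlog : ∀ p ∈ Icc 1 N, 0 ≤ Real.log p := fun p hp =>
    Real.log_nonneg (by exact_mod_cast (mem_Icc.1 hp).1)
  have hlog2 : ∀ p ∈ A.divisors, 0 ≤ Real.log p := fun p hp =>
    Real.log_nonneg (by exact_mod_cast Nat.pos_of_mem_divisors hp)
  have h3 : ∑ p ∈ bad t c (vF A B C β e τ) S N, Real.log p ≤ ∑ p ∈ badf A B C e S N, Real.log p +
      ∑ p ∈ A.divisors, Real.log p := by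
    refine le_trans (sum_le_sum_of_subset_of_nonneg
      (t := badf A B C e S N ∪ A.divisors) ?_ ?_) ?_
    · intro p hp
      unfold bad at hp
      rw [mem_filter] at hp
      obtain ⟨k1, k2, n, n', k3, k4, k5, k6⟩ := hp
      rw [mem_union]
      by_cases hpA : p ∣ A
      · right
        exact Nat.mem_divisors.2 ⟨hpA, by omega⟩
      · left
        unfold badf
        rw [mem_filter]
        have e1 := inv_root (β := β) k2 hpA n
        have e2 := inv_root (β := β) k2 hpA n'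
        refine ⟨k1, k2, _, _, f_root hβ hD k2 hpA e1 k3, f_root hβ hD k2 hpA e2 k4,
          fun h1 => k5 (e1.symm.trans (((h1.mul_left A).add_right β).trans e2)), ?_⟩
        unfold vF at k6
        rw [if_neg hpA, if_neg hpA] at k6
        exact k6
    · intro p hp _
      rcases mem_union.1 hp with h7 | h7
      · unfold badf at h7
        exact hlog p (mem_filter.1 h7).1
      · exact hlog2 p h7
    · rw [← sum_union_inter]
      have : 0 ≤ ∑ p ∈ badf A B C e S N ∩ A.divisors, Real.log p :=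
        sum_nonneg fun p hp => hlog2 p (mem_inter.1 hp).2
      linarith
  linarith

/-- the sum of the values over the prime factors of `A` -/
noncomputable def kA (A B C β : ℕ) (e : ℕ → ℕ → G) (τ : G) : G :=
  LS (fun l => vF A B C β e τ l β) A

theorem LS_vF (hF : Fd (t : ℤ) (c : ℤ) f χ)
    (hR : ∀ l : ℕ, l.Prime → l ∣ f → ∀ n : ℤ, ¬ ((l ^ 2 : ℕ) : ℤ) ∣ n ^ 2 + (t : ℤ) * n + (c : ℤ))
    (hA : 1 ≤ A) (h : RVf A B C e τ) (hβ : B = 2 * β + t)
    (hD : B ^ 2 + 4 * c = t ^ 2 + 4 * A * C) (n : ℕ) (h0 : A * n ^ 2 + B * n + C ≠ 0) :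
    LS (fun l => vF A B C β e τ l (A * n + β)) (A * (A * n ^ 2 + B * n + C)) =
      kA A B C β e τ + LS (fun l => e l n) (A * n ^ 2 + B * n + C) := by
  rw [LS_mul _ (by omega) h0]
  congr 1
  · unfold kA
    refine LS_congr fun l _ hl => ?_
    have hx : A * n + β ≡ β [MOD l] := by
      have h2 : A * n ≡ 0 [MOD l] := (Nat.modEq_zero_iff_dvd.2 (hl.mul_right n))
      simpa using h2.add_right β
    exact (vF_RV (f := f) h hβ hD).per l _ _ hx
  · refine LS_congr fun l hl hld => ?_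
    unfold vF
    by_cases hlA : l ∣ A
    · have hx : A * n + β ≡ β [MOD l] := by
        have h2 : A * n ≡ 0 [MOD l] := (Nat.modEq_zero_iff_dvd.2 (hlA.mul_right n))
        simpa using h2.add_right β
      rw [if_pos hlA, if_pos hx]
      have hex : ∃ y : ℕ, l ∣ A * y ^ 2 + B * y + C := ⟨n, hld⟩
      refine h.per l _ _ (root_A hF hR hβ hD hl hlA ?_ hld)
      unfold rf
      rw [dif_pos hex]
      exact hex.choose_spec
    · rw [if_neg hlA]
      refine h.per l _ _ ?_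
      have e1 := inv_root (β := β) hl hlA (A * n + β)
      have e2 := Nat.ModEq.add_right_cancel' β e1
      exact Nat.ModEq.cancel_left_of_coprime ((Nat.Prime.coprime_iff_not_dvd hl).2 hlA) e2

/-- the values -/
theorem HTf_iff (hF : Fd (t : ℤ) (c : ℤ) f χ)
    (hR : ∀ l : ℕ, l.Prime → l ∣ f → ∀ n : ℤ, ¬ ((l ^ 2 : ℕ) : ℤ) ∣ n ^ 2 + (t : ℤ) * n + (c : ℤ))
    (hA : 1 ≤ A) (h : RVf A B C e τ) (hβ : B = 2 * β + t)
    (hD : B ^ 2 + 4 * c = t ^ 2 + 4 * A * C) (k : ℕ) {d d' n : ℕ}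
    (hdd : d * d' = A * n ^ 2 + B * n + C) (i j : ℕ) (g : G) :
    HT c k (vF A B C β e τ) (A * d, d') =
      ((((A.primeFactorsList.length : ℕ) : ZMod k) + (i : ZMod k), (j : ZMod k)),
        kA A B C β e τ + g) ↔
      d.primeFactorsList.length ≡ i [MOD k] ∧ d'.primeFactorsList.length ≡ j [MOD k] ∧
      LS (fun l => e l n) (A * n ^ 2 + B * n + C) = g := by
  have ht := t_le hF
  have hc := c_pos hF
  have h1 : A * d * d' = (A * n + β) ^ 2 + t * (A * n + β) + c := by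
    rw [← idn hβ hD, ← hdd]
    ring
  have h0 : d * d' ≠ 0 := by
    intro h
    rw [mul_assoc, h, mul_zero] at h1
    omega
  have hd : d ≠ 0 := fun h => h0 (by rw [h, zero_mul])
  have hd' : d' ≠ 0 := fun h => h0 (by rw [h, mul_zero])
  have h2 : A * d * d' = A * (A * n ^ 2 + B * n + C) := by
    rw [← hdd]
    ring
  unfold HT
  rw [nn_eq (p := (A * d, d')) ht h1]
  dsimp only
  rw [h2, LS_vF hF hR hA h hβ hD n (by rw [← hdd]; exact h0), len_mul (by omega) hd]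
  constructor
  · intro h3
    have a1 := congrArg (fun x => x.1.1) h3
    have a2 := congrArg (fun x => x.1.2) h3
    have a3 := congrArg Prod.snd h3
    dsimp only at a1 a2 a3
    push_cast at a1
    rw [add_right_inj, ZMod.natCast_eq_natCast_iff] at a1
    rw [ZMod.natCast_eq_natCast_iff] at a2
    exact ⟨a1, a2, add_left_cancel a3⟩
  · rintro ⟨a1, a2, a3⟩
    rw [← ZMod.natCast_eq_natCast_iff] at a1 a2
    push_cast
    rw [a1, a2, a3]

omit [AddCommGroup G] in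
/-- sums of deviations -/
theorem wnV_sum {a b e : ℤ} {G' ι : Type} {H : ℕ × ℕ → G'} {H' : ℕ × ℕ → G} {g : G} {K K' q u : ℕ}
    (s : Finset ι) (x : ι → G')
    (hdv : ∀ p : ℕ × ℕ, dv H' g K' p = ∑ i ∈ s, dv H (x i) K p)
    (hw : ∀ i ∈ s, WnV a b e H (x i) K q u) : WnV a b e H' g K' q u := by
  intro r s₁ s₂ s₃ s₄ h1 h2 h3 h4 ε hε
  refine LogNull.of_ev 0 (fun X _ hX => ?_) (null_sum s
    (fun i X => |∑ p ∈ SV a b e q u r s₁ s₂ s₃ s₄ X, dv H (x i) K p|)
    (fun i hi ε' hε' => hw i hi r s₁ s₂ s₃ s₄ h1 h2 h3 h4 ε' hε') ε hε)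
  refine lt_of_lt_of_le hX ?_
  rw [sum_congr rfl fun p _ => hdv p, sum_comm]
  exact abs_sum_le_sum_abs _ _

/-- the projection to `Ω(d) + Ω(d')` and the value of the sum -/
def prT (k : ℕ) (x : (ZMod k × ZMod k) × G) : ZMod k × G := (x.1.1 + x.1.2, x.2)

open scoped Classical in
theorem dv_prT (k : ℕ) [NeZero k] [Finite G] (H : ℕ × ℕ → (ZMod k × ZMod k) × G)
    (y : ZMod k × G) (p : ℕ × ℕ) :
    dv (fun p => prT k (H p)) y (k * Nat.card G) p =
      ∑ a : ZMod k, dv H ((a, y.1 - a), y.2) (k ^ 2 * Nat.card G) p := by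
  unfold dv
  rw [sum_sub_distrib, sum_const, card_univ, ZMod.card, nsmul_eq_mul]
  have h0 : (k : ℝ) ≠ 0 := by exact_mod_cast NeZero.ne k
  have h1 : (Nat.card G : ℝ) ≠ 0 := by exact_mod_cast (Nat.card_pos (α := G)).ne'
  congr 1
  · by_cases h : prT k (H p) = y
    · rw [if_pos h, sum_eq_single (H p).1.1]
      · rw [if_pos]
        rw [← h]
        unfold prT
        refine Prod.ext (Prod.ext rfl ?_) rfl
        dsimp only
        ring
      · intro a _ ha
        rw [if_neg]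
        intro h2
        exact ha (by rw [h2])
      · intro h2
        exact absurd (mem_univ _) h2
    · rw [if_neg h]
      symm
      refine sum_eq_zero fun a _ => ?_
      rw [if_neg]
      intro h2
      apply h
      rw [h2]
      unfold prT
      refine Prod.ext ?_ rfl
      dsimp only
      ring
  · push_cast
    field_simp

/-- equidistribution in the windows -/
theorem wnV_T [Finite G] (hF : Fd (t : ℤ) (c : ℤ) f χ)
    (hR : ∀ l : ℕ, l.Prime → l ∣ f → ∀ n : ℤ, ¬ ((l ^ 2 : ℕ) : ℤ) ∣ n ^ 2 + (t : ℤ) * n + (c : ℤ))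
    (hA : 1 ≤ A) (h : RVf A B C e τ) (hg : GenVf A B C e) (hβ : B = 2 * β + t)
    (hD : B ^ 2 + 4 * c = t ^ 2 + 4 * A * C) (k : ℕ) [NeZero k] (x : (ZMod k × ZMod k) × G)
    {q : ℕ} (hq : 1 ≤ q) (u : ℕ) :
    WnV (A : ℤ) (B : ℤ) (C : ℤ) (fun p => HT c k (vF A B C β e τ) (A * p.1, p.2)) x
      (k ^ 2 * Nat.card G) q u := by
  have ha : (0 : ℤ) < (A : ℤ) := by exact_mod_cast hA
  have hdisc : (B : ℤ) ^ 2 - 4 * (A : ℤ) * (C : ℤ) = (t : ℤ) ^ 2 - 4 * (c : ℤ) := by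
    have h1 : ((B ^ 2 + 4 * c : ℕ) : ℤ) = ((t ^ 2 + 4 * A * C : ℕ) : ℤ) := by rw [hD]
    push_cast at h1
    linarith
  exact wnV_of (H := HT c k (vF A B C β e τ)) hF ha hdisc rfl (β := (β : ℤ))
    (by rw [hβ]; push_cast; rfl) hq u (fun n₀ _ =>
      wn_V hF hR (vF_RV h hβ hD) (vF_Gen hA hβ hD hg) k x (Nat.mul_pos hA hq) n₀)

theorem wnV_T2 [Finite G] (hF : Fd (t : ℤ) (c : ℤ) f χ)
    (hR : ∀ l : ℕ, l.Prime → l ∣ f → ∀ n : ℤ, ¬ ((l ^ 2 : ℕ) : ℤ) ∣ n ^ 2 + (t : ℤ) * n + (c : ℤ))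
    (hA : 1 ≤ A) (h : RVf A B C e τ) (hg : GenVf A B C e) (hβ : B = 2 * β + t)
    (hD : B ^ 2 + 4 * c = t ^ 2 + 4 * A * C) (k : ℕ) [NeZero k] (y : ZMod k × G)
    {q : ℕ} (hq : 1 ≤ q) (u : ℕ) :
    WnV (A : ℤ) (B : ℤ) (C : ℤ) (fun p => prT k (HT c k (vF A B C β e τ) (A * p.1, p.2))) y
      (k * Nat.card G) q u := by
  classical
  exact wnV_sum (univ : Finset (ZMod k)) (fun a => ((a, y.1 - a), y.2))
    (fun p => dv_prT k (fun p => HT c k (vF A B C β e τ) (A * p.1, p.2)) y p)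
    (fun a _ => wnV_T hF hR hA h hg hβ hD k _ hq u)

/-- the values -/
theorem prT_iff (hF : Fd (t : ℤ) (c : ℤ) f χ)
    (hR : ∀ l : ℕ, l.Prime → l ∣ f → ∀ n : ℤ, ¬ ((l ^ 2 : ℕ) : ℤ) ∣ n ^ 2 + (t : ℤ) * n + (c : ℤ))
    (hA : 1 ≤ A) (h : RVf A B C e τ) (hβ : B = 2 * β + t)
    (hD : B ^ 2 + 4 * c = t ^ 2 + 4 * A * C) (k : ℕ) {d d' n : ℕ}
    (hdd : d * d' = A * n ^ 2 + B * n + C) (j : ℕ) (g : G) :
    prT k (HT c k (vF A B C β e τ) (A * d, d')) =
      (((A.primeFactorsList.length : ℕ) : ZMod k) + (j : ZMod k), kA A B C β e τ + g) ↔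
      (A * n ^ 2 + B * n + C).primeFactorsList.length ≡ j [MOD k] ∧
      LS (fun l => e l n) (A * n ^ 2 + B * n + C) = g := by
  have ht := t_le hF
  have hc := c_pos hF
  have h1 : A * d * d' = (A * n + β) ^ 2 + t * (A * n + β) + c := by
    rw [← idn hβ hD, ← hdd]
    ring
  have h0 : d * d' ≠ 0 := by
    intro h
    rw [mul_assoc, h, mul_zero] at h1
    omega
  have hd : d ≠ 0 := fun h => h0 (by rw [h, zero_mul])
  have hd' : d' ≠ 0 := fun h => h0 (by rw [h, mul_zero])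
  have h2 : A * d * d' = A * (A * n ^ 2 + B * n + C) := by
    rw [← hdd]
    ring
  have h5 := len_mul hd hd'
  rw [hdd] at h5
  unfold prT HT
  rw [nn_eq (p := (A * d, d')) ht h1]
  dsimp only
  rw [h2, LS_vF hF hR hA h hβ hD n (by rw [← hdd]; exact h0), len_mul (by omega) hd]
  push_cast
  rw [add_assoc, ← Nat.cast_add (d.primeFactorsList.length), ← h5]
  constructor
  · intro h3
    have a1 := congrArg Prod.fst h3
    have a3 := congrArg Prod.snd h3
    dsimp only at a1 a3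
    rw [add_right_inj, ZMod.natCast_eq_natCast_iff] at a1
    exact ⟨a1, add_left_cancel a3⟩
  · rintro ⟨a1, a3⟩
    rw [← ZMod.natCast_eq_natCast_iff] at a1
    rw [a1, a3]

end

end Pool.Agent.V11296.EA
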