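import Pool.Agent.V11296.EA5

/-!
Functions of the prime elements above the prime factors of `A n^2 + B n + C` which divide `A n + β + ω`
(helper296), for the quadratic polynomials of class number one discriminants.
-/

set_option autoImplicit false

namespace Pool.Agent.V11296.EA

open Finset Filter Topology
open Pool.Agent.W78.GA
open Pool.Agent.W78.EG
open Pool.Agent.W251.EG
open Pool.Agent.TH890.DV (LogNull LogNull.of_ev)
open Pool.Agent.V11296.CW (Dt)
open Pool.Agent.V11296.CY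
open Pool.Agent.V11296.CZ (LS LS_mul LS_one LS_prime vl vc HC Rc Adc)
open Pool.Agent.V11296.DA

theorem Ab_congr {t c n n' l : ℕ} (h : n ≡ n' [MOD l]) : CZ.Ab t c n l = CZ.Ab t c n' l := by
  funext z
  unfold CZ.Ab
  refine propext (and_congr_right fun _ => ?_)
  have h1 : (l : ℤ) ∣ (n' : ℤ) - n := Int.modEq_iff_dvd.1 (Int.natCast_modEq_iff.2 h)
  constructor
  · intro h2
    have : z.1 - n' * z.2 = (z.1 - n * z.2) - ((n' : ℤ) - n) * z.2 := by ring
    rw [this]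
    exact dvd_sub h2 (h1.mul_right _)
  · intro h2
    have : z.1 - n * z.2 = (z.1 - n' * z.2) + ((n' : ℤ) - n) * z.2 := by ring
    rw [this]
    exact dvd_add h2 (h1.mul_right _)

section

variable {G : Type} [AddCommGroup G]

open scoped Classical in
/-- the value for a predicate -/
noncomputable def vP (P : ℤ × ℤ → Prop) (F : ℤ → ℤ → G) : G :=
  if h : ∃ z : ℤ × ℤ, P z then F h.choose.1 h.choose.2 else 0

theorem vl_congr {t c n n' l : ℕ} (F : ℤ → ℤ → G) (h : n ≡ n' [MOD l]) :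
    vl t c F n l = vl t c F n' l := by
  have e1 : ∀ m, vl t c F m l = vP (CZ.Ab t c m l) F := fun m => rfl
  rw [e1, e1, Ab_congr h]

theorem vc_congr {t c n n' l : ℕ} (F : ℤ → ℤ → G) (h : n ≡ n' [MOD l]) :
    vc t c F n l = vc t c F n' l := by
  have e1 : ∀ m, vc t c F m l = vP (CZ.Ab t c m l) (fun x y => F (x + t * y) (-y)) := fun m => rfl
  rw [e1, e1, Ab_congr h]

/-- the contribution of the leading coefficient -/
noncomputable def kap (t c A β : ℕ) (F : ℤ → ℤ → G) (τ : G) : G :=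
  LS (fun l => τ - vc t c F β l) A

variable {t c : ℕ} {f : ℕ} {χ : DirichletCharacter ℂ f} {A B C β : ℕ} {τ : G}

/-- the values -/
theorem HC_f (hF : Fd (t : ℤ) (c : ℤ) f χ) (hA : 1 ≤ A) (hβ : B = 2 * β + t)
    (hD : B ^ 2 + 4 * c = t ^ 2 + 4 * A * C) (F : ℤ → ℤ → G) {d d' n : ℕ}
    (hdd : d * d' = A * n ^ 2 + B * n + C) :
    HC t c F τ (A * d, d') = kap t c A β F τ +
      (LS (fun l => τ - vc t c F (A * n + β) l) d + LS (vl t c F (A * n + β)) d') := by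
  have ht := t_le hF
  have hc := c_pos hF
  have h1 : A * d * d' = (A * n + β) ^ 2 + t * (A * n + β) + c := by
    rw [← idn hβ hD, ← hdd]
    ring
  have h0 : d * d' ≠ 0 := by
    intro h
    rw [mul_assoc, h, mul_zero] at h1
    omega
  have hd : d ≠ 0 := fun h => h0 (by rw [h, zero_mul])
  unfold HC
  rw [nn_eq (p := (A * d, d')) ht h1]
  dsimp only
  rw [LS_mul _ (by omega) hd]
  have e1 : LS (fun l => τ - vc t c F (A * n + β) l) A = kap t c A β F τ := by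
    unfold kap
    refine LS_congr fun l _ hl => ?_
    have hx : A * n + β ≡ β [MOD l] := by
      have h2 : A * n ≡ 0 [MOD l] := (Nat.modEq_zero_iff_dvd.2 (hl.mul_right n))
      simpa using h2.add_right β
    rw [vc_congr F hx]
  rw [e1]
  abel

end

section

variable {A₁ A₂ : Type} [AddCommGroup A₁] [AddCommGroup A₂] {t c : ℕ} {f : ℕ}
  {χ : DirichletCharacter ℂ f} {m : ℕ} {E : ℤ → ℤ → A₁} {g : ℤ → ℤ → A₂} {τ₁ : A₁} {τ₂ : A₂}
  {A B C β : ℕ}

/-- equidistribution in the windows -/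
theorem wnV_U [Finite A₁] [Finite A₂] (hF : Fd (t : ℤ) (c : ℤ) f χ) (h : Rc t c m E)
    (hg : Ru t c g) (hgen : Gen t c g) (htop : Dt t c m E τ₁ = ⊤)
    (hA : 1 ≤ A) (hβ : B = 2 * β + t)
    (hD : B ^ 2 + 4 * c = t ^ 2 + 4 * A * C) (x : A₁ × A₂) {q : ℕ} (hq : 1 ≤ q) (u : ℕ) :
    WnV (A : ℤ) (B : ℤ) (C : ℤ) (fun p => HC t c (cmb E g) (τ₁, τ₂) (A * p.1, p.2)) x
      (Nat.card A₁ * Nat.card A₂) q u := by
  have ha : (0 : ℤ) < (A : ℤ) := by exact_mod_cast hA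
  have hdisc : (B : ℤ) ^ 2 - 4 * (A : ℤ) * (C : ℤ) = (t : ℤ) ^ 2 - 4 * (c : ℤ) := by
    have h1 : ((B ^ 2 + 4 * c : ℕ) : ℤ) = ((t ^ 2 + 4 * A * C : ℕ) : ℤ) := by rw [hD]
    push_cast at h1
    linarith
  refine wnV_of (H := HC t c (cmb E g) (τ₁, τ₂)) hF ha hdisc rfl (β := (β : ℤ))
    (by rw [hβ]; push_cast; rfl) hq u (fun n₀ _ => ?_)
  intro r s₁ s₂ s₃ s₄ h1 h2 h3 h4 h5 h6 ε hε
  have h7 := outU (τ₁ := τ₁) (τ₂ := τ₂) hF h hg hgen (g₁ := x.1) x.2
    (q := A * q) (a := n₀) (r := r) (Nat.mul_pos hA hq) (Or.inl htop) s₁ s₂ s₃ s₄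
    h1 h2 h3 h4 h5 h6 ε hε
  rw [htop, AddSubgroup.card_top] at h7
  exact h7

open scoped Classical in
/-- from sums over pairs to numbers of pairs -/
theorem card_dv {a b e : ℤ} {G : Type} {H : ℕ × ℕ → G} {g : G} {K q u r : ℕ}
    (s₁ s₂ s₃ s₄ : ℝ) (X : ℕ) :
    ∑ p ∈ SV a b e q u r s₁ s₂ s₃ s₄ X, dv H g K p =
      (((SV a b e q u r s₁ s₂ s₃ s₄ X).filter (fun p => H p = g)).card : ℝ) -
        1 / (K : ℝ) * ((SV a b e q u r s₁ s₂ s₃ s₄ X).card : ℝ) := by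
  unfold dv
  rw [sum_sub_distrib, sum_boole, sum_const, nsmul_eq_mul]
  ring

end

end Pool.Agent.V11296.EA
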