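import Pool.Agent.V11296.EA5
import Pool.Agent.V11296.CX6

/-!
Functions of the factorisations of the squarefree values of `n^2 + t n + c` (helper296): from all
values to the squarefree values, and logarithmic weights for `n^2 + n + c`.
-/

set_option autoImplicit false

namespace Pool.Agent.V11296.EB

open Finset Filter Topology
open Pool.Agent.W78.GA
open Pool.Agent.W78.EG
open Pool.Agent.W251.EG
open Pool.Agent.W251.EX (Sqp tt)
open Pool.Agent.W293.EG (PP mem_PP wt wt_nonneg compare scale_sum abel mem_SV ev_log)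
open Pool.Agent.TH890.DV (LogNull LogNull.of_ev)
open Pool.Agent.V11296.CX (null_sum mem_SW_PP lowN dsc)
open Pool.Agent.V11296.CY

variable {G : Type}

open scoped Classical in
/-- the deviation from equidistribution of one pair with squarefree product -/
noncomputable def dvS (H : ℕ × ℕ → G) (g : G) (K : ℕ) (p : ℕ × ℕ) : ℝ :=
  if Squarefree (p.1 * p.2) then dv H g K p else 0

theorem abs_dvS (H : ℕ × ℕ → G) (g : G) (K : ℕ) (p : ℕ × ℕ) : |dvS H g K p| ≤ 1 := by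
  unfold dvS
  split_ifs
  · exact abs_dv H g K p
  · rw [abs_zero]
    exact zero_le_one

section

variable {t c : ℕ} {f : ℕ} {χ : DirichletCharacter ℂ f}

/-- equidistribution in all the windows, for the squarefree values -/
def WnS (t c : ℕ) (H : ℕ × ℕ → G) (g : G) (K q u : ℕ) : Prop :=
  ∀ r : ℕ, ∀ s₁ s₂ s₃ s₄ : ℝ, 0 ≤ s₁ → s₁ < s₂ → s₂ ≤ 1 → 0 ≤ s₃ → s₃ < s₄ → s₄ ≤ 1 →
    ∀ ε : ℝ, 0 < ε → LogNull (fun X : ℕ => ε * X <
      |∑ p ∈ SW (t : ℤ) (c : ℤ) q u r s₁ s₂ s₃ s₄ X, dvS H g K p|)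

open scoped Classical in
/-- from all values to the squarefree values -/
theorem wnS_of (hF : Fd (t : ℤ) (c : ℤ) f χ) {H : ℕ × ℕ → G} {g : G} {K : ℕ}
    (hw : ∀ q u : ℕ, 1 ≤ q → Wn t c H g K q u) {q : ℕ} (hq : 1 ≤ q) (u : ℕ) :
    WnS t c H g K q u := by
  intro r s₁ s₂ s₃ s₄ h1 h2 h3 h4 h5 h6 ε hε
  obtain ⟨P, X₀, hT⟩ := tailc hF (Pool.Agent.W78.GA.sqb (hDG hF)) (corrG hF) (ε / 2) (by positivity)
  obtain ⟨M, hM⟩ : ∃ M : ℕ, M = P.factorial ^ 2 := ⟨_, rfl⟩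
  have hM1 : 1 ≤ M := by
    rw [hM]
    exact Nat.one_le_pow _ _ (Nat.factorial_pos P)
  obtain ⟨cls, hcls⟩ : ∃ cls : Finset (ℕ × ℕ), cls = ((range (q * M)) ×ˢ (range (q * M))).filter
        (fun x : ℕ × ℕ => x.1 ≡ u [MOD q] ∧ x.2 ≡ r [MOD q]) := ⟨_, rfl⟩
  obtain ⟨s, hs⟩ : ∃ s : ℕ → ℝ, s = fun x => if ∀ l : ℕ, l ≤ P → l.Prime →
    ¬ l ^ 2 ∣ x ^ 2 + t * x + c then 1 else 0 := ⟨_, rfl⟩
  have hsabs : ∀ x, |s x| ≤ 1 := by
    intro x
    rw [hs]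
    beta_reduce
    split_ifs <;> simp
  refine LogNull.of_ev X₀ (fun X hX0 hX => ?_) (null_sum cls
    (fun x X => |∑ p ∈ SW (t : ℤ) (c : ℤ) (q * M) x.1 x.2 s₁ s₂ s₃ s₄ X, dv H g K p|)
    (fun x _ ε' hε' => hw (q * M) x.1 (Nat.mul_pos hq hM1) x.2
      s₁ s₂ s₃ s₄ h1 h2 h3 h4 h5 h6 ε' hε') (ε / 2) (by positivity))
  have hT' := hT X hX0
  -- the part without squares of small primes
  have e1 : ∑ p ∈ SW (t : ℤ) (c : ℤ) q u r s₁ s₂ s₃ s₄ X, dvS H g K p =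
      ∑ p ∈ SW (t : ℤ) (c : ℤ) q u r s₁ s₂ s₃ s₄ X, (if Sqp P p then dv H g K p else 0) -
      ∑ p ∈ (SW (t : ℤ) (c : ℤ) q u r s₁ s₂ s₃ s₄ X).filter
        (fun p => Sqp P p ∧ ¬ Squarefree (p.1 * p.2)), dv H g K p := by
    rw [sum_filter, ← sum_sub_distrib]
    refine sum_congr rfl fun p _ => ?_
    unfold dvS
    by_cases h7 : Squarefree (p.1 * p.2)
    · rw [if_pos h7, if_pos (sqf_sqp h7), if_neg (fun h => h.2 h7), sub_zero]
    · rw [if_neg h7]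
      by_cases h8 : Sqp P p
      · rw [if_pos h8, if_pos ⟨h8, h7⟩, sub_self]
      · rw [if_neg h8, if_neg (fun h => h8 h.1), sub_zero]
  have e2 : |∑ p ∈ (SW (t : ℤ) (c : ℤ) q u r s₁ s₂ s₃ s₄ X).filter
        (fun p => Sqp P p ∧ ¬ Squarefree (p.1 * p.2)), dv H g K p| ≤ ε / 2 * X := by
    refine (abs_sum_le_sum_abs _ _).trans ?_
    refine (sum_le_card_nsmul _ _ 1 fun p _ => abs_dv H g K p).trans ?_
    rw [nsmul_eq_mul, mul_one]
    refine le_trans ?_ hT'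
    refine Nat.cast_le.2 (card_le_card fun p hp => ?_)
    rw [mem_filter] at hp ⊢
    refine ⟨?_, hp.2⟩
    have := hp.1
    unfold SW at this
    exact (mem_filter.1 this).1
  have e3 : ∑ p ∈ SW (t : ℤ) (c : ℤ) q u r s₁ s₂ s₃ s₄ X, (if Sqp P p then dv H g K p else 0) =
      ∑ x ∈ cls, s x.1 * ∑ p ∈ SW (t : ℤ) (c : ℤ) (q * M) x.1 x.2 s₁ s₂ s₃ s₄ X,
        dv H g K p := by
    have e4 := split hF q M u r hq hM1 s₁ s₂ s₃ s₄ X
      (fun p => (((if Sqp P p then dv H g K p else 0) : ℝ) : ℂ))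
    have e5 : ∑ p ∈ SW (t : ℤ) (c : ℤ) q u r s₁ s₂ s₃ s₄ X,
        (if Sqp P p then dv H g K p else 0) =
        ∑ x ∈ cls, ∑ p ∈ SW (t : ℤ) (c : ℤ) (q * M) x.1 x.2 s₁ s₂ s₃ s₄ X,
          (if Sqp P p then dv H g K p else 0) := by
      have e6 : ((∑ p ∈ SW (t : ℤ) (c : ℤ) q u r s₁ s₂ s₃ s₄ X,
        (if Sqp P p then dv H g K p else 0) : ℝ) : ℂ) =
        ((∑ x ∈ cls, ∑ p ∈ SW (t : ℤ) (c : ℤ) (q * M) x.1 x.2 s₁ s₂ s₃ s₄ X,
          (if Sqp P p then dv H g K p else 0) : ℝ) : ℂ) := by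
        rw [hcls, Complex.ofReal_sum, Complex.ofReal_sum]
        refine e4.trans (sum_congr rfl fun x _ => ?_)
        rw [Complex.ofReal_sum]
      exact_mod_cast e6
    rw [e5]
    refine sum_congr rfl fun x _ => ?_
    rw [mul_sum]
    refine sum_congr rfl fun p hp => ?_
    obtain ⟨⟨⟨h7, _⟩, h8, _⟩, ⟨n, h9, h10, h11, h12⟩, _⟩ := mem_SWn.1 hp
    have h13 : Sqp P p ↔ ∀ l : ℕ, l ≤ P → l.Prime → ¬ l ^ 2 ∣ x.1 ^ 2 + t * x.1 + c := by
      unfold Sqp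
      refine forall_congr' fun l => imp_congr_right fun hl => imp_congr_right fun hlp => ?_
      rw [h10]
      have h14 : l ^ 2 ∣ q * M := by
        rw [hM]
        exact Dvd.dvd.mul_left (pow_dvd_pow_of_dvd (Nat.dvd_factorial hlp.pos hl) 2) _
      have h15 : n ≡ x.1 [MOD l ^ 2] := h11.of_dvd h14
      have h16 : n ^ 2 + t * n + c ≡ x.1 ^ 2 + t * x.1 + c [MOD l ^ 2] :=
        ((h15.pow 2).add (h15.mul_left t)).add_right c
      rw [h16.dvd_iff (dvd_refl _)]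
    rw [hs]
    beta_reduce
    by_cases h14 : Sqp P p
    · rw [if_pos h14, if_pos (h13.1 h14), one_mul]
    · rw [if_neg h14, if_neg (fun h => h14 (h13.2 h)), zero_mul]
  have e4 : |∑ p ∈ SW (t : ℤ) (c : ℤ) q u r s₁ s₂ s₃ s₄ X,
      (if Sqp P p then dv H g K p else 0)| ≤
      ∑ x ∈ cls, |∑ p ∈ SW (t : ℤ) (c : ℤ) (q * M) x.1 x.2 s₁ s₂ s₃ s₄ X, dv H g K p| := by
    rw [e3]
    refine (abs_sum_le_sum_abs _ _).trans (sum_le_sum fun x _ => ?_)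
    rw [abs_mul]
    calc |s x.1| * |∑ p ∈ SW (t : ℤ) (c : ℤ) (q * M) x.1 x.2 s₁ s₂ s₃ s₄ X, dv H g K p|
        ≤ 1 * |∑ p ∈ SW (t : ℤ) (c : ℤ) (q * M) x.1 x.2 s₁ s₂ s₃ s₄ X, dv H g K p| :=
          mul_le_mul_of_nonneg_right (hsabs _) (abs_nonneg _)
      _ = _ := one_mul _
  rw [e1] at hX
  have h7 := abs_sub (∑ p ∈ SW (t : ℤ) (c : ℤ) q u r s₁ s₂ s₃ s₄ X,
      (if Sqp P p then dv H g K p else 0)) (∑ p ∈ (SW (t : ℤ) (c : ℤ) q u r s₁ s₂ s₃ s₄ X).filter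
        (fun p => Sqp P p ∧ ¬ Squarefree (p.1 * p.2)), dv H g K p)
  show ε / 2 * X < _
  linarith

end

/-! ### logarithmic weights for `n^2 + n + c` -/

section

variable {c : ℕ} {f : ℕ} {χ : DirichletCharacter ℂ f}

open scoped Classical in
theorem smallgS {H : ℕ × ℕ → G} {g : G} {K q u : ℕ} (hq : 1 ≤ q)
    (hw : WnS 1 c H g K q u) {C5 : ℝ} (hC5 : 0 ≤ C5)
    (hcard : ∀ N : ℕ, 1 ≤ N → ((PP (1 : ℤ) (1 : ℤ) (c : ℤ) q u N).card : ℝ) ≤ C5 * N) (ε : ℝ)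
    (hε : 0 < ε) :
    ∀ᶠ N : ℕ in atTop, |∑ p ∈ PP (1 : ℤ) (1 : ℤ) (c : ℤ) q u N,
      dvS H g K p * Pool.Agent.W293.EG.wt p| ≤ ε * Real.log N := by
  have h := scale_sum (fun X => ∑ p ∈ PP (1 : ℤ) (1 : ℤ) (c : ℤ) q u X, dvS H g K p)
    (range q ×ˢ range 1)
    (fun y X => |∑ p ∈ SW ((1 : ℕ) : ℤ) (c : ℤ) q u y.1 0 1 0 1 X, dvS H g K p|) hC5 ?_ ?_ ?_ ε hε
  · filter_upwards [h] with N hN
    rw [abel]
    exact hN
  · intro X hX
    refine ((abs_sum_le_sum_abs _ _).trans ?_).trans (hcard X hX)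
    refine (sum_le_card_nsmul _ _ 1 fun p _ => abs_dvS H g K p).trans ?_
    rw [nsmul_eq_mul, mul_one]
  · intro X
    rw [sum_product]
    simp only [range_one, sum_singleton]
    rw [← sum_fiberwise_of_maps_to (s := PP (1 : ℤ) (1 : ℤ) (c : ℤ) q u X) (t := range q)
      (g := fun p : ℕ × ℕ => p.1 % q) (fun p _ => mem_range.2 (Nat.mod_lt _ (by omega)))]
    refine (abs_sum_le_sum_abs _ _).trans (sum_le_sum fun r hr => le_of_eq ?_)
    congr 1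
    refine sum_congr ?_ fun _ _ => rfl
    have hr' : r % q = r := Nat.mod_eq_of_lt (mem_range.1 hr)
    ext p
    rw [mem_filter, mem_SW_PP]
    refine and_congr_right fun _ => ?_
    constructor
    · intro h1
      show p.1 % q = r % q
      rw [h1, hr']
    · intro h1
      have h2 : p.1 % q = r % q := h1
      rw [h2, hr']
  · intro ε' hε' y _
    exact hw y.1 0 1 0 1 le_rfl one_pos le_rfl le_rfl one_pos le_rfl ε' hε'

open scoped Classical in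
/-- the mean over the squarefree values with logarithmic weights -/
theorem tendgS (hF : Fd ((1 : ℕ) : ℤ) (c : ℤ) f χ) (hS : S_SPSc ((1 : ℕ) : ℤ) (c : ℤ))
    {H : ℕ × ℕ → G} {g : G} {K q u : ℕ} (hq : 1 ≤ q)
    (hqu : ∀ l : ℕ, l.Prime → l ^ 2 ∣ q → ¬ l ^ 2 ∣ u ^ 2 + u + c)
    (hw : WnS 1 c H g K q u) :
    Tendsto (fun N : ℕ => (∑ n ∈ (Icc 1 N).filter (fun n => n ≡ u [MOD q] ∧
        Squarefree (qv 1 1 c n)),
      ∑ d ∈ (qv 1 1 c n).divisors.filter (fun d => H (d, qv 1 1 c n / d) = g),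
        1 / ((max d (qv 1 1 c n / d) : ℕ) : ℝ)) /
      ∑ n ∈ (Icc 1 N).filter (fun n => n ≡ u [MOD q] ∧ Squarefree (qv 1 1 c n)), wq 1 1 c n) atTop
      (nhds (1 / (K : ℝ))) := by
  have hd : 0 < 4 * (1 : ℤ) * (c : ℤ) - 1 ^ 2 := by
    have h1 := c_pos hF
    have h2 : (1 : ℤ) ≤ c := by exact_mod_cast h1
    linarith
  obtain ⟨C5, hC5, hcard, hcmp⟩ := compare hF.tt (scntG hF) (a := 1) (b := 1) (e := (c : ℤ))
    one_pos (dsc c) hd q u
  obtain ⟨c₂, hc₂, N₀, hlow⟩ := lowN hF hS q hq u hqu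
  have hsq : ∀ n d : ℕ, d ∈ (qv 1 1 c n).divisors → d * (qv 1 1 c n / d) = qv 1 1 c n :=
    fun n d hd1 => Nat.mul_div_cancel' (Nat.mem_divisors.1 hd1).1
  rw [Metric.tendsto_atTop]
  intro δ hδ
  have h1 := smallgS hq hw hC5 hcard (c₂ * δ / 4) (by positivity)
  obtain ⟨N₁, hN₁⟩ := eventually_atTop.1 (h1.and (ev_log (c₂ * δ / 4) C5 (by positivity)))
  refine ⟨max (max N₀ N₁) 2, fun N hN => ?_⟩
  have hN0 : N₀ ≤ N := ((le_max_left _ _).trans (le_max_left _ _)).trans hN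
  have hN1 : N₁ ≤ N := ((le_max_right _ _).trans (le_max_left _ _)).trans hN
  have hN2 : 2 ≤ N := (le_max_right _ _).trans hN
  obtain ⟨h2, h3⟩ := hN₁ N hN1
  have hlog : 0 < Real.log N := Real.log_pos (by exact_mod_cast hN2)
  have h4 := hlow N hN0
  obtain ⟨S, hSd⟩ : ∃ S : ℝ, S = ∑ n ∈ (Icc 1 N).filter (fun n => n ≡ u [MOD q] ∧
        Squarefree (qv 1 1 c n)),
      ∑ d ∈ (qv 1 1 c n).divisors.filter (fun d => H (d, qv 1 1 c n / d) = g),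
        1 / ((max d (qv 1 1 c n / d) : ℕ) : ℝ) := ⟨_, rfl⟩
  obtain ⟨T, hT⟩ : ∃ T : ℝ, T = ∑ n ∈ (Icc 1 N).filter (fun n => n ≡ u [MOD q] ∧
    Squarefree (qv 1 1 c n)), wq 1 1 c n := ⟨_, rfl⟩
  rw [← hSd, ← hT]
  rw [← hT] at h4
  have hT0 : 0 < T := lt_of_lt_of_le (by positivity) h4
  have h5 := hcmp (dvS H g K) (abs_dvS H g K) N (by omega)
  have h6 : ∑ n ∈ (Icc 1 N).filter (fun n => n ≡ u [MOD q]), ∑ d ∈ Nat.divisors (qv 1 1 c n),
      dvS H g K (d, qv 1 1 c n / d) * Pool.Agent.W293.EG.wt (d, qv 1 1 c n / d) =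
      S - 1 / (K : ℝ) * T := by
    rw [hSd, hT, mul_sum, ← sum_sub_distrib]
    conv_rhs => rw [← filter_filter, sum_filter]
    refine sum_congr rfl fun n _ => ?_
    by_cases hs : Squarefree (qv 1 1 c n)
    · rw [if_pos hs]
      unfold wq
      rw [mul_sum, sum_filter, ← sum_sub_distrib]
      refine sum_congr rfl fun d hd1 => ?_
      unfold dvS
      rw [if_pos (by rw [hsq n d hd1]; exact hs)]
      unfold dv Pool.Agent.W293.EG.wt
      split_ifs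
      · ring
      · ring
    · rw [if_neg hs]
      refine sum_eq_zero fun d hd1 => ?_
      unfold dvS
      rw [if_neg (by rw [hsq n d hd1]; exact hs), zero_mul]
  rw [h6] at h5
  have h7 : |S - 1 / (K : ℝ) * T| ≤ c₂ * δ / 2 * Real.log N := by
    have h8 := abs_le.1 h5
    have h9 := abs_le.1 h2
    rw [abs_le]
    constructor <;> linarith [h8.1, h8.2, h9.1, h9.2]
  rw [Real.dist_eq]
  have h8 : S / T - 1 / (K : ℝ) = (S - 1 / (K : ℝ) * T) / T := by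
    field_simp
  rw [h8, abs_div, abs_of_pos hT0, div_lt_iff₀ hT0]
  have h9 : c₂ * δ / 2 * Real.log N < δ * T := by
    have h10 : δ * (c₂ * Real.log N) ≤ δ * T := mul_le_mul_of_nonneg_left h4 hδ.le
    have h11 : 0 < c₂ * δ * Real.log N := by positivity
    linarith
  linarith

end

/-! ### sums of deviations -/

theorem wn_sum {t c : ℕ} {G' ι : Type} {H : ℕ × ℕ → G'} {H' : ℕ × ℕ → G} {g : G} {K K' q u : ℕ}
    (s : Finset ι) (x : ι → G')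
    (hdv : ∀ p : ℕ × ℕ, dv H' g K' p = ∑ i ∈ s, dv H (x i) K p)
    (hw : ∀ i ∈ s, Wn t c H (x i) K q u) : Wn t c H' g K' q u := by
  intro r s₁ s₂ s₃ s₄ h1 h2 h3 h4 h5 h6 ε hε
  refine LogNull.of_ev 0 (fun X _ hX => ?_) (null_sum s
    (fun i X => |∑ p ∈ SW (t : ℤ) (c : ℤ) q u r s₁ s₂ s₃ s₄ X, dv H (x i) K p|)
    (fun i hi ε' hε' => hw i hi r s₁ s₂ s₃ s₄ h1 h2 h3 h4 h5 h6 ε' hε') ε hε)
  refine lt_of_lt_of_le hX ?_
  rw [sum_congr rfl fun p _ => hdv p, sum_comm]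
  exact abs_sum_le_sum_abs _ _

end Pool.Agent.V11296.EB
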