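import Pool.Agent.V11296.EB1
import Pool.Agent.V11296.CY9

/-!
Functions of the factorisations of the squarefree values of `n^2 + t n + c` (helper296): from the
windows to the number of the `n`.
-/

set_option autoImplicit false

namespace Pool.Agent.V11296.EB

open Finset Filter Topology
open Pool.Agent.W78.GA
open Pool.Agent.W78.EG
open Pool.Agent.W251.EG
open Pool.Agent.W293.EG (PP mem_PP wt wt_nonneg compare scale_sum abel mem_SV ev_log)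
open Pool.Agent.TH890.DV (LogNull LogNull.of_ev)
open Pool.Agent.V11296.CX (null_sum f_inj)
open Pool.Agent.V11296.CY

variable {G : Type}

section

variable {t c : ℕ} {f : ℕ} {χ : DirichletCharacter ℂ f}

open scoped Classical in
/-- the deviation over all the pairs -/
theorem nullPS (hF : Fd (t : ℤ) (c : ℤ) f χ) {H : ℕ × ℕ → G} {g : G} {K q u : ℕ} (hq : 1 ≤ q)
    (hw : WnS t c H g K q u) (ε : ℝ) (hε : 0 < ε) :
    LogNull (fun X : ℕ => ε * X < |∑ p ∈ PP (1 : ℤ) (t : ℤ) (c : ℤ) q u X, dvS H g K p|) := by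
  have ht := t_le hF
  have h0 := null_sum (range q)
    (fun r X => |∑ p ∈ SW (t : ℤ) (c : ℤ) q u r 0 1 0 1 X, dvS H g K p|)
    (fun r _ ε' hε' => hw r 0 1 0 1 le_rfl one_pos le_rfl le_rfl one_pos le_rfl ε' hε')
    (ε / 2) (by positivity)
  obtain ⟨C, hC⟩ : ∃ C : ℝ, C = (c.divisorsAntidiagonal.card : ℝ) := ⟨_, rfl⟩
  obtain ⟨X₀, hX₀⟩ := exists_nat_gt (2 * C / ε)
  refine LogNull.of_ev X₀ (fun X hX hlt => ?_) h0
  have h1 : C ≤ ε / 2 * X := by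
    have h2 : 2 * C / ε < X := hX₀.trans_le (by exact_mod_cast hX)
    rw [div_lt_iff₀ hε] at h2
    linarith
  have h3 : ∑ p ∈ PP (1 : ℤ) (t : ℤ) (c : ℤ) q u X, dvS H g K p =
      ∑ p ∈ (PP (1 : ℤ) (t : ℤ) (c : ℤ) q u X).filter (fun p => 1 ≤ nn c p + t), dvS H g K p +
      ∑ p ∈ (PP (1 : ℤ) (t : ℤ) (c : ℤ) q u X).filter (fun p => ¬ 1 ≤ nn c p + t), dvS H g K p :=
    (sum_filter_add_sum_filter_not _ _ _).symm
  have h4 : |∑ p ∈ (PP (1 : ℤ) (t : ℤ) (c : ℤ) q u X).filter (fun p => ¬ 1 ≤ nn c p + t),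
      dvS H g K p| ≤ C := by
    refine (abs_sum_le_sum_abs _ _).trans ?_
    refine (sum_le_card_nsmul _ _ 1 fun p _ => abs_dvS H g K p).trans ?_
    rw [nsmul_eq_mul, mul_one, hC]
    refine Nat.cast_le.2 (card_le_card fun p hp => ?_)
    rw [mem_filter, mem_PPn] at hp
    obtain ⟨⟨_, _, _, _, n, h6, _⟩, h7⟩ := hp
    rw [nn_eq ht h6] at h7
    have hn : n = 0 := by omega
    rw [Nat.mem_divisorsAntidiagonal]
    refine ⟨?_, ?_⟩
    · rw [h6, hn]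
      ring
    · have := c_pos hF
      omega
  have h5 : |∑ p ∈ (PP (1 : ℤ) (t : ℤ) (c : ℤ) q u X).filter (fun p => 1 ≤ nn c p + t),
      dvS H g K p| ≤ ∑ r ∈ range q,
        |∑ p ∈ SW (t : ℤ) (c : ℤ) q u r 0 1 0 1 X, dvS H g K p| := by
    rw [← sum_fiberwise_of_maps_to
      (s := (PP (1 : ℤ) (t : ℤ) (c : ℤ) q u X).filter (fun p => 1 ≤ nn c p + t)) (t := range q)
      (g := fun p : ℕ × ℕ => p.1 % q) (fun p _ => mem_range.2 (Nat.mod_lt _ (by omega)))]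
    refine (abs_sum_le_sum_abs _ _).trans (sum_le_sum fun r hr => le_of_eq ?_)
    congr 1
    refine sum_congr ?_ fun _ _ => rfl
    have hr' : r % q = r := Nat.mod_eq_of_lt (mem_range.1 hr)
    ext p
    rw [mem_filter, mem_filter, mem_SW_PPn ht]
    refine and_congr_right fun _ => ?_
    constructor
    · intro h1
      show p.1 % q = r % q
      rw [h1, hr']
    · intro h1
      have h2 : p.1 % q = r % q := h1
      rw [h2, hr']
  rw [h3] at hlt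
  have h6 := abs_add_le (∑ p ∈ (PP (1 : ℤ) (t : ℤ) (c : ℤ) q u X).filter
    (fun p => 1 ≤ nn c p + t), dvS H g K p)
    (∑ p ∈ (PP (1 : ℤ) (t : ℤ) (c : ℤ) q u X).filter (fun p => ¬ 1 ≤ nn c p + t), dvS H g K p)
  show ε / 2 * X < _
  linarith

open scoped Classical in
/-- lower bound for the number of the pairs with squarefree product -/
theorem lowPS (hS : S_SPSc (t : ℤ) (c : ℤ)) {q : ℕ}
    (hq : 1 ≤ q) (u : ℕ) (hqu : ∀ l : ℕ, l.Prime → l ^ 2 ∣ q → ¬ l ^ 2 ∣ u ^ 2 + t * u + c) :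
    ∃ c₁ : ℝ, 0 < c₁ ∧ ∃ X₀ : ℕ, ∀ X : ℕ, X₀ ≤ X → c₁ * X ≤
      (((PP (1 : ℤ) (t : ℤ) (c : ℤ) q u X).filter (fun p => Squarefree (p.1 * p.2))).card : ℝ) := by
  obtain ⟨c₁, hc₁, X₀, hX₀⟩ := hS q u hq (fun l hl hlq hd => hqu l hl hlq (by
    have h1 : ((l ^ 2 : ℕ) : ℤ) ∣ ((u ^ 2 + t * u + c : ℕ) : ℤ) := by
      push_cast
      push_cast at hd
      exact hd
    exact_mod_cast h1))
  refine ⟨c₁, hc₁, X₀, fun X hX => (hX₀ X hX).trans ?_⟩
  refine Nat.cast_le.2 (card_le_card fun p hp => ?_)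
  rw [mem_filter] at hp
  obtain ⟨hp1, hp2, n, hp3, hp4, hp5⟩ := hp
  unfold SP at hp1
  rw [mem_filter, mem_product, mem_Icc, mem_Icc] at hp1
  rw [mem_filter, mem_PP]
  refine ⟨⟨hp1.1.1.1, hp1.1.1.2, hp1.1.2.1, hp1.1.2.2, n, ?_, hp5⟩, hp2⟩
  unfold Pool.Agent.W293.EG.g
  rw [hp4]
  push_cast
  ring

open scoped Classical in
/-- the number of `n ≤ X` with squarefree value and with a factorisation of given type -/
noncomputable def cfS (t c q u : ℕ) (H : ℕ × ℕ → G) (g : G) (X : ℕ) : ℕ :=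
  ((range (X + 1)).filter (fun n : ℕ => (n ≡ u [MOD q] ∧ Squarefree (n ^ 2 + t * n + c)) ∧
    ∃ d e : ℕ, d ≤ X ∧ e ≤ X ∧ d * e = n ^ 2 + t * n + c ∧ H (d, e) = g)).card

theorem cfS_mono (t c q u : ℕ) (H : ℕ × ℕ → G) (g : G) : Monotone (cfS t c q u H g) := by
  classical
  intro X Y h
  unfold cfS
  refine card_le_card fun n hn => ?_
  rw [mem_filter, mem_range] at hn ⊢
  obtain ⟨h1, h2, d, e, h3, h4, h5⟩ := hn
  exact ⟨by omega, h2, d, e, h3.trans h, h4.trans h, h5⟩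

open scoped Classical in
/-- many `n` at almost all scales -/
theorem cntS (hF : Fd (t : ℤ) (c : ℤ) f χ) (hS : S_SPSc (t : ℤ) (c : ℤ)) {H : ℕ × ℕ → G} {g : G}
    {K q u : ℕ} (hq : 1 ≤ q)
    (hqu : ∀ l : ℕ, l.Prime → l ^ 2 ∣ q → ¬ l ^ 2 ∣ u ^ 2 + t * u + c)
    (hK : 1 ≤ K) (hw : WnS t c H g K q u) (ε : ℝ) (hε : 0 < ε) :
    LogNull (fun X : ℕ => (cfS t c q u H g X : ℝ) <
      (X : ℝ) / Real.log X ^ (Real.log 2 + ε)) := by
  have ht := t_le hF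
  have hc := c_pos hF
  have hns : ¬ IsSquare ((t : ℤ) ^ 2 - 4 * (c : ℤ)) := by
    rintro ⟨x, hx⟩
    have h1 : (t : ℤ) ≤ 1 := by exact_mod_cast ht
    have h2 : (1 : ℤ) ≤ c := by exact_mod_cast hc
    have h3 : (0 : ℤ) ≤ t := Nat.cast_nonneg t
    nlinarith [mul_self_nonneg x]
  have hk0 : (0 : ℝ) < K := by exact_mod_cast hK
  obtain ⟨c₁, hc₁, X₀, hlow⟩ := lowPS hS hq u hqu
  obtain ⟨N₁, hcore⟩ := Pool.Agent.TH890.DV.cnt_core (t := (t : ℤ)) (c := (c : ℤ)) hns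
    (F := fun n => n ^ 2 + t * n + c) (A := 1) (β := 0) le_rfl (Nat.cast_nonneg t)
    (fun n => by
      unfold Pool.Agent.W78.GT.Qp
      push_cast
      ring) (c₁ / (2 * K)) ε (by positivity) hε
  refine LogNull.of_ev (max X₀ N₁) (fun X hX hlt => ?_)
    (nullPS hF hq hw (c₁ / (2 * K)) (by positivity))
  by_contra hcon
  push Not at hcon
  have h1 := hlow X ((le_max_left _ _).trans hX)
  obtain ⟨S, hSd⟩ : ∃ S : Finset (ℕ × ℕ), S = ((PP (1 : ℤ) (t : ℤ) (c : ℤ) q u X).filter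
    (fun p => Squarefree (p.1 * p.2))).filter (fun p => H p = g) := ⟨_, rfl⟩
  have hS1 : c₁ / (2 * K) * X ≤ (S.card : ℝ) := by
    have h2 : ∑ p ∈ PP (1 : ℤ) (t : ℤ) (c : ℤ) q u X, dvS H g K p =
        (S.card : ℝ) - 1 / K * ((PP (1 : ℤ) (t : ℤ) (c : ℤ) q u X).filter
          (fun p => Squarefree (p.1 * p.2))).card := by
      unfold dvS dv
      rw [← sum_filter, sum_sub_distrib, sum_boole, hSd, sum_const, nsmul_eq_mul]
      ring
    rw [h2] at hcon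
    have h5 := (abs_le.1 hcon).1
    have h6 : 1 / (K : ℝ) * (c₁ * X) ≤
        1 / K * ((PP (1 : ℤ) (t : ℤ) (c : ℤ) q u X).filter
          (fun p => Squarefree (p.1 * p.2))).card :=
      mul_le_mul_of_nonneg_left h1 (by positivity)
    have h7 : 1 / (K : ℝ) * (c₁ * X) = c₁ / (2 * K) * X + c₁ / (2 * K) * X := by
      field_simp
      ring
    linarith
  have hSm : ∀ p ∈ S, 1 ≤ p.1 ∧ p.1 ≤ X ∧ 1 ≤ p.2 ∧ p.2 ≤ X ∧ (∃ n : ℕ,
      p.1 * p.2 = n ^ 2 + t * n + c ∧ n ≡ u [MOD q]) ∧ Squarefree (p.1 * p.2) ∧ H p = g := by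
    intro p hp
    rw [hSd, mem_filter, mem_filter, mem_PPn] at hp
    obtain ⟨⟨⟨h2, h3, h4, h5, h6⟩, h7⟩, h8⟩ := hp
    exact ⟨h2, h3, h4, h5, h6, h7, h8⟩
  have h3 := hcore X ((le_max_right _ _).trans hX) S
    (fun p hp => by
      obtain ⟨h4, h5, h6, h7, ⟨n, h8, _⟩, _⟩ := hSm p hp
      exact ⟨h4, h5, h6, h7, n, h8⟩) hS1
    ((range (X + 1)).filter (fun n : ℕ => (n ≡ u [MOD q] ∧ Squarefree (n ^ 2 + t * n + c)) ∧
      ∃ d e : ℕ, d ≤ X ∧ e ≤ X ∧ d * e = n ^ 2 + t * n + c ∧ H (d, e) = g)) (by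
    rintro n ⟨p, hp, hpn⟩
    obtain ⟨h4, h5, h6, h7, ⟨n', h8, h9⟩, h10, h11⟩ := hSm p hp
    have hpn' : p.1 * p.2 = n ^ 2 + t * n + c := hpn
    have hnn : n = n' := f_inj1 (by rw [← hpn', h8])
    subst hnn
    rw [mem_filter, mem_range]
    refine ⟨?_, ⟨h9, by rw [← h8]; exact h10⟩, p.1, p.2, h5, h7, h8, h11⟩
    by_contra hcon2
    push Not at hcon2
    have h15 : p.1 * p.2 ≤ X * X := Nat.mul_le_mul h5 h7
    have h17 : (X + 1) ^ 2 ≤ n ^ 2 := Nat.pow_le_pow_left hcon2 2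
    nlinarith [Nat.zero_le (t * n)])
  have h4 : (cfS t c q u H g X : ℝ) < (X : ℝ) / Real.log X ^ (Real.log 2 + ε) := hlt
  unfold cfS at h4
  exact absurd h3 (not_le.2 h4)

/-- all large scales -/
theorem cntSAll (hF : Fd (t : ℤ) (c : ℤ) f χ) (hS : S_SPSc (t : ℤ) (c : ℤ)) {H : ℕ × ℕ → G} {g : G}
    {K q u : ℕ} (hq : 1 ≤ q)
    (hqu : ∀ l : ℕ, l.Prime → l ^ 2 ∣ q → ¬ l ^ 2 ∣ u ^ 2 + t * u + c)
    (hK : 1 ≤ K) (hw : WnS t c H g K q u) (δ : ℝ) (hδ : 0 < δ) :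
    ∃ N₀ : ℕ, ∀ N : ℕ, N₀ ≤ N → (N : ℝ) ^ (1 - δ) ≤ cfS t c q u H g N := by
  refine all_of (cfS_mono t c q u H g) (fun ε hε => ?_) δ hδ
  have hl2 := Real.log_pos (show (1 : ℝ) < 2 by norm_num)
  have h1 := cntS hF hS hq hqu hK hw (Real.log 2 + ε) (by linarith)
  have h2 : Real.log 2 + (Real.log 2 + ε) = 2 * Real.log 2 + ε := by ring
  rwa [h2] at h1

end

end Pool.Agent.V11296.EB
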