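import Pool.Agent.H373R2.T7.BilE
import Pool.Agent.H373R2.T7.SupLiou

/-!
Library V11296.FP (helper296), part 1: patterns of the Liouville function on random sets of positions, tools.
-/

set_option autoImplicit false

namespace Pool.Agent.V11296.FP

open Finset
open Pool.Agent.H373R2.T7 (exI energy liR liR_norm sup_liou few_e SupSmall)

/-- fibres in one coordinate -/
lemma upd_card {ι : Type} [Fintype ι] [DecidableEq ι] (T : Finset ℕ) (k : ι) (P : (ι → ℕ) → Prop) [DecidablePred P]
    (c : ℝ) (h : ∀ m ∈ Fintype.piFinset (fun _ : ι => T), ((T.filter fun y => P (Function.update m k y)).card : ℝ) ≤ c) :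
    (T.card : ℝ) * (((Fintype.piFinset fun _ : ι => T).filter P).card : ℝ) ≤
      ((Fintype.piFinset fun _ : ι => T).card : ℝ) * c := by
  classical
  set PF := Fintype.piFinset (fun _ : ι => T) with hPF
  have e1 : (T.card : ℝ) * ((PF.filter P).card : ℝ) = ∑ q ∈ PF ×ˢ T, (if P q.1 then (1 : ℝ) else 0) := by
    rw [sum_product]
    have : ∀ m ∈ PF, ∑ _y ∈ T, (if P m then (1 : ℝ) else 0) = T.card * (if P m then (1 : ℝ) else 0) := by
      intro m _
      rw [sum_const, nsmul_eq_mul]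
    rw [sum_congr rfl this, ← mul_sum, sum_boole]
  have e2 : ∑ q ∈ PF ×ˢ T, (if P q.1 then (1 : ℝ) else 0) =
      ∑ q ∈ PF ×ˢ T, (if P (Function.update q.1 k q.2) then (1 : ℝ) else 0) := by
    refine sum_nbij' (fun q => (Function.update q.1 k q.2, q.1 k)) (fun q => (Function.update q.1 k q.2, q.1 k)) ?_ ?_ ?_ ?_ ?_
    · intro q hq
      rw [mem_product] at hq ⊢
      rw [hPF, Fintype.mem_piFinset] at hq ⊢
      refine ⟨fun i => ?_, hq.1 k⟩
      by_cases hi : i = k
      · subst hi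
        simpa using hq.2
      · simpa [Function.update_of_ne hi] using hq.1 i
    · intro q hq
      rw [mem_product] at hq ⊢
      rw [hPF, Fintype.mem_piFinset] at hq ⊢
      refine ⟨fun i => ?_, hq.1 k⟩
      by_cases hi : i = k
      · subst hi
        simpa using hq.2
      · simpa [Function.update_of_ne hi] using hq.1 i
    · intro q _
      simp
    · intro q _
      simp
    · intro q _
      simp
  rw [e1, e2, sum_product]
  have e3 : ∀ m ∈ PF, ∑ y ∈ T, (if P (Function.update m k y) then (1 : ℝ) else 0) ≤ c := by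
    intro m hm
    rw [sum_boole]
    exact h m hm
  refine (sum_le_sum e3).trans ?_
  rw [sum_const, nsmul_eq_mul]

/-- the Liouville function, real -/
noncomputable def lr (n : ℕ) : ℝ := (-1 : ℝ) ^ ArithmeticFunction.cardFactors n

lemma lr_pm (n : ℕ) : lr n = 1 ∨ lr n = -1 := neg_one_pow_eq_or ℝ _

lemma lr_abs (n : ℕ) : |lr n| = 1 := by
  rcases lr_pm n with h | h <;> rw [h] <;> simp

lemma exI_lr (n s : ℕ) (hn : 1 ≤ n) : exI liR ((n : ℤ) + (s : ℤ)) = ((lr (n + s) : ℝ) : ℂ) := by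
  unfold exI liR lr
  rw [if_pos (by omega)]
  have h3 : ((n : ℤ) + (s : ℤ)).toNat = n + s := by omega
  rw [h3]
  push_cast
  rfl

open Classical in
/-- indicator of a set -/
noncomputable def ind (E : Set ℕ) (n : ℕ) : ℝ := if n ∈ E then 1 else 0

lemma ind_nonneg (E : Set ℕ) (n : ℕ) : 0 ≤ ind E n := by unfold ind; split_ifs <;> norm_num

lemma ind_le (E : Set ℕ) (n : ℕ) : |ind E n| ≤ 1 := by unfold ind; split_ifs <;> simp

/-- correlation over a set of indices -/
noncomputable def cor {ι : Type} (E : Set ℕ) (N : ℕ) (t : ι → ℕ) (J : Finset ι) : ℝ :=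
  ∑ n ∈ Icc 1 N, ind E n * ∏ i ∈ J, lr (n + t i)

/-- the number of the `n ≤ N` in `E` with a pattern -/
noncomputable def pat {ι : Type} [Fintype ι] (E : Set ℕ) (N : ℕ) (t : ι → ℕ) (v : ι → ℝ) : ℝ :=
  ∑ n ∈ Icc 1 N, ind E n * ∏ i, ((1 + v i * lr (n + t i)) / 2)

lemma pat_cor {ι : Type} [Fintype ι] [DecidableEq ι] (E : Set ℕ) (N : ℕ) (t : ι → ℕ) (v : ι → ℝ)
    (hv : ∀ i, v i = 1 ∨ v i = -1) (η : ℝ) (h : ∀ J : Finset ι, J.Nonempty → |cor E N t J| ≤ η) (hη : 0 ≤ η) :
    |pat E N t v - (∑ n ∈ Icc 1 N, ind E n) / 2 ^ Fintype.card ι| ≤ η := by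
  have e1 : pat E N t v = (∑ J ∈ (univ : Finset ι).powerset, (∏ i ∈ J, v i) * cor E N t J) / 2 ^ Fintype.card ι := by
    unfold pat cor
    have : ∀ n ∈ Icc 1 N, ind E n * ∏ i, ((1 + v i * lr (n + t i)) / 2) =
        (∑ J ∈ (univ : Finset ι).powerset, (∏ i ∈ J, v i) * (ind E n * ∏ i ∈ J, lr (n + t i))) / 2 ^ Fintype.card ι := by
      intro n _
      rw [prod_div_distrib, prod_const, card_univ, prod_one_add, mul_div_assoc', mul_sum]
      congr 1
      refine sum_congr rfl fun J _ => ?_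
      rw [prod_mul_distrib]
      ring
    rw [sum_congr rfl this, ← sum_div, sum_comm]
    congr 1
    refine sum_congr rfl fun J _ => ?_
    rw [mul_sum]
  have e2 : ∑ J ∈ (univ : Finset ι).powerset, (∏ i ∈ J, v i) * cor E N t J =
      (∑ n ∈ Icc 1 N, ind E n) + ∑ J ∈ (univ : Finset ι).powerset.erase ∅, (∏ i ∈ J, v i) * cor E N t J := by
    rw [← add_sum_erase _ _ (mem_powerset.2 (empty_subset (univ : Finset ι)))]
    congr 1
    unfold cor
    simp
  have hc : ((univ : Finset ι).powerset.card : ℝ) = 2 ^ Fintype.card ι := by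
    rw [card_powerset, card_univ]
    push_cast
    rfl
  have h2 : (0 : ℝ) < 2 ^ Fintype.card ι := by positivity
  rw [e1, e2, add_div, add_sub_cancel_left, abs_div, abs_of_pos h2, div_le_iff₀ h2]
  refine (abs_sum_le_sum_abs _ _).trans ?_
  have h3 : ∀ J ∈ (univ : Finset ι).powerset.erase ∅, |(∏ i ∈ J, v i) * cor E N t J| ≤ η := by
    intro J hJ
    rw [mem_erase] at hJ
    rw [abs_mul, abs_prod]
    have : ∏ i ∈ J, |v i| = 1 := by
      apply prod_eq_one
      intro i _
      rcases hv i with h | h <;> rw [h] <;> simp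
    rw [this, one_mul]
    exact h J (nonempty_iff_ne_empty.2 hJ.1)
  refine (sum_le_sum h3).trans ?_
  rw [sum_const, nsmul_eq_mul, mul_comm η]
  apply mul_le_mul_of_nonneg_right _ hη
  rw [← hc]
  exact_mod_cast card_le_card (erase_subset _ _)

open Classical in
lemma pat_card {ι : Type} [Fintype ι] (E : Set ℕ) (N : ℕ) (t : ι → ℕ) (v : ι → ℝ)
    (hv : ∀ i, v i = 1 ∨ v i = -1) :
    pat E N t v = (((Icc 1 N).filter fun n => n ∈ E ∧ ∀ i, lr (n + t i) = v i).card : ℝ) := by
  unfold pat ind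
  rw [← sum_boole]
  refine sum_congr rfl fun n _ => ?_
  by_cases h1 : n ∈ E
  · rw [if_pos h1, one_mul]
    by_cases h2 : ∀ i, lr (n + t i) = v i
    · rw [if_pos ⟨h1, h2⟩]
      apply prod_eq_one
      intro i _
      rw [h2 i]
      rcases hv i with h | h <;> rw [h] <;> norm_num
    · rw [if_neg (fun h => h2 h.2)]
      push Not at h2
      obtain ⟨i, hi⟩ := h2
      apply prod_eq_zero (mem_univ i)
      rcases hv i with h | h <;> rcases lr_pm (n + t i) with h' | h' <;> rw [h, h'] at hi ⊢ <;> first | exact absurd rfl hi | norm_num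
  · rw [if_neg h1, zero_mul, if_neg (fun h => h1 h.1)]

open Classical in
lemma ind_card (E : Set ℕ) (N : ℕ) : ∑ n ∈ Icc 1 N, ind E n = (((Icc 1 N).filter fun n => n ∈ E).card : ℝ) := by
  unfold ind
  rw [sum_boole]

end Pool.Agent.V11296.FP
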