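import Mathlib

/-!
Library V11296.FP (helper296), part 10: all the patterns of the squarefree numbers at general positions are frequent.
-/

set_option autoImplicit false

namespace Pool.Agent.V11296.FP

open Finset

lemma card_mod_le (N K : ℕ) (hK : 1 ≤ K) (S : Finset ℕ) (hS : S ⊆ Icc 1 N)
    (h : ∀ a ∈ S, ∀ b ∈ S, a ≤ b → K ∣ b - a) : (S.card : ℝ) ≤ N / K + 1 := by
  rcases S.eq_empty_or_nonempty with h0 | h0
  · rw [h0, card_empty]; push_cast; positivity
  · set a0 := S.min' h0 with ha0
    have ha0S : a0 ∈ S := S.min'_mem h0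
    have h1 : S.card ≤ (range (N / K + 1)).card := by
      apply card_le_card_of_injOn (fun a => (a - a0) / K)
      · intro a ha
        have h2 := hS ha
        rw [mem_Icc] at h2
        rw [mem_coe, mem_range]
        have h3 : (a - a0) / K ≤ N / K := Nat.div_le_div_right (by omega)
        simp only
        omega
      · intro a ha b hb hab
        simp only at hab
        have h3 := h a0 ha0S a ha (S.min'_le a ha)
        have h4 := h a0 ha0S b hb (S.min'_le b hb)
        have h5 : a - a0 = b - a0 := by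
          rw [← Nat.div_mul_cancel h3, ← Nat.div_mul_cancel h4, hab]
        have h6 := S.min'_le a ha
        have h7 := S.min'_le b hb
        omega
    rw [card_range] at h1
    have h2 : ((N / K : ℕ) : ℝ) ≤ (N : ℝ) / K := Nat.cast_div_le
    calc (S.card : ℝ) ≤ ((N / K + 1 : ℕ) : ℝ) := by exact_mod_cast h1
      _ = ((N / K : ℕ) : ℝ) + 1 := by push_cast; ring
      _ ≤ N / K + 1 := by linarith

lemma card_mod_ge (N K c : ℕ) (hK : 1 ≤ K) :
    (N : ℝ) / K - 1 ≤ (((Icc 1 N).filter (fun n => n ≡ c [MOD K])).card : ℝ) := by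
  have h1 : (range (N / K)).card ≤ ((Icc 1 N).filter (fun n => n ≡ c [MOD K])).card := by
    apply card_le_card_of_injOn (fun j => (c + (K - 1)) % K + 1 + j * K)
    · intro j hj
      rw [mem_coe, mem_range] at hj
      rw [mem_coe, mem_filter, mem_Icc]
      have h2 : (c + (K - 1)) % K < K := Nat.mod_lt _ (by omega)
      have h3 : (j + 1) * K ≤ N := by
        calc (j + 1) * K ≤ (N / K) * K := Nat.mul_le_mul_right K (by omega)
          _ ≤ N := Nat.div_mul_le_self N K
      have h8 : 1 ≤ (c + (K - 1)) % K + 1 + j * K := by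
        have := Nat.zero_le (j * K)
        omega
      have h9 : (c + (K - 1)) % K + 1 + j * K ≤ N := by
        have : (c + (K - 1)) % K + 1 ≤ K := h2
        nlinarith
      refine ⟨⟨h8, h9⟩, ?_⟩
      have h4 : (c + (K - 1)) % K ≡ c + (K - 1) [MOD K] := Nat.mod_modEq _ _
      have h5 : (c + (K - 1)) % K + 1 ≡ c + (K - 1) + 1 [MOD K] := h4.add_right 1
      have h6 : c + (K - 1) + 1 = c + K := by omega
      rw [h6] at h5
      have h7 : (c + (K - 1)) % K + 1 + j * K ≡ c + K + j * K [MOD K] := h5.add_right _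
      refine h7.trans ?_
      unfold Nat.ModEq
      rw [Nat.add_mul_mod_self_right, Nat.add_mod_right]
    · intro a _ b _ hab
      simp only at hab
      have h2 : a * K = b * K := by omega
      exact Nat.eq_of_mul_eq_mul_right (by omega) h2
  rw [card_range] at h1
  have h2 : (N : ℝ) / K - 1 < ((N / K : ℕ) : ℝ) := by
    have h3 : (N : ℝ) < ((N / K : ℕ) + 1) * K := by
      have := Nat.lt_div_mul_add (a := N) (b := K) (by omega)
      have h4 : N < (N / K + 1) * K := by nlinarith
      exact_mod_cast h4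
    have hK0 : (0 : ℝ) < K := by exact_mod_cast (by omega : 0 < K)
    rw [sub_lt_iff_lt_add, div_lt_iff₀ hK0]
    exact h3
  exact h2.le.trans (by exact_mod_cast h1)

/-- distinct primes in `(m, m²]` -/
lemma primes_ex {d : ℕ} (m : ℕ) (hdm : d ≤ m) (hm : 2 * m ≤ (m ^ 2).primeCounting) :
    ∃ P : Fin d → ℕ, Function.Injective P ∧ ∀ i, (P i).Prime ∧ m < P i ∧ P i ≤ m ^ 2 := by
  set S := (Ioc m (m ^ 2)).filter Nat.Prime with hS
  have h1 : d ≤ S.card := by
    have h2 : (m ^ 2).primeCounting ≤ m + S.card := by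
      rw [← Nat.primesLE_card_eq_primeCounting]
      have h3 : Nat.primesLE (m ^ 2) ⊆ Icc 1 m ∪ S := by
        intro p hp
        have h4 := Nat.prime_of_mem_primesLE hp
        have h5 : p ≤ m ^ 2 := by
          rw [Nat.primesLE_eq_filter_Icc_one, mem_filter, mem_Icc] at hp
          exact hp.1.2
        rw [mem_union, mem_Icc, hS, mem_filter, mem_Ioc]
        rcases Nat.lt_or_ge m p with h6 | h6
        · right; exact ⟨⟨h6, h5⟩, h4⟩
        · left; exact ⟨h4.one_lt.le, h6⟩
      refine (card_le_card h3).trans ((card_union_le _ _).trans ?_)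
      rw [Nat.card_Icc]
      omega
    omega
  have h2 : Fintype.card (Fin d) ≤ Fintype.card S := by
    rw [Fintype.card_fin, Fintype.card_coe]
    exact h1
  obtain ⟨e⟩ := Function.Embedding.nonempty_of_card_le h2
  refine ⟨fun i => (e i : ℕ), fun i j hij => e.injective (Subtype.ext hij), fun i => ?_⟩
  have h3 : (e i : ℕ) ∈ S := (e i).2
  have h4 := mem_filter.1 h3
  have h5 := mem_Ioc.1 h4.1
  exact ⟨h4.2, h5.1, h5.2⟩

end Pool.Agent.V11296.FP
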