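import Pool.Agent.V11296.FP1
import Pool.Agent.V11296.FP10

/-!
Library V11296.FP (helper296), part 11: all the patterns of the squarefree numbers at general positions are frequent.
-/

set_option autoImplicit false

namespace Pool.Agent.V11296.FP

open Finset

lemma sum_inv (k T : ℕ) (hk : 1 ≤ k) : ∑ p ∈ Ioc k T, ((p : ℝ) ^ 2)⁻¹ ≤ 1 / k := by
  rcases le_total k T with h | h
  · have h1 := sum_Ioc_inv_sq_le_sub (α := ℝ) (by omega : k ≠ 0) h
    have h2 : (0 : ℝ) ≤ (T : ℝ)⁻¹ := by positivity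
    rw [one_div]
    linarith
  · rw [Ioc_eq_empty (by omega), sum_empty]
    positivity

open Classical in
lemma lower {d : ℕ} (hd : 1 ≤ d) (m : ℕ) (hdm : 4 * d ≤ m) (hm : 2 * m ≤ (m ^ 2).primeCounting) (N : ℕ) (h : Fin d → ℕ)
    (hh : ∀ i, h i ≤ N)
    (hgood : ∀ p : ℕ, p.Prime → m < p → p ≤ m ^ 2 → ∀ i j, i ≠ j → ¬ ((p : ℤ) ^ 2 ∣ (h i : ℤ) - h j))
    (n0 : ℕ) (Q : Finset (Fin d)) (hQ : ∀ i, i ∈ Q ↔ Squarefree (n0 + h i)) (R : ℕ) (hR : R = 4 ^ (8 * d) * m ^ (4 * d))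
    (hN : (2 * R * (1 + 2 * d)) ^ 2 ≤ N) :
    (N : ℝ) / (4 * R) ≤ (((Icc 1 N).filter fun n => ∀ i, Squarefree (n + h i) ↔ i ∈ Q).card : ℝ) := by
  obtain ⟨P, hPi, hP⟩ := primes_ex (d := d) m (by omega) hm
  set M1 := primorial (4 * d) ^ 2 with hM1
  set M2 := ∏ j ∈ Qᶜ, P j ^ 2 with hM2
  set M := M1 * M2 with hM
  have hPpos : ∀ j, 0 < P j := fun j => (hP j).1.pos
  have hM1pos : 0 < M1 := pow_pos (primorial_pos _) 2
  have hM2pos : 0 < M2 := prod_pos fun j _ => pow_pos (hPpos j) 2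
  have hMpos : 0 < M := Nat.mul_pos hM1pos hM2pos
  have hprim : ∀ p : ℕ, p.Prime → p ∣ primorial (4 * d) → p ≤ 4 * d := by
    intro p hp hdvd
    have h1 : p ∈ (primorial (4 * d)).primeFactors := Nat.mem_primeFactors.2 ⟨hp, hdvd, primorial_ne_zero _⟩
    rw [primeFactors_primorial, Nat.primesLE_eq_filter_Icc_one, mem_filter, mem_Icc] at h1
    exact h1.1.2
  have hprim2 : ∀ p : ℕ, p.Prime → p ≤ 4 * d → p ∣ primorial (4 * d) := by
    intro p hp hle
    have h1 : p ∈ (primorial (4 * d)).primeFactors := by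
      rw [primeFactors_primorial, Nat.primesLE_eq_filter_Icc_one, mem_filter, mem_Icc]
      exact ⟨⟨hp.one_lt.le, hle⟩, hp⟩
    exact (Nat.mem_primeFactors.1 h1).2.1
  have hcop1 : ∀ j, Nat.Coprime (primorial (4 * d)) (P j) := by
    intro j
    rw [Nat.coprime_comm, (hP j).1.coprime_iff_not_dvd]
    intro hdvd
    have h1 := hprim _ (hP j).1 hdvd
    have h2 := (hP j).2.1
    omega
  have hcop : Nat.Coprime M1 M2 := by
    rw [hM1, hM2]
    apply Nat.Coprime.prod_right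
    intro j _
    exact (hcop1 j).pow 2 2
  have hpair : Set.Pairwise (Qᶜ : Finset (Fin d)) (Function.onFun Nat.Coprime (fun j => P j ^ 2)) := by
    intro i _ j _ hij
    change Nat.Coprime (P i ^ 2) (P j ^ 2)
    apply Nat.Coprime.pow
    rw [Nat.coprime_primes (hP i).1 (hP j).1]
    exact fun h => hij (hPi h)
  obtain ⟨k, hk⟩ := Nat.chineseRemainderOfFinset (fun j => (P j ^ 2 - 1) * h j) (fun j => P j ^ 2) Qᶜ
    (fun j _ => (pow_pos (hPpos j) 2).ne') hpair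
  obtain ⟨c, hc1, hc2⟩ := Nat.chineseRemainder hcop n0 k
  have hcl : ∀ n, n ≡ c [MOD M] → (n ≡ n0 [MOD M1]) ∧ ∀ j ∈ Qᶜ, P j ^ 2 ∣ n + h j := by
    intro n hn
    have h1 : n ≡ c [MOD M1] := hn.of_dvd (Dvd.intro _ rfl)
    have h2 : n ≡ c [MOD M2] := hn.of_dvd (Dvd.intro_left _ rfl)
    refine ⟨h1.trans hc1, fun j hj => ?_⟩
    have h3 : P j ^ 2 ∣ M2 := dvd_prod_of_mem (fun j => P j ^ 2) hj
    have h4 : n ≡ (P j ^ 2 - 1) * h j [MOD P j ^ 2] := ((h2.trans hc2).of_dvd h3).trans (hk j hj)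
    have h5 : n + h j ≡ (P j ^ 2 - 1) * h j + h j [MOD P j ^ 2] := h4.add_right _
    have h6 : (P j ^ 2 - 1) * h j + h j = P j ^ 2 * h j := by
      have h8 : 1 ≤ P j ^ 2 := pow_pos (hPpos j) 2
      have h7 : P j ^ 2 - 1 + 1 = P j ^ 2 := by omega
      calc (P j ^ 2 - 1) * h j + h j = (P j ^ 2 - 1 + 1) * h j := by ring
        _ = _ := by rw [h7]
    rw [h6] at h5
    exact Nat.modEq_zero_iff_dvd.1 (h5.trans (Nat.modEq_zero_iff_dvd.2 (Dvd.intro _ rfl)))
  set T := Nat.sqrt (2 * N) with hT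
  have hT2 : T ^ 2 ≤ 2 * N := Nat.sqrt_le' _
  set A := (Icc 1 N).filter (fun n => n ≡ c [MOD M]) with hA
  set B := (univ : Finset (Fin d)) ×ˢ (Ioc (4 * d) T).filter (fun p => p.Prime ∧ ¬ p ∣ M) with hB
  set G := A \ B.biUnion (fun z => A.filter (fun n => z.2 ^ 2 ∣ n + h z.1)) with hG
  have hMR : M ≤ R := by
    have k1 : M1 ≤ 4 ^ (8 * d) := by
      have k2 : primorial (4 * d) ≤ 4 ^ (4 * d) := primorial_le_four_pow _
      calc M1 ≤ (4 ^ (4 * d)) ^ 2 := Nat.pow_le_pow_left k2 2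
        _ = 4 ^ (8 * d) := by rw [← pow_mul]; congr 1; ring
    have k3 : M2 ≤ m ^ (4 * d) := by
      have k4 : M2 ≤ ∏ j ∈ Qᶜ, (m ^ 2) ^ 2 := prod_le_prod' fun j _ => Nat.pow_le_pow_left (hP j).2.2 2
      refine k4.trans ?_
      rw [prod_const, ← pow_mul, ← pow_mul]
      apply Nat.pow_le_pow_right (by omega)
      have k5 : (Qᶜ).card ≤ d := (card_le_univ _).trans (by rw [Fintype.card_fin])
      nlinarith
    rw [hM, hR]
    exact Nat.mul_le_mul k1 k3
  have hsub : G ⊆ (Icc 1 N).filter fun n => ∀ i, Squarefree (n + h i) ↔ i ∈ Q := by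
    intro n hn
    rw [hG, mem_sdiff, mem_biUnion] at hn
    obtain ⟨hnA, hnB⟩ := hn
    have hnA' := hnA
    rw [hA, mem_filter, mem_Icc] at hnA'
    obtain ⟨⟨hn1, hn2⟩, hnc⟩ := hnA'
    obtain ⟨hcn0, hcj⟩ := hcl n hnc
    rw [mem_filter, mem_Icc]
    refine ⟨⟨hn1, hn2⟩, fun i => ⟨fun hsq => ?_, fun hi => ?_⟩⟩
    · by_contra hi
      have h1 := hcj i (mem_compl.2 hi)
      rw [Nat.squarefree_iff_prime_squarefree] at hsq
      exact hsq _ (hP i).1 (by rw [← sq]; exact h1)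
    · rw [Nat.squarefree_iff_prime_squarefree]
      intro p hp hdvd
      rw [← sq] at hdvd
      by_cases hp4 : p ≤ 4 * d
      · have h1 : p ^ 2 ∣ M1 := pow_dvd_pow_of_dvd (hprim2 p hp hp4) 2
        have h2 : n ≡ n0 [MOD p ^ 2] := hcn0.of_dvd h1
        have h3 : n + h i ≡ n0 + h i [MOD p ^ 2] := h2.add_right _
        have h4 : p ^ 2 ∣ n0 + h i := (Nat.modEq_zero_iff_dvd.1 (h3.symm.trans (Nat.modEq_zero_iff_dvd.2 hdvd)))
        have h5 := (hQ i).1 hi
        rw [Nat.squarefree_iff_prime_squarefree] at h5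
        exact h5 p hp (by rw [← sq]; exact h4)
      · by_cases hpM : p ∣ M
        · have h1 : p ∣ M2 := by
            rcases (Nat.Prime.dvd_mul hp).1 hpM with h2 | h2
            · exact absurd (hprim p hp (hp.dvd_of_dvd_pow h2)) hp4
            · exact h2
          rw [hM2, Prime.dvd_finsetProd_iff hp.prime] at h1
          obtain ⟨j, hj, hpj⟩ := h1
          have h2 : p = P j := (Nat.prime_dvd_prime_iff_eq hp (hP j).1).1 (hp.dvd_of_dvd_pow hpj)
          have h3 := hcj j hj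
          rw [← h2] at h3
          have hij : i ≠ j := by
            rintro rfl
            exact (mem_compl.1 hj) hi
          apply hgood p hp (by rw [h2]; exact (hP j).2.1) (by rw [h2]; exact (hP j).2.2) i j hij
          have h4 : ((p ^ 2 : ℕ) : ℤ) ∣ ((n + h i : ℕ) : ℤ) := by exact_mod_cast hdvd
          have h5 : ((p ^ 2 : ℕ) : ℤ) ∣ ((n + h j : ℕ) : ℤ) := by exact_mod_cast h3
          have h6 := dvd_sub h4 h5
          push_cast at h6
          have h7 : (n : ℤ) + h i - (n + h j) = h i - h j := by ring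
          rw [h7] at h6
          exact h6
        · apply hnB
          refine ⟨(i, p), ?_, ?_⟩
          · rw [hB, mem_product, mem_filter, mem_Ioc]
            refine ⟨mem_univ _, ⟨by simp only; omega, ?_⟩, hp, hpM⟩
            rw [hT, Nat.le_sqrt']
            have h1 : p ^ 2 ≤ n + h i := Nat.le_of_dvd (by omega) hdvd
            have h2 := hh i
            simp only
            omega
          · rw [mem_filter]
            exact ⟨hnA, hdvd⟩
  have hcardG : (N : ℝ) / M - 1 - ((N : ℝ) / M / 4 + d * T) ≤ (G.card : ℝ) := by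
    have k1 : (A.card : ℝ) ≤ G.card + ((B.biUnion (fun z => A.filter (fun n => z.2 ^ 2 ∣ n + h z.1))).card : ℝ) := by
      have : A.card ≤ G.card + (B.biUnion (fun z => A.filter (fun n => z.2 ^ 2 ∣ n + h z.1))).card := by
        rw [hG]
        exact card_le_card_sdiff_add_card
      exact_mod_cast this
    have k2 : ((B.biUnion (fun z => A.filter (fun n => z.2 ^ 2 ∣ n + h z.1))).card : ℝ) ≤
        ∑ z ∈ B, ((A.filter (fun n => z.2 ^ 2 ∣ n + h z.1)).card : ℝ) := by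
      exact_mod_cast card_biUnion_le
    have k3 : ∀ z ∈ B, ((A.filter (fun n => z.2 ^ 2 ∣ n + h z.1)).card : ℝ) ≤ (N : ℝ) / M * ((z.2 : ℝ) ^ 2)⁻¹ + 1 := by
      intro z hz
      rw [hB, mem_product, mem_filter] at hz
      obtain ⟨_, _, hzp, hzM⟩ := hz
      have k4 := card_mod_le N (M * z.2 ^ 2) (Nat.mul_pos hMpos (pow_pos hzp.pos 2)) (A.filter (fun n => z.2 ^ 2 ∣ n + h z.1))
        ((filter_subset _ _).trans (filter_subset _ _)) (by
          intro a ha b hb hab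
          rw [mem_filter, hA, mem_filter] at ha hb
          apply Nat.Coprime.mul_dvd_of_dvd_of_dvd
          · apply Nat.Coprime.pow_right
            rw [Nat.coprime_comm, hzp.coprime_iff_not_dvd]
            exact hzM
          · exact (Nat.modEq_iff_dvd' hab).1 (ha.1.2.trans hb.1.2.symm)
          · have h1 := Nat.dvd_sub hb.2 ha.2
            have h2 : b + h z.1 - (a + h z.1) = b - a := by omega
            rw [h2] at h1
            exact h1)
      refine k4.trans (le_of_eq ?_)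
      push_cast
      rw [div_mul_eq_div_div, div_eq_mul_inv ((N : ℝ) / M)]
    have k5 : ∑ z ∈ B, ((N : ℝ) / M * ((z.2 : ℝ) ^ 2)⁻¹ + 1) ≤ (N : ℝ) / M / 4 + d * T := by
      rw [hB, sum_product]
      simp only
      rw [sum_const, card_univ, Fintype.card_fin, nsmul_eq_mul]
      have k6 : ∑ p ∈ (Ioc (4 * d) T).filter (fun p => p.Prime ∧ ¬ p ∣ M), ((N : ℝ) / M * ((p : ℝ) ^ 2)⁻¹ + 1) ≤
          ∑ p ∈ Ioc (4 * d) T, ((N : ℝ) / M * ((p : ℝ) ^ 2)⁻¹ + 1) :=
        sum_le_sum_of_subset_of_nonneg (filter_subset _ _) (fun p _ _ => by positivity)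
      have k7 : ∑ p ∈ Ioc (4 * d) T, ((N : ℝ) / M * ((p : ℝ) ^ 2)⁻¹ + 1) ≤ (N : ℝ) / M * (1 / (4 * d : ℕ)) + T := by
        rw [sum_add_distrib, ← mul_sum, sum_const, nsmul_eq_mul, mul_one, Nat.card_Ioc]
        have k8 := sum_inv (4 * d) T (by omega)
        have k9 : ((T - 4 * d : ℕ) : ℝ) ≤ T := by exact_mod_cast Nat.sub_le _ _
        have k10 : (0 : ℝ) ≤ (N : ℝ) / M := by positivity
        nlinarith [mul_le_mul_of_nonneg_left k8 k10]
      have hd0 : (0 : ℝ) < d := by exact_mod_cast (by omega : 0 < d)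
      calc (d : ℝ) * _ ≤ d * ((N : ℝ) / M * (1 / (4 * d : ℕ)) + T) := mul_le_mul_of_nonneg_left (k6.trans k7) hd0.le
        _ = (N : ℝ) / M / 4 + d * T := by
          push_cast
          field_simp
    have k11 := card_mod_ge N M c hMpos
    have k12 := sum_le_sum k3
    linarith
  have hfin : (N : ℝ) / (4 * R) ≤ (N : ℝ) / M - 1 - ((N : ℝ) / M / 4 + d * T) := by
    have hMr : (0 : ℝ) < M := by exact_mod_cast hMpos
    have hMRr : (M : ℝ) ≤ R := by exact_mod_cast hMR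
    have hRr : (0 : ℝ) < R := hMr.trans_le hMRr
    set s := Real.sqrt N with hs
    have hs2 : s ^ 2 = N := Real.sq_sqrt (Nat.cast_nonneg N)
    have hs0 : 0 ≤ s := Real.sqrt_nonneg _
    have hd0 : (1 : ℝ) ≤ d := by exact_mod_cast hd
    have hR1 : (1 : ℝ) ≤ R := by
      have : 1 ≤ R := hMpos.trans_le hMR
      exact_mod_cast this
    have hs1 : 2 * R * (1 + 2 * d) ≤ s := by
      apply Real.le_sqrt_of_sq_le
      exact_mod_cast hN
    have hs3 : 1 ≤ s := by nlinarith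
    have hTs : (T : ℝ) ≤ 2 * s := by
      have h1 : (T : ℝ) ^ 2 ≤ 2 * N := by exact_mod_cast hT2
      by_contra hcon
      push Not at hcon
      nlinarith
    have h1 : (N : ℝ) / (4 * R) ≤ (N : ℝ) / M / 4 := by
      rw [div_div, mul_comm (M : ℝ) 4]
      apply div_le_div_of_nonneg_left (Nat.cast_nonneg N) (by positivity)
      linarith
    have h2 : s * (1 + 2 * d) ≤ (N : ℝ) / M / 2 := by
      rw [div_div, le_div_iff₀ (by positivity), ← hs2]
      have h3 : s * (1 + 2 * d) * (M * 2) ≤ s * (1 + 2 * d) * (R * 2) :=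
        mul_le_mul_of_nonneg_left (by linarith) (by positivity)
      nlinarith
    have h4 : (d : ℝ) * T ≤ d * (2 * s) := mul_le_mul_of_nonneg_left hTs (by linarith)
    nlinarith
  exact hfin.trans (hcardG.trans (by exact_mod_cast card_le_card hsub))

open Classical in
/-- few tuples have a difference divisible by the square of a prime of medium size -/
lemma badtuples (N m d : ℕ) (hm : 1 ≤ m) (hmN : m ^ 3 ≤ N) :
    (((Fintype.piFinset fun _ : Fin d => Icc 1 N).filter (fun h => ¬ ∀ p : ℕ, p.Prime → m < p → p ≤ m ^ 2 → ∀ i j, i ≠ j →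
      ¬ ((p : ℤ) ^ 2 ∣ (h i : ℤ) - h j))).card : ℝ) ≤ (N : ℝ) ^ d * (2 * d ^ 2 / m) := by
  have hN0 : 0 < N := (pow_pos hm 3).trans_le hmN
  have hNr : (0 : ℝ) < N := by exact_mod_cast hN0
  have hmr : (0 : ℝ) < m := by exact_mod_cast hm
  have hx : ((Icc 1 N).card : ℝ) = N := by rw [Nat.card_Icc]; simp
  have hpi : ((Fintype.piFinset fun _ : Fin d => Icc 1 N).card : ℝ) = (N : ℝ) ^ d := by
    rw [Fintype.card_piFinset_const, Nat.card_Icc]
    push_cast
    simp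
  set PF := (Fintype.piFinset fun _ : Fin d => Icc 1 N) with hPF
  have one : ∀ p : ℕ, m < p → ∀ i j : Fin d, i ≠ j →
      ((PF.filter (fun h => (p : ℤ) ^ 2 ∣ (h i : ℤ) - h j)).card : ℝ) ≤ (N : ℝ) ^ d * (((p : ℝ) ^ 2)⁻¹ + 1 / N) := by
    intro p hp i j hij
    have k1 := upd_card (Icc 1 N) i (fun h : Fin d → ℕ => (p : ℤ) ^ 2 ∣ (h i : ℤ) - h j) ((N : ℝ) / (p ^ 2 : ℕ) + 1) (by
      intro h _
      apply card_mod_le N (p ^ 2) (Nat.one_le_pow _ _ (by omega : 0 < p)) _ (filter_subset _ _)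
      intro a ha b hb hab
      rw [mem_filter, Function.update_self, Function.update_of_ne hij.symm] at ha hb
      have h1 := dvd_sub hb.2 ha.2
      have h2 : ((b : ℤ) - h j) - (a - h j) = ((b - a : ℕ) : ℤ) := by
        rw [Nat.cast_sub hab]
        ring
      rw [h2] at h1
      exact_mod_cast h1)
    rw [hx, hpi] at k1
    have k2 : (N : ℝ) ^ d * ((N : ℝ) / (p ^ 2 : ℕ) + 1) = N * ((N : ℝ) ^ d * (((p : ℝ) ^ 2)⁻¹ + 1 / N)) := by
      push_cast
      field_simp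
    rw [k2] at k1
    exact le_of_mul_le_mul_left k1 hNr
  set W := (Ioc m (m ^ 2)) ×ˢ ((univ : Finset (Fin d × Fin d)).filter (fun z => z.1 ≠ z.2)) with hW
  have hsub : (PF.filter (fun h => ¬ ∀ p : ℕ, p.Prime → m < p → p ≤ m ^ 2 → ∀ i j, i ≠ j → ¬ ((p : ℤ) ^ 2 ∣ (h i : ℤ) - h j))) ⊆
      W.biUnion (fun z => PF.filter (fun h => (z.1 : ℤ) ^ 2 ∣ (h z.2.1 : ℤ) - h z.2.2)) := by
    intro h hh
    rw [mem_filter] at hh
    obtain ⟨hh1, hh2⟩ := hh
    push Not at hh2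
    obtain ⟨p, _, hp1, hp2, i, j, hij, hdv⟩ := hh2
    rw [mem_biUnion]
    refine ⟨(p, (i, j)), ?_, ?_⟩
    · rw [hW, mem_product, mem_filter, mem_Ioc]
      exact ⟨⟨hp1, hp2⟩, mem_univ _, hij⟩
    · rw [mem_filter]
      exact ⟨hh1, hdv⟩
  have k1 := (card_le_card hsub).trans card_biUnion_le
  have k2 : ((PF.filter (fun h => ¬ ∀ p : ℕ, p.Prime → m < p → p ≤ m ^ 2 → ∀ i j, i ≠ j → ¬ ((p : ℤ) ^ 2 ∣ (h i : ℤ) - h j))).card : ℝ) ≤
      ∑ z ∈ W, ((PF.filter (fun h => (z.1 : ℤ) ^ 2 ∣ (h z.2.1 : ℤ) - h z.2.2)).card : ℝ) := by exact_mod_cast k1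
  refine k2.trans ((sum_le_sum fun z hz => ?_).trans (?_ : ∑ z ∈ W, (N : ℝ) ^ d * (((z.1 : ℝ) ^ 2)⁻¹ + 1 / N) ≤ _))
  · rw [hW, mem_product, mem_filter, mem_Ioc] at hz
    exact one z.1 hz.1.1 z.2.1 z.2.2 hz.2.2
  · rw [← mul_sum]
    apply mul_le_mul_of_nonneg_left _ (by positivity)
    rw [hW, sum_product]
    simp only [sum_const, nsmul_eq_mul]
    rw [← mul_sum, sum_add_distrib, sum_const, nsmul_eq_mul, Nat.card_Ioc]
    have k3 := sum_inv m (m ^ 2) hm
    have k4 : (((univ : Finset (Fin d × Fin d)).filter (fun z => z.1 ≠ z.2)).card : ℝ) ≤ (d : ℝ) ^ 2 := by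
      have k5 : ((univ : Finset (Fin d × Fin d)).filter (fun z => z.1 ≠ z.2)).card ≤ d ^ 2 := by
        refine (card_le_univ _).trans (le_of_eq ?_)
        rw [Fintype.card_prod, Fintype.card_fin, sq]
      exact_mod_cast k5
    have k6 : ((m ^ 2 - m : ℕ) : ℝ) * (1 / N) ≤ 1 / m := by
      have k7 : ((m ^ 2 - m : ℕ) : ℝ) ≤ (m : ℝ) ^ 2 := by exact_mod_cast Nat.sub_le _ _
      have k8 : (m : ℝ) ^ 3 ≤ N := by exact_mod_cast hmN
      rw [mul_one_div, div_le_div_iff₀ hNr hmr]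
      nlinarith
    have k9 : (0 : ℝ) ≤ ∑ i ∈ Ioc m (m ^ 2), ((i : ℝ) ^ 2)⁻¹ := sum_nonneg fun _ _ => by positivity
    have k10 : (0 : ℝ) ≤ ((m ^ 2 - m : ℕ) : ℝ) * (1 / N) := by positivity
    calc _ ≤ (d : ℝ) ^ 2 * (1 / m + 1 / m) := mul_le_mul k4 (by linarith) (by linarith) (by positivity)
      _ = 2 * d ^ 2 / m := by ring

end Pool.Agent.V11296.FP
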