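import Pool.Agent.V11296.FP2

/-!
Library V11296.FP (helper296), part 3: dense sets of positions contain large sets on which all patterns occur.
-/

set_option autoImplicit false

namespace Pool.Agent.V11296.FP

open Finset
open Pool.Agent.H373R2.T7 (energy)

/-- the energy of order one of an injective family -/
lemma energy_one (x : ℕ) (s : ℕ → ℤ) (hs : ∀ a ∈ Icc 1 x, ∀ b ∈ Icc 1 x, s a = s b → a = b) : energy 1 x s ≤ x := by
  classical
  unfold energy
  have h1 : (Icc 1 x).card = x := by rw [Nat.card_Icc]; omega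
  calc _ ≤ (Icc 1 x).card := by
        refine card_le_card_of_injOn (fun q => q.1 0) ?_ ?_
        · intro q hq
          rw [mem_coe, mem_filter, mem_product, Fintype.mem_piFinset] at hq
          exact mem_coe.2 (hq.1.1 0)
        · intro q hq q' hq' h
          rw [mem_coe, mem_filter, mem_product, Fintype.mem_piFinset, Fintype.mem_piFinset] at hq hq'
          simp only [Fin.sum_univ_one] at hq hq'
          have e1 : q.1 0 = q.2 0 := hs _ (hq.1.1 0) _ (hq.1.2 0) hq.2
          have e2 : q'.1 0 = q'.2 0 := hs _ (hq'.1.1 0) _ (hq'.1.2 0) hq'.2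
          simp only at h
          apply Prod.ext
          · funext i
            rw [Fin.eq_zero i]
            exact h
          · funext i
            rw [Fin.eq_zero i, ← e1, ← e2]
            exact h
    _ = x := h1

/-- enumeration of a finite set -/
lemma enum (D : Finset ℕ) : ∃ s : ℕ → ℕ, (∀ m ∈ Icc 1 D.card, s m ∈ D) ∧
    (∀ a ∈ Icc 1 D.card, ∀ b ∈ Icc 1 D.card, s a = s b → a = b) := by
  classical
  have e := D.equivFin
  refine ⟨fun m => if h : m - 1 < D.card then (e.symm ⟨m - 1, h⟩ : ℕ) else 0, ?_, ?_⟩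
  · intro m hm
    rw [mem_Icc] at hm
    simp only
    rw [dif_pos (by omega)]
    exact (e.symm ⟨m - 1, by omega⟩).2
  · intro a ha b hb hab
    rw [mem_Icc] at ha hb
    simp only at hab
    rw [dif_pos (by omega), dif_pos (by omega)] at hab
    have h1 := e.symm.injective (Subtype.ext hab)
    have h2 := Fin.mk.inj_iff.1 h1
    omega

/-- dense sets of positions -/
theorem dense (A C : ℕ) : ∃ N₀ : ℕ, ∀ N : ℕ, N₀ ≤ N → ∀ D ⊆ Icc 1 N, (N : ℝ) / Real.log N ^ C ≤ D.card →
    ∃ H ⊆ D, A * Real.log (Real.log N) ≤ (H.card : ℝ) ∧ ∀ v : ℕ → ℝ, (∀ h, v h = 1 ∨ v h = -1) →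
      (N : ℝ) / 2 ^ (H.card + 1) ≤ (((Icc 1 N).filter fun n => ∀ h ∈ H, lr (n + h) = v h).card : ℝ) := by
  classical
  obtain ⟨N1, hN1, h1⟩ := main 1 1 C (A + 1) (A + 3)
  obtain ⟨N2, h2⟩ := Filter.eventually_atTop.1 ((Filter.tendsto_atTop.1
    ((Real.tendsto_log_atTop.comp Real.tendsto_log_atTop).comp tendsto_natCast_atTop_atTop)) 1)
  refine ⟨max N1 N2, fun N hN D hD hDc => ?_⟩
  have hN3 : 3 ≤ N := hN1.trans ((le_max_left _ _).trans hN)
  have hNr : (3 : ℝ) ≤ N := by exact_mod_cast hN3
  have hll : 1 ≤ Real.log (Real.log N) := h2 N ((le_max_right _ _).trans hN)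
  have hlog1 : 2 < Real.log N := by
    have h3 : 0 < Real.log N := Real.log_pos (by linarith)
    have h4 := (Real.le_log_iff_exp_le h3).1 hll
    have := Real.exp_one_gt_d9
    linarith
  have hlog0 : 0 < Real.log N := by linarith
  obtain ⟨s, hsD, hsi⟩ := enum D
  set x := D.card with hx
  have hx0 : 0 < x := by
    have : (0 : ℝ) < x := lt_of_lt_of_le (by positivity) hDc
    exact_mod_cast this
  have hx0' : (0 : ℝ) < x := by exact_mod_cast hx0
  set d : ℕ := ⌈(A : ℝ) * Real.log (Real.log N)⌉₊ with hd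
  have hd1 : (A : ℝ) * Real.log (Real.log N) ≤ d := Nat.le_ceil _
  have hd2 : (d : ℝ) ≤ ((A + 1 : ℕ) : ℝ) * Real.log (Real.log N) := by
    have h3 := Nat.ceil_lt_add_one (a := (A : ℝ) * Real.log (Real.log N)) (by positivity)
    push_cast
    rw [← hd] at h3
    nlinarith
  obtain ⟨T, hT, hTc, hTg⟩ := h1 N ((le_max_left _ _).trans hN) x s (by
    intro m hm
    have h3 := hD (hsD m hm)
    rw [mem_Icc] at h3
    omega) (by
    have h3 : (energy 1 x (fun m => (s m : ℤ)) : ℝ) ≤ x := by
      exact_mod_cast energy_one x (fun m => (s m : ℤ)) (fun a ha b hb hab => hsi a ha b hb (by exact_mod_cast hab))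
    have h4 : (N : ℝ) ≤ Real.log N ^ C * x := by
      rw [div_le_iff₀ (by positivity)] at hDc
      linarith
    calc (energy 1 x (fun m => (s m : ℤ)) : ℝ) * N ≤ x * (Real.log N ^ C * x) :=
          mul_le_mul h3 h4 (by positivity) (by positivity)
      _ = Real.log N ^ C * (x : ℝ) ^ (2 * 1) := by ring) d hd2 1 (by
    push_cast
    exact one_le_pow₀ (by linarith)) (fun _ => Set.univ)
  have hex : ∃ m ∈ (Fintype.piFinset fun _ : Fin d => Icc 1 x), m ∉ T := by
    by_contra hcon
    push Not at hcon
    have h3 : (Fintype.piFinset fun _ : Fin d => Icc 1 x) ⊆ T := fun m hm => hcon m hm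
    have h4 : ((Fintype.piFinset fun _ : Fin d => Icc 1 x).card : ℝ) = (x : ℝ) ^ d := by
      rw [Fintype.card_piFinset_const, Nat.card_Icc]
      push_cast
      simp
    have h5 : (x : ℝ) ^ d ≤ (x : ℝ) ^ d / Real.log N ^ (A + 3) := by
      rw [← h4]
      refine le_trans ?_ (hTc.trans (le_of_eq (by rw [h4])))
      exact_mod_cast card_le_card h3
    have h6 : (1 : ℝ) < Real.log N ^ (A + 3) := one_lt_pow₀ (by linarith) (by omega)
    have h7 : (0 : ℝ) < (x : ℝ) ^ d := by positivity
    rw [le_div_iff₀ (by positivity)] at h5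
    nlinarith
  obtain ⟨m, hm, hmT⟩ := hex
  have hg := hTg m hm hmT 0
  have hm' : ∀ i, m i ∈ Icc 1 x := fun i => Fintype.mem_piFinset.1 hm i
  have h2d : (2 : ℝ) ^ d ≤ Real.log N ^ (A + 1) := by
    have h3 : (2 : ℝ) ^ d ≤ Real.exp (((A + 1 : ℕ) : ℝ) * Real.log (Real.log N)) := by
      rw [← Real.rpow_natCast, Real.rpow_def_of_pos (by norm_num)]
      apply Real.exp_le_exp.2
      have h4 : Real.log 2 ≤ 1 := by
        have := Real.log_two_lt_d9
        linarith
      have h5 : (0 : ℝ) ≤ d := Nat.cast_nonneg d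
      nlinarith [Real.log_pos (by norm_num : (1 : ℝ) < 2)]
    refine h3.trans (le_of_eq ?_)
    rw [← Real.rpow_natCast, Real.rpow_def_of_pos hlog0]
    ring_nf
  have hsum : ∑ n ∈ Icc 1 N, ind Set.univ n = N := by
    unfold ind
    simp
  have hlow : ∀ v : Fin d → ℝ, (∀ i, v i = 1 ∨ v i = -1) → (N : ℝ) / 2 ^ (d + 1) ≤
      (((Icc 1 N).filter fun n => ∀ i, lr (n + s (m i)) = v i).card : ℝ) := by
    intro v hv
    have h3 := hg v hv
    rw [hsum] at h3
    have h8 : pat Set.univ N (fun i => s (m i)) v = (((Icc 1 N).filter fun n => ∀ i, lr (n + s (m i)) = v i).card : ℝ) := by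
      rw [pat_card _ _ _ _ hv]
      congr 1
      apply congrArg card
      ext n
      simp only [mem_filter, Set.mem_univ, true_and]
    rw [h8] at h3
    have h4 := (abs_le.1 h3).1
    have h5 : (N : ℝ) / Real.log N ^ (A + 3) ≤ N / 2 ^ (d + 1) := by
      apply div_le_div_of_nonneg_left (by positivity) (by positivity)
      calc (2 : ℝ) ^ (d + 1) = 2 ^ d * 2 := pow_succ _ _
        _ ≤ Real.log N ^ (A + 1) * Real.log N ^ 2 := by
            apply mul_le_mul h2d _ (by norm_num) (by positivity)
            nlinarith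
        _ = Real.log N ^ (A + 3) := by rw [← pow_add]
    have h6 : (N : ℝ) / 2 ^ d = N / 2 ^ (d + 1) + N / 2 ^ (d + 1) := by
      rw [pow_succ]
      field_simp
      norm_num
    linarith
  have hinj : Function.Injective fun i => s (m i) := by
    intro i j hij
    by_contra hne
    have h3 := hlow (fun k => if k = i then 1 else -1) (fun k => by
      split_ifs
      · exact Or.inl rfl
      · exact Or.inr rfl)
    have h4 : ((Icc 1 N).filter fun n => ∀ k, lr (n + s (m k)) = if k = i then 1 else -1) = ∅ := by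
      apply filter_eq_empty_iff.2
      intro n _ hn
      have h5 := hn i
      have h6 := hn j
      rw [if_pos rfl] at h5
      rw [if_neg (fun h => hne h.symm)] at h6
      simp only at hij
      rw [hij] at h5
      rw [h5] at h6
      norm_num at h6
    rw [h4, card_empty] at h3
    have h5 : (0 : ℝ) < (N : ℝ) / 2 ^ (d + 1) := by positivity
    push_cast at h3
    linarith
  refine ⟨univ.image fun i => s (m i), ?_, ?_, ?_⟩
  · intro h hh
    rw [mem_image] at hh
    obtain ⟨i, _, rfl⟩ := hh
    exact hsD _ (hm' i)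
  · rw [card_image_of_injective _ hinj, card_univ, Fintype.card_fin]
    exact hd1
  · intro v hv
    have h3 := hlow (fun i => v (s (m i))) (fun i => hv _)
    rw [card_image_of_injective _ hinj, card_univ, Fintype.card_fin]
    refine h3.trans (le_of_eq ?_)
    congr 2
    refine filter_congr fun n _ => ?_
    constructor
    · intro h k hk
      rw [mem_image] at hk
      obtain ⟨i, _, rfl⟩ := hk
      exact h i
    · intro h i
      exact h _ (mem_image_of_mem _ (mem_univ i))

end Pool.Agent.V11296.FP
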