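import Pool.Agent.V11296.FP9
import Pool.Agent.V11296.FP11
import Pool.Agent.V11296.FP3

/-!
Library V11296.FP (helper296), part 12: the topological Chowla property on almost all sets of positions.
-/

set_option autoImplicit false

namespace Pool.Agent.V11296.FP

open Finset
open Pool.Agent.H373R2.T7 (energy)

lemma pi_sq (m : ℕ) (hm : 400 ≤ m) : 2 * m ≤ (m ^ 2).primeCounting := by
  have hmr : (400 : ℝ) ≤ m := by exact_mod_cast hm
  set r := Real.sqrt m with hr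
  have hr2 : r ^ 2 = m := Real.sq_sqrt (Nat.cast_nonneg m)
  have hr20 : 20 ≤ r := by
    apply Real.le_sqrt_of_sq_le
    have : (20 : ℝ) ^ 2 = 400 := by norm_num
    rw [this]
    exact hmr
  have hlr : Real.log r ≤ r := (Real.log_le_sub_one_of_pos (by linarith)).trans (by linarith)
  have hlm : Real.log m = 2 * Real.log r := by
    rw [← hr2, Real.log_pow]
    push_cast
    ring
  have hlm2 : Real.log ((m ^ 2 : ℕ) : ℝ) = 4 * Real.log r := by
    push_cast
    rw [Real.log_pow, hlm]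
    push_cast
    ring
  have hlr0 : 0 < Real.log r := Real.log_pos (by linarith)
  have h1 := Chebyshev.pi_ge (m ^ 2)
  have h2 : Real.log (((m ^ 2 : ℕ) : ℝ) + 1) ≤ 1 + 4 * r := by
    have h3 : ((m ^ 2 : ℕ) : ℝ) + 1 ≤ 2 * ((m ^ 2 : ℕ) : ℝ) := by
      push_cast
      nlinarith
    have h4 : Real.log (((m ^ 2 : ℕ) : ℝ) + 1) ≤ Real.log (2 * ((m ^ 2 : ℕ) : ℝ)) := Real.log_le_log (by positivity) h3
    rw [Real.log_mul (by norm_num) (by positivity), hlm2] at h4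
    have h5 := Real.log_two_lt_d9
    linarith
  have h6 : (2 : ℝ) * m ≤ (((m ^ 2 : ℕ) : ℝ) * Real.log 2 - Real.log (((m ^ 2 : ℕ) : ℝ) + 1)) / Real.log ((m ^ 2 : ℕ) : ℝ) := by
    rw [hlm2, le_div_iff₀ (by positivity)]
    have h7 := Real.log_two_gt_d9
    have h8 : (2 : ℝ) * m * (4 * Real.log r) ≤ 8 * r ^ 3 := by
      rw [← hr2]
      nlinarith [sq_nonneg r]
    have h9 : ((m ^ 2 : ℕ) : ℝ) = r ^ 4 := by
      push_cast
      rw [← hr2]
      ring
    rw [h9] at h2 ⊢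
    have h10 : 20 * r ^ 3 ≤ r ^ 4 := by
      have : (0 : ℝ) ≤ r ^ 3 := by positivity
      nlinarith
    have h11 : 400 * r ≤ r ^ 3 := by nlinarith
    nlinarith
  have h12 : (2 : ℝ) * m ≤ ((m ^ 2).primeCounting : ℝ) := h6.trans h1
  exact_mod_cast h12

lemma two_pow_le (N A d : ℕ) (hlog : 0 < Real.log N) (hd : (d : ℝ) ≤ A * Real.log (Real.log N)) :
    (2 : ℝ) ^ d ≤ Real.log N ^ A := by
  have h3 : (2 : ℝ) ^ d ≤ Real.exp (A * Real.log (Real.log N)) := by
    rw [← Real.rpow_natCast, Real.rpow_def_of_pos (by norm_num)]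
    apply Real.exp_le_exp.2
    have h4 : Real.log 2 ≤ 1 := by
      have := Real.log_two_lt_d9
      linarith
    have h5 : (0 : ℝ) ≤ d := Nat.cast_nonneg d
    nlinarith [Real.log_pos (by norm_num : (1 : ℝ) < 2)]
  refine h3.trans (le_of_eq ?_)
  rw [← Real.rpow_natCast, Real.rpow_def_of_pos hlog]
  ring_nf

open Classical in
/-- all the patterns with values in `{-1, 0, 1}` -/
theorem zpat (p B C A U : ℕ) : ∃ N₀ : ℕ, 3 ≤ N₀ ∧ ∀ N : ℕ, N₀ ≤ N → ∀ (x : ℕ) (s : ℕ → ℕ), (∀ m ∈ Icc 1 x, s m ≤ B * N) →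
    (energy p x (fun m => (s m : ℤ)) : ℝ) * N ≤ Real.log N ^ C * (x : ℝ) ^ (2 * p) →
    ∀ d : ℕ, (d : ℝ) ≤ A * Real.log (Real.log N) →
    ∃ T ⊆ (Fintype.piFinset fun _ : Fin d => Icc 1 x), (T.card : ℝ) ≤ (x : ℝ) ^ d / Real.log N ^ U ∧
      ∀ m ∈ (Fintype.piFinset fun _ : Fin d => Icc 1 x), m ∉ T → ∀ v : Fin d → ℝ, (∀ i, v i = 0 ∨ v i = 1 ∨ v i = -1) →
        ∀ Q : Finset (Fin d), (∀ i, i ∈ Q ↔ v i ≠ 0) →
        |(((Icc 1 N).filter fun n => ∀ i, mr (n + s (m i)) = v i).card : ℝ) -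
          (((Icc 1 N).filter fun n => ∀ i, mr (n + s (m i)) ^ 2 = v i ^ 2).card : ℝ) / 2 ^ Q.card| ≤ N / Real.log N ^ U := by
  obtain ⟨N₀, h3, h⟩ := mainQ p B C A U
  refine ⟨N₀, h3, fun N hN x s hs hen d hd => ?_⟩
  have hNr : (3 : ℝ) ≤ N := by exact_mod_cast h3.trans hN
  have hlog1 : 1 < Real.log N := by
    rw [Real.lt_log_iff_exp_lt (by linarith)]
    have := Real.exp_one_lt_d9
    linarith
  have hlog0 : 0 < Real.log N := by linarith
  let e := Fintype.equivFin (Finset (Fin d))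
  obtain ⟨T, hT, hTc, hTg⟩ := h N hN x s hs hen d hd (Fintype.card (Finset (Fin d))) (by
      rw [Fintype.card_finset, Fintype.card_fin]
      push_cast
      exact two_pow_le N A d hlog0 hd) (fun _ _ => 1) (fun l => qz (e.symm l)) (fun _ _ => by
      rw [abs_one]
      exact one_le_pow₀ hlog1.le) (fun l i n => qz_abs _ _ _)
  refine ⟨T, hT, hTc, fun m hm hmT v hv Q hQ => ?_⟩
  refine cnt3 N (N / Real.log N ^ U) (by positivity) (fun i => s (m i)) v hv Q hQ fun J _ hJ => ?_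
  have h4 := hTg m hm hmT (e Q) J hJ
  simp only [e.symm_apply_apply] at h4
  exact h4

end Pool.Agent.V11296.FP
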