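import Pool.Agent.V11296.FP12

/-!
Library V11296.FP (helper296), part 13: the topological Chowla property on almost all sets of positions.
-/

set_option autoImplicit false

namespace Pool.Agent.V11296.FP

open Finset Filter
open Pool.Agent.H373R2.T7 (energy)

lemma mr_sq_iff (k : ℕ) (v : ℝ) (hv : v = 0 ∨ v = 1 ∨ v = -1) : mr k ^ 2 = v ^ 2 ↔ (Squarefree k ↔ v ≠ 0) := by
  have h1 : Squarefree k ↔ mr k ≠ 0 := by
    unfold mr
    rw [← ArithmeticFunction.moebius_ne_zero_iff_squarefree]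
    simp
  rw [h1]
  rcases hv with h | h | h <;> rcases mr_vals k with h' | h' | h' <;> rw [h, h'] <;> norm_num

open Classical in
theorem topo (A U : ℕ) : ∃ K N₀ : ℕ, ∀ N : ℕ, N₀ ≤ N → ∀ d : ℕ,
    (d : ℝ) ≤ A * Real.log (Real.log N) / Real.log (Real.log (Real.log N)) →
    ∃ T ⊆ (Fintype.piFinset fun _ : Fin d => Icc 1 N), (T.card : ℝ) ≤ (N : ℝ) ^ d / Real.log (Real.log N) ^ U ∧
      ∀ h ∈ (Fintype.piFinset fun _ : Fin d => Icc 1 N), h ∉ T → ∀ v : Fin d → ℝ, (∀ i, v i = 0 ∨ v i = 1 ∨ v i = -1) →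
        ∀ n0 : ℕ, (∀ i, mr (n0 + h i) ^ 2 = v i ^ 2) →
          (N : ℝ) / Real.log N ^ K ≤ (((Icc 1 N).filter fun n => ∀ i, mr (n + h i) = v i).card : ℝ) := by
  set K1 : ℕ := A * (32 + 4 * U) with hK1
  set c0 : ℝ := 4 * A + 4 * A ^ 2 + 403 with hc0
  obtain ⟨N1, h31, hz⟩ := zpat 1 1 0 A (K1 + A + U + 2)
  have hE1 : ∀ᶠ N : ℕ in atTop, c0 ≤ Real.log (Real.log N) :=
    (Real.tendsto_log_atTop.comp (Real.tendsto_log_atTop.comp tendsto_natCast_atTop_atTop)).eventually_ge_atTop c0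
  have hE2 : ∀ᶠ N : ℕ in atTop, Real.log N ^ (2 * (K1 + 2 * A + 1)) ≤ N := by
    have h1 := (Real.isLittleO_pow_log_id_atTop (n := 2 * (K1 + 2 * A + 1))).bound (by norm_num : (0 : ℝ) < 1)
    have h2 := tendsto_natCast_atTop_atTop (R := ℝ) |>.eventually h1
    filter_upwards [h2] with N hN
    rw [one_mul, Real.norm_eq_abs, id, Real.norm_eq_abs, Nat.abs_cast] at hN
    exact (le_abs_self _).trans hN
  obtain ⟨N2, h2⟩ := (hE1.and hE2).exists_forall_of_atTop
  refine ⟨K1 + A + 1, max N1 N2, fun N hN d hd => ?_⟩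
  have hN1 : N1 ≤ N := (le_max_left _ _).trans hN
  obtain ⟨hLc, hNy⟩ := h2 N ((le_max_right _ _).trans hN)
  have hN3 : (3 : ℝ) ≤ N := by exact_mod_cast h31.trans hN1
  set y := Real.log N with hy
  set LL := Real.log y with hLL
  have hA0 : (0 : ℝ) ≤ A := Nat.cast_nonneg A
  have hLL403 : 403 ≤ LL := by
    have : (0 : ℝ) ≤ 4 * A + 4 * A ^ 2 := by positivity
    linarith
  have hy0 : 0 < y := Real.log_pos (by linarith)
  have hyLL : LL ≤ y := (Real.log_le_sub_one_of_pos hy0).trans (by linarith)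
  have hy403 : 403 ≤ y := hLL403.trans hyLL
  have hLL0 : 0 < LL := by linarith
  have hLLL : 1 ≤ Real.log LL := by
    rw [Real.le_log_iff_exp_le hLL0]
    have := Real.exp_one_lt_d9
    linarith
  have hd0 : (0 : ℝ) ≤ d := Nat.cast_nonneg d
  have hdLLL : d * Real.log LL ≤ A * LL := by
    rwa [le_div_iff₀ (by linarith)] at hd
  have hdA : (d : ℝ) ≤ A * LL := by nlinarith
  have h2d : (2 : ℝ) ^ d ≤ y ^ A := two_pow_le N A d hy0 hdA
  have hLd : LL ^ d ≤ y ^ A := by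
    have h3 : LL ^ d = Real.exp (d * Real.log LL) := by
      rw [← Real.rpow_natCast, Real.rpow_def_of_pos hLL0, mul_comm]
    have h4 : y ^ A = Real.exp (A * LL) := by
      rw [← Real.rpow_natCast, Real.rpow_def_of_pos hy0, mul_comm]
    rw [h3, h4]
    exact Real.exp_le_exp.2 hdLLL
  rcases Nat.eq_zero_or_pos d with hdz | hd1
  · subst hdz
    refine ⟨∅, empty_subset _, by rw [card_empty]; push_cast; positivity, fun h _ _ v _ n0 _ => ?_⟩
    have h3 : ((Icc 1 N).filter fun n => ∀ i : Fin 0, mr (n + h i) = v i) = Icc 1 N := by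
      apply filter_true_of_mem
      intro n _ i
      exact i.elim0
    rw [h3, Nat.card_Icc]
    simp only [Nat.add_sub_cancel]
    exact div_le_self (Nat.cast_nonneg N) (one_le_pow₀ (by linarith))
  set m := ⌈LL ^ (U + 3)⌉₊ with hm
  have hmge : LL ^ (U + 3) ≤ m := Nat.le_ceil _
  have hLLp : 1 ≤ LL ^ (U + 3) := one_le_pow₀ (by linarith)
  have hmle : (m : ℝ) ≤ LL ^ (U + 4) := by
    have h3 : (m : ℝ) < LL ^ (U + 3) + 1 := Nat.ceil_lt_add_one (by positivity)
    have h4 : LL ^ (U + 4) = LL ^ (U + 3) * LL := pow_succ _ _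
    nlinarith
  have hLLm : LL ^ 2 ≤ m := (pow_le_pow_right₀ (by linarith) (by omega)).trans hmge
  have hLLm1 : LL ≤ m := by nlinarith
  have hm400 : 400 ≤ m := by
    have : (400 : ℝ) ≤ m := by linarith
    exact_mod_cast this
  have hdm : 4 * d ≤ m := by
    have h3 : 4 * (d : ℝ) ≤ m := by
      have h4 : (4 : ℝ) * A ≤ LL := by nlinarith
      nlinarith
    exact_mod_cast h3
  set R := 4 ^ (8 * d) * m ^ (4 * d) with hR
  have hRy : (R : ℝ) ≤ y ^ K1 := by
    rw [hR]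
    push_cast
    have h3 : (4 : ℝ) ^ (8 * d) ≤ y ^ (16 * A) := by
      have h4 : (4 : ℝ) ^ (8 * d) = (2 ^ d) ^ 16 := by
        rw [show (4 : ℝ) = 2 ^ 2 by norm_num, ← pow_mul, ← pow_mul]
        congr 1
        ring
      rw [h4, mul_comm 16 A, pow_mul]
      exact pow_le_pow_left₀ (by positivity) h2d 16
    have h5 : (m : ℝ) ^ (4 * d) ≤ y ^ (A * (4 * (U + 4))) := by
      calc (m : ℝ) ^ (4 * d) ≤ (LL ^ (U + 4)) ^ (4 * d) := pow_le_pow_left₀ (Nat.cast_nonneg m) hmle _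
        _ = (LL ^ d) ^ (4 * (U + 4)) := by rw [← pow_mul, ← pow_mul]; congr 1; ring
        _ ≤ (y ^ A) ^ (4 * (U + 4)) := pow_le_pow_left₀ (by positivity) hLd _
        _ = y ^ (A * (4 * (U + 4))) := (pow_mul y A _).symm
    calc (4 : ℝ) ^ (8 * d) * (m : ℝ) ^ (4 * d) ≤ y ^ (16 * A) * y ^ (A * (4 * (U + 4))) :=
          mul_le_mul h3 h5 (by positivity) (by positivity)
      _ = y ^ K1 := by rw [← pow_add, hK1]; congr 1; ring
  have hR1 : 1 ≤ R := Nat.mul_pos (pow_pos (by norm_num) _) (pow_pos (by omega) _)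
  have hR2 : (2 * R * (1 + 2 * d)) ^ 2 ≤ N := by
    have h3 : (1 : ℝ) + 2 * d ≤ y ^ (2 * A) := by
      have h4 : (1 : ℝ) + d * 2 ≤ (1 + 2) ^ d := one_add_mul_le_pow (by norm_num) d
      have h5 : ((1 : ℝ) + 2) ^ d ≤ 4 ^ d := pow_le_pow_left₀ (by norm_num) (by norm_num) d
      have h6 : (4 : ℝ) ^ d = (2 ^ d) ^ 2 := by
        rw [show (4 : ℝ) = 2 ^ 2 by norm_num, ← pow_mul, ← pow_mul, mul_comm]
      have h7 : ((2 : ℝ) ^ d) ^ 2 ≤ (y ^ A) ^ 2 := pow_le_pow_left₀ (by positivity) h2d 2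
      have h8 : (y ^ A) ^ 2 = y ^ (2 * A) := by rw [← pow_mul, mul_comm]
      linarith
    have h9 : 2 * (R : ℝ) * (1 + 2 * d) ≤ y ^ (K1 + 2 * A + 1) := by
      have h10 : y ^ (K1 + 2 * A + 1) = y * y ^ K1 * y ^ (2 * A) := by rw [pow_succ, pow_add]; ring
      rw [h10]
      have h11 : 2 * (R : ℝ) ≤ y * y ^ K1 := mul_le_mul (by linarith) hRy (by positivity) (by positivity)
      exact mul_le_mul h11 h3 (by positivity) (by positivity)
    have h12 : (2 * (R : ℝ) * (1 + 2 * d)) ^ 2 ≤ N := by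
      refine (pow_le_pow_left₀ (by positivity) h9 2).trans ?_
      rw [← pow_mul, mul_comm _ 2]
      exact hNy
    exact_mod_cast h12
  have hm3 : m ^ 3 ≤ N := by
    have h3 : m ^ 3 ≤ m ^ (4 * d) := Nat.pow_le_pow_right (by omega) (by omega)
    have h4 : m ^ (4 * d) ≤ R := by
      rw [hR]
      exact Nat.le_mul_of_pos_left _ (pow_pos (by norm_num) _)
    have h5 : R ≤ (2 * R * (1 + 2 * d)) ^ 2 := by
      have h6 : R ≤ 2 * R * (1 + 2 * d) := by nlinarith
      nlinarith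
    omega
  obtain ⟨T1, hT1, hT1c, hT1g⟩ := hz N hN1 N (fun m => m) (fun m hm => by rw [mem_Icc] at hm; omega) (by
      have h3 : ((energy 1 N (fun m => (m : ℤ)) : ℕ) : ℝ) ≤ N := by
        exact_mod_cast energy_one N (fun m => (m : ℤ)) (fun a _ b _ hab => by exact_mod_cast hab)
      have h4 : (0 : ℝ) ≤ N := Nat.cast_nonneg N
      rw [pow_zero, one_mul]
      calc _ ≤ (N : ℝ) * N := mul_le_mul_of_nonneg_right h3 h4
        _ = (N : ℝ) ^ (2 * 1) := by ring) d hdA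
  set T2 := ((Fintype.piFinset fun _ : Fin d => Icc 1 N).filter (fun h => ¬ ∀ p : ℕ, p.Prime → m < p → p ≤ m ^ 2 → ∀ i j, i ≠ j →
      ¬ ((p : ℤ) ^ 2 ∣ (h i : ℤ) - h j))) with hT2
  have hT2c := badtuples N m d (by omega) hm3
  refine ⟨T1 ∪ T2, union_subset hT1 (filter_subset _ _), ?_, ?_⟩
  · have h3 : ((T1 ∪ T2).card : ℝ) ≤ T1.card + T2.card := by exact_mod_cast card_union_le _ _
    have h4 : (N : ℝ) ^ d / y ^ (K1 + A + U + 2) ≤ (N : ℝ) ^ d * (1 / (2 * LL ^ U)) := by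
      rw [div_eq_mul_one_div]
      apply mul_le_mul_of_nonneg_left _ (by positivity)
      apply one_div_le_one_div_of_le (by positivity)
      calc 2 * LL ^ U ≤ y * y ^ U := mul_le_mul (by linarith) (pow_le_pow_left₀ hLL0.le hyLL U) (by positivity) (by positivity)
        _ = y ^ (U + 1) := by rw [pow_succ]; ring
        _ ≤ y ^ (K1 + A + U + 2) := pow_le_pow_right₀ (by linarith) (by omega)
    have h5 : (N : ℝ) ^ d * (2 * d ^ 2 / m) ≤ (N : ℝ) ^ d * (1 / (2 * LL ^ U)) := by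
      apply mul_le_mul_of_nonneg_left _ (by positivity)
      have hm0 : (0 : ℝ) < m := by linarith
      rw [div_le_div_iff₀ hm0 (by positivity)]
      have h6 : (d : ℝ) ^ 2 ≤ A ^ 2 * LL ^ 2 := by
        rw [← mul_pow]
        exact pow_le_pow_left₀ hd0 hdA 2
      have h7 : 4 * (A : ℝ) ^ 2 ≤ LL := by nlinarith
      have h8 : LL ^ (U + 3) = LL ^ U * LL ^ 2 * LL := by ring
      have h9 : 0 ≤ LL ^ U * LL ^ 2 := by positivity
      calc 2 * (d : ℝ) ^ 2 * (2 * LL ^ U) ≤ 2 * (A ^ 2 * LL ^ 2) * (2 * LL ^ U) := by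
            apply mul_le_mul_of_nonneg_right _ (by positivity)
            linarith
        _ = (LL ^ U * LL ^ 2) * (4 * A ^ 2) := by ring
        _ ≤ (LL ^ U * LL ^ 2) * LL := mul_le_mul_of_nonneg_left h7 h9
        _ = LL ^ (U + 3) := h8.symm
        _ ≤ 1 * m := by rw [one_mul]; exact hmge
    have h10 : (N : ℝ) ^ d * (1 / (2 * LL ^ U)) + (N : ℝ) ^ d * (1 / (2 * LL ^ U)) = (N : ℝ) ^ d / LL ^ U := by
      field_simp
      ring
    linarith
  · intro h hh hhT v hv n0 hn0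
    rw [mem_union, not_or] at hhT
    have hgood : ∀ p : ℕ, p.Prime → m < p → p ≤ m ^ 2 → ∀ i j, i ≠ j → ¬ ((p : ℤ) ^ 2 ∣ (h i : ℤ) - h j) := by
      by_contra hcon
      apply hhT.2
      rw [hT2, mem_filter]
      exact ⟨hh, hcon⟩
    set Q : Finset (Fin d) := univ.filter (fun i => v i ≠ 0) with hQ
    have hQi : ∀ i, i ∈ Q ↔ v i ≠ 0 := by
      intro i
      rw [hQ, mem_filter]
      simp
    have h3 := hT1g h hh hhT.1 v hv Q hQi
    have h4 : ((Icc 1 N).filter fun n => ∀ i, mr (n + h i) ^ 2 = v i ^ 2) =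
        (Icc 1 N).filter fun n => ∀ i, Squarefree (n + h i) ↔ i ∈ Q := by
      refine filter_congr fun n _ => forall_congr' fun i => ?_
      rw [hQi, mr_sq_iff _ _ (hv i)]
    rw [h4] at h3
    have h5 := lower hd1 m hdm (pi_sq m hm400) N h (fun i => (mem_Icc.1 (Fintype.mem_piFinset.1 hh i)).2) hgood n0 Q
      (fun i => by
        have h6 := (mr_sq_iff _ _ (hv i)).1 (hn0 i)
        rw [hQi]
        exact h6.symm) R rfl hR2
    have h6 : (2 : ℝ) ^ Q.card ≤ y ^ A := by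
      refine le_trans (pow_le_pow_right₀ (by norm_num) ?_) h2d
      exact (card_le_univ _).trans (by rw [Fintype.card_fin])
    have h7 : (N : ℝ) / (4 * y ^ K1 * y ^ A) ≤
        (((Icc 1 N).filter fun n => ∀ i, Squarefree (n + h i) ↔ i ∈ Q).card : ℝ) / 2 ^ Q.card := by
      rw [← div_div]
      apply div_le_div₀ (Nat.cast_nonneg _) _ (by positivity) h6
      refine le_trans ?_ h5
      apply div_le_div_of_nonneg_left (Nat.cast_nonneg N) (by positivity)
      linarith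
    have h8 : (N : ℝ) / y ^ (K1 + A + U + 2) ≤ N / (8 * y ^ (K1 + A)) := by
      apply div_le_div_of_nonneg_left (Nat.cast_nonneg N) (by positivity)
      have h9 : y ^ (K1 + A + U + 2) = y ^ (U + 2) * y ^ (K1 + A) := by rw [← pow_add]; congr 1; ring
      rw [h9]
      apply mul_le_mul_of_nonneg_right _ (by positivity)
      calc (8 : ℝ) ≤ y := by linarith
        _ = y ^ 1 := (pow_one y).symm
        _ ≤ y ^ (U + 2) := pow_le_pow_right₀ (by linarith) (by omega)
    have h10 : (N : ℝ) / y ^ (K1 + A + 1) ≤ N / (8 * y ^ (K1 + A)) := by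
      apply div_le_div_of_nonneg_left (Nat.cast_nonneg N) (by positivity)
      rw [pow_succ]
      have h13 : 0 < y ^ (K1 + A) := by positivity
      nlinarith
    have h11 : (N : ℝ) / (4 * y ^ K1 * y ^ A) = N / (8 * y ^ (K1 + A)) + N / (8 * y ^ (K1 + A)) := by
      rw [pow_add]
      field_simp
      ring
    have h12 := (abs_le.1 h3).1
    linarith

end Pool.Agent.V11296.FP
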