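import Pool.Agent.V11296.FP12

/-!
Library V11296.FP (helper296), part 14: shifts of arbitrary sequences with few repetitions.
-/

set_option autoImplicit false

namespace Pool.Agent.V11296.FP

open Finset
open Pool.Agent.H373R2.T7 (exI energy few_e SupSmall sup_liou liR liR_norm)

/-- weighted correlation of `λ` along the sequences `f i n + t i` -/
noncomputable def wf {ι : Type} (w : ℕ → ℝ) (f : ι → ℕ → ℕ) (N : ℕ) (t : ι → ℕ) (J : Finset ι) : ℝ :=
  ∑ n ∈ Icc 1 N, w n * ∏ i ∈ J, lr (f i n + t i)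

/-- one correlation: few tuples are bad -/
lemma one_wf (N x : ℕ) (s : ℕ → ℕ) (β : ℝ) (κ : ℝ) (hκ : 0 ≤ κ) (B : ℕ) (hB : 1 ≤ B)
    (hfew : ∀ G : ℕ → ℂ, (∀ a, ‖G a‖ ≤ 1) →
      (((Icc 1 x).filter (fun m : ℕ => β < ‖∑ a ∈ Icc 1 (B * N), G a * exI liR ((a : ℤ) + ((s m : ℕ) : ℤ))‖)).card : ℝ) ≤ κ * x)
    {d : ℕ} (w : ℕ → ℝ) (f : Fin d → ℕ → ℕ) (W : ℝ) (hW : 0 < W) (hw : ∀ n ∈ Icc 1 N, |w n| ≤ W)
    (hf1 : ∀ i, ∀ n ∈ Icc 1 N, 1 ≤ f i n ∧ f i n ≤ B * N)
    (hf2 : ∀ i a, ((Icc 1 N).filter fun n => f i n = a).card ≤ B)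
    (J : Finset (Fin d)) (hJ : J.Nonempty) :
    (((Fintype.piFinset fun _ : Fin d => Icc 1 x).filter (fun m => W * B * β < |wf w f N (fun i => s (m i)) J|)).card : ℝ) ≤
      κ * (x : ℝ) ^ d := by
  classical
  obtain ⟨k, hk⟩ := hJ
  have hBr : (1 : ℝ) ≤ B := by exact_mod_cast hB
  have hWB : 0 < W * B := by positivity
  have hx : ((Icc 1 x).card : ℝ) = x := by rw [Nat.card_Icc]; simp
  have hpi : ((Fintype.piFinset fun _ : Fin d => Icc 1 x).card : ℝ) = (x : ℝ) ^ d := by
    rw [Fintype.card_piFinset_const, Nat.card_Icc]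
    push_cast
    simp
  have key := upd_card (Icc 1 x) k (fun m : Fin d → ℕ => W * B * β < |wf w f N (fun i => s (m i)) J|) (κ * x) (by
    intro m _
    set g : ℕ → ℝ := fun a => (∑ n ∈ (Icc 1 N).filter (fun n => f k n = a),
      w n * ∏ i ∈ J.erase k, lr (f i n + s (m i))) / (W * B) with hg
    have hG1 : ∀ a, ‖((g a : ℝ) : ℂ)‖ ≤ 1 := by
      intro a
      rw [hg]
      simp only
      rw [Complex.norm_real, Real.norm_eq_abs, abs_div, abs_of_pos hWB, div_le_one hWB]
      refine (abs_sum_le_sum_abs _ _).trans ?_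
      have h1 : ∀ n ∈ (Icc 1 N).filter (fun n => f k n = a), |w n * ∏ i ∈ J.erase k, lr (f i n + s (m i))| ≤ W := by
        intro n hn
        rw [abs_mul, abs_prod]
        have h2 : ∏ i ∈ J.erase k, |lr (f i n + s (m i))| = 1 := prod_eq_one fun _ _ => lr_abs _
        rw [h2, mul_one]
        exact hw n (mem_filter.1 hn).1
      refine (sum_le_sum h1).trans ?_
      rw [sum_const, nsmul_eq_mul, mul_comm W]
      exact mul_le_mul_of_nonneg_right (by exact_mod_cast hf2 k a) hW.le
    refine le_trans (le_of_eq ?_) (hfew (fun a => ((g a : ℝ) : ℂ)) hG1)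
    congr 2
    refine filter_congr fun y _ => ?_
    have e1 : W * B * ‖∑ a ∈ Icc 1 (B * N), ((g a : ℝ) : ℂ) * exI liR ((a : ℤ) + ((s y : ℕ) : ℤ))‖ =
        |wf w f N (fun i => s (Function.update m k y i)) J| := by
      have e2 : ∑ a ∈ Icc 1 (B * N), ((g a : ℝ) : ℂ) * exI liR ((a : ℤ) + ((s y : ℕ) : ℤ)) =
          ((wf w f N (fun i => s (Function.update m k y i)) J / (W * B) : ℝ) : ℂ) := by
        have e3 : ∀ a ∈ Icc 1 (B * N), ((g a : ℝ) : ℂ) * exI liR ((a : ℤ) + ((s y : ℕ) : ℤ)) =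
            (((∑ n ∈ (Icc 1 N).filter (fun n => f k n = a),
              w n * ∏ i ∈ J, lr (f i n + s (Function.update m k y i))) / (W * B) : ℝ) : ℂ) := by
          intro a ha
          rw [mem_Icc] at ha
          rw [exI_lr a (s y) ha.1, ← Complex.ofReal_mul]
          congr 1
          rw [hg]
          simp only
          rw [div_mul_eq_mul_div, sum_mul]
          congr 1
          refine sum_congr rfl fun n hn => ?_
          rw [← mul_prod_erase J _ hk]
          simp only [Function.update_self]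
          have h1 : ∏ i ∈ J.erase k, lr (f i n + s (Function.update m k y i)) = ∏ i ∈ J.erase k, lr (f i n + s (m i)) := by
            refine prod_congr rfl fun i hi => ?_
            rw [Function.update_of_ne (ne_of_mem_erase hi)]
          rw [h1, (mem_filter.1 hn).2]
          ring
        rw [sum_congr rfl e3, ← Complex.ofReal_sum, ← sum_div]
        congr 2
        unfold wf
        exact sum_fiberwise_of_maps_to (fun n hn => mem_Icc.2 (hf1 k n hn)) _
      rw [e2, Complex.norm_real, Real.norm_eq_abs, abs_div, abs_of_pos hWB]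
      field_simp
    rw [← e1]
    constructor
    · intro h
      exact lt_of_mul_lt_mul_left h hWB.le
    · intro h
      exact mul_lt_mul_of_pos_left h hWB)
  rw [hx, hpi] at key
  rcases Nat.eq_zero_or_pos x with h0 | h0
  · have hempty : (Fintype.piFinset fun _ : Fin d => Icc 1 x) = ∅ := by
      apply Finset.eq_empty_of_forall_notMem
      intro m hm
      have h1 := Fintype.mem_piFinset.1 hm k
      rw [h0, mem_Icc] at h1
      omega
    rw [hempty, filter_empty, card_empty]
    push_cast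
    positivity
  · have hx0 : (0 : ℝ) < x := by exact_mod_cast h0
    have h2 : (x : ℝ) ^ d * (κ * x) = x * (κ * (x : ℝ) ^ d) := by ring
    rw [h2] at key
    exact le_of_mul_le_mul_left key hx0

/-- the main estimate along sequences with few repetitions -/
theorem mainF (p B C A U : ℕ) : ∃ N₀ : ℕ, 3 ≤ N₀ ∧ ∀ N : ℕ, N₀ ≤ N → ∀ (x : ℕ) (s : ℕ → ℕ), (∀ m ∈ Icc 1 x, s m ≤ B * N) →
    (energy p x (fun m => (s m : ℤ)) : ℝ) * N ≤ Real.log N ^ C * (x : ℝ) ^ (2 * p) →
    ∀ d : ℕ, (d : ℝ) ≤ A * Real.log (Real.log N) → ∀ L : ℕ, (L : ℝ) ≤ Real.log N ^ A →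
    ∀ (w : Fin L → ℕ → ℝ) (f : Fin L → Fin d → ℕ → ℕ), (∀ l, ∀ n ∈ Icc 1 N, |w l n| ≤ Real.log N ^ A) →
    (∀ l i, ∀ n ∈ Icc 1 N, 1 ≤ f l i n ∧ f l i n ≤ B * N) → (∀ l i a, ((Icc 1 N).filter fun n => f l i n = a).card ≤ B) →
    ∃ T ⊆ (Fintype.piFinset fun _ : Fin d => Icc 1 x), (T.card : ℝ) ≤ (x : ℝ) ^ d / Real.log N ^ U ∧
      ∀ m ∈ (Fintype.piFinset fun _ : Fin d => Icc 1 x), m ∉ T → ∀ l, ∀ J : Finset (Fin d), J.Nonempty →
        |wf (w l) (f l) N (fun i => s (m i)) J| ≤ N / Real.log N ^ U := by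
  classical
  obtain ⟨N1, h1⟩ := few_e liR liR_norm sup_liou p (B + 1) C (U + 2 * A + 1)
  obtain ⟨N2, hN2⟩ := exists_nat_ge (Real.exp (B + 1))
  refine ⟨max (max N1 N2) 3, le_max_right _ _, fun N hN x s hs hen d hd L hL w f hw hf1 hf2 => ?_⟩
  have hN1 : N1 ≤ N := ((le_max_left _ _).trans (le_max_left _ _)).trans hN
  have hNN2 : N2 ≤ N := ((le_max_right _ _).trans (le_max_left _ _)).trans hN
  have hN3 : 3 ≤ N := (le_max_right _ _).trans hN
  have hNr : (3 : ℝ) ≤ N := by exact_mod_cast hN3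
  have hlogB : (B : ℝ) + 1 ≤ Real.log N := by
    rw [Real.le_log_iff_exp_le (by linarith)]
    exact hN2.trans (by exact_mod_cast hNN2)
  have hlog1 : 1 < Real.log N := by
    rw [Real.lt_log_iff_exp_lt (by linarith)]
    have := Real.exp_one_lt_d9
    linarith
  have hlog0 : 0 < Real.log N := by linarith
  set κ : ℝ := 1 / Real.log N ^ (U + 2 * A + 1) with hκ
  have hκ0 : 0 ≤ κ := by positivity
  set W : ℝ := Real.log N ^ A with hWd
  have hW0 : 0 < W := by positivity
  have hfew : ∀ G : ℕ → ℂ, (∀ a, ‖G a‖ ≤ 1) →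
      (((Icc 1 x).filter (fun m : ℕ => N / Real.log N ^ (U + 2 * A + 1) < ‖∑ a ∈ Icc 1 ((B + 1) * N), G a * exI liR ((a : ℤ) + ((s m : ℕ) : ℤ))‖)).card : ℝ) ≤ κ * x := by
    intro G hG
    have h2 := h1 N hN1 x (fun m => (s m : ℤ)) (by
      intro m hm
      have h3 := hs m hm
      have h4 : ((s m : ℕ) : ℤ) ≤ ((B * N : ℕ) : ℤ) := by exact_mod_cast h3
      rw [abs_of_nonneg (by positivity)]
      push_cast at h4 ⊢
      nlinarith) hen ((B + 1) * N) le_rfl G hG
    refine h2.trans (le_of_eq ?_)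
    rw [hκ]
    ring
  have h2d : (2 : ℝ) ^ d ≤ Real.log N ^ A := two_pow_le N A d hlog0 hd
  set P := (Fintype.piFinset fun _ : Fin d => Icc 1 x) with hP
  set Q : Finset (Fin L × Finset (Fin d)) := univ.filter (fun q => q.2.Nonempty) with hQ
  set β : ℝ := N / Real.log N ^ (U + 2 * A + 1) with hβ
  refine ⟨Q.biUnion (fun z => P.filter (fun m => W * (B + 1 : ℕ) * β < |wf (w z.1) (f z.1) N (fun i => s (m i)) z.2|)), ?_, ?_, ?_⟩
  · intro m hm
    rw [mem_biUnion] at hm
    obtain ⟨z, _, hz⟩ := hm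
    exact (mem_filter.1 hz).1
  · have h3 : ((Q.biUnion (fun z => P.filter (fun m => W * (B + 1 : ℕ) * β < |wf (w z.1) (f z.1) N (fun i => s (m i)) z.2|))).card : ℝ) ≤
        ∑ z ∈ Q, ((P.filter (fun m => W * (B + 1 : ℕ) * β < |wf (w z.1) (f z.1) N (fun i => s (m i)) z.2|)).card : ℝ) := by
      exact_mod_cast card_biUnion_le
    refine h3.trans ((sum_le_sum fun z hz => one_wf N x s β κ hκ0 (B + 1) (by omega) hfew (w z.1) (f z.1) W hW0 (hw z.1)
      (fun i n hn => ⟨(hf1 z.1 i n hn).1, (hf1 z.1 i n hn).2.trans (by nlinarith)⟩)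
      (fun i a => (hf2 z.1 i a).trans (by omega)) z.2
      (by rw [hQ, mem_filter] at hz; exact hz.2)).trans ?_)
    rw [sum_const, nsmul_eq_mul]
    have h4 : (Q.card : ℝ) ≤ L * 2 ^ d := by
      have h5 : Q.card ≤ (univ : Finset (Fin L × Finset (Fin d))).card := card_le_card (filter_subset _ _)
      have h6 : (univ : Finset (Fin L × Finset (Fin d))).card = L * 2 ^ d := by
        rw [card_univ, Fintype.card_prod, Fintype.card_fin, Fintype.card_finset, Fintype.card_fin]
      rw [h6] at h5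
      exact_mod_cast h5
    have h7 : (L : ℝ) * 2 ^ d ≤ Real.log N ^ A * Real.log N ^ A := mul_le_mul hL h2d (by positivity) (by positivity)
    have h8 : Real.log N ^ A * Real.log N ^ A * κ ≤ 1 / Real.log N ^ U := by
      rw [hκ]
      have h9 : Real.log N ^ (U + 2 * A + 1) = Real.log N ^ U * (Real.log N ^ A * Real.log N ^ A) * Real.log N := by ring
      rw [h9]
      have h10 : Real.log N ^ A * Real.log N ^ A * (1 / (Real.log N ^ U * (Real.log N ^ A * Real.log N ^ A) * Real.log N)) =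
          1 / Real.log N ^ U / Real.log N := by
        field_simp
      rw [h10]
      exact div_le_self (by positivity) hlog1.le
    calc (Q.card : ℝ) * (κ * (x : ℝ) ^ d) ≤ (Real.log N ^ A * Real.log N ^ A) * (κ * (x : ℝ) ^ d) :=
          mul_le_mul_of_nonneg_right (h4.trans h7) (by positivity)
      _ = (Real.log N ^ A * Real.log N ^ A * κ) * (x : ℝ) ^ d := by ring
      _ ≤ 1 / Real.log N ^ U * (x : ℝ) ^ d := mul_le_mul_of_nonneg_right h8 (by positivity)
      _ = (x : ℝ) ^ d / Real.log N ^ U := by ring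
  · intro m hm hmT l J hJ
    have h9 : |wf (w l) (f l) N (fun i => s (m i)) J| ≤ W * (B + 1 : ℕ) * β := by
      by_contra hcon
      push Not at hcon
      apply hmT
      rw [mem_biUnion]
      exact ⟨(l, J), by rw [hQ, mem_filter]; exact ⟨mem_univ _, hJ⟩, by rw [mem_filter]; exact ⟨hm, hcon⟩⟩
    refine h9.trans ?_
    rw [hβ, hWd]
    have h10 : Real.log N ^ A * (B + 1 : ℕ) * (N / Real.log N ^ (U + 2 * A + 1)) ≤
        Real.log N ^ A * Real.log N * (N / Real.log N ^ (U + 2 * A + 1)) := by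
      apply mul_le_mul_of_nonneg_right _ (by positivity)
      apply mul_le_mul_of_nonneg_left _ (by positivity)
      push_cast
      exact hlogB
    refine h10.trans ?_
    have h11 : Real.log N ^ A * Real.log N * (N / Real.log N ^ (U + 2 * A + 1)) = N / Real.log N ^ (U + A) := by
      rw [show U + 2 * A + 1 = (U + A) + (A + 1) by ring, pow_add _ (U + A) (A + 1), pow_succ _ A]
      field_simp
    rw [h11]
    apply div_le_div_of_nonneg_left (by positivity) (by positivity)
    exact pow_le_pow_right₀ hlog1.le (by omega)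

open Classical in
/-- the count from the correlations -/
lemma cnt_wf (N : ℕ) (η : ℝ) (hη : 0 ≤ η) {d : ℕ} (E : Set ℕ) (f : Fin d → ℕ → ℕ) (t : Fin d → ℕ)
    (h : ∀ J : Finset (Fin d), J.Nonempty → |wf (ind E) f N t J| ≤ η) (v : Fin d → ℝ)
    (hv : ∀ i, v i = 1 ∨ v i = -1) :
    |(((Icc 1 N).filter fun n => n ∈ E ∧ ∀ i, lr (f i n + t i) = v i).card : ℝ) -
      (((Icc 1 N).filter fun n => n ∈ E).card : ℝ) / 2 ^ d| ≤ η := by
  have e1 : (((Icc 1 N).filter fun n => n ∈ E ∧ ∀ i, lr (f i n + t i) = v i).card : ℝ) =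
      ∑ n ∈ Icc 1 N, ind E n * ∏ i, ((1 + v i * lr (f i n + t i)) / 2) := by
    rw [← sum_boole]
    refine sum_congr rfl fun n _ => ?_
    unfold ind
    by_cases h1 : n ∈ E
    · rw [if_pos h1, one_mul]
      by_cases h2 : ∀ i, lr (f i n + t i) = v i
      · rw [if_pos ⟨h1, h2⟩]
        symm
        apply prod_eq_one
        intro i _
        rw [h2 i]
        rcases hv i with h | h <;> rw [h] <;> norm_num
      · rw [if_neg (fun h => h2 h.2)]
        push Not at h2
        obtain ⟨i, hi⟩ := h2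
        symm
        apply prod_eq_zero (mem_univ i)
        rcases hv i with h | h <;> rcases lr_pm (f i n + t i) with h' | h' <;> rw [h, h'] at hi ⊢ <;>
          first | exact absurd rfl hi | norm_num
    · rw [if_neg h1, zero_mul, if_neg (fun h => h1 h.1)]
  have e3 : ∑ n ∈ Icc 1 N, ind E n * ∏ i, ((1 + v i * lr (f i n + t i)) / 2) =
      (∑ J ∈ (univ : Finset (Fin d)).powerset, (∏ i ∈ J, v i) * wf (ind E) f N t J) / 2 ^ d := by
    unfold wf
    have : ∀ n ∈ Icc 1 N, ind E n * ∏ i, ((1 + v i * lr (f i n + t i)) / 2) =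
        (∑ J ∈ (univ : Finset (Fin d)).powerset, (∏ i ∈ J, v i) * (ind E n * ∏ i ∈ J, lr (f i n + t i))) / 2 ^ d := by
      intro n _
      rw [prod_div_distrib, prod_const, card_univ, Fintype.card_fin, prod_one_add, mul_div_assoc', mul_sum]
      congr 1
      refine sum_congr rfl fun J _ => ?_
      rw [prod_mul_distrib]
      ring
    rw [sum_congr rfl this, ← sum_div, sum_comm]
    congr 1
    refine sum_congr rfl fun J _ => ?_
    rw [mul_sum]
  have e4 : ∑ J ∈ (univ : Finset (Fin d)).powerset, (∏ i ∈ J, v i) * wf (ind E) f N t J =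
      (∑ n ∈ Icc 1 N, ind E n) +
        ∑ J ∈ (univ : Finset (Fin d)).powerset.erase ∅, (∏ i ∈ J, v i) * wf (ind E) f N t J := by
    rw [← add_sum_erase _ _ (mem_powerset.2 (empty_subset (univ : Finset (Fin d))))]
    congr 1
    unfold wf
    simp
  have hc : ((univ : Finset (Fin d)).powerset.card : ℝ) = 2 ^ d := by
    rw [card_powerset, card_univ, Fintype.card_fin]
    push_cast
    rfl
  have h2 : (0 : ℝ) < 2 ^ d := by positivity
  rw [e1, ← ind_card, e3, e4, add_div, add_sub_cancel_left, abs_div, abs_of_pos h2, div_le_iff₀ h2]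
  refine (abs_sum_le_sum_abs _ _).trans ?_
  have h3 : ∀ J ∈ (univ : Finset (Fin d)).powerset.erase ∅, |(∏ i ∈ J, v i) * wf (ind E) f N t J| ≤ η := by
    intro J hJ
    rw [mem_erase] at hJ
    rw [abs_mul, abs_prod]
    have : ∏ i ∈ J, |v i| = 1 := by
      apply prod_eq_one
      intro i _
      rcases hv i with h | h <;> rw [h] <;> simp
    rw [this, one_mul]
    exact h J (nonempty_iff_ne_empty.2 hJ.1)
  refine (sum_le_sum h3).trans ?_
  rw [sum_const, nsmul_eq_mul, mul_comm η]
  apply mul_le_mul_of_nonneg_right _ hη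
  rw [← hc]
  exact_mod_cast card_le_card (erase_subset _ _)

/-- Beatty sequences take every value at most `B + 1` times -/
lemma beatty_fib (B N : ℕ) (hB : 1 ≤ B) (α θ : ℝ) (hα : 1 ≤ B * α) (hθ : 0 ≤ θ) (a : ℕ) :
    ((Icc 1 N).filter fun n : ℕ => ⌊α * n + θ⌋₊ = a).card ≤ B + 1 := by
  have hBr : (1 : ℝ) ≤ B := by exact_mod_cast hB
  have hα0 : 0 < α := by
    by_contra hcon
    push Not at hcon
    nlinarith
  rcases (((Icc 1 N).filter fun n : ℕ => ⌊α * n + θ⌋₊ = a)).eq_empty_or_nonempty with h0 | h0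
  · rw [h0, card_empty]; omega
  · set S := ((Icc 1 N).filter fun n : ℕ => ⌊α * n + θ⌋₊ = a) with hS
    set b := S.min' h0 with hb
    have hbS := S.min'_mem h0
    have h1 : S ⊆ Icc b (b + B) := by
      intro n hn
      have h2 := S.min'_le n hn
      rw [mem_Icc]
      refine ⟨h2, ?_⟩
      rw [← hb] at hbS
      rw [hS, mem_filter] at hn hbS
      have h3 : (a : ℝ) ≤ α * b + θ := by
        have h5 : (0 : ℝ) ≤ α * b + θ := by positivity
        have := Nat.floor_le h5
        rw [hbS.2] at this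
        exact this
      have h4 : α * n + θ < a + 1 := by
        have := Nat.lt_floor_add_one (α * n + θ)
        rw [hn.2] at this
        exact this
      have h5 : α * (n - b) < 1 := by linarith
      have h6 : (n : ℝ) - b < B := by
        by_contra hcon
        push Not at hcon
        have h7 : α * B ≤ α * (n - b) := mul_le_mul_of_nonneg_left hcon hα0.le
        nlinarith
      have h8 : (n : ℝ) < b + B := by linarith
      have h9 : n < b + B := by exact_mod_cast h8
      exact h9.le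
    refine (card_le_card h1).trans ?_
    rw [Nat.card_Icc]
    omega

end Pool.Agent.V11296.FP
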