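import Pool.Agent.V11296.FP1

/-!
Library V11296.FP (helper296), part 2: almost all tuples of positions carry all sign patterns.
-/

set_option autoImplicit false

namespace Pool.Agent.V11296.FP

open Finset
open Pool.Agent.H373R2.T7 (exI energy liR liR_norm sup_liou few_e SupSmall)

/-- one correlation: few tuples are bad -/
lemma one_cor (N x : ℕ) (s : ℕ → ℕ) (β : ℝ) (κ : ℝ) (hκ : 0 ≤ κ)
    (hfew : ∀ G : ℕ → ℂ, (∀ a, ‖G a‖ ≤ 1) →
      (((Icc 1 x).filter (fun m : ℕ => β < ‖∑ a ∈ Icc 1 N, G a * exI liR ((a : ℤ) + ((s m : ℕ) : ℤ))‖)).card : ℝ) ≤ κ * x)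
    {d : ℕ} (E : Set ℕ) (J : Finset (Fin d)) (hJ : J.Nonempty) :
    (((Fintype.piFinset fun _ : Fin d => Icc 1 x).filter (fun m => β < |cor E N (fun i => s (m i)) J|)).card : ℝ) ≤
      κ * (x : ℝ) ^ d := by
  classical
  obtain ⟨k, hk⟩ := hJ
  have hx : ((Icc 1 x).card : ℝ) = x := by rw [Nat.card_Icc]; simp
  have hpi : ((Fintype.piFinset fun _ : Fin d => Icc 1 x).card : ℝ) = (x : ℝ) ^ d := by
    rw [Fintype.card_piFinset_const, Nat.card_Icc]
    push_cast
    simp
  have key := upd_card (Icc 1 x) k (fun m : Fin d → ℕ => β < |cor E N (fun i => s (m i)) J|) (κ * x) (by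
    intro m _
    set G : ℕ → ℂ := fun a => ((ind E a * ∏ i ∈ J.erase k, lr (a + s (m i)) : ℝ) : ℂ) with hG
    have hG1 : ∀ a, ‖G a‖ ≤ 1 := by
      intro a
      rw [hG]
      simp only
      rw [Complex.norm_real, Real.norm_eq_abs, abs_mul, abs_prod]
      have : ∏ i ∈ J.erase k, |lr (a + s (m i))| = 1 := prod_eq_one fun i _ => lr_abs _
      rw [this, mul_one]
      exact ind_le E a
    refine le_trans (le_of_eq ?_) (hfew G hG1)
    congr 2
    refine filter_congr fun y _ => ?_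
    have e1 : ‖∑ a ∈ Icc 1 N, G a * exI liR ((a : ℤ) + ((s y : ℕ) : ℤ))‖ =
        |cor E N (fun i => s (Function.update m k y i)) J| := by
      rw [← Real.norm_eq_abs, ← Complex.norm_real]
      congr 1
      unfold cor
      rw [Complex.ofReal_sum]
      refine sum_congr rfl fun a ha => ?_
      rw [mem_Icc] at ha
      rw [exI_lr a (s y) ha.1, hG]
      simp only
      rw [← Complex.ofReal_mul]
      congr 1
      rw [← mul_prod_erase J _ hk]
      simp only [Function.update_self]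
      have : ∏ i ∈ J.erase k, lr (a + s (Function.update m k y i)) = ∏ i ∈ J.erase k, lr (a + s (m i)) := by
        refine prod_congr rfl fun i hi => ?_
        rw [Function.update_of_ne (ne_of_mem_erase hi)]
      rw [this]
      ring
    rw [e1])
  rw [hx, hpi] at key
  rcases Nat.eq_zero_or_pos x with h0 | h0
  · have hempty : (Fintype.piFinset fun _ : Fin d => Icc 1 x) = ∅ := by
      apply Finset.eq_empty_of_forall_notMem
      intro m hm
      have h1 := Fintype.mem_piFinset.1 hm k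
      rw [h0, mem_Icc] at h1
      omega
    rw [hempty, filter_empty, card_empty]
    push_cast
    positivity
  · have hx0 : (0 : ℝ) < x := by exact_mod_cast h0
    have h2 : (x : ℝ) ^ d * (κ * x) = x * (κ * (x : ℝ) ^ d) := by ring
    rw [h2] at key
    exact le_of_mul_le_mul_left key hx0

/-- all the correlations, for `L` sets -/
lemma all_cor (N x : ℕ) (s : ℕ → ℕ) (β : ℝ) (κ : ℝ) (hκ : 0 ≤ κ)
    (hfew : ∀ G : ℕ → ℂ, (∀ a, ‖G a‖ ≤ 1) →
      (((Icc 1 x).filter (fun m : ℕ => β < ‖∑ a ∈ Icc 1 N, G a * exI liR ((a : ℤ) + ((s m : ℕ) : ℤ))‖)).card : ℝ) ≤ κ * x)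
    {d : ℕ} (L : ℕ) (E : Fin L → Set ℕ) :
    ∃ T ⊆ (Fintype.piFinset fun _ : Fin d => Icc 1 x), (T.card : ℝ) ≤ L * 2 ^ d * κ * (x : ℝ) ^ d ∧
      ∀ m ∈ (Fintype.piFinset fun _ : Fin d => Icc 1 x), m ∉ T → ∀ l, ∀ J : Finset (Fin d), J.Nonempty →
        |cor (E l) N (fun i => s (m i)) J| ≤ β := by
  classical
  set P := (Fintype.piFinset fun _ : Fin d => Icc 1 x) with hP
  set Q : Finset (Fin L × Finset (Fin d)) := univ.filter (fun q => q.2.Nonempty) with hQ
  refine ⟨Q.biUnion (fun q => P.filter (fun m => β < |cor (E q.1) N (fun i => s (m i)) q.2|)), ?_, ?_, ?_⟩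
  · intro m hm
    rw [mem_biUnion] at hm
    obtain ⟨q, _, hq⟩ := hm
    exact (mem_filter.1 hq).1
  · have h1 : ((Q.biUnion (fun q => P.filter (fun m => β < |cor (E q.1) N (fun i => s (m i)) q.2|))).card : ℝ) ≤
        ∑ q ∈ Q, ((P.filter (fun m => β < |cor (E q.1) N (fun i => s (m i)) q.2|)).card : ℝ) := by
      exact_mod_cast card_biUnion_le
    refine h1.trans ?_
    have h2 : ∀ q ∈ Q, ((P.filter (fun m => β < |cor (E q.1) N (fun i => s (m i)) q.2|)).card : ℝ) ≤ κ * (x : ℝ) ^ d := by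
      intro q hq
      rw [hQ, mem_filter] at hq
      exact one_cor N x s β κ hκ hfew (E q.1) q.2 hq.2
    refine (sum_le_sum h2).trans ?_
    rw [sum_const, nsmul_eq_mul]
    have h3 : (Q.card : ℝ) ≤ L * 2 ^ d := by
      have h4 : Q.card ≤ (univ : Finset (Fin L × Finset (Fin d))).card := card_le_card (filter_subset _ _)
      have h5 : (univ : Finset (Fin L × Finset (Fin d))).card = L * 2 ^ d := by
        rw [card_univ, Fintype.card_prod, Fintype.card_fin, Fintype.card_finset, Fintype.card_fin]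
      rw [h5] at h4
      exact_mod_cast h4
    calc (Q.card : ℝ) * (κ * (x : ℝ) ^ d) ≤ (L * 2 ^ d) * (κ * (x : ℝ) ^ d) :=
          mul_le_mul_of_nonneg_right h3 (by positivity)
      _ = _ := by ring
  · intro m hm hmT l J hJ
    by_contra hcon
    push Not at hcon
    apply hmT
    rw [mem_biUnion]
    exact ⟨(l, J), by rw [hQ, mem_filter]; exact ⟨mem_univ _, hJ⟩, by rw [mem_filter]; exact ⟨hm, hcon⟩⟩

/-- the main estimate -/
theorem main (p B C A U : ℕ) : ∃ N₀ : ℕ, 3 ≤ N₀ ∧ ∀ N : ℕ, N₀ ≤ N → ∀ (x : ℕ) (s : ℕ → ℕ), (∀ m ∈ Icc 1 x, s m ≤ B * N) →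
    (energy p x (fun m => (s m : ℤ)) : ℝ) * N ≤ Real.log N ^ C * (x : ℝ) ^ (2 * p) →
    ∀ d : ℕ, (d : ℝ) ≤ A * Real.log (Real.log N) → ∀ L : ℕ, (L : ℝ) ≤ Real.log N ^ A → ∀ E : Fin L → Set ℕ,
    ∃ T ⊆ (Fintype.piFinset fun _ : Fin d => Icc 1 x), (T.card : ℝ) ≤ (x : ℝ) ^ d / Real.log N ^ U ∧
      ∀ m ∈ (Fintype.piFinset fun _ : Fin d => Icc 1 x), m ∉ T → ∀ l, ∀ v : Fin d → ℝ, (∀ i, v i = 1 ∨ v i = -1) →
        |pat (E l) N (fun i => s (m i)) v - (∑ n ∈ Icc 1 N, ind (E l) n) / 2 ^ d| ≤ N / Real.log N ^ U := by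
  obtain ⟨N1, h1⟩ := few_e liR liR_norm sup_liou p (B + 1) C (U + 2 * A)
  refine ⟨max N1 3, le_max_right _ _, fun N hN x s hs hen d hd L hL E => ?_⟩
  have hN1 : N1 ≤ N := (le_max_left _ _).trans hN
  have hN3 : 3 ≤ N := (le_max_right _ _).trans hN
  have hNr : (3 : ℝ) ≤ N := by exact_mod_cast hN3
  have hlog1 : 1 < Real.log N := by
    rw [Real.lt_log_iff_exp_lt (by linarith)]
    have := Real.exp_one_lt_d9
    linarith
  have hlog0 : 0 < Real.log N := by linarith
  set κ : ℝ := 1 / Real.log N ^ (U + 2 * A) with hκ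
  have hκ0 : 0 ≤ κ := by positivity
  obtain ⟨T, hT, hTc, hTg⟩ := all_cor N x s (N / Real.log N ^ (U + 2 * A)) κ hκ0 (by
    intro G hG
    have h2 := h1 N hN1 x (fun m => (s m : ℤ)) (by
      intro m hm
      have h3 := hs m hm
      have h4 : ((s m : ℕ) : ℤ) ≤ ((B * N : ℕ) : ℤ) := by exact_mod_cast h3
      rw [abs_of_nonneg (by positivity)]
      push_cast at h4 ⊢
      nlinarith) hen N (by nlinarith) G hG
    refine h2.trans (le_of_eq ?_)
    rw [hκ]
    ring) (d := d) L E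
  have h2d : (2 : ℝ) ^ d ≤ Real.log N ^ A := by
    have h3 : (2 : ℝ) ^ d ≤ Real.exp (A * Real.log (Real.log N)) := by
      rw [← Real.rpow_natCast, Real.rpow_def_of_pos (by norm_num)]
      apply Real.exp_le_exp.2
      have h4 : Real.log 2 ≤ 1 := by
        have := Real.log_two_lt_d9
        linarith
      have h5 : (0 : ℝ) ≤ d := Nat.cast_nonneg d
      nlinarith [Real.log_pos (by norm_num : (1 : ℝ) < 2)]
    refine h3.trans (le_of_eq ?_)
    rw [← Real.rpow_natCast, Real.rpow_def_of_pos hlog0]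
    ring_nf
  refine ⟨T, hT, hTc.trans ?_, fun m hm hmT l v hv => ?_⟩
  · have h3 : (L : ℝ) * 2 ^ d ≤ Real.log N ^ A * Real.log N ^ A :=
      mul_le_mul hL h2d (by positivity) (by positivity)
    have h4 : Real.log N ^ A * Real.log N ^ A * κ = 1 / Real.log N ^ U := by
      rw [hκ, pow_add, two_mul, pow_add]
      field_simp
    calc (L : ℝ) * 2 ^ d * κ * (x : ℝ) ^ d ≤ Real.log N ^ A * Real.log N ^ A * κ * (x : ℝ) ^ d := by
          apply mul_le_mul_of_nonneg_right _ (by positivity)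
          exact mul_le_mul_of_nonneg_right h3 hκ0
      _ = (x : ℝ) ^ d / Real.log N ^ U := by rw [h4]; ring
  · have h5 := pat_cor (E l) N (fun i => s (m i)) v hv (N / Real.log N ^ (U + 2 * A)) (fun J hJ => hTg m hm hmT l J hJ)
      (by positivity)
    rw [Fintype.card_fin] at h5
    refine h5.trans ?_
    apply div_le_div_of_nonneg_left (by positivity) (by positivity)
    exact pow_le_pow_right₀ hlog1.le (by omega)

end Pool.Agent.V11296.FP
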