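import Pool.Agent.V11296.FP3

/-!
Library V11296.FP (helper296), part 4: words on consecutive positions together with free positions in dense sets.
-/

set_option autoImplicit false

namespace Pool.Agent.V11296.FP

open Finset
open Pool.Agent.H373R2.T7 (energy)

/-- the positions of the sign `-1` -/
noncomputable def ng (S : Finset ℕ) (n : ℕ) : Finset ℕ := S.filter fun h => lr (n + h) = -1

/-- words and free positions in dense sets -/
theorem words (A C : ℕ) : ∃ N₀ : ℕ, ∀ N : ℕ, N₀ ≤ N → ∀ ℓ : ℕ, (ℓ : ℝ) ≤ A * Real.log (Real.log N) →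
    ∀ D ⊆ Ioc ℓ N, (N : ℝ) / Real.log N ^ C ≤ D.card →
    ∃ H ⊆ D, A * Real.log (Real.log N) ≤ (H.card : ℝ) ∧ ∀ w ⊆ Icc 1 ℓ,
      (N : ℝ) / Real.log N ^ A ≤ (((Icc 1 N).filter fun n => ng (Icc 1 ℓ) n = w).card : ℝ) → ∀ v ⊆ H,
      (((Icc 1 N).filter fun n => ng (Icc 1 ℓ) n = w).card : ℝ) / 2 ^ (H.card + 1) ≤
        (((Icc 1 N).filter fun n => ng (Icc 1 ℓ) n = w ∧ ng H n = v).card : ℝ) := by
  classical
  obtain ⟨N1, hN1, h1⟩ := main 1 1 C (A + 1) (2 * A + 3)
  obtain ⟨N2, h2⟩ := Filter.eventually_atTop.1 ((Filter.tendsto_atTop.1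
    ((Real.tendsto_log_atTop.comp Real.tendsto_log_atTop).comp tendsto_natCast_atTop_atTop)) 1)
  refine ⟨max N1 N2, fun N hN ℓ hℓ D hD hDc => ?_⟩
  have hN3 : 3 ≤ N := hN1.trans ((le_max_left _ _).trans hN)
  have hNr : (3 : ℝ) ≤ N := by exact_mod_cast hN3
  have hll : 1 ≤ Real.log (Real.log N) := h2 N ((le_max_right _ _).trans hN)
  have hlog1 : 2 < Real.log N := by
    have h3 : 0 < Real.log N := Real.log_pos (by linarith)
    have h4 := (Real.le_log_iff_exp_le h3).1 hll
    have := Real.exp_one_gt_d9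
    linarith
  have hlog0 : 0 < Real.log N := by linarith
  have hpow : ∀ (k a : ℕ), (k : ℝ) ≤ (a : ℝ) * Real.log (Real.log N) → (2 : ℝ) ^ k ≤ Real.log N ^ a := by
    intro k a hk
    have h3 : (2 : ℝ) ^ k ≤ Real.exp ((a : ℝ) * Real.log (Real.log N)) := by
      rw [← Real.rpow_natCast, Real.rpow_def_of_pos (by norm_num)]
      apply Real.exp_le_exp.2
      have h4 : Real.log 2 ≤ 1 := by
        have := Real.log_two_lt_d9
        linarith
      have h5 : (0 : ℝ) ≤ k := Nat.cast_nonneg k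
      nlinarith [Real.log_pos (by norm_num : (1 : ℝ) < 2)]
    refine h3.trans (le_of_eq ?_)
    rw [← Real.rpow_natCast, Real.rpow_def_of_pos hlog0]
    ring_nf
  obtain ⟨s, hsD, hsi⟩ := enum D
  set x := D.card with hx
  have hx0 : 0 < x := by
    have : (0 : ℝ) < x := lt_of_lt_of_le (by positivity) hDc
    exact_mod_cast this
  have hx0' : (0 : ℝ) < x := by exact_mod_cast hx0
  set d : ℕ := ⌈(A : ℝ) * Real.log (Real.log N)⌉₊ with hd
  have hd1 : (A : ℝ) * Real.log (Real.log N) ≤ d := Nat.le_ceil _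
  have hd2 : (d : ℝ) ≤ ((A + 1 : ℕ) : ℝ) * Real.log (Real.log N) := by
    have h3 := Nat.ceil_lt_add_one (a := (A : ℝ) * Real.log (Real.log N)) (by positivity)
    push_cast
    rw [← hd] at h3
    nlinarith
  -- the words
  set W := (Icc 1 ℓ).powerset with hW
  have hWc : (W.card : ℝ) ≤ Real.log N ^ A := by
    have h3 : W.card = 2 ^ ℓ := by rw [hW, card_powerset, Nat.card_Icc]; simp
    rw [h3]
    push_cast
    exact hpow ℓ A hℓ
  set e := W.equivFin with he
  set E : Fin (W.card + 1) → Set ℕ := Fin.cons Set.univ (fun l => {n | ng (Icc 1 ℓ) n = ((e.symm l : W) : Finset ℕ)}) with hE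
  obtain ⟨T, hT, hTc, hTg⟩ := h1 N ((le_max_left _ _).trans hN) x s (by
    intro m hm
    have h3 := hD (hsD m hm)
    rw [mem_Ioc] at h3
    omega) (by
    have h3 : (energy 1 x (fun m => (s m : ℤ)) : ℝ) ≤ x := by
      exact_mod_cast energy_one x (fun m => (s m : ℤ)) (fun a ha b hb hab => hsi a ha b hb (by exact_mod_cast hab))
    have h4 : (N : ℝ) ≤ Real.log N ^ C * x := by
      rw [div_le_iff₀ (by positivity)] at hDc
      linarith
    calc (energy 1 x (fun m => (s m : ℤ)) : ℝ) * N ≤ x * (Real.log N ^ C * x) :=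
          mul_le_mul h3 h4 (by positivity) (by positivity)
      _ = Real.log N ^ C * (x : ℝ) ^ (2 * 1) := by ring) d hd2 (W.card + 1) (by
    push_cast
    have h5 : (1 : ℝ) ≤ Real.log N ^ A := one_le_pow₀ (by linarith)
    rw [pow_succ]
    nlinarith) E
  have hex : ∃ m ∈ (Fintype.piFinset fun _ : Fin d => Icc 1 x), m ∉ T := by
    by_contra hcon
    push Not at hcon
    have h3 : (Fintype.piFinset fun _ : Fin d => Icc 1 x) ⊆ T := fun m hm => hcon m hm
    have h4 : ((Fintype.piFinset fun _ : Fin d => Icc 1 x).card : ℝ) = (x : ℝ) ^ d := by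
      rw [Fintype.card_piFinset_const, Nat.card_Icc]
      push_cast
      simp
    have h5 : (x : ℝ) ^ d ≤ (x : ℝ) ^ d / Real.log N ^ (2 * A + 3) := by
      rw [← h4]
      refine le_trans ?_ (hTc.trans (le_of_eq (by rw [h4])))
      exact_mod_cast card_le_card h3
    have h6 : (1 : ℝ) < Real.log N ^ (2 * A + 3) := one_lt_pow₀ (by linarith) (by omega)
    have h7 : (0 : ℝ) < (x : ℝ) ^ d := by positivity
    rw [le_div_iff₀ (by positivity)] at h5
    nlinarith
  obtain ⟨m, hm, hmT⟩ := hex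
  have hg := hTg m hm hmT
  have hm' : ∀ i, m i ∈ Icc 1 x := fun i => Fintype.mem_piFinset.1 hm i
  have h2d : (2 : ℝ) ^ d ≤ Real.log N ^ (A + 1) := hpow d (A + 1) hd2
  -- lower bounds for all the sets
  have hlow : ∀ l (v : Fin d → ℝ), (∀ i, v i = 1 ∨ v i = -1) → (N : ℝ) / Real.log N ^ A ≤ ∑ n ∈ Icc 1 N, ind (E l) n →
      (∑ n ∈ Icc 1 N, ind (E l) n) / 2 ^ (d + 1) ≤
      (((Icc 1 N).filter fun n => n ∈ E l ∧ ∀ i, lr (n + s (m i)) = v i).card : ℝ) := by
    intro l v hv hbig
    have h3 := hg l v hv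
    have h8 : pat (E l) N (fun i => s (m i)) v =
        (((Icc 1 N).filter fun n => n ∈ E l ∧ ∀ i, lr (n + s (m i)) = v i).card : ℝ) := by
      rw [pat_card _ _ _ _ hv]
      congr 1
      apply congrArg card
      ext n
      simp only [mem_filter]
    rw [h8] at h3
    have h4 := (abs_le.1 h3).1
    have h5 : (N : ℝ) / Real.log N ^ (2 * A + 3) ≤ (∑ n ∈ Icc 1 N, ind (E l) n) / 2 ^ (d + 1) := by
      rw [div_le_iff₀ (by positivity)] at hbig
      rw [div_le_div_iff₀ (by positivity) (by positivity)]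
      have h9 : (2 : ℝ) ^ (d + 1) ≤ Real.log N ^ (A + 2) := by
        rw [pow_succ, pow_succ (Real.log (N : ℝ)) (A + 1)]
        exact mul_le_mul h2d hlog1.le (by norm_num) (by positivity)
      have h10 : (0 : ℝ) ≤ ∑ n ∈ Icc 1 N, ind (E l) n := sum_nonneg fun n _ => ind_nonneg _ _
      calc (N : ℝ) * 2 ^ (d + 1) ≤ ((∑ n ∈ Icc 1 N, ind (E l) n) * Real.log N ^ A) * Real.log N ^ (A + 2) :=
            mul_le_mul hbig h9 (by positivity) (by positivity)
        _ = (∑ n ∈ Icc 1 N, ind (E l) n) * Real.log N ^ (2 * A + 2) := by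
            rw [show 2 * A + 2 = A + (A + 2) by ring, pow_add]
            ring
        _ ≤ (∑ n ∈ Icc 1 N, ind (E l) n) * Real.log N ^ (2 * A + 3) := by
            apply mul_le_mul_of_nonneg_left _ h10
            exact pow_le_pow_right₀ (by linarith) (by omega)
    have h6 : (∑ n ∈ Icc 1 N, ind (E l) n) / 2 ^ d = (∑ n ∈ Icc 1 N, ind (E l) n) / 2 ^ (d + 1) +
        (∑ n ∈ Icc 1 N, ind (E l) n) / 2 ^ (d + 1) := by
      rw [pow_succ]
      field_simp
      norm_num
    linarith
  have hinj : Function.Injective fun i => s (m i) := by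
    intro i j hij
    by_contra hne
    have hE0 : ∑ n ∈ Icc 1 N, ind (E 0) n = N := by
      rw [hE]
      unfold ind
      simp
    have h3 := hlow 0 (fun k => if k = i then 1 else -1) (fun k => by
      split_ifs
      · exact Or.inl rfl
      · exact Or.inr rfl) (by
      rw [hE0]
      exact div_le_self (by positivity) (one_le_pow₀ (by linarith)))
    have h4 : ((Icc 1 N).filter fun n => n ∈ E 0 ∧ ∀ k, lr (n + s (m k)) = if k = i then 1 else -1) = ∅ := by
      apply filter_eq_empty_iff.2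
      intro n _ hn
      have h5 := hn.2 i
      have h6 := hn.2 j
      rw [if_pos rfl] at h5
      rw [if_neg (fun h => hne h.symm)] at h6
      simp only at hij
      rw [hij] at h5
      rw [h5] at h6
      norm_num at h6
    rw [h4, card_empty, hE0] at h3
    have h5 : (0 : ℝ) < (N : ℝ) / 2 ^ (d + 1) := by positivity
    push_cast at h3
    linarith
  have hHc : (univ.image fun i => s (m i)).card = d := by
    rw [card_image_of_injective _ hinj, card_univ, Fintype.card_fin]
  refine ⟨univ.image fun i => s (m i), ?_, ?_, ?_⟩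
  · intro h hh
    rw [mem_image] at hh
    obtain ⟨i, _, rfl⟩ := hh
    exact hsD _ (hm' i)
  · rw [hHc]
    exact hd1
  · intro w hw hbig v hv
    have hwW : w ∈ W := mem_powerset.2 hw
    have hEl : E (Fin.succ (e ⟨w, hwW⟩)) = {n | ng (Icc 1 ℓ) n = w} := by
      rw [hE, Fin.cons_succ]
      simp
    have hcount : ∑ n ∈ Icc 1 N, ind (E (Fin.succ (e ⟨w, hwW⟩))) n =
        (((Icc 1 N).filter fun n => ng (Icc 1 ℓ) n = w).card : ℝ) := by
      rw [ind_card]
      congr 1
      apply congrArg card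
      ext n
      simp only [mem_filter, hEl, Set.mem_ofPred_eq]
    have h3 := hlow (Fin.succ (e ⟨w, hwW⟩)) (fun i => if s (m i) ∈ v then -1 else 1) (fun i => by
      split_ifs
      · exact Or.inr rfl
      · exact Or.inl rfl) (by rw [hcount]; exact hbig)
    rw [hcount] at h3
    rw [hHc]
    refine h3.trans ?_
    apply Nat.cast_le.2
    apply card_le_card
    intro n hn
    rw [mem_filter] at hn ⊢
    rw [hEl] at hn
    refine ⟨hn.1, hn.2.1, ?_⟩
    ext h
    unfold ng
    rw [mem_filter, mem_image]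
    constructor
    · rintro ⟨⟨i, _, rfl⟩, h5⟩
      have h6 := hn.2.2 i
      by_contra h7
      rw [if_neg h7, h5] at h6
      norm_num at h6
    · intro hh
      have h7 := hv hh
      rw [mem_image] at h7
      obtain ⟨i, _, rfl⟩ := h7
      refine ⟨⟨i, mem_univ i, rfl⟩, ?_⟩
      have h6 := hn.2.2 i
      rw [if_pos hh] at h6
      exact h6

end Pool.Agent.V11296.FP
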