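import Pool.Agent.V11296.FP3

/-!
Library V11296.FP (helper296), part 5: exact values of `Ω` at fixed positions and parities at random positions.
-/

set_option autoImplicit false

namespace Pool.Agent.V11296.FP

open Finset
open ArithmeticFunction (cardFactors)
open Pool.Agent.H373R2.T7 (energy)

lemma two_pow_Om (n : ℕ) (hn : 1 ≤ n) : 2 ^ cardFactors n ≤ n := by
  rw [ArithmeticFunction.cardFactors_apply]
  calc 2 ^ n.primeFactorsList.length ≤ n.primeFactorsList.prod := by
        apply List.pow_card_le_prod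
        intro p hp
        exact (Nat.prime_of_mem_primeFactorsList hp).two_le
    _ = n := Nat.prod_primeFactorsList (by omega)

/-- counts with exact values at fixed positions and signs at random positions -/
theorem exact (K p B C A U : ℕ) : ∃ N₀ : ℕ, ∀ N : ℕ, N₀ ≤ N → ∀ (x : ℕ) (s : ℕ → ℕ), (∀ m ∈ Icc 1 x, s m ≤ B * N) →
    (energy p x (fun m => (s m : ℤ)) : ℝ) * N ≤ Real.log N ^ C * (x : ℝ) ^ (2 * p) →
    ∀ d : ℕ, (d : ℝ) ≤ A * Real.log (Real.log N) →
    ∃ T ⊆ (Fintype.piFinset fun _ : Fin d => Icc 1 x), (T.card : ℝ) ≤ (x : ℝ) ^ d / Real.log N ^ U ∧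
      ∀ m ∈ (Fintype.piFinset fun _ : Fin d => Icc 1 x), m ∉ T →
        ∑' ℓ : Fin K → ℕ, ∑ v : Fin d → Fin 2,
          |pat {n | ∀ j : Fin K, cardFactors (n + j) = ℓ j} N (fun i => s (m i)) (fun i => if v i = 0 then 1 else -1) -
            (∑ n ∈ Icc 1 N, ind {n | ∀ j : Fin K, cardFactors (n + j) = ℓ j} n) / 2 ^ d| ≤ N / Real.log N ^ U := by
  classical
  obtain ⟨N1, hN1, h1⟩ := main p B C (A + 2 * K) (U + A + 2 * K)
  obtain ⟨N2, h2⟩ := Filter.eventually_atTop.1 ((Filter.tendsto_atTop.1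
    (Real.tendsto_log_atTop.comp tendsto_natCast_atTop_atTop)) 3)
  refine ⟨N1 + N2 + K + 3, fun N hN x s hs hen d hd => ?_⟩
  have hlog : (3 : ℝ) ≤ Real.log N := h2 N (by omega)
  have hNr : (3 : ℝ) ≤ N := by exact_mod_cast (by omega : 3 ≤ N)
  have hlog0 : 0 < Real.log N := by linarith
  have hll : 0 ≤ Real.log (Real.log N) := Real.log_nonneg (by linarith)
  set M : ℕ := ⌊2 * Real.log N⌋₊ + 1 with hM
  have hM1 : (M : ℝ) ≤ Real.log N ^ 2 := by
    have h3 : (⌊2 * Real.log N⌋₊ : ℝ) ≤ 2 * Real.log N := Nat.floor_le (by positivity)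
    rw [hM]
    push_cast
    nlinarith
  have hval : ∀ n ∈ Icc 1 N, ∀ j : Fin K, cardFactors (n + j) < M := by
    intro n hn j
    rw [mem_Icc] at hn
    have h3 := two_pow_Om (n + j) (by omega)
    have h4 : n + (j : ℕ) ≤ 2 * N := by have := j.2; omega
    have h5 : (2 : ℝ) ^ cardFactors (n + j) ≤ 2 * N := by
      have : ((2 ^ cardFactors (n + (j : ℕ)) : ℕ) : ℝ) ≤ ((2 * N : ℕ) : ℝ) := by exact_mod_cast h3.trans h4
      push_cast at this
      exact this
    have h6 : (cardFactors (n + j) : ℝ) * Real.log 2 ≤ Real.log 2 + Real.log N := by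
      have h7 := Real.log_le_log (by positivity) h5
      rw [Real.log_pow, Real.log_mul (by norm_num) (by linarith)] at h7
      exact h7
    have h8 : (cardFactors (n + j) : ℝ) ≤ 2 * Real.log N := by
      have := Real.log_two_gt_d9
      by_contra hcon
      push Not at hcon
      nlinarith
    rw [hM]
    have : cardFactors (n + j) ≤ ⌊2 * Real.log N⌋₊ := Nat.le_floor h8
    omega
  -- the vectors of values
  set P : Finset (Fin K → ℕ) := Fintype.piFinset (fun _ => range M) with hP
  have hPc : P.card = M ^ K := by rw [hP, Fintype.card_piFinset_const, card_range]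
  have hPr : (P.card : ℝ) ≤ Real.log N ^ (2 * K) := by
    rw [hPc]
    push_cast
    rw [pow_mul]
    exact pow_le_pow_left₀ (Nat.cast_nonneg _) hM1 K
  set e := P.equivFin with he
  obtain ⟨T, hT, hTc, hTg⟩ := h1 N (by omega) x s hs hen d (by
    refine hd.trans (mul_le_mul_of_nonneg_right ?_ hll)
    push_cast
    have : (0 : ℝ) ≤ K := Nat.cast_nonneg K
    linarith) P.card (hPr.trans (pow_le_pow_right₀ (by linarith) (by omega)))
    (fun l => {n | ∀ j : Fin K, cardFactors (n + j) = ((e.symm l : P) : Fin K → ℕ) j})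
  refine ⟨T, hT, hTc.trans ?_, fun m hm hmT => ?_⟩
  · apply div_le_div_of_nonneg_left (by positivity) (by positivity)
    exact pow_le_pow_right₀ (by linarith) (by omega)
  have h2d : (2 : ℝ) ^ d ≤ Real.log N ^ A := by
    have h3 : (2 : ℝ) ^ d ≤ Real.exp (A * Real.log (Real.log N)) := by
      rw [← Real.rpow_natCast, Real.rpow_def_of_pos (by norm_num)]
      apply Real.exp_le_exp.2
      have h4 : Real.log 2 ≤ 1 := by
        have := Real.log_two_lt_d9
        linarith
      have h5 : (0 : ℝ) ≤ d := Nat.cast_nonneg d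
      nlinarith [Real.log_pos (by norm_num : (1 : ℝ) < 2)]
    refine h3.trans (le_of_eq ?_)
    rw [← Real.rpow_natCast, Real.rpow_def_of_pos hlog0]
    ring_nf
  have hzero : ∀ ℓ : Fin K → ℕ, ℓ ∉ P → ∑ v : Fin d → Fin 2,
          |pat {n | ∀ j : Fin K, cardFactors (n + j) = ℓ j} N (fun i => s (m i)) (fun i => if v i = 0 then 1 else -1) -
            (∑ n ∈ Icc 1 N, ind {n | ∀ j : Fin K, cardFactors (n + j) = ℓ j} n) / 2 ^ d| = 0 := by
    intro ℓ hℓ
    have h3 : ∀ n ∈ Icc 1 N, ind {n | ∀ j : Fin K, cardFactors (n + j) = ℓ j} n = 0 := by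
      intro n hn
      unfold ind
      rw [if_neg]
      intro h4
      apply hℓ
      rw [hP, Fintype.mem_piFinset]
      intro j
      rw [mem_range]
      have h5 := hval n hn j
      rwa [h4 j] at h5
    apply sum_eq_zero
    intro v _
    have h6 : ∑ n ∈ Icc 1 N, ind {n | ∀ j : Fin K, cardFactors (n + j) = ℓ j} n = 0 := sum_eq_zero h3
    have h7 : pat {n | ∀ j : Fin K, cardFactors (n + j) = ℓ j} N (fun i => s (m i)) (fun i => if v i = 0 then 1 else -1) = 0 := by
      unfold pat
      apply sum_eq_zero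
      intro n hn
      rw [h3 n hn, zero_mul]
    rw [h6, h7]
    simp
  rw [tsum_eq_sum (s := P) (fun ℓ hℓ => hzero ℓ hℓ)]
  have hterm : ∀ ℓ ∈ P, ∑ v : Fin d → Fin 2,
          |pat {n | ∀ j : Fin K, cardFactors (n + j) = ℓ j} N (fun i => s (m i)) (fun i => if v i = 0 then 1 else -1) -
            (∑ n ∈ Icc 1 N, ind {n | ∀ j : Fin K, cardFactors (n + j) = ℓ j} n) / 2 ^ d| ≤
          2 ^ d * (N / Real.log N ^ (U + A + 2 * K)) := by
    intro ℓ hℓ
    have h3 : ∀ v ∈ (univ : Finset (Fin d → Fin 2)),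
          |pat {n | ∀ j : Fin K, cardFactors (n + j) = ℓ j} N (fun i => s (m i)) (fun i => if v i = 0 then 1 else -1) -
            (∑ n ∈ Icc 1 N, ind {n | ∀ j : Fin K, cardFactors (n + j) = ℓ j} n) / 2 ^ d| ≤ N / Real.log N ^ (U + A + 2 * K) := by
      intro v _
      have h4 := hTg m hm hmT (e ⟨ℓ, hℓ⟩) (fun i => if v i = 0 then 1 else -1) (fun i => by
        split_ifs
        · exact Or.inl rfl
        · exact Or.inr rfl)
      simp only [Equiv.symm_apply_apply] at h4
      exact h4
    refine (sum_le_sum h3).trans (le_of_eq ?_)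
    rw [sum_const, card_univ, Fintype.card_fun, Fintype.card_fin, Fintype.card_fin, nsmul_eq_mul]
    push_cast
    rfl
  refine (sum_le_sum hterm).trans ?_
  rw [sum_const, nsmul_eq_mul]
  calc (P.card : ℝ) * (2 ^ d * (N / Real.log N ^ (U + A + 2 * K))) ≤
      Real.log N ^ (2 * K) * (Real.log N ^ A * (N / Real.log N ^ (U + A + 2 * K))) := by
        apply mul_le_mul hPr _ (by positivity) (by positivity)
        exact mul_le_mul_of_nonneg_right h2d (by positivity)
    _ = N / Real.log N ^ U := by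
        rw [pow_add, pow_add]
        field_simp

end Pool.Agent.V11296.FP
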