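import Pool.Agent.V11296.FP6

/-!
Library V11296.FP (helper296), part 7: sign patterns of the Moebius function along arbitrary sets.
-/

set_option autoImplicit false

namespace Pool.Agent.V11296.FP

open Finset
open Pool.Agent.H373R2.T7 (energy)

lemma mr_vals (n : ℕ) : mr n = 0 ∨ mr n = 1 ∨ mr n = -1 := by
  have h := mr_abs n
  unfold mr at h ⊢
  have h1 : |(ArithmeticFunction.moebius n : ℤ)| ≤ 1 := by exact_mod_cast h
  have h2 : (ArithmeticFunction.moebius n : ℤ) = 0 ∨ (ArithmeticFunction.moebius n : ℤ) = 1 ∨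
      (ArithmeticFunction.moebius n : ℤ) = -1 := by
    rw [abs_le] at h1
    omega
  rcases h2 with h | h | h <;> rw [h]
  · left; norm_num
  · right; left; norm_num
  · right; right; norm_num

open Classical in
/-- the count from the correlations -/
lemma cnt_mu (N : ℕ) (η : ℝ) (hη : 0 ≤ η) {d : ℕ} (E : Set ℕ) (t : Fin d → ℕ)
    (h : ∀ J : Finset (Fin d), J.Nonempty → |wcor (ind E) (fun n => mr n ^ 2) N t J| ≤ η) (v : Fin d → ℝ)
    (hv : ∀ i, v i = 1 ∨ v i = -1) :
    |(((Icc 1 N).filter fun n => n ∈ E ∧ ∀ i, mr (n + t i) = v i).card : ℝ) -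
      (((Icc 1 N).filter fun n => n ∈ E ∧ ∀ i, mr (n + t i) ≠ 0).card : ℝ) / 2 ^ d| ≤ η := by
  have e1 : (((Icc 1 N).filter fun n => n ∈ E ∧ ∀ i, mr (n + t i) = v i).card : ℝ) =
      ∑ n ∈ Icc 1 N, ind E n * ∏ i, ((v i * mr (n + t i) + mr (n + t i) ^ 2) / 2) := by
    rw [← sum_boole]
    refine sum_congr rfl fun n _ => ?_
    unfold ind
    by_cases h1 : n ∈ E
    · rw [if_pos h1, one_mul]
      by_cases h2 : ∀ i, mr (n + t i) = v i
      · rw [if_pos ⟨h1, h2⟩]
        symm
        apply prod_eq_one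
        intro i _
        rw [h2 i]
        rcases hv i with h | h <;> rw [h] <;> norm_num
      · rw [if_neg (fun h => h2 h.2)]
        push Not at h2
        obtain ⟨i, hi⟩ := h2
        symm
        apply prod_eq_zero (mem_univ i)
        rcases hv i with h | h <;> rcases mr_vals (n + t i) with h' | h' | h' <;> rw [h, h'] at hi ⊢ <;>
          first | exact absurd rfl hi | norm_num
    · rw [if_neg h1, zero_mul, if_neg (fun h => h1 h.1)]
  have e2 : (((Icc 1 N).filter fun n => n ∈ E ∧ ∀ i, mr (n + t i) ≠ 0).card : ℝ) =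
      ∑ n ∈ Icc 1 N, ind E n * ∏ i, mr (n + t i) ^ 2 := by
    rw [← sum_boole]
    refine sum_congr rfl fun n _ => ?_
    unfold ind
    by_cases h1 : n ∈ E
    · rw [if_pos h1, one_mul]
      by_cases h2 : ∀ i, mr (n + t i) ≠ 0
      · rw [if_pos ⟨h1, h2⟩]
        symm
        apply prod_eq_one
        intro i _
        rcases mr_vals (n + t i) with h' | h' | h'
        · exact absurd h' (h2 i)
        · rw [h']; norm_num
        · rw [h']; norm_num
      · rw [if_neg (fun h => h2 h.2)]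
        push Not at h2
        obtain ⟨i, hi⟩ := h2
        symm
        apply prod_eq_zero (mem_univ i)
        rw [hi]
        norm_num
    · rw [if_neg h1, zero_mul, if_neg (fun h => h1 h.1)]
  have e3 : ∑ n ∈ Icc 1 N, ind E n * ∏ i, ((v i * mr (n + t i) + mr (n + t i) ^ 2) / 2) =
      (∑ J ∈ (univ : Finset (Fin d)).powerset, (∏ i ∈ J, v i) * wcor (ind E) (fun n => mr n ^ 2) N t J) / 2 ^ d := by
    unfold wcor
    have : ∀ n ∈ Icc 1 N, ind E n * ∏ i, ((v i * mr (n + t i) + mr (n + t i) ^ 2) / 2) =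
        (∑ J ∈ (univ : Finset (Fin d)).powerset, (∏ i ∈ J, v i) *
          (ind E n * ((∏ i ∈ J, mr (n + t i)) * ∏ i ∈ Jᶜ, mr (n + t i) ^ 2))) / 2 ^ d := by
      intro n _
      rw [prod_div_distrib, prod_const, card_univ, Fintype.card_fin, prod_add, mul_div_assoc', mul_sum]
      congr 1
      refine sum_congr rfl fun J _ => ?_
      rw [prod_mul_distrib, compl_eq_univ_sdiff]
      ring
    rw [sum_congr rfl this, ← sum_div, sum_comm]
    congr 1
    refine sum_congr rfl fun J _ => ?_
    rw [mul_sum]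
  have e4 : ∑ J ∈ (univ : Finset (Fin d)).powerset, (∏ i ∈ J, v i) * wcor (ind E) (fun n => mr n ^ 2) N t J =
      (∑ n ∈ Icc 1 N, ind E n * ∏ i, mr (n + t i) ^ 2) +
        ∑ J ∈ (univ : Finset (Fin d)).powerset.erase ∅, (∏ i ∈ J, v i) * wcor (ind E) (fun n => mr n ^ 2) N t J := by
    rw [← add_sum_erase _ _ (mem_powerset.2 (empty_subset (univ : Finset (Fin d))))]
    congr 1
    unfold wcor
    simp
  have hc : ((univ : Finset (Fin d)).powerset.card : ℝ) = 2 ^ d := by
    rw [card_powerset, card_univ, Fintype.card_fin]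
    push_cast
    rfl
  have h2 : (0 : ℝ) < 2 ^ d := by positivity
  rw [e1, e2, e3, e4, add_div, add_sub_cancel_left, abs_div, abs_of_pos h2, div_le_iff₀ h2]
  refine (abs_sum_le_sum_abs _ _).trans ?_
  have h3 : ∀ J ∈ (univ : Finset (Fin d)).powerset.erase ∅, |(∏ i ∈ J, v i) * wcor (ind E) (fun n => mr n ^ 2) N t J| ≤ η := by
    intro J hJ
    rw [mem_erase] at hJ
    rw [abs_mul, abs_prod]
    have : ∏ i ∈ J, |v i| = 1 := by
      apply prod_eq_one
      intro i _
      rcases hv i with h | h <;> rw [h] <;> simp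
    rw [this, one_mul]
    exact h J (nonempty_iff_ne_empty.2 hJ.1)
  refine (sum_le_sum h3).trans ?_
  rw [sum_const, nsmul_eq_mul, mul_comm η]
  apply mul_le_mul_of_nonneg_right _ hη
  rw [← hc]
  exact_mod_cast card_le_card (erase_subset _ _)

end Pool.Agent.V11296.FP
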