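import Pool.Agent.V11296.FP7

/-!
Library V11296.FP (helper296), part 8: the Moebius function at random shifts, mixed factors.
-/

set_option autoImplicit false

namespace Pool.Agent.V11296.FP

open Finset
open Pool.Agent.H373R2.T7 (exI energy few_e SupSmall sup_muC muC muC_norm)

/-- weighted sum with `μ` at the positions in `J` and another bounded function at the others -/
noncomputable def wc {ι : Type} [Fintype ι] [DecidableEq ι] (w : ℕ → ℝ) (q : ι → ℕ → ℝ) (N : ℕ) (t : ι → ℕ) (J : Finset ι) : ℝ :=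
  ∑ n ∈ Icc 1 N, w n * ((∏ i ∈ J, mr (n + t i)) * ∏ i ∈ Jᶜ, q i (n + t i))

/-- one correlation: few tuples are bad -/
lemma one_wc (N x : ℕ) (s : ℕ → ℕ) (β : ℝ) (κ : ℝ) (hκ : 0 ≤ κ)
    (hfew : ∀ G : ℕ → ℂ, (∀ a, ‖G a‖ ≤ 1) →
      (((Icc 1 x).filter (fun m : ℕ => β < ‖∑ a ∈ Icc 1 N, G a * exI muC ((a : ℤ) + ((s m : ℕ) : ℤ))‖)).card : ℝ) ≤ κ * x)
    {d : ℕ} (w : ℕ → ℝ) (q : Fin d → ℕ → ℝ) (W : ℝ) (hW : 0 < W) (hw : ∀ n, |w n| ≤ W) (hq : ∀ i n, |q i n| ≤ 1)
    (J : Finset (Fin d)) (hJ : J.Nonempty) :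
    (((Fintype.piFinset fun _ : Fin d => Icc 1 x).filter (fun m => W * β < |wc w q N (fun i => s (m i)) J|)).card : ℝ) ≤
      κ * (x : ℝ) ^ d := by
  classical
  obtain ⟨k, hk⟩ := hJ
  have hx : ((Icc 1 x).card : ℝ) = x := by rw [Nat.card_Icc]; simp
  have hpi : ((Fintype.piFinset fun _ : Fin d => Icc 1 x).card : ℝ) = (x : ℝ) ^ d := by
    rw [Fintype.card_piFinset_const, Nat.card_Icc]
    push_cast
    simp
  have key := upd_card (Icc 1 x) k (fun m : Fin d → ℕ => W * β < |wc w q N (fun i => s (m i)) J|) (κ * x) (by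
    intro m _
    set g : ℕ → ℝ := fun a => w a / W * ((∏ i ∈ J.erase k, mr (a + s (m i))) * ∏ i ∈ Jᶜ, q i (a + s (m i))) with hg
    have hG1 : ∀ a, ‖((g a : ℝ) : ℂ)‖ ≤ 1 := by
      intro a
      rw [hg]
      simp only
      rw [Complex.norm_real, Real.norm_eq_abs, abs_mul, abs_mul, abs_prod, abs_prod, abs_div, abs_of_pos hW]
      have h1 : |w a| / W ≤ 1 := by rw [div_le_one hW]; exact hw a
      have h2 : ∏ i ∈ J.erase k, |mr (a + s (m i))| ≤ 1 := prod_le_one (fun _ _ => abs_nonneg _) (fun _ _ => mr_abs _)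
      have h3 : ∏ i ∈ Jᶜ, |q i (a + s (m i))| ≤ 1 := prod_le_one (fun _ _ => abs_nonneg _) (fun _ _ => hq _ _)
      have h4 : (0 : ℝ) ≤ ∏ i ∈ J.erase k, |mr (a + s (m i))| := prod_nonneg fun _ _ => abs_nonneg _
      have h5 : (0 : ℝ) ≤ ∏ i ∈ Jᶜ, |q i (a + s (m i))| := prod_nonneg fun _ _ => abs_nonneg _
      exact mul_le_one₀ h1 (mul_nonneg h4 h5) (mul_le_one₀ h2 h5 h3)
    refine le_trans (le_of_eq ?_) (hfew (fun a => ((g a : ℝ) : ℂ)) hG1)
    congr 2
    refine filter_congr fun y _ => ?_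
    have e1 : W * ‖∑ a ∈ Icc 1 N, ((g a : ℝ) : ℂ) * exI muC ((a : ℤ) + ((s y : ℕ) : ℤ))‖ =
        |wc w q N (fun i => s (Function.update m k y i)) J| := by
      have e2 : ∑ a ∈ Icc 1 N, ((g a : ℝ) : ℂ) * exI muC ((a : ℤ) + ((s y : ℕ) : ℤ)) =
          ((wc w q N (fun i => s (Function.update m k y i)) J / W : ℝ) : ℂ) := by
        unfold wc
        rw [sum_div, Complex.ofReal_sum]
        refine sum_congr rfl fun a ha => ?_
        rw [mem_Icc] at ha
        rw [exI_mr a (s y) ha.1, ← Complex.ofReal_mul]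
        congr 1
        rw [hg]
        simp only
        rw [← mul_prod_erase J _ hk]
        simp only [Function.update_self]
        have h1 : ∏ i ∈ J.erase k, mr (a + s (Function.update m k y i)) = ∏ i ∈ J.erase k, mr (a + s (m i)) := by
          refine prod_congr rfl fun i hi => ?_
          rw [Function.update_of_ne (ne_of_mem_erase hi)]
        have h2 : ∏ i ∈ Jᶜ, q i (a + s (Function.update m k y i)) = ∏ i ∈ Jᶜ, q i (a + s (m i)) := by
          refine prod_congr rfl fun i hi => ?_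
          rw [Function.update_of_ne]
          rintro rfl
          exact (mem_compl.1 hi) hk
        rw [h1, h2]
        ring
      rw [e2, Complex.norm_real, Real.norm_eq_abs, abs_div, abs_of_pos hW]
      field_simp
    rw [← e1]
    constructor
    · intro h
      exact lt_of_mul_lt_mul_left h hW.le
    · intro h
      exact mul_lt_mul_of_pos_left h hW)
  rw [hx, hpi] at key
  rcases Nat.eq_zero_or_pos x with h0 | h0
  · have hempty : (Fintype.piFinset fun _ : Fin d => Icc 1 x) = ∅ := by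
      apply Finset.eq_empty_of_forall_notMem
      intro m hm
      have h1 := Fintype.mem_piFinset.1 hm k
      rw [h0, mem_Icc] at h1
      omega
    rw [hempty, filter_empty, card_empty]
    push_cast
    positivity
  · have hx0 : (0 : ℝ) < x := by exact_mod_cast h0
    have h2 : (x : ℝ) ^ d * (κ * x) = x * (κ * (x : ℝ) ^ d) := by ring
    rw [h2] at key
    exact le_of_mul_le_mul_left key hx0

/-- the main estimate for the Moebius function -/
theorem mainQ (p B C A U : ℕ) : ∃ N₀ : ℕ, 3 ≤ N₀ ∧ ∀ N : ℕ, N₀ ≤ N → ∀ (x : ℕ) (s : ℕ → ℕ), (∀ m ∈ Icc 1 x, s m ≤ B * N) →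
    (energy p x (fun m => (s m : ℤ)) : ℝ) * N ≤ Real.log N ^ C * (x : ℝ) ^ (2 * p) →
    ∀ d : ℕ, (d : ℝ) ≤ A * Real.log (Real.log N) → ∀ L : ℕ, (L : ℝ) ≤ Real.log N ^ A →
    ∀ (w : Fin L → ℕ → ℝ) (q : Fin L → Fin d → ℕ → ℝ), (∀ l n, |w l n| ≤ Real.log N ^ A) → (∀ l i n, |q l i n| ≤ 1) →
    ∃ T ⊆ (Fintype.piFinset fun _ : Fin d => Icc 1 x), (T.card : ℝ) ≤ (x : ℝ) ^ d / Real.log N ^ U ∧
      ∀ m ∈ (Fintype.piFinset fun _ : Fin d => Icc 1 x), m ∉ T → ∀ l, ∀ J : Finset (Fin d), J.Nonempty →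
        |wc (w l) (q l) N (fun i => s (m i)) J| ≤ N / Real.log N ^ U := by
  classical
  obtain ⟨N1, h1⟩ := few_e muC muC_norm sup_muC p (B + 1) C (U + 2 * A)
  refine ⟨max N1 3, le_max_right _ _, fun N hN x s hs hen d hd L hL w q hw hq => ?_⟩
  have hN1 : N1 ≤ N := (le_max_left _ _).trans hN
  have hN3 : 3 ≤ N := (le_max_right _ _).trans hN
  have hNr : (3 : ℝ) ≤ N := by exact_mod_cast hN3
  have hlog1 : 1 < Real.log N := by
    rw [Real.lt_log_iff_exp_lt (by linarith)]
    have := Real.exp_one_lt_d9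
    linarith
  have hlog0 : 0 < Real.log N := by linarith
  set κ : ℝ := 1 / Real.log N ^ (U + 2 * A) with hκ
  have hκ0 : 0 ≤ κ := by positivity
  set W : ℝ := Real.log N ^ A with hWd
  have hW0 : 0 < W := by positivity
  have hfew : ∀ G : ℕ → ℂ, (∀ a, ‖G a‖ ≤ 1) →
      (((Icc 1 x).filter (fun m : ℕ => N / Real.log N ^ (U + 2 * A) < ‖∑ a ∈ Icc 1 N, G a * exI muC ((a : ℤ) + ((s m : ℕ) : ℤ))‖)).card : ℝ) ≤ κ * x := by
    intro G hG
    have h2 := h1 N hN1 x (fun m => (s m : ℤ)) (by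
      intro m hm
      have h3 := hs m hm
      have h4 : ((s m : ℕ) : ℤ) ≤ ((B * N : ℕ) : ℤ) := by exact_mod_cast h3
      rw [abs_of_nonneg (by positivity)]
      push_cast at h4 ⊢
      nlinarith) hen N (by nlinarith) G hG
    refine h2.trans (le_of_eq ?_)
    rw [hκ]
    ring
  have h2d : (2 : ℝ) ^ d ≤ Real.log N ^ A := by
    have h3 : (2 : ℝ) ^ d ≤ Real.exp (A * Real.log (Real.log N)) := by
      rw [← Real.rpow_natCast, Real.rpow_def_of_pos (by norm_num)]
      apply Real.exp_le_exp.2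
      have h4 : Real.log 2 ≤ 1 := by
        have := Real.log_two_lt_d9
        linarith
      have h5 : (0 : ℝ) ≤ d := Nat.cast_nonneg d
      nlinarith [Real.log_pos (by norm_num : (1 : ℝ) < 2)]
    refine h3.trans (le_of_eq ?_)
    rw [← Real.rpow_natCast, Real.rpow_def_of_pos hlog0]
    ring_nf
  set P := (Fintype.piFinset fun _ : Fin d => Icc 1 x) with hP
  set Q : Finset (Fin L × Finset (Fin d)) := univ.filter (fun q => q.2.Nonempty) with hQ
  set β : ℝ := N / Real.log N ^ (U + 2 * A) with hβ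
  refine ⟨Q.biUnion (fun z => P.filter (fun m => W * β < |wc (w z.1) (q z.1) N (fun i => s (m i)) z.2|)), ?_, ?_, ?_⟩
  · intro m hm
    rw [mem_biUnion] at hm
    obtain ⟨z, _, hz⟩ := hm
    exact (mem_filter.1 hz).1
  · have h3 : ((Q.biUnion (fun z => P.filter (fun m => W * β < |wc (w z.1) (q z.1) N (fun i => s (m i)) z.2|))).card : ℝ) ≤
        ∑ z ∈ Q, ((P.filter (fun m => W * β < |wc (w z.1) (q z.1) N (fun i => s (m i)) z.2|)).card : ℝ) := by
      exact_mod_cast card_biUnion_le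
    refine h3.trans ((sum_le_sum fun z hz => one_wc N x s β κ hκ0 hfew (w z.1) (q z.1) W hW0 (hw z.1) (hq z.1) z.2
      (by rw [hQ, mem_filter] at hz; exact hz.2)).trans ?_)
    rw [sum_const, nsmul_eq_mul]
    have h4 : (Q.card : ℝ) ≤ L * 2 ^ d := by
      have h5 : Q.card ≤ (univ : Finset (Fin L × Finset (Fin d))).card := card_le_card (filter_subset _ _)
      have h6 : (univ : Finset (Fin L × Finset (Fin d))).card = L * 2 ^ d := by
        rw [card_univ, Fintype.card_prod, Fintype.card_fin, Fintype.card_finset, Fintype.card_fin]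
      rw [h6] at h5
      exact_mod_cast h5
    have h7 : (L : ℝ) * 2 ^ d ≤ Real.log N ^ A * Real.log N ^ A := mul_le_mul hL h2d (by positivity) (by positivity)
    have h8 : Real.log N ^ A * Real.log N ^ A * κ = 1 / Real.log N ^ U := by
      rw [hκ, pow_add, two_mul, pow_add]
      field_simp
    calc (Q.card : ℝ) * (κ * (x : ℝ) ^ d) ≤ (Real.log N ^ A * Real.log N ^ A) * (κ * (x : ℝ) ^ d) :=
          mul_le_mul_of_nonneg_right (h4.trans h7) (by positivity)
      _ = (Real.log N ^ A * Real.log N ^ A * κ) * (x : ℝ) ^ d := by ring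
      _ = (x : ℝ) ^ d / Real.log N ^ U := by rw [h8]; ring
  · intro m hm hmT l J hJ
    have h9 : |wc (w l) (q l) N (fun i => s (m i)) J| ≤ W * β := by
      by_contra hcon
      push Not at hcon
      apply hmT
      rw [mem_biUnion]
      exact ⟨(l, J), by rw [hQ, mem_filter]; exact ⟨mem_univ _, hJ⟩, by rw [mem_filter]; exact ⟨hm, hcon⟩⟩
    refine h9.trans ?_
    rw [hβ, hWd]
    have h10 : Real.log N ^ A * (N / Real.log N ^ (U + 2 * A)) = N / Real.log N ^ (U + A) := by
      rw [pow_add, pow_add, two_mul, pow_add]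
      field_simp
    rw [h10]
    apply div_le_div_of_nonneg_left (by positivity) (by positivity)
    exact pow_le_pow_right₀ hlog1.le (by omega)

end Pool.Agent.V11296.FP
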