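import Pool.Agent.V11296.FP8

/-!
Library V11296.FP (helper296), part 9: patterns of the Moebius function with zeros.
-/

set_option autoImplicit false

namespace Pool.Agent.V11296.FP

open Finset
open Pool.Agent.H373R2.T7 (energy)

/-- the factor at a position: `μ²` at the positions of `Q`, `1 - μ²` at the others -/
noncomputable def qz {d : ℕ} (Q : Finset (Fin d)) (i : Fin d) (n : ℕ) : ℝ := if i ∈ Q then mr n ^ 2 else 1 - mr n ^ 2

lemma qz_abs {d : ℕ} (Q : Finset (Fin d)) (i : Fin d) (n : ℕ) : |qz Q i n| ≤ 1 := by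
  unfold qz
  rcases mr_vals n with h | h | h <;> rw [h] <;> split_ifs <;> norm_num

open Classical in
/-- the count from the correlations -/
lemma cnt3 (N : ℕ) (η : ℝ) (hη : 0 ≤ η) {d : ℕ} (t : Fin d → ℕ) (v : Fin d → ℝ)
    (hv : ∀ i, v i = 0 ∨ v i = 1 ∨ v i = -1) (Q : Finset (Fin d)) (hQ : ∀ i, i ∈ Q ↔ v i ≠ 0)
    (h : ∀ J ⊆ Q, J.Nonempty → |wc (fun _ => 1) (qz Q) N t J| ≤ η) :
    |(((Icc 1 N).filter fun n => ∀ i, mr (n + t i) = v i).card : ℝ) -
      (((Icc 1 N).filter fun n => ∀ i, mr (n + t i) ^ 2 = v i ^ 2).card : ℝ) / 2 ^ Q.card| ≤ η := by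
  have e1 : (((Icc 1 N).filter fun n => ∀ i, mr (n + t i) = v i).card : ℝ) =
      ∑ n ∈ Icc 1 N, ∏ i, ((v i * mr (n + t i) + qz Q i (n + t i)) / (if i ∈ Q then (2 : ℝ) else 1)) := by
    rw [← sum_boole]
    refine sum_congr rfl fun n _ => ?_
    by_cases h2 : ∀ i, mr (n + t i) = v i
    · rw [if_pos h2]
      symm
      apply prod_eq_one
      intro i _
      have hq := hQ i
      unfold qz
      rw [h2 i]
      rcases hv i with h | h | h <;> rw [h] at hq ⊢ <;> by_cases h' : i ∈ Q <;> simp [h'] at hq ⊢ <;> norm_num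
    · rw [if_neg h2]
      push Not at h2
      obtain ⟨i, hi⟩ := h2
      symm
      apply prod_eq_zero (mem_univ i)
      have hq := hQ i
      unfold qz
      rcases hv i with h | h | h <;> rcases mr_vals (n + t i) with h' | h' | h' <;> rw [h, h'] at hi <;>
        rw [h] at hq <;> rw [h, h'] <;> by_cases h'' : i ∈ Q <;>
        first
        | exact absurd rfl hi
        | (simp [h''] at hq ⊢; done)
        | (simp [h''] at hq ⊢; norm_num)
  have e2 : (((Icc 1 N).filter fun n => ∀ i, mr (n + t i) ^ 2 = v i ^ 2).card : ℝ) =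
      ∑ n ∈ Icc 1 N, ∏ i, qz Q i (n + t i) := by
    rw [← sum_boole]
    refine sum_congr rfl fun n _ => ?_
    by_cases h2 : ∀ i, mr (n + t i) ^ 2 = v i ^ 2
    · rw [if_pos h2]
      symm
      apply prod_eq_one
      intro i _
      have hq := hQ i
      unfold qz
      rw [h2 i]
      rcases hv i with h | h | h <;> rw [h] at hq ⊢ <;> by_cases h' : i ∈ Q <;> simp [h'] at hq ⊢
    · rw [if_neg h2]
      push Not at h2
      obtain ⟨i, hi⟩ := h2
      symm
      apply prod_eq_zero (mem_univ i)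
      have hq := hQ i
      unfold qz
      rcases hv i with h | h | h <;> rcases mr_vals (n + t i) with h' | h' | h' <;> rw [h, h'] at hi <;>
        rw [h] at hq <;> rw [h'] <;> by_cases h'' : i ∈ Q <;>
        first
        | (exfalso; norm_num at hi; done)
        | (simp [h''] at hq ⊢; done)
  have hcc : ∏ i : Fin d, (if i ∈ Q then (2 : ℝ) else 1) = 2 ^ Q.card := by
    rw [prod_ite_mem, univ_inter, prod_const]
  have e3 : ∑ n ∈ Icc 1 N, ∏ i, ((v i * mr (n + t i) + qz Q i (n + t i)) / (if i ∈ Q then (2 : ℝ) else 1)) =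
      (∑ J ∈ (univ : Finset (Fin d)).powerset, (∏ i ∈ J, v i) * wc (fun _ => 1) (qz Q) N t J) / 2 ^ Q.card := by
    unfold wc
    have : ∀ n ∈ Icc 1 N, ∏ i, ((v i * mr (n + t i) + qz Q i (n + t i)) / (if i ∈ Q then (2 : ℝ) else 1)) =
        (∑ J ∈ (univ : Finset (Fin d)).powerset, (∏ i ∈ J, v i) *
          (1 * ((∏ i ∈ J, mr (n + t i)) * ∏ i ∈ Jᶜ, qz Q i (n + t i)))) / 2 ^ Q.card := by
      intro n _
      rw [prod_div_distrib, hcc, prod_add]
      congr 1
      refine sum_congr rfl fun J _ => ?_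
      rw [prod_mul_distrib, compl_eq_univ_sdiff]
      ring
    rw [sum_congr rfl this, ← sum_div, sum_comm]
    congr 1
    refine sum_congr rfl fun J _ => ?_
    rw [mul_sum]
  have e4 : ∑ J ∈ (univ : Finset (Fin d)).powerset, (∏ i ∈ J, v i) * wc (fun _ => 1) (qz Q) N t J =
      (∑ n ∈ Icc 1 N, ∏ i, qz Q i (n + t i)) +
        ∑ J ∈ (univ : Finset (Fin d)).powerset.erase ∅, (∏ i ∈ J, v i) * wc (fun _ => 1) (qz Q) N t J := by
    rw [← add_sum_erase _ _ (mem_powerset.2 (empty_subset (univ : Finset (Fin d))))]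
    congr 1
    unfold wc
    simp
  have h2 : (0 : ℝ) < 2 ^ Q.card := by positivity
  rw [e1, e2, e3, e4, add_div, add_sub_cancel_left, abs_div, abs_of_pos h2, div_le_iff₀ h2]
  refine (abs_sum_le_sum_abs _ _).trans ?_
  have h3 : ∀ J ∈ (univ : Finset (Fin d)).powerset.erase ∅, |(∏ i ∈ J, v i) * wc (fun _ => 1) (qz Q) N t J| ≤
      if J ⊆ Q then η else 0 := by
    intro J hJ
    rw [mem_erase] at hJ
    split_ifs with hJQ
    · rw [abs_mul, abs_prod]
      have : ∏ i ∈ J, |v i| ≤ 1 := by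
        apply prod_le_one (fun _ _ => abs_nonneg _)
        intro i _
        rcases hv i with h | h | h <;> rw [h] <;> simp
      calc (∏ i ∈ J, |v i|) * |wc (fun _ => 1) (qz Q) N t J| ≤ 1 * η :=
            mul_le_mul this (h J hJQ (nonempty_iff_ne_empty.2 hJ.1)) (abs_nonneg _) (by norm_num)
        _ = η := one_mul _
    · obtain ⟨i, hi, hiQ⟩ := not_subset.1 hJQ
      have h5 : v i = 0 := by
        by_contra hcon
        exact hiQ ((hQ i).2 hcon)
      rw [prod_eq_zero hi h5, zero_mul, abs_zero]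
  refine (sum_le_sum h3).trans ?_
  refine (sum_le_sum_of_subset_of_nonneg (erase_subset _ _) (fun J _ _ => by split_ifs <;> simp [hη])).trans ?_
  rw [← sum_filter, sum_const, nsmul_eq_mul, mul_comm η]
  apply mul_le_mul_of_nonneg_right _ hη
  have h6 : (univ : Finset (Fin d)).powerset.filter (fun J => J ⊆ Q) = Q.powerset := by
    ext J
    simp
  rw [h6, card_powerset]
  push_cast
  exact le_rfl

end Pool.Agent.V11296.FP
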