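import Mathlib

set_option autoImplicit false

open Polynomial

namespace Pool.Agent.V11296.Pisot

/-- `x` has a finite `β`-representation over the alphabet `{0, ..., m}`. -/
def Rep (β : ℝ) (m : ℕ) (x : ℝ) : Prop :=
  ∃ (k : ℕ) (a : ℕ → ℕ), (∀ j, a j ≤ m) ∧ x = ∑ j ∈ Finset.range k, (a j : ℝ) / β ^ (j + 1)

lemma Rep.mono {β : ℝ} {m m' : ℕ} (h : m ≤ m') {x : ℝ} (hx : Rep β m x) : Rep β m' x := by
  obtain ⟨k, a, ha, h1⟩ := hx
  exact ⟨k, a, fun j => (ha j).trans h, h1⟩

lemma Rep.cons {β : ℝ} {m : ℕ} {y : ℝ} (hy : Rep β m y) (b : ℕ) (hb : b ≤ m) :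
    Rep β m ((b + y) / β) := by
  obtain ⟨k, a, ha, h1⟩ := hy
  refine ⟨k + 1, fun j => if j = 0 then b else a (j - 1), ?_, ?_⟩
  · intro j
    dsimp only
    split_ifs
    · exact hb
    · exact ha _
  · rw [Finset.sum_range_succ', h1]
    simp only [Nat.add_eq_zero_iff, one_ne_zero, and_false, if_false, if_true,
      Nat.add_sub_cancel, zero_add, pow_one]
    rw [add_div, Finset.sum_div, add_comm]
    congr 1
    refine Finset.sum_congr rfl fun j _ => ?_
    rw [div_div, pow_succ β (j + 1)]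

/-! ### Polynomials with nonnegative coefficients vanishing at a given number -/

/-- nonnegative coefficients and positive constant coefficient -/
def NN (h : ℝ[X]) : Prop := (∀ k, 0 ≤ h.coeff k) ∧ 0 < h.coeff 0

lemma NN.mul {g h : ℝ[X]} (hg : NN g) (hh : NN h) : NN (g * h) := by
  refine ⟨fun k => ?_, ?_⟩
  · rw [coeff_mul]
    exact Finset.sum_nonneg fun x _ => mul_nonneg (hg.1 _) (hh.1 _)
  · rw [mul_coeff_zero]
    exact mul_pos hg.2 hh.2

lemma NN.one : NN (1 : ℝ[X]) := by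
  refine ⟨fun k => ?_, by simp⟩
  rw [coeff_one]
  split_ifs <;> norm_num

lemma NN.expand {h : ℝ[X]} (hh : NN h) : NN (expand ℝ 2 h) := by
  refine ⟨fun k => ?_, ?_⟩
  · rw [coeff_expand (by norm_num)]
    split_ifs
    · exact hh.1 _
    · exact le_rfl
  · rw [coeff_expand (by norm_num)]
    simpa using hh.2

lemma quad (z : ℂ) (hz : z ≠ 0) (hre : z.re ≤ 0) : ∃ h : ℝ[X], NN h ∧ aeval z h = 0 := by
  refine ⟨X ^ 2 + C (-2 * z.re) * X + C (Complex.normSq z), ⟨fun k => ?_, ?_⟩, ?_⟩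
  · simp only [coeff_add, coeff_X_pow, coeff_C_mul, coeff_X, coeff_C]
    have h1 : 0 ≤ Complex.normSq z := Complex.normSq_nonneg z
    split_ifs <;> nlinarith
  · simp only [coeff_add, coeff_X_pow, coeff_C_mul, coeff_X, coeff_C]
    have h1 : 0 < Complex.normSq z := Complex.normSq_pos.2 hz
    simpa using h1
  · simp only [map_add, map_pow, map_mul, aeval_X, aeval_C]
    apply Complex.ext
    · simp [pow_two, Complex.normSq_apply]
      ring
    · simp [pow_two, Complex.normSq_apply]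
      ring

lemma expand_root (z : ℂ) (h : ∃ h : ℝ[X], NN h ∧ aeval (z ^ 2) h = 0) :
    ∃ h : ℝ[X], NN h ∧ aeval z h = 0 := by
  obtain ⟨g, hg, h0⟩ := h
  refine ⟨expand ℝ 2 g, hg.expand, ?_⟩
  rw [expand_aeval]
  exact h0

lemma nonreal (n : ℕ) : ∀ z : ℂ, z.im ≠ 0 → z.re ≤ 2 ^ n * |z.im| →
    ∃ h : ℝ[X], NN h ∧ aeval z h = 0 := by
  induction n with
  | zero =>
    intro z him hre
    have hz : z ≠ 0 := by
      rintro rfl
      simp at him
    rcases le_or_gt z.re 0 with h | h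
    · exact quad z hz h
    · refine expand_root z (quad _ (pow_ne_zero 2 hz) ?_)
      have : (z ^ 2).re = z.re ^ 2 - z.im ^ 2 := by
        simp [pow_two]
      rw [this]
      rw [pow_zero, one_mul] at hre
      have h1 : z.re ^ 2 ≤ |z.im| ^ 2 := by
        exact pow_le_pow_left₀ h.le hre 2
      rw [sq_abs] at h1
      linarith
  | succ n ih =>
    intro z him hre
    have hz : z ≠ 0 := by
      rintro rfl
      simp at him
    rcases le_or_gt z.re 0 with h | h
    · exact quad z hz h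
    · have e1 : (z ^ 2).re = z.re ^ 2 - z.im ^ 2 := by simp [pow_two]
      have e2 : (z ^ 2).im = 2 * z.re * z.im := by simp [pow_two]; ring
      refine expand_root z (ih _ ?_ ?_)
      · rw [e2]
        exact mul_ne_zero (by positivity) him
      · rw [e1, e2, abs_mul, abs_of_pos (by positivity : 0 < 2 * z.re)]
        have h1 : z.re * z.re ≤ z.re * (2 ^ (n + 1) * |z.im|) := mul_le_mul_of_nonneg_left hre h.le
        have h2 : 0 ≤ z.im ^ 2 := sq_nonneg _
        calc z.re ^ 2 - z.im ^ 2 ≤ z.re * z.re := by nlinarith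
          _ ≤ z.re * (2 ^ (n + 1) * |z.im|) := h1
          _ = 2 ^ n * (2 * z.re * |z.im|) := by ring

/-- A complex number that is not a nonnegative real is a root of a real polynomial with
nonnegative coefficients and positive constant coefficient. -/
lemma exists_NN (z : ℂ) (hz : z ≠ 0) (h : ¬ (0 < z.re ∧ z.im = 0)) :
    ∃ h : ℝ[X], NN h ∧ aeval z h = 0 := by
  by_cases him : z.im = 0
  · refine quad z hz ?_
    by_contra hc
    exact h ⟨not_le.1 hc, him⟩
  · obtain ⟨n, hn⟩ := pow_unbounded_of_one_lt (z.re / |z.im|) (by norm_num : (1 : ℝ) < 2)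
    refine nonreal n z him ?_
    have : 0 < |z.im| := abs_pos.2 him
    rw [div_lt_iff₀ this] at hn
    exact hn.le

lemma exists_NN_finset (s : Finset ℂ) (hs : ∀ z ∈ s, z ≠ 0 ∧ ¬ (0 < z.re ∧ z.im = 0)) :
    ∃ h : ℝ[X], NN h ∧ ∀ z ∈ s, aeval z h = 0 := by
  classical
  induction s using Finset.induction_on with
  | empty => exact ⟨1, NN.one, by simp⟩
  | insert w s hw ih =>
    obtain ⟨g, hg, hg0⟩ := ih fun z hz => hs z (Finset.mem_insert_of_mem hz)
    obtain ⟨f, hf, hf0⟩ := exists_NN w (hs w (Finset.mem_insert_self _ _)).1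
      (hs w (Finset.mem_insert_self _ _)).2
    refine ⟨f * g, hf.mul hg, fun z hz => ?_⟩
    rw [map_mul]
    rcases Finset.mem_insert.1 hz with rfl | hz
    · rw [hf0, zero_mul]
    · rw [hg0 z hz, mul_zero]

/-- With the first `d` coefficients positive. -/
lemma exists_Gamma (d : ℕ) (s : Finset ℂ) (hs : ∀ z ∈ s, z ≠ 0 ∧ ¬ (0 < z.re ∧ z.im = 0)) :
    ∃ h : ℝ[X], (∀ k, 0 ≤ h.coeff k) ∧ (∀ k, k < d → 0 < h.coeff k) ∧ ∀ z ∈ s, aeval z h = 0 := by
  obtain ⟨g, hg, hg0⟩ := exists_NN_finset s hs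
  refine ⟨(∑ i ∈ Finset.range d, X ^ i) * g, fun k => ?_, fun k hk => ?_, fun z hz => ?_⟩
  · rw [Finset.sum_mul, finsetSum_coeff]
    refine Finset.sum_nonneg fun i _ => ?_
    rw [coeff_X_pow_mul']
    split_ifs
    · exact hg.1 _
    · exact le_rfl
  · rw [Finset.sum_mul, finsetSum_coeff]
    refine Finset.sum_pos' (fun i _ => ?_) ⟨k, Finset.mem_range.2 hk, ?_⟩
    · rw [coeff_X_pow_mul']
      split_ifs
      · exact hg.1 _
      · exact le_rfl
    · rw [coeff_X_pow_mul', if_pos le_rfl, Nat.sub_self]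
      exact hg.2
  · rw [map_mul, hg0 z hz, mul_zero]

/-! ### The evaluations at all the roots control the coefficients -/

lemma exists_bound (d : ℕ) (W : Finset ℂ) (hW : W.card = d) : ∃ K : ℝ, 0 < K ∧
    ∀ (e : ℕ → ℝ) (B : ℝ), 0 ≤ B →
      (∀ w ∈ W, ‖∑ i ∈ Finset.range d, (e i : ℂ) * w ^ i‖ ≤ B) → ∀ i < d, |e i| ≤ K * B := by
  classical
  let v : Fin d → (↥W → ℂ) := fun i w => (w : ℂ) ^ (i : ℕ)
  let L : (Fin d → ℝ) →ₗ[ℝ] (↥W → ℂ) := Fintype.linearCombination ℝ v
  have hL : ∀ e w, L e w = ∑ i : Fin d, (e i : ℂ) * (w : ℂ) ^ (i : ℕ) := by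
    intro e w
    simp [L, v, Fintype.linearCombination_apply, Finset.sum_apply]
  have hker : LinearMap.ker L = ⊥ := by
    rw [LinearMap.ker_eq_bot']
    intro e he
    have hp : (∑ i : Fin d, C (e i : ℂ) * X ^ (i : ℕ) : ℂ[X]) = 0 := by
      refine Polynomial.eq_zero_of_degree_lt_of_eval_finset_eq_zero W ?_ ?_
      · rw [hW]
        refine (degree_sum_le _ _).trans_lt ?_
        rw [Finset.sup_lt_iff (by simp)]
        intro i _
        exact (degree_C_mul_X_pow_le _ _).trans_lt (by exact_mod_cast i.2)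
      · intro w hw
        rw [eval_finsetSum]
        have := congrFun he ⟨w, hw⟩
        rw [hL] at this
        simpa using this
    funext i
    have h1 := congrArg (fun q => coeff q (i : ℕ)) hp
    simp only [finsetSum_coeff, coeff_C_mul_X_pow, coeff_zero] at h1
    rw [Finset.sum_eq_single i] at h1
    · simpa using h1
    · intro j _ hj
      rw [if_neg]
      intro h2
      exact hj (Fin.ext h2.symm)
    · simp
  obtain ⟨K, hK, hanti⟩ := L.exists_antilipschitzWith hker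
  refine ⟨K, by exact_mod_cast hK, fun e B hB he i hi => ?_⟩
  have h1 := hanti.le_mul_dist (fun i : Fin d => e i) 0
  rw [dist_zero_right, map_zero, dist_zero_right] at h1
  have h2 : ‖L (fun i : Fin d => e i)‖ ≤ B := by
    rw [pi_norm_le_iff_of_nonneg hB]
    intro w
    rw [hL]
    have h3 := he w w.2
    rw [Finset.sum_range] at h3
    exact h3
  have h3 : |e i| ≤ ‖(fun i : Fin d => e i)‖ := norm_le_pi_norm (fun i : Fin d => e i) ⟨i, hi⟩
  calc |e i| ≤ ‖(fun i : Fin d => e i)‖ := h3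
    _ ≤ K * ‖L (fun i : Fin d => e i)‖ := h1
    _ ≤ K * B := by gcongr

/-! ### Data of a Pisot number -/

structure Data (β : ℝ) where
  one_lt : 1 < β
  p : ℤ[X]
  monic : p.Monic
  W : Finset ℂ
  card : W.card = p.natDegree
  root : ∀ w ∈ W, aeval w p = 0
  mem : (β : ℂ) ∈ W
  lt : ∀ w ∈ W, w ≠ β → ‖w‖ < 1
  ne_zero : ∀ w ∈ W, w ≠ 0

variable {β : ℝ}

lemma cast_aeval (q : ℤ[X]) : ((aeval β q : ℝ) : ℂ) = aeval (β : ℂ) q := by
  have := Polynomial.aeval_algebraMap_apply ℂ β q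
  simpa using this.symm

lemma Data.aeval_mod (M : Data β) (w : ℂ) (hw : w ∈ M.W) (q : ℤ[X]) :
    aeval w (q %ₘ M.p) = aeval w q := by
  conv_rhs => rw [← modByMonic_add_div q M.p]
  rw [map_add, map_mul, M.root w hw, zero_mul, add_zero]

lemma Data.aeval_mod' (M : Data β) (q : ℤ[X]) : aeval β (q %ₘ M.p) = aeval β q := by
  have := M.aeval_mod _ M.mem q
  rw [← cast_aeval, ← cast_aeval] at this
  exact_mod_cast this

lemma Data.natDegree_pos (M : Data β) : 0 < M.p.natDegree := by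
  rw [← M.card]
  exact Finset.card_pos.2 ⟨_, M.mem⟩

lemma Data.mod_lt (M : Data β) (q : ℤ[X]) : (q %ₘ M.p).natDegree < M.p.natDegree := by
  refine natDegree_modByMonic_lt q M.monic ?_
  intro h
  have := M.natDegree_pos
  rw [h] at this
  simp at this

/-- **Rounding.** -/
theorem Data.round (M : Data β) (hpos : ∀ w ∈ M.W, w ≠ β → ¬ (0 < w.re ∧ w.im = 0)) :
    ∃ B : ℝ, ∀ q : ℤ[X], (∀ w ∈ M.W, w ≠ β → ‖aeval w q‖ ≤ 1) → B ≤ aeval β q →
      ∃ r : ℤ[X], (∀ k, 0 ≤ r.coeff k) ∧ aeval β r = aeval β q := by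
  classical
  set d := M.p.natDegree with hd
  obtain ⟨Γ, h0, hp, hz⟩ := exists_Gamma d (M.W.erase β) (fun z hz =>
    ⟨M.ne_zero z (Finset.mem_of_mem_erase hz),
      hpos z (Finset.mem_of_mem_erase hz) (Finset.ne_of_mem_erase hz)⟩)
  obtain ⟨K, hK, hKe⟩ := exists_bound d M.W M.card
  set D := Γ.natDegree with hD
  have hdD : d ≤ D + 1 := by
    have := M.natDegree_pos
    have h1 := hp (d - 1) (by omega)
    have h2 := le_natDegree_of_ne_zero h1.ne'
    omega
  set E : ℝ := 1 + ∑ k ∈ Finset.Ico d (D + 1), β ^ k with hE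
  have hβ0 : 0 < β := lt_trans one_pos M.one_lt
  have hE0 : 0 ≤ E := by positivity
  have hΓβ : 0 < aeval β Γ := by
    rw [aeval_eq_sum_range]
    refine Finset.sum_pos' (fun i _ => ?_) ⟨0, by simp, ?_⟩
    · rw [smul_eq_mul]
      exact mul_nonneg (h0 i) (by positivity)
    · rw [smul_eq_mul, pow_zero, mul_one]
      exact hp 0 M.natDegree_pos
  have hΓsplit : ∀ w : ℂ, aeval w Γ = (∑ k ∈ Finset.range d, (Γ.coeff k : ℂ) * w ^ k) +
      ∑ k ∈ Finset.Ico d (D + 1), (Γ.coeff k : ℂ) * w ^ k := by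
    intro w
    rw [aeval_eq_sum_range, Finset.sum_range_add_sum_Ico _ hdD]
    refine Finset.sum_congr rfl fun i _ => ?_
    rw [Complex.real_smul]
  refine ⟨aeval β Γ * ∑ i ∈ Finset.range d, (K * E) / Γ.coeff i, fun q hq hB => ?_⟩
  set T : ℝ := aeval β q with hT
  set l : ℝ := T / aeval β Γ with hl
  have hl1 : ∀ i < d, K * E ≤ l * Γ.coeff i := by
    intro i hi
    have h1 : (∑ i ∈ Finset.range d, (K * E) / Γ.coeff i) ≤ l := by
      rw [hl, le_div_iff₀ hΓβ, mul_comm]
      exact hB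
    have h2 : (K * E) / Γ.coeff i ≤ ∑ i ∈ Finset.range d, (K * E) / Γ.coeff i := by
      refine Finset.single_le_sum (f := fun i => (K * E) / Γ.coeff i) (fun j hj => ?_)
        (Finset.mem_range.2 hi)
      have := hp j (Finset.mem_range.1 hj)
      positivity
    have h3 := hp i hi
    rw [← div_le_iff₀ h3]
    exact h2.trans h1
  have hl0 : 0 ≤ l := by
    have h1 := hl1 0 M.natDegree_pos
    have h2 := hp 0 M.natDegree_pos
    have h3 : 0 ≤ l * Γ.coeff 0 := le_trans (by positivity) h1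
    by_contra hneg
    push Not at hneg
    nlinarith
  set r1 : ℤ[X] := ∑ k ∈ Finset.Ico d (D + 1), C ⌊l * Γ.coeff k⌋ * X ^ k with hr1
  set s : ℤ[X] := (q - r1) %ₘ M.p with hs
  have hsdeg : s.natDegree < d := M.mod_lt _
  have hr1c : ∀ k, 0 ≤ r1.coeff k := by
    intro k
    rw [hr1, finsetSum_coeff]
    refine Finset.sum_nonneg fun i _ => ?_
    rw [coeff_C_mul_X_pow]
    split_ifs
    · exact Int.floor_nonneg.2 (mul_nonneg hl0 (h0 i))
    · exact le_rfl
  -- the evaluations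
  have hev : ∀ w ∈ M.W, ∑ i ∈ Finset.range d, (((s.coeff i : ℝ) - l * Γ.coeff i : ℝ) : ℂ) * w ^ i =
      (aeval w q - (l : ℂ) * aeval w Γ) +
        ∑ k ∈ Finset.Ico d (D + 1), ((l * Γ.coeff k - ⌊l * Γ.coeff k⌋ : ℝ) : ℂ) * w ^ k := by
    intro w hw
    have h1 : aeval w s = ∑ i ∈ Finset.range d, ((s.coeff i : ℝ) : ℂ) * w ^ i := by
      rw [aeval_eq_sum_range' hsdeg]
      refine Finset.sum_congr rfl fun i _ => ?_
      rw [zsmul_eq_mul]
      push_cast
      rfl
    have h2 : aeval w s = aeval w q - ∑ k ∈ Finset.Ico d (D + 1), ((⌊l * Γ.coeff k⌋ : ℝ) : ℂ) * w ^ k := by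
      rw [hs, M.aeval_mod w hw, map_sub, hr1, map_sum]
      congr 1
      refine Finset.sum_congr rfl fun i _ => ?_
      rw [map_mul, map_pow, aeval_X, aeval_C]
      simp
    have h3 := hΓsplit w
    have h4 : ∑ i ∈ Finset.range d, (((s.coeff i : ℝ) - l * Γ.coeff i : ℝ) : ℂ) * w ^ i =
        (∑ i ∈ Finset.range d, ((s.coeff i : ℝ) : ℂ) * w ^ i) -
          l * ∑ k ∈ Finset.range d, (Γ.coeff k : ℂ) * w ^ k := by
      rw [Finset.mul_sum, ← Finset.sum_sub_distrib]
      refine Finset.sum_congr rfl fun i _ => ?_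
      push_cast
      ring
    have h5 : ∑ k ∈ Finset.Ico d (D + 1), ((l * Γ.coeff k - ⌊l * Γ.coeff k⌋ : ℝ) : ℂ) * w ^ k =
        l * (∑ k ∈ Finset.Ico d (D + 1), (Γ.coeff k : ℂ) * w ^ k) -
          ∑ k ∈ Finset.Ico d (D + 1), ((⌊l * Γ.coeff k⌋ : ℝ) : ℂ) * w ^ k := by
      rw [Finset.mul_sum, ← Finset.sum_sub_distrib]
      refine Finset.sum_congr rfl fun i _ => ?_
      push_cast
      ring
    rw [h4, ← h1, h2, h5, h3]
    ring
  have hbd : ∀ w ∈ M.W, ‖∑ i ∈ Finset.range d,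
      (((s.coeff i : ℝ) - l * Γ.coeff i : ℝ) : ℂ) * w ^ i‖ ≤ E := by
    intro w hw
    rw [hev w hw]
    have hwβ : ‖w‖ ≤ β := by
      by_cases h : w = β
      · rw [h, Complex.norm_real, Real.norm_eq_abs, abs_of_pos hβ0]
      · exact (M.lt w hw h).le.trans M.one_lt.le
    have h1 : ‖aeval w q - (l : ℂ) * aeval w Γ‖ ≤ 1 := by
      by_cases h : w = β
      · have e1 : aeval (β : ℂ) Γ = ((aeval β Γ : ℝ) : ℂ) := by
          have := Polynomial.aeval_algebraMap_apply ℂ β Γ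
          simpa using this
        rw [h, ← cast_aeval, e1, ← Complex.ofReal_mul, hl, div_mul_cancel₀ _ hΓβ.ne', ← hT,
          sub_self, norm_zero]
        exact zero_le_one
      · rw [hz w (Finset.mem_erase.2 ⟨h, hw⟩), mul_zero, sub_zero]
        exact hq w hw h
    have h2 : ‖∑ k ∈ Finset.Ico d (D + 1), ((l * Γ.coeff k - ⌊l * Γ.coeff k⌋ : ℝ) : ℂ) * w ^ k‖ ≤
        ∑ k ∈ Finset.Ico d (D + 1), β ^ k := by
      refine (norm_sum_le _ _).trans (Finset.sum_le_sum fun k _ => ?_)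
      rw [norm_mul, norm_pow, Complex.norm_real, Real.norm_eq_abs]
      have h3 : |l * Γ.coeff k - ⌊l * Γ.coeff k⌋| ≤ 1 := by
        rw [abs_of_nonneg (sub_nonneg.2 (Int.floor_le _))]
        have := Int.lt_floor_add_one (l * Γ.coeff k)
        linarith
      calc |l * Γ.coeff k - ⌊l * Γ.coeff k⌋| * ‖w‖ ^ k ≤ 1 * β ^ k := by gcongr
        _ = β ^ k := one_mul _
    refine (norm_add_le _ _).trans ?_
    rw [hE]
    exact add_le_add h1 h2
  have hsc : ∀ k, 0 ≤ s.coeff k := by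
    intro k
    rcases lt_or_ge k d with hk | hk
    · have h1 := hKe (fun i => (s.coeff i : ℝ) - l * Γ.coeff i) E hE0 hbd k hk
      have h2 := hl1 k hk
      have h3 := neg_le_of_abs_le h1
      have h4 : (0 : ℝ) ≤ s.coeff k := by linarith
      exact_mod_cast h4
    · rw [coeff_eq_zero_of_natDegree_lt (lt_of_lt_of_le hsdeg hk)]
  refine ⟨r1 + s, fun k => ?_, ?_⟩
  · rw [coeff_add]
    exact add_nonneg (hr1c k) (hsc k)
  · rw [map_add, hs, M.aeval_mod', map_sub]
    ring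

lemma rep_of_nonneg (hβ : 1 < β) (n : ℕ) (x : ℝ) (hx1 : x < 1) (r : ℤ[X])
    (hr : ∀ k, 0 ≤ r.coeff k) (h : aeval β r = β ^ n * x) : ∃ m, Rep β m x := by
  have hβ0 : 0 < β := lt_trans one_pos hβ
  have hcoef : ∀ k, n ≤ k → r.coeff k = 0 := by
    intro k hk
    by_contra hne
    have h1 : (1 : ℝ) ≤ r.coeff k := by
      have := hr k
      have h2 : 1 ≤ r.coeff k := by omega
      exact_mod_cast h2
    have h2 : β ^ n ≤ aeval β r := by
      rw [aeval_eq_sum_range]
      have h3 : r.coeff k • β ^ k ≤ ∑ i ∈ Finset.range (r.natDegree + 1), r.coeff i • β ^ i := by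
        refine Finset.single_le_sum (f := fun i => r.coeff i • β ^ i) (fun i _ => ?_) ?_
        · rw [zsmul_eq_mul]
          exact mul_nonneg (by exact_mod_cast hr i) (by positivity)
        · rw [Finset.mem_range]
          have := le_natDegree_of_ne_zero hne
          omega
      rw [zsmul_eq_mul] at h3
      have h4 : β ^ n ≤ β ^ k := pow_le_pow_right₀ hβ.le hk
      calc β ^ n ≤ β ^ k := h4
        _ ≤ r.coeff k * β ^ k := le_mul_of_one_le_left (by positivity) h1
        _ ≤ _ := h3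
    rw [h] at h2
    have h3 : β ^ n * x < β ^ n * 1 := mul_lt_mul_of_pos_left hx1 (by positivity)
    linarith
  have hx : x = ∑ k ∈ Finset.range n, (r.coeff k : ℝ) * β ^ k / β ^ n := by
    have h1 : aeval β r = ∑ k ∈ Finset.range n, (r.coeff k : ℝ) * β ^ k := by
      rw [aeval_eq_sum_range' (n := max n (r.natDegree + 1)) (by omega)]
      rw [← Finset.sum_subset (Finset.range_mono (le_max_left n (r.natDegree + 1)))]
      · exact Finset.sum_congr rfl fun i _ => zsmul_eq_mul _ _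
      · intro i _ hi
        rw [Finset.mem_range, not_lt] at hi
        rw [hcoef i hi, zero_smul]
    rw [← Finset.sum_div, ← h1, h, mul_div_cancel_left₀ _ (by positivity)]
  refine ⟨∑ k ∈ Finset.range n, (r.coeff k).toNat, n, fun j => if j < n then
    (r.coeff (n - 1 - j)).toNat else 0, fun j => ?_, ?_⟩
  · dsimp only
    split_ifs with hj
    · exact Finset.single_le_sum (f := fun k => (r.coeff k).toNat) (fun _ _ => Nat.zero_le _)
        (Finset.mem_range.2 (by omega))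
    · exact Nat.zero_le _
  · rw [hx, ← Finset.sum_range_reflect]
    refine Finset.sum_congr rfl fun j hj => ?_
    rw [Finset.mem_range] at hj
    beta_reduce
    rw [if_pos hj]
    have h1 : (((r.coeff (n - 1 - j)).toNat : ℕ) : ℝ) = (r.coeff (n - 1 - j) : ℝ) := by
      have := Int.toNat_of_nonneg (hr (n - 1 - j))
      exact_mod_cast this
    rw [h1, mul_div_assoc]
    congr 1
    have e : β ^ n = β ^ (n - 1 - j) * β ^ (j + 1) := by
      rw [← pow_add]
      congr 1
      omega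
    rw [e, div_mul_cancel_left₀ (by positivity)]

/-- every element of `ℤ[β] ∩ [0, 1)` has a finite representation over some alphabet -/
theorem Data.exists_rep (M : Data β) (hpos : ∀ w ∈ M.W, w ≠ β → ¬ (0 < w.re ∧ w.im = 0))
    (q : ℤ[X]) (hq0 : 0 ≤ aeval β q) (hq1 : aeval β q < 1) : ∃ m, Rep β m (aeval β q) := by
  obtain ⟨B, hB⟩ := M.round hpos
  rcases hq0.eq_or_lt with h | h
  · exact ⟨0, 0, fun _ => 0, fun _ => le_rfl, by simpa using h.symm⟩
  · have h1 : ∀ᶠ n : ℕ in Filter.atTop, B ≤ β ^ n * aeval β q := by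
      have := (tendsto_pow_atTop_atTop_of_one_lt M.one_lt).atTop_mul_const h
      exact this.eventually_ge_atTop B
    have h2 : ∀ᶠ n : ℕ in Filter.atTop, ∀ w ∈ M.W, w ≠ β → ‖w ^ n * aeval w q‖ ≤ 1 := by
      rw [Filter.eventually_all_finset]
      intro w hw
      by_cases hwβ : w = β
      · exact Filter.Eventually.of_forall fun n h => absurd hwβ h
      · have h3 : Filter.Tendsto (fun n : ℕ => ‖w ^ n * aeval w q‖) Filter.atTop (nhds 0) := by
          have := (tendsto_pow_atTop_nhds_zero_of_norm_lt_one (M.lt w hw hwβ)).mul_const (aeval w q)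
          rw [zero_mul] at this
          simpa using this.norm
        filter_upwards [h3.eventually_le_const zero_lt_one] with n hn _
        exact hn
    obtain ⟨n, hn1, hn2⟩ := (h1.and h2).exists
    obtain ⟨r, hr, hr2⟩ := hB (X ^ n * q) (by
      intro w hw hwβ
      rw [map_mul, map_pow, aeval_X]
      exact hn2 w hw hwβ) (by
      rw [map_mul, map_pow, aeval_X]
      exact hn1)
    refine rep_of_nonneg M.one_lt n _ hq1 r hr ?_
    rw [hr2, map_mul, map_pow, aeval_X]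

/-- finitely many elements with bounded conjugates -/
lemma Data.finite (M : Data β) (R : ℝ) : {x : ℝ | ∃ q : ℤ[X], aeval β q = x ∧
    ∀ w ∈ M.W, ‖aeval w q‖ ≤ R}.Finite := by
  obtain ⟨K, hK, hKe⟩ := exists_bound M.p.natDegree M.W M.card
  set N : ℤ := ⌈K * max R 0⌉ with hN
  refine ((Set.finite_Icc (fun _ : Fin M.p.natDegree => -N) (fun _ => N)).image
    (fun e => ∑ i : Fin M.p.natDegree, (e i : ℝ) * β ^ (i : ℕ))).subset ?_
  rintro x ⟨q, hqx, hq⟩
  have h1 : ∀ i < M.p.natDegree, |((q %ₘ M.p).coeff i : ℝ)| ≤ K * max R 0 := by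
    refine hKe (fun i => ((q %ₘ M.p).coeff i : ℝ)) (max R 0) (le_max_right _ _) fun w hw => ?_
    have h2 : aeval w (q %ₘ M.p) = ∑ i ∈ Finset.range M.p.natDegree,
        (((q %ₘ M.p).coeff i : ℝ) : ℂ) * w ^ i := by
      rw [aeval_eq_sum_range' (M.mod_lt q)]
      refine Finset.sum_congr rfl fun i _ => ?_
      rw [zsmul_eq_mul]
      push_cast
      rfl
    rw [← h2, M.aeval_mod w hw]
    exact (hq w hw).trans (le_max_left _ _)
  refine ⟨fun i => (q %ₘ M.p).coeff i, ⟨fun i => ?_, fun i => ?_⟩, ?_⟩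
  · have h2 := neg_le_of_abs_le (h1 i i.2)
    have h3 : (K * max R 0) ≤ N := Int.le_ceil _
    have h4 : (-N : ℝ) ≤ (q %ₘ M.p).coeff i := by linarith
    exact_mod_cast h4
  · have h2 := le_of_abs_le (h1 i i.2)
    have h3 : (K * max R 0) ≤ N := Int.le_ceil _
    have h4 : ((q %ₘ M.p).coeff i : ℝ) ≤ N := by linarith
    exact_mod_cast h4
  · dsimp only
    rw [← hqx, ← M.aeval_mod' q, aeval_eq_sum_range' (M.mod_lt q), Finset.sum_range]
    exact Finset.sum_congr rfl fun i _ => (zsmul_eq_mul _ _).symm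

lemma Data.exists_rho (M : Data β) : ∃ ρ : ℝ, 0 < ρ ∧ ρ < 1 ∧ ∀ w ∈ M.W, w ≠ β → ‖w‖ ≤ ρ := by
  classical
  set a := (M.W.erase β).sup (fun z => ‖z‖₊) with ha
  have h1 : a < 1 := by
    rw [ha, Finset.sup_lt_iff (by simp)]
    intro w hw
    have := M.lt w (Finset.mem_of_mem_erase hw) (Finset.ne_of_mem_erase hw)
    exact_mod_cast this
  refine ⟨max a (1 / 2), by positivity, max_lt (by exact_mod_cast h1) (by norm_num),
    fun w hw hwβ => le_trans ?_ (le_max_left _ _)⟩
  have h2 : ‖w‖₊ ≤ a := Finset.le_sup (f := fun z : ℂ => ‖z‖₊) (Finset.mem_erase.2 ⟨hwβ, hw⟩)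
  exact_mod_cast h2

/-- **A uniform alphabet.** -/
theorem Data.uniform (M : Data β) (hpos : ∀ w ∈ M.W, w ≠ β → ¬ (0 < w.re ∧ w.im = 0)) :
    ∃ m, ∀ q : ℤ[X], 0 ≤ aeval β q → aeval β q < 1 → Rep β m (aeval β q) := by
  have hβ0 : 0 < β := lt_trans one_pos M.one_lt
  obtain ⟨ρ, hρ0, hρ1, hρ⟩ := M.exists_rho
  set R0 : ℝ := β / (1 - ρ) with hR0
  have hR0' : ρ * R0 + β = R0 := by
    rw [hR0]
    field_simp [(sub_pos.2 hρ1).ne']
    ring
  have hR0pos : 0 < R0 := div_pos hβ0 (sub_pos.2 hρ1)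
  have hfin := M.finite (1 + R0)
  have hfin' : {x : ℝ | (∃ q : ℤ[X], aeval β q = x ∧ ∀ w ∈ M.W, ‖aeval w q‖ ≤ 1 + R0) ∧
      0 ≤ x ∧ x < 1}.Finite := hfin.subset fun x hx => hx.1
  have h1 : ∀ᶠ m : ℕ in Filter.atTop, ∀ x ∈ {x : ℝ | (∃ q : ℤ[X], aeval β q = x ∧
      ∀ w ∈ M.W, ‖aeval w q‖ ≤ 1 + R0) ∧ 0 ≤ x ∧ x < 1}, Rep β m x := by
    rw [Filter.eventually_all_finite hfin']
    rintro x ⟨⟨q, hqx, -⟩, hx0, hx1⟩
    rw [← hqx] at hx0 hx1 ⊢
    obtain ⟨m, hm⟩ := M.exists_rep hpos q hx0 hx1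
    filter_upwards [Filter.eventually_ge_atTop m] with m' hm'
    exact hm.mono hm'
  obtain ⟨m, hm, hm2⟩ := (h1.and (Filter.eventually_ge_atTop ⌊β⌋₊)).exists
  refine ⟨m, ?_⟩
  have key : ∀ i : ℕ, ∀ q : ℤ[X], 0 ≤ aeval β q → aeval β q < 1 →
      (∀ w ∈ M.W, w ≠ β → ‖aeval w q‖ ≤ (ρ⁻¹) ^ i + R0) → Rep β m (aeval β q) := by
    intro i
    induction i with
    | zero =>
      intro q hq0 hq1 hq
      refine hm _ ⟨⟨q, rfl, fun w hw => ?_⟩, hq0, hq1⟩
      by_cases hwβ : w = β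
      · rw [hwβ, ← cast_aeval, Complex.norm_real, Real.norm_eq_abs, abs_of_nonneg hq0]
        linarith
      · simpa using hq w hw hwβ
    | succ i ih =>
      intro q hq0 hq1 hq
      set b : ℕ := ⌊β * aeval β q⌋₊ with hb
      have hb1 : (b : ℝ) ≤ β * aeval β q := Nat.floor_le (by positivity)
      have hb2 : β * aeval β q < b + 1 := Nat.lt_floor_add_one _
      have hbβ : (b : ℝ) ≤ β := hb1.trans (by nlinarith)
      have e1 : aeval β (X * q - C (b : ℤ)) = β * aeval β q - b := by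
        simp
      have h2 := ih (X * q - C (b : ℤ)) (by rw [e1]; linarith) (by rw [e1]; linarith) (by
        intro w hw hwβ
        have e2 : aeval w (X * q - C (b : ℤ)) = w * aeval w q - b := by simp
        rw [e2]
        refine (norm_sub_le _ _).trans ?_
        rw [norm_mul, Complex.norm_natCast]
        have h3 := hq w hw hwβ
        have h4 := hρ w hw hwβ
        have h5 : ‖w‖ * ‖aeval w q‖ ≤ ρ * ((ρ⁻¹) ^ (i + 1) + R0) := by gcongr
        have h6 : ρ * ((ρ⁻¹) ^ (i + 1) + R0) = (ρ⁻¹) ^ i + ρ * R0 := by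
          rw [mul_add, pow_succ]
          congr 1
          rw [mul_comm, mul_assoc, inv_mul_cancel₀ hρ0.ne', mul_one]
        linarith)
      rw [e1] at h2
      have h3 := h2.cons b ((Nat.floor_mono (by nlinarith : β * aeval β q ≤ β)).trans hm2)
      convert h3 using 1
      field_simp
      ring
  intro q hq0 hq1
  have h3 : ∀ᶠ i : ℕ in Filter.atTop, ∀ w ∈ M.W, ‖aeval w q‖ ≤ (ρ⁻¹) ^ i := by
    rw [Filter.eventually_all_finset]
    intro w _
    exact (tendsto_pow_atTop_atTop_of_one_lt ((one_lt_inv₀ hρ0).2 hρ1)).eventually_ge_atTop _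
  obtain ⟨i, hi⟩ := h3.exists
  exact key i q hq0 hq1 fun w hw _ => (hi w hw).trans (by linarith)

/-! ### From a Pisot number to the data -/

lemma exists_data (β : ℝ) (h1 : 1 < β) (hint : IsIntegral ℤ β)
    (hP : ∀ z : ℂ, aeval z (minpoly ℤ β) = 0 → z ≠ (β : ℂ) → ‖z‖ < 1) :
    ∃ M : Data β, M.p = minpoly ℤ β ∧ ∀ z : ℂ, z ∈ M.W ↔ aeval z (minpoly ℤ β) = 0 := by
  classical
  have hβ0 : 0 < β := lt_trans one_pos h1
  set p := minpoly ℤ β with hp
  have hmonic : p.Monic := minpoly.monic hint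
  have hq : minpoly ℚ β = p.map (algebraMap ℤ ℚ) :=
    minpoly.isIntegrallyClosed_eq_field_fractions' ℚ hint
  have hirr : Irreducible (minpoly ℚ β) := minpoly.irreducible (hint.tower_top)
  have hsep : (minpoly ℚ β).Separable := hirr.separable
  have hmap : p.map (algebraMap ℤ ℂ) = (minpoly ℚ β).map (algebraMap ℚ ℂ) := by
    rw [hq, Polynomial.map_map]
    congr 1
  have hsepC : (p.map (algebraMap ℤ ℂ)).Separable := by
    rw [hmap]
    exact hsep.map
  have hne : p.map (algebraMap ℤ ℂ) ≠ 0 := (hmonic.map _).ne_zero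
  have hmem : ∀ z : ℂ, z ∈ (p.map (algebraMap ℤ ℂ)).roots.toFinset ↔ aeval z p = 0 := by
    intro z
    rw [Multiset.mem_toFinset, mem_roots hne, IsRoot.def, eval_map_algebraMap]
  refine ⟨{ one_lt := h1, p := p, monic := hmonic, W := (p.map (algebraMap ℤ ℂ)).roots.toFinset,
            card := ?_, root := fun w hw => (hmem w).1 hw, mem := ?_, lt := ?_, ne_zero := ?_ },
    rfl, hmem⟩
  · rw [Multiset.toFinset_card_of_nodup (nodup_roots hsepC),
      ← Polynomial.Splits.natDegree_eq_card_roots (IsAlgClosed.splits _),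
      hmonic.natDegree_map]
  · rw [hmem, ← cast_aeval, minpoly.aeval]
    simp
  · intro w hw hwβ
    exact hP w ((hmem w).1 hw) hwβ
  · rintro w hw rfl
    have h2 := (hmem 0).1 hw
    have h3 : coeff p 0 = 0 := by
      rw [← coeff_zero_eq_aeval_zero'] at h2
      simpa using h2
    have h4 : (minpoly ℚ β).coeff 0 ≠ 0 :=
      minpoly.coeff_zero_ne_zero (hint.tower_top) hβ0.ne'
    rw [hq, coeff_map, h3, map_zero] at h4
    exact h4 rfl

/-- The characterization. -/
theorem main (β : ℝ) (h1 : 1 < β) (hint : IsIntegral ℤ β)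
    (hP : ∀ z : ℂ, aeval z (minpoly ℤ β) = 0 → z ≠ (β : ℂ) → ‖z‖ < 1) :
    (∃ m : ℕ, ∀ x ∈ Algebra.adjoin ℤ {β}, 0 ≤ x → x < 1 →
      ∃ (k : ℕ) (a : ℕ → ℕ), (∀ j, a j ≤ m) ∧ x = ∑ j ∈ Finset.range k, (a j : ℝ) / β ^ (j + 1)) ↔
    ∀ y : ℝ, 0 < y → aeval y (minpoly ℤ β) = 0 → y = β := by
  have hβ0 : 0 < β := lt_trans one_pos h1
  obtain ⟨M, hMp, hMW⟩ := exists_data β h1 hint hP
  constructor
  · rintro ⟨m, hm⟩ y hy hroot
    by_contra hne
    have hyC : aeval (y : ℂ) (minpoly ℤ β) = 0 := by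
      rw [← cast_aeval, hroot]
      simp
    have hy1 : y < 1 := by
      have := hP y hyC (by exact_mod_cast hne)
      rw [Complex.norm_real, Real.norm_eq_abs, abs_of_pos hy] at this
      exact this
    have hyβ : 0 < β - y := by linarith
    obtain ⟨k, hk⟩ := exists_nat_gt (1 / (β - y))
    rw [div_lt_iff₀ hyβ] at hk
    set b : ℤ := ⌊(k : ℝ) * β⌋ with hb
    have hb1 : (b : ℝ) ≤ k * β := Int.floor_le _
    have hb2 : (k : ℝ) * β < b + 1 := Int.lt_floor_add_one _
    obtain ⟨n, a, -, ha⟩ := hm (k * β - b) (by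
      refine sub_mem (mul_mem (natCast_mem _ _) (Algebra.self_mem_adjoin_singleton ℤ β)) ?_
      exact intCast_mem _ _) (by linarith) (by linarith)
    have hpol : aeval β (X ^ n * (C (k : ℤ) * X - C b) -
        ∑ j ∈ Finset.range n, C (a j : ℤ) * X ^ (n - 1 - j) : ℤ[X]) = 0 := by
      simp only [map_sub, map_mul, map_pow, aeval_X, map_sum, eq_intCast,
        map_natCast, map_intCast]
      rw [ha, Finset.mul_sum, sub_eq_zero]
      refine Finset.sum_congr rfl fun j hj => ?_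
      rw [Finset.mem_range] at hj
      have e : β ^ n = β ^ (n - 1 - j) * β ^ (j + 1) := by
        rw [← pow_add]
        congr 1
        omega
      rw [e]
      field_simp
    have hdvd := minpoly.isIntegrallyClosed_dvd hint hpol
    obtain ⟨g, hg⟩ := hdvd
    have h3 : aeval y (X ^ n * (C (k : ℤ) * X - C b) -
        ∑ j ∈ Finset.range n, C (a j : ℤ) * X ^ (n - 1 - j) : ℤ[X]) = 0 := by
      rw [hg, map_mul, hroot, zero_mul]
    simp only [map_sub, map_mul, map_pow, aeval_X, map_sum, eq_intCast,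
      map_natCast, map_intCast] at h3
    have h4 : 0 ≤ ∑ j ∈ Finset.range n, (a j : ℝ) * y ^ (n - 1 - j) :=
      Finset.sum_nonneg fun j _ => by positivity
    have h5 : 0 ≤ y ^ n * (k * y - b) := by linarith
    have h6 : 0 ≤ (k : ℝ) * y - b := by
      by_contra hneg
      push Not at hneg
      have := mul_neg_of_pos_of_neg (pow_pos hy n) hneg
      linarith
    nlinarith
  · intro h
    have hpos : ∀ w ∈ M.W, w ≠ β → ¬ (0 < w.re ∧ w.im = 0) := by
      rintro w hw hwβ ⟨hre, him⟩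
      have hw' : w = (w.re : ℂ) := by
        apply Complex.ext <;> simp [him]
      have h2 := (hMW w).1 hw
      rw [hw', ← cast_aeval] at h2
      have h3 := h w.re hre (by exact_mod_cast h2)
      rw [hw', h3] at hwβ
      exact hwβ rfl
    obtain ⟨m, hm⟩ := M.uniform hpos
    refine ⟨m, fun x hx hx0 hx1 => ?_⟩
    rw [Algebra.adjoin_singleton_eq_range_aeval] at hx
    obtain ⟨q, rfl⟩ := hx
    exact hm q hx0 hx1

end Pool.Agent.V11296.Pisot
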