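import Pool.Agent.V11296.FP1

/-!
Library V11296.RP (helper296), part 1: random shifts of a function with small exponential sums.
-/

set_option autoImplicit false

namespace Pool.Agent.V11296.RP

open Finset
open Pool.Agent.H807R2.Dav (ee norm_ee ee_add ee_int ee_pow ee_zero)
open Pool.Agent.H373R2.T7 (orth parseval_Icc)

/-- the circle method: all shifts in the mean -/
lemma circ (N : ℕ) (hN : 1 ≤ N) (u : ℕ → ℂ) (S : ℝ) (hS : ∀ α : ℝ, ‖∑ n ∈ Icc 1 (2 * N), u n * ee ((n : ℝ) * α)‖ ≤ S)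
    (g : ℕ → ℂ) (hg : ∀ n, ‖g n‖ ≤ 1) :
    ∑ m ∈ Icc 1 N, ‖∑ n ∈ Icc 1 N, g n * u (n + m)‖ ≤ S * N := by
  set M : ℕ := 2 * N with hMd
  have hM1 : 1 ≤ M := by omega
  have hM0 : (0 : ℝ) < M := by exact_mod_cast hM1
  have hS0 : 0 ≤ S := (norm_nonneg _).trans (hS 0)
  set w : ℕ → ℂ := fun m => ∑ n ∈ Icc 1 N, g n * u (n + m) with hw
  set c : ℕ → ℂ := fun m => (starRingEnd ℂ) (w m) / ‖w m‖ with hc
  have hc1 : ∀ m, ‖c m‖ ≤ 1 := by
    intro m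
    rw [hc]
    simp only [norm_div, RCLike.norm_conj, Complex.norm_real, norm_norm]
    exact div_self_le_one _
  have hcw : ∀ m, c m * w m = (‖w m‖ : ℂ) := by
    intro m
    rw [hc]
    simp only
    by_cases h0 : ‖w m‖ = 0
    · rw [norm_eq_zero.1 h0]; simp
    · have h0' : ((‖w m‖ : ℝ) : ℂ) ≠ 0 := by exact_mod_cast h0
      rw [div_mul_eq_mul_div, mul_comm, Complex.mul_conj', pow_two]
      field_simp
  set Uh : ℕ → ℂ := fun t => ∑ k ∈ Icc 1 M, u k * ee ((t : ℝ) * (((-1 * (k : ℤ) : ℤ) : ℝ) / M)) with hUh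
  set Gh : ℕ → ℂ := fun t => ∑ n ∈ Icc 1 N, g n * ee ((t : ℝ) * (((1 * (n : ℤ) : ℤ) : ℝ) / M)) with hGh
  set Ch : ℕ → ℂ := fun t => ∑ m ∈ Icc 1 N, c m * ee ((t : ℝ) * (((1 * (m : ℤ) : ℤ) : ℝ) / M)) with hCh
  have hid : (M : ℂ) * ∑ m ∈ Icc 1 N, c m * w m = ∑ t ∈ range M, Uh t * Gh t * Ch t := by
    have h1 : ∀ t ∈ range M, Uh t * Gh t * Ch t = ∑ n ∈ Icc 1 N, ∑ m ∈ Icc 1 N, ∑ k ∈ Icc 1 M,
        g n * c m * u k * ee ((t : ℝ) * ((((n : ℤ) + m - k : ℤ) : ℝ) / M)) := by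
      intro t _
      rw [hUh, hGh, hCh]
      simp only
      rw [← Pool.Agent.H373R2.T7.triple]
      refine sum_congr rfl fun n _ => sum_congr rfl fun m _ => sum_congr rfl fun k _ => ?_
      have h2 : ee ((t : ℝ) * ((((n : ℤ) + m - k : ℤ) : ℝ) / M)) =
          ee ((t : ℝ) * (((1 * (n : ℤ) : ℤ) : ℝ) / M)) * ee ((t : ℝ) * (((-1 * (k : ℤ) : ℤ) : ℝ) / M)) *
            ee ((t : ℝ) * (((1 * (m : ℤ) : ℤ) : ℝ) / M)) := by
        rw [← ee_add, ← ee_add]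
        congr 1
        push_cast
        ring
      rw [h2]
      ring
    rw [sum_congr rfl h1]
    symm
    rw [sum_comm]
    have h3 : ∀ n ∈ Icc 1 N, ∑ t ∈ range M, ∑ m ∈ Icc 1 N, ∑ k ∈ Icc 1 M,
        g n * c m * u k * ee ((t : ℝ) * ((((n : ℤ) + m - k : ℤ) : ℝ) / M)) = ∑ m ∈ Icc 1 N, (M : ℂ) * (g n * c m * u (n + m)) := by
      intro n hn
      rw [sum_comm]
      refine sum_congr rfl fun m hm => ?_
      rw [sum_comm]
      rw [mem_Icc] at hn hm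
      have h2 : ∀ k ∈ Icc 1 M, ∑ t ∈ range M, g n * c m * u k * ee ((t : ℝ) * ((((n : ℤ) + m - k : ℤ) : ℝ) / M)) =
          if k = n + m then (M : ℂ) * (g n * c m * u k) else 0 := by
        intro k hk
        rw [mem_Icc] at hk
        rw [← mul_sum, orth M hM1]
        by_cases h3 : k = n + m
        · rw [if_pos h3, if_pos (by rw [h3]; simp)]
          ring
        · rw [if_neg h3, if_neg, mul_zero]
          intro hd
          apply h3
          have := Int.eq_zero_of_abs_lt_dvd hd (by rw [abs_lt]; constructor <;> omega)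
          omega
      rw [sum_congr rfl h2, sum_ite_eq', if_pos (by rw [mem_Icc]; omega)]
    rw [sum_congr rfl h3, sum_comm, mul_sum]
    refine sum_congr rfl fun m _ => ?_
    rw [hw]
    simp only
    rw [mul_sum, mul_sum]
    refine sum_congr rfl fun n _ => ?_
    ring
  have hU : ∀ t, ‖Uh t‖ ≤ S := by
    intro t
    refine le_trans (le_of_eq ?_) (hS (-(t : ℝ) / M))
    rw [hUh]
    simp only
    congr 1
    refine sum_congr rfl fun k _ => ?_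
    congr 2
    push_cast
    ring
  have hGp : ∑ t ∈ range M, ‖Gh t‖ ^ 2 ≤ M * N := by
    have h1 := parseval_Icc N M hM1 (by omega) g 1 (Or.inl rfl)
    rw [hGh]
    simp only
    rw [h1]
    apply mul_le_mul_of_nonneg_left _ hM0.le
    have : ∀ n ∈ Icc 1 N, ‖g n‖ ^ 2 ≤ 1 := fun n _ => pow_le_one₀ (norm_nonneg _) (hg n)
    refine (sum_le_sum this).trans ?_
    simp
  have hCp : ∑ t ∈ range M, ‖Ch t‖ ^ 2 ≤ M * N := by
    have h1 := parseval_Icc N M hM1 (by omega) c 1 (Or.inl rfl)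
    rw [hCh]
    simp only
    rw [h1]
    apply mul_le_mul_of_nonneg_left _ hM0.le
    have : ∀ n ∈ Icc 1 N, ‖c n‖ ^ 2 ≤ 1 := fun n _ => pow_le_one₀ (norm_nonneg _) (hc1 n)
    refine (sum_le_sum this).trans ?_
    simp
  have hmain : (M : ℝ) * ∑ m ∈ Icc 1 N, ‖w m‖ ≤ S * (M * N) := by
    have e1 : ((M : ℝ) * ∑ m ∈ Icc 1 N, ‖w m‖ : ℝ) = ‖(M : ℂ) * ∑ m ∈ Icc 1 N, c m * w m‖ := by
      have : (M : ℂ) * ∑ m ∈ Icc 1 N, c m * w m = (((M : ℝ) * ∑ m ∈ Icc 1 N, ‖w m‖ : ℝ) : ℂ) := by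
        rw [sum_congr rfl fun m _ => hcw m]
        push_cast
        rfl
      rw [this, Complex.norm_real, Real.norm_of_nonneg (mul_nonneg hM0.le (sum_nonneg fun _ _ => norm_nonneg _))]
    rw [e1, hid]
    calc ‖∑ t ∈ range M, Uh t * Gh t * Ch t‖ ≤ ∑ t ∈ range M, S * ((‖Gh t‖ ^ 2 + ‖Ch t‖ ^ 2) / 2) := by
          refine (norm_sum_le _ _).trans (sum_le_sum fun t _ => ?_)
          rw [norm_mul, norm_mul, mul_assoc]
          apply mul_le_mul (hU t) _ (by positivity) hS0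
          nlinarith [sq_nonneg (‖Gh t‖ - ‖Ch t‖)]
      _ = S * ((∑ t ∈ range M, ‖Gh t‖ ^ 2 + ∑ t ∈ range M, ‖Ch t‖ ^ 2) / 2) := by
          rw [← mul_sum, ← sum_div, sum_add_distrib]
      _ ≤ S * (M * N) := by
          apply mul_le_mul_of_nonneg_left _ hS0
          linarith
  have h5 : (M : ℝ) * ∑ m ∈ Icc 1 N, ‖w m‖ ≤ M * (S * N) := by linarith
  exact le_of_mul_le_mul_left h5 hM0

/-- few bad shifts -/
lemma few (N : ℕ) (hN : 1 ≤ N) (u : ℕ → ℂ) (δ β : ℝ) (hβ : 0 < β)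
    (hS : ∀ α : ℝ, ‖∑ n ∈ Icc 1 (2 * N), u n * ee ((n : ℝ) * α)‖ ≤ δ * N) (g : ℕ → ℂ) (hg : ∀ n, ‖g n‖ ≤ 1) :
    (((Icc 1 N).filter fun m => β * N < ‖∑ n ∈ Icc 1 N, g n * u (n + m)‖).card : ℝ) ≤ δ / β * N := by
  have h1 := circ N hN u (δ * N) hS g hg
  have hN0 : (0 : ℝ) < N := by exact_mod_cast hN
  set T := (Icc 1 N).filter fun m => β * N < ‖∑ n ∈ Icc 1 N, g n * u (n + m)‖ with hT
  have h2 : (T.card : ℝ) * (β * N) ≤ ∑ m ∈ T, ‖∑ n ∈ Icc 1 N, g n * u (n + m)‖ := by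
    rw [← nsmul_eq_mul, ← sum_const]
    apply sum_le_sum
    intro m hm
    rw [hT, mem_filter] at hm
    exact hm.2.le
  have h3 : ∑ m ∈ T, ‖∑ n ∈ Icc 1 N, g n * u (n + m)‖ ≤ ∑ m ∈ Icc 1 N, ‖∑ n ∈ Icc 1 N, g n * u (n + m)‖ :=
    sum_le_sum_of_subset_of_nonneg (filter_subset _ _) (fun _ _ _ => norm_nonneg _)
  have h4 := (h2.trans h3).trans h1
  have h5 : (T.card : ℝ) * β ≤ δ * N := by
    have : (T.card : ℝ) * β * N ≤ δ * N * N := by linarith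
    exact le_of_mul_le_mul_right this hN0
  rw [div_mul_eq_mul_div, le_div_iff₀ hβ]
  exact h5

end Pool.Agent.V11296.RP
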