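import Pool.Agent.V11296.RP1
import Pool.Agent.V1213.CH.Equiv
import Pool.Agent.TH823.MRS.Circ5

/-!
Library V11296.RP (helper296), part 2: the exponential sums of `λ(n)` and of `λ(n) λ(n + a)`, all phases, almost all scales.
-/

set_option autoImplicit false

namespace Pool.Agent.V11296.RP

open Finset
open Pool.Agent.H807R2.Dav (ee norm_ee ee_add ee_int ee_pow ee_zero)
open Pool.Agent.H373R2.T7 (liR liR_norm sup_liou)
open Pool.Agent.Y842.PG (Flp Cg pr all_phases log_two_mul)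
open Pool.Agent.Y304.U (sE ind_nonneg ind_le sE_nonneg)
open Pool.Agent.Y958.U (LZ)
open Pool.Agent.Y842.EL (LZ_eps LZ_mono LZ_union LZ_empty)
open Pool.Agent.V1213.CH (LZ_fin LZ_bU)

lemma liR_Flp (p : ℕ) (hp : p.Prime) : Flp liR p := by
  refine ⟨-1, by simp, fun n hn => ?_⟩
  have hn0 : n ≠ 0 := by
    rintro rfl
    exact hn (dvd_zero p)
  unfold liR
  rw [ArithmeticFunction.cardFactors_mul hp.ne_zero hn0, ArithmeticFunction.cardFactors_apply_prime hp, pow_add, pow_one]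

/-- doubling the scale -/
lemma LZ_two (Z : Set ℕ) (h : LZ Z) : LZ {N : ℕ | 2 * N ∈ Z} := by
  classical
  rw [LZ_eps] at h ⊢
  intro ε hε
  obtain ⟨X₀, h1⟩ := h (ε / 4) (by positivity)
  refine ⟨X₀ + 2, fun X hX => ?_⟩
  have h2 := h1 (2 * X) (by omega)
  have h3 := log_two_mul X (by omega)
  have h4 : sE {N : ℕ | 2 * N ∈ Z} X ≤ 2 * sE Z (2 * X) := by
    unfold sE
    rw [mul_sum]
    have e1 : ∑ n ∈ Icc 1 X, Pool.Agent.Y304.U.ind {N : ℕ | 2 * N ∈ Z} n / (n : ℝ) =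
        ∑ m ∈ (Icc 1 X).image (fun n => 2 * n), 2 * (Pool.Agent.Y304.U.ind Z m / (m : ℝ)) := by
      rw [sum_image (fun a _ b _ (hab : 2 * a = 2 * b) => by omega)]
      refine sum_congr rfl fun n hn => ?_
      rw [mem_Icc] at hn
      have hn0 : (0 : ℝ) < n := by exact_mod_cast hn.1
      have e2 : Pool.Agent.Y304.U.ind {N : ℕ | 2 * N ∈ Z} n = Pool.Agent.Y304.U.ind Z (2 * n) := by
        unfold Pool.Agent.Y304.U.ind
        rfl
      rw [e2]
      push_cast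
      field_simp
    rw [e1]
    apply sum_le_sum_of_subset_of_nonneg
    · intro m hm
      rw [mem_image] at hm
      obtain ⟨n, hn, rfl⟩ := hm
      rw [mem_Icc] at hn ⊢
      omega
    · intro m _ _
      have := ind_nonneg Z m
      positivity
  have h5 : (0 : ℝ) ≤ ε := hε.le
  calc sE {N : ℕ | 2 * N ∈ Z} X ≤ 2 * (ε / 4 * Real.log ((2 * X : ℕ) : ℝ)) := h4.trans (by linarith)
    _ ≤ 2 * (ε / 4 * (2 * Real.log X)) := by
        apply mul_le_mul_of_nonneg_left _ (by norm_num)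
        exact mul_le_mul_of_nonneg_left h3 (by positivity)
    _ = ε * Real.log X := by ring

/-- pairs -/
lemma pair (a : ℕ) (ha : 1 ≤ a) (δ : ℝ) (hδ : 0 < δ) :
    LZ {N : ℕ | ∃ α : ℝ, δ * N < ‖∑ n ∈ Icc 1 (2 * N), liR n * liR (n + a) * ee ((n : ℝ) * α)‖} := by
  classical
  set δ' : ℝ := min 1 (δ / 4) with hδ'
  have h0 : 0 < δ' := lt_min one_pos (by positivity)
  have h1 : δ' ≤ 1 := min_le_left _ _
  have h2 : δ' ≤ δ / 4 := min_le_right _ _
  set Z : Set ℕ := {N : ℕ | ∃ α : ℝ, ∃ y ≤ N, δ' * N < ‖Cg ![liR, liR] ![0, a] y α‖} with hZ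
  have hLZ : LZ Z := by
    rw [LZ_eps]
    intro ε hε
    obtain ⟨X₀, h⟩ := all_phases liR liR_norm Pool.Agent.TH823.MRS.liR_E liR_Flp 0 a (by omega) δ' h0 h1 ε hε
    exact ⟨X₀, fun X hX => h X hX liR liR_norm liR_Flp⟩
  refine LZ_mono ?_ (LZ_union (LZ_fin (⌈4 / δ⌉₊ + 1)) (LZ_two Z hLZ))
  rintro N ⟨α, hα⟩
  by_cases hN : N < ⌈4 / δ⌉₊ + 1
  · exact Or.inl hN
  right
  rw [not_lt] at hN
  have hNr : 4 / δ ≤ (N : ℝ) := (Nat.le_ceil _).trans (by exact_mod_cast (by omega : ⌈4 / δ⌉₊ ≤ N))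
  rw [div_le_iff₀ hδ] at hNr
  refine ⟨α, 2 * N, le_refl _, ?_⟩
  have hN1 : 1 ≤ N := by omega
  have e1 : Cg ![liR, liR] ![0, a] (2 * N) α = ∑ n ∈ range (2 * N), liR n * liR (n + a) * ee ((n : ℝ) * α) := by
    unfold Cg
    refine sum_congr rfl fun n _ => ?_
    unfold pr
    rw [Fin.prod_univ_two, Pool.Agent.H373R2.T7.mk_ee]
    simp only [Matrix.cons_val_zero, Matrix.cons_val_one, one_mul, add_zero]
    rw [mul_comm α (n : ℝ)]
  have e2 : ∑ n ∈ Icc 1 (2 * N), liR n * liR (n + a) * ee ((n : ℝ) * α) =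
      ∑ n ∈ range (2 * N), liR n * liR (n + a) * ee ((n : ℝ) * α) +
        liR (2 * N) * liR (2 * N + a) * ee (((2 * N : ℕ) : ℝ) * α) - liR 0 * liR (0 + a) * ee (((0 : ℕ) : ℝ) * α) := by
    have e3 : ∑ n ∈ range (2 * N + 1), liR n * liR (n + a) * ee ((n : ℝ) * α) =
        ∑ n ∈ Icc 1 (2 * N), liR n * liR (n + a) * ee ((n : ℝ) * α) + liR 0 * liR (0 + a) * ee (((0 : ℕ) : ℝ) * α) := by
      rw [range_eq_Ico, sum_eq_sum_Ico_succ_bot (by omega), add_comm]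
      rfl
    rw [sum_range_succ] at e3
    rw [e3]
    ring
  have hb : ∀ n : ℕ, ‖liR n * liR (n + a) * ee ((n : ℝ) * α)‖ ≤ 1 := by
    intro n
    rw [norm_mul, norm_mul, norm_ee, mul_one]
    exact mul_le_one₀ (liR_norm _) (norm_nonneg _) (liR_norm _)
  have e4 : ‖∑ n ∈ Icc 1 (2 * N), liR n * liR (n + a) * ee ((n : ℝ) * α)‖ ≤ ‖Cg ![liR, liR] ![0, a] (2 * N) α‖ + 1 + 1 := by
    rw [e2, ← e1]
    refine (norm_sub_le _ _).trans ?_
    refine add_le_add ((norm_add_le _ _).trans (add_le_add le_rfl (hb (2 * N)))) (hb 0)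
  have e5 : δ * N < ‖Cg ![liR, liR] ![0, a] (2 * N) α‖ + 1 + 1 := lt_of_lt_of_le hα e4
  have e6 : δ' * ((2 * N : ℕ) : ℝ) ≤ δ / 4 * ((2 * N : ℕ) : ℝ) := mul_le_mul_of_nonneg_right h2 (Nat.cast_nonneg _)
  push_cast at e6 ⊢
  linarith

/-- one value -/
lemma single (b : ℕ) (δ : ℝ) (hδ : 0 < δ) :
    ∃ N₀ : ℕ, ∀ N : ℕ, N₀ ≤ N → ∀ α : ℝ, ‖∑ n ∈ Icc 1 (2 * N), liR (n + b) * ee ((n : ℝ) * α)‖ ≤ δ * N := by
  obtain ⟨N1, h1⟩ := sup_liou 1
  obtain ⟨N2, h2⟩ := Filter.eventually_atTop.1 ((Filter.tendsto_atTop.1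
    (Real.tendsto_log_atTop.comp tendsto_natCast_atTop_atTop)) (6 / δ + 1))
  refine ⟨N1 + N2 + b + ⌈2 * b / δ⌉₊ + 1, fun N hN α => ?_⟩
  have hlog : 6 / δ + 1 ≤ Real.log N := h2 N (by omega)
  have hN0 : (0 : ℝ) < N := by exact_mod_cast (by omega : 0 < N)
  have hb : 2 * b / δ ≤ (N : ℝ) := (Nat.le_ceil _).trans (by exact_mod_cast (by omega : ⌈2 * (b : ℝ) / δ⌉₊ ≤ N))
  rw [div_le_iff₀ hδ] at hb
  have h60 : 0 < 6 / δ := by positivity
  have hsplit : ∑ n ∈ Icc 1 (2 * N), liR (n + b) * ee ((n : ℝ) * α) =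
      ee (-((b : ℝ) * α)) * (∑ m ∈ Icc 1 (2 * N + b), liR m * ee ((m : ℝ) * α) - ∑ m ∈ Icc 1 b, liR m * ee ((m : ℝ) * α)) := by
    have e1 : ∑ m ∈ Icc 1 (2 * N + b), liR m * ee ((m : ℝ) * α) - ∑ m ∈ Icc 1 b, liR m * ee ((m : ℝ) * α) =
        ∑ m ∈ Ioc b (2 * N + b), liR m * ee ((m : ℝ) * α) := by
      have h : ∀ Z : ℕ, Icc 1 Z = Ioc 0 Z := by intro Z; ext n; simp only [mem_Icc, mem_Ioc]; omega
      rw [h, h, ← sum_Ioc_consecutive (fun m => liR m * ee ((m : ℝ) * α)) (Nat.zero_le b) (by omega : b ≤ 2 * N + b)]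
      ring
    rw [e1, mul_sum]
    refine sum_nbij' (fun n => n + b) (fun m => m - b) ?_ ?_ ?_ ?_ ?_
    · intro n hn
      rw [mem_Icc] at hn
      rw [mem_Ioc]
      omega
    · intro m hm
      rw [mem_Ioc] at hm
      rw [mem_Icc]
      omega
    · intro n _
      omega
    · intro m hm
      rw [mem_Ioc] at hm
      omega
    · intro n _
      have e2 : ee ((n : ℝ) * α) = ee (-((b : ℝ) * α)) * ee (((n + b : ℕ) : ℝ) * α) := by
        rw [← ee_add]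
        congr 1
        push_cast
        ring
      rw [e2]
      ring
  rw [hsplit, norm_mul, norm_ee, one_mul]
  have e3 := h1 (2 * N + b) (by omega) α
  have e4 : ‖∑ m ∈ Icc 1 b, liR m * ee ((m : ℝ) * α)‖ ≤ b := by
    refine (norm_sum_le _ _).trans ?_
    have : ∀ m ∈ Icc 1 b, ‖liR m * ee ((m : ℝ) * α)‖ ≤ 1 := by
      intro m _
      rw [norm_mul, norm_ee, mul_one]
      exact liR_norm m
    refine (sum_le_sum this).trans ?_
    simp
  have e5 : ((2 * N + b : ℕ) : ℝ) / Real.log ((2 * N + b : ℕ) : ℝ) ^ 1 ≤ δ * N / 2 := by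
    have e6 : Real.log N ≤ Real.log ((2 * N + b : ℕ) : ℝ) := by
      apply Real.log_le_log hN0
      push_cast
      have : (0 : ℝ) ≤ b := Nat.cast_nonneg b
      linarith
    have e7 : (0 : ℝ) < Real.log ((2 * N + b : ℕ) : ℝ) := by linarith
    rw [pow_one, div_le_iff₀ e7]
    have e8 : ((2 * N + b : ℕ) : ℝ) ≤ 3 * N := by
      have : b ≤ N := by omega
      have : (b : ℝ) ≤ N := by exact_mod_cast this
      push_cast
      linarith
    have e9 : 6 / δ ≤ Real.log ((2 * N + b : ℕ) : ℝ) := by linarith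
    have e10 : δ * N / 2 * (6 / δ) ≤ δ * N / 2 * Real.log ((2 * N + b : ℕ) : ℝ) :=
      mul_le_mul_of_nonneg_left e9 (by positivity)
    have e11 : δ * N / 2 * (6 / δ) = 3 * N := by
      field_simp
      norm_num
    linarith
  have e12 : (b : ℝ) ≤ δ * N / 2 := by linarith
  refine (norm_sub_le _ _).trans ?_
  linarith

end Pool.Agent.V11296.RP
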