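import Pool.Agent.V11296.RP2

/-!
Library V11296.RP (helper296), part 3: patterns on random pairs of positions at fixed distances.
-/

set_option autoImplicit false

namespace Pool.Agent.V11296.RP

open Finset
open Pool.Agent.H807R2.Dav (ee norm_ee ee_add ee_int ee_pow ee_zero)
open Pool.Agent.H373R2.T7 (liR liR_norm sup_liou)
open Pool.Agent.Y958.U (LZ)
open Pool.Agent.Y842.EL (LZ_eps LZ_mono LZ_union LZ_empty)
open Pool.Agent.V1213.CH (LZ_fin LZ_bU)
open Pool.Agent.V11296.FP (lr lr_pm lr_abs ind cor pat pat_cor upd_card)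

lemma liR_lr (n : ℕ) : liR n = ((lr n : ℝ) : ℂ) := by
  unfold liR lr
  push_cast
  rfl

/-- the block function -/
noncomputable def blk (K : Finset (Fin 2)) (a n : ℕ) : ℝ := ∏ b ∈ K, lr (n + (b : ℕ) * a)

lemma blk_abs (K : Finset (Fin 2)) (a n : ℕ) : |blk K a n| = 1 := by
  unfold blk
  rw [abs_prod]
  exact prod_eq_one fun _ _ => lr_abs _

/-- scale `N` is good for the distance `a` -/
def Gd (δ : ℝ) (a N : ℕ) : Prop := ∀ K : Finset (Fin 2), K.Nonempty → ∀ α : ℝ,
  ‖∑ n ∈ Icc 1 (2 * N), ((blk K a n : ℝ) : ℂ) * ee ((n : ℝ) * α)‖ ≤ δ * N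

lemma LZ_Gd (a : ℕ) (ha : 1 ≤ a) (δ : ℝ) (hδ : 0 < δ) : LZ {N : ℕ | ¬ Gd δ a N} := by
  obtain ⟨N0, h0⟩ := single 0 δ hδ
  obtain ⟨N1, h1⟩ := single a δ hδ
  refine LZ_mono ?_ (LZ_union (LZ_fin (N0 + N1)) (pair a ha δ hδ))
  intro N hN
  by_contra hcon
  apply hN
  have hc : ¬ (N < N0 + N1) ∧ ¬ ∃ α : ℝ, δ * N < ‖∑ n ∈ Icc 1 (2 * N), liR n * liR (n + a) * ee ((n : ℝ) * α)‖ := by
    constructor
    · intro h
      exact hcon (Or.inl h)
    · intro h
      exact hcon (Or.inr h)
  obtain ⟨hc1, hc2⟩ := hc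
  push Not at hc2
  intro K hK α
  have hcases : ∀ K : Finset (Fin 2), K.Nonempty → K = {0} ∨ K = {1} ∨ K = {0, 1} := by decide
  rcases hcases K hK with rfl | rfl | rfl
  · refine le_trans (le_of_eq ?_) (h0 N (by omega) α)
    congr 1
    refine sum_congr rfl fun n _ => ?_
    rw [liR_lr]
    unfold blk
    simp
  · refine le_trans (le_of_eq ?_) (h1 N (by omega) α)
    congr 1
    refine sum_congr rfl fun n _ => ?_
    rw [liR_lr]
    unfold blk
    simp
  · refine le_trans (le_of_eq ?_) (hc2 α)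
    congr 1
    refine sum_congr rfl fun n _ => ?_
    rw [liR_lr, liR_lr]
    unfold blk
    rw [prod_pair (by decide)]
    simp

/-- the positions -/
def pos {r : ℕ} (a : Fin r → ℕ) (h : Fin r → ℕ) (q : Fin r × Fin 2) : ℕ := h q.1 + (q.2 : ℕ) * a q.1

/-- one correlation -/
lemma one_cor (N : ℕ) (hN : 1 ≤ N) {r : ℕ} (a : Fin r → ℕ) (δ β : ℝ) (hβ : 0 < β) (hG : ∀ i, Gd δ (a i) N) (E : Set ℕ)
    (J : Finset (Fin r × Fin 2)) (hJ : J.Nonempty) :
    (((Fintype.piFinset fun _ : Fin r => Icc 1 N).filter (fun h => β * N < |cor E N (pos a h) J|)).card : ℝ) ≤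
      δ / β * (N : ℝ) ^ r := by
  classical
  obtain ⟨⟨i, b₀⟩, hi⟩ := hJ
  have hx : ((Icc 1 N).card : ℝ) = N := by rw [Nat.card_Icc]; simp
  have hpi : ((Fintype.piFinset fun _ : Fin r => Icc 1 N).card : ℝ) = (N : ℝ) ^ r := by
    rw [Fintype.card_piFinset_const, Nat.card_Icc]
    push_cast
    simp
  have hN0 : (0 : ℝ) < N := by exact_mod_cast hN
  set K : Finset (Fin 2) := univ.filter (fun b => (i, b) ∈ J) with hK
  have hKn : K.Nonempty := ⟨b₀, by rw [hK, mem_filter]; exact ⟨mem_univ _, hi⟩⟩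
  have key := upd_card (Icc 1 N) i (fun h : Fin r → ℕ => β * N < |cor E N (pos a h) J|) (δ / β * N) (by
    intro h _
    set g : ℕ → ℝ := fun n => ind E n * ∏ q ∈ J.filter (fun q => ¬ q.1 = i), lr (n + pos a h q) with hg
    have hg1 : ∀ n, ‖((g n : ℝ) : ℂ)‖ ≤ 1 := by
      intro n
      rw [hg]
      simp only
      rw [Complex.norm_real, Real.norm_eq_abs, abs_mul, abs_prod]
      have : ∏ q ∈ J.filter (fun q => ¬ q.1 = i), |lr (n + pos a h q)| = 1 := prod_eq_one fun q _ => lr_abs _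
      rw [this, mul_one]
      exact Pool.Agent.V11296.FP.ind_le E n
    refine le_trans (le_of_eq ?_) (few N hN (fun n => ((blk K (a i) n : ℝ) : ℂ)) δ β hβ (hG i K hKn) (fun n => ((g n : ℝ) : ℂ)) hg1)
    congr 2
    refine filter_congr fun y _ => ?_
    have e1 : ‖∑ n ∈ Icc 1 N, ((g n : ℝ) : ℂ) * ((blk K (a i) (n + y) : ℝ) : ℂ)‖ = |cor E N (pos a (Function.update h i y)) J| := by
      rw [← Real.norm_eq_abs, ← Complex.norm_real]
      congr 1
      unfold cor
      rw [Complex.ofReal_sum]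
      refine sum_congr rfl fun n _ => ?_
      rw [← Complex.ofReal_mul]
      congr 1
      rw [hg]
      simp only
      rw [mul_assoc]
      congr 1
      rw [← prod_filter_mul_prod_filter_not J (fun q => q.1 = i), mul_comm]
      congr 1
      · unfold blk
        refine prod_nbij' (fun b => (i, b)) (fun q => q.2) ?_ ?_ ?_ ?_ ?_
        · intro b hb
          rw [hK, mem_filter] at hb
          rw [mem_filter]
          exact ⟨hb.2, rfl⟩
        · intro q hq
          rw [mem_filter] at hq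
          rw [hK, mem_filter]
          refine ⟨mem_univ _, ?_⟩
          have : (i, q.2) = q := by rw [← hq.2]
          rw [this]
          exact hq.1
        · intro b _
          rfl
        · intro q hq
          rw [mem_filter] at hq
          rw [← hq.2]
        · intro b _
          unfold pos
          simp only [Function.update_self]
          rw [add_assoc]
      · refine prod_congr rfl fun q hq => ?_
        rw [mem_filter] at hq
        unfold pos
        rw [Function.update_of_ne hq.2]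
    rw [e1])
  rw [hx, hpi] at key
  have h2 : (N : ℝ) ^ r * (δ / β * N) = N * (δ / β * (N : ℝ) ^ r) := by ring
  rw [h2] at key
  exact le_of_mul_le_mul_left key hN0

/-- all the correlations -/
theorem main (r L : ℕ) (a : Fin r → ℕ) (ha : ∀ i, 1 ≤ a i) (ε : ℝ) (hε : 0 < ε) :
    LZ {N : ℕ | ¬ ∀ E : Fin L → Set ℕ, ∃ T ⊆ (Fintype.piFinset fun _ : Fin r => Icc 1 N), (T.card : ℝ) ≤ ε * (N : ℝ) ^ r ∧
      ∀ h ∈ (Fintype.piFinset fun _ : Fin r => Icc 1 N), h ∉ T → ∀ l, ∀ v : Fin r × Fin 2 → ℝ,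
        (∀ q, v q = 1 ∨ v q = -1) →
        |pat (E l) N (pos a h) v - (∑ n ∈ Icc 1 N, ind (E l) n) / 4 ^ r| ≤ ε * N} := by
  classical
  set δ : ℝ := ε ^ 2 / ((L + 1) * 4 ^ r) with hδ
  have hδ0 : 0 < δ := by positivity
  refine LZ_mono ?_ (LZ_union (LZ_fin 1) (LZ_bU (univ : Finset (Fin r)) (fun i => {N : ℕ | ¬ Gd δ (a i) N})
    (fun i _ => LZ_Gd (a i) (ha i) δ hδ0)))
  intro N hN
  by_contra hcon
  apply hN
  have hc : ¬ (N < 1) ∧ ∀ i, Gd δ (a i) N := by
    constructor
    · intro h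
      exact hcon (Or.inl h)
    · intro i
      by_contra h
      exact hcon (Or.inr ⟨i, mem_univ _, h⟩)
  obtain ⟨hc1, hc2⟩ := hc
  have hN1 : 1 ≤ N := by omega
  have hN0 : (0 : ℝ) < N := by exact_mod_cast hN1
  intro E
  set P := (Fintype.piFinset fun _ : Fin r => Icc 1 N) with hP
  set Q : Finset (Fin L × Finset (Fin r × Fin 2)) := univ.filter (fun q => q.2.Nonempty) with hQ
  refine ⟨Q.biUnion (fun q => P.filter (fun h => ε * N < |cor (E q.1) N (pos a h) q.2|)), ?_, ?_, ?_⟩
  · intro m hm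
    rw [mem_biUnion] at hm
    obtain ⟨q, _, hq⟩ := hm
    exact (mem_filter.1 hq).1
  · have h1 : ((Q.biUnion (fun q => P.filter (fun h => ε * N < |cor (E q.1) N (pos a h) q.2|))).card : ℝ) ≤
        ∑ q ∈ Q, ((P.filter (fun h => ε * N < |cor (E q.1) N (pos a h) q.2|)).card : ℝ) := by
      exact_mod_cast card_biUnion_le
    refine h1.trans ?_
    have h2 : ∀ q ∈ Q, ((P.filter (fun h => ε * N < |cor (E q.1) N (pos a h) q.2|)).card : ℝ) ≤ δ / ε * (N : ℝ) ^ r := by
      intro q hq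
      rw [hQ, mem_filter] at hq
      exact one_cor N hN1 a δ ε hε hc2 (E q.1) q.2 hq.2
    refine (sum_le_sum h2).trans ?_
    rw [sum_const, nsmul_eq_mul]
    have h3 : (Q.card : ℝ) ≤ L * 4 ^ r := by
      have h4 : Q.card ≤ (univ : Finset (Fin L × Finset (Fin r × Fin 2))).card := card_le_card (filter_subset _ _)
      have h5 : (univ : Finset (Fin L × Finset (Fin r × Fin 2))).card = L * 4 ^ r := by
        rw [card_univ, Fintype.card_prod, Fintype.card_fin, Fintype.card_finset, Fintype.card_prod, Fintype.card_fin,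
          Fintype.card_fin, mul_comm r 2, pow_mul]
        norm_num
      rw [h5] at h4
      exact_mod_cast h4
    calc (Q.card : ℝ) * (δ / ε * (N : ℝ) ^ r) ≤ (L * 4 ^ r) * (δ / ε * (N : ℝ) ^ r) :=
          mul_le_mul_of_nonneg_right h3 (by positivity)
      _ = (L / (L + 1)) * (ε * (N : ℝ) ^ r) := by
          rw [hδ]
          field_simp
      _ ≤ 1 * (ε * (N : ℝ) ^ r) := by
          apply mul_le_mul_of_nonneg_right _ (by positivity)
          rw [div_le_one (by positivity)]
          linarith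
      _ = _ := one_mul _
  · intro h hh hhT l v hv
    have h1 := pat_cor (E l) N (pos a h) v hv (ε * N) (fun J hJ => by
      by_contra hcon
      push Not at hcon
      apply hhT
      rw [mem_biUnion]
      exact ⟨(l, J), by rw [hQ, mem_filter]; exact ⟨mem_univ _, hJ⟩, by rw [mem_filter]; exact ⟨hh, hcon⟩⟩) (by positivity)
    have h2 : (2 : ℝ) ^ Fintype.card (Fin r × Fin 2) = 4 ^ r := by
      rw [Fintype.card_prod, Fintype.card_fin, Fintype.card_fin, mul_comm r 2, pow_mul]
      norm_num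
    rw [h2] at h1
    exact h1

end Pool.Agent.V11296.RP
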