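import Pool.Agent.V11296.RP2
import Pool.Agent.Y842.PG.Unif

/-!
Library V11296.RP (helper296), part 4: pairs of multiplicative functions at random distances, uniformly.
-/

set_option autoImplicit false

namespace Pool.Agent.V11296.RP

open Finset
open Pool.Agent.H807R2.Dav (ee norm_ee ee_add ee_int ee_pow ee_zero)
open Pool.Agent.H373R2.T7 (liR liR_norm sup_liou)
open Pool.Agent.TH823.MRS (ExpoSmall)
open Pool.Agent.Y842.PG (Flp pair_all log_two_mul)
open Pool.Agent.V11296.FP (upd_card)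

/-- several functions with small exponential sums at random shifts, with an arbitrary bounded weight -/
lemma tup (N : ℕ) (hN : 1 ≤ N) {r : ℕ} (u : Fin r → ℕ → ℂ) (hu : ∀ i n, ‖u i n‖ ≤ 1) (δ β : ℝ) (hδ : 0 ≤ δ) (hβ : 0 < β)
    (hS : ∀ i, ∀ α : ℝ, ‖∑ n ∈ Icc 1 (2 * N), u i n * ee ((n : ℝ) * α)‖ ≤ δ * N) (G : ℕ → ℂ) (hG : ∀ n, ‖G n‖ ≤ 1) :
    ∃ T ⊆ (Fintype.piFinset fun _ : Fin r => Icc 1 N), (T.card : ℝ) ≤ 2 ^ r * (δ / β) * (N : ℝ) ^ r ∧
      ∀ h ∈ (Fintype.piFinset fun _ : Fin r => Icc 1 N), h ∉ T → ∀ J : Finset (Fin r), J.Nonempty →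
        ‖∑ n ∈ Icc 1 N, G n * ∏ i ∈ J, u i (n + h i)‖ ≤ β * N := by
  classical
  have hx : ((Icc 1 N).card : ℝ) = N := by rw [Nat.card_Icc]; simp
  have hpi : ((Fintype.piFinset fun _ : Fin r => Icc 1 N).card : ℝ) = (N : ℝ) ^ r := by
    rw [Fintype.card_piFinset_const, Nat.card_Icc]
    push_cast
    simp
  have hN0 : (0 : ℝ) < N := by exact_mod_cast hN
  set P := (Fintype.piFinset fun _ : Fin r => Icc 1 N) with hP
  have one : ∀ J : Finset (Fin r), J.Nonempty →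
      ((P.filter (fun h => β * N < ‖∑ n ∈ Icc 1 N, G n * ∏ i ∈ J, u i (n + h i)‖)).card : ℝ) ≤ δ / β * (N : ℝ) ^ r := by
    rintro J ⟨i, hi⟩
    have key := upd_card (Icc 1 N) i (fun h : Fin r → ℕ => β * N < ‖∑ n ∈ Icc 1 N, G n * ∏ i ∈ J, u i (n + h i)‖) (δ / β * N) (by
      intro h _
      set g : ℕ → ℂ := fun n => G n * ∏ j ∈ J.erase i, u j (n + h j) with hg
      have hg1 : ∀ n, ‖g n‖ ≤ 1 := by
        intro n
        rw [hg]
        simp only
        rw [norm_mul, norm_prod]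
        exact mul_le_one₀ (hG n) (prod_nonneg fun _ _ => norm_nonneg _)
          (prod_le_one (fun _ _ => norm_nonneg _) (fun j _ => hu j _))
      refine le_trans (le_of_eq ?_) (few N hN (u i) δ β hβ (hS i) g hg1)
      congr 2
      refine filter_congr fun y _ => ?_
      have e1 : ∑ n ∈ Icc 1 N, G n * ∏ j ∈ J, u j (n + Function.update h i y j) = ∑ n ∈ Icc 1 N, g n * u i (n + y) := by
        refine sum_congr rfl fun n _ => ?_
        rw [hg]
        simp only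
        rw [← mul_prod_erase J _ hi, Function.update_self]
        have : ∏ j ∈ J.erase i, u j (n + Function.update h i y j) = ∏ j ∈ J.erase i, u j (n + h j) := by
          refine prod_congr rfl fun j hj => ?_
          rw [Function.update_of_ne (ne_of_mem_erase hj)]
        rw [this]
        ring
      rw [e1])
    rw [hx, hpi] at key
    have h2 : (N : ℝ) ^ r * (δ / β * N) = N * (δ / β * (N : ℝ) ^ r) := by ring
    rw [h2] at key
    exact le_of_mul_le_mul_left key hN0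
  set Q : Finset (Finset (Fin r)) := univ.filter (fun J => J.Nonempty) with hQ
  refine ⟨Q.biUnion (fun J => P.filter (fun h => β * N < ‖∑ n ∈ Icc 1 N, G n * ∏ i ∈ J, u i (n + h i)‖)), ?_, ?_, ?_⟩
  · intro m hm
    rw [mem_biUnion] at hm
    obtain ⟨q, _, hq⟩ := hm
    exact (mem_filter.1 hq).1
  · have h1 : ((Q.biUnion (fun J => P.filter (fun h => β * N < ‖∑ n ∈ Icc 1 N, G n * ∏ i ∈ J, u i (n + h i)‖))).card : ℝ) ≤
        ∑ J ∈ Q, ((P.filter (fun h => β * N < ‖∑ n ∈ Icc 1 N, G n * ∏ i ∈ J, u i (n + h i)‖)).card : ℝ) := by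
      exact_mod_cast card_biUnion_le
    refine h1.trans ((sum_le_sum fun J hJ => one J (by rw [hQ, mem_filter] at hJ; exact hJ.2)).trans ?_)
    rw [sum_const, nsmul_eq_mul]
    have h3 : (Q.card : ℝ) ≤ 2 ^ r := by
      have h4 : Q.card ≤ (univ : Finset (Finset (Fin r))).card := card_le_card (filter_subset _ _)
      rw [card_univ, Fintype.card_finset, Fintype.card_fin] at h4
      exact_mod_cast h4
    calc (Q.card : ℝ) * (δ / β * (N : ℝ) ^ r) ≤ 2 ^ r * (δ / β * (N : ℝ) ^ r) :=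
          mul_le_mul_of_nonneg_right h3 (by positivity)
      _ = _ := by ring
  · intro h hh hhT J hJ
    by_contra hcon
    push Not at hcon
    apply hhT
    rw [mem_biUnion]
    exact ⟨J, by rw [hQ, mem_filter]; exact ⟨mem_univ _, hJ⟩, by rw [mem_filter]; exact ⟨hh, hcon⟩⟩

/-- all phases for a pair, uniformly in the second function -/
lemma pair_unif (f : ℕ → ℂ) (hb : ∀ n, ‖f n‖ ≤ 1) (hE : ExpoSmall f) (hf : ∀ p : ℕ, p.Prime → Flp f p)
    (a c : ℕ) (hac : a ≠ c) (δ : ℝ) (hδ : 0 < δ) (ε : ℝ) (hε : 0 < ε) :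
    ∃ X₀ : ℕ, ∀ X : ℕ, X₀ ≤ X → ∀ g : ℕ → ℂ, (∀ n, ‖g n‖ ≤ 1) →
      (∀ m n : ℕ, Nat.Coprime m n → g (m * n) = g m * g n) → ∃ T ⊆ Icc 1 X, ∑ N ∈ T, (1 : ℝ) / N ≤ ε * Real.log X ∧
        ∀ N ∈ Icc 1 X, N ∉ T → ∀ α : ℝ, ‖∑ n ∈ Icc 1 (2 * N), f (n + a) * g (n + c) * ee ((n : ℝ) * α)‖ ≤ δ * N := by
  classical
  obtain ⟨X₀, h0⟩ := pair_all f hb hE hf a c hac (ε * δ / 8) (by positivity)
  refine ⟨X₀ + 2, fun X hX g hg hm => ?_⟩
  set Bad : ℕ → Prop := fun M => ∃ α : ℝ, δ / 2 * M < ‖∑ n ∈ Icc 1 M, f (n + a) * g (n + c) * ee ((n : ℝ) * α)‖ with hBad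
  set α₀ : ℕ → ℝ := fun M => if h : Bad M then h.choose else 0 with hα₀
  have hα : ∀ M, Bad M → δ / 2 * M < ‖∑ n ∈ Icc 1 M, f (n + a) * g (n + c) * ee ((n : ℝ) * α₀ M)‖ := by
    intro M hM
    rw [hα₀]
    simp only
    rw [dif_pos hM]
    exact hM.choose_spec
  have h1 := h0 (2 * X) (by omega) g hg hm α₀ (fun M => M) (fun M => le_refl M)
  have hlog := log_two_mul X (by omega)
  refine ⟨(Icc 1 X).filter (fun N => Bad (2 * N)), filter_subset _ _, ?_, ?_⟩
  · have e1 : ∀ N ∈ (Icc 1 X).filter (fun N => Bad (2 * N)), (1 : ℝ) / N ≤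
        4 / δ * (‖∑ n ∈ Icc 1 (2 * N), f (n + a) * g (n + c) * Pool.Agent.Helper602.MK.ee (α₀ (2 * N) * n)‖ / ((2 * N : ℕ) : ℝ) ^ 2) := by
      intro N hN
      rw [mem_filter, mem_Icc] at hN
      have hN0 : (0 : ℝ) < N := by exact_mod_cast hN.1.1
      have e2 := hα (2 * N) hN.2
      have e3 : ∑ n ∈ Icc 1 (2 * N), f (n + a) * g (n + c) * Pool.Agent.Helper602.MK.ee (α₀ (2 * N) * n) =
          ∑ n ∈ Icc 1 (2 * N), f (n + a) * g (n + c) * ee ((n : ℝ) * α₀ (2 * N)) := by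
        refine sum_congr rfl fun n _ => ?_
        rw [Pool.Agent.H373R2.T7.mk_ee, mul_comm (α₀ (2 * N)) (n : ℝ)]
      rw [e3, ← mul_div_assoc, div_le_div_iff₀ hN0 (by push_cast; positivity)]
      push_cast at e2 ⊢
      have e4 : (δ * N) * (4 / δ * N) ≤ ‖∑ n ∈ Icc 1 (2 * N), f (n + a) * g (n + c) * ee ((n : ℝ) * α₀ (2 * N))‖ * (4 / δ * N) := by
        apply mul_le_mul_of_nonneg_right _ (by positivity)
        linarith
      have e5 : (δ * N) * (4 / δ * N) = 1 * (2 * (N : ℝ)) ^ 2 := by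
        field_simp
        ring
      linarith
    refine (sum_le_sum e1).trans ?_
    rw [← mul_sum]
    have e6 : ∑ N ∈ (Icc 1 X).filter (fun N => Bad (2 * N)),
        ‖∑ n ∈ Icc 1 (2 * N), f (n + a) * g (n + c) * Pool.Agent.Helper602.MK.ee (α₀ (2 * N) * n)‖ / ((2 * N : ℕ) : ℝ) ^ 2 ≤
        ∑ M ∈ Icc 1 (2 * X), ‖∑ n ∈ Icc 1 M, f (n + a) * g (n + c) * Pool.Agent.Helper602.MK.ee (α₀ M * n)‖ / (M : ℝ) ^ 2 := by
      rw [← sum_image (s := (Icc 1 X).filter (fun N => Bad (2 * N))) (g := fun N => 2 * N)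
        (f := fun M => ‖∑ n ∈ Icc 1 M, f (n + a) * g (n + c) * Pool.Agent.Helper602.MK.ee (α₀ M * n)‖ / (M : ℝ) ^ 2)
        (fun x _ y _ (hxy : 2 * x = 2 * y) => by omega)]
      apply sum_le_sum_of_subset_of_nonneg
      · intro m hm
        rw [mem_image] at hm
        obtain ⟨n, hn, rfl⟩ := hm
        rw [mem_filter, mem_Icc] at hn
        rw [mem_Icc]
        omega
      · intro m _ _
        positivity
    calc 4 / δ * _ ≤ 4 / δ * (ε * δ / 8 * Real.log ((2 * X : ℕ) : ℝ)) :=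
          mul_le_mul_of_nonneg_left (e6.trans h1) (by positivity)
      _ ≤ 4 / δ * (ε * δ / 8 * (2 * Real.log X)) := by
          apply mul_le_mul_of_nonneg_left _ (by positivity)
          exact mul_le_mul_of_nonneg_left hlog (by positivity)
      _ = ε * Real.log X := by
          field_simp
          ring
  · intro N hN hNT α
    by_contra hcon
    push Not at hcon
    apply hNT
    rw [mem_filter]
    refine ⟨hN, α, ?_⟩
    push_cast
    linarith

/-- **pairs at random distances**, uniformly in the multiplicative functions -/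
theorem pairs (f : ℕ → ℂ) (hb : ∀ n, ‖f n‖ ≤ 1) (hE : ExpoSmall f) (hf : ∀ p : ℕ, p.Prime → Flp f p) (r : ℕ)
    (a c : Fin r → ℕ) (hac : ∀ i, a i ≠ c i) (ε : ℝ) (hε : 0 < ε) :
    ∃ X₀ : ℕ, ∀ X : ℕ, X₀ ≤ X → ∀ g : Fin r → ℕ → ℂ, (∀ i n, ‖g i n‖ ≤ 1) →
      (∀ i, ∀ m n : ℕ, Nat.Coprime m n → g i (m * n) = g i m * g i n) →
      ∃ T ⊆ Icc 1 X, ∑ N ∈ T, (1 : ℝ) / N ≤ ε * Real.log X ∧ ∀ N ∈ Icc 1 X, N ∉ T → ∀ G : ℕ → ℂ, (∀ n, ‖G n‖ ≤ 1) →
        ∃ B ⊆ (Fintype.piFinset fun _ : Fin r => Icc 1 N), (B.card : ℝ) ≤ ε * (N : ℝ) ^ r ∧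
          ∀ h ∈ (Fintype.piFinset fun _ : Fin r => Icc 1 N), h ∉ B → ∀ J : Finset (Fin r), J.Nonempty →
            ‖∑ n ∈ Icc 1 N, G n * ∏ i ∈ J, (f (n + h i + a i) * g i (n + h i + c i))‖ ≤ ε * N := by
  classical
  set δ : ℝ := ε ^ 2 / 2 ^ r with hδ
  have hδ0 : 0 < δ := by positivity
  choose X₀ hX₀ using fun i : Fin r => pair_unif f hb hE hf (a i) (c i) (hac i) δ hδ0 (ε / (r + 1)) (by positivity)
  refine ⟨(∑ i, X₀ i) + 1, fun X hX g hg hm => ?_⟩
  have hX' : ∀ i, X₀ i ≤ X := by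
    intro i
    have := single_le_sum (f := X₀) (fun _ _ => Nat.zero_le _) (mem_univ i)
    omega
  choose T hT hTs hTg using fun i : Fin r => hX₀ i X (hX' i) (g i) (hg i) (hm i)
  have hlog : 0 ≤ Real.log X := Real.log_natCast_nonneg X
  refine ⟨univ.biUnion T, ?_, ?_, ?_⟩
  · intro n hn
    rw [mem_biUnion] at hn
    obtain ⟨i, _, hi⟩ := hn
    exact hT i hi
  · have e1 : ∑ N ∈ univ.biUnion T, (1 : ℝ) / N ≤ ∑ i, ∑ N ∈ T i, (1 : ℝ) / N := by
      have e0 : ∀ N ∈ univ.biUnion T, (1 : ℝ) / N ≤ ∑ i, if N ∈ T i then (1 : ℝ) / N else 0 := by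
        intro N hN
        obtain ⟨i, _, hi⟩ := mem_biUnion.1 hN
        refine le_trans (le_of_eq ?_) (single_le_sum (f := fun i => if N ∈ T i then (1 : ℝ) / N else 0)
          (fun _ _ => by split_ifs <;> positivity) (mem_univ i))
        simp only [if_pos hi]
      refine (sum_le_sum e0).trans ?_
      rw [sum_comm]
      refine sum_le_sum fun i _ => ?_
      rw [← sum_filter]
      apply sum_le_sum_of_subset_of_nonneg
      · intro N hN
        exact (mem_filter.1 hN).2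
      · intro N _ _
        positivity
    refine e1.trans ((sum_le_sum fun i _ => hTs i).trans ?_)
    rw [sum_const, card_univ, Fintype.card_fin, nsmul_eq_mul]
    calc (r : ℝ) * (ε / (r + 1) * Real.log X) = (r / (r + 1)) * (ε * Real.log X) := by
          field_simp
      _ ≤ 1 * (ε * Real.log X) := by
          apply mul_le_mul_of_nonneg_right _ (by positivity)
          rw [div_le_one (by positivity)]
          linarith
      _ = _ := one_mul _
  · intro N hN hNT G hG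
    have hN1 : 1 ≤ N := (mem_Icc.1 hN).1
    obtain ⟨B, hB, hBc, hBg⟩ := tup N hN1 (fun i n => f (n + a i) * g i (n + c i)) (fun i n => by
        rw [norm_mul]
        exact mul_le_one₀ (hb _) (norm_nonneg _) (hg i _)) δ ε hδ0.le hε (fun i α => by
        refine hTg i N hN (fun h => hNT ?_) α
        rw [mem_biUnion]
        exact ⟨i, mem_univ _, h⟩) G hG
    refine ⟨B, hB, hBc.trans (le_of_eq ?_), fun h hh hhB J hJ => ?_⟩
    · rw [hδ]
      field_simp
    · have := hBg h hh hhB J hJ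
      simpa using this

end Pool.Agent.V11296.RP
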