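import Pool.Agent.V11296.RP4

/-!
Library V11296.RP (helper296), part 5: the Moebius and the Liouville function; functions on the positive integers;
fixed functions.
-/

set_option autoImplicit false

namespace Pool.Agent.V11296.RP

open Finset
open Pool.Agent.H807R2.Dav (ee norm_ee ee_add ee_int ee_pow ee_zero)
open Pool.Agent.H373R2.T7 (liR liR_norm sup_liou)
open Pool.Agent.TH823.MRS (ExpoSmall)
open Pool.Agent.Y842.PG (Flp pair_all log_two_mul)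
open Pool.Agent.Y304.U (sE ind_nonneg ind_le sE_nonneg)
open Pool.Agent.Y958.U (LZ)
open Pool.Agent.Y842.EL (LZ_eps LZ_mono LZ_union LZ_empty)
open Pool.Agent.V1213.CH (LZ_fin LZ_bU)

/-- multiplicative functions on the positive integers with values in the unit disc -/
def MU (g : ℕ → ℂ) : Prop := (∀ n, 1 ≤ n → ‖g n‖ ≤ 1) ∧ ∀ m n : ℕ, 1 ≤ m → 1 ≤ n → Nat.Coprime m n → g (m * n) = g m * g n

/-- the value at zero is changed -/
noncomputable def z0 (g : ℕ → ℂ) (n : ℕ) : ℂ := if n = 0 then 0 else g n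

lemma z0_le (g : ℕ → ℂ) (h : MU g) (n : ℕ) : ‖z0 g n‖ ≤ 1 := by
  unfold z0
  split_ifs with h0
  · simp
  · exact h.1 n (by omega)

lemma z0_mul (g : ℕ → ℂ) (h : MU g) (m n : ℕ) (hc : Nat.Coprime m n) : z0 g (m * n) = z0 g m * z0 g n := by
  unfold z0
  by_cases h1 : m = 0
  · simp [h1]
  by_cases h2 : n = 0
  · simp [h2]
  rw [if_neg h1, if_neg h2, if_neg (Nat.mul_ne_zero h1 h2)]
  exact h.2 m n (by omega) (by omega) hc

/-- the Moebius function -/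
noncomputable def mo (n : ℕ) : ℂ := ((ArithmeticFunction.moebius n : ℤ) : ℂ)

/-- the two functions -/
def Good2 (f : ℕ → ℂ) : Prop := f = liR ∨ f = mo

lemma good_le (f : ℕ → ℂ) (h : Good2 f) (n : ℕ) : ‖f n‖ ≤ 1 := by
  rcases h with rfl | rfl
  · exact liR_norm n
  · exact Pool.Agent.TH823.MRS.mu_le n

lemma good_E (f : ℕ → ℂ) (h : Good2 f) : ExpoSmall f := by
  rcases h with rfl | rfl
  · exact Pool.Agent.TH823.MRS.liR_E
  · exact Pool.Agent.TH823.MRS.mu_E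

lemma good_F (f : ℕ → ℂ) (h : Good2 f) (p : ℕ) (hp : p.Prime) : Flp f p := by
  rcases h with rfl | rfl
  · exact liR_Flp p hp
  · refine ⟨-1, by simp, fun n hn => ?_⟩
    unfold mo
    have hc : Nat.Coprime p n := (Nat.Prime.coprime_iff_not_dvd hp).2 hn
    rw [ArithmeticFunction.isMultiplicative_moebius.map_mul_of_coprime hc, ArithmeticFunction.moebius_apply_prime hp]
    push_cast
    ring

/-- pairs at random distances, uniformly, functions on the positive integers -/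
theorem pairs' (f : ℕ → ℂ) (hf : Good2 f) (r : ℕ)
    (a c : Fin r → ℕ) (hac : ∀ i, a i ≠ c i) (ε : ℝ) (hε : 0 < ε) :
    ∃ X₀ : ℕ, ∀ X : ℕ, X₀ ≤ X → ∀ g : Fin r → ℕ → ℂ, (∀ i, MU (g i)) →
      ∃ T ⊆ Icc 1 X, ∑ N ∈ T, (1 : ℝ) / N ≤ ε * Real.log X ∧ ∀ N ∈ Icc 1 X, N ∉ T → ∀ G : ℕ → ℂ, (∀ n, 1 ≤ n → ‖G n‖ ≤ 1) →
        ∃ B ⊆ (Fintype.piFinset fun _ : Fin r => Icc 1 N), (B.card : ℝ) ≤ ε * (N : ℝ) ^ r ∧
          ∀ h ∈ (Fintype.piFinset fun _ : Fin r => Icc 1 N), h ∉ B → ∀ J : Finset (Fin r), J.Nonempty →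
            ‖∑ n ∈ Icc 1 N, G n * ∏ i ∈ J, (f (n + h i + a i) * g i (n + h i + c i))‖ ≤ ε * N := by
  obtain ⟨X₀, h0⟩ := pairs f (good_le f hf) (good_E f hf) (good_F f hf) r a c hac ε hε
  refine ⟨X₀, fun X hX g hg => ?_⟩
  obtain ⟨T, hT, hTs, hTg⟩ := h0 X hX (fun i => z0 (g i)) (fun i n => z0_le _ (hg i) n) (fun i m n hc => z0_mul _ (hg i) m n hc)
  refine ⟨T, hT, hTs, fun N hN hNT G hG => ?_⟩
  obtain ⟨B, hB, hBc, hBg⟩ := hTg N hN hNT (fun n => if n = 0 then 0 else G n) (fun n => by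
    split_ifs with h
    · simp
    · exact hG n (by omega))
  refine ⟨B, hB, hBc, fun h hh hhB J hJ => ?_⟩
  refine le_trans (le_of_eq ?_) (hBg h hh hhB J hJ)
  congr 1
  refine sum_congr rfl fun n hn => ?_
  rw [mem_Icc] at hn
  rw [if_neg (by omega)]
  congr 1
  refine prod_congr rfl fun i _ => ?_
  unfold z0
  rw [if_neg (by omega)]

/-- fixed functions -/
theorem pairs_fixed (f : ℕ → ℂ) (hf : Good2 f) (r : ℕ)
    (a c : Fin r → ℕ) (hac : ∀ i, a i ≠ c i) (g : Fin r → ℕ → ℂ) (hg : ∀ i, MU (g i)) (ε : ℝ) (hε : 0 < ε) :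
    LZ {N : ℕ | ¬ ∀ G : ℕ → ℂ, (∀ n, 1 ≤ n → ‖G n‖ ≤ 1) →
        ∃ B ⊆ (Fintype.piFinset fun _ : Fin r => Icc 1 N), (B.card : ℝ) ≤ ε * (N : ℝ) ^ r ∧
          ∀ h ∈ (Fintype.piFinset fun _ : Fin r => Icc 1 N), h ∉ B → ∀ J : Finset (Fin r), J.Nonempty →
            ‖∑ n ∈ Icc 1 N, G n * ∏ i ∈ J, (f (n + h i + a i) * g i (n + h i + c i))‖ ≤ ε * N} := by
  classical
  rw [LZ_eps]
  intro ε' hε'
  obtain ⟨X₀, h0⟩ := pairs' f hf r a c hac (min ε ε') (lt_min hε hε')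
  refine ⟨X₀, fun X hX => ?_⟩
  obtain ⟨T, hT, hTs, hTg⟩ := h0 X hX g hg
  rw [Pool.Agent.V1213.CH.sE_eq]
  have hlog : 0 ≤ Real.log X := Real.log_natCast_nonneg X
  refine le_trans ?_ (hTs.trans (mul_le_mul_of_nonneg_right (min_le_right _ _) hlog))
  apply sum_le_sum_of_subset_of_nonneg
  · intro N hN
    rw [mem_filter] at hN
    by_contra hNT
    apply hN.2
    intro G hG
    obtain ⟨B, hB, hBc, hBg⟩ := hTg N hN.1 hNT G hG
    have hN0 : (0 : ℝ) ≤ N := Nat.cast_nonneg N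
    exact ⟨B, hB, hBc.trans (mul_le_mul_of_nonneg_right (min_le_left _ _) (by positivity)),
      fun h hh hhB J hJ => (hBg h hh hhB J hJ).trans (mul_le_mul_of_nonneg_right (min_le_left _ _) hN0)⟩
  · intro N _ _
    positivity

end Pool.Agent.V11296.RP
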